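import Pool.Agent.H50.CS.TubeDefs

/-!
# CS-BLOW: the Levi forms of `b`, `G`, `a`

Notation at the point `x` in direction `v`: `X = c.X x`, `R = c.R x`, `t = c.tt x`, `r = c.rr x`, `p = pf τ t`,
`A2 = c.xr x v`, `B2 = c.xsq x v - A2 ≥ 0`, `β_i = c.beX i x`, `ℓ_i = c.elX i x`, `D_i = Dl K (T i) τ t`, `M_i = Ml …`,
and `s'' = 2τ²e^{2t}/(e^{2t}+τ²)²` (`e^{2t} = X` if `X > 0`).

* `levi_b`: `levi_lr_mul` for each `i` (and linearity of `levi`, `levi_add`, `levi_const_mul`, finite sums), with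
  `deriv_el`, `deriv2_el`:
  `levi b = ε ∑ { β_i [2pD_i/(2X) B2 + (4p²M_i - s''D_i)/(4X) A2] + ℓ_i β_i''/(4R)|η|²
            + 2 (2pD_i/(2X)) (β_i'/(2R)) Re(cc conj dd) }`.
* `b_lower`: (i) `∑β_i 2pD_i/(2X) B2 = p SD/X B2`; (ii) `∑β_i(4p²M_i)/(4X)A2 = p² SM/X A2`;
  (iii) `s''/(4X) ≤ 1/(2τ²)` for `X > 0` and `∑β_iD_i ≤ 1/(K T 0)` (`Dl_le`, `T i ≥ T 0`), `A2 ≤ |ξ|²`: this term is
  `≥ -ε/(2τ²K T 0)|ξ|²`; (iv) cross terms: `= ε p (∑D_iβ_i')/(XR) Re(cc conj dd)`,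
  `|cc| = √X √A2`, `|dd| = √R |η|` (`dd_sq`), `(∑D_iβ_i')² ≤ N∑D_i²β_i'² ≤ N Cs ∑β_iD_i² ≤ (N Cs/K) SM` (`be_sq`, `Dl_sq`), so
  `|cross| ≤ ε(½ p² SM/X A2 + ½ (N Cs/K)|η|²/R)`, and it vanishes unless `-5 < r < 0` (`be_deriv_zero`), where
  `1/R ≤ e^{10}`; (v) `ε/(4R) ∑ℓ_iβ_i''|η|²`: `abel` with `l i = ℓ_i` (`el_mono`, `elX_mem`); it vanishes if `R = 0` and
  unless `-5 < r < 0`.
* `G_lower`: `G = 4τ² log(X+τ²)`: `levi G = 4τ²(|ξ|²/(X+τ²) - |cc|²/(X+τ²)²) ≥ 4τ⁴|ξ|²/(X+τ²)²` (`levi_comp`,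
  `levi_X`, `cc_le`), which is `≥ |ξ|²` when `X ≤ τ²`, and always `≥ 0`.
* `levi_a`: the same computation as `levi_b` for the adapted basis (`bas_*`): for `X > 0`
  `levi a (v₁) ≤ (A/N) p²/X UM`, `levi a (v₂) = (A/N) p/X UD`, `levi a (v₃) = (A/N) ∑ℓ_i u_i''/(4R)`.
  For `X = 0`: `levi a x v = 0` for every `v` with `v 2 = 0`.
(This file: b_lower.)
-/

set_option autoImplicit false

noncomputable section

namespace Pool.Agent.H50.CS

open Complex Metric MeasureTheory Set Filter Topology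
open scoped ContDiff ComplexConjugate
open Pool.Agent.H8.FZ

namespace Crv

variable {c : Crv} {N : ℕ} {ν : ℕ → ℝ} {K τ : ℝ} {T : ℕ → ℝ}

namespace BLowAux

lemma levi_sum (F : ℕ → En 3 → ℝ) (N : ℕ) (hF : ∀ i < N, ContDiff ℝ ∞ (F i)) (x v : En 3) :
    levi (fun y => ∑ i ∈ Finset.range N, F i y) x v =
      ∑ i ∈ Finset.range N, levi (F i) x v := by
  induction N with
  | zero =>
    simp only [Finset.range_zero, Finset.sum_empty]
    unfold levi
    have : fderiv ℝ (fun _ : En 3 => (0 : ℝ)) = fun _ => 0 := by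
      funext y
      simp
    rw [this]
    simp
  | succ N ih =>
    have h1 : (fun y => ∑ i ∈ Finset.range (N + 1), F i y) =
        fun y => (∑ i ∈ Finset.range N, F i y) + F N y := by
      funext y
      rw [Finset.sum_range_succ]
    have h2 : ContDiff ℝ ∞ (fun y => ∑ i ∈ Finset.range N, F i y) :=
      ContDiff.sum fun i hi => hF i (by rw [Finset.mem_range] at hi; omega)
    have hle : (2 : WithTop ℕ∞) ≤ ∞ := WithTop.coe_le_coe.2 le_top
    rw [h1, Pool.Agent.H8.FZ.levi_add (h2.contDiffAt.of_le hle)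
      ((hF N (by omega)).contDiffAt.of_le hle), Finset.sum_range_succ,
      ih fun i hi => hF i (by omega)]

/-- the exact Levi form of `b` -/
lemma levi_b (h : Scales N ν) (hK : 0 < K) (hτ : 0 < τ) (hT : ∀ i, 0 < T i) (ε : ℝ)
    (x v : En 3) : levi (c.bfun N ν K τ T ε) x v = ε * (
      pf τ (c.tt x) * c.SD N ν K τ T x / c.X x * (c.xsq x v - c.xr x v) +
      pf τ (c.tt x) ^ 2 * c.SM N ν K τ T x / c.X x * c.xr x v -
      2 * τ ^ 2 * Real.exp (2 * c.tt x) / (Real.exp (2 * c.tt x) + τ ^ 2) ^ 2 / (4 * c.X x) *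
        c.SD N ν K τ T x * c.xr x v +
      (∑ i ∈ Finset.range N, deriv (deriv (be N ν i)) (c.rr x) * c.elX K τ T i x) /
        (4 * c.R x) * ‖c.eta v‖ ^ 2 +
      pf τ (c.tt x) / (c.X x * c.R x) *
        (∑ i ∈ Finset.range N, Dl K (T i) τ (c.tt x) * deriv (be N ν i) (c.rr x)) *
        (c.cc x v * conj (c.dd x v)).re) := by
  have hle : (2 : WithTop ℕ∞) ≤ ∞ := WithTop.coe_le_coe.2 le_top
  have hs : ∀ i < N, ContDiff ℝ ∞ fun y => c.beX N ν i y * c.elX K τ T i y := fun i hi =>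
    (beX_smooth h hi).mul (elX_smooth hK hτ (hT i))
  have hsum : ContDiff ℝ ∞ fun y => ∑ i ∈ Finset.range N, c.beX N ν i y * c.elX K τ T i y :=
    ContDiff.sum fun i hi => hs i (Finset.mem_range.1 hi)
  have h1 : levi (c.bfun N ν K τ T ε) x v = ε *
      ∑ i ∈ Finset.range N, levi (fun y => c.beX N ν i y * c.elX K τ T i y) x v := by
    have e1 : c.bfun N ν K τ T ε = fun y => ε *
        (∑ i ∈ Finset.range N, c.beX N ν i y * c.elX K τ T i y) := rfl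
    rw [e1, levi_const_mul (hsum.contDiffAt.of_le hle),
      levi_sum (fun i y => c.beX N ν i y * c.elX K τ T i y) N hs]
  rw [h1]
  congr 1
  have h2 : ∀ i ∈ Finset.range N, levi (fun y => c.beX N ν i y * c.elX K τ T i y) x v =
      pf τ (c.tt x) / c.X x * (c.xsq x v - c.xr x v) *
        (c.beX N ν i x * Dl K (T i) τ (c.tt x)) +
      pf τ (c.tt x) ^ 2 / c.X x * c.xr x v * (c.beX N ν i x * Ml K (T i) τ (c.tt x)) -
      2 * τ ^ 2 * Real.exp (2 * c.tt x) / (Real.exp (2 * c.tt x) + τ ^ 2) ^ 2 / (4 * c.X x) *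
        c.xr x v * (c.beX N ν i x * Dl K (T i) τ (c.tt x)) +
      1 / (4 * c.R x) * ‖c.eta v‖ ^ 2 *
        (deriv (deriv (be N ν i)) (c.rr x) * c.elX K τ T i x) +
      pf τ (c.tt x) / (c.X x * c.R x) * (c.cc x v * conj (c.dd x v)).re *
        (Dl K (T i) τ (c.tt x) * deriv (be N ν i) (c.rr x)) := by
    intro i hi
    rw [Finset.mem_range] at hi
    obtain ⟨t₀, ht₀⟩ := el_const hK (hT i) hτ
    have h3 := c.levi_lr_mul (el_smooth hK (hT i) hτ) (be_smooth h i) ht₀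
      (r₀ := -5) (d := be N ν i (-5)) (fun t ht => (be_left h hi ht).1) x v
    have e2 : (fun y => c.beX N ν i y * c.elX K τ T i y) = fun y =>
        lr (be N ν i) (be N ν i (-5)) (c.R y) * lr (el K (T i) τ) (Ps (-1)) (c.X y) := rfl
    rw [e2, h3]
    change _ = pf τ (c.tt x) / c.X x * (c.xsq x v - ‖c.cc x v‖ ^ 2 / c.X x) *
        (lr (be N ν i) (be N ν i (-5)) (c.R x) * Dl K (T i) τ (c.tt x)) +
      pf τ (c.tt x) ^ 2 / c.X x * (‖c.cc x v‖ ^ 2 / c.X x) *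
        (lr (be N ν i) (be N ν i (-5)) (c.R x) * Ml K (T i) τ (c.tt x)) -
      2 * τ ^ 2 * Real.exp (2 * c.tt x) / (Real.exp (2 * c.tt x) + τ ^ 2) ^ 2 / (4 * c.X x) *
        (‖c.cc x v‖ ^ 2 / c.X x) *
        (lr (be N ν i) (be N ν i (-5)) (c.R x) * Dl K (T i) τ (c.tt x)) +
      1 / (4 * c.R x) * ‖c.eta v‖ ^ 2 *
        (deriv (deriv (be N ν i)) (c.rr x) * lr (el K (T i) τ) (Ps (-1)) (c.X x)) +
      pf τ (c.tt x) / (c.X x * c.R x) * (c.cc x v * conj (c.dd x v)).re *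
        (Dl K (T i) τ (c.tt x) * deriv (be N ν i) (c.rr x))
    have e3 : 1 / 2 * Real.log (c.X x) = c.tt x := rfl
    have e4 : 1 / 2 * Real.log (c.R x) = c.rr x := rfl
    rw [e3, e4, deriv_el hK (hT i) hτ, deriv2_el hK (hT i) hτ]
    ring
  rw [Finset.sum_congr rfl h2, Finset.sum_add_distrib, Finset.sum_add_distrib,
    Finset.sum_sub_distrib, Finset.sum_add_distrib, ← Finset.mul_sum, ← Finset.mul_sum,
    ← Finset.mul_sum, ← Finset.mul_sum, ← Finset.mul_sum]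
  unfold SD SM
  ring

lemma R_pos_of {x : En 3} (h1 : -5 < c.rr x) (h2 : c.rr x < 0) :
    0 < c.R x ∧ 1 / c.R x ≤ Real.exp 10 := by
  have h3 := c.R_nonneg x
  have h4 : 0 < c.R x := by
    rcases h3.eq_or_lt with h0 | h0
    · exfalso
      have : c.rr x = 0 := by
        unfold rr
        rw [← h0, Real.log_zero, mul_zero]
      linarith
    · exact h0
  refine ⟨h4, ?_⟩
  have h5 : -10 < Real.log (c.R x) := by
    have : c.rr x = 1 / 2 * Real.log (c.R x) := rfl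
    linarith
  rw [div_le_iff₀ h4]
  have h6 : Real.exp (-10) < c.R x := (Real.lt_log_iff_exp_lt h4).1 h5
  have h7 : Real.exp 10 * Real.exp (-10) = 1 := by
    rw [← Real.exp_add]; norm_num
  have := mul_lt_mul_of_pos_left h6 (Real.exp_pos 10)
  linarith

/-- the term with `s''` -/
lemma term_s (h : Scales N ν) (hK : 0 < K) (hτ : 0 < τ) (hT1 : ∀ i, 1 ≤ T i)
    (hTm : ∀ i, T i ≤ T (i + 1)) (x v : En 3) :
    2 * τ ^ 2 * Real.exp (2 * c.tt x) / (Real.exp (2 * c.tt x) + τ ^ 2) ^ 2 / (4 * c.X x) *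
      c.SD N ν K τ T x * c.xr x v ≤ 1 / (2 * τ ^ 2 * K * T 0) * c.xsq x v := by
  have hT : ∀ i, 0 < T i := fun i => lt_of_lt_of_le one_pos (hT1 i)
  have hx0 := c.X_nonneg x
  have hxr := xr_nonneg (c := c) x v
  have hxl := xr_le (c := c) x v
  have hSD0 := SD_nonneg (c := c) (τ := τ) (T := T) h hK hT x
  have hT0 : ∀ i, T 0 ≤ T i := by
    intro i
    induction i with
    | zero => exact le_rfl
    | succ i ih => exact ih.trans (hTm i)
  have hSD : c.SD N ν K τ T x ≤ 1 / (K * T 0) := by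
    unfold SD
    calc ∑ i ∈ Finset.range N, c.beX N ν i x * Dl K (T i) τ (c.tt x)
        ≤ ∑ i ∈ Finset.range N, c.beX N ν i x * (1 / (K * T 0)) := by
          apply Finset.sum_le_sum
          intro i _
          apply mul_le_mul_of_nonneg_left _ (beX_nonneg h i x)
          refine (Dl_le hK (hT i) _).trans ?_
          apply one_div_le_one_div_of_le (mul_pos hK (hT 0))
          exact mul_le_mul_of_nonneg_left (hT0 i) hK.le
      _ = 1 / (K * T 0) := by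
          rw [← Finset.sum_mul, sum_beX h, one_mul]
  rcases hx0.eq_or_lt with h0 | h0
  · rw [← h0, mul_zero, div_zero, zero_mul, zero_mul]
    exact mul_nonneg (by have := hT 0; positivity) (hxr.trans hxl)
  · have he : Real.exp (2 * c.tt x) = c.X x := by
      have : 2 * c.tt x = Real.log (c.X x) := by unfold tt; ring
      rw [this, Real.exp_log h0]
    rw [he]
    have hτ2 : 0 < τ ^ 2 := by positivity
    have h1 : 2 * τ ^ 2 * c.X x / (c.X x + τ ^ 2) ^ 2 / (4 * c.X x) ≤ 1 / (2 * τ ^ 2) := by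
      rw [div_div, div_le_div_iff₀ (by positivity) (by positivity)]
      have h2 : τ ^ 2 * τ ^ 2 ≤ (c.X x + τ ^ 2) ^ 2 := by nlinarith
      have h3 := mul_le_mul_of_nonneg_left h2 (by positivity : 0 ≤ 4 * c.X x)
      linarith
    have h1' : 0 ≤ 2 * τ ^ 2 * c.X x / (c.X x + τ ^ 2) ^ 2 / (4 * c.X x) := by positivity
    calc 2 * τ ^ 2 * c.X x / (c.X x + τ ^ 2) ^ 2 / (4 * c.X x) * c.SD N ν K τ T x * c.xr x v
        ≤ 1 / (2 * τ ^ 2) * (1 / (K * T 0)) * c.xsq x v := by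
          apply mul_le_mul _ hxl hxr (by have := hT 0; positivity)
          exact mul_le_mul h1 hSD hSD0 (by positivity)
      _ = _ := by
          rw [← one_div_mul_one_div_rev]
          have := hT 0
          field_simp

/-- Cauchy-Schwarz for the cross terms -/
lemma S1_sq (h : Scales N ν) (hK : 0 < K) (hT : ∀ i, 0 < T i)
    {Cs : ℝ} (hCs0 : 0 < Cs)
    (hCs : ∀ i < N, ∀ ρ, deriv (be N ν i) ρ ^ 2 ≤ Cs * be N ν i ρ) {x : En 3}
    (hR : 0 < c.R x) :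
    (∑ i ∈ Finset.range N, Dl K (T i) τ (c.tt x) * deriv (be N ν i) (c.rr x)) ^ 2 ≤
      N * Cs / K * c.SM N ν K τ T x := by
  have h1 := sq_sum_le_card_mul_sum_sq (s := Finset.range N)
    (f := fun i => Dl K (T i) τ (c.tt x) * deriv (be N ν i) (c.rr x))
  rw [Finset.card_range] at h1
  refine h1.trans ?_
  have h2 : ∑ i ∈ Finset.range N, (Dl K (T i) τ (c.tt x) * deriv (be N ν i) (c.rr x)) ^ 2 ≤
      ∑ i ∈ Finset.range N, Cs / K * (c.beX N ν i x * Ml K (T i) τ (c.tt x)) := by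
    apply Finset.sum_le_sum
    intro i hi
    rw [Finset.mem_range] at hi
    have hb : c.beX N ν i x = be N ν i (c.rr x) := lr_pos _ _ hR
    rw [mul_pow, hb]
    have h3 := Dl_sq hK (hT i) (τ := τ) (c.tt x)
    have h4 := hCs i hi (c.rr x)
    have h5 := be_nonneg h i (c.rr x)
    calc Dl K (T i) τ (c.tt x) ^ 2 * deriv (be N ν i) (c.rr x) ^ 2
        ≤ Ml K (T i) τ (c.tt x) / K * (Cs * be N ν i (c.rr x)) :=
          mul_le_mul h3 h4 (sq_nonneg _)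
            (div_nonneg (Ml_nonneg hK (hT i) _) hK.le)
      _ = _ := by ring
  rw [← Finset.mul_sum] at h2
  have h3 := mul_le_mul_of_nonneg_left h2 (Nat.cast_nonneg N : (0:ℝ) ≤ N)
  refine h3.trans (le_of_eq ?_)
  unfold SM
  ring

/-- the cross terms -/
lemma term_cross (h : Scales N ν) (hK : 0 < K) (hτ : 0 < τ) (hT : ∀ i, 0 < T i)
    {Cs : ℝ} (hCs0 : 0 < Cs)
    (hCs : ∀ i < N, ∀ ρ, deriv (be N ν i) ρ ^ 2 ≤ Cs * be N ν i ρ) (x v : En 3) :
    -(1 / 2 * pf τ (c.tt x) ^ 2 * c.SM N ν K τ T x / c.X x * c.xr x v) -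
      Real.exp 10 * N * Cs / (2 * K) * ‖c.eta v‖ ^ 2 ≤
    pf τ (c.tt x) / (c.X x * c.R x) *
        (∑ i ∈ Finset.range N, Dl K (T i) τ (c.tt x) * deriv (be N ν i) (c.rr x)) *
        (c.cc x v * conj (c.dd x v)).re := by
  have hx0 := c.X_nonneg x
  have hxr := xr_nonneg (c := c) x v
  have hSM0 := SM_nonneg (c := c) (τ := τ) (T := T) h hK hT x
  have hl : -(1 / 2 * pf τ (c.tt x) ^ 2 * c.SM N ν K τ T x / c.X x * c.xr x v) -
      Real.exp 10 * N * Cs / (2 * K) * ‖c.eta v‖ ^ 2 ≤ 0 := by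
    have h1 : 0 ≤ 1 / 2 * pf τ (c.tt x) ^ 2 * c.SM N ν K τ T x / c.X x * c.xr x v := by
      positivity
    have h2 : 0 ≤ Real.exp 10 * N * Cs / (2 * K) * ‖c.eta v‖ ^ 2 := by positivity
    linarith
  by_cases hr : c.rr x ≤ -5 ∨ 0 ≤ c.rr x
  · have h0 : ∑ i ∈ Finset.range N, Dl K (T i) τ (c.tt x) * deriv (be N ν i) (c.rr x) = 0 := by
      apply Finset.sum_eq_zero
      intro i hi
      rw [(be_deriv_zero h (Finset.mem_range.1 hi) hr).1, mul_zero]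
    rw [h0, mul_zero, zero_mul]
    exact hl
  push Not at hr
  obtain ⟨hR, hR'⟩ := R_pos_of hr.1 hr.2
  rcases hx0.eq_or_lt with h0 | h0
  · have : pf τ (c.tt x) / (c.X x * c.R x) = 0 := by
      rw [← h0, zero_mul, div_zero]
    rw [this, zero_mul, zero_mul]
    exact hl
  set S1 := ∑ i ∈ Finset.range N, Dl K (T i) τ (c.tt x) * deriv (be N ν i) (c.rr x) with hS1
  have hS := S1_sq (c := c) (τ := τ) (T := T) h hK hT hCs0 hCs hR
  rw [← hS1] at hS
  set p := pf τ (c.tt x) with hp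
  set SMx := c.SM N ν K τ T x with hSMx
  have hcc : ‖c.cc x v‖ ^ 2 = c.X x * c.xr x v := by
    unfold xr
    field_simp
  have hdd := c.dd_sq x v
  have hre : |(c.cc x v * conj (c.dd x v)).re| ≤ ‖c.cc x v‖ * ‖c.dd x v‖ := by
    refine (Complex.abs_re_le_norm _).trans (le_of_eq ?_)
    rw [norm_mul, Complex.norm_conj]
  -- the square of the cross term
  set Y := p / (c.X x * c.R x) * S1 * (c.cc x v * conj (c.dd x v)).re with hY
  have hY2 : Y ^ 2 ≤ (p ^ 2 * SMx / c.X x * c.xr x v) *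
      (Real.exp 10 * N * Cs / K * ‖c.eta v‖ ^ 2) := by
    have h1 : (c.cc x v * conj (c.dd x v)).re ^ 2 ≤ (c.X x * c.xr x v) *
        (c.R x * ‖c.eta v‖ ^ 2) := by
      rw [← sq_abs, ← hcc, ← hdd, ← mul_pow]
      exact pow_le_pow_left₀ (abs_nonneg _) hre 2
    calc Y ^ 2 = (p / (c.X x * c.R x)) ^ 2 * (S1 ^ 2 * (c.cc x v * conj (c.dd x v)).re ^ 2) := by
          rw [hY]; ring
      _ ≤ (p / (c.X x * c.R x)) ^ 2 * ((N * Cs / K * SMx) *
          ((c.X x * c.xr x v) * (c.R x * ‖c.eta v‖ ^ 2))) := by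
          apply mul_le_mul_of_nonneg_left _ (sq_nonneg _)
          exact mul_le_mul hS h1 (sq_nonneg _) (by positivity)
      _ = (p ^ 2 * SMx / c.X x * c.xr x v) * ((1 / c.R x) * (N * Cs / K * ‖c.eta v‖ ^ 2)) := by
          field_simp
      _ ≤ (p ^ 2 * SMx / c.X x * c.xr x v) *
          (Real.exp 10 * (N * Cs / K * ‖c.eta v‖ ^ 2)) := by
          apply mul_le_mul_of_nonneg_left _ (by positivity)
          exact mul_le_mul_of_nonneg_right hR' (by positivity)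
      _ = _ := by ring
  have hU : 0 ≤ p ^ 2 * SMx / c.X x * c.xr x v := by positivity
  have hW : 0 ≤ Real.exp 10 * N * Cs / K * ‖c.eta v‖ ^ 2 := by positivity
  have h2 : Y ^ 2 ≤ ((p ^ 2 * SMx / c.X x * c.xr x v +
      Real.exp 10 * N * Cs / K * ‖c.eta v‖ ^ 2) / 2) ^ 2 := by
    refine hY2.trans ?_
    nlinarith [sq_nonneg (p ^ 2 * SMx / c.X x * c.xr x v -
      Real.exp 10 * N * Cs / K * ‖c.eta v‖ ^ 2)]
  have h3 := (abs_le_of_sq_le_sq' h2 (by positivity)).1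
  have e1 : 1 / 2 * p ^ 2 * SMx / c.X x * c.xr x v = (p ^ 2 * SMx / c.X x * c.xr x v) / 2 := by
    ring
  have e2 : Real.exp 10 * N * Cs / (2 * K) * ‖c.eta v‖ ^ 2 =
      (Real.exp 10 * N * Cs / K * ‖c.eta v‖ ^ 2) / 2 := by
    ring
  rw [e1, e2]
  linarith

/-- the radial term -/
lemma term_rad (h : Scales N ν) (hK : 0 < K) (hT : ∀ i, 0 < T i)
    (hTm : ∀ i, T i ≤ T (i + 1)) (x v : En 3) :
    ∃ W : ℝ, (W = 0 ∨ ∃ k, k < N ∧ 1 ≤ ν k * ss ν (c.rr x) ∧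
        ν k * ss ν (c.rr x) ≤ 4 ∧ W = Real.exp 10 / 4 * Hc * ν k ^ 2 * |c.elX K τ T 0 x|) ∧
      -(W * ‖c.eta v‖ ^ 2) ≤
      (∑ i ∈ Finset.range N, deriv (deriv (be N ν i)) (c.rr x) * c.elX K τ T i x) /
        (4 * c.R x) * ‖c.eta v‖ ^ 2 := by
  by_cases hr : c.rr x ≤ -5 ∨ 0 ≤ c.rr x
  · refine ⟨0, Or.inl rfl, ?_⟩
    have h0 : ∑ i ∈ Finset.range N, deriv (deriv (be N ν i)) (c.rr x) * c.elX K τ T i x = 0 := by
      apply Finset.sum_eq_zero
      intro i hi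
      rw [(be_deriv_zero h (Finset.mem_range.1 hi) hr).2, zero_mul]
    rw [h0, zero_div, zero_mul, neg_zero]
  push Not at hr
  obtain ⟨hR, hR'⟩ := R_pos_of hr.1 hr.2
  have hmono : ∀ i, i + 1 < N → c.elX K τ T i x ≤ c.elX K τ T (i + 1) x := by
    intro i _
    unfold elX
    rcases le_or_gt (c.X x) 0 with h0 | h0
    · rw [lr_nonpos _ _ h0, lr_nonpos _ _ h0]
    · rw [lr_pos _ _ h0, lr_pos _ _ h0]
      exact el_mono hK (hT i) (hTm i) _
  rcases abel h (fun i => c.elX K τ T i x) (elX_mem hK (hT 0) x).1 hmono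
    (fun i _ => (elX_mem hK (hT i) x).2) (c.rr x) with h1 | ⟨k, hk, h1, h2, h3⟩
  · refine ⟨0, Or.inl rfl, ?_⟩
    rw [zero_mul, neg_zero]
    exact mul_nonneg (div_nonneg h1 (by positivity)) (sq_nonneg _)
  · refine ⟨_, Or.inr ⟨k, hk, h1, h2, rfl⟩, ?_⟩
    rw [← neg_mul]
    apply mul_le_mul_of_nonneg_right _ (sq_nonneg _)
    set S := ∑ i ∈ Finset.range N, deriv (deriv (be N ν i)) (c.rr x) * c.elX K τ T i x with hS
    set Z := Hc * ν k ^ 2 * |c.elX K τ T 0 x| with hZ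
    have e1 : -(Real.exp 10 / 4 * Hc * ν k ^ 2 * |c.elX K τ T 0 x|) =
        -(Real.exp 10 / 4 * Z) := by rw [hZ]; ring
    have e2 : S / (4 * c.R x) = (1 / c.R x) / 4 * S := by
      field_simp
    have hZ0 : 0 ≤ Z := by
      have := Hc_ge
      rw [hZ]
      positivity
    rw [e1, e2]
    rcases le_or_gt 0 S with h4 | h4
    · have h5 : 0 ≤ 1 / c.R x / 4 * S := by positivity
      have h6 : 0 ≤ Real.exp 10 / 4 * Z := by positivity
      linarith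
    · have h5 : Real.exp 10 / 4 * S ≤ 1 / c.R x / 4 * S := by
        apply mul_le_mul_of_nonpos_right _ h4.le
        linarith
      have h6 := mul_le_mul_of_nonneg_left h3 (by positivity : 0 ≤ Real.exp 10 / 4)
      linarith

end BLowAux

open BLowAux in
theorem b_lower (h : Scales N ν) (hK : 0 < K) (hτ : 0 < τ) (hT1 : ∀ i, 1 ≤ T i)
    (hTm : ∀ i, T i ≤ T (i + 1)) {Cs : ℝ} (hCs0 : 0 < Cs)
    (hCs : ∀ i < N, ∀ ρ, deriv (be N ν i) ρ ^ 2 ≤ Cs * be N ν i ρ) {ε : ℝ} (hε : 0 ≤ ε)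
    (x v : En 3) : ∃ W : ℝ, (W = 0 ∨ ∃ k, k < N ∧ 1 ≤ ν k * ss ν (c.rr x) ∧
        ν k * ss ν (c.rr x) ≤ 4 ∧ W = Real.exp 10 / 4 * Hc * ν k ^ 2 * |c.elX K τ T 0 x|) ∧
      ε * (pf τ (c.tt x) * c.SD N ν K τ T x / c.X x * (c.xsq x v - c.xr x v) +
          1 / 2 * pf τ (c.tt x) ^ 2 * c.SM N ν K τ T x / c.X x * c.xr x v) -
        ε / (2 * τ ^ 2 * K * T 0) * c.xsq x v -
        ε * (Real.exp 10 * N * Cs / (2 * K) + W) * ‖c.eta v‖ ^ 2 ≤
      levi (c.bfun N ν K τ T ε) x v := by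
  have hT : ∀ i, 0 < T i := fun i => lt_of_lt_of_le one_pos (hT1 i)
  obtain ⟨W, hW, h1⟩ := term_rad (c := c) (τ := τ) h hK hT hTm x v
  refine ⟨W, hW, ?_⟩
  rw [levi_b h hK hτ hT]
  have h2 := term_s (c := c) h hK hτ hT1 hTm x v
  have h3 := term_cross (c := c) h hK hτ hT hCs0 hCs x v
  have e1 : ε * (pf τ (c.tt x) * c.SD N ν K τ T x / c.X x * (c.xsq x v - c.xr x v) +
          1 / 2 * pf τ (c.tt x) ^ 2 * c.SM N ν K τ T x / c.X x * c.xr x v) -
        ε / (2 * τ ^ 2 * K * T 0) * c.xsq x v -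
        ε * (Real.exp 10 * N * Cs / (2 * K) + W) * ‖c.eta v‖ ^ 2 =
      ε * (pf τ (c.tt x) * c.SD N ν K τ T x / c.X x * (c.xsq x v - c.xr x v) +
          1 / 2 * pf τ (c.tt x) ^ 2 * c.SM N ν K τ T x / c.X x * c.xr x v -
          1 / (2 * τ ^ 2 * K * T 0) * c.xsq x v -
          (Real.exp 10 * N * Cs / (2 * K) * ‖c.eta v‖ ^ 2 + W * ‖c.eta v‖ ^ 2)) := by
    ring
  rw [e1]
  apply mul_le_mul_of_nonneg_left _ hε
  have e2 : 1 / 2 * pf τ (c.tt x) ^ 2 * c.SM N ν K τ T x / c.X x * c.xr x v =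
    pf τ (c.tt x) ^ 2 * c.SM N ν K τ T x / c.X x * c.xr x v -
    1 / 2 * pf τ (c.tt x) ^ 2 * c.SM N ν K τ T x / c.X x * c.xr x v := by ring
  linarith

end Crv

end Pool.Agent.H50.CS
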