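import Pool.Agent.H50.CS.TubeDefs

/-!
# CS-BLOW: the Levi forms of `b`, `G`, `a`

Notation at the point `x` in direction `v`: `X = c.X x`, `R = c.R x`, `t = c.tt x`, `r = c.rr x`, `p = pf τ t`,
`A2 = c.xr x v`, `B2 = c.xsq x v - A2 ≥ 0`, `β_i = c.beX i x`, `ℓ_i = c.elX i x`, `D_i = Dl K (T i) τ t`, `M_i = Ml …`,
and `s'' = 2τ²e^{2t}/(e^{2t}+τ²)²` (`e^{2t} = X` if `X > 0`).

* `levi_b`: `levi_lr_mul` for each `i` (and linearity of `levi`, `levi_add`, `levi_const_mul`, finite sums), with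
  `deriv_el`, `deriv2_el`:
  `levi b = ε ∑ { β_i [2pD_i/(2X) B2 + (4p²M_i - s''D_i)/(4X) A2] + ℓ_i β_i''/(4R)|η|²
            + 2 (2pD_i/(2X)) (β_i'/(2R)) Re(cc conj dd) }`.
* `b_lower`: (i) `∑β_i 2pD_i/(2X) B2 = p SD/X B2`; (ii) `∑β_i(4p²M_i)/(4X)A2 = p² SM/X A2`;
  (iii) `s''/(4X) ≤ 1/(2τ²)` for `X > 0` and `∑β_iD_i ≤ 1/(K T 0)` (`Dl_le`, `T i ≥ T 0`), `A2 ≤ |ξ|²`: this term is
  `≥ -ε/(2τ²K T 0)|ξ|²`; (iv) cross terms: `= ε p (∑D_iβ_i')/(XR) Re(cc conj dd)`,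
  `|cc| = √X √A2`, `|dd| = √R |η|` (`dd_sq`), `(∑D_iβ_i')² ≤ N∑D_i²β_i'² ≤ N Cs ∑β_iD_i² ≤ (N Cs/K) SM` (`be_sq`, `Dl_sq`), so
  `|cross| ≤ ε(½ p² SM/X A2 + ½ (N Cs/K)|η|²/R)`, and it vanishes unless `-5 < r < 0` (`be_deriv_zero`), where
  `1/R ≤ e^{10}`; (v) `ε/(4R) ∑ℓ_iβ_i''|η|²`: `abel` with `l i = ℓ_i` (`el_mono`, `elX_mem`); it vanishes if `R = 0` and
  unless `-5 < r < 0`.
* `G_lower`: `G = 4τ² log(X+τ²)`: `levi G = 4τ²(|ξ|²/(X+τ²) - |cc|²/(X+τ²)²) ≥ 4τ⁴|ξ|²/(X+τ²)²` (`levi_comp`,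
  `levi_X`, `cc_le`), which is `≥ |ξ|²` when `X ≤ τ²`, and always `≥ 0`.
* `levi_a`: the same computation as `levi_b` for the adapted basis (`bas_*`): for `X > 0`
  `levi a (v₁) ≤ (A/N) p²/X UM`, `levi a (v₂) = (A/N) p/X UD`, `levi a (v₃) = (A/N) ∑ℓ_i u_i''/(4R)`.
  For `X = 0`: `levi a x v = 0` for every `v` with `v 2 = 0`.
(This file: G_nonneg, G_lower.)
-/

set_option autoImplicit false

noncomputable section

namespace Pool.Agent.H50.CS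

open Complex Metric MeasureTheory Set Filter Topology
open scoped ContDiff ComplexConjugate
open Pool.Agent.H8.FZ

namespace Crv

variable {c : Crv} {N : ℕ} {ν : ℕ → ℝ} {K τ : ℝ} {T : ℕ → ℝ}

lemma levi_G (hτ : 0 < τ) (x v : En 3) : levi (c.Gfun τ) x v =
    4 * τ ^ 2 / (c.X x + τ ^ 2) * c.xsq x v - 4 * τ ^ 2 / (c.X x + τ ^ 2) ^ 2 * ‖c.cc x v‖ ^ 2 := by
  have hX := c.X_nonneg x
  have hpos : 0 < c.X x + τ ^ 2 := by positivity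
  have hXc : ContDiffAt ℝ 2 c.X x := (c.X_smooth.of_le ENat.LEInfty.out).contDiffAt
  have hg : ContDiffAt ℝ 2 (fun y : ℝ => 4 * τ ^ 2 * Real.log (y + τ ^ 2)) (c.X x) := by
    apply ContDiffAt.mul contDiffAt_const
    have h1 : ContDiffAt ℝ 2 (fun y : ℝ => y + τ ^ 2) (c.X x) := contDiffAt_id.add contDiffAt_const
    exact h1.log hpos.ne'
  have d1 : deriv (fun y : ℝ => 4 * τ ^ 2 * Real.log (y + τ ^ 2)) =
      fun y => 4 * τ ^ 2 * (y + τ ^ 2)⁻¹ := by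
    funext y
    rw [deriv_const_mul_field, deriv_comp_add_const, Real.deriv_log]
  have d2 : deriv (fun y : ℝ => 4 * τ ^ 2 * (y + τ ^ 2)⁻¹) (c.X x) =
      -(4 * τ ^ 2 / (c.X x + τ ^ 2) ^ 2) := by
    rw [deriv_const_mul_field, deriv_comp_add_const (fun y : ℝ => y⁻¹), deriv_inv]
    ring
  have h := levi_comp hXc hg v
  have e1 : c.Gfun τ = fun y => (fun y : ℝ => 4 * τ ^ 2 * Real.log (y + τ ^ 2)) (c.X y) := by
    funext y; rfl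
  rw [e1, h, d1, d2, c.levi_X, c.fderiv_X, c.fderiv_X_I]
  have e2 : ‖c.cc x v‖ ^ 2 = (c.cc x v).re ^ 2 + (c.cc x v).im ^ 2 := by
    rw [← Complex.normSq_eq_norm_sq, Complex.normSq_apply]; ring
  rw [e2]
  ring

lemma levi_G_lower (hτ : 0 < τ) (x v : En 3) :
    4 * τ ^ 4 / (c.X x + τ ^ 2) ^ 2 * c.xsq x v ≤ levi (c.Gfun τ) x v := by
  rw [levi_G hτ]
  have hX := c.X_nonneg x
  have hpos : 0 < c.X x + τ ^ 2 := by positivity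
  have hcc := c.cc_le x v
  have h1 : 4 * τ ^ 2 / (c.X x + τ ^ 2) ^ 2 * ‖c.cc x v‖ ^ 2 ≤
      4 * τ ^ 2 / (c.X x + τ ^ 2) ^ 2 * (c.X x * c.xsq x v) :=
    mul_le_mul_of_nonneg_left hcc (by positivity)
  have h2 : 4 * τ ^ 2 / (c.X x + τ ^ 2) * c.xsq x v -
      4 * τ ^ 2 / (c.X x + τ ^ 2) ^ 2 * (c.X x * c.xsq x v) =
      4 * τ ^ 4 / (c.X x + τ ^ 2) ^ 2 * c.xsq x v := by
    field_simp
    ring
  linarith

theorem G_nonneg (hτ : 0 < τ) (x v : En 3) : 0 ≤ levi (c.Gfun τ) x v := by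
  refine le_trans ?_ (levi_G_lower hτ x v)
  have hX := c.X_nonneg x
  have : 0 ≤ c.xsq x v := by unfold xsq; positivity
  positivity

theorem G_lower (hτ : 0 < τ) {x : En 3} (hx : c.X x ≤ τ ^ 2) (v : En 3) :
    c.xsq x v ≤ levi (c.Gfun τ) x v := by
  refine le_trans ?_ (levi_G_lower hτ x v)
  have hX := c.X_nonneg x
  have h0 : 0 ≤ c.xsq x v := by unfold xsq; positivity
  have hpos : 0 < c.X x + τ ^ 2 := by positivity
  apply le_mul_of_one_le_left h0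
  rw [one_le_div (by positivity)]
  have h1 : c.X x + τ ^ 2 ≤ 2 * τ ^ 2 := by linarith
  calc (c.X x + τ ^ 2) ^ 2 ≤ (2 * τ ^ 2) ^ 2 := pow_le_pow_left₀ hpos.le h1 2
    _ = 4 * τ ^ 4 := by ring

end Crv

end Pool.Agent.H50.CS
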