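import Pool.Agent.H50.CS.TubeDefs

/-!
# CS-BLOW: the Levi forms of `b`, `G`, `a`

Notation at the point `x` in direction `v`: `X = c.X x`, `R = c.R x`, `t = c.tt x`, `r = c.rr x`, `p = pf τ t`,
`A2 = c.xr x v`, `B2 = c.xsq x v - A2 ≥ 0`, `β_i = c.beX i x`, `ℓ_i = c.elX i x`, `D_i = Dl K (T i) τ t`, `M_i = Ml …`,
and `s'' = 2τ²e^{2t}/(e^{2t}+τ²)²` (`e^{2t} = X` if `X > 0`).

* `levi_b`: `levi_lr_mul` for each `i` (and linearity of `levi`, `levi_add`, `levi_const_mul`, finite sums), with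
  `deriv_el`, `deriv2_el`:
  `levi b = ε ∑ { β_i [2pD_i/(2X) B2 + (4p²M_i - s''D_i)/(4X) A2] + ℓ_i β_i''/(4R)|η|²
            + 2 (2pD_i/(2X)) (β_i'/(2R)) Re(cc conj dd) }`.
* `b_lower`: (i) `∑β_i 2pD_i/(2X) B2 = p SD/X B2`; (ii) `∑β_i(4p²M_i)/(4X)A2 = p² SM/X A2`;
  (iii) `s''/(4X) ≤ 1/(2τ²)` for `X > 0` and `∑β_iD_i ≤ 1/(K T 0)` (`Dl_le`, `T i ≥ T 0`), `A2 ≤ |ξ|²`: this term is
  `≥ -ε/(2τ²K T 0)|ξ|²`; (iv) cross terms: `= ε p (∑D_iβ_i')/(XR) Re(cc conj dd)`,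
  `|cc| = √X √A2`, `|dd| = √R |η|` (`dd_sq`), `(∑D_iβ_i')² ≤ N∑D_i²β_i'² ≤ N Cs ∑β_iD_i² ≤ (N Cs/K) SM` (`be_sq`, `Dl_sq`), so
  `|cross| ≤ ε(½ p² SM/X A2 + ½ (N Cs/K)|η|²/R)`, and it vanishes unless `-5 < r < 0` (`be_deriv_zero`), where
  `1/R ≤ e^{10}`; (v) `ε/(4R) ∑ℓ_iβ_i''|η|²`: `abel` with `l i = ℓ_i` (`el_mono`, `elX_mem`); it vanishes if `R = 0` and
  unless `-5 < r < 0`.
* `G_lower`: `G = 4τ² log(X+τ²)`: `levi G = 4τ²(|ξ|²/(X+τ²) - |cc|²/(X+τ²)²) ≥ 4τ⁴|ξ|²/(X+τ²)²` (`levi_comp`,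
  `levi_X`, `cc_le`), which is `≥ |ξ|²` when `X ≤ τ²`, and always `≥ 0`.
* `levi_a`: the same computation as `levi_b` for the adapted basis (`bas_*`): for `X > 0`
  `levi a (v₁) ≤ (A/N) p²/X UM`, `levi a (v₂) = (A/N) p/X UD`, `levi a (v₃) = (A/N) ∑ℓ_i u_i''/(4R)`.
  For `X = 0`: `levi a x v = 0` for every `v` with `v 2 = 0`.
(This file: levi_a_bas, levi_a_zero.)
-/

set_option autoImplicit false

noncomputable section

namespace Pool.Agent.H50.CS

open Complex Metric MeasureTheory Set Filter Topology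
open scoped ContDiff ComplexConjugate
open Pool.Agent.H8.FZ

/-- Levi form of a finite sum -/
lemma levi_finset_sum {ι : Type} (s : Finset ι) (F : ι → En 3 → ℝ) {x : En 3}
    (hF : ∀ i ∈ s, ContDiffAt ℝ 2 (F i) x) (v : En 3) :
    levi (fun y => ∑ i ∈ s, F i y) x v = ∑ i ∈ s, levi (F i) x v := by
  classical
  induction s using Finset.induction_on with
  | empty =>
    have h1 := levi_const_mul (P := fun _ : En 3 => (0 : ℝ)) (x := x) contDiffAt_const 0 v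
    simp only [mul_zero, zero_mul] at h1
    simpa using h1
  | insert i s hi ih =>
    have h1 : ContDiffAt ℝ 2 (fun y => ∑ i ∈ s, F i y) x :=
      ContDiffAt.sum (fun j hj => hF j (Finset.mem_insert_of_mem hj))
    have h2 := levi_add (hF i (Finset.mem_insert_self i s)) h1 v
    rw [Finset.sum_insert hi, ← ih (fun j hj => hF j (Finset.mem_insert_of_mem hj)), ← h2]
    congr 1
    funext y
    rw [Finset.sum_insert hi]

namespace Crv

variable {c : Crv} {N : ℕ} {ν : ℕ → ℝ} {K τ : ℝ} {T : ℕ → ℝ}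

/-- the Levi form of one product -/
lemma levi_uu_el (h : Scales N ν) (hK : 0 < K) (hτ : 0 < τ) {i : ℕ} (hi : i < N) (hT : 0 < T i)
    (x v : En 3) :
    levi (fun y => c.uuX ν i y * c.elX K τ T i y) x v =
      c.uuX ν i x * (2 * pf τ (c.tt x) * Dl K (T i) τ (c.tt x) / (2 * c.X x) *
          (c.xsq x v - ‖c.cc x v‖ ^ 2 / c.X x) +
        (4 * pf τ (c.tt x) ^ 2 * Ml K (T i) τ (c.tt x) -
          2 * τ ^ 2 * Real.exp (2 * c.tt x) / (Real.exp (2 * c.tt x) + τ ^ 2) ^ 2 *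
            Dl K (T i) τ (c.tt x)) / (4 * c.X x) * (‖c.cc x v‖ ^ 2 / c.X x)) +
      c.elX K τ T i x * (deriv (deriv (uu ν i)) (c.rr x) / (4 * c.R x) * ‖c.eta v‖ ^ 2) +
      2 * (2 * pf τ (c.tt x) * Dl K (T i) τ (c.tt x) / (2 * c.X x)) *
        (deriv (uu ν i) (c.rr x) / (2 * c.R x)) * (c.cc x v * conj (c.dd x v)).re := by
  obtain ⟨t₀, ht₀⟩ := el_const hK hT hτ
  have h1 := c.levi_lr_mul (el_smooth hK hT hτ) (uu_smooth h i) ht₀
    (fun t ht => (be_left h hi ht).2) x v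
  rw [deriv_el hK hT hτ, deriv2_el hK hT hτ] at h1
  exact h1

lemma levi_a_sum (h : Scales N ν) (hK : 0 < K) (hτ : 0 < τ) (hT1 : ∀ i, 1 ≤ T i) (A : ℝ)
    (x v : En 3) :
    levi (c.afun N ν K τ T A) x v =
      A / N * ∑ i ∈ Finset.range N, levi (fun y => c.uuX ν i y * c.elX K τ T i y) x v := by
  have hT : ∀ i, 0 < T i := fun i => lt_of_lt_of_le one_pos (hT1 i)
  have hs : ∀ i ∈ Finset.range N, ContDiffAt ℝ 2 (fun y => c.uuX ν i y * c.elX K τ T i y) x := by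
    intro i hi
    have h1 : ContDiff ℝ ∞ (c.uuX ν i) := uuX_smooth h (Finset.mem_range.mp hi)
    have h2 : ContDiff ℝ ∞ (c.elX K τ T i) := elX_smooth hK hτ (hT i)
    exact ((h1.mul h2).of_le ENat.LEInfty.out).contDiffAt
  have hsum := ContDiffAt.sum hs
  have e1 : c.afun N ν K τ T A = fun y => (A / N) *
      (∑ i ∈ Finset.range N, c.uuX ν i y * c.elX K τ T i y) + A / 4 := by
    funext y
    unfold afun
    ring
  rw [e1, levi_add_const, levi_const_mul hsum, levi_finset_sum _ _ hs]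

lemma bas_sum_ite (x : En 3) (j : Fin 3) :
    c.bas x j = ∑ i, (if i = j then (1 : ℂ) else 0) • c.bas x i := by
  simp

theorem levi_a_bas (h : Scales N ν) (hK : 0 < K) (hτ : 0 < τ) (hT1 : ∀ i, 1 ≤ T i) {A : ℝ}
    (hA : 0 ≤ A) {x : En 3} (hx : 0 < c.X x) :
    levi (c.afun N ν K τ T A) x (c.bas x 0) ≤
      A / N * (pf τ (c.tt x) ^ 2 / c.X x * c.UM N ν K τ T x) ∧
    levi (c.afun N ν K τ T A) x (c.bas x 1) ≤
      A / N * (pf τ (c.tt x) / c.X x * c.UD N ν K τ T x) ∧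
    levi (c.afun N ν K τ T A) x (c.bas x 2) =
      A / N * (∑ i ∈ Finset.range N,
        deriv (deriv (uu ν i)) (c.rr x) * c.elX K τ T i x) / (4 * c.R x) := by
  have hT : ∀ i, 0 < T i := fun i => lt_of_lt_of_le one_pos (hT1 i)
  have hAN : 0 ≤ A / N := div_nonneg hA (Nat.cast_nonneg N)
  have heta : ∀ j, c.eta (c.bas x j) = if (2 : Fin 3) = j then (1 : ℂ) else 0 := by
    intro j
    conv_lhs => rw [bas_sum_ite x j]
    rw [bas_eta]
  have hcc : ∀ j, ‖c.cc x (c.bas x j)‖ ^ 2 / c.X x = ‖(if (0 : Fin 3) = j then (1 : ℂ) else 0)‖ ^ 2 := by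
    intro j
    conv_lhs => rw [bas_sum_ite x j]
    rw [bas_cc c hx]
  have hxsq : ∀ j, c.xsq x (c.bas x j) = ‖(if (0 : Fin 3) = j then (1 : ℂ) else 0)‖ ^ 2 +
      ‖(if (1 : Fin 3) = j then (1 : ℂ) else 0)‖ ^ 2 := by
    intro j
    conv_lhs => rw [bas_sum_ite x j]
    rw [bas_xsq c hx]
  have hcross : ∀ j, (c.cc x (c.bas x j) * conj (c.dd x (c.bas x j))).re = 0 := by
    intro j
    by_cases hj : (0 : Fin 3) = j
    · have : c.dd x (c.bas x j) = 0 := by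
        unfold dd
        rw [heta j, if_neg (by rw [← hj]; decide), mul_zero]
      rw [this]; simp
    · have h1 := hcc j
      rw [if_neg hj, norm_zero, zero_pow two_ne_zero, div_eq_zero_iff] at h1
      rcases h1 with h1 | h1
      · have h2 : c.cc x (c.bas x j) = 0 := by
          rw [← norm_eq_zero]; exact pow_eq_zero_iff two_ne_zero |>.mp h1
        rw [h2]; simp
      · exact absurd h1 hx.ne'
  refine ⟨?_, ?_, ?_⟩
  · rw [levi_a_sum h hK hτ hT1]
    apply mul_le_mul_of_nonneg_left _ hAN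
    unfold UM
    rw [Finset.mul_sum]
    apply Finset.sum_le_sum
    intro i hi
    rw [levi_uu_el h hK hτ (Finset.mem_range.mp hi) (hT i), hcross, hcc, hxsq, heta]
    have hu := (uuX_mem (c := c) h i x).1
    have hD := Dl_nonneg hK (hT i) (τ := τ) (c.tt x)
    simp only [if_true, norm_one, one_pow, show ¬ ((1 : Fin 3) = 0) by decide, if_false, norm_zero,
      show ¬ ((2 : Fin 3) = 0) by decide]
    have h2 : 0 ≤ 2 * τ ^ 2 * Real.exp (2 * c.tt x) / (Real.exp (2 * c.tt x) + τ ^ 2) ^ 2 *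
            Dl K (T i) τ (c.tt x) := by positivity
    have h3 : (4 * pf τ (c.tt x) ^ 2 * Ml K (T i) τ (c.tt x) -
          2 * τ ^ 2 * Real.exp (2 * c.tt x) / (Real.exp (2 * c.tt x) + τ ^ 2) ^ 2 *
            Dl K (T i) τ (c.tt x)) / (4 * c.X x) ≤
        4 * pf τ (c.tt x) ^ 2 * Ml K (T i) τ (c.tt x) / (4 * c.X x) := by
      apply div_le_div_of_nonneg_right _ (by positivity)
      linarith
    have h4 := mul_le_mul_of_nonneg_left h3 hu
    have h5 : c.uuX ν i x * (4 * pf τ (c.tt x) ^ 2 * Ml K (T i) τ (c.tt x) / (4 * c.X x)) =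
        pf τ (c.tt x) ^ 2 / c.X x * (c.uuX ν i x * Ml K (T i) τ (c.tt x)) := by
      field_simp
    rw [h5] at h4
    nlinarith [h4]
  · rw [levi_a_sum h hK hτ hT1]
    apply mul_le_mul_of_nonneg_left _ hAN
    unfold UD
    rw [Finset.mul_sum]
    apply Finset.sum_le_sum
    intro i hi
    rw [levi_uu_el h hK hτ (Finset.mem_range.mp hi) (hT i), hcross, hcc, hxsq, heta]
    simp only [if_true, norm_one, one_pow, show ¬ ((0 : Fin 3) = 1) by decide, if_false, norm_zero,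
      show ¬ ((2 : Fin 3) = 1) by decide]
    apply le_of_eq
    field_simp
    ring
  · rw [levi_a_sum h hK hτ hT1, mul_div_assoc]
    congr 1
    rw [Finset.sum_div]
    apply Finset.sum_congr rfl
    intro i hi
    rw [levi_uu_el h hK hτ (Finset.mem_range.mp hi) (hT i), hcross, hcc, hxsq, heta]
    simp only [if_true, norm_one, one_pow, show ¬ ((0 : Fin 3) = 2) by decide, if_false, norm_zero,
      show ¬ ((1 : Fin 3) = 2) by decide]
    ring

theorem levi_a_zero (h : Scales N ν) (hK : 0 < K) (hτ : 0 < τ) (hT1 : ∀ i, 1 ≤ T i) {A : ℝ}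
    {x : En 3} (hx : c.X x = 0) {v : En 3} (hv : v 2 = 0) :
    levi (c.afun N ν K τ T A) x v = 0 := by
  have hT : ∀ i, 0 < T i := fun i => lt_of_lt_of_le one_pos (hT1 i)
  have heta : c.eta v = 0 := by
    unfold eta
    rw [hv, zero_div]
  have hdd : c.dd x v = 0 := by
    unfold dd
    rw [heta, mul_zero]
  rw [levi_a_sum h hK hτ hT1, Finset.sum_eq_zero, mul_zero]
  intro i hi
  rw [levi_uu_el h hK hτ (Finset.mem_range.mp hi) (hT i), hx, heta, hdd]
  simp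

end Crv

end Pool.Agent.H50.CS
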