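import Pool.Agent.H50.CS.TubeDefs

/-!
# CS-SYS: the sequence of tubes

* `curve_null`: `{x ∈ ball 0 1 | X x = 0}` has volume zero: it is contained in
  `A = {x ∈ ball 0 1 | x 0 = f₁((x 2 - w)/ρ)}`, whose translates `A + (1/(n+1)) e₀`, `n ∈ ℕ`, are pairwise disjoint, contained in
  `ball 0 2` (finite volume) and have the same volume (translation invariance). So `volume A = 0`.
* `bad_small`: `volume {x ∈ ball 0 1 | X x < σ²} → 0` as `σ → 0` (continuity from above along `σ = 1/n`,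
  `⋂ = {X = 0}`; finite measure).
* `tube_sub`: if `CrvOK c`, `c.w ≤ 1/16`, `0 < τ ≤ 1/4` then for `x` with `X x ≤ τ²`, `R x ≤ 1`: `‖x‖ ≤ 7/8`, hence the
  closure of the tube is a compact subset of `ball 0 1` (in fact of `closedBall 0 (7/8)`):
  `|(x₀,x₁)| ≤ |f(ζ)| + τ ≤ 1/2 + 1/4`, `|x₂| ≤ w + ρ ≤ 9/128`.
* `sys_exists`: `A₀` from `tube_thm`; for each `j`: `w_j = (1/2)^j/16`, `ε_j = (1/2)^j/64`: the curve `c_j` and its `τ₀`;
  `σ_j ∈ (0,1/2]` from `bad_small` with `volume (bad_j) ≤ (1/2)^(j+2) volume (ball 0 (w_j/2))`,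
  `bad_j = {x ∈ ball 0 1 | X x < σ_j²}`; `τ₁` from `psi_exists` with `η = A₀ (1/2)^j/32`, `σ = σ_j`;
  `τ_j = ½ min(τ₀, τ₁, 1/4)`, then `g_j, a_j` from `tube_thm` and `ψ_j` from `psi_exists` (`ε_j ≤ 1/64`).
* `bad_far`: `bad_j` is disjoint from `ball (1/4,0,0) (w_j/2)`: there `|x₂| < w_j/2`, so `‖ζ‖ ≥ w_j/(2ρ_j)`, `|f(ζ)| ≥ 2`
  (`far`), `|(x₀,x₁)| ≤ 1`, so `X ≥ 1 ≥ σ_j²`.
(This file: curve_null, bad_small, tube_sub.)
-/

set_option autoImplicit false

noncomputable section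

namespace Pool.Agent.H50.CS

open Complex Metric MeasureTheory Set Filter Topology
open scoped ContDiff ComplexConjugate
open Pool.Agent.H8.FZ
open scoped Pointwise

theorem Bad_X_cont (c : Crv) : Continuous c.X := c.X_smooth.continuous

theorem Bad_zset (c : Crv) : MeasurableSet {x : En 3 | x ∈ ball (0 : En 3) 1 ∧ c.X x = 0} :=
  (isOpen_ball.measurableSet).inter
    ((isClosed_eq (Bad_X_cont c) continuous_const).measurableSet)

theorem curve_null (c : Crv) : volume {x : En 3 | x ∈ ball (0 : En 3) 1 ∧ c.X x = 0} = 0 := by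
  set S : Set (En 3) := {x : En 3 | x ∈ ball (0 : En 3) 1 ∧ c.X x = 0} with hS
  set u : ℕ → En 3 := fun n => ((1 / ((n : ℝ) + 1) : ℝ) : ℂ) • EuclideanSpace.single (0 : Fin 3) (1 : ℂ)
    with hu
  have hbdd : Bornology.IsBounded (Set.range u) := by
    refine (isBounded_iff_forall_norm_le).2 ⟨1, ?_⟩
    rintro x ⟨n, rfl⟩
    simp only [hu, norm_smul, PiLp.norm_single, norm_one, mul_one]
    rw [Complex.norm_real, Real.norm_of_nonneg (by positivity), div_le_one (by positivity)]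
    have : (0 : ℝ) ≤ n := Nat.cast_nonneg n
    linarith
  have key : ∀ n : ℕ, ∀ y ∈ ({u n} : Set (En 3)) + S,
      y 0 - c.f1 (c.ze y) = ((1 / ((n : ℝ) + 1) : ℝ) : ℂ) := by
    intro n y hy
    obtain ⟨z, hz, x, hx, rfl⟩ := Set.mem_add.1 hy
    rw [Set.mem_singleton_iff] at hz
    subst hz
    have hX : c.X x = 0 := hx.2
    have h1 : ‖c.Z1 x‖ ^ 2 = 0 := by
      have := sq_nonneg ‖c.Z1 x‖
      have := sq_nonneg ‖c.Z2 x‖
      unfold Crv.X at hX
      linarith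
    have h2 : c.Z1 x = 0 := by
      rw [pow_eq_zero_iff (by norm_num), norm_eq_zero] at h1
      exact h1
    have h3 : c.ze (u n + x) = c.ze x := by
      simp [Crv.ze, hu]
    have h4 : (u n + x) 0 = ((1 / ((n : ℝ) + 1) : ℝ) : ℂ) + x 0 := by
      simp [hu]
    rw [h3, h4]
    unfold Crv.Z1 at h2
    linear_combination h2
  refine Measure.addHaar_eq_zero_of_disjoint_translates volume u hbdd ?_ (Bad_zset c)
  intro m n hmn
  refine Set.disjoint_left.2 fun y hy hy' => hmn ?_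
  have h1 := (key m y hy).symm.trans (key n y hy')
  have h2 : (1 / ((m : ℝ) + 1) : ℝ) = (1 / ((n : ℝ) + 1) : ℝ) := Complex.ofReal_injective h1
  have h3 : (m : ℝ) + 1 = (n : ℝ) + 1 := by
    have hm : (0 : ℝ) < (m : ℝ) + 1 := by positivity
    have hn : (0 : ℝ) < (n : ℝ) + 1 := by positivity
    field_simp at h2
    linarith
  exact_mod_cast (add_right_cancel h3)

theorem bad_small (c : Crv) {δ : ENNReal} (hδ : 0 < δ) : ∃ σ : ℝ, 0 < σ ∧ σ ≤ 1 / 2 ∧
    volume {x : En 3 | x ∈ ball (0 : En 3) 1 ∧ c.X x < σ ^ 2} ≤ δ := by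
  set A : ℕ → Set (En 3) := fun n => {x : En 3 | x ∈ ball (0 : En 3) 1 ∧
    c.X x < (1 / ((n : ℝ) + 2)) ^ 2} with hA
  have hmeas : ∀ n, NullMeasurableSet (A n) volume := fun n =>
    ((isOpen_ball.measurableSet).inter
      ((isOpen_lt (Bad_X_cont c) continuous_const).measurableSet)).nullMeasurableSet
  have hanti : Antitone A := by
    intro m n hmn x hx
    refine ⟨hx.1, lt_of_lt_of_le hx.2 ?_⟩
    have hm : (m : ℝ) ≤ n := by exact_mod_cast hmn
    have h0 : (0 : ℝ) ≤ m := Nat.cast_nonneg m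
    have : 1 / ((n : ℝ) + 2) ≤ 1 / ((m : ℝ) + 2) :=
      one_div_le_one_div_of_le (by linarith) (by linarith)
    exact pow_le_pow_left₀ (by positivity) this 2
  have hfin : ∃ n, volume (A n) ≠ ⊤ := by
    refine ⟨0, ne_of_lt (lt_of_le_of_lt (measure_mono fun x hx => hx.1) ?_)⟩
    exact measure_ball_lt_top (x := (0 : En 3)) (r := 1)
  have hlim := tendsto_measure_iInter_atTop hmeas hanti hfin
  have hinter : volume (⋂ n, A n) = 0 := by
    refine measure_mono_null ?_ (curve_null c)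
    intro x hx
    rw [Set.mem_iInter] at hx
    refine ⟨(hx 0).1, le_antisymm ?_ (c.X_nonneg x)⟩
    have ht : Tendsto (fun n : ℕ => (1 / ((n : ℝ) + 2)) ^ 2) atTop (𝓝 0) := by
      have h1 : Tendsto (fun n : ℕ => 1 / ((n : ℝ) + 2)) atTop (𝓝 0) := by
        have h2 : Tendsto (fun n : ℕ => (n : ℝ) + 2) atTop atTop :=
          tendsto_atTop_add_const_right _ _ tendsto_natCast_atTop_atTop
        simpa [one_div, Function.comp_def] using tendsto_inv_atTop_zero.comp h2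
      simpa using h1.pow 2
    exact ge_of_tendsto ht (Eventually.of_forall fun n => (hx n).2.le)
  rw [hinter] at hlim
  obtain ⟨n, hn⟩ := ((tendsto_order.1 hlim).2 δ hδ).exists
  refine ⟨1 / ((n : ℝ) + 2), by positivity, ?_, hn.le⟩
  have h0 : (0 : ℝ) ≤ n := Nat.cast_nonneg n
  exact one_div_le_one_div_of_le (by norm_num) (by linarith)

theorem Bad_sq_add (a b : ℂ) : ‖a + b‖ ^ 2 ≤ 3 / 2 * ‖b‖ ^ 2 + 3 * ‖a‖ ^ 2 := by
  have h1 := norm_add_le a b
  have h2 := norm_nonneg (a + b)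
  have h3 := norm_nonneg a
  have h4 := norm_nonneg b
  nlinarith [sq_nonneg (2 * ‖a‖ - ‖b‖)]

theorem tube_sub {c : Crv} (hc : CrvOK c) (hw : c.w ≤ 1 / 16) {τ : ℝ} (hτ : 0 < τ)
    (hτ4 : τ ≤ 1 / 4) : IsOpen (c.tube τ) ∧ closure (c.tube τ) ⊆ closedBall (0 : En 3) (7 / 8) ∧
      IsCompact (closure (c.tube τ)) := by
  have hsub : c.tube τ ⊆ closedBall (0 : En 3) (7 / 8) := by
    intro x hx
    obtain ⟨hX, hR⟩ := hx
    have hζ2 : ‖c.ze x‖ ^ 2 < 1 := hR
    have hζ : ‖c.ze x‖ ≤ 1 := by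
      have := norm_nonneg (c.ze x)
      nlinarith
    have hf := hc.disc (c.ze x) hζ
    have hX' : ‖c.Z1 x‖ ^ 2 + ‖c.Z2 x‖ ^ 2 < τ ^ 2 := hX
    have hτ2 : τ ^ 2 ≤ 1 / 16 := by nlinarith
    have e0 : x 0 = c.Z1 x + c.f1 (c.ze x) := by unfold Crv.Z1; ring
    have e1 : x 1 = c.Z2 x + c.f2 (c.ze x) := by unfold Crv.Z2; ring
    have b0 := Bad_sq_add (c.Z1 x) (c.f1 (c.ze x))
    have b1 := Bad_sq_add (c.Z2 x) (c.f2 (c.ze x))
    rw [← e0] at b0
    rw [← e1] at b1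
    have hρ0 : (c.ρ : ℂ) ≠ 0 := by exact_mod_cast c.hρ.ne'
    have e2 : x 2 = c.w + c.ρ * c.ze x := by unfold Crv.ze; field_simp; ring
    have b2 : ‖x 2‖ ≤ 9 / 128 := by
      rw [e2]
      refine (norm_add_le _ _).trans ?_
      rw [norm_mul, Complex.norm_real, Complex.norm_real, Real.norm_of_nonneg hc.hw.le,
        Real.norm_of_nonneg c.hρ.le]
      have h1 := hc.hρ8
      have h2 : c.ρ * ‖c.ze x‖ ≤ c.ρ * 1 := mul_le_mul_of_nonneg_left hζ c.hρ.le
      linarith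
    have b3 : ‖x 2‖ ^ 2 ≤ (9 / 128) ^ 2 := pow_le_pow_left₀ (norm_nonneg _) b2 2
    have hn : ‖x‖ ^ 2 ≤ (7 / 8) ^ 2 := by
      rw [EuclideanSpace.norm_sq_eq, Fin.sum_univ_three]
      nlinarith
    rw [mem_closedBall_zero_iff]
    exact le_of_sq_le_sq hn (by norm_num)
  have hcl : closure (c.tube τ) ⊆ closedBall (0 : En 3) (7 / 8) :=
    closure_minimal hsub isClosed_closedBall
  refine ⟨?_, hcl, (isCompact_closedBall (0 : En 3) (7 / 8)).of_isClosed_subset isClosed_closure hcl⟩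
  exact (isOpen_lt (Bad_X_cont c) continuous_const).inter
    (isOpen_lt c.R_smooth.continuous continuous_const)

end Pool.Agent.H50.CS
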