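import Pool.Agent.H50.CS.Mass

/-!
# CS-MASS: Chern-Levine-Nirenberg and Cauchy estimates in `ℂ³`

`K ⊆ V` compact, `V` open. Choose smooth `χ₁, χ₂, χ₃ : ℂ³ → [0,1]` with compact support in `V`, `χ₃ = 1` on
`K`, `χ₂ = 1` on `tsupport χ₃`, `χ₁ = 1` on `tsupport χ₂` (`exists_contDiff_tsupport_subset` or
`exists_smooth...`, `IsOpen.exists_msmooth_support_eq`, bump functions; one lemma `exists_cutoff`).
For `g` smooth psh on `V` with `|g| ≤ M` on `V`, `H = Hm g` (psd by `hm_psd`):

1. `∫ χ₁ tr H = ∫ g tr(Hm χ₁)` (`ibp2` with `C = 1`) `≤ c₁ M`;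
2. `2∫ χ₂ tr adj H = ∫ χ₂ ((tr H)² - tr H²) = ∫ χ₂ tr(H·(tr H·1 - H)) = ∫ g tr(Hm χ₂ · (tr H·1-H))`
   (`tr_adj`, `ibp2` with `divFree_tr`) and `|tr(Hm χ₂ · N)| ≤ c ∑ ‖N k j‖ ≤ 9·c·2 tr H·χ₁` (`N = tr H·1-H`,
   `‖N k j‖ ≤ 2 tr H` by `entry_le`), so `≤ c₂ M ∫χ₁ tr H ≤ c M²`;
3. `3∫ χ₃ ma g = ∫ χ₃ tr(H adj H) = ∫ g tr(Hm χ₃ adj H)` (`tr_mul_adj`, `divFree_adj`) `≤ c M ∫ χ₂ tr adj H`
   (`entry_le` for `adj H`, psd by `adj_psd`) `≤ c M³`.
All integrands are `≥ 0`, so the integrals over `K` are bounded by the ones with the cut-offs.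

`cauchy_bound`: `ma p - ma q = Re tr(Hm w · C)`, `w = p - q`,
`C = (1/6)adj Hm p + (2/3)adj Hm((p+q)/2) + (1/6)adj Hm q` (`det_sub_eq`), so by `ibp2`
`∫χ(ma p - ma q) = Re ∫ w tr(Hm χ · C)`, bounded by `δ · c ∫_{tsupport χ} tr C ≤ c δ M²` by 2.
(This file: cauchy_bound.)
-/

set_option autoImplicit false

noncomputable section

namespace Pool.Agent.H50.CS

open Complex Metric MeasureTheory Set Filter Topology Matrix
open scoped ContDiff ComplexConjugate ComplexOrder
open Pool.Agent.H8.FZ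

private theorem cb_two_le : (2 : WithTop ℕ∞) ≤ (∞ : WithTop ℕ∞) := by
  have h : ((2 : ℕ∞) : WithTop ℕ∞) ≤ ((⊤ : ℕ∞) : WithTop ℕ∞) := WithTop.coe_le_coe.2 le_top
  exact h

private theorem cb_at {V : Set (En 3)} (hV : IsOpen V) {P : En 3 → ℝ}
    (hP : ContDiffOn ℝ ∞ P V) {x : En 3} (hx : x ∈ V) : ContDiffAt ℝ 2 P x :=
  (hP.contDiffAt (hV.mem_nhds hx)).of_le cb_two_le

private theorem cb_hm_smooth {V : Set (En 3)} (hV : IsOpen V) {P : En 3 → ℝ}
    (hP : ContDiffOn ℝ ∞ P V) (j k : Fin 3) : ContDiffOn ℝ ∞ (fun x => Hm P x j k) V := by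
  have h1 : ContDiffOn ℝ ∞ (fun y => (P y : ℂ)) V :=
    (Complex.ofRealCLM.contDiff.comp_contDiffOn hP)
  exact contDiffOn_dbar hV (contDiffOn_del hV h1 j) k

private theorem cb_divFree_add {V : Set (En 3)} (hV : IsOpen V)
    {C D : En 3 → Matrix (Fin 3) (Fin 3) ℂ} (hC : DivFree V C) (hD : DivFree V D) :
    DivFree V (fun x => C x + D x) := by
  have hdC : ∀ k j, ∀ x ∈ V, DifferentiableAt ℝ (fun y => C y k j) x := fun k j x hx =>
    ((hC.smooth k j).contDiffAt (hV.mem_nhds hx)).differentiableAt (by simp)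
  have hdD : ∀ k j, ∀ x ∈ V, DifferentiableAt ℝ (fun y => D y k j) x := fun k j x hx =>
    ((hD.smooth k j).contDiffAt (hV.mem_nhds hx)).differentiableAt (by simp)
  refine ⟨fun k j => (hC.smooth k j).add (hD.smooth k j), ?_, ?_⟩
  · intro x hx k
    have h1 : ∀ j, Pool.Agent.H8.FZ.del j (fun y => (C y + D y) k j) x =
        Pool.Agent.H8.FZ.del j (fun y => C y k j) x +
          Pool.Agent.H8.FZ.del j (fun y => D y k j) x := fun j =>
      del_add (hdC k j x hx) (hdD k j x hx) j
    simp only [h1, Finset.sum_add_distrib, hC.del x hx k, hD.del x hx k, add_zero]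
  · intro x hx j
    have h1 : ∀ k, Pool.Agent.H8.FZ.dbar k (fun y => (C y + D y) k j) x =
        Pool.Agent.H8.FZ.dbar k (fun y => C y k j) x +
          Pool.Agent.H8.FZ.dbar k (fun y => D y k j) x := fun k =>
      dbar_add (hdC k j x hx) (hdD k j x hx) k
    simp only [h1, Finset.sum_add_distrib, hC.dbar x hx j, hD.dbar x hx j, add_zero]

private theorem cb_divFree_smul {V : Set (En 3)} (hV : IsOpen V)
    {C : En 3 → Matrix (Fin 3) (Fin 3) ℂ} (hC : DivFree V C) (c : ℂ) :
    DivFree V (fun x => c • C x) := by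
  have hdC : ∀ k j, ∀ x ∈ V, DifferentiableAt ℝ (fun y => C y k j) x := fun k j x hx =>
    ((hC.smooth k j).contDiffAt (hV.mem_nhds hx)).differentiableAt (by simp)
  refine ⟨fun k j => contDiffOn_const.mul (hC.smooth k j), ?_, ?_⟩
  · intro x hx k
    have h1 : ∀ j, Pool.Agent.H8.FZ.del j (fun y => (c • C y) k j) x =
        c * Pool.Agent.H8.FZ.del j (fun y => C y k j) x := fun j =>
      del_const_mul c (hdC k j x hx) j
    simp only [h1, ← Finset.mul_sum, hC.del x hx k, mul_zero]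
  · intro x hx j
    have h1 : ∀ k, Pool.Agent.H8.FZ.dbar k (fun y => (c • C y) k j) x =
        c * Pool.Agent.H8.FZ.dbar k (fun y => C y k j) x := fun k =>
      dbar_const_mul c (hdC k j x hx) k
    simp only [h1, ← Finset.mul_sum, hC.dbar x hx j, mul_zero]

/-- the norm of a trace against a positive semidefinite matrix -/
private theorem cb_trace_le {N T : M3} (hT : T.PosSemidef) {c : ℝ} (hc : 0 ≤ c)
    (hN : ∀ j k, ‖N j k‖ ≤ c) : ‖(N * T).trace‖ ≤ 9 * c * T.trace.re := by
  have h1 : ∀ j, ‖∑ k, N j k * T k j‖ ≤ 3 * (c * T.trace.re) := by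
    intro j
    refine (norm_sum_le _ _).trans ?_
    have h2 : ∀ k ∈ (Finset.univ : Finset (Fin 3)), ‖N j k * T k j‖ ≤ c * T.trace.re := by
      intro k _
      rw [norm_mul]
      exact mul_le_mul (hN j k) (entry_le hT k j) (norm_nonneg _) hc
    refine (Finset.sum_le_sum h2).trans ?_
    simp
  have h3 : (N * T).trace = ∑ j, ∑ k, N j k * T k j := by
    simp [Matrix.trace, Matrix.mul_apply]
  rw [h3]
  refine (norm_sum_le _ _).trans ?_
  refine (Finset.sum_le_sum (fun j _ => h1 j)).trans ?_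
  simp only [Finset.sum_const, Finset.card_univ, Fintype.card_fin, nsmul_eq_mul]
  push_cast
  linarith

private theorem cb_trace_contOn {V : Set (En 3)} {N T : En 3 → M3}
    (hN : ∀ j k, ContinuousOn (fun x => N x j k) V)
    (hT : ∀ j k, ContinuousOn (fun x => T x j k) V) :
    ContinuousOn (fun x => (N x * T x).trace) V := by
  have h3 : ∀ x, (N x * T x).trace = ∑ j, ∑ k, N x j k * T x k j := fun x => by
    simp [Matrix.trace, Matrix.mul_apply]
  simp only [h3]
  exact continuousOn_finsetSum _ (fun j _ => continuousOn_finsetSum _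
    (fun k _ => (hN j k).mul (hT k j)))

private theorem cb_tr_contOn {V : Set (En 3)} {T : En 3 → M3}
    (hT : ∀ j k, ContinuousOn (fun x => T x j k) V) :
    ContinuousOn (fun x => (T x).trace.re) V := by
  have h3 : ∀ x, (T x).trace.re = ∑ j, (T x j j).re := fun x => by
    simp [Matrix.trace]
  simp only [h3]
  exact continuousOn_finsetSum _ (fun j _ => Complex.continuous_re.comp_continuousOn (hT j j))

theorem cauchy_bound {V : Set (En 3)} (hV : IsOpen V) {χ : En 3 → ℝ} (hχ : ContDiff ℝ ∞ χ)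
    (hχc : HasCompactSupport χ) (hχV : tsupport χ ⊆ V) :
    ∃ C : ℝ, 0 ≤ C ∧ ∀ (p q : En 3 → ℝ) (M δ : ℝ), 0 ≤ M → SmoothPsh V p → SmoothPsh V q →
      (∀ x ∈ V, |p x| ≤ M) → (∀ x ∈ V, |q x| ≤ M) → (∀ x ∈ V, |p x - q x| ≤ δ) →
      |∫ x, χ x * (ma p x - ma q x)| ≤ C * M ^ 2 * δ := by
  rcases V.eq_empty_or_nonempty with hVe | ⟨x0, hx0⟩
  · refine ⟨0, le_rfl, ?_⟩
    intro p q M δ _ _ _ _ _ _
    have hχ0 : ∀ x, χ x = 0 := fun x => image_eq_zero_of_notMem_tsupport (fun h => by
      have := hχV h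
      rw [hVe] at this
      exact this)
    simp [hχ0]
  have hKc : IsCompact (tsupport χ) := hχc
  obtain ⟨C0, hC0, hmass⟩ := mass_adj hV hKc hχV
  have hχs : ∀ j k, Continuous (fun x => Hm χ x j k) := by
    intro j k
    have h1 := cb_hm_smooth isOpen_univ hχ.contDiffOn j k
    exact (contDiffOn_univ.1 h1).continuous
  have hχ0 : ∀ x, x ∉ tsupport χ → Hm χ x = 0 := by
    intro x hx
    have h1 : χ =ᶠ[𝓝 x] fun _ => (0 : ℝ) := by
      have := (notMem_tsupport_iff_eventuallyEq.1 hx)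
      exact this
    rw [hm_congr h1]
    ext j k
    have h2 : del j (fun y : En 3 => (((fun _ => (0 : ℝ)) y : ℝ) : ℂ)) = fun _ => 0 := by
      funext y
      exact del_const j _ y
    change dbar k (del j (fun y : En 3 => (((fun _ => (0 : ℝ)) y : ℝ) : ℂ))) x = 0
    rw [h2]
    exact dbar_const k _ x
  obtain ⟨c, hc0, hc⟩ : ∃ c : ℝ, 0 ≤ c ∧ ∀ x j k, ‖Hm χ x j k‖ ≤ c := by
    have h1 : ∀ j k, ∃ c : ℝ, ∀ x ∈ tsupport χ, ‖Hm χ x j k‖ ≤ c := fun j k =>
      hKc.exists_bound_of_continuousOn (hχs j k).continuousOn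
    choose c hc using h1
    refine ⟨∑ j, ∑ k, |c j k|, by positivity, fun x j k => ?_⟩
    have h2 : |c j k| ≤ ∑ j, ∑ k, |c j k| := by
      refine (Finset.single_le_sum (f := fun k => |c j k|) (fun _ _ => abs_nonneg _)
        (Finset.mem_univ k)).trans ?_
      exact Finset.single_le_sum (f := fun j => ∑ k, |c j k|)
        (fun _ _ => Finset.sum_nonneg (fun _ _ => abs_nonneg _)) (Finset.mem_univ j)
    by_cases hx : x ∈ tsupport χ
    · exact (hc j k x hx).trans ((le_abs_self _).trans h2)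
    · rw [hχ0 x hx]
      simp only [Matrix.zero_apply, norm_zero]
      exact (abs_nonneg _).trans h2
  refine ⟨9 * c * C0, by positivity, ?_⟩
  intro p q M δ hM hp hq hpM hqM hpq
  have hδ : 0 ≤ δ := (abs_nonneg _).trans (hpq x0 hx0)
  have hsum : ContDiffOn ℝ ∞ (fun x => p x + q x) V := hp.1.add hq.1
  have hm : SmoothPsh V (fun x => (1 / 2 : ℝ) * (p x + q x)) := by
    refine ⟨contDiffOn_const.mul hsum, fun x hx w => ?_⟩
    rw [levi_const_mul (cb_at hV hsum hx), levi_add (cb_at hV hp.1 hx) (cb_at hV hq.1 hx)]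
    have h1 := hp.2 x hx w
    have h2 := hq.2 x hx w
    linarith
  have hmM : ∀ x ∈ V, |(1 / 2 : ℝ) * (p x + q x)| ≤ M := by
    intro x hx
    have h1 := abs_le.1 (hpM x hx)
    have h2 := abs_le.1 (hqM x hx)
    rw [abs_le]
    constructor <;> linarith [h1.1, h1.2, h2.1, h2.2]
  have hw : ContDiffOn ℝ ∞ (fun x => p x - q x) V := hp.1.sub hq.1
  -- the matrix field
  let T : En 3 → M3 := fun x => ((1 / 6 : ℂ) • (Hm p x).adjugate +
    (2 / 3 : ℂ) • (Hm (fun x => (1 / 2 : ℝ) * (p x + q x)) x).adjugate) +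
      (1 / 6 : ℂ) • (Hm q x).adjugate
  have hT : DivFree V T := cb_divFree_add hV (cb_divFree_add hV
    (cb_divFree_smul hV (divFree_adj hV hp.1) _) (cb_divFree_smul hV (divFree_adj hV hm.1) _))
    (cb_divFree_smul hV (divFree_adj hV hq.1) _)
  have hHmm : ∀ x ∈ V, Hm (fun x => (1 / 2 : ℝ) * (p x + q x)) x =
      (1 / 2 : ℂ) • (Hm p x + Hm q x) := by
    intro x hx
    rw [hm_const_mul (cb_at hV hsum hx), hm_add (cb_at hV hp.1 hx) (cb_at hV hq.1 hx)]
    norm_num
  have hHmw : ∀ x ∈ V, Hm (fun x => p x - q x) x = Hm p x - Hm q x := by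
    intro x hx
    have h1 : (fun x => p x - q x) = fun x => p x + (-1 : ℝ) * q x := by
      funext y
      ring
    rw [h1, hm_add (cb_at hV hp.1 hx) (cb_at hV (contDiffOn_const.mul hq.1) hx),
      hm_const_mul (cb_at hV hq.1 hx)]
    simp [sub_eq_add_neg]
  have hpsd : ∀ x ∈ V, (T x).PosSemidef := by
    intro x hx
    have h1 := adj_psd (hm_psd (cb_at hV hp.1 hx) (hp.2 x hx)).2
    have h2 := adj_psd (hm_psd (cb_at hV hm.1 hx) (hm.2 x hx)).2
    have h3 := adj_psd (hm_psd (cb_at hV hq.1 hx) (hq.2 x hx)).2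
    have e1 : (0 : ℂ) ≤ 1 / 6 := by
      rw [Complex.le_def]
      norm_num
    have e2 : (0 : ℂ) ≤ 2 / 3 := by
      rw [Complex.le_def]
      norm_num
    exact ((h1.smul e1).add (h2.smul e2)).add (h3.smul e1)
  have hma : ∀ x ∈ V, ma p x - ma q x = ((Hm (fun x => p x - q x) x * T x).trace).re := by
    intro x hx
    have h1 := det_sub_eq (Hm p x) (Hm q x)
    have h2 : (Hm (fun x => p x - q x) x * T x).trace = (Hm p x).det - (Hm q x).det := by
      rw [h1, hHmw x hx]
      simp only [T]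
      rw [hHmm x hx]
    rw [h2, Complex.sub_re]
    rfl
  have hTc : ∀ j k, ContinuousOn (fun x => T x j k) V := fun j k => (hT.smooth j k).continuousOn
  have hF : ContinuousOn (fun x => (Hm (fun x => p x - q x) x * T x).trace) V :=
    cb_trace_contOn (fun j k => (cb_hm_smooth hV hw j k).continuousOn) hTc
  have hint : Integrable (fun x => (χ x : ℂ) * (Hm (fun x => p x - q x) x * T x).trace) := by
    have hcont : Continuous (fun x => (χ x : ℂ) * (Hm (fun x => p x - q x) x * T x).trace) := by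
      rw [continuous_iff_continuousAt]
      intro x
      by_cases hx : x ∈ V
      · exact ((Complex.continuous_ofReal.comp hχ.continuous).continuousAt).mul
          (hF.continuousAt (hV.mem_nhds hx))
      · have h1 : x ∉ tsupport χ := fun h => hx (hχV h)
        have h2 := notMem_tsupport_iff_eventuallyEq.1 h1
        have h3 : (fun x => (χ x : ℂ) * (Hm (fun x => p x - q x) x * T x).trace) =ᶠ[𝓝 x]
            fun _ => (0 : ℂ) := by
          filter_upwards [h2] with y hy
          have hy' : χ y = 0 := hy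
          rw [hy']
          simp
        exact (continuousAt_const.congr h3.symm)
    refine hcont.integrable_of_hasCompactSupport ?_
    refine HasCompactSupport.intro hKc (fun x hx => ?_)
    have h1 : χ x = 0 := image_eq_zero_of_notMem_tsupport hx
    rw [h1]
    simp
  have hstep1 : ∫ x, χ x * (ma p x - ma q x) =
      (∫ x, (χ x : ℂ) * (Hm (fun x => p x - q x) x * T x).trace).re := by
    have h1 : ∫ x, χ x * (ma p x - ma q x) =
        ∫ x, RCLike.re ((χ x : ℂ) * (Hm (fun x => p x - q x) x * T x).trace) := by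
      refine integral_congr_ae (Filter.Eventually.of_forall (fun x => ?_))
      change χ x * (ma p x - ma q x) =
        ((χ x : ℂ) * (Hm (fun x => p x - q x) x * T x).trace).re
      rw [Complex.re_ofReal_mul]
      by_cases hx : x ∈ V
      · rw [hma x hx]
      · have h1 : χ x = 0 := image_eq_zero_of_notMem_tsupport (fun h => hx (hχV h))
        rw [h1]
        ring
    rw [h1, integral_re hint]
    rfl
  rw [hstep1, ibp2 hV hT hw hχ hχc hχV]
  refine (Complex.abs_re_le_norm _).trans ?_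
  -- the pointwise bound
  have htrK : ∀ (g : En 3 → ℝ), SmoothPsh V g →
      IntegrableOn (fun x => ((Hm g x).adjugate.trace).re) (tsupport χ) := by
    intro g hg
    exact ((cb_tr_contOn (fun j k => ((divFree_adj hV hg.1).smooth j k).continuousOn)).mono
      hχV).integrableOn_compact hKc
  have hTr : ∀ x, (T x).trace.re = (1 / 6) * ((Hm p x).adjugate.trace).re +
      (2 / 3) * ((Hm (fun x => (1 / 2 : ℝ) * (p x + q x)) x).adjugate.trace).re +
        (1 / 6) * ((Hm q x).adjugate.trace).re := by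
    intro x
    have e1 : (1 / 6 : ℂ) = ((1 / 6 : ℝ) : ℂ) := by push_cast; rfl
    have e2 : (2 / 3 : ℂ) = ((2 / 3 : ℝ) : ℂ) := by push_cast; rfl
    simp only [T, Matrix.trace_add, Matrix.trace_smul, smul_eq_mul, Complex.add_re]
    rw [e1, e2, Complex.re_ofReal_mul, Complex.re_ofReal_mul, Complex.re_ofReal_mul]
  have hTint : IntegrableOn (fun x => (T x).trace.re) (tsupport χ) :=
    ((cb_tr_contOn hTc).mono hχV).integrableOn_compact hKc
  have hTle : ∫ x in tsupport χ, (T x).trace.re ≤ C0 * M ^ 2 := by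
    simp only [hTr]
    have i1 : IntegrableOn (fun x => (1 / 6) * ((Hm p x).adjugate.trace).re) (tsupport χ) :=
      (htrK p hp).const_mul _
    have i2 : IntegrableOn (fun x => (2 / 3) *
        ((Hm (fun x => (1 / 2 : ℝ) * (p x + q x)) x).adjugate.trace).re) (tsupport χ) :=
      (htrK _ hm).const_mul _
    have i3 : IntegrableOn (fun x => (1 / 6) * ((Hm q x).adjugate.trace).re) (tsupport χ) :=
      (htrK q hq).const_mul _
    have i12 : IntegrableOn (fun x => (1 / 6) * ((Hm p x).adjugate.trace).re + (2 / 3) *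
        ((Hm (fun x => (1 / 2 : ℝ) * (p x + q x)) x).adjugate.trace).re) (tsupport χ) :=
      i1.add i2
    rw [integral_add i12 i3, integral_add i1 i2, integral_const_mul, integral_const_mul,
      integral_const_mul]
    have h1 := hmass p M hM hp hpM
    have h2 := hmass _ M hM hm hmM
    have h3 := hmass q M hM hq hqM
    linarith
  have hbound : ∀ x, ‖((p x - q x : ℝ) : ℂ) * (Hm χ x * T x).trace‖ ≤
      (tsupport χ).indicator (fun x => δ * (9 * c) * (T x).trace.re) x := by
    intro x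
    by_cases hx : x ∈ tsupport χ
    · rw [Set.indicator_of_mem hx, norm_mul, Complex.norm_real, Real.norm_eq_abs, mul_assoc]
      exact mul_le_mul (hpq x (hχV hx)) (cb_trace_le (hpsd x (hχV hx)) hc0 (hc x))
        (norm_nonneg _) hδ
    · rw [Set.indicator_of_notMem hx, hχ0 x hx]
      simp
  have hTint' : IntegrableOn (fun x => δ * (9 * c) * (T x).trace.re) (tsupport χ) :=
    hTint.const_mul _
  refine (norm_integral_le_of_norm_le (hTint'.integrable_indicator hKc.measurableSet)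
    (Filter.Eventually.of_forall hbound)).trans ?_
  rw [integral_indicator hKc.measurableSet, integral_const_mul]
  have h5 : 0 ≤ δ * (9 * c) := by positivity
  calc δ * (9 * c) * ∫ x in tsupport χ, (T x).trace.re ≤ δ * (9 * c) * (C0 * M ^ 2) :=
        mul_le_mul_of_nonneg_left hTle h5
    _ = 9 * c * C0 * M ^ 2 * δ := by ring

end Pool.Agent.H50.CS
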