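import Pool.Agent.H50.CS.Ibp2

/-!
# CS-IBP: integration by parts against divergence free matrix fields

* `int_del_zero`: for `F : ℂⁿ → ℂ` of class `C¹` with compact support, `∫ del j F = 0`, `∫ dbar j F = 0`:
  `del j F = ½ (F'(e_j) - i F'(i e_j))` and `∫ fderiv ℝ F x v dx = 0`
  (`integral_mul_fderiv_eq_neg_fderiv_mul_of_integrable` with one factor constant on the support, or
  `integral_fderiv...`; look into `Mathlib.Analysis.Calculus.LineDeriv.IntegrationByParts`, and see
  `FZ/Ibp.lean`, `FZ/BIbp.lean` for how it was used).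
* `DivFree V C`: the entries of the matrix field `C` are smooth on `V` and
  `∑_j ∂_j (C k j) = 0`, `∑_k ∂̄_k (C k j) = 0` on `V`.
* `ibp1`: for `χ` smooth with compact support in `V`, `w` smooth on `V`:
  `∫ χ tr(Hm w · C) = -∫ ∑_jk (∂_j χ)(∂̄_k w) C_kj`. Proof: `F_j := χ ∑_k (∂̄_k w) C_kj` (extended by `0`
  outside `V`; it is smooth with compact support since `tsupport χ ⊆ V`), and
  `∑_j ∂_j F_j = ∑_jk (∂_jχ)(∂̄_k w) C_kj + χ ∑_jk (∂_j ∂̄_k w) C_kj + χ ∑_k ∂̄_k w ∑_j ∂_j C_kj`,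
  where the last sum vanishes; `Hm w j k = ∂̄_k ∂_j w`. Integrate. (Outside `V` the functions `w`, `C` are
  arbitrary but every term carries a factor `χ` or `∂_jχ`, which vanishes off `tsupport χ ⊆ V`.)
* `ibp2`: once more with the roles of `del`, `dbar`:
  `-∫ ∑_jk (∂_jχ)(∂̄_k w) C_kj = ∫ w ∑_jk (∂̄_k∂_jχ) C_kj = ∫ w tr(Hm χ · C)`.
* instances of `DivFree`: `C = adj (Hm g)` (CS-DIV), `C = tr(Hm g)·1 - Hm g`, `C = 1`.
  For `tr(Hm g)·1 - Hm g`: `C k j = δ_kj tr H - H k j`, `H k j = ∂̄_j ∂_k g`,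
  `∑_j ∂_j C k j = ∂_k (∑_a ∂̄_a∂_a g) - ∑_j ∂_j ∂̄_j ∂_k g = 0` (Wirtinger derivatives commute:
  `del_comm`, `dbar_comm`, `del_dbar_comm` of FZ/Calc).
(This file: ibp1, ibp2.)
-/

set_option autoImplicit false

noncomputable section

namespace Pool.Agent.H50.CS

open Complex Metric MeasureTheory Set Filter Topology Matrix
open scoped ContDiff ComplexConjugate ComplexOrder
open Pool.Agent.H8.FZ

variable {n : ℕ}

/-- a cut-off with support in `V` times a smooth function on `V` is smooth -/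
lemma ibp3_smooth {V : Set (En n)} (hV : IsOpen V) {f : En n → ℂ} (hf : ContDiffOn ℝ ∞ f V)
    {c : En n → ℂ} (hc : ContDiff ℝ ∞ c) (hcV : tsupport c ⊆ V) :
    ContDiff ℝ ∞ (fun x => c x * f x) := by
  rw [contDiff_iff_contDiffAt]
  intro x
  by_cases hx : x ∈ V
  · exact hc.contDiffAt.mul (hf.contDiffAt (hV.mem_nhds hx))
  · have h1 : c =ᶠ[𝓝 x] 0 := notMem_tsupport_iff_eventuallyEq.mp (fun h => hx (hcV h))
    have h2 : (fun x => c x * f x) =ᶠ[𝓝 x] fun _ => 0 := by
      filter_upwards [h1] with y hy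
      rw [hy, Pi.zero_apply, zero_mul]
    exact contDiffAt_const.congr_of_eventuallyEq h2

lemma ibp3_tsupp {c f : En n → ℂ} : tsupport (fun x => c x * f x) ⊆ tsupport c :=
  tsupport_mul_subset_left

lemma ibp3_compact {c f : En n → ℂ} (hc : HasCompactSupport c) :
    HasCompactSupport (fun x => c x * f x) := hc.mul_right

lemma ibp3_sum_del {G : Fin n → En n → ℂ} (hG : ∀ j, ContDiff ℝ ∞ (G j))
    (hc : ∀ j, HasCompactSupport (G j)) : ∫ x, ∑ j, del j (G j) x = 0 := by
  rw [integral_finsetSum]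
  · apply Finset.sum_eq_zero
    intro j _
    exact int_del_zero ((hG j).of_le (by simp)) (hc j) j
  · intro j _
    apply (contDiff_del (hG j) j).continuous.integrable_of_hasCompactSupport
    exact (hc j).of_isClosed_subset (isClosed_tsupport _) (tsupport_del_subset _ _)

lemma ibp3_sum_dbar {G : Fin n → En n → ℂ} (hG : ∀ j, ContDiff ℝ ∞ (G j))
    (hc : ∀ j, HasCompactSupport (G j)) : ∫ x, ∑ j, dbar j (G j) x = 0 := by
  rw [integral_finsetSum]
  · apply Finset.sum_eq_zero
    intro j _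
    exact int_dbar_zero ((hG j).of_le (by simp)) (hc j) j
  · intro j _
    apply (contDiff_dbar (hG j) j).continuous.integrable_of_hasCompactSupport
    exact (hc j).of_isClosed_subset (isClosed_tsupport _) (tsupport_dbar_subset _ _)

section ibp3

variable {V : Set (En n)} {C : En n → Matrix (Fin n) (Fin n) ℂ} {w χ : En n → ℝ}

lemma ibp3_ofReal (_hV : IsOpen V) (hw : ContDiffOn ℝ ∞ w V) :
    ContDiffOn ℝ ∞ (fun y => (w y : ℂ)) V :=
  Complex.ofRealCLM.contDiff.comp_contDiffOn hw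

lemma ibp3_chi (hχ : ContDiff ℝ ∞ χ) : ContDiff ℝ ∞ (fun y => (χ y : ℂ)) :=
  Complex.ofRealCLM.contDiff.comp hχ

lemma ibp3_chi_tsupp : tsupport (fun y => (χ y : ℂ)) ⊆ tsupport χ := by
  apply closure_mono
  intro x hx h
  apply hx
  show (χ x : ℂ) = 0
  rw [h]
  simp

lemma ibp3_chi_comp (hχc : HasCompactSupport χ) : HasCompactSupport (fun y => (χ y : ℂ)) :=
  hχc.of_isClosed_subset (isClosed_tsupport _) ibp3_chi_tsupp

/-- the common middle term -/
lemma ibp3_mid_int (hV : IsOpen V) (hC : DivFree V C) (hw : ContDiffOn ℝ ∞ w V)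
    (hχ : ContDiff ℝ ∞ χ) (hχc : HasCompactSupport χ) (hχV : tsupport χ ⊆ V) :
    Integrable (fun x => ∑ j, ∑ k, del j (fun y => (χ y : ℂ)) x *
      dbar k (fun y => (w y : ℂ)) x * C x k j) := by
  have h1 : ∀ j k, ContDiff ℝ ∞ (fun x => del j (fun y => (χ y : ℂ)) x *
      (dbar k (fun y => (w y : ℂ)) x * C x k j)) := by
    intro j k
    apply ibp3_smooth hV ((contDiffOn_dbar hV (ibp3_ofReal hV hw) k).mul (hC.smooth k j))
      (contDiff_del (ibp3_chi hχ) j)
    exact (tsupport_del_subset _ _).trans (ibp3_chi_tsupp.trans hχV)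
  have h2 : ∀ j k, HasCompactSupport (fun x => del j (fun y => (χ y : ℂ)) x *
      (dbar k (fun y => (w y : ℂ)) x * C x k j)) := by
    intro j k
    apply ibp3_compact
    exact (ibp3_chi_comp hχc).of_isClosed_subset (isClosed_tsupport _) (tsupport_del_subset _ _)
  have h3 : (fun x => ∑ j, ∑ k, del j (fun y => (χ y : ℂ)) x *
      dbar k (fun y => (w y : ℂ)) x * C x k j) = fun x => ∑ j, ∑ k,
        del j (fun y => (χ y : ℂ)) x * (dbar k (fun y => (w y : ℂ)) x * C x k j) := by
    funext x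
    simp only [mul_assoc]
  rw [h3]
  apply integrable_finsetSum
  intro j _
  apply integrable_finsetSum
  intro k _
  exact (h1 j k).continuous.integrable_of_hasCompactSupport (h2 j k)

lemma ibp3_pt1 (hV : IsOpen V) (hC : DivFree V C) (hw : ContDiffOn ℝ ∞ w V)
    (hχ : ContDiff ℝ ∞ χ) (hχV : tsupport χ ⊆ V) (x : En n) :
    ∑ j, del j (fun y => (χ y : ℂ) * ∑ k, dbar k (fun y => (w y : ℂ)) y * C y k j) x =
      (∑ j, ∑ k, del j (fun y => (χ y : ℂ)) x * dbar k (fun y => (w y : ℂ)) x * C x k j) +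
        (χ x : ℂ) * (Hm w x * C x).trace := by
  by_cases hx : x ∈ V
  · have hwx : ContDiffAt ℝ ∞ (fun y => (w y : ℂ)) x :=
      (ibp3_ofReal hV hw).contDiffAt (hV.mem_nhds hx)
    have hdx : ∀ k, DifferentiableAt ℝ (dbar k (fun y => (w y : ℂ))) x := fun k =>
      c2_dbar_diff (hwx.of_le (WithTop.coe_le_coe.mpr le_top)) k
    have hCx : ∀ k j, DifferentiableAt ℝ (fun y => C y k j) x := fun k j =>
      ((hC.smooth k j).contDiffAt (hV.mem_nhds hx)).differentiableAt (by simp)
    have hχx : DifferentiableAt ℝ (fun y => (χ y : ℂ)) x :=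
      (ibp3_chi hχ).contDiffAt.differentiableAt (by simp)
    have e1 : ∀ j, del j (fun y => (χ y : ℂ) * ∑ k, dbar k (fun y => (w y : ℂ)) y * C y k j) x =
        (∑ k, del j (fun y => (χ y : ℂ)) x * dbar k (fun y => (w y : ℂ)) x * C x k j) +
        (∑ k, (χ x : ℂ) * (Hm w x j k * C x k j)) +
        (χ x : ℂ) * ∑ k, dbar k (fun y => (w y : ℂ)) x * del j (fun y => C y k j) x := by
      intro j
      rw [del_mul hχx (DifferentiableAt.fun_sum (fun k _ => (hdx k).fun_mul (hCx k j))),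
        del_sum _ (fun k _ => (hdx k).fun_mul (hCx k j))]
      have e2 : ∀ k, del j (fun y => dbar k (fun y => (w y : ℂ)) y * C y k j) x =
          Hm w x j k * C x k j + dbar k (fun y => (w y : ℂ)) x * del j (fun y => C y k j) x := by
        intro k
        rw [del_mul (hdx k) (hCx k j), del_dbar_comm (hwx.of_le (WithTop.coe_le_coe.mpr le_top))]
        rfl
      simp only [e2]
      rw [Finset.sum_add_distrib, mul_add, Finset.mul_sum, Finset.mul_sum, ← add_assoc]
      simp only [mul_assoc]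
    rw [Finset.sum_congr rfl (fun j _ => e1 j), Finset.sum_add_distrib, Finset.sum_add_distrib]
    have e3 : ∑ j, (χ x : ℂ) * ∑ k, dbar k (fun y => (w y : ℂ)) x * del j (fun y => C y k j) x = 0 := by
      rw [← Finset.mul_sum, Finset.sum_comm]
      have e4 : ∀ k, ∑ j, dbar k (fun y => (w y : ℂ)) x * del j (fun y => C y k j) x = 0 := by
        intro k
        rw [← Finset.mul_sum, hC.del x hx k, mul_zero]
      simp only [e4]
      simp
    rw [e3, add_zero]
    congr 1
    rw [Matrix.trace, Finset.mul_sum]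
    apply Finset.sum_congr rfl
    intro j _
    rw [Matrix.diag_apply, Matrix.mul_apply, Finset.mul_sum]
  · have hn : x ∉ tsupport χ := fun h => hx (hχV h)
    have h1 : χ =ᶠ[𝓝 x] 0 := notMem_tsupport_iff_eventuallyEq.mp hn
    have h0 : χ x = 0 := h1.self_of_nhds
    have h2 : (fun y => (χ y : ℂ)) =ᶠ[𝓝 x] fun _ => 0 := by
      filter_upwards [h1] with y hy
      rw [hy]; simp
    have h3 : ∀ j, del j (fun y => (χ y : ℂ)) x = 0 := fun j => by
      rw [del_congr h2, del_const]
    have h4 : ∀ j, del j (fun y => (χ y : ℂ) * ∑ k, dbar k (fun y => (w y : ℂ)) y * C y k j) x = 0 := by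
      intro j
      have h5 : (fun y => (χ y : ℂ) * ∑ k, dbar k (fun y => (w y : ℂ)) y * C y k j) =ᶠ[𝓝 x]
          fun _ => 0 := by
        filter_upwards [h2] with y hy
        rw [hy, zero_mul]
      rw [del_congr h5, del_const]
    simp [h3, h4, h0]

lemma ibp3_pt2 (hV : IsOpen V) (hC : DivFree V C) (hw : ContDiffOn ℝ ∞ w V)
    (hχ : ContDiff ℝ ∞ χ) (hχV : tsupport χ ⊆ V) (x : En n) :
    ∑ k, dbar k (fun y => ∑ j, del j (fun y => (χ y : ℂ)) y * ((w y : ℂ) * C y k j)) x =
      (∑ j, ∑ k, del j (fun y => (χ y : ℂ)) x * dbar k (fun y => (w y : ℂ)) x * C x k j) +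
        (w x : ℂ) * (Hm χ x * C x).trace := by
  have hχ' := ibp3_chi hχ
  by_cases hx : x ∈ V
  · have hwx : DifferentiableAt ℝ (fun y => (w y : ℂ)) x :=
      ((ibp3_ofReal hV hw).contDiffAt (hV.mem_nhds hx)).differentiableAt (by simp)
    have hCx : ∀ k j, DifferentiableAt ℝ (fun y => C y k j) x := fun k j =>
      ((hC.smooth k j).contDiffAt (hV.mem_nhds hx)).differentiableAt (by simp)
    have hdx : ∀ j, DifferentiableAt ℝ (del j (fun y => (χ y : ℂ))) x := fun j =>
      (contDiff_del hχ' j).contDiffAt.differentiableAt (by simp)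
    have e1 : ∀ k, dbar k (fun y => ∑ j, del j (fun y => (χ y : ℂ)) y * ((w y : ℂ) * C y k j)) x =
        (∑ j, del j (fun y => (χ y : ℂ)) x * dbar k (fun y => (w y : ℂ)) x * C x k j) +
        (∑ j, (w x : ℂ) * (Hm χ x j k * C x k j)) +
        ∑ j, (w x : ℂ) * del j (fun y => (χ y : ℂ)) x * dbar k (fun y => C y k j) x := by
      intro k
      rw [dbar_sum _ (fun j _ => (hdx j).fun_mul (hwx.fun_mul (hCx k j)))]
      rw [← Finset.sum_add_distrib, ← Finset.sum_add_distrib]
      apply Finset.sum_congr rfl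
      intro j _
      rw [dbar_mul (hdx j) (hwx.fun_mul (hCx k j)), dbar_mul hwx (hCx k j)]
      have e2 : dbar k (del j (fun y => (χ y : ℂ))) x = Hm χ x j k := rfl
      rw [e2]
      ring
    rw [Finset.sum_congr rfl (fun k _ => e1 k), Finset.sum_add_distrib, Finset.sum_add_distrib]
    have e3 : ∑ k, ∑ j, (w x : ℂ) * del j (fun y => (χ y : ℂ)) x * dbar k (fun y => C y k j) x = 0 := by
      rw [Finset.sum_comm]
      have e4 : ∀ j, ∑ k, (w x : ℂ) * del j (fun y => (χ y : ℂ)) x * dbar k (fun y => C y k j) x = 0 := by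
        intro j
        rw [← Finset.mul_sum, hC.dbar x hx j, mul_zero]
      simp only [e4]
      simp
    rw [e3, add_zero]
    congr 1
    · rw [Finset.sum_comm]
    · rw [Matrix.trace, Finset.sum_comm, Finset.mul_sum]
      apply Finset.sum_congr rfl
      intro j _
      rw [Matrix.diag_apply, Matrix.mul_apply, Finset.mul_sum]
  · have hn : x ∉ tsupport (fun y => (χ y : ℂ)) := fun h => hx (hχV (ibp3_chi_tsupp h))
    have hdn : ∀ j, del j (fun y => (χ y : ℂ)) =ᶠ[𝓝 x] 0 := fun j =>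
      notMem_tsupport_iff_eventuallyEq.mp (fun h => hn (tsupport_del_subset _ _ h))
    have h3 : ∀ j, del j (fun y => (χ y : ℂ)) x = 0 := fun j => (hdn j).self_of_nhds
    have h6 : ∀ j k, Hm χ x j k = 0 := by
      intro j k
      show dbar k (del j (fun y => (χ y : ℂ))) x = 0
      have h7 : del j (fun y => (χ y : ℂ)) =ᶠ[𝓝 x] fun _ => 0 := hdn j
      rw [dbar_congr h7, dbar_const]
    have h6' : Hm χ x = 0 := by
      ext j k
      exact h6 j k
    have h4 : ∀ k, dbar k (fun y => ∑ j, del j (fun y => (χ y : ℂ)) y * ((w y : ℂ) * C y k j)) x = 0 := by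
      intro k
      have h5 : (fun y => ∑ j, del j (fun y => (χ y : ℂ)) y * ((w y : ℂ) * C y k j)) =ᶠ[𝓝 x]
          fun _ => 0 := by
        have h8 : ∀ᶠ y in 𝓝 x, ∀ j, del j (fun y => (χ y : ℂ)) y = 0 :=
          Filter.eventually_all.mpr (fun j => hdn j)
        filter_upwards [h8] with y hy
        apply Finset.sum_eq_zero
        intro j _
        rw [hy j, zero_mul]
      rw [dbar_congr h5, dbar_const]
    simp [h3, h4, h6']

end ibp3

theorem ibp1 {V : Set (En n)} (hV : IsOpen V) {C : En n → Matrix (Fin n) (Fin n) ℂ}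
    (hC : DivFree V C) {w : En n → ℝ} (hw : ContDiffOn ℝ ∞ w V) {χ : En n → ℝ}
    (hχ : ContDiff ℝ ∞ χ) (hχc : HasCompactSupport χ) (hχV : tsupport χ ⊆ V) :
    ∫ x, (χ x : ℂ) * (Hm w x * C x).trace =
      -∫ x, ∑ j, ∑ k, del j (fun y => (χ y : ℂ)) x * dbar k (fun y => (w y : ℂ)) x * C x k j := by
  have hχ' := ibp3_chi hχ
  have hG : ∀ j, ContDiff ℝ ∞ (fun y => (χ y : ℂ) * ∑ k, dbar k (fun y => (w y : ℂ)) y * C y k j) := by
    intro j
    apply ibp3_smooth hV _ hχ' (ibp3_chi_tsupp.trans hχV)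
    apply ContDiffOn.sum
    intro k _
    exact (contDiffOn_dbar hV (ibp3_ofReal hV hw) k).mul (hC.smooth k j)
  have h1 := ibp3_sum_del hG (fun j => ibp3_compact (ibp3_chi_comp hχc))
  have h2 : ∀ x, (χ x : ℂ) * (Hm w x * C x).trace =
      (∑ j, del j (fun y => (χ y : ℂ) * ∑ k, dbar k (fun y => (w y : ℂ)) y * C y k j) x) -
      (∑ j, ∑ k, del j (fun y => (χ y : ℂ)) x * dbar k (fun y => (w y : ℂ)) x * C x k j) := by
    intro x
    rw [ibp3_pt1 hV hC hw hχ hχV x]
    ring
  simp only [h2]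
  rw [integral_sub, h1, zero_sub]
  · apply integrable_finsetSum
    intro j _
    apply (contDiff_del (hG j) j).continuous.integrable_of_hasCompactSupport
    exact (ibp3_compact (ibp3_chi_comp hχc)).of_isClosed_subset (isClosed_tsupport _)
      (tsupport_del_subset _ _)
  · exact ibp3_mid_int hV hC hw hχ hχc hχV

theorem ibp2 {V : Set (En n)} (hV : IsOpen V) {C : En n → Matrix (Fin n) (Fin n) ℂ}
    (hC : DivFree V C) {w : En n → ℝ} (hw : ContDiffOn ℝ ∞ w V) {χ : En n → ℝ}
    (hχ : ContDiff ℝ ∞ χ) (hχc : HasCompactSupport χ) (hχV : tsupport χ ⊆ V) :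
    ∫ x, (χ x : ℂ) * (Hm w x * C x).trace = ∫ x, (w x : ℂ) * (Hm χ x * C x).trace := by
  rw [ibp1 hV hC hw hχ hχc hχV]
  have hχ' := ibp3_chi hχ
  have hdc : ∀ j, HasCompactSupport (del j (fun y => (χ y : ℂ))) := fun j =>
    (ibp3_chi_comp hχc).of_isClosed_subset (isClosed_tsupport _) (tsupport_del_subset _ _)
  have hG : ∀ k, ContDiff ℝ ∞ (fun y => ∑ j, del j (fun y => (χ y : ℂ)) y * ((w y : ℂ) * C y k j)) := by
    intro k
    apply ContDiff.sum
    intro j _
    apply ibp3_smooth hV ((ibp3_ofReal hV hw).mul (hC.smooth k j)) (contDiff_del hχ' j)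
    exact (tsupport_del_subset _ _).trans (ibp3_chi_tsupp.trans hχV)
  have hGc : ∀ k, HasCompactSupport (fun y => ∑ j, del j (fun y => (χ y : ℂ)) y * ((w y : ℂ) * C y k j)) := by
    intro k
    apply HasCompactSupport.intro (K := tsupport χ) hχc
    intro x hx
    apply Finset.sum_eq_zero
    intro j _
    have h3 : del j (fun y => (χ y : ℂ)) x = 0 := by
      by_contra h
      exact hx (ibp3_chi_tsupp (tsupport_del_subset _ _ (subset_tsupport _ h)))
    rw [h3, zero_mul]
  have h1 := ibp3_sum_dbar hG hGc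
  have h2 : ∀ x, (w x : ℂ) * (Hm χ x * C x).trace =
      (∑ k, dbar k (fun y => ∑ j, del j (fun y => (χ y : ℂ)) y * ((w y : ℂ) * C y k j)) x) -
      (∑ j, ∑ k, del j (fun y => (χ y : ℂ)) x * dbar k (fun y => (w y : ℂ)) x * C x k j) := by
    intro x
    rw [ibp3_pt2 hV hC hw hχ hχV x]
    ring
  simp only [h2]
  rw [integral_sub, h1, zero_sub]
  · apply integrable_finsetSum
    intro k _
    apply (contDiff_dbar (hG k) k).continuous.integrable_of_hasCompactSupport
    exact (hGc k).of_isClosed_subset (isClosed_tsupport _) (tsupport_dbar_subset _ _)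
  · exact ibp3_mid_int hV hC hw hχ hχc hχV

end Pool.Agent.H50.CS
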