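import Pool.Agent.H50.CS.Mat1

/-!
# CS-MAT1: positive semidefinite `3 × 3` matrices

Elementary facts on Hermitian positive semidefinite `3 × 3` matrices.

* `adj_psd`: if `A = Bᴴ * B` then `adj A = adj B * (adj B)ᴴ` (`Matrix.adjugate_mul_distrib`,
  `Matrix.adjugate_conjTranspose`), so `adj A` is positive semidefinite.
* `tr_mul_nonneg`: `A = Bᴴ B`, `C` psd: `tr (A C) = tr (B C Bᴴ) ≥ 0`.
* `det_add_ge`: for `Fin 3`, `det (A+B) = det A + tr (adj A * B) + tr (A * adj B) + det B`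
  (`Matrix.det_fin_three`, `Matrix.adjugate_fin_three`, `ring`); the two traces are `≥ 0` by
  `adj_psd` and `tr_mul_nonneg`, `det ≥ 0` by `Matrix.PosSemidef.det_nonneg`.
* `det_sub_eq`: polynomial identity for `Fin 3`: `det A - det B = tr ((A-B) C)` with
  `C = (1/6) adj A + (2/3) adj ((A+B)/2) + (1/6) adj B` (expand everything; `ring`; Simpson's rule
  for `∫₀¹ tr((A-B) adj(B+s(A-B))) ds`).
* `tr_adj`: `tr adj A = ((tr A)² - tr (A²))/2` for `Fin 3`.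
* `hadamard`: for psd `B`: `det B = B₀₀B₁₁B₂₂ - B₀₀|B₁₂|² - B₁₁|B₀₂|² - B₂₂|B₀₁|² + 2Re(B₀₁B₁₂B₂₀)`, and
  `2Re(B₀₁B₁₂B₂₀) ≤ 2|B₀₁||B₁₂||B₀₂| ≤ 2 √(B₀₀B₁₁) |B₁₂||B₀₂| ≤ B₀₀|B₁₂|² + B₁₁|B₀₂|²`
  (the `2×2` principal minors are `≥ 0`: `|B₀₁|² ≤ B₀₀ B₁₁`).
* `entry_le`: psd: `‖A j k‖ ≤ (A j j + A k k)/2 ≤ tr A` (take the vectors `e_j ± ω e_k`, or the `2×2`
  minors; or `|A_jk|² ≤ A_jj A_kk`).
* `det_lower`: `B := Pᴴ A P - diagonal q` is Hermitian with nonnegative form, so psd; then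
  `det (Pᴴ A P) = ‖det P‖² det A` is `≥ det (diagonal q) = ∏ q` by `det_add_ge` (and `det B ≥ 0`).
* `det_upper`: `hadamard` for `Pᴴ A P`.
(This file: hadamard, entry_le, det_lower, det_upper.)
-/

set_option autoImplicit false

noncomputable section

namespace Pool.Agent.H50.CS

open Matrix
open scoped ComplexConjugate ComplexOrder

/-- real parts and norms of the entries -/
theorem Mat2_facts {A : M3} (hA : A.PosSemidef) (j : Fin 3) :
    0 ≤ (A j j).re ∧ A j j = ((A j j).re : ℂ) := by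
  have h := hA.diag_nonneg (i := j)
  have h1 := Complex.le_def.1 h
  simp only [Complex.zero_re, Complex.zero_im] at h1
  refine ⟨h1.1, ?_⟩
  apply Complex.ext
  · simp
  · simp [← h1.2]

theorem Mat2_symm {A : M3} (hA : A.IsHermitian) (j k : Fin 3) : A k j = conj (A j k) := by
  have h := congrFun (congrFun hA k) j
  rw [Matrix.conjTranspose_apply] at h
  rw [← h]
  rfl

/-- `2 × 2` minors -/
theorem Mat2_minor {A : M3} (hA : A.PosSemidef) (j k : Fin 3) :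
    ‖A j k‖ ^ 2 ≤ (A j j).re * (A k k).re := by
  have h1 : (A.submatrix ![j, k] ![j, k]).PosSemidef := hA.submatrix _
  have h2 := h1.det_nonneg
  rw [Matrix.det_fin_two] at h2
  simp only [Matrix.submatrix_apply, Matrix.cons_val_zero, Matrix.cons_val_one] at h2
  obtain ⟨_, hj⟩ := Mat2_facts hA j
  obtain ⟨_, hk⟩ := Mat2_facts hA k
  have h3 : A j k * A k j = ((‖A j k‖ ^ 2 : ℝ) : ℂ) := by
    rw [Mat2_symm hA.isHermitian j k, Complex.mul_conj, Complex.normSq_eq_norm_sq]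
  rw [h3, hj, hk] at h2
  have h4 := (Complex.le_def.1 h2).1
  simp only [Complex.zero_re, Complex.sub_re, Complex.mul_re, Complex.ofReal_re,
    Complex.ofReal_im, mul_zero, sub_zero] at h4
  linarith

theorem hadamard {B : M3} (hB : B.PosSemidef) :
    B.det.re ≤ (B 0 0).re * (B 1 1).re * (B 2 2).re := by
  obtain ⟨ha, ha'⟩ := Mat2_facts hB 0
  obtain ⟨hb, hb'⟩ := Mat2_facts hB 1
  obtain ⟨hc, hc'⟩ := Mat2_facts hB 2
  have h01 := Mat2_minor hB 0 1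
  have h10 := Mat2_symm hB.isHermitian 0 1
  have h21 := Mat2_symm hB.isHermitian 1 2
  have h20 := Mat2_symm hB.isHermitian 0 2
  rw [Matrix.det_fin_three, h10, h21, h20]
  set a := (B 0 0).re with hadef
  set b := (B 1 1).re with hbdef
  set c := (B 2 2).re with hcdef
  set x := B 0 1
  set y := B 1 2
  set z := B 0 2
  rw [ha', hb', hc']
  have e1 : ((a : ℂ) * (b : ℂ) * (c : ℂ) - (a : ℂ) * y * conj y - x * conj x * (c : ℂ) +
      x * y * conj z + z * conj x * conj y - z * (b : ℂ) * conj z).re =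
      a * b * c - a * ‖y‖ ^ 2 - c * ‖x‖ ^ 2 - b * ‖z‖ ^ 2 + 2 * (x * y * conj z).re := by
    have h1 : (a : ℂ) * y * conj y = ((a * ‖y‖ ^ 2 : ℝ) : ℂ) := by
      rw [mul_assoc, Complex.mul_conj, Complex.normSq_eq_norm_sq]; push_cast; ring
    have h2 : x * conj x * (c : ℂ) = ((c * ‖x‖ ^ 2 : ℝ) : ℂ) := by
      rw [Complex.mul_conj, Complex.normSq_eq_norm_sq]; push_cast; ring
    have h3 : z * (b : ℂ) * conj z = ((b * ‖z‖ ^ 2 : ℝ) : ℂ) := by
      rw [mul_right_comm, Complex.mul_conj, Complex.normSq_eq_norm_sq]; push_cast; ring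
    have h4 : z * conj x * conj y = conj (x * y * conj z) := by
      simp only [map_mul, Complex.conj_conj]; ring
    have h5 : (a : ℂ) * (b : ℂ) * (c : ℂ) = ((a * b * c : ℝ) : ℂ) := by push_cast; ring
    rw [h1, h2, h3, h4, h5]
    simp only [Complex.sub_re, Complex.add_re, Complex.ofReal_re, Complex.conj_re]
    ring
  rw [e1]
  have h5 : (x * y * conj z).re ≤ ‖x‖ * ‖y‖ * ‖z‖ := by
    refine (Complex.re_le_norm _).trans ?_
    rw [norm_mul, norm_mul, Complex.norm_conj]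
  have hx0 := norm_nonneg x
  have hy0 := norm_nonneg y
  have hz0 := norm_nonneg z
  have h6 : 2 * (‖x‖ * ‖y‖ * ‖z‖) ≤ a * ‖y‖ ^ 2 + b * ‖z‖ ^ 2 := by
    have h7 : (2 * (‖x‖ * ‖y‖ * ‖z‖)) ^ 2 ≤ (a * ‖y‖ ^ 2 + b * ‖z‖ ^ 2) ^ 2 := by
      calc (2 * (‖x‖ * ‖y‖ * ‖z‖)) ^ 2 = 4 * (‖y‖ ^ 2 * ‖z‖ ^ 2) * ‖x‖ ^ 2 := by ring
        _ ≤ 4 * (‖y‖ ^ 2 * ‖z‖ ^ 2) * (a * b) :=
          mul_le_mul_of_nonneg_left h01 (by positivity)
        _ ≤ (a * ‖y‖ ^ 2 + b * ‖z‖ ^ 2) ^ 2 := by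
          nlinarith [sq_nonneg (a * ‖y‖ ^ 2 - b * ‖z‖ ^ 2)]
    exact (pow_le_pow_iff_left₀ (by positivity) (by positivity) (by norm_num)).1 h7
  have h8 : 0 ≤ c * ‖x‖ ^ 2 := by positivity
  linarith

theorem Mat2_trace {A : M3} (hA : A.PosSemidef) (j : Fin 3) : (A j j).re ≤ A.trace.re := by
  have h0 := (Mat2_facts hA 0).1
  have h1 := (Mat2_facts hA 1).1
  have h2 := (Mat2_facts hA 2).1
  rw [Matrix.trace_fin_three]
  simp only [Complex.add_re]
  fin_cases j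
  · simp only [Fin.zero_eta]; linarith
  · simp only [Fin.mk_one]; linarith
  · simp only [Fin.reduceFinMk]; linarith

theorem entry_le {A : M3} (hA : A.PosSemidef) (j k : Fin 3) : ‖A j k‖ ≤ A.trace.re := by
  have h1 := Mat2_minor hA j k
  have h2 := Mat2_trace hA j
  have h3 := Mat2_trace hA k
  have h4 := (Mat2_facts hA j).1
  have h5 := (Mat2_facts hA k).1
  have h6 : ‖A j k‖ ^ 2 ≤ A.trace.re ^ 2 := by
    rw [sq (A.trace.re)]
    exact h1.trans (mul_le_mul h2 h3 h5 (h4.trans h2))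
  exact (pow_le_pow_iff_left₀ (norm_nonneg _) (h4.trans h2) (by norm_num)).1 h6

theorem Mat2_detP (A P : M3) : (Pᴴ * A * P).det.re = A.det.re * ‖P.det‖ ^ 2 := by
  have h1 : (Pᴴ * A * P).det = A.det * ((‖P.det‖ ^ 2 : ℝ) : ℂ) := by
    rw [Matrix.det_mul, Matrix.det_mul, Matrix.det_conjTranspose]
    have h2 : star P.det * A.det * P.det = A.det * (P.det * conj P.det) := by
      rw [Complex.star_def]; ring
    rw [h2, Complex.mul_conj, Complex.normSq_eq_norm_sq]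
  rw [h1, Complex.re_mul_ofReal]

theorem Mat2_form (A P : M3) (c : Fin 3 → ℂ) :
    star c ⬝ᵥ ((Pᴴ * A * P) *ᵥ c) = star (P *ᵥ c) ⬝ᵥ (A *ᵥ (P *ᵥ c)) := by
  simp only [star_mulVec, dotProduct_mulVec, vecMul_vecMul]

theorem det_lower {A : M3} (hA : A.IsHermitian) (P : M3) (q : Fin 3 → ℝ) (hq : ∀ i, 0 ≤ q i)
    (h : ∀ c : Fin 3 → ℂ, ∑ i, q i * ‖c i‖ ^ 2 ≤ (star (P *ᵥ c) ⬝ᵥ (A *ᵥ (P *ᵥ c))).re) :
    q 0 * q 1 * q 2 ≤ A.det.re * ‖P.det‖ ^ 2 := by
  set Q : M3 := Matrix.diagonal (fun i => (q i : ℂ)) with hQ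
  have hQpsd : Q.PosSemidef := by
    refine Matrix.PosSemidef.diagonal ?_
    intro i
    simp only [Pi.zero_apply]
    exact_mod_cast hq i
  set B : M3 := Pᴴ * A * P - Q with hB
  have hBh : B.IsHermitian := (isHermitian_conjTranspose_mul_mul P hA).sub hQpsd.isHermitian
  have hBpsd : B.PosSemidef := by
    refine Matrix.PosSemidef.of_dotProduct_mulVec_nonneg hBh fun c => ?_
    have h1 : star c ⬝ᵥ (B *ᵥ c) = star (P *ᵥ c) ⬝ᵥ (A *ᵥ (P *ᵥ c)) -
        ((∑ i, q i * ‖c i‖ ^ 2 : ℝ) : ℂ) := by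
      rw [hB, Matrix.sub_mulVec, dotProduct_sub, Mat2_form]
      congr 1
      simp only [hQ, dotProduct, Pi.star_apply, Matrix.mulVec_diagonal]
      push_cast
      refine Finset.sum_congr rfl fun i _ => ?_
      rw [Complex.star_def]
      have : (‖c i‖ : ℂ) ^ 2 = c i * conj (c i) := by
        rw [Complex.mul_conj, Complex.normSq_eq_norm_sq]; push_cast; ring
      rw [this]; ring
    have him : (star c ⬝ᵥ (B *ᵥ c)).im = 0 := hBh.im_star_dotProduct_mulVec_self c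
    rw [Complex.le_def]
    refine ⟨?_, ?_⟩
    · rw [h1, Complex.sub_re, Complex.ofReal_re, Complex.zero_re]
      have := h c
      linarith
    · rw [him, Complex.zero_im]
  have h2 := det_add_ge hBpsd hQpsd
  have h3 : B + Q = Pᴴ * A * P := by rw [hB]; abel
  rw [h3, Mat2_detP] at h2
  have h4 : 0 ≤ B.det.re := (Complex.le_def.1 hBpsd.det_nonneg).1
  have h5 : Q.det.re = q 0 * q 1 * q 2 := by
    rw [hQ, Matrix.det_diagonal, Fin.prod_univ_three]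
    have : (q 0 : ℂ) * (q 1 : ℂ) * (q 2 : ℂ) = ((q 0 * q 1 * q 2 : ℝ) : ℂ) := by push_cast; ring
    rw [this, Complex.ofReal_re]
  linarith

theorem det_upper {A : M3} (hA : A.PosSemidef) (P : M3) (q : Fin 3 → ℝ)
    (h : ∀ i, (star (fun j => P j i) ⬝ᵥ (A *ᵥ (fun j => P j i))).re ≤ q i) :
    0 ≤ A.det.re ∧ A.det.re * ‖P.det‖ ^ 2 ≤ q 0 * q 1 * q 2 := by
  have h0 : 0 ≤ A.det.re := (Complex.le_def.1 hA.det_nonneg).1
  refine ⟨h0, ?_⟩
  have hB : (Pᴴ * A * P).PosSemidef := hA.conjTranspose_mul_mul_same P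
  have h1 := hadamard hB
  rw [Mat2_detP] at h1
  have h2 : ∀ i, (Pᴴ * A * P) i i = star (fun j => P j i) ⬝ᵥ (A *ᵥ (fun j => P j i)) := by
    intro i
    rw [Matrix.mul_assoc, Matrix.mul_apply]
    simp only [dotProduct, Matrix.conjTranspose_apply, Pi.star_apply, Matrix.mulVec,
      Matrix.mul_apply]
  have h3 : ∀ i, ((Pᴴ * A * P) i i).re ≤ q i := fun i => by rw [h2 i]; exact h i
  have h4 : ∀ i, 0 ≤ ((Pᴴ * A * P) i i).re := fun i => (Mat2_facts hB i).1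
  have h5 : ((Pᴴ * A * P) 0 0).re * ((Pᴴ * A * P) 1 1).re ≤ q 0 * q 1 :=
    mul_le_mul (h3 0) (h3 1) (h4 1) ((h4 0).trans (h3 0))
  have h6 : ((Pᴴ * A * P) 0 0).re * ((Pᴴ * A * P) 1 1).re * ((Pᴴ * A * P) 2 2).re ≤
      q 0 * q 1 * q 2 :=
    mul_le_mul h5 (h3 2) (h4 2) (mul_nonneg ((h4 0).trans (h3 0)) ((h4 1).trans (h3 1)))
  linarith

end Pool.Agent.H50.CS
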