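import Pool.Agent.H50.CS.Lev
import Pool.Agent.H50.CS.Mat2

/-!
# CS-LEV: the complex Hessian matrix and the Levi form

`levi_eq` (FZ/Calc): `levi P x w = ∑_jk Hm P x j k * w j * conj (w k)`, i.e.
`star w ⬝ᵥ ((Hm P x)ᵀ *ᵥ w)`.

* `hm_herm`: `conj (dbar k (del j P)) = del k (dbar j P) = dbar j (del k P)` for real `P` (conjugation
  exchanges `del` and `dbar` of the conjugate; `del_dbar_comm` of FZ/Calc).
* `hm_psd`: nonnegative Levi form makes `(Hm P x)ᵀ` and hence `Hm P x` positive semidefinite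
  (`Matrix.PosSemidef.transpose`).
* `hm_add`, `hm_const_mul`, `hm_congr`: linearity (`del_add`, `dbar_add` of FZ/Calc1; `del j` of a `C²`
  function is differentiable: `c2_del_diff`).
* `ma_mono_add`: apply `det_add_ge` to `(Hm P x)ᵀ + δ²…`: with `A = (Hm P x)ᵀ`, `B = (Hm Q x)ᵀ`,
  `B - A - δ•1` is Hermitian with nonnegative form, hence psd, so
  `det B ≥ det (A + δ•1) ≥ det A + δ³` (`det_add_ge` twice; `det (δ•1) = δ³`).
* `ma_lower`, `ma_upper`: `det_lower`, `det_upper` for `A = (Hm P x)ᵀ`, `P j i = v i j`;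
  `levi P x (∑ c i • v i)` is the form at `P *ᵥ c`.
(This file: ma_nonneg, ma_mono_add, ma_lower, ma_upper, continuousOn_ma, continuousOn_levi.)
-/

set_option autoImplicit false

noncomputable section

namespace Pool.Agent.H50.CS

open Complex Metric MeasureTheory Set Filter Topology Matrix
open scoped ContDiff ComplexConjugate ComplexOrder
open Pool.Agent.H8.FZ

variable {n : ℕ}

/-- real part of the form at a vector -/
theorem Lev2_form {P : En 3 → ℝ} {x : En 3} (hP : ContDiffAt ℝ 2 P x) (w : En 3)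
    (u : Fin 3 → ℂ) (hu : u = fun j => w j) :
    star u ⬝ᵥ ((Hm P x)ᵀ *ᵥ u) = ((levi P x w : ℝ) : ℂ) := by
  subst hu
  exact (levi_form hP w).symm

theorem Lev2_detT (P : En 3 → ℝ) (x : En 3) : ((Hm P x)ᵀ).det.re = ma P x := by
  rw [Matrix.det_transpose]
  rfl

theorem ma_nonneg {P : En 3 → ℝ} {x : En 3} (hP : ContDiffAt ℝ 2 P x)
    (h : ∀ w, 0 ≤ levi P x w) : 0 ≤ ma P x := by
  exact (Complex.le_def.1 (hm_psd hP h).2.det_nonneg).1

theorem ma_mono_add {P Q : En 3 → ℝ} {x : En 3} (hP : ContDiffAt ℝ 2 P x)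
    (hQ : ContDiffAt ℝ 2 Q x) (h : ∀ w, 0 ≤ levi P x w) {δ : ℝ} (hδ : 0 ≤ δ)
    (hPQ : ∀ w, levi P x w + δ * ‖w‖ ^ 2 ≤ levi Q x w) : ma P x + δ ^ 3 ≤ ma Q x := by
  have hA : ((Hm P x)ᵀ : M3).PosSemidef := (hm_psd hP h).1
  have hBh : ((Hm Q x)ᵀ : M3).IsHermitian := (hm_herm hQ).transpose
  set D : M3 := Matrix.diagonal (fun _ => (δ : ℂ)) with hD
  have hDpsd : D.PosSemidef := by
    refine Matrix.PosSemidef.diagonal ?_
    intro i
    simp only [Pi.zero_apply]
    exact_mod_cast hδ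
  set C : M3 := (Hm Q x)ᵀ - (Hm P x)ᵀ - D with hC
  have hCh : C.IsHermitian := (hBh.sub hA.isHermitian).sub hDpsd.isHermitian
  have hCpsd : C.PosSemidef := by
    refine Matrix.PosSemidef.of_dotProduct_mulVec_nonneg hCh fun c => ?_
    set w : En 3 := WithLp.toLp 2 c with hw
    have hcw : c = fun j => w j := rfl
    have h1 : star c ⬝ᵥ (D *ᵥ c) = ((δ * ‖w‖ ^ 2 : ℝ) : ℂ) := by
      rw [Complex.ofReal_mul, norm_sq_eq, Finset.mul_sum]
      simp only [hD, dotProduct, Pi.star_apply, Matrix.mulVec_diagonal]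
      refine Finset.sum_congr rfl fun i _ => ?_
      rw [Complex.star_def]
      have : w i = c i := rfl
      rw [this]
      ring
    have h2 : star c ⬝ᵥ (C *ᵥ c) = ((levi Q x w - levi P x w - δ * ‖w‖ ^ 2 : ℝ) : ℂ) := by
      rw [hC, Matrix.sub_mulVec, Matrix.sub_mulVec, dotProduct_sub, dotProduct_sub,
        Lev2_form hQ w c hcw, Lev2_form hP w c hcw, h1]
      push_cast
      ring
    rw [h2]
    have h3 := hPQ w
    have h4 : 0 ≤ levi Q x w - levi P x w - δ * ‖w‖ ^ 2 := by linarith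
    exact_mod_cast h4
  have h5 := det_add_ge hA hDpsd
  have h6 := det_add_ge hCpsd (hA.add hDpsd)
  have h7 : C + ((Hm P x)ᵀ + D) = (Hm Q x)ᵀ := by rw [hC]; abel
  have h8 : 0 ≤ C.det.re := (Complex.le_def.1 hCpsd.det_nonneg).1
  have h9 : D.det.re = δ ^ 3 := by
    rw [hD, Matrix.det_diagonal, Fin.prod_univ_three]
    have : (δ : ℂ) * (δ : ℂ) * (δ : ℂ) = ((δ ^ 3 : ℝ) : ℂ) := by push_cast; ring
    rw [this, Complex.ofReal_re]
  rw [h7, Lev2_detT] at h6
  rw [Lev2_detT] at h5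
  linarith

theorem Lev2_mulVec (v : Fin 3 → En 3) (c : Fin 3 → ℂ) :
    (Matrix.of fun j i => v i j : M3) *ᵥ c = fun j => (∑ i, c i • v i : En 3) j := by
  funext j
  simp only [Matrix.mulVec, dotProduct, Matrix.of_apply, Fin.sum_univ_three, PiLp.add_apply,
    PiLp.smul_apply, smul_eq_mul]
  ring

theorem ma_lower {P : En 3 → ℝ} {x : En 3} (hP : ContDiffAt ℝ 2 P x) (v : Fin 3 → En 3)
    (q : Fin 3 → ℝ) (hq : ∀ i, 0 ≤ q i)
    (h : ∀ c : Fin 3 → ℂ, ∑ i, q i * ‖c i‖ ^ 2 ≤ levi P x (∑ i, c i • v i)) :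
    q 0 * q 1 * q 2 ≤ ma P x * ‖(Matrix.of fun j i => v i j : M3).det‖ ^ 2 := by
  have h1 := det_lower (A := (Hm P x)ᵀ) (hm_herm hP).transpose
    (Matrix.of fun j i => v i j : M3) q hq (fun c => by
      rw [Lev2_form hP (∑ i, c i • v i) _ (Lev2_mulVec v c), Complex.ofReal_re]
      exact h c)
  rwa [Lev2_detT] at h1

theorem ma_upper {P : En 3 → ℝ} {x : En 3} (hP : ContDiffAt ℝ 2 P x) (v : Fin 3 → En 3)
    (hpsd : ∀ w, 0 ≤ levi P x w) (q : Fin 3 → ℝ) (h : ∀ i, levi P x (v i) ≤ q i) :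
    0 ≤ ma P x ∧
      ma P x * ‖(Matrix.of fun j i => v i j : M3).det‖ ^ 2 ≤ q 0 * q 1 * q 2 := by
  have h1 := det_upper (A := (Hm P x)ᵀ) (hm_psd hP hpsd).1
    (Matrix.of fun j i => v i j : M3) q (fun i => by
      have h2 := Lev2_form hP (v i) (fun j => (Matrix.of fun j i => v i j : M3) j i) rfl
      rw [h2, Complex.ofReal_re]
      exact h i)
  rwa [Lev2_detT] at h1

/-- continuity of the determinant of the Hessian of a smooth function -/
theorem continuousOn_ma {P : En n → ℝ} {V : Set (En n)} (hV : IsOpen V)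
    (hP : ContDiffOn ℝ ∞ P V) : ContinuousOn (ma P) V := by
  have h1 : ContDiffOn ℝ ∞ (fun y => (P y : ℂ)) V :=
    Complex.ofRealCLM.contDiff.comp_contDiffOn hP
  have h2 : ∀ j k, ContinuousOn (fun x => Hm P x j k) V := fun j k =>
    (contDiffOn_dbar hV (contDiffOn_del hV h1 j) k).continuousOn
  have h3 : ContinuousOn (fun x => (Hm P x)) V :=
    continuousOn_pi.2 fun j => continuousOn_pi.2 fun k => h2 j k
  have h4 : Continuous (fun M : Matrix (Fin n) (Fin n) ℂ => M.det.re) :=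
    Complex.continuous_re.comp (Continuous.matrix_det continuous_id)
  exact h4.comp_continuousOn h3

theorem continuousOn_levi {P : En n → ℝ} {V : Set (En n)} (hV : IsOpen V)
    (hP : ContDiffOn ℝ ∞ P V) : ContinuousOn (fun p : En n × En n => levi P p.1 p.2) (V ×ˢ univ) := by
  have h1 : ContDiffOn ℝ ∞ (fderiv ℝ P) V := hP.fderiv_of_isOpen hV (by simp)
  have h2 : ContinuousOn (fderiv ℝ (fderiv ℝ P)) V :=
    (h1.fderiv_of_isOpen (m := 0) hV (by simp)).continuousOn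
  have h3 : ContinuousOn (fun p : En n × En n => fderiv ℝ (fderiv ℝ P) p.1) (V ×ˢ univ) :=
    h2.comp continuousOn_fst (fun p hp => hp.1)
  have h4 : ContinuousOn (fun p : En n × En n => p.2) (V ×ˢ univ) := continuousOn_snd
  have h5 : ContinuousOn (fun p : En n × En n => (I : ℂ) • p.2) (V ×ˢ univ) := h4.const_smul I
  exact continuousOn_const.mul (((h3.clm_apply h4).clm_apply h4).add
    ((h3.clm_apply h5).clm_apply h5))

end Pool.Agent.H50.CS
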