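import Pool.Agent.H50.CS.Div
import Pool.Agent.H50.CS.Ibp3
import Pool.Agent.H50.CS.Lev2

/-!
# CS-COMP: the basic comparison inequality for smooth psh functions in `ℂ³`

`V` open, `p, q` smooth psh on `V`, `θ : ℝ → ℝ` smooth and monotone, `θ(p-q)` vanishing on `V` off a
compact `K ⊆ V`. Then `∫_V θ(p-q) (ma p - ma q) ≤ 0`.

Proof. Let `w = p - q` and `χ = θ(w)` on `V`, `0` off `V`: smooth with compact support in `V`.
By `det_sub_eq` and `hm_add`/`hm_const_mul` (`(Hm p + Hm q)/2 = Hm ((p+q)/2)`,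
`Hm p - Hm q = Hm w` on `V`): `ma p - ma q = Re tr(Hm w · C)`,
`C = (1/6) adj Hm p + (2/3) adj Hm m + (1/6) adj Hm q`, `m = (p+q)/2`.
By `ibp1` for the three divergence free fields (`divFree_adj`):
`∫ χ tr(Hm w · C) = -∫ ∑_jk (∂_jχ)(∂̄_k w) C_kj`. Now `∂_jχ = θ'(w) ∂_j w` on `V`, and
`∂̄_k w = conj (∂_k w)` (`w` real), so with `y_j = ∂_j w`:
`∑_jk (∂_jχ)(∂̄_k w) C_kj = θ'(w) ∑_jk conj(y_k) C_kj y_j = θ'(w) (star y ⬝ᵥ C *ᵥ y)`, whose real part is
`≥ 0` since `θ' ≥ 0` (monotone) and each adjugate is psd (`hm_psd`, `adj_psd`).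
-/

set_option autoImplicit false

noncomputable section

namespace Pool.Agent.H50.CS

open Complex Metric MeasureTheory Set Filter Topology Matrix
open scoped ContDiff ComplexConjugate ComplexOrder
open Pool.Agent.H8.FZ

theorem compIneq_divFree_add {n : ℕ} {V : Set (En n)} (hV : IsOpen V)
    {C D : En n → Matrix (Fin n) (Fin n) ℂ} (hC : DivFree V C) (hD : DivFree V D) :
    DivFree V (fun x => C x + D x) where
  smooth := fun k j => (hC.smooth k j).add (hD.smooth k j)
  del := fun x hx k => by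
    have h1 : ∀ j, DifferentiableAt ℝ (fun y => C y k j) x := fun j =>
      ((hC.smooth k j).contDiffAt (hV.mem_nhds hx)).differentiableAt (by simp)
    have h2 : ∀ j, DifferentiableAt ℝ (fun y => D y k j) x := fun j =>
      ((hD.smooth k j).contDiffAt (hV.mem_nhds hx)).differentiableAt (by simp)
    have h3 : ∀ j, Pool.Agent.H8.FZ.del j (fun y => (C y + D y) k j) x =
        Pool.Agent.H8.FZ.del j (fun y => C y k j) x +
          Pool.Agent.H8.FZ.del j (fun y => D y k j) x := fun j => by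
      rw [← del_add (h1 j) (h2 j)]
      rfl
    simp only [h3, Finset.sum_add_distrib, hC.del x hx k, hD.del x hx k, add_zero]
  dbar := fun x hx j => by
    have h1 : ∀ k, DifferentiableAt ℝ (fun y => C y k j) x := fun k =>
      ((hC.smooth k j).contDiffAt (hV.mem_nhds hx)).differentiableAt (by simp)
    have h2 : ∀ k, DifferentiableAt ℝ (fun y => D y k j) x := fun k =>
      ((hD.smooth k j).contDiffAt (hV.mem_nhds hx)).differentiableAt (by simp)
    have h3 : ∀ k, Pool.Agent.H8.FZ.dbar k (fun y => (C y + D y) k j) x =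
        Pool.Agent.H8.FZ.dbar k (fun y => C y k j) x +
          Pool.Agent.H8.FZ.dbar k (fun y => D y k j) x := fun k => by
      rw [← dbar_add (h1 k) (h2 k)]
      rfl
    simp only [h3, Finset.sum_add_distrib, hC.dbar x hx j, hD.dbar x hx j, add_zero]

theorem compIneq_divFree_smul {n : ℕ} {V : Set (En n)} (hV : IsOpen V) (c : ℂ)
    {C : En n → Matrix (Fin n) (Fin n) ℂ} (hC : DivFree V C) :
    DivFree V (fun x => c • C x) where
  smooth := fun k j => contDiffOn_const.mul (hC.smooth k j)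
  del := fun x hx k => by
    have h1 : ∀ j, DifferentiableAt ℝ (fun y => C y k j) x := fun j =>
      ((hC.smooth k j).contDiffAt (hV.mem_nhds hx)).differentiableAt (by simp)
    have h3 : ∀ j, Pool.Agent.H8.FZ.del j (fun y => (c • C y) k j) x =
        c * Pool.Agent.H8.FZ.del j (fun y => C y k j) x := fun j => by
      rw [← del_const_mul c (h1 j)]
      rfl
    simp only [h3, ← Finset.mul_sum, hC.del x hx k, mul_zero]
  dbar := fun x hx j => by
    have h1 : ∀ k, DifferentiableAt ℝ (fun y => C y k j) x := fun k =>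
      ((hC.smooth k j).contDiffAt (hV.mem_nhds hx)).differentiableAt (by simp)
    have h3 : ∀ k, Pool.Agent.H8.FZ.dbar k (fun y => (c • C y) k j) x =
        c * Pool.Agent.H8.FZ.dbar k (fun y => C y k j) x := fun k => by
      rw [← dbar_const_mul c (h1 k)]
      rfl
    simp only [h3, ← Finset.mul_sum, hC.dbar x hx j, mul_zero]

theorem compIneq_del_comp {n : ℕ} {w : En n → ℝ} {θ : ℝ → ℝ} {x : En n}
    (hw : DifferentiableAt ℝ w x) (hθ : DifferentiableAt ℝ θ (w x)) (j : Fin n) :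
    del j (fun y => ((θ (w y) : ℝ) : ℂ)) x =
      ((deriv θ (w x) : ℝ) : ℂ) * del j (fun y => (w y : ℂ)) x := by
  have h1 : HasFDerivAt (fun y => θ (w y)) (deriv θ (w x) • fderiv ℝ w x) x :=
    hθ.hasDerivAt.comp_hasFDerivAt x hw.hasFDerivAt
  have h2 : fderiv ℝ (fun y => ((θ (w y) : ℝ) : ℂ)) x =
      Complex.ofRealCLM.comp (deriv θ (w x) • fderiv ℝ w x) :=
    (Complex.ofRealCLM.hasFDerivAt.comp x h1).fderiv
  have h3 : fderiv ℝ (fun y => (w y : ℂ)) x = Complex.ofRealCLM.comp (fderiv ℝ w x) :=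
    (Complex.ofRealCLM.hasFDerivAt.comp x hw.hasFDerivAt).fderiv
  unfold del
  rw [h2, h3]
  simp only [ContinuousLinearMap.comp_apply, _root_.smul_apply,
    Complex.ofRealCLM_apply, smul_eq_mul, Complex.ofReal_mul]
  ring

/-- the quadratic form of a psd matrix, as the double sum of `ibp1` -/
theorem compIneq_form {n : ℕ} {C : Matrix (Fin n) (Fin n) ℂ} (hC : C.PosSemidef) {t : ℝ}
    (ht : 0 ≤ t) (y : Fin n → ℂ) :
    ∃ r : ℝ, 0 ≤ r ∧ ∑ j, ∑ k, ((t : ℂ) * y j) * conj (y k) * C k j = (r : ℂ) := by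
  have h1 : ∑ j, ∑ k, ((t : ℂ) * y j) * conj (y k) * C k j = (t : ℂ) * (star y ⬝ᵥ (C *ᵥ y)) := by
    rw [Finset.sum_comm]
    simp only [dotProduct, Matrix.mulVec, Pi.star_apply, Finset.mul_sum]
    refine Finset.sum_congr rfl fun k _ => Finset.sum_congr rfl fun j _ => ?_
    rw [Complex.star_def]
    ring
  have h2 : 0 ≤ star y ⬝ᵥ (C *ᵥ y) := hC.dotProduct_mulVec_nonneg y
  obtain ⟨h3, h4⟩ := Complex.le_def.1 h2
  simp only [Complex.zero_re, Complex.zero_im] at h3 h4
  refine ⟨t * (star y ⬝ᵥ (C *ᵥ y)).re, mul_nonneg ht h3, ?_⟩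
  rw [h1, Complex.ofReal_mul]
  congr 1
  apply Complex.ext
  · simp
  · simp [← h4]

theorem compIneq_det_real {P : En 3 → ℝ} {x : En 3} (hP : ContDiffAt ℝ 2 P x) :
    (Hm P x).det = ((ma P x : ℝ) : ℂ) := by
  have h1 : conj (Hm P x).det = (Hm P x).det := by
    have h2 : ((Hm P x)ᴴ).det = star (Hm P x).det := Matrix.det_conjTranspose _
    rw [(hm_herm hP).eq] at h2
    exact h2.symm
  unfold ma
  exact (Complex.conj_eq_iff_re.1 h1).symm

theorem comp_ineq {V : Set (En 3)} (hV : IsOpen V) {p q : En 3 → ℝ} (hp : SmoothPsh V p)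
    (hq : SmoothPsh V q) {θ : ℝ → ℝ} (hθ : ContDiff ℝ ∞ θ) (hmono : Monotone θ)
    {K : Set (En 3)} (hK : IsCompact K) (hKV : K ⊆ V)
    (hsupp : ∀ x ∈ V, x ∉ K → θ (p x - q x) = 0) :
    ∫ x in V, θ (p x - q x) * (ma p x - ma q x) ≤ 0 := by
  classical
  set w : En 3 → ℝ := fun x => p x - q x with hwdef
  set m : En 3 → ℝ := fun x => (1 / 2 : ℝ) * (p x + q x) with hmdef
  set χ : En 3 → ℝ := V.indicator (fun x => θ (w x)) with hχdef
  set C : En 3 → M3 := fun x => ((1 / 6 : ℂ) • (Hm p x).adjugate +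
      (2 / 3 : ℂ) • (Hm m x).adjugate) + (1 / 6 : ℂ) • (Hm q x).adjugate with hCdef
  have hwC : ContDiffOn ℝ ∞ w V := hp.1.sub hq.1
  have hmC : ContDiffOn ℝ ∞ m V := contDiffOn_const.mul (hp.1.add hq.1)
  have hp2 : ∀ x ∈ V, ContDiffAt ℝ 2 p x := fun x hx =>
    (hp.1.contDiffAt (hV.mem_nhds hx)).of_le (by norm_cast)
  have hq2 : ∀ x ∈ V, ContDiffAt ℝ 2 q x := fun x hx =>
    (hq.1.contDiffAt (hV.mem_nhds hx)).of_le (by norm_cast)
  have hw2 : ∀ x ∈ V, ContDiffAt ℝ 2 w x := fun x hx =>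
    (hwC.contDiffAt (hV.mem_nhds hx)).of_le (by norm_cast)
  have hm2 : ∀ x ∈ V, ContDiffAt ℝ 2 m x := fun x hx =>
    (hmC.contDiffAt (hV.mem_nhds hx)).of_le (by norm_cast)
  -- the field
  have hCdiv : DivFree V C :=
    compIneq_divFree_add hV (compIneq_divFree_add hV
      (compIneq_divFree_smul hV _ (divFree_adj hV hp.1))
      (compIneq_divFree_smul hV _ (divFree_adj hV hmC)))
      (compIneq_divFree_smul hV _ (divFree_adj hV hq.1))
  have hHm : ∀ x ∈ V, Hm m x = (1 / 2 : ℂ) • (Hm p x + Hm q x) := fun x hx => by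
    have h1 := hm_const_mul ((hp2 x hx).add (hq2 x hx)) (1 / 2 : ℝ)
    rw [hm_add (hp2 x hx) (hq2 x hx)] at h1
    rw [hmdef, h1]
    norm_num
  have hHw : ∀ x ∈ V, Hm w x = Hm p x - Hm q x := fun x hx => by
    have h1 := hm_add (hw2 x hx) (hq2 x hx)
    have h2 : (fun y => w y + q y) = p := by
      funext y
      simp [hwdef]
    rw [h2] at h1
    rw [h1]
    abel
  have h4 : (0 : ℂ) ≤ 1 / 2 := by simp
  have h5 : (0 : ℂ) ≤ 1 / 6 := by simp
  have h6 : (0 : ℂ) ≤ 2 / 3 := by
    have h := Complex.zero_le_real.2 (by norm_num : (0 : ℝ) ≤ 2 / 3)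
    push_cast at h
    exact h
  have hCpsd : ∀ x ∈ V, (C x).PosSemidef := fun x hx => by
    have h1 : (Hm p x).PosSemidef := (hm_psd (hp2 x hx) (hp.2 x hx)).2
    have h2 : (Hm q x).PosSemidef := (hm_psd (hq2 x hx) (hq.2 x hx)).2
    have h3 : (Hm m x).PosSemidef := by
      rw [hHm x hx]
      exact (h1.add h2).smul h4
    exact (((adj_psd h1).smul h5).add ((adj_psd h3).smul h6)).add ((adj_psd h2).smul h5)
  -- the cutoff
  have hχ0 : ∀ x, x ∉ K → χ x = 0 := fun x hx => by
    by_cases hxV : x ∈ V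
    · rw [hχdef, Set.indicator_of_mem hxV]
      exact hsupp x hxV hx
    · rw [hχdef, Set.indicator_of_notMem hxV]
  have hχev : ∀ x ∈ V, χ =ᶠ[𝓝 x] fun y => θ (w y) := fun x hx => by
    filter_upwards [hV.mem_nhds hx] with y hy
    rw [hχdef, Set.indicator_of_mem hy]
  have hχev0 : ∀ x, x ∉ V → χ =ᶠ[𝓝 x] fun _ => 0 := fun x hx => by
    filter_upwards [hK.isClosed.isOpen_compl.mem_nhds (fun h => hx (hKV h))] with y hy
    exact hχ0 y hy
  have hχs : ContDiff ℝ ∞ χ := by
    rw [contDiff_iff_contDiffAt]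
    intro x
    by_cases hx : x ∈ V
    · have h1 : ContDiffAt ℝ ∞ (fun y => θ (w y)) x :=
        hθ.contDiffAt.comp x (hwC.contDiffAt (hV.mem_nhds hx))
      exact h1.congr_of_eventuallyEq (hχev x hx)
    · exact contDiffAt_const.congr_of_eventuallyEq (hχev0 x hx)
  have hχc : HasCompactSupport χ := HasCompactSupport.intro hK hχ0
  have hχt : tsupport χ ⊆ V := by
    refine (closure_minimal ?_ hK.isClosed).trans hKV
    intro x hx
    by_contra h
    exact hx (hχ0 x h)
  have hibp := ibp1 hV hCdiv hwC hχs hχc hχt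
  -- left hand side
  have hL : ∀ x, (χ x : ℂ) * (Hm w x * C x).trace =
      ((V.indicator (fun x => θ (w x) * (ma p x - ma q x)) x : ℝ) : ℂ) := fun x => by
    by_cases hx : x ∈ V
    · have h1 := det_sub_eq (Hm p x) (Hm q x)
      rw [← hHw x hx, ← hHm x hx, compIneq_det_real (hp2 x hx),
        compIneq_det_real (hq2 x hx)] at h1
      rw [hχdef, Set.indicator_of_mem hx, Set.indicator_of_mem hx, hCdef]
      simp only
      rw [← h1]
      push_cast
      ring
    · rw [hχdef, Set.indicator_of_notMem hx, Set.indicator_of_notMem hx]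
      simp
  -- right hand side
  have hR : ∀ x, ∃ r : ℝ, 0 ≤ r ∧
      ∑ j, ∑ k, del j (fun y => (χ y : ℂ)) x * dbar k (fun y => (w y : ℂ)) x * C x k j =
        (r : ℂ) := fun x => by
    by_cases hx : x ∈ V
    · have hwd : DifferentiableAt ℝ w x := (hw2 x hx).differentiableAt (by norm_num)
      have h1 : ∀ j, del j (fun y => (χ y : ℂ)) x =
          ((deriv θ (w x) : ℝ) : ℂ) * del j (fun y => (w y : ℂ)) x := fun j => by
        rw [← compIneq_del_comp hwd (hθ.differentiable (by simp) _) j]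
        refine del_congr ?_ j
        filter_upwards [hχev x hx] with y hy
        rw [hy]
      obtain ⟨r, hr, hr'⟩ := compIneq_form (hCpsd x hx) (hmono.deriv_nonneg (x := w x))
        (fun j => del j (fun y => (w y : ℂ)) x)
      refine ⟨r, hr, ?_⟩
      rw [← hr']
      refine Finset.sum_congr rfl fun j _ => Finset.sum_congr rfl fun k _ => ?_
      rw [h1 j, dbar_real hwd k]
    · refine ⟨0, le_rfl, ?_⟩
      have h1 : ∀ j, del j (fun y => (χ y : ℂ)) x = 0 := fun j => by
        have h2 : (fun y => (χ y : ℂ)) =ᶠ[𝓝 x] fun _ => (0 : ℂ) := by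
          filter_upwards [hχev0 x hx] with y hy
          rw [hy]
          simp
        rw [del_congr h2 j, del_const]
      simp [h1]
  choose r hr hr' using hR
  simp only [hL, hr'] at hibp
  rw [integral_complex_ofReal, integral_complex_ofReal, ← Complex.ofReal_neg] at hibp
  have h8 := Complex.ofReal_injective hibp
  rw [integral_indicator hV.measurableSet] at h8
  have h9 : ∫ x in V, θ (p x - q x) * (ma p x - ma q x) =
      ∫ x in V, θ (w x) * (ma p x - ma q x) := rfl
  rw [h9, h8]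
  have h7 : 0 ≤ ∫ x, r x := integral_nonneg hr
  linarith

end Pool.Agent.H50.CS
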