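import Mathlib

/-!
# CS-LOGRAD: functions of `y > 0` which are functions of `½ log y`, constant near `0`

For `g : ℝ → ℝ` smooth with `g = c` on `(-∞, t₀]`, `lr g c y = g(½ log y)` for `y > 0` and `c` for `y ≤ 0`. Then
`lr g c` is `C^∞` on `ℝ` (it is `= c` for `y < e^{2t₀}` and a composition of smooth functions for `y > 0`),
and for `y > 0`: `(lr g c)'(y) = g'(½ log y)/(2y)`, `(lr g c)''(y) = g''(½log y)/(4y²) - g'(½log y)/(2y²)`;
for `y ≤ 0` both derivatives vanish (and so do the right hand sides for `y = 0` with Lean's division by zero).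
-/

set_option autoImplicit false

noncomputable section

namespace Pool.Agent.H50.CS

open Real Set Filter Topology
open scoped ContDiff

/-- `lr g c y = g (½ log y)` for `y > 0`, `c` for `y ≤ 0` -/
def lr (g : ℝ → ℝ) (c y : ℝ) : ℝ := if y ≤ 0 then c else g (1 / 2 * Real.log y)

theorem lr_pos (g : ℝ → ℝ) (c : ℝ) {y : ℝ} (hy : 0 < y) :
    lr g c y = g (1 / 2 * Real.log y) := by
  rw [lr, if_neg (not_le.2 hy)]

theorem lr_nonpos (g : ℝ → ℝ) (c : ℝ) {y : ℝ} (hy : y ≤ 0) : lr g c y = c := by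
  rw [lr, if_pos hy]

theorem lr_eventually_pos (g : ℝ → ℝ) (c : ℝ) {y : ℝ} (hy : 0 < y) :
    lr g c =ᶠ[𝓝 y] fun y => g (1 / 2 * Real.log y) := by
  filter_upwards [lt_mem_nhds hy] with z hz
  exact lr_pos g c hz

theorem lr_eventually_const {g : ℝ → ℝ} {c t₀ : ℝ} (hc : ∀ t ≤ t₀, g t = c) {y : ℝ}
    (hy : y ≤ 0) : lr g c =ᶠ[𝓝 y] fun _ => c := by
  have h0 : y < Real.exp (2 * t₀) := lt_of_le_of_lt hy (Real.exp_pos _)
  filter_upwards [Iio_mem_nhds h0] with z hz
  rcases le_or_gt z 0 with h | h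
  · exact lr_nonpos g c h
  · rw [lr_pos g c h]
    refine hc _ ?_
    have h1 : Real.log z ≤ 2 * t₀ := by
      rw [Real.log_le_iff_le_exp h]
      exact le_of_lt hz
    linarith

theorem lr_smooth {g : ℝ → ℝ} (hg : ContDiff ℝ ∞ g) {c t₀ : ℝ} (hc : ∀ t ≤ t₀, g t = c) :
    ContDiff ℝ ∞ (lr g c) := by
  rw [contDiff_iff_contDiffAt]
  intro y
  rcases le_or_gt y 0 with h | h
  · exact contDiffAt_const.congr_of_eventuallyEq (lr_eventually_const hc h)
  · refine ContDiffAt.congr_of_eventuallyEq ?_ (lr_eventually_pos g c h)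
    exact (hg.contDiffAt).comp y (contDiffAt_const.mul (Real.contDiffAt_log.2 h.ne'))

theorem hasDerivAt_comp_log {g : ℝ → ℝ} (hg : ContDiff ℝ ∞ g) {y : ℝ} (hy : 0 < y) :
    HasDerivAt (fun y => g (1 / 2 * Real.log y)) (deriv g (1 / 2 * Real.log y) / (2 * y)) y := by
  have h1 : HasDerivAt (fun y => 1 / 2 * Real.log y) (1 / 2 * y⁻¹) y :=
    (Real.hasDerivAt_log hy.ne').const_mul _
  have h2 : HasDerivAt g (deriv g (1 / 2 * Real.log y)) (1 / 2 * Real.log y) :=
    (hg.differentiable (by simp)).differentiableAt.hasDerivAt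
  have h3 := h2.comp y h1
  refine h3.congr_deriv ?_
  field_simp

theorem deriv_lr {g : ℝ → ℝ} (hg : ContDiff ℝ ∞ g) {c t₀ : ℝ} (hc : ∀ t ≤ t₀, g t = c) {y : ℝ}
    (hy : 0 ≤ y) : deriv (lr g c) y = deriv g (1 / 2 * Real.log y) / (2 * y) := by
  rcases hy.eq_or_lt with h | h
  · subst h
    rw [(lr_eventually_const hc le_rfl).deriv_eq]
    simp
  · rw [(lr_eventually_pos g c h).deriv_eq]
    exact (hasDerivAt_comp_log hg h).deriv

theorem deriv2_lr {g : ℝ → ℝ} (hg : ContDiff ℝ ∞ g) {c t₀ : ℝ} (hc : ∀ t ≤ t₀, g t = c) {y : ℝ}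
    (hy : 0 ≤ y) : deriv (deriv (lr g c)) y = deriv (deriv g) (1 / 2 * Real.log y) / (4 * y ^ 2) -
      deriv g (1 / 2 * Real.log y) / (2 * y ^ 2) := by
  rcases hy.eq_or_lt with h | h
  · subst h
    have h1 : deriv (lr g c) =ᶠ[𝓝 0] deriv fun _ => c := (lr_eventually_const hc le_rfl).deriv
    rw [h1.deriv_eq]
    simp
  · have h1 : deriv (lr g c) =ᶠ[𝓝 y] fun y => deriv g (1 / 2 * Real.log y) / (2 * y) := by
      filter_upwards [lt_mem_nhds h] with z hz
      exact deriv_lr hg hc (le_of_lt hz)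
    rw [h1.deriv_eq]
    have hg' : ContDiff ℝ ∞ (deriv g) := by
      have := (contDiff_infty_iff_deriv.1 hg).2
      exact this
    have h2 := hasDerivAt_comp_log hg' h
    have h3 : HasDerivAt (fun y : ℝ => 2 * y) 2 y := by
      simpa using (hasDerivAt_id y).const_mul (2 : ℝ)
    have h4 := (h2.div h3 (by positivity)).deriv
    have h5 : (fun y => deriv g (1 / 2 * Real.log y) / (2 * y)) =
        (fun y => deriv g (1 / 2 * Real.log y)) / fun y => 2 * y := rfl
    rw [h5, h4]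
    field_simp
    ring

end Pool.Agent.H50.CS
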