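import Pool.Agent.H50.CS.Lev
import Pool.Agent.H50.CS.LogRad

/-!
# CS-CRV: coordinates attached to a holomorphic curve `z = f(ζ)`, `w = w₀ + ρ₀ ζ` in `ℂ² × ℂ`

`x = (x 0, x 1, x 2) ∈ ℂ³`, `ζ = ze x = (x 2 - w₀)/ρ₀`, `Z_i(x) = x i - f_i(ζ)`, `X = |Z₁|² + |Z₂|²`,
`R = |ζ|²`. For a vector `v`: `η = v 2/ρ₀`, `ξ_i = v i - f_i'(ζ) η` (the derivatives of `Z_i`, `ζ` in direction
`v`), `cc = conj Z₁ ξ₁ + conj Z₂ ξ₂` (`= ∂X(v)`), `dd = conj ζ · η` (`= ∂R(v)`).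

* `hasFDerivAt` of `ze`, `Z1`, `Z2`: complex-linear derivatives `v ↦ η`, `v ↦ ξ_i`.
* `fderiv_X`: `fderiv ℝ X x v = 2 Re cc`, `fderiv ℝ R x v = 2 Re dd`; since `ξ(i v) = i ξ(v)`:
  `fderiv ℝ X x (i v) = 2 Re (i cc) = -2 Im cc`.
* `levi_X`: `levi X x v = |ξ₁|² + |ξ₂|²`, `levi R x v = |η|²` (the modulus squared of a holomorphic function `h` has
  Levi form `|h'(v)|²`: e.g. compute `del j`, `dbar k` of `h * conj h`, or the second derivative along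
  `v` and `i v`; it may be convenient to prove one lemma
  `levi_normSq_holo : DifferentiableOn/ContDiff ℂ h → levi (fun y => ‖h y‖²) x v = ‖fderiv ℂ h x v‖²`).
* `levi_mul`: product rule
  `levi (PQ) x v = P levi Q + Q levi P + ½ (P'(v)Q'(v) + P'(iv)Q'(iv))`.
* `levi_lr_mul`: for `P = lr g c ∘ X`, `Q = lr h d ∘ R`: by `levi_comp` (FZ/Calc), `deriv_lr`, `deriv2_lr`, with
  `t = ½log X`, `r = ½log R` and `¼(X'(v)² + X'(iv)²) = |cc|²`, `½(X'(v)R'(v)+X'(iv)R'(iv)) = 2 Re(cc conj dd)`: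
  `levi (lr g c ∘ X) = g'(t)/(2X) (|ξ|² - |cc|²/X) + g''(t)/(4X) |cc|²/X`,
  `levi (lr h d ∘ R) = h''(r)/(4R) |η|²` (as `|dd|² = R|η|²`),
  and the cross term is `2 (g'(t)/(2X)) (h'(r)/(2R)) Re(cc conj dd)`.
  All formulas are also correct when `X = 0` or `R = 0` (then the corresponding derivatives vanish and
  Lean's `/0` gives `0`).
* `det_basis`: for `X x > 0` the vectors `v₁ = (conj-free) (Z₁,Z₂,0)/√X`, `v₂ = (-conj Z₂, conj Z₁, 0)/√X`,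
  `v₃ = (f₁', f₂', ρ₀)` have determinant of modulus `ρ₀`; in general the coordinates of
  `v = c₁v₁+c₂v₂+c₃v₃` are: `η = c₃`, `ξ = c₁ (Z₁,Z₂)/√X + c₂(-conj Z₂, conj Z₁)/√X`, so
  `cc = √X c₁`, `|ξ|² = |c₁|² + |c₂|²`.
(This file: levi_mul, Crv, ze, Z1, Z2, X, R, eta, xi1, xi2, cc, dd, xsq, fsq, tube, X_smooth, R_smooth, X_nonneg, R_nonneg, fderiv_X, fderiv_X_I, fderiv_R, fderiv_R_I, levi_X, levi_R, cc_le, dd_sq, norm_sq, xsq_le, eta_le, norm_sq_lower.)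
-/

set_option autoImplicit false

noncomputable section

namespace Pool.Agent.H50.CS

open Complex Metric MeasureTheory Set Filter Topology
open scoped ContDiff ComplexConjugate ComplexOrder
open Pool.Agent.H8.FZ

theorem levi_mul {n : ℕ} {P Q : En n → ℝ} {x : En n} (hP : ContDiffAt ℝ 2 P x)
    (hQ : ContDiffAt ℝ 2 Q x) (v : En n) :
    levi (fun y => P y * Q y) x v = P x * levi Q x v + Q x * levi P x v +
      1 / 2 * (fderiv ℝ P x v * fderiv ℝ Q x v +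
        fderiv ℝ P x (I • v) * fderiv ℝ Q x (I • v)) := by
  have hev : (fderiv ℝ (fun y => P y * Q y)) =ᶠ[𝓝 x]
      fun y => P y • fderiv ℝ Q y + Q y • fderiv ℝ P y := by
    have h1 : ∀ᶠ y in 𝓝 x, ContDiffAt ℝ 2 P y := hP.eventually (by simp)
    have h2 : ∀ᶠ y in 𝓝 x, ContDiffAt ℝ 2 Q y := hQ.eventually (by simp)
    filter_upwards [h1, h2] with y hy hy'
    exact ((hy.differentiableAt (by norm_num)).hasFDerivAt.mul
      (hy'.differentiableAt (by norm_num)).hasFDerivAt).fderiv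
  have hPd : HasFDerivAt P (fderiv ℝ P x) x := (hP.differentiableAt (by norm_num)).hasFDerivAt
  have hQd : HasFDerivAt Q (fderiv ℝ Q x) x := (hQ.differentiableAt (by norm_num)).hasFDerivAt
  have hP2 : HasFDerivAt (fderiv ℝ P) (fderiv ℝ (fderiv ℝ P) x) x := (c2_diff hP).hasFDerivAt
  have hQ2 : HasFDerivAt (fderiv ℝ Q) (fderiv ℝ (fderiv ℝ Q) x) x := (c2_diff hQ).hasFDerivAt
  have h := ((hPd.smul hQ2).add (hQd.smul hP2)).fderiv
  have h' : fderiv ℝ (fun y => P y • fderiv ℝ Q y + Q y • fderiv ℝ P y) x = _ := h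
  rw [levi, levi, levi, hev.fderiv_eq, h']
  simp only [ContinuousLinearMap.add_apply, ContinuousLinearMap.smul_apply,
    ContinuousLinearMap.smulRight_apply, smul_eq_mul]
  ring

/-- Levi form of `|h|²` for `h` with complex linear derivative `L` -/
theorem levi_normsq {n : ℕ} {h : En n → ℂ} {L : En n → En n →L[ℝ] ℂ}
    {M : En n → En n → En n →L[ℝ] ℂ} (hs : ContDiff ℝ ∞ h) (h1 : ∀ x, HasFDerivAt h (L x) x)
    (h2 : ∀ v x, HasFDerivAt (fun y => L y v) (M v x) x)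
    (h3 : ∀ x v, L x (I • v) = I * L x v) (h4 : ∀ x v, M (I • v) x (I • v) = -M v x v)
    (x v : En n) : levi (fun y => ‖h y‖ ^ 2) x v = ‖L x v‖ ^ 2 := by
  have hP : ContDiff ℝ ∞ (fun y => ‖h y‖ ^ 2) := hs.norm_sq ℝ
  have hP2 : ContDiffAt ℝ 2 (fun y => ‖h y‖ ^ 2) x := (by exact_mod_cast (contDiff_infty.1 hP 2).contDiffAt)
  have hD : ∀ y w, fderiv ℝ (fun y => ‖h y‖ ^ 2) y w = 2 * (conj (h y) * L y w).re := by
    intro y w
    rw [(h1 y).norm_sq.fderiv]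
    simp only [ContinuousLinearMap.smul_apply, ContinuousLinearMap.comp_apply, innerSL_apply_apply,
      Complex.inner, nsmul_eq_mul]
    push_cast
    rw [mul_comm (conj (h y))]
  have hDD : ∀ w u, fderiv ℝ (fderiv ℝ (fun y => ‖h y‖ ^ 2)) x u w =
      2 * (conj (L x u) * L x w + conj (h x) * M w x u).re := by
    intro w u
    have e1 : fderiv ℝ (fderiv ℝ (fun y => ‖h y‖ ^ 2)) x u w =
        fderiv ℝ (fun y => fderiv ℝ (fun y => ‖h y‖ ^ 2) y w) x u := by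
      rw [(c2_hasFDerivAt hP2 w).fderiv]
      rfl
    rw [e1]
    have e2 : (fun y => fderiv ℝ (fun y => ‖h y‖ ^ 2) y w) =
        fun y => 2 * (conj (h y) * L y w).re := by
      funext y
      exact hD y w
    rw [e2]
    have c1 : HasFDerivAt (fun y => conj (h y)) ((Complex.conjCLE : ℂ →L[ℝ] ℂ).comp (L x)) x :=
      (Complex.conjCLE : ℂ →L[ℝ] ℂ).hasFDerivAt.comp x (h1 x)
    have c2 := c1.mul (h2 w x)
    have c3 := (Complex.reCLM.hasFDerivAt.comp x c2).const_mul 2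
    have c4 : fderiv ℝ (fun y => 2 * (conj (h y) * L y w).re) x = _ := c3.fderiv
    rw [c4]
    simp only [ContinuousLinearMap.smul_apply, ContinuousLinearMap.comp_apply,
      ContinuousLinearMap.add_apply, smul_eq_mul, Complex.reCLM_apply,
      ContinuousLinearEquiv.coe_coe, Complex.conjCLE_apply]
    congr 2
    ring
  rw [levi, hDD, hDD, h3, h4]
  have e1 : conj (L x v) * L x v = ((‖L x v‖ ^ 2 : ℝ) : ℂ) := by
    rw [mul_comm, Complex.mul_conj, Complex.normSq_eq_norm_sq]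
  have e2 : conj (I * L x v) * (I * L x v) = ((‖L x v‖ ^ 2 : ℝ) : ℂ) := by
    rw [← e1, map_mul, Complex.conj_I]
    linear_combination (-(conj (L x v) * L x v)) * Complex.I_mul_I
  rw [e1, e2]
  simp only [Complex.add_re, Complex.ofReal_re, mul_neg, Complex.neg_re]
  ring

/-- A holomorphic curve `ζ ↦ (f₁ ζ, f₂ ζ, w + ρ ζ)` in `ℂ³`. -/
structure Crv where
  f1 : ℂ → ℂ
  f2 : ℂ → ℂ
  w : ℝ
  ρ : ℝ
  hf1 : Differentiable ℂ f1
  hf2 : Differentiable ℂ f2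
  hρ : 0 < ρ

namespace Crv

variable (c : Crv)

/-- the parameter `ζ` -/
def ze (x : En 3) : ℂ := (x 2 - c.w) / c.ρ

/-- first normal coordinate -/
def Z1 (x : En 3) : ℂ := x 0 - c.f1 (c.ze x)

/-- second normal coordinate -/
def Z2 (x : En 3) : ℂ := x 1 - c.f2 (c.ze x)

/-- squared distance in the `z`-plane -/
def X (x : En 3) : ℝ := ‖c.Z1 x‖ ^ 2 + ‖c.Z2 x‖ ^ 2

/-- `|ζ|²` -/
def R (x : En 3) : ℝ := ‖c.ze x‖ ^ 2

/-- derivative of `ζ` in direction `v` -/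
def eta (v : En 3) : ℂ := v 2 / c.ρ

/-- derivative of `Z1` in direction `v` -/
def xi1 (x v : En 3) : ℂ := v 0 - deriv c.f1 (c.ze x) * c.eta v

/-- derivative of `Z2` in direction `v` -/
def xi2 (x v : En 3) : ℂ := v 1 - deriv c.f2 (c.ze x) * c.eta v

/-- `∂X(v)` -/
def cc (x v : En 3) : ℂ := conj (c.Z1 x) * c.xi1 x v + conj (c.Z2 x) * c.xi2 x v

/-- `∂R(v)` -/
def dd (x v : En 3) : ℂ := conj (c.ze x) * c.eta v

/-- `|ξ|²` -/
def xsq (x v : En 3) : ℝ := ‖c.xi1 x v‖ ^ 2 + ‖c.xi2 x v‖ ^ 2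

/-- `|f'(ζ)|²` -/
def fsq (x : En 3) : ℝ := ‖deriv c.f1 (c.ze x)‖ ^ 2 + ‖deriv c.f2 (c.ze x)‖ ^ 2

/-- the open tube around the curve -/
def tube (τ : ℝ) : Set (En 3) := {x | c.X x < τ ^ 2 ∧ c.R x < 1}

/-- complex derivative of `ze` -/
def zeL : En 3 →L[ℂ] ℂ := (c.ρ : ℂ)⁻¹ • (EuclideanSpace.proj 2 : En 3 →L[ℂ] ℂ)

theorem zeL_apply (v : En 3) : c.zeL v = c.eta v := by
  simp [zeL, eta, div_eq_inv_mul]

theorem ze_has (x : En 3) : HasFDerivAt c.ze c.zeL x := by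
  have h1 : HasFDerivAt (fun y : En 3 => y 2) (EuclideanSpace.proj 2 : En 3 →L[ℂ] ℂ) x :=
    (EuclideanSpace.proj 2 : En 3 →L[ℂ] ℂ).hasFDerivAt
  have h2 := (h1.sub_const (c.w : ℂ)).const_mul ((c.ρ : ℂ)⁻¹)
  have h3 : c.ze = fun y => (c.ρ : ℂ)⁻¹ * (y 2 - c.w) := by
    funext y
    simp [ze, div_eq_inv_mul]
  rw [h3]
  exact h2

/-- complex derivative of `x i - f (ze x)` -/
def nL (i : Fin 3) (f : ℂ → ℂ) (x : En 3) : En 3 →L[ℂ] ℂ :=
  (EuclideanSpace.proj i : En 3 →L[ℂ] ℂ) - deriv f (c.ze x) • c.zeL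

theorem nL_apply (i : Fin 3) (f : ℂ → ℂ) (x v : En 3) :
    c.nL i f x v = v i - deriv f (c.ze x) * c.eta v := by
  simp [nL, zeL_apply]

theorem comp_has {f : ℂ → ℂ} (hf : Differentiable ℂ f) (x : En 3) :
    HasFDerivAt (fun y => f (c.ze y)) (deriv f (c.ze x) • c.zeL) x :=
  (hf (c.ze x)).hasDerivAt.comp_hasFDerivAt x (c.ze_has x)

theorem nZ_has (i : Fin 3) {f : ℂ → ℂ} (hf : Differentiable ℂ f) (x : En 3) :
    HasFDerivAt (fun y : En 3 => y i - f (c.ze y)) (c.nL i f x) x :=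
  ((EuclideanSpace.proj i : En 3 →L[ℂ] ℂ).hasFDerivAt).sub (c.comp_has hf x)

theorem nZ_smooth (i : Fin 3) {f : ℂ → ℂ} (hf : Differentiable ℂ f) :
    ContDiff ℝ ∞ (fun y : En 3 => y i - f (c.ze y)) := by
  have h1 : ContDiff ℂ ∞ c.ze := by
    have h3 : c.ze = fun y => (c.ρ : ℂ)⁻¹ * ((EuclideanSpace.proj 2 : En 3 →L[ℂ] ℂ) y - c.w) := by
      funext y
      simp [ze, div_eq_inv_mul]
    rw [h3]
    exact contDiff_const.mul ((ContinuousLinearMap.contDiff _).sub contDiff_const)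
  have h2 : ContDiff ℂ ∞ (fun y : En 3 => y i - f (c.ze y)) :=
    ((EuclideanSpace.proj i : En 3 →L[ℂ] ℂ).contDiff).sub ((hf.contDiff).comp h1)
  exact h2.restrict_scalars ℝ

theorem ze_smooth : ContDiff ℝ ∞ c.ze := by
  have h1 : ContDiff ℂ ∞ c.ze := by
    have h3 : c.ze = fun y => (c.ρ : ℂ)⁻¹ * ((EuclideanSpace.proj 2 : En 3 →L[ℂ] ℂ) y - c.w) := by
      funext y
      simp [ze, div_eq_inv_mul]
    rw [h3]
    exact contDiff_const.mul ((ContinuousLinearMap.contDiff _).sub contDiff_const)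
  exact h1.restrict_scalars ℝ

theorem eta_I (v : En 3) : c.eta (I • v) = I * c.eta v := by
  simp [eta, mul_div_assoc]

theorem xi1_I (x v : En 3) : c.xi1 x (I • v) = I * c.xi1 x v := by
  simp [xi1, eta_I]
  ring

theorem xi2_I (x v : En 3) : c.xi2 x (I • v) = I * c.xi2 x v := by
  simp [xi2, eta_I]
  ring

theorem cc_I (x v : En 3) : c.cc x (I • v) = I * c.cc x v := by
  simp only [cc, xi1_I, xi2_I]
  ring

theorem dd_I (x v : En 3) : c.dd x (I • v) = I * c.dd x v := by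
  simp only [dd, eta_I]
  ring

/-- second derivative data of `x i - f (ze x)` -/
def nM (f : ℂ → ℂ) (v x : En 3) : En 3 →L[ℝ] ℂ :=
  ((-(deriv (deriv f) (c.ze x) * c.eta v)) • c.zeL).restrictScalars ℝ

theorem levi_nZ (i : Fin 3) {f : ℂ → ℂ} (hf : Differentiable ℂ f) (x v : En 3) :
    levi (fun y : En 3 => ‖y i - f (c.ze y)‖ ^ 2) x v = ‖c.nL i f x v‖ ^ 2 := by
  have hd : Differentiable ℂ (deriv f) := by
    have := hf.differentiableOn.deriv isOpen_univ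
    exact differentiableOn_univ.1 this
  refine levi_normsq (L := fun x => (c.nL i f x).restrictScalars ℝ) (M := fun v x => c.nM f v x)
    (c.nZ_smooth i hf) (fun x => (c.nZ_has i hf x).restrictScalars ℝ) ?_ ?_ ?_ x v
  · intro v x
    have e : (fun y => ((c.nL i f y).restrictScalars ℝ) v) =
        fun y => v i - deriv f (c.ze y) * c.eta v := by
      funext y
      exact c.nL_apply i f y v
    rw [e]
    have h1 := ((c.comp_has hd x).mul_const (c.eta v)).const_sub (v i)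
    have h2 := h1.restrictScalars ℝ
    refine h2.congr_fderiv ?_
    ext u
    simp [nM]
    ring
  · intro x v
    simp only [ContinuousLinearMap.coe_restrictScalars', nL_apply, eta_I]
    simp
    ring
  · intro x v
    simp only [nM, ContinuousLinearMap.coe_restrictScalars', ContinuousLinearMap.smul_apply,
      smul_eq_mul, zeL_apply, eta_I]
    linear_combination (-(deriv (deriv f) (c.ze x) * c.eta v * c.eta v)) * Complex.I_mul_I

theorem X_smooth : ContDiff ℝ ∞ c.X :=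
  ((c.nZ_smooth 0 c.hf1).norm_sq ℝ).add ((c.nZ_smooth 1 c.hf2).norm_sq ℝ)

theorem R_smooth : ContDiff ℝ ∞ c.R := c.ze_smooth.norm_sq ℝ

theorem X_nonneg (x : En 3) : 0 ≤ c.X x := by unfold X; positivity

theorem R_nonneg (x : En 3) : 0 ≤ c.R x := by unfold R; positivity

theorem fd_normsq {h : En 3 → ℂ} {L : En 3 →L[ℂ] ℂ} {x : En 3} (hh : HasFDerivAt h L x) :
    HasFDerivAt (fun y => ‖h y‖ ^ 2)
      (2 • (innerSL ℝ (h x)).comp (L.restrictScalars ℝ)) x :=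
  (hh.restrictScalars ℝ).norm_sq

theorem fd_normsq_apply {h : En 3 → ℂ} {L : En 3 →L[ℂ] ℂ} {x : En 3} (v : En 3) :
    (2 • (innerSL ℝ (h x)).comp (L.restrictScalars ℝ)) v = 2 * (conj (h x) * L v).re := by
  simp only [ContinuousLinearMap.smul_apply, ContinuousLinearMap.comp_apply, innerSL_apply_apply,
    Complex.inner, nsmul_eq_mul, ContinuousLinearMap.coe_restrictScalars']
  push_cast
  rw [mul_comm (conj (h x))]

theorem fderiv_X (x v : En 3) : fderiv ℝ c.X x v = 2 * (c.cc x v).re := by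
  have h1 := fd_normsq (c.nZ_has 0 c.hf1 x)
  have h2 := fd_normsq (c.nZ_has 1 c.hf2 x)
  have h3 : fderiv ℝ c.X x = _ := (h1.add h2).fderiv
  rw [h3, ContinuousLinearMap.add_apply,
    fd_normsq_apply (h := fun y : En 3 => y 0 - c.f1 (c.ze y)),
    fd_normsq_apply (h := fun y : En 3 => y 1 - c.f2 (c.ze y)), nL_apply, nL_apply]
  simp only [cc, Z1, Z2, xi1, xi2, Complex.add_re]
  ring

theorem fderiv_X_I (x v : En 3) : fderiv ℝ c.X x (I • v) = -2 * (c.cc x v).im := by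
  rw [fderiv_X, cc_I]
  simp

theorem fderiv_R (x v : En 3) : fderiv ℝ c.R x v = 2 * (c.dd x v).re := by
  have h3 : fderiv ℝ c.R x = _ := (fd_normsq (c.ze_has x)).fderiv
  rw [h3, fd_normsq_apply (h := c.ze), zeL_apply]
  rfl

theorem fderiv_R_I (x v : En 3) : fderiv ℝ c.R x (I • v) = -2 * (c.dd x v).im := by
  rw [fderiv_R, dd_I]
  simp

theorem levi_X (x v : En 3) : levi c.X x v = c.xsq x v := by
  have s1 : ContDiffAt ℝ 2 (fun y : En 3 => ‖y 0 - c.f1 (c.ze y)‖ ^ 2) x :=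
    by exact_mod_cast (contDiff_infty.1 ((c.nZ_smooth 0 c.hf1).norm_sq ℝ) 2).contDiffAt
  have s2 : ContDiffAt ℝ 2 (fun y : En 3 => ‖y 1 - c.f2 (c.ze y)‖ ^ 2) x :=
    by exact_mod_cast (contDiff_infty.1 ((c.nZ_smooth 1 c.hf2).norm_sq ℝ) 2).contDiffAt
  have h := levi_add s1 s2 v
  have h' : levi c.X x v = _ := h
  rw [h', c.levi_nZ 0 c.hf1, c.levi_nZ 1 c.hf2, nL_apply, nL_apply]
  rfl

theorem levi_R (x v : En 3) : levi c.R x v = ‖c.eta v‖ ^ 2 := by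
  have h : levi (fun y => ‖c.ze y‖ ^ 2) x v = ‖(c.zeL.restrictScalars ℝ) v‖ ^ 2 := by
    refine levi_normsq (L := fun _ => c.zeL.restrictScalars ℝ) (M := fun _ _ => 0)
      c.ze_smooth (fun x => (c.ze_has x).restrictScalars ℝ) ?_ ?_ ?_ x v
    · intro v x
      exact hasFDerivAt_const _ _
    · intro x v
      simp only [ContinuousLinearMap.coe_restrictScalars', zeL_apply, eta_I]
    · intro x v
      simp
  have h' : levi c.R x v = _ := h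
  rw [h']
  simp only [ContinuousLinearMap.coe_restrictScalars', zeL_apply]

theorem cc_le (x v : En 3) : ‖c.cc x v‖ ^ 2 ≤ c.X x * c.xsq x v := by
  have h1 : ‖c.cc x v‖ ≤ ‖c.Z1 x‖ * ‖c.xi1 x v‖ + ‖c.Z2 x‖ * ‖c.xi2 x v‖ := by
    unfold cc
    refine (norm_add_le _ _).trans ?_
    rw [norm_mul, norm_mul, RCLike.norm_conj, RCLike.norm_conj]
  have h2 : ‖c.cc x v‖ ^ 2 ≤ (‖c.Z1 x‖ * ‖c.xi1 x v‖ + ‖c.Z2 x‖ * ‖c.xi2 x v‖) ^ 2 :=
    pow_le_pow_left₀ (norm_nonneg _) h1 2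
  refine h2.trans ?_
  unfold X xsq
  nlinarith [sq_nonneg (‖c.Z1 x‖ * ‖c.xi2 x v‖ - ‖c.Z2 x‖ * ‖c.xi1 x v‖)]

theorem dd_sq (x v : En 3) : ‖c.dd x v‖ ^ 2 = c.R x * ‖c.eta v‖ ^ 2 := by
  unfold dd R
  rw [norm_mul, RCLike.norm_conj]
  ring

/-- the norm in the coordinates `(ξ, η)`: `|v|² = |ξ + f'η|² + ρ²|η|²` -/
theorem norm_sq (x v : En 3) : ‖v‖ ^ 2 = ‖c.xi1 x v + deriv c.f1 (c.ze x) * c.eta v‖ ^ 2 +
    ‖c.xi2 x v + deriv c.f2 (c.ze x) * c.eta v‖ ^ 2 + c.ρ ^ 2 * ‖c.eta v‖ ^ 2 := by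
  rw [EuclideanSpace.norm_sq_eq, Fin.sum_univ_three]
  have h1 : c.xi1 x v + deriv c.f1 (c.ze x) * c.eta v = v 0 := by simp [xi1]
  have h2 : c.xi2 x v + deriv c.f2 (c.ze x) * c.eta v = v 1 := by simp [xi2]
  have h3 : c.ρ ^ 2 * ‖c.eta v‖ ^ 2 = ‖v 2‖ ^ 2 := by
    unfold eta
    rw [norm_div, Complex.norm_real, Real.norm_of_nonneg c.hρ.le, div_pow]
    have := c.hρ
    field_simp
  rw [h1, h2, h3]

theorem sq_add_le (a b : ℂ) : ‖a‖ ^ 2 ≤ 2 * ‖a + b‖ ^ 2 + 2 * ‖b‖ ^ 2 := by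
  have h : ‖a‖ ≤ ‖a + b‖ + ‖b‖ := by
    have := norm_sub_le (a + b) b
    rwa [add_sub_cancel_right] at this
  have h2 : ‖a‖ ^ 2 ≤ (‖a + b‖ + ‖b‖) ^ 2 := pow_le_pow_left₀ (norm_nonneg _) h 2
  nlinarith [sq_nonneg (‖a + b‖ - ‖b‖)]

/-- `|ξ|² ≤ 2|v|² + 2|f'|²|η|²`, `|η|² ≤ |v|²/ρ²` -/
theorem xsq_le (x v : En 3) : c.xsq x v ≤ 2 * ‖v‖ ^ 2 + 2 * c.fsq x * ‖c.eta v‖ ^ 2 := by
  have h := c.norm_sq x v
  have h1 := sq_add_le (c.xi1 x v) (deriv c.f1 (c.ze x) * c.eta v)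
  have h2 := sq_add_le (c.xi2 x v) (deriv c.f2 (c.ze x) * c.eta v)
  rw [norm_mul (deriv c.f1 (c.ze x)), mul_pow] at h1
  rw [norm_mul (deriv c.f2 (c.ze x)), mul_pow] at h2
  have h3 : 0 ≤ c.ρ ^ 2 * ‖c.eta v‖ ^ 2 := by positivity
  unfold xsq fsq
  nlinarith

theorem eta_le (v : En 3) : ‖c.eta v‖ ^ 2 ≤ ‖v‖ ^ 2 / c.ρ ^ 2 := by
  have h := c.norm_sq 0 v
  have hρ := c.hρ
  rw [le_div_iff₀ (by positivity)]
  have h1 := sq_nonneg ‖c.xi1 0 v + deriv c.f1 (c.ze 0) * c.eta v‖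
  have h2 := sq_nonneg ‖c.xi2 0 v + deriv c.f2 (c.ze 0) * c.eta v‖
  linarith

/-- `|b|² 3/10 ≤ 3/4 |a+b|² + 1/2 |a|²` -/
theorem low_aux (a b : ℂ) : 3 / 10 * ‖b‖ ^ 2 ≤ 3 / 4 * ‖a + b‖ ^ 2 + 1 / 2 * ‖a‖ ^ 2 := by
  have h : ‖b‖ ≤ ‖a + b‖ + ‖a‖ := by
    have := norm_sub_le (a + b) a
    rwa [add_sub_cancel_left] at this
  have h2 : ‖b‖ ^ 2 ≤ (‖a + b‖ + ‖a‖) ^ 2 := pow_le_pow_left₀ (norm_nonneg _) h 2
  nlinarith [sq_nonneg (3 * ‖a + b‖ - 2 * ‖a‖)]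

/-- `¾|v|² + ½|ξ|² ≥ (3/10)|f'|²|η|² + ¾ρ²|η|²` -/
theorem norm_sq_lower (x v : En 3) :
    3 / 10 * c.fsq x * ‖c.eta v‖ ^ 2 + 3 / 4 * c.ρ ^ 2 * ‖c.eta v‖ ^ 2 ≤
      3 / 4 * ‖v‖ ^ 2 + 1 / 2 * c.xsq x v := by
  have h := c.norm_sq x v
  have h1 := low_aux (c.xi1 x v) (deriv c.f1 (c.ze x) * c.eta v)
  have h2 := low_aux (c.xi2 x v) (deriv c.f2 (c.ze x) * c.eta v)
  rw [norm_mul (deriv c.f1 (c.ze x)), mul_pow] at h1
  rw [norm_mul (deriv c.f2 (c.ze x)), mul_pow] at h2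
  unfold xsq fsq
  nlinarith

end Crv

end Pool.Agent.H50.CS
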