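import Pool.Agent.H50.CS.CrvA

/-!
# CS-CRV: coordinates attached to a holomorphic curve `z = f(ζ)`, `w = w₀ + ρ₀ ζ` in `ℂ² × ℂ`

`x = (x 0, x 1, x 2) ∈ ℂ³`, `ζ = ze x = (x 2 - w₀)/ρ₀`, `Z_i(x) = x i - f_i(ζ)`, `X = |Z₁|² + |Z₂|²`,
`R = |ζ|²`. For a vector `v`: `η = v 2/ρ₀`, `ξ_i = v i - f_i'(ζ) η` (the derivatives of `Z_i`, `ζ` in direction
`v`), `cc = conj Z₁ ξ₁ + conj Z₂ ξ₂` (`= ∂X(v)`), `dd = conj ζ · η` (`= ∂R(v)`).

* `hasFDerivAt` of `ze`, `Z1`, `Z2`: complex-linear derivatives `v ↦ η`, `v ↦ ξ_i`.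
* `fderiv_X`: `fderiv ℝ X x v = 2 Re cc`, `fderiv ℝ R x v = 2 Re dd`; since `ξ(i v) = i ξ(v)`:
  `fderiv ℝ X x (i v) = 2 Re (i cc) = -2 Im cc`.
* `levi_X`: `levi X x v = |ξ₁|² + |ξ₂|²`, `levi R x v = |η|²` (the modulus squared of a holomorphic function `h` has
  Levi form `|h'(v)|²`: e.g. compute `del j`, `dbar k` of `h * conj h`, or the second derivative along
  `v` and `i v`; it may be convenient to prove one lemma
  `levi_normSq_holo : DifferentiableOn/ContDiff ℂ h → levi (fun y => ‖h y‖²) x v = ‖fderiv ℂ h x v‖²`).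
* `levi_mul`: product rule
  `levi (PQ) x v = P levi Q + Q levi P + ½ (P'(v)Q'(v) + P'(iv)Q'(iv))`.
* `levi_lr_mul`: for `P = lr g c ∘ X`, `Q = lr h d ∘ R`: by `levi_comp` (FZ/Calc), `deriv_lr`, `deriv2_lr`, with
  `t = ½log X`, `r = ½log R` and `¼(X'(v)² + X'(iv)²) = |cc|²`, `½(X'(v)R'(v)+X'(iv)R'(iv)) = 2 Re(cc conj dd)`:
  `levi (lr g c ∘ X) = g'(t)/(2X) (|ξ|² - |cc|²/X) + g''(t)/(4X) |cc|²/X`,
  `levi (lr h d ∘ R) = h''(r)/(4R) |η|²` (as `|dd|² = R|η|²`),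
  and the cross term is `2 (g'(t)/(2X)) (h'(r)/(2R)) Re(cc conj dd)`.
  All formulas are also correct when `X = 0` or `R = 0` (then the corresponding derivatives vanish and
  Lean's `/0` gives `0`).
* `det_basis`: for `X x > 0` the vectors `v₁ = (conj-free) (Z₁,Z₂,0)/√X`, `v₂ = (-conj Z₂, conj Z₁, 0)/√X`,
  `v₃ = (f₁', f₂', ρ₀)` have determinant of modulus `ρ₀`; in general the coordinates of
  `v = c₁v₁+c₂v₂+c₃v₃` are: `η = c₃`, `ξ = c₁ (Z₁,Z₂)/√X + c₂(-conj Z₂, conj Z₁)/√X`, so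
  `cc = √X c₁`, `|ξ|² = |c₁|² + |c₂|²`.
(This file: levi_lrX, levi_lrR, levi_lr_mul.)
-/

set_option autoImplicit false

noncomputable section

namespace Pool.Agent.H50.CS

open Complex Metric MeasureTheory Set Filter Topology
open scoped ContDiff ComplexConjugate ComplexOrder
open Pool.Agent.H8.FZ

namespace Crv

variable (c : Crv)

theorem X_c2 (x : En 3) : ContDiffAt ℝ 2 c.X x := by
  exact_mod_cast (contDiff_infty.1 c.X_smooth 2).contDiffAt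

theorem R_c2 (x : En 3) : ContDiffAt ℝ 2 c.R x := by
  exact_mod_cast (contDiff_infty.1 c.R_smooth 2).contDiffAt

theorem lr_c2 {g : ℝ → ℝ} (hg : ContDiff ℝ ∞ g) {e t₀ : ℝ} (hc : ∀ t ≤ t₀, g t = e) (y : ℝ) :
    ContDiffAt ℝ 2 (lr g e) y := by
  exact_mod_cast (contDiff_infty.1 (lr_smooth hg hc) 2).contDiffAt

theorem norm_sq_re_im (z : ℂ) : ‖z‖ ^ 2 = z.re ^ 2 + z.im ^ 2 := by
  rw [← Complex.normSq_eq_norm_sq, Complex.normSq_apply]
  ring

/-- Levi form of a function of `X` -/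
theorem levi_lrX {g : ℝ → ℝ} (hg : ContDiff ℝ ∞ g) {e t₀ : ℝ} (hc : ∀ t ≤ t₀, g t = e)
    (x v : En 3) : levi (fun y => lr g e (c.X y)) x v =
      deriv g (1 / 2 * Real.log (c.X x)) / (2 * c.X x) * (c.xsq x v - ‖c.cc x v‖ ^ 2 / c.X x) +
      deriv (deriv g) (1 / 2 * Real.log (c.X x)) / (4 * c.X x) * (‖c.cc x v‖ ^ 2 / c.X x) := by
  rw [levi_comp (c.X_c2 x) (lr_c2 hg hc _), deriv_lr hg hc (c.X_nonneg x),
    deriv2_lr hg hc (c.X_nonneg x), c.levi_X, c.fderiv_X, c.fderiv_X_I, norm_sq_re_im]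
  by_cases hX : c.X x = 0
  · simp [hX]
  · field_simp
    ring

/-- Levi form of a function of `R` -/
theorem levi_lrR {h : ℝ → ℝ} (hh : ContDiff ℝ ∞ h) {d r₀ : ℝ} (hd : ∀ t ≤ r₀, h t = d)
    (x v : En 3) : levi (fun y => lr h d (c.R y)) x v =
      deriv (deriv h) (1 / 2 * Real.log (c.R x)) / (4 * c.R x) * ‖c.eta v‖ ^ 2 := by
  rw [levi_comp (c.R_c2 x) (lr_c2 hh hd _), deriv_lr hh hd (c.R_nonneg x),
    deriv2_lr hh hd (c.R_nonneg x), c.levi_R, c.fderiv_R, c.fderiv_R_I]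
  have h1 : (2 * (c.dd x v).re) ^ 2 + (-2 * (c.dd x v).im) ^ 2 =
      4 * (c.R x * ‖c.eta v‖ ^ 2) := by
    rw [← c.dd_sq, norm_sq_re_im]
    ring
  rw [h1]
  by_cases hR : c.R x = 0
  · simp [hR]
  · field_simp
    ring

/-- Levi form of a product of a function of `R` and a function of `X` -/
theorem levi_lr_mul {g h : ℝ → ℝ} (hg : ContDiff ℝ ∞ g) (hh : ContDiff ℝ ∞ h) {e d t₀ r₀ : ℝ}
    (hc : ∀ t ≤ t₀, g t = e) (hd : ∀ t ≤ r₀, h t = d) (x v : En 3) :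
    levi (fun y => lr h d (c.R y) * lr g e (c.X y)) x v =
      lr h d (c.R x) * (deriv g (1 / 2 * Real.log (c.X x)) / (2 * c.X x) *
          (c.xsq x v - ‖c.cc x v‖ ^ 2 / c.X x) +
        deriv (deriv g) (1 / 2 * Real.log (c.X x)) / (4 * c.X x) * (‖c.cc x v‖ ^ 2 / c.X x)) +
      lr g e (c.X x) * (deriv (deriv h) (1 / 2 * Real.log (c.R x)) / (4 * c.R x) *
        ‖c.eta v‖ ^ 2) +
      2 * (deriv g (1 / 2 * Real.log (c.X x)) / (2 * c.X x)) *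
        (deriv h (1 / 2 * Real.log (c.R x)) / (2 * c.R x)) *
        (c.cc x v * conj (c.dd x v)).re := by
  have hP : ContDiffAt ℝ 2 (fun y => lr h d (c.R y)) x := (lr_c2 hh hd _).comp x (c.R_c2 x)
  have hQ : ContDiffAt ℝ 2 (fun y => lr g e (c.X y)) x := (lr_c2 hg hc _).comp x (c.X_c2 x)
  have dR : ∀ u, fderiv ℝ (fun y => lr h d (c.R y)) x u =
      deriv h (1 / 2 * Real.log (c.R x)) / (2 * c.R x) * fderiv ℝ c.R x u := by
    intro u
    have h1 : HasDerivAt (lr h d) (deriv (lr h d) (c.R x)) (c.R x) :=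
      ((lr_c2 hh hd (c.R x)).differentiableAt (by norm_num)).hasDerivAt
    have h2 : HasFDerivAt c.R (fderiv ℝ c.R x) x :=
      ((c.R_c2 x).differentiableAt (by norm_num)).hasFDerivAt
    have h3 : fderiv ℝ (fun y => lr h d (c.R y)) x = _ := (h1.comp_hasFDerivAt x h2).fderiv
    rw [h3, deriv_lr hh hd (c.R_nonneg x)]
    simp
  have dX : ∀ u, fderiv ℝ (fun y => lr g e (c.X y)) x u =
      deriv g (1 / 2 * Real.log (c.X x)) / (2 * c.X x) * fderiv ℝ c.X x u := by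
    intro u
    have h1 : HasDerivAt (lr g e) (deriv (lr g e) (c.X x)) (c.X x) :=
      ((lr_c2 hg hc (c.X x)).differentiableAt (by norm_num)).hasDerivAt
    have h2 : HasFDerivAt c.X (fderiv ℝ c.X x) x :=
      ((c.X_c2 x).differentiableAt (by norm_num)).hasFDerivAt
    have h3 : fderiv ℝ (fun y => lr g e (c.X y)) x = _ := (h1.comp_hasFDerivAt x h2).fderiv
    rw [h3, deriv_lr hg hc (c.X_nonneg x)]
    simp
  rw [levi_mul hP hQ, c.levi_lrX hg hc, c.levi_lrR hh hd, dR, dR, dX, dX, c.fderiv_R,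
    c.fderiv_R_I, c.fderiv_X, c.fderiv_X_I, Complex.mul_re, Complex.conj_re, Complex.conj_im]
  ring

end Crv

end Pool.Agent.H50.CS
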