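import Pool.Agent.H50.CS.CrvA

/-!
# CS-CRV: coordinates attached to a holomorphic curve `z = f(ζ)`, `w = w₀ + ρ₀ ζ` in `ℂ² × ℂ`

`x = (x 0, x 1, x 2) ∈ ℂ³`, `ζ = ze x = (x 2 - w₀)/ρ₀`, `Z_i(x) = x i - f_i(ζ)`, `X = |Z₁|² + |Z₂|²`,
`R = |ζ|²`. For a vector `v`: `η = v 2/ρ₀`, `ξ_i = v i - f_i'(ζ) η` (the derivatives of `Z_i`, `ζ` in direction
`v`), `cc = conj Z₁ ξ₁ + conj Z₂ ξ₂` (`= ∂X(v)`), `dd = conj ζ · η` (`= ∂R(v)`).

* `hasFDerivAt` of `ze`, `Z1`, `Z2`: complex-linear derivatives `v ↦ η`, `v ↦ ξ_i`.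
* `fderiv_X`: `fderiv ℝ X x v = 2 Re cc`, `fderiv ℝ R x v = 2 Re dd`; since `ξ(i v) = i ξ(v)`:
  `fderiv ℝ X x (i v) = 2 Re (i cc) = -2 Im cc`.
* `levi_X`: `levi X x v = |ξ₁|² + |ξ₂|²`, `levi R x v = |η|²` (the modulus squared of a holomorphic function `h` has
  Levi form `|h'(v)|²`: e.g. compute `del j`, `dbar k` of `h * conj h`, or the second derivative along
  `v` and `i v`; it may be convenient to prove one lemma
  `levi_normSq_holo : DifferentiableOn/ContDiff ℂ h → levi (fun y => ‖h y‖²) x v = ‖fderiv ℂ h x v‖²`).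
* `levi_mul`: product rule
  `levi (PQ) x v = P levi Q + Q levi P + ½ (P'(v)Q'(v) + P'(iv)Q'(iv))`.
* `levi_lr_mul`: for `P = lr g c ∘ X`, `Q = lr h d ∘ R`: by `levi_comp` (FZ/Calc), `deriv_lr`, `deriv2_lr`, with
  `t = ½log X`, `r = ½log R` and `¼(X'(v)² + X'(iv)²) = |cc|²`, `½(X'(v)R'(v)+X'(iv)R'(iv)) = 2 Re(cc conj dd)`:
  `levi (lr g c ∘ X) = g'(t)/(2X) (|ξ|² - |cc|²/X) + g''(t)/(4X) |cc|²/X`,
  `levi (lr h d ∘ R) = h''(r)/(4R) |η|²` (as `|dd|² = R|η|²`),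
  and the cross term is `2 (g'(t)/(2X)) (h'(r)/(2R)) Re(cc conj dd)`.
  All formulas are also correct when `X = 0` or `R = 0` (then the corresponding derivatives vanish and
  Lean's `/0` gives `0`).
* `det_basis`: for `X x > 0` the vectors `v₁ = (conj-free) (Z₁,Z₂,0)/√X`, `v₂ = (-conj Z₂, conj Z₁, 0)/√X`,
  `v₃ = (f₁', f₂', ρ₀)` have determinant of modulus `ρ₀`; in general the coordinates of
  `v = c₁v₁+c₂v₂+c₃v₃` are: `η = c₃`, `ξ = c₁ (Z₁,Z₂)/√X + c₂(-conj Z₂, conj Z₁)/√X`, so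
  `cc = √X c₁`, `|ξ|² = |c₁|² + |c₂|²`.
(This file: bas, det_bas, bas_eta, bas_cc, bas_xsq.)
-/

set_option autoImplicit false

noncomputable section

namespace Pool.Agent.H50.CS

open Complex Metric MeasureTheory Set Filter Topology
open scoped ContDiff ComplexConjugate ComplexOrder
open Pool.Agent.H8.FZ

namespace Crv

variable (c : Crv)

/-- the adapted basis at a point with `X x > 0`: the columns `v₁, v₂, v₃` -/
def bas (x : En 3) (i : Fin 3) : En 3 :=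
  match i with
  | 0 => !₂[c.Z1 x / (Real.sqrt (c.X x) : ℂ), c.Z2 x / (Real.sqrt (c.X x) : ℂ), 0]
  | 1 => !₂[-conj (c.Z2 x) / (Real.sqrt (c.X x) : ℂ), conj (c.Z1 x) / (Real.sqrt (c.X x) : ℂ), 0]
  | 2 => !₂[deriv c.f1 (c.ze x), deriv c.f2 (c.ze x), (c.ρ : ℂ)]

theorem bas_zero (x : En 3) : c.bas x 0 =
    !₂[c.Z1 x / (Real.sqrt (c.X x) : ℂ), c.Z2 x / (Real.sqrt (c.X x) : ℂ), 0] := rfl

theorem bas_one (x : En 3) : c.bas x 1 =
    !₂[-conj (c.Z2 x) / (Real.sqrt (c.X x) : ℂ), conj (c.Z1 x) / (Real.sqrt (c.X x) : ℂ), 0] := rfl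

theorem bas_two (x : En 3) : c.bas x 2 =
    !₂[deriv c.f1 (c.ze x), deriv c.f2 (c.ze x), (c.ρ : ℂ)] := rfl

theorem bas_sqrt_ne {x : En 3} (hx : 0 < c.X x) : (Real.sqrt (c.X x) : ℂ) ≠ 0 := by
  exact_mod_cast (Real.sqrt_pos.2 hx).ne'

theorem bas_sqrt_sq {x : En 3} (hx : 0 < c.X x) :
    (Real.sqrt (c.X x) : ℂ) * (Real.sqrt (c.X x) : ℂ) =
      c.Z1 x * conj (c.Z1 x) + c.Z2 x * conj (c.Z2 x) := by
  rw [← Complex.ofReal_mul, Real.mul_self_sqrt hx.le, Complex.mul_conj, Complex.mul_conj,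
    Complex.normSq_eq_norm_sq, Complex.normSq_eq_norm_sq]
  simp only [X]
  push_cast
  ring

theorem det_bas {x : En 3} (hx : 0 < c.X x) :
    ‖(Matrix.of fun j i => c.bas x i j : M3).det‖ = c.ρ := by
  have h0 := c.bas_sqrt_ne hx
  have h1 := c.bas_sqrt_sq hx
  have h2 : (Matrix.of fun j i => c.bas x i j : M3).det = (c.ρ : ℂ) := by
    rw [Matrix.det_fin_three]
    simp only [Matrix.of_apply, bas_zero, bas_one, bas_two, PiLp.toLp_apply, Matrix.cons_val_zero,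
      Matrix.cons_val_one, Matrix.cons_val]
    field_simp
    linear_combination (-(c.ρ : ℂ)) * h1
  rw [h2, Complex.norm_real, Real.norm_of_nonneg c.hρ.le]

theorem bas_sum (x : En 3) (a : Fin 3 → ℂ) (j : Fin 3) : (∑ i, a i • c.bas x i) j =
    a 0 * c.bas x 0 j + a 1 * c.bas x 1 j + a 2 * c.bas x 2 j := by
  simp [Fin.sum_univ_three]

theorem bas_sum0 (x : En 3) (a : Fin 3 → ℂ) : (∑ i, a i • c.bas x i) 0 =
    a 0 * (c.Z1 x / (Real.sqrt (c.X x) : ℂ)) + a 1 * (-conj (c.Z2 x) / (Real.sqrt (c.X x) : ℂ)) +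
      a 2 * deriv c.f1 (c.ze x) := by
  rw [bas_sum]
  simp [bas_zero, bas_one, bas_two]

theorem bas_sum1 (x : En 3) (a : Fin 3 → ℂ) : (∑ i, a i • c.bas x i) 1 =
    a 0 * (c.Z2 x / (Real.sqrt (c.X x) : ℂ)) + a 1 * (conj (c.Z1 x) / (Real.sqrt (c.X x) : ℂ)) +
      a 2 * deriv c.f2 (c.ze x) := by
  rw [bas_sum]
  simp [bas_zero, bas_one, bas_two]

theorem bas_sum2 (x : En 3) (a : Fin 3 → ℂ) : (∑ i, a i • c.bas x i) 2 = a 2 * c.ρ := by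
  rw [bas_sum]
  simp [bas_zero, bas_one, bas_two]

theorem bas_eta (x : En 3) (a : Fin 3 → ℂ) : c.eta (∑ i, a i • c.bas x i) = a 2 := by
  have h : (c.ρ : ℂ) ≠ 0 := by exact_mod_cast c.hρ.ne'
  unfold eta
  rw [bas_sum2, mul_div_cancel_right₀ _ h]

theorem bas_xi1 (x : En 3) (a : Fin 3 → ℂ) : c.xi1 x (∑ i, a i • c.bas x i) =
    (a 0 * c.Z1 x - a 1 * conj (c.Z2 x)) / (Real.sqrt (c.X x) : ℂ) := by
  unfold xi1
  rw [bas_eta, bas_sum0]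
  ring

theorem bas_xi2 (x : En 3) (a : Fin 3 → ℂ) : c.xi2 x (∑ i, a i • c.bas x i) =
    (a 0 * c.Z2 x + a 1 * conj (c.Z1 x)) / (Real.sqrt (c.X x) : ℂ) := by
  unfold xi2
  rw [bas_eta, bas_sum1]
  ring

theorem bas_cc_eq {x : En 3} (hx : 0 < c.X x) (a : Fin 3 → ℂ) :
    c.cc x (∑ i, a i • c.bas x i) = a 0 * (Real.sqrt (c.X x) : ℂ) := by
  have h0 := c.bas_sqrt_ne hx
  have h1 := c.bas_sqrt_sq hx
  unfold cc
  rw [bas_xi1, bas_xi2]
  field_simp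
  linear_combination (-(a 0)) * h1

theorem bas_cc {x : En 3} (hx : 0 < c.X x) (a : Fin 3 → ℂ) :
    ‖c.cc x (∑ i, a i • c.bas x i)‖ ^ 2 / c.X x = ‖a 0‖ ^ 2 := by
  rw [bas_cc_eq c hx, norm_mul, Complex.norm_real, Real.norm_of_nonneg (Real.sqrt_nonneg _),
    mul_pow, Real.sq_sqrt hx.le]
  field_simp

theorem bas_xsq {x : En 3} (hx : 0 < c.X x) (a : Fin 3 → ℂ) :
    c.xsq x (∑ i, a i • c.bas x i) = ‖a 0‖ ^ 2 + ‖a 1‖ ^ 2 := by
  have h0 := c.bas_sqrt_ne hx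
  have h1 := c.bas_sqrt_sq hx
  have h2 : ((c.xsq x (∑ i, a i • c.bas x i) : ℝ) : ℂ) = ((‖a 0‖ ^ 2 + ‖a 1‖ ^ 2 : ℝ) : ℂ) := by
    unfold xsq
    rw [← Complex.normSq_eq_norm_sq, ← Complex.normSq_eq_norm_sq, ← Complex.normSq_eq_norm_sq,
      ← Complex.normSq_eq_norm_sq]
    push_cast
    rw [← Complex.mul_conj, ← Complex.mul_conj, ← Complex.mul_conj, ← Complex.mul_conj,
      bas_xi1, bas_xi2]
    simp only [map_div₀, map_sub, map_add, map_mul, Complex.conj_conj, Complex.conj_ofReal]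
    field_simp
    linear_combination (-(a 0 * conj (a 0) + a 1 * conj (a 1))) * h1
  exact_mod_cast h2

end Crv

end Pool.Agent.H50.CS
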