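import Pool.Agent.H8.FZ.Calc

/-!
# MP_529c98_an (Kołodziej's continuous subsolution problem): definitions

`En n` is `ℂⁿ` (`EuclideanSpace ℂ (Fin n)`), `levi P x w` is the Levi form, `del`, `dbar` are the
Wirtinger derivatives (all from `Pool.Agent.H8.FZ`).
-/

set_option autoImplicit false

noncomputable section

namespace Pool.Agent.H50.CS

open Complex Metric MeasureTheory Set Filter Topology
open scoped ContDiff ComplexConjugate
open Pool.Agent.H8.FZ

variable {n : ℕ}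

/-- `u` is a continuous plurisubharmonic function on the open set `Ω`: it is continuous on `Ω` and
satisfies the sub-mean value inequality on every closed complex disc contained in `Ω`. -/
def ContPsh (Ω : Set (En n)) (u : En n → ℝ) : Prop :=
  ContinuousOn u Ω ∧ ∀ a b : En n, (∀ ζ : ℂ, ‖ζ‖ ≤ 1 → a + ζ • b ∈ Ω) →
    u a ≤ (2 * Real.pi)⁻¹ * ∫ θ in (0 : ℝ)..(2 * Real.pi), u (a + Complex.exp (θ * I) • b)

/-- `v` is smooth and plurisubharmonic on the open set `V`: of class `C^∞` with nonnegative Levi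
form. -/
def SmoothPsh (V : Set (En n)) (v : En n → ℝ) : Prop :=
  ContDiffOn ℝ ∞ v V ∧ ∀ x ∈ V, ∀ w : En n, 0 ≤ levi v x w

/-- The complex Hessian `(∂²P/∂z_j∂z̄_k)_{j,k}`. -/
def Hm (P : En n → ℝ) (x : En n) : Matrix (Fin n) (Fin n) ℂ :=
  Matrix.of fun j k => dbar k (del j (fun y => (P y : ℂ))) x

/-- The determinant of the complex Hessian. -/
def ma (P : En n → ℝ) (x : En n) : ℝ := (Hm P x).det.re

/-- The constant `4ⁿ n!` of `(dd^c v)^n = 4ⁿ n! det(v_{j k̄}) dV`, `d^c = i(∂̄ - ∂)`. -/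
def maC (n : ℕ) : ℝ := 4 ^ n * n.factorial

/-- `ν` is the Monge-Ampère measure `(dd^c u)^n` (Bedford-Taylor) of the continuous psh function `u`
on the open set `Ω`, viewed as a Borel measure on `ℂⁿ` carried by `Ω`: it is finite on the compact
subsets of `Ω`, and for every open `V ⊆ Ω` and all smooth psh functions `v_k` on `V` converging to `u`
uniformly on `V`, the measures `(dd^c v_k)^n = 4ⁿ n! det(∂²v_k/∂z_j∂z̄_k) dV` converge to `ν` weakly
on `V`. -/
structure IsMA (Ω : Set (En n)) (u : En n → ℝ) (ν : Measure (En n)) : Prop where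
  off : ν Ωᶜ = 0
  fin : ∀ K, IsCompact K → K ⊆ Ω → ν K < ⊤
  lim : ∀ V, IsOpen V → V ⊆ Ω → ∀ v : ℕ → En n → ℝ, (∀ k, SmoothPsh V (v k)) →
    TendstoUniformlyOn v u atTop V →
    ∀ χ : En n → ℝ, Continuous χ → HasCompactSupport χ → tsupport χ ⊆ V →
      Tendsto (fun k => ∫ x, χ x * (maC n * ma (v k) x)) atTop (𝓝 (∫ x, χ x ∂ν))

/-- `Ω` is hyperconvex: it has a negative continuous psh exhaustion function. -/
def Hyperconvex (Ω : Set (En n)) : Prop :=
  ∃ ρ : En n → ℝ, ContPsh Ω ρ ∧ (∀ x ∈ Ω, ρ x < 0) ∧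
    ∀ c : ℝ, c < 0 → ∃ K, IsCompact K ∧ K ⊆ Ω ∧ ∀ x ∈ Ω, ρ x < c → x ∈ K

/-- `u` is a continuous psh function on `Ω` with zero boundary values and `(dd^c u)^n = ν`. -/
structure ContSol (Ω : Set (En n)) (u : En n → ℝ) (ν : Measure (En n)) : Prop where
  psh : ContPsh Ω u
  bdry : ∀ y ∈ frontier Ω, Tendsto u (𝓝[Ω] y) (𝓝 0)
  isMA : IsMA Ω u ν

end Pool.Agent.H50.CS
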