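import Pool.Agent.H50.CS.Ibp2

/-!
# CS-DIV: the cofactor matrix of a complex Hessian in `ℂ³` is divergence free

For `H = Hm g` (`H j k = ∂̄_k ∂_j g`), `adj H k j` is the cofactor of `H` at the place `(j,k)`; by
`Matrix.adjugate_fin_three` it is an explicit `2 × 2` minor, e.g. (up to the sign convention)
`adj H k j = H_{j+1,k+1} H_{j+2,k+2} - H_{j+1,k+2} H_{j+2,k+1}` (indices mod 3). Hence
`∑_j ∂_j (adj H k j)` is, for each fixed `k`, a sum of products of one second and one third derivative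
which cancel in pairs because the third derivatives are symmetric:
with `g_{a c̄}` the entries, `∑_j ∂_j adj H k j = ½∑ ε_{jab} ε_{kcd} (g_{j a c̄} g_{b d̄} + g_{a c̄} g_{j b d̄}) = 0`.
In Lean: for each `k : Fin 3` (`fin_cases k`) expand the sum (`Fin.sum_univ_three`), the product rule
(`del_mul`, `del_sub` of FZ/Calc1) and the commutation `del a (dbar c (del b g)) = del b (dbar c (del a g))`
(from `del_comm`, `del_dbar_comm` of FZ/Calc applied to `g` and to `del b g`, on the open set `V`), and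
conclude by `ring`. Same for `dbar`.
-/

set_option autoImplicit false

noncomputable section

namespace Pool.Agent.H50.CS

open Complex Metric MeasureTheory Set Filter Topology Matrix
open scoped ContDiff ComplexConjugate ComplexOrder
open Pool.Agent.H8.FZ

/-- the entries of the complex Hessian as functions -/
private def divG (g : En 3 → ℝ) (j k : Fin 3) : En 3 → ℂ :=
  dbar k (del j (fun y => (g y : ℂ)))

private theorem div_adj (g : En 3 → ℝ) (k j : Fin 3) (y : En 3) :
    (Hm g y).adjugate k j = divG g (j + 1) (k + 1) y * divG g (j + 2) (k + 2) y -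
      divG g (j + 1) (k + 2) y * divG g (j + 2) (k + 1) y := by
  have h : ∀ a b, Hm g y a b = divG g a b y := fun a b => rfl
  rw [Matrix.adjugate_fin_three]
  fin_cases k <;> fin_cases j <;> simp [h] <;> ring

private theorem div_smooth {V : Set (En 3)} (hV : IsOpen V) {g : En 3 → ℝ}
    (hg : ContDiffOn ℝ ∞ g V) (j k : Fin 3) : ContDiffOn ℝ ∞ (divG g j k) V := by
  have hg' : ContDiffOn ℝ ∞ (fun y => (g y : ℂ)) V := Complex.ofRealCLM.contDiff.comp_contDiffOn hg
  exact contDiffOn_dbar hV (contDiffOn_del hV hg' j) k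

private theorem div_diff {V : Set (En 3)} (hV : IsOpen V) {g : En 3 → ℝ}
    (hg : ContDiffOn ℝ ∞ g V) {x : En 3} (hx : x ∈ V) (j k : Fin 3) :
    DifferentiableAt ℝ (divG g j k) x :=
  ((div_smooth hV hg j k).contDiffAt (hV.mem_nhds hx)).differentiableAt (by simp)

private theorem div_symm_del {V : Set (En 3)} (hV : IsOpen V) {g : En 3 → ℝ}
    (hg : ContDiffOn ℝ ∞ g V) {x : En 3} (hx : x ∈ V) (j a c : Fin 3) :
    del j (divG g a c) x = del a (divG g j c) x := by
  have hg' : ContDiffOn ℝ ∞ (fun y => (g y : ℂ)) V := Complex.ofRealCLM.contDiff.comp_contDiffOn hg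
  have h2 : ∀ y ∈ V, ContDiffAt ℝ 2 (fun y => (g y : ℂ)) y := fun y hy =>
    (hg'.contDiffAt (hV.mem_nhds hy)).of_le (by norm_cast)
  have h2d : ∀ b, ContDiffAt ℝ 2 (del b (fun y => (g y : ℂ))) x := fun b =>
    ((contDiffOn_del hV hg' b).contDiffAt (hV.mem_nhds hx)).of_le (by norm_cast)
  unfold divG
  rw [del_dbar_comm (h2d a), del_dbar_comm (h2d j)]
  refine dbar_congr ?_ c
  filter_upwards [hV.mem_nhds hx] with y hy
  exact del_comm (h2 y hy) j a

private theorem div_symm_dbar {V : Set (En 3)} (hV : IsOpen V) {g : En 3 → ℝ}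
    (hg : ContDiffOn ℝ ∞ g V) {x : En 3} (hx : x ∈ V) (k a c : Fin 3) :
    dbar k (divG g a c) x = dbar c (divG g a k) x := by
  have hg' : ContDiffOn ℝ ∞ (fun y => (g y : ℂ)) V := Complex.ofRealCLM.contDiff.comp_contDiffOn hg
  have h2d : ContDiffAt ℝ 2 (del a (fun y => (g y : ℂ))) x :=
    ((contDiffOn_del hV hg' a).contDiffAt (hV.mem_nhds hx)).of_le (by norm_cast)
  exact dbar_comm h2d k c

private theorem div_del4 {A B C E : En 3 → ℂ} {x : En 3} (hA : DifferentiableAt ℝ A x)
    (hB : DifferentiableAt ℝ B x) (hC : DifferentiableAt ℝ C x) (hE : DifferentiableAt ℝ E x)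
    (j : Fin 3) : del j (fun y => A y * B y - C y * E y) x =
      (del j A x * B x + A x * del j B x) - (del j C x * E x + C x * del j E x) := by
  rw [del_sub (f := fun y => A y * B y) (g := fun y => C y * E y) (hA.mul hB) (hC.mul hE),
    del_mul hA hB, del_mul hC hE]

private theorem div_dbar4 {A B C E : En 3 → ℂ} {x : En 3} (hA : DifferentiableAt ℝ A x)
    (hB : DifferentiableAt ℝ B x) (hC : DifferentiableAt ℝ C x) (hE : DifferentiableAt ℝ E x)
    (j : Fin 3) : dbar j (fun y => A y * B y - C y * E y) x =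
      (dbar j A x * B x + A x * dbar j B x) - (dbar j C x * E x + C x * dbar j E x) := by
  rw [dbar_sub (f := fun y => A y * B y) (g := fun y => C y * E y) (hA.mul hB) (hC.mul hE),
    dbar_mul hA hB, dbar_mul hC hE]

theorem divFree_adj {V : Set (En 3)} (hV : IsOpen V) {g : En 3 → ℝ} (hg : ContDiffOn ℝ ∞ g V) :
    DivFree V (fun x => (Hm g x).adjugate) := by
  have e : ∀ k j, (fun y => (Hm g y).adjugate k j) =
      fun y => divG g (j + 1) (k + 1) y * divG g (j + 2) (k + 2) y -
        divG g (j + 1) (k + 2) y * divG g (j + 2) (k + 1) y :=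
    fun k j => funext fun y => div_adj g k j y
  refine ⟨fun k j => ?_, fun x hx k => ?_, fun x hx j => ?_⟩
  · show ContDiffOn ℝ ∞ (fun y => (Hm g y).adjugate k j) V
    rw [e]
    exact ((div_smooth hV hg _ _).mul (div_smooth hV hg _ _)).sub
      ((div_smooth hV hg _ _).mul (div_smooth hV hg _ _))
  · show ∑ j, Pool.Agent.H8.FZ.del j (fun y => (Hm g y).adjugate k j) x = 0
    have hd := fun a b => div_diff hV hg hx a b
    have hs := fun j a c => div_symm_del hV hg hx j a c
    simp only [e]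
    rw [Fin.sum_univ_three, div_del4 (hd _ _) (hd _ _) (hd _ _) (hd _ _),
      div_del4 (hd _ _) (hd _ _) (hd _ _) (hd _ _), div_del4 (hd _ _) (hd _ _) (hd _ _) (hd _ _)]
    have e0 : (0 : Fin 3) + 1 = 1 := rfl
    have e1 : (0 : Fin 3) + 2 = 2 := rfl
    have e2 : (1 : Fin 3) + 1 = 2 := rfl
    have e3 : (1 : Fin 3) + 2 = 0 := rfl
    have e4 : (2 : Fin 3) + 1 = 0 := rfl
    have e5 : (2 : Fin 3) + 2 = 1 := rfl
    rw [e0, e1, e2, e3, e4, e5, hs 1 0 (k + 1), hs 1 0 (k + 2), hs 2 0 (k + 1), hs 2 0 (k + 2),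
      hs 2 1 (k + 1), hs 2 1 (k + 2)]
    ring
  · show ∑ k, Pool.Agent.H8.FZ.dbar k (fun y => (Hm g y).adjugate k j) x = 0
    have hd := fun a b => div_diff hV hg hx a b
    have hs := fun k a c => div_symm_dbar hV hg hx k a c
    simp only [e]
    rw [Fin.sum_univ_three, div_dbar4 (hd _ _) (hd _ _) (hd _ _) (hd _ _),
      div_dbar4 (hd _ _) (hd _ _) (hd _ _) (hd _ _), div_dbar4 (hd _ _) (hd _ _) (hd _ _) (hd _ _)]
    have e0 : (0 : Fin 3) + 1 = 1 := rfl
    have e1 : (0 : Fin 3) + 2 = 2 := rfl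
    have e2 : (1 : Fin 3) + 1 = 2 := rfl
    have e3 : (1 : Fin 3) + 2 = 0 := rfl
    have e4 : (2 : Fin 3) + 1 = 0 := rfl
    have e5 : (2 : Fin 3) + 2 = 1 := rfl
    rw [e0, e1, e2, e3, e4, e5, hs 1 (j + 1) 0, hs 1 (j + 2) 0, hs 2 (j + 1) 0, hs 2 (j + 2) 0,
      hs 2 (j + 1) 1, hs 2 (j + 2) 1]
    ring

end Pool.Agent.H50.CS
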