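import Pool.Agent.H50.CS.TubeDefs

/-!
# CS-DOM: the domination inequality for the sums

At a point with `1 ≤ ν_k ss(r) ≤ 2`, `r = c.rr x < 0` (so `R > 0`, and `beX i x = be i r`, `uuX i x = uu i r`):
`UM · UD · |ℓ_k| ≤ 121 SM · SD`.

Proof (at `X > 0`; `ℓ_k = el K (T k) τ t`, `t = tt x`). `dom_ge`: `u_i ≤ 8β_i` for `i ≥ k`, and if `k ≥ 1`:
`β_{k-1} ≥ 1/3`, so `M_{k-1} ≤ 3 SM`, `D_{k-1} ≤ 3 SD`. Also `u_i ≤ 1`.
If `k ≤ 1` (no index `i ≤ k-2`): `UM ≤ 11 SM`, `UD ≤ 11 SD`, `|ℓ_k| ≤ 1`.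
If `k ≥ 2`: let `T' = T_{k-1}`. For `i ≤ k-2`, `2 e^K T_i ≤ T_{i+1} ≤ T'` (`TChain`), so `dom_T` applies to `(T_i, T')`:
either `D_i = M_i = 0` or `sf ≤ e^K T_i`, `D_i ≤ 2T'D_{k-1}`, `M_i ≤ 8T'²M_{k-1}`.
 - If all `D_i = M_i = 0` (`i ≤ k-2`): as before.
 - Otherwise `sf ≤ e^K T_{k-2}` and `|ℓ_k| ≤ sf/(K T_k) ≤ e^K T_{k-2}/T_k ≤ 1/(27N²T'³)` (`K ≥ 1`, `T_k ≥ 27N²e^K T'⁴`,
   `T_{k-2} ≤ T'`), `UM ≤ 8SM + 3SM + N·8T'²·3SM ≤ 35 N T'² SM`, `UD ≤ 11 SD + N·2T'·3 SD ≤ 17 N T' SD`; the product is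
   `≤ 35·17/27 SM SD ≤ 121 SM SD`.
At `X = 0` the statement also holds (`t = tt x` is then a junk value but the same argument applies
with `|elX k x| ≤ 1` replaced...): we only state it for `X > 0`.
-/

set_option autoImplicit false

noncomputable section

namespace Pool.Agent.H50.CS

open Complex Metric MeasureTheory Set Filter Topology
open scoped ContDiff ComplexConjugate
open Pool.Agent.H8.FZ

namespace Crv

variable {c : Crv} {N : ℕ} {ν : ℕ → ℝ} {K τ : ℝ} {T : ℕ → ℝ}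

theorem Dom_step (hN : 1 ≤ N) (hK : 0 ≤ K) (hT : TChain N K T) (i : ℕ) :
    2 * Real.exp K * T i ≤ T (i + 1) ∧ T i ≤ T (i + 1) := by
  have h1 := hT.one i
  have h4 : T i ≤ T i ^ 4 := le_self_pow₀ h1 (by norm_num)
  have hNr : (1 : ℝ) ≤ (N : ℝ) ^ 2 := by
    have : (1 : ℝ) ≤ N := by exact_mod_cast hN
    nlinarith
  have hE : 1 ≤ Real.exp K := Real.one_le_exp hK
  have hs := hT.step i
  have hET : Real.exp K * T i ≤ Real.exp K * T i ^ 4 :=
    mul_le_mul_of_nonneg_left h4 (by positivity)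
  have hpos : 0 ≤ Real.exp K * T i ^ 4 := by positivity
  have h27 : Real.exp K * T i ^ 4 ≤ (N : ℝ) ^ 2 * (Real.exp K * T i ^ 4) :=
    le_mul_of_one_le_left hpos hNr
  have hTE : T i ≤ Real.exp K * T i := le_mul_of_one_le_left (by linarith) hE
  have hTi : 0 ≤ Real.exp K * T i := by positivity
  constructor <;> nlinarith

theorem Dom_mono (hN : 1 ≤ N) (hK : 0 ≤ K) (hT : TChain N K T) {i j : ℕ} (hij : i ≤ j) :
    T i ≤ T j := by
  induction j, hij using Nat.le_induction with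
  | base => exact le_refl _
  | succ j _ ih => exact ih.trans (Dom_step hN hK hT j).2

/-- termwise comparison without small scales -/
theorem Dom_caseA {N k : ℕ} {b u M : ℕ → ℝ} (hb : ∀ i, 0 ≤ b i) (hM : ∀ i, 0 ≤ M i)
    (hu1 : ∀ i, u i ≤ 1) (hge : ∀ i, k ≤ i → i < N → u i ≤ 8 * b i)
    (hk1 : 1 ≤ k → 1 / 3 ≤ b (k - 1)) (h0 : ∀ i, i + 2 ≤ k → M i = 0) :
    ∑ i ∈ Finset.range N, u i * M i ≤ 11 * ∑ i ∈ Finset.range N, b i * M i := by
  rw [Finset.mul_sum]
  apply Finset.sum_le_sum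
  intro i hi
  have hiN := Finset.mem_range.1 hi
  have hbi := hb i
  have hMi := hM i
  by_cases h1 : k ≤ i
  · have := mul_le_mul_of_nonneg_right (hge i h1 hiN) hMi
    nlinarith [mul_nonneg hbi hMi]
  · by_cases h2 : i + 2 ≤ k
    · rw [h0 i h2]; simp
    · have hik : i = k - 1 := by omega
      have hb3 : 1 / 3 ≤ b i := by
        rw [hik]; exact hk1 (by omega)
      have h3 := mul_le_mul_of_nonneg_right (hu1 i) hMi
      have h4 := mul_le_mul_of_nonneg_right hb3 hMi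
      nlinarith

/-- comparison with small scales dominated by the scale `k - 1` -/
theorem Dom_caseB {N k : ℕ} {b u M : ℕ → ℝ} {C : ℝ} (hC : 0 ≤ C) (hb : ∀ i, 0 ≤ b i)
    (hM : ∀ i, 0 ≤ M i) (hu1 : ∀ i, u i ≤ 1)
    (hge : ∀ i, k ≤ i → i < N → u i ≤ 8 * b i) (hk : 2 ≤ k) (hkN : k < N)
    (hk1 : 1 / 3 ≤ b (k - 1)) (h0 : ∀ i, i + 2 ≤ k → M i ≤ C * M (k - 1)) :
    ∑ i ∈ Finset.range N, u i * M i ≤
      (11 + 3 * C * N) * ∑ i ∈ Finset.range N, b i * M i := by
  set S := ∑ i ∈ Finset.range N, b i * M i with hS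
  have hSk : b (k - 1) * M (k - 1) ≤ S := by
    apply Finset.single_le_sum (f := fun i => b i * M i)
      (fun i _ => mul_nonneg (hb i) (hM i))
    exact Finset.mem_range.2 (by omega)
  have hS3 : M (k - 1) ≤ 3 * S := by
    have := mul_le_mul_of_nonneg_right hk1 (hM (k - 1))
    linarith
  have hS0 : 0 ≤ S := Finset.sum_nonneg fun i _ => mul_nonneg (hb i) (hM i)
  have hterm : ∀ i ∈ Finset.range N, u i * M i ≤ 11 * (b i * M i) + 3 * C * S := by
    intro i hi
    have hiN := Finset.mem_range.1 hi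
    have hbi := hb i
    have hMi := hM i
    have hbM := mul_nonneg hbi hMi
    have hCS : 0 ≤ 3 * C * S := by positivity
    by_cases h1 : k ≤ i
    · have := mul_le_mul_of_nonneg_right (hge i h1 hiN) hMi
      nlinarith
    · by_cases h2 : i + 2 ≤ k
      · have h3 := mul_le_mul_of_nonneg_right (hu1 i) hMi
        have h4 := h0 i h2
        have h5 : C * M (k - 1) ≤ C * (3 * S) := mul_le_mul_of_nonneg_left hS3 hC
        nlinarith
      · have hik : i = k - 1 := by omega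
        have hb3 : 1 / 3 ≤ b i := by rw [hik]; exact hk1
        have h3 := mul_le_mul_of_nonneg_right (hu1 i) hMi
        have h4 := mul_le_mul_of_nonneg_right hb3 hMi
        nlinarith
  calc ∑ i ∈ Finset.range N, u i * M i
      ≤ ∑ i ∈ Finset.range N, (11 * (b i * M i) + 3 * C * S) := Finset.sum_le_sum hterm
    _ = (11 + 3 * C * N) * S := by
        rw [Finset.sum_add_distrib, ← Finset.mul_sum, Finset.sum_const, Finset.card_range,
          nsmul_eq_mul, ← hS]
        ring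

theorem dom_sum (h : Scales N ν) (hK : 2 * Hc ≤ K) (hτ : 0 < τ) (hT : TChain N K T) {x : En 3}
    (hx : 0 < c.X x) {k : ℕ} (hk : k < N) (h1 : 1 ≤ ν k * ss ν (c.rr x))
    (h2 : ν k * ss ν (c.rr x) ≤ 2) :
    c.UM N ν K τ T x * c.UD N ν K τ T x * |c.elX K τ T k x| ≤
      121 * (c.SM N ν K τ T x * c.SD N ν K τ T x) := by
  have hHc := Hc_ge
  have hK1 : 1 ≤ K := by linarith
  have hK0 : 0 < K := by linarith
  have hTpos : ∀ i, 0 < T i := fun i => lt_of_lt_of_le one_pos (hT.one i)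
  have hr : c.rr x < 0 := by
    by_contra hcon
    rw [ss_of_nonneg h (not_lt.1 hcon)] at h1
    norm_num at h1
  have hR : 0 < c.R x := by
    rcases (c.R_nonneg x).lt_or_eq with h3 | h3
    · exact h3
    · exfalso
      have : c.rr x = 0 := by unfold rr; rw [← h3]; simp
      linarith
  have hbe : ∀ i, c.beX N ν i x = be N ν i (c.rr x) := fun i => lr_pos _ _ hR
  have huu : ∀ i, c.uuX ν i x = uu ν i (c.rr x) := fun i => lr_pos _ _ hR
  have hel : c.elX K τ T k x = el K (T k) τ (c.tt x) := lr_pos _ _ hx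
  set b : ℕ → ℝ := fun i => c.beX N ν i x with hbdef
  set u : ℕ → ℝ := fun i => c.uuX ν i x with hudef
  set M : ℕ → ℝ := fun i => Ml K (T i) τ (c.tt x) with hMdef
  set Dd : ℕ → ℝ := fun i => Dl K (T i) τ (c.tt x) with hDdef
  have hb : ∀ i, 0 ≤ b i := fun i => beX_nonneg h i x
  have hu1 : ∀ i, u i ≤ 1 := fun i => (uuX_mem h i x).2
  have hu0 : ∀ i, 0 ≤ u i := fun i => (uuX_mem h i x).1
  have hM : ∀ i, 0 ≤ M i := fun i => Ml_nonneg hK0 (hTpos i) _
  have hD : ∀ i, 0 ≤ Dd i := fun i => Dl_nonneg hK0 (hTpos i) _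
  obtain ⟨hge', hk1'⟩ := dom_ge h hk h1 h2
  have hge : ∀ i, k ≤ i → i < N → u i ≤ 8 * b i := by
    intro i hi hiN
    simp only [hbdef, hudef, hbe, huu]
    exact hge' i hi hiN
  have hk1 : 1 ≤ k → 1 / 3 ≤ b (k - 1) := by
    intro hk'
    simp only [hbdef, hbe]
    exact hk1' hk'
  have eUM : c.UM N ν K τ T x = ∑ i ∈ Finset.range N, u i * M i := rfl
  have eUD : c.UD N ν K τ T x = ∑ i ∈ Finset.range N, u i * Dd i := rfl
  have eSM : c.SM N ν K τ T x = ∑ i ∈ Finset.range N, b i * M i := rfl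
  have eSD : c.SD N ν K τ T x = ∑ i ∈ Finset.range N, b i * Dd i := rfl
  rw [eUM, eUD, eSM, eSD]
  set SMv := ∑ i ∈ Finset.range N, b i * M i with hSMv
  set SDv := ∑ i ∈ Finset.range N, b i * Dd i with hSDv
  set UMv := ∑ i ∈ Finset.range N, u i * M i with hUMv
  set UDv := ∑ i ∈ Finset.range N, u i * Dd i with hUDv
  have hSM0 : 0 ≤ SMv := Finset.sum_nonneg fun i _ => mul_nonneg (hb i) (hM i)
  have hSD0 : 0 ≤ SDv := Finset.sum_nonneg fun i _ => mul_nonneg (hb i) (hD i)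
  have hUM0 : 0 ≤ UMv := Finset.sum_nonneg fun i _ => mul_nonneg (hu0 i) (hM i)
  have hUD0 : 0 ≤ UDv := Finset.sum_nonneg fun i _ => mul_nonneg (hu0 i) (hD i)
  have hSS0 : 0 ≤ SMv * SDv := mul_nonneg hSM0 hSD0
  by_cases hA : ∀ i, i + 2 ≤ k → Dd i = 0 ∧ M i = 0
  · have hUM : UMv ≤ 11 * SMv :=
      Dom_caseA hb hM hu1 hge hk1 (fun i hi => (hA i hi).2)
    have hUD : UDv ≤ 11 * SDv :=
      Dom_caseA hb hD hu1 hge hk1 (fun i hi => (hA i hi).1)
    have habs : |c.elX K τ T k x| ≤ 1 := by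
      obtain ⟨h3, h4⟩ := elX_mem (c := c) (τ := τ) hK0 (hTpos k) x
      rw [abs_le]
      constructor <;> linarith
    calc UMv * UDv * |c.elX K τ T k x| ≤ UMv * UDv * 1 :=
          mul_le_mul_of_nonneg_left habs (mul_nonneg hUM0 hUD0)
      _ ≤ (11 * SMv) * (11 * SDv) := by
          rw [mul_one]
          exact mul_le_mul hUM hUD hUD0 (by positivity)
      _ = 121 * (SMv * SDv) := by ring
  · push Not at hA
    obtain ⟨i₀, hi₀, hne⟩ := hA
    have hk2 : 2 ≤ k := by omega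
    set T' := T (k - 1) with hT'
    have hT'1 : 1 ≤ T' := hT.one _
    have hT'0 : 0 < T' := by linarith
    have hstep : ∀ i, i + 2 ≤ k → 2 * Real.exp K * T i ≤ T' := by
      intro i hi
      exact (Dom_step h.hN hK0.le hT i).1.trans (Dom_mono h.hN hK0.le hT (by omega))
    have hdom : ∀ i, i + 2 ≤ k → Dd i ≤ 2 * T' * Dd (k - 1) ∧ M i ≤ 8 * T' ^ 2 * M (k - 1) := by
      intro i hi
      rcases dom_T (τ := τ) hK (hT.one i) (hstep i hi) (c.tt x) with h3 | h3
      · have e1 : Dd i = 0 := h3.1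
        have e2 : M i = 0 := h3.2
        rw [e1, e2]
        have := hD (k - 1)
        have := hM (k - 1)
        constructor <;> positivity
      · exact h3.2
    have hsf : sf τ (c.tt x) ≤ Real.exp K * T i₀ := by
      rcases dom_T (τ := τ) hK (hT.one i₀) (hstep i₀ hi₀) (c.tt x) with h3 | h3
      · exact absurd h3.2 (hne h3.1)
      · exact h3.1
    have hNr : (1 : ℝ) ≤ N := by exact_mod_cast h.hN
    have hUM : UMv ≤ 35 * N * T' ^ 2 * SMv := by
      have h3 := Dom_caseB (C := 8 * T' ^ 2) (by positivity) hb hM hu1 hge hk2 hk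
        (hk1 (by omega)) (fun i hi => (hdom i hi).2)
      refine h3.trans ?_
      apply mul_le_mul_of_nonneg_right _ hSM0
      have : (1 : ℝ) ≤ N * T' ^ 2 := by
        have : (1 : ℝ) ≤ T' ^ 2 := by nlinarith
        nlinarith
      nlinarith
    have hUD : UDv ≤ 17 * N * T' * SDv := by
      have h3 := Dom_caseB (C := 2 * T') (by positivity) hb hD hu1 hge hk2 hk
        (hk1 (by omega)) (fun i hi => (hdom i hi).1)
      refine h3.trans ?_
      apply mul_le_mul_of_nonneg_right _ hSD0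
      have : (1 : ℝ) ≤ N * T' := by nlinarith
      nlinarith
    have habs : |c.elX K τ T k x| * (27 * N ^ 2 * T' ^ 3) ≤ 1 := by
      rw [hel]
      have hTk : 27 * (N : ℝ) ^ 2 * Real.exp K * T' ^ 4 ≤ T k := by
        have := hT.step (k - 1)
        rw [show k - 1 + 1 = k by omega] at this
        exact this
      have h3 : |el K (T k) τ (c.tt x)| ≤ sf τ (c.tt x) / (K * T k) := el_abs hK0 (hTpos k) _
      have h4 : sf τ (c.tt x) ≤ Real.exp K * T' := by
        refine hsf.trans (mul_le_mul_of_nonneg_left ?_ (by positivity))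
        exact Dom_mono h.hN hK0.le hT (by omega)
      have hTk0 := hTpos k
      have hE := Real.exp_pos K
      have h5 : sf τ (c.tt x) / (K * T k) ≤ Real.exp K * T' / T k := by
        apply div_le_div₀ (by positivity) h4 hTk0
        nlinarith
      have h6 : Real.exp K * T' / T k * (27 * N ^ 2 * T' ^ 3) ≤ 1 := by
        rw [div_mul_eq_mul_div, div_le_one hTk0]
        calc Real.exp K * T' * (27 * N ^ 2 * T' ^ 3) = 27 * (N : ℝ) ^ 2 * Real.exp K * T' ^ 4 := by
              ring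
          _ ≤ T k := hTk
      calc |el K (T k) τ (c.tt x)| * (27 * N ^ 2 * T' ^ 3)
          ≤ Real.exp K * T' / T k * (27 * N ^ 2 * T' ^ 3) :=
            mul_le_mul_of_nonneg_right (h3.trans h5) (by positivity)
        _ ≤ 1 := h6
    have hab0 := abs_nonneg (c.elX K τ T k x)
    calc UMv * UDv * |c.elX K τ T k x|
        ≤ (35 * N * T' ^ 2 * SMv) * (17 * N * T' * SDv) * |c.elX K τ T k x| := by
          apply mul_le_mul_of_nonneg_right _ hab0
          exact mul_le_mul hUM hUD hUD0 (by positivity)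
      _ = 595 / 27 * (SMv * SDv) * (|c.elX K τ T k x| * (27 * N ^ 2 * T' ^ 3)) := by ring
      _ ≤ 595 / 27 * (SMv * SDv) * 1 :=
          mul_le_mul_of_nonneg_left habs (by positivity)
      _ ≤ 121 * (SMv * SDv) := by nlinarith

end Crv

end Pool.Agent.H50.CS
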