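import Pool.Agent.H50.CS.OneVar3

/-!
# CS-ELL: the functions `ℓ(t)` of `t = log|z'|`

Parameters `K > 0`, `T > 0`, `τ > 0`. `sf τ t = ½ log(1 + τ² e^{-2t}) > 0` (smooth, decreasing, `→ ∞` as
`t → -∞`), `Lf = -(1/K) log(1 + sf/T) < 0`, `el = Ps ∘ Lf ∈ [-1, 0]`.
`pf τ t = τ²/(2(e^{2t}+τ²)) ∈ (0, ½)`; `la = 1/(K(T+sf))`; `Dl = Ps'(Lf) la ≥ 0`,
`Ml = (K Ps'(Lf) + Ps''(Lf)) la² ≥ 0`.

* `sf' = -τ²/(e^{2t}+τ²) = -2 pf`, `sf'' = 2τ²e^{2t}/(e^{2t}+τ²)²`;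
  `Lf' = -la sf' = 2 pf la`, `Lf'' = -la sf'' + K la² sf'²`;
  `el' = Ps'(Lf) Lf' = 2 pf Dl`,
  `el'' = Ps'(Lf) Lf'' + Ps''(Lf) Lf'² = 4 pf² Ml - sf'' Dl`.
* `el_const`: for `t ≤ t₀(K,T,τ)` (where `log(1+sf/T) ≥ K`) `el = Ps(-1)`.
* `el_mono`: `T ≤ T'` ⇒ `el K T ≤ el K T'`.
* `el_abs`: `|el| ≤ sf/(K T)` (`|Ps x| ≤ |x|` for `x ≤ 0`, `log(1+y) ≤ y`), and `sf ≤ ½ log 2 ≤ ½` when
  `e^{2t} ≥ τ²`.
* `Dl_sq`: `Dl² ≤ Ml/K`, `Dl ≤ 1/(K T)`.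
* `dom_T` (comparison of two thickness scales): let `1 ≤ T`, `K ≥ 2Hc`, `T e^K ≤ T₁/2·…` precisely
  `2 e^K T ≤ T₁`, and suppose `Lf K T τ t > -1` (otherwise `Dl = Ml = 0`). Then `sf ≤ e^K T ≤ T₁/2`, so
  `Lf K T₁ ≥ -sf/(K T₁) ≥ -1/2`, `Ps'(Lf K T₁) = 1`, `Dl(T₁) = la(T₁) ≥ 1/(2 K T₁)`,
  `Ml(T₁) ≥ K la(T₁)² ≥ 1/(4 K T₁²)`, while `Dl(T) ≤ 1/(K T) ≤ 1/K`,
  `Ml(T) ≤ (K + 2Hc)/(K²T²) ≤ 2/K`. Hence `Dl(T) ≤ 2T₁ Dl(T₁)`, `Ml(T) ≤ 8 T₁² Ml(T₁)`.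
(This file: sf, Lf, el, pf, la, Dl, Ml, sf_nonneg, sf_le_half, el_smooth, deriv_el, deriv2_el.)
-/

set_option autoImplicit false

noncomputable section

namespace Pool.Agent.H50.CS

open Real Set Filter Topology
open scoped ContDiff

/-- `½ log(1+τ²e^{-2t})` -/
def sf (τ t : ℝ) : ℝ := 1 / 2 * Real.log (1 + τ ^ 2 * Real.exp (-2 * t))

/-- `-(1/K) log(1 + s/T)` -/
def Lf (K T τ t : ℝ) : ℝ := -(1 / K) * Real.log (1 + sf τ t / T)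

/-- the function `ℓ` -/
def el (K T τ t : ℝ) : ℝ := Ps (Lf K T τ t)

/-- `τ²/(2(e^{2t}+τ²))` -/
def pf (τ t : ℝ) : ℝ := τ ^ 2 / (2 * (Real.exp (2 * t) + τ ^ 2))

/-- `1/(K(T+s))` -/
def la (K T τ t : ℝ) : ℝ := 1 / (K * (T + sf τ t))

/-- `Ps'(L) λ` -/
def Dl (K T τ t : ℝ) : ℝ := deriv Ps (Lf K T τ t) * la K T τ t

/-- `(K Ps'(L) + Ps''(L)) λ²` -/
def Ml (K T τ t : ℝ) : ℝ :=
  (K * deriv Ps (Lf K T τ t) + deriv (deriv Ps) (Lf K T τ t)) * la K T τ t ^ 2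

variable {K T τ : ℝ}

theorem Ell_one_le (τ t : ℝ) : 1 ≤ 1 + τ ^ 2 * Real.exp (-2 * t) := by
  have : 0 ≤ τ ^ 2 * Real.exp (-2 * t) := by positivity
  linarith

theorem sf_nonneg (τ t : ℝ) : 0 ≤ sf τ t := by
  unfold sf
  have := Real.log_nonneg (Ell_one_le τ t)
  linarith

theorem sf_le_half (hτ : 0 < τ) {t : ℝ} (ht : τ ^ 2 ≤ Real.exp (2 * t)) : sf τ t ≤ 1 / 2 := by
  unfold sf
  have h1 : τ ^ 2 * Real.exp (-2 * t) ≤ 1 := by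
    have h2 : Real.exp (2 * t) * Real.exp (-2 * t) = 1 := by
      rw [← Real.exp_add]
      norm_num
    calc τ ^ 2 * Real.exp (-2 * t) ≤ Real.exp (2 * t) * Real.exp (-2 * t) :=
          mul_le_mul_of_nonneg_right ht (Real.exp_pos _).le
      _ = 1 := h2
  have h3 := Real.log_le_sub_one_of_pos (x := 1 + τ ^ 2 * Real.exp (-2 * t))
    (by linarith [Ell_one_le τ t])
  linarith

theorem Ell_pos (hT : 0 < T) (t : ℝ) : 0 < T + sf τ t := by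
  have := sf_nonneg τ t
  linarith

theorem Ell_pos' (hT : 0 < T) (t : ℝ) : 0 < 1 + sf τ t / T := by
  have := div_nonneg (sf_nonneg τ t) hT.le
  linarith

theorem Ell_sf_smooth : ContDiff ℝ ∞ (sf τ) := by
  unfold sf
  refine contDiff_const.mul (ContDiff.log ?_ ?_)
  · exact contDiff_const.add (contDiff_const.mul (Real.contDiff_exp.comp (contDiff_const.mul contDiff_id)))
  · intro t
    exact (lt_of_lt_of_le one_pos (Ell_one_le τ t)).ne'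

theorem Ell_Lf_smooth (hT : 0 < T) : ContDiff ℝ ∞ (Lf K T τ) := by
  unfold Lf
  refine contDiff_const.mul (ContDiff.log ?_ ?_)
  · exact contDiff_const.add (Ell_sf_smooth.div_const _)
  · intro t
    exact (Ell_pos' hT t).ne'

theorem el_smooth (hK : 0 < K) (hT : 0 < T) (hτ : 0 < τ) : ContDiff ℝ ∞ (el K T τ) := by
  exact Ps_smooth.comp (Ell_Lf_smooth hT)

theorem Ell_hasDeriv_sf (hτ : 0 < τ) (t : ℝ) : HasDerivAt (sf τ) (-2 * pf τ t) t := by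
  have h1 : HasDerivAt (fun t : ℝ => Real.exp (-2 * t)) (Real.exp (-2 * t) * (-2 * 1)) t :=
    ((hasDerivAt_id t).const_mul (-2)).exp
  have h2 : HasDerivAt (fun t : ℝ => 1 + τ ^ 2 * Real.exp (-2 * t))
      (τ ^ 2 * (Real.exp (-2 * t) * (-2 * 1))) t := (h1.const_mul (τ ^ 2)).const_add 1
  have hne : 1 + τ ^ 2 * Real.exp (-2 * t) ≠ 0 := (lt_of_lt_of_le one_pos (Ell_one_le τ t)).ne'
  have h3 := (h2.log hne).const_mul (1 / 2)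
  refine HasDerivAt.congr_deriv (f := sf τ) h3 ?_
  unfold pf
  have h4 : Real.exp (-2 * t) = (Real.exp (2 * t))⁻¹ := by
    rw [← Real.exp_neg]
    congr 1
    ring
  rw [h4] at hne ⊢
  have h5 : 0 < Real.exp (2 * t) := Real.exp_pos _
  have h6 : Real.exp (2 * t) + τ ^ 2 ≠ 0 := by positivity
  field_simp

theorem Ell_hasDeriv_Lf (hK : 0 < K) (hT : 0 < T) (hτ : 0 < τ) (t : ℝ) :
    HasDerivAt (Lf K T τ) (2 * pf τ t * la K T τ t) t := by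
  have h2 : HasDerivAt (fun t : ℝ => 1 + sf τ t / T) (-2 * pf τ t / T) t :=
    ((Ell_hasDeriv_sf hτ t).div_const T).const_add 1
  have h3 := (h2.log (Ell_pos' hT t).ne').const_mul (-(1 / K))
  refine HasDerivAt.congr_deriv (f := Lf K T τ) h3 ?_
  unfold la
  have h5 := (Ell_pos (τ := τ) hT t).ne'
  have h6 := (Ell_pos' (τ := τ) hT t).ne'
  field_simp

theorem Ell_hasDeriv_el (hK : 0 < K) (hT : 0 < T) (hτ : 0 < τ) (t : ℝ) :
    HasDerivAt (el K T τ) (2 * pf τ t * Dl K T τ t) t := by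
  have h1 : HasDerivAt Ps (deriv Ps (Lf K T τ t)) (Lf K T τ t) :=
    ((Ps_smooth.differentiable (by simp)) _).hasDerivAt
  have h2 := h1.comp t (Ell_hasDeriv_Lf hK hT hτ t)
  refine HasDerivAt.congr_deriv (f := el K T τ) h2 ?_
  unfold Dl
  ring

theorem deriv_el (hK : 0 < K) (hT : 0 < T) (hτ : 0 < τ) (t : ℝ) :
    deriv (el K T τ) t = 2 * pf τ t * Dl K T τ t :=
  (Ell_hasDeriv_el hK hT hτ t).deriv

theorem Ell_hasDeriv_pf (hτ : 0 < τ) (t : ℝ) :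
    HasDerivAt (pf τ) (-(τ ^ 2 * Real.exp (2 * t) / (Real.exp (2 * t) + τ ^ 2) ^ 2)) t := by
  have h1 : HasDerivAt (fun t : ℝ => Real.exp (2 * t)) (Real.exp (2 * t) * (2 * 1)) t :=
    ((hasDerivAt_id t).const_mul 2).exp
  have h2 : HasDerivAt (fun t : ℝ => 2 * (Real.exp (2 * t) + τ ^ 2))
      (2 * (Real.exp (2 * t) * (2 * 1))) t := (h1.add_const (τ ^ 2)).const_mul 2
  have h5 : 0 < Real.exp (2 * t) := Real.exp_pos _
  have h6 : Real.exp (2 * t) + τ ^ 2 ≠ 0 := by positivity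
  have h7 : 2 * (Real.exp (2 * t) + τ ^ 2) ≠ 0 := by positivity
  have h3 := (hasDerivAt_const t (τ ^ 2)).div h2 h7
  refine HasDerivAt.congr_deriv (f := pf τ) h3 ?_
  field_simp
  ring

theorem Ell_hasDeriv_la (hK : 0 < K) (hT : 0 < T) (hτ : 0 < τ) (t : ℝ) :
    HasDerivAt (la K T τ) (2 * pf τ t * (K * la K T τ t ^ 2)) t := by
  have h2 : HasDerivAt (fun t : ℝ => K * (T + sf τ t)) (K * (-2 * pf τ t)) t :=
    ((Ell_hasDeriv_sf hτ t).const_add T).const_mul K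
  have h5 := (Ell_pos (τ := τ) hT t).ne'
  have h7 : K * (T + sf τ t) ≠ 0 := mul_ne_zero hK.ne' h5
  have h3 := (hasDerivAt_const t (1 : ℝ)).div h2 h7
  refine HasDerivAt.congr_deriv (f := la K T τ) h3 ?_
  unfold la
  field_simp
  ring

theorem Ell_hasDeriv_Dl (hK : 0 < K) (hT : 0 < T) (hτ : 0 < τ) (t : ℝ) :
    HasDerivAt (Dl K T τ) (2 * pf τ t * Ml K T τ t) t := by
  have hs : ContDiff ℝ ∞ (deriv Ps) := (contDiff_infty_iff_deriv.1 Ps_smooth).2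
  have h1 : HasDerivAt (deriv Ps) (deriv (deriv Ps) (Lf K T τ t)) (Lf K T τ t) :=
    ((hs.differentiable (by simp)) _).hasDerivAt
  have h2 := (h1.comp t (Ell_hasDeriv_Lf hK hT hτ t)).mul (Ell_hasDeriv_la hK hT hτ t)
  refine HasDerivAt.congr_deriv (f := Dl K T τ) h2 ?_
  unfold Ml
  simp only [Function.comp]
  ring

theorem deriv2_el (hK : 0 < K) (hT : 0 < T) (hτ : 0 < τ) (t : ℝ) :
    deriv (deriv (el K T τ)) t = 4 * pf τ t ^ 2 * Ml K T τ t -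
      2 * τ ^ 2 * Real.exp (2 * t) / (Real.exp (2 * t) + τ ^ 2) ^ 2 * Dl K T τ t := by
  have h0 : deriv (el K T τ) = fun t => 2 * pf τ t * Dl K T τ t := by
    funext s
    exact deriv_el hK hT hτ s
  rw [h0]
  have h1 := (((Ell_hasDeriv_pf hτ t).const_mul 2).mul (Ell_hasDeriv_Dl hK hT hτ t)).deriv
  refine Eq.trans h1 ?_
  have h5 : 0 < Real.exp (2 * t) := Real.exp_pos _
  have h6 : Real.exp (2 * t) + τ ^ 2 ≠ 0 := by positivity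
  field_simp
  ring

end Pool.Agent.H50.CS
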