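import Pool.Agent.H50.CS.Ell

/-!
# CS-ELL: the functions `ℓ(t)` of `t = log|z'|`

Parameters `K > 0`, `T > 0`, `τ > 0`. `sf τ t = ½ log(1 + τ² e^{-2t}) > 0` (smooth, decreasing, `→ ∞` as
`t → -∞`), `Lf = -(1/K) log(1 + sf/T) < 0`, `el = Ps ∘ Lf ∈ [-1, 0]`.
`pf τ t = τ²/(2(e^{2t}+τ²)) ∈ (0, ½)`; `la = 1/(K(T+sf))`; `Dl = Ps'(Lf) la ≥ 0`,
`Ml = (K Ps'(Lf) + Ps''(Lf)) la² ≥ 0`.

* `sf' = -τ²/(e^{2t}+τ²) = -2 pf`, `sf'' = 2τ²e^{2t}/(e^{2t}+τ²)²`;
  `Lf' = -la sf' = 2 pf la`, `Lf'' = -la sf'' + K la² sf'²`;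
  `el' = Ps'(Lf) Lf' = 2 pf Dl`,
  `el'' = Ps'(Lf) Lf'' + Ps''(Lf) Lf'² = 4 pf² Ml - sf'' Dl`.
* `el_const`: for `t ≤ t₀(K,T,τ)` (where `log(1+sf/T) ≥ K`) `el = Ps(-1)`.
* `el_mono`: `T ≤ T'` ⇒ `el K T ≤ el K T'`.
* `el_abs`: `|el| ≤ sf/(K T)` (`|Ps x| ≤ |x|` for `x ≤ 0`, `log(1+y) ≤ y`), and `sf ≤ ½ log 2 ≤ ½` when
  `e^{2t} ≥ τ²`.
* `Dl_sq`: `Dl² ≤ Ml/K`, `Dl ≤ 1/(K T)`.
* `dom_T` (comparison of two thickness scales): let `1 ≤ T`, `K ≥ 2Hc`, `T e^K ≤ T₁/2·…` precisely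
  `2 e^K T ≤ T₁`, and suppose `Lf K T τ t > -1` (otherwise `Dl = Ml = 0`). Then `sf ≤ e^K T ≤ T₁/2`, so
  `Lf K T₁ ≥ -sf/(K T₁) ≥ -1/2`, `Ps'(Lf K T₁) = 1`, `Dl(T₁) = la(T₁) ≥ 1/(2 K T₁)`,
  `Ml(T₁) ≥ K la(T₁)² ≥ 1/(4 K T₁²)`, while `Dl(T) ≤ 1/(K T) ≤ 1/K`,
  `Ml(T) ≤ (K + 2Hc)/(K²T²) ≤ 2/K`. Hence `Dl(T) ≤ 2T₁ Dl(T₁)`, `Ml(T) ≤ 8 T₁² Ml(T₁)`.
(This file: el_const, el_nonpos, neg_one_le_el, el_mono, el_abs, la_nonneg, Dl_nonneg, Ml_nonneg, Dl_le, Dl_sq, dom_T.)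
-/

set_option autoImplicit false

noncomputable section

namespace Pool.Agent.H50.CS

open Real Set Filter Topology
open scoped ContDiff

variable {K T τ : ℝ}

theorem Ell2_one_le (hT : 0 < T) (t : ℝ) : 1 ≤ 1 + sf τ t / T := by
  have := div_nonneg (sf_nonneg τ t) hT.le
  linarith

theorem Ell2_Lf_nonpos (hK : 0 < K) (hT : 0 < T) (t : ℝ) : Lf K T τ t ≤ 0 := by
  unfold Lf
  have h1 : 0 ≤ Real.log (1 + sf τ t / T) := Real.log_nonneg (Ell2_one_le hT t)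
  have h2 : 0 ≤ 1 / K := by positivity
  nlinarith [mul_nonneg h2 h1]

theorem Ell2_le_neg_Lf (hK : 0 < K) (hT : 0 < T) (t : ℝ) : -Lf K T τ t ≤ sf τ t / (K * T) := by
  unfold Lf
  have h1 : Real.log (1 + sf τ t / T) ≤ sf τ t / T := by
    have h0 := Ell2_one_le (τ := τ) hT t
    have := Real.log_le_sub_one_of_pos (x := 1 + sf τ t / T) (by linarith)
    linarith
  calc -(-(1 / K) * Real.log (1 + sf τ t / T)) = 1 / K * Real.log (1 + sf τ t / T) := by ring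
    _ ≤ 1 / K * (sf τ t / T) := mul_le_mul_of_nonneg_left h1 (by positivity)
    _ = sf τ t / (K * T) := by field_simp

theorem el_const (hK : 0 < K) (hT : 0 < T) (hτ : 0 < τ) :
    ∃ t₀ : ℝ, ∀ t ≤ t₀, el K T τ t = Ps (-1) := by
  refine ⟨Real.log τ - T * Real.exp K, fun t ht => ?_⟩
  unfold el
  apply Ps_const
  have h1 : Real.log τ - t ≤ sf τ t := by
    unfold sf
    have h2 : Real.log (τ ^ 2 * Real.exp (-2 * t)) ≤ Real.log (1 + τ ^ 2 * Real.exp (-2 * t)) := by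
      apply Real.log_le_log (by positivity)
      linarith
    rw [Real.log_mul (by positivity) (Real.exp_pos _).ne', Real.log_exp, Real.log_pow] at h2
    push_cast at h2
    linarith
  have h3 : T * Real.exp K ≤ sf τ t := by linarith
  have h4 : Real.exp K ≤ 1 + sf τ t / T := by
    have : Real.exp K ≤ sf τ t / T := by
      rw [le_div_iff₀ hT]
      linarith
    linarith
  have h5 : K ≤ Real.log (1 + sf τ t / T) := by
    rw [Real.le_log_iff_exp_le (lt_of_lt_of_le (Real.exp_pos K) h4)]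
    exact h4
  unfold Lf
  have h6 : 1 / K * K ≤ 1 / K * Real.log (1 + sf τ t / T) :=
    mul_le_mul_of_nonneg_left h5 (by positivity)
  rw [one_div_mul_cancel hK.ne'] at h6
  linarith

theorem el_nonpos (hK : 0 < K) (hT : 0 < T) (t : ℝ) : el K T τ t ≤ 0 :=
  Ps_nonpos (Ell2_Lf_nonpos hK hT t)

theorem neg_one_le_el (hK : 0 < K) (hT : 0 < T) (t : ℝ) : -1 ≤ el K T τ t :=
  neg_one_le_Ps (Ell2_Lf_nonpos hK hT t)

theorem el_mono (hK : 0 < K) (hT : 0 < T) {T' : ℝ} (hT' : T ≤ T') (t : ℝ) :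
    el K T τ t ≤ el K T' τ t := by
  unfold el
  apply Ps_mono
  unfold Lf
  have h0 := sf_nonneg τ t
  have h1 : sf τ t / T' ≤ sf τ t / T := div_le_div_of_nonneg_left h0 hT hT'
  have h2 : Real.log (1 + sf τ t / T') ≤ Real.log (1 + sf τ t / T) := by
    apply Real.log_le_log _ (by linarith)
    have := Ell2_one_le (τ := τ) (lt_of_lt_of_le hT hT') t
    linarith
  have h3 := mul_le_mul_of_nonneg_left h2 (by positivity : 0 ≤ 1 / K)
  linarith

theorem el_abs (hK : 0 < K) (hT : 0 < T) (t : ℝ) : |el K T τ t| ≤ sf τ t / (K * T) := by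
  rw [abs_of_nonpos (el_nonpos hK hT t)]
  have h1 : Lf K T τ t ≤ el K T τ t := le_Ps (Ell2_Lf_nonpos hK hT t)
  have h2 := Ell2_le_neg_Lf (τ := τ) hK hT t
  linarith

theorem la_nonneg (hK : 0 < K) (hT : 0 < T) (t : ℝ) : 0 ≤ la K T τ t := by
  unfold la
  have := sf_nonneg τ t
  positivity

theorem Ell2_la_le (hK : 0 < K) (hT : 0 < T) (t : ℝ) : la K T τ t ≤ 1 / (K * T) := by
  unfold la
  have h0 := sf_nonneg τ t
  apply one_div_le_one_div_of_le (by positivity)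
  apply mul_le_mul_of_nonneg_left _ hK.le
  linarith

theorem Dl_nonneg (hK : 0 < K) (hT : 0 < T) (t : ℝ) : 0 ≤ Dl K T τ t := by
  unfold Dl
  rw [deriv_Ps]
  exact mul_nonneg (sg_nonneg _) (la_nonneg hK hT t)

theorem Ml_nonneg (hK : 0 < K) (hT : 0 < T) (t : ℝ) : 0 ≤ Ml K T τ t := by
  unfold Ml
  rw [deriv_Ps, deriv2_Ps]
  have h1 := sg_nonneg (2 * Lf K T τ t + 2)
  have h2 := deriv_sg_nonneg (2 * Lf K T τ t + 2)
  positivity

theorem Dl_le (hK : 0 < K) (hT : 0 < T) (t : ℝ) : Dl K T τ t ≤ 1 / (K * T) := by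
  unfold Dl
  rw [deriv_Ps]
  have h1 := la_nonneg (τ := τ) hK hT t
  calc sg (2 * Lf K T τ t + 2) * la K T τ t ≤ 1 * la K T τ t :=
        mul_le_mul_of_nonneg_right (sg_le_one _) h1
    _ = la K T τ t := one_mul _
    _ ≤ 1 / (K * T) := Ell2_la_le hK hT t

theorem Dl_sq (hK : 0 < K) (hT : 0 < T) (t : ℝ) : Dl K T τ t ^ 2 ≤ Ml K T τ t / K := by
  unfold Dl Ml
  rw [deriv_Ps, deriv2_Ps, le_div_iff₀ hK]
  have h1 := sg_nonneg (2 * Lf K T τ t + 2)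
  have h1' := sg_le_one (2 * Lf K T τ t + 2)
  have h2 := deriv_sg_nonneg (2 * Lf K T τ t + 2)
  have h3 : 0 ≤ la K T τ t ^ 2 := sq_nonneg _
  have h4 : sg (2 * Lf K T τ t + 2) ^ 2 * K ≤
      K * sg (2 * Lf K T τ t + 2) + 2 * deriv sg (2 * Lf K T τ t + 2) := by
    have : sg (2 * Lf K T τ t + 2) ^ 2 ≤ sg (2 * Lf K T τ t + 2) := by nlinarith
    nlinarith
  calc (sg (2 * Lf K T τ t + 2) * la K T τ t) ^ 2 * K
      = (sg (2 * Lf K T τ t + 2) ^ 2 * K) * la K T τ t ^ 2 := by ring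
    _ ≤ _ := mul_le_mul_of_nonneg_right h4 h3

theorem dom_T (hK : 2 * Hc ≤ K) (hT : 1 ≤ T) {T₁ : ℝ} (hT₁ : 2 * Real.exp K * T ≤ T₁) (t : ℝ) :
    (Dl K T τ t = 0 ∧ Ml K T τ t = 0) ∨ (sf τ t ≤ Real.exp K * T ∧
      Dl K T τ t ≤ 2 * T₁ * Dl K T₁ τ t ∧ Ml K T τ t ≤ 8 * T₁ ^ 2 * Ml K T₁ τ t) := by
  have hHc := Hc_ge
  have hK1 : 1 ≤ K := by linarith
  have hK0 : 0 < K := by linarith
  have hT0 : 0 < T := by linarith
  rcases le_or_gt (Lf K T τ t) (-1) with hL | hL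
  · left
    unfold Dl Ml
    rw [deriv_Ps, deriv2_Ps, sg_zero (by linarith), deriv_sg_eq_zero (Or.inl (by linarith))]
    simp
  · right
    have h0 := sf_nonneg τ t
    have hE := Real.exp_pos K
    have hE1 : 1 ≤ Real.exp K := Real.one_le_exp hK0.le
    have hpos : 0 < 1 + sf τ t / T := by
      have := Ell2_one_le (τ := τ) hT0 t
      linarith
    have hlog : Real.log (1 + sf τ t / T) < K := by
      unfold Lf at hL
      by_contra hcon
      have h1 := mul_le_mul_of_nonneg_left (not_lt.1 hcon) (by positivity : 0 ≤ 1 / K)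
      rw [one_div_mul_cancel hK0.ne'] at h1
      linarith
    have hsf1 : 1 + sf τ t / T < Real.exp K := (Real.log_lt_iff_lt_exp hpos).1 hlog
    have hsf : sf τ t ≤ Real.exp K * T := by
      have h1 : sf τ t / T ≤ Real.exp K := by linarith
      rwa [div_le_iff₀ hT0] at h1
    have hT₁0 : 0 < T₁ := lt_of_lt_of_le (by positivity) hT₁
    have hsfT : sf τ t ≤ T₁ / 2 := by nlinarith
    have hL1 : -(1 / 2) ≤ Lf K T₁ τ t := by
      have h1 := Ell2_le_neg_Lf (τ := τ) hK0 hT₁0 t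
      have h2 : sf τ t / (K * T₁) ≤ 1 / 2 := by
        rw [div_le_iff₀ (by positivity)]
        nlinarith
      linarith
    have hd1 : sg (2 * Lf K T₁ τ t + 2) = 1 := sg_one (by linarith)
    have hd2 : deriv sg (2 * Lf K T₁ τ t + 2) = 0 := deriv_sg_eq_zero (Or.inr (by linarith))
    have hla : 1 / (2 * K * T₁) ≤ la K T₁ τ t := by
      unfold la
      apply one_div_le_one_div_of_le (by positivity)
      nlinarith
    have hDT₁ : Dl K T₁ τ t = la K T₁ τ t := by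
      unfold Dl
      rw [deriv_Ps, hd1, one_mul]
    have hMT₁ : Ml K T₁ τ t = K * la K T₁ τ t ^ 2 := by
      unfold Ml
      rw [deriv_Ps, deriv2_Ps, hd1, hd2]
      ring
    have hlaT : la K T τ t ≤ 1 / K := by
      refine (Ell2_la_le hK0 hT0 t).trans ?_
      apply one_div_le_one_div_of_le hK0
      nlinarith
    have hla0 := la_nonneg (τ := τ) hK0 hT0 t
    refine ⟨hsf, ?_, ?_⟩
    · rw [hDT₁]
      have h1 : Dl K T τ t ≤ 1 / K := by
        unfold Dl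
        rw [deriv_Ps]
        calc sg (2 * Lf K T τ t + 2) * la K T τ t ≤ 1 * la K T τ t :=
              mul_le_mul_of_nonneg_right (sg_le_one _) hla0
          _ ≤ 1 / K := by rw [one_mul]; exact hlaT
      have h2 : 1 / K = 2 * T₁ * (1 / (2 * K * T₁)) := by field_simp
      calc Dl K T τ t ≤ 1 / K := h1
        _ = 2 * T₁ * (1 / (2 * K * T₁)) := h2
        _ ≤ 2 * T₁ * la K T₁ τ t := mul_le_mul_of_nonneg_left hla (by positivity)
    · rw [hMT₁]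
      have h1 : Ml K T τ t ≤ 2 / K := by
        unfold Ml
        rw [deriv_Ps, deriv2_Ps]
        have h3 := sg_nonneg (2 * Lf K T τ t + 2)
        have h3' := sg_le_one (2 * Lf K T τ t + 2)
        have h4 := deriv_sg_nonneg (2 * Lf K T τ t + 2)
        have h4' := deriv_sg_le (2 * Lf K T τ t + 2)
        have h5 : K * sg (2 * Lf K T τ t + 2) + 2 * deriv sg (2 * Lf K T τ t + 2) ≤ 2 * K := by
          nlinarith
        have h6 : la K T τ t ^ 2 ≤ (1 / K) ^ 2 := pow_le_pow_left₀ hla0 hlaT 2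
        calc (K * sg (2 * Lf K T τ t + 2) + 2 * deriv sg (2 * Lf K T τ t + 2)) *
              la K T τ t ^ 2 ≤ 2 * K * (1 / K) ^ 2 :=
              mul_le_mul h5 h6 (by positivity) (by positivity)
          _ = 2 / K := by field_simp
      have h2 : 2 / K = 8 * T₁ ^ 2 * (K * (1 / (2 * K * T₁)) ^ 2) := by field_simp; norm_num
      calc Ml K T τ t ≤ 2 / K := h1
        _ = 8 * T₁ ^ 2 * (K * (1 / (2 * K * T₁)) ^ 2) := h2
        _ ≤ 8 * T₁ ^ 2 * (K * la K T₁ τ t ^ 2) := by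
            apply mul_le_mul_of_nonneg_left _ (by positivity)
            apply mul_le_mul_of_nonneg_left _ hK0.le
            exact pow_le_pow_left₀ (by positivity) hla 2

end Pool.Agent.H50.CS
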