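import Pool.Agent.H50.CS.Taylor
import Pool.Agent.H8.FZ.Moll

/-!
# CS-MOLLP: local smooth approximation of continuous psh functions

`u` continuous psh on the open `Ω`, `V` open with compact closure in `Ω`. Then there are smooth functions
`v_k`, psh on `V`, converging to `u` uniformly on `V`.

Proof. If `V = ∅` trivial. `closure V` is compact in the open `Ω`, so there is `d > 0` with the closed
`2d`-neighbourhood `L` of `closure V` compact and contained in `Ω` (`IsCompact.exists_cthickening_subset_open`).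
Let `ũ = u` on `L`, `0` off `L` (`indicator`): bounded, measurable, so locally integrable. For a mollifier
`κ` with `IsMoll κ δ` (`exists_isMoll`, `δ < d`), `v(x) = ∫ κ(x-y) ũ(y) dy` (real part of `mol κ ũ`) is `C^∞`
(`mol_contDiff`). For `x ∈ V`: `v(x) = ∫ κ(y) u(x-y) dy` (`κ(y) = 0` for `‖y‖ ≥ δ`, and `x - y ∈ L`), hence
* `|v(x) - u(x)| ≤ sup_{‖y‖≤δ} |u(x-y) - u(x)|`, which tends to `0` uniformly on `V` as `δ → 0` (uniform
  continuity of `u` on the compact `L`);
* for `x ∈ V`, `w` and small `r`: the disc `x - y + ζ r w`, `‖ζ‖≤1`, lies in `Ω`, so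
  `v(x) = ∫κ(y)u(x-y)dy ≤ ∫ κ(y) (2π)⁻¹∫u(x-y+re^{iθ}w)dθ dy = (2π)⁻¹∫ v(x+re^{iθ}w)dθ` (Fubini; all
  points `x + re^{iθ}w` in `V` for small `r`), so `levi v x w ≥ 0` by `levi_nonneg_of_mean`.
Take `δ = δ_k → 0`.
-/

set_option autoImplicit false

noncomputable section

namespace Pool.Agent.H50.CS

open Complex Metric MeasureTheory Set Filter Topology
open scoped ContDiff ComplexConjugate
open Pool.Agent.H8.FZ

variable {n : ℕ}

/-- Mollification of a real function. -/
def MollP_m (κ u : En n → ℝ) (x : En n) : ℝ := ∫ t, κ t * u (x - t)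

theorem MollP_m_eq (κ u : En n → ℝ) : MollP_m κ u =
    MeasureTheory.convolution κ u (ContinuousLinearMap.lsmul ℝ ℝ) volume := by
  funext x
  rw [MollP_m, convolution]
  rfl

theorem MollP_contDiff {κ : En n → ℝ} {δ : ℝ} (hκ : IsMoll κ δ) {u : En n → ℝ}
    (hu : Continuous u) : ContDiff ℝ ∞ (MollP_m κ u) := by
  rw [MollP_m_eq]
  exact hκ.moll1_hcs.contDiff_convolution_left _ hκ.smooth hu.locallyIntegrable

theorem MollP_integrable {κ : En n → ℝ} {δ : ℝ} (hκ : IsMoll κ δ) {u : En n → ℝ}
    (hu : Continuous u) (x : En n) : Integrable fun t => κ t * u (x - t) := by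
  refine Continuous.integrable_of_hasCompactSupport ?_ ?_
  · exact hκ.smooth.continuous.mul (hu.comp (continuous_const.sub continuous_id))
  · exact hκ.moll1_hcs.mul_right

theorem MollP_close {κ : En n → ℝ} {δ : ℝ} (hκ : IsMoll κ δ) {u : En n → ℝ}
    (hu : Continuous u) {x : En n} {ε : ℝ} (h : ∀ t, ‖t‖ < δ → |u (x - t) - u x| ≤ ε) :
    |MollP_m κ u x - u x| ≤ ε := by
  have hκi : Integrable κ := hκ.smooth.continuous.integrable_of_hasCompactSupport hκ.moll1_hcs
  have e : MollP_m κ u x - u x = ∫ t, κ t * (u (x - t) - u x) := by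
    have : u x = ∫ t, κ t * u x := by
      rw [integral_mul_const, hκ.mass, one_mul]
    conv_lhs => rw [MollP_m, this]
    rw [← integral_sub (MollP_integrable hκ hu x) (hκi.mul_const _)]
    refine integral_congr_ae (Eventually.of_forall fun t => ?_)
    simp only
    ring
  rw [e]
  calc |∫ t, κ t * (u (x - t) - u x)| ≤ ∫ t, κ t * ε := by
        rw [← Real.norm_eq_abs]
        refine norm_integral_le_of_norm_le (hκi.mul_const _) (Eventually.of_forall fun t => ?_)
        rw [Real.norm_eq_abs, abs_mul, abs_of_nonneg (hκ.nonneg t)]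
        by_cases ht : ‖t‖ < δ
        · exact mul_le_mul_of_nonneg_left (h t ht) (hκ.nonneg t)
        · rw [hκ.supp t (not_lt.1 ht), zero_mul, zero_mul]
    _ = ε := by rw [integral_mul_const, hκ.mass, one_mul]

theorem MollP_mean {κ : En n → ℝ} {δ : ℝ} (hκ : IsMoll κ δ) {u : En n → ℝ}
    (hu : Continuous u) (hcu : HasCompactSupport u) {x b : En n}
    (h : ∀ t, ‖t‖ < δ → u (x - t) ≤ (2 * Real.pi)⁻¹ *
      ∫ θ in (0 : ℝ)..(2 * Real.pi), u (x - t + Complex.exp (θ * I) • b)) :
    MollP_m κ u x ≤ (2 * Real.pi)⁻¹ *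
      ∫ θ in (0 : ℝ)..(2 * Real.pi), MollP_m κ u (x + Complex.exp (θ * I) • b) := by
  obtain ⟨M, hM⟩ := hcu.exists_bound_of_continuous hu
  have hκi : Integrable κ := hκ.smooth.continuous.integrable_of_hasCompactSupport hκ.moll1_hcs
  have hpi : (0 : ℝ) ≤ 2 * Real.pi := by positivity
  have hcexp : Continuous fun θ : ℝ => Complex.exp (θ * I) :=
    Complex.continuous_exp.comp (Complex.continuous_ofReal.mul continuous_const)
  have hF : Integrable (fun z : ℝ × En n => κ z.2 * u (x - z.2 + Complex.exp (z.1 * I) • b))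
      ((volume.restrict (Ioc 0 (2 * Real.pi))).prod volume) := by
    have hg : Integrable (fun z : ℝ × En n => M * κ z.2)
        ((volume.restrict (Ioc 0 (2 * Real.pi))).prod volume) :=
      Integrable.mul_prod (f := fun _ : ℝ => M) (integrable_const M) hκi
    refine hg.mono' ?_ (Eventually.of_forall fun z => ?_)
    · refine Continuous.aestronglyMeasurable ?_
      refine (hκ.smooth.continuous.comp continuous_snd).mul (hu.comp ?_)
      exact (continuous_const.sub continuous_snd).add
        ((hcexp.comp continuous_fst).smul continuous_const)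
    · rw [Real.norm_eq_abs, abs_mul, abs_of_nonneg (hκ.nonneg _), mul_comm]
      exact mul_le_mul_of_nonneg_right (hM _) (hκ.nonneg _)
  have hswap : (∫ θ in (0 : ℝ)..(2 * Real.pi), MollP_m κ u (x + Complex.exp (θ * I) • b)) =
      ∫ t, κ t * ∫ θ in (0 : ℝ)..(2 * Real.pi), u (x - t + Complex.exp (θ * I) • b) := by
    rw [intervalIntegral.integral_of_le hpi]
    have e1 : ∀ θ : ℝ, MollP_m κ u (x + Complex.exp (θ * I) • b) =
        ∫ t, κ t * u (x - t + Complex.exp (θ * I) • b) := by
      intro θ
      rw [MollP_m]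
      refine integral_congr_ae (Eventually.of_forall fun t => ?_)
      simp only
      congr 2
      abel
    simp_rw [e1]
    rw [integral_integral_swap hF]
    refine integral_congr_ae (Eventually.of_forall fun t => ?_)
    simp only
    rw [intervalIntegral.integral_of_le hpi, ← integral_const_mul]
  have hint : Integrable fun t => κ t * ((2 * Real.pi)⁻¹ *
      ∫ θ in (0 : ℝ)..(2 * Real.pi), u (x - t + Complex.exp (θ * I) • b)) := by
    have h1 := hF.integral_prod_right
    refine (h1.const_mul (2 * Real.pi)⁻¹).congr (Eventually.of_forall fun t => ?_)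
    simp only
    rw [intervalIntegral.integral_of_le hpi, integral_const_mul]
    ring
  rw [hswap, ← integral_const_mul]
  rw [MollP_m]
  calc ∫ t, κ t * u (x - t) ≤ ∫ t, κ t * ((2 * Real.pi)⁻¹ *
      ∫ θ in (0 : ℝ)..(2 * Real.pi), u (x - t + Complex.exp (θ * I) • b)) := by
        refine integral_mono (MollP_integrable hκ hu x) hint fun t => ?_
        by_cases ht : ‖t‖ < δ
        · exact mul_le_mul_of_nonneg_left (h t ht) (hκ.nonneg t)
        · simp only [hκ.supp t (not_lt.1 ht), zero_mul, le_refl]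
    _ = _ := by
        refine integral_congr_ae (Eventually.of_forall fun t => ?_)
        simp only
        ring

theorem exists_smooth_approx {Ω : Set (En n)} (hΩ : IsOpen Ω) {u : En n → ℝ} (hu : ContPsh Ω u)
    {V : Set (En n)} (hV : IsOpen V) (hVc : IsCompact (closure V)) (hVΩ : closure V ⊆ Ω) :
    ∃ v : ℕ → En n → ℝ, (∀ k, ContDiff ℝ ∞ (v k)) ∧ (∀ k, SmoothPsh V (v k)) ∧
      TendstoUniformlyOn v u atTop V := by
  obtain ⟨d, hd, hdΩ⟩ := hVc.exists_cthickening_subset_open hΩ hVΩ
  have hLc : IsCompact (cthickening d (closure V)) := hVc.cthickening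
  -- cut-off
  have hKc : IsCompact (cthickening (d / 2) (closure V)) := hVc.cthickening
  have hsub : cthickening (d / 2) (closure V) ⊆ thickening d (closure V) :=
    cthickening_subset_thickening' hd (by linarith) _
  obtain ⟨f, hf1, hf0, -, -⟩ := exists_continuous_one_zero_of_isCompact hKc
    (isOpen_thickening (δ := d) (E := closure V)).isClosed_compl
    (disjoint_compl_right_iff_subset.2 hsub)
  set U : En n → ℝ := fun x => f x * u x with hU
  have hU0 : ∀ x, x ∉ cthickening d (closure V) → U x = 0 := by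
    intro x hx
    have : x ∈ (thickening d (closure V))ᶜ := fun h => hx (thickening_subset_cthickening _ _ h)
    rw [hU]
    simp only
    rw [hf0 this, Pi.zero_apply, zero_mul]
  have hUc : Continuous U := by
    rw [continuous_iff_continuousAt]
    intro x
    by_cases hx : x ∈ Ω
    · exact f.continuous.continuousAt.mul (hu.1.continuousAt (hΩ.mem_nhds hx))
    · have hx' : x ∈ (cthickening d (closure V))ᶜ := fun h => hx (hdΩ h)
      have hn : (cthickening d (closure V))ᶜ ∈ 𝓝 x := isClosed_cthickening.isOpen_compl.mem_nhds hx'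
      refine (continuousAt_const (y := (0 : ℝ))).congr ?_
      filter_upwards [hn] with y hy
      exact (hU0 y hy).symm
  have hUcs : HasCompactSupport U := HasCompactSupport.intro hLc fun x hx => hU0 x hx
  have hUe : ∀ x, x ∈ cthickening (d / 2) (closure V) → U x = u x := by
    intro x hx
    rw [hU]
    simp only
    rw [hf1 hx, Pi.one_apply, one_mul]
  have hmem : ∀ x ∈ V, ∀ s : En n, ‖s‖ ≤ d / 2 → x + s ∈ cthickening (d / 2) (closure V) := by
    intro x hx s hs
    refine mem_cthickening_of_dist_le (x + s) x _ _ (subset_closure hx) ?_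
    rw [dist_eq_norm, add_sub_cancel_left]
    exact hs
  have hδ : ∀ k : ℕ, 0 < d / 4 / ((k : ℝ) + 1) := fun k => by positivity
  have hδ' : ∀ k : ℕ, d / 4 / ((k : ℝ) + 1) ≤ d / 4 := fun k =>
    div_le_self (by positivity) (by linarith [(Nat.cast_nonneg k : (0 : ℝ) ≤ k)])
  choose κ hκ using fun k => exists_isMoll n (hδ k)
  refine ⟨fun k => MollP_m (κ k) U, fun k => MollP_contDiff (hκ k) hUc, fun k => ⟨(MollP_contDiff (hκ k) hUc).contDiffOn, ?_⟩, ?_⟩
  · intro x hx w
    refine levi_nonneg_of_mean (r₀ := d / 4 / (‖w‖ + 1)) ((MollP_contDiff (hκ k) hUc).contDiffAt.of_le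
      (WithTop.coe_le_coe.2 le_top)) w (by positivity) ?_
    intro r hr hr'
    have hrw : r * ‖w‖ ≤ d / 4 := by
      have h1 : r * (‖w‖ + 1) < d / 4 := (lt_div_iff₀ (by positivity)).1 hr'
      nlinarith
    have h2 := MollP_mean (hκ k) hUc hUcs (x := x) (b := (r : ℂ) • w) ?_
    · simp_rw [smul_comm (r : ℂ) _ w]
      exact h2
    · intro t ht
      have ht' : ‖t‖ ≤ d / 4 := ht.le.trans (hδ' k)
      have hz : ∀ ζ : ℂ, ‖ζ‖ ≤ 1 → x - t + ζ • ((r : ℂ) • w) ∈ cthickening (d / 2) (closure V) := by
        intro ζ hζ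
        have e : x - t + ζ • ((r : ℂ) • w) = x + (-t + ζ • ((r : ℂ) • w)) := by abel
        rw [e]
        refine hmem x hx _ ?_
        calc ‖-t + ζ • ((r : ℂ) • w)‖ ≤ ‖-t‖ + ‖ζ • ((r : ℂ) • w)‖ := norm_add_le _ _
          _ ≤ d / 4 + d / 4 := by
            refine add_le_add (by rwa [norm_neg]) ?_
            rw [norm_smul, norm_smul, Complex.norm_real, Real.norm_eq_abs, abs_of_pos hr]
            calc ‖ζ‖ * (r * ‖w‖) ≤ 1 * (r * ‖w‖) :=
                  mul_le_mul_of_nonneg_right hζ (by positivity)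
              _ ≤ d / 4 := by rw [one_mul]; exact hrw
          _ = d / 2 := by ring
      have hdd : cthickening (d / 2) (closure V) ⊆ Ω := fun y hy => hdΩ
        (cthickening_mono (by linarith) _ hy)
      have h3 := hu.2 (x - t) ((r : ℂ) • w) fun ζ hζ => hdd (hz ζ hζ)
      have h4 : U (x - t) = u (x - t) := hUe _ (by simpa using hz 0 (by simp))
      rw [h4]
      refine h3.trans (le_of_eq ?_)
      congr 1
      refine intervalIntegral.integral_congr fun θ _ => ?_
      exact (hUe _ (hz _ (by rw [Complex.norm_exp_ofReal_mul_I]))).symm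
  · rw [Metric.tendstoUniformlyOn_iff]
    intro ε hε
    have huc : UniformContinuous U := hUcs.uniformContinuous_of_continuous hUc
    obtain ⟨η, hη, hη'⟩ := Metric.uniformContinuous_iff.1 huc (ε / 2) (by positivity)
    have ht : Tendsto (fun k : ℕ => d / 4 / ((k : ℝ) + 1)) atTop (𝓝 0) :=
      tendsto_const_nhds.div_atTop (tendsto_natCast_atTop_atTop.atTop_add tendsto_const_nhds)
    filter_upwards [ht.eventually (gt_mem_nhds hη)] with k hk x hx
    have h1 := MollP_close (hκ k) hUc (x := x) (ε := ε / 2) ?_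
    · rw [dist_comm, Real.dist_eq, ← hUe x (by simpa using hmem x hx 0 (by simp; positivity))]
      linarith
    · intro t ht
      have := hη' (a := x - t) (b := x) (by
        rw [dist_eq_norm, sub_sub_cancel_left, norm_neg]; linarith)
      rw [Real.dist_eq] at this
      exact this.le

end Pool.Agent.H50.CS
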