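import Pool.Agent.H50.CS.CauchyB
import Pool.Agent.H50.CS.MollP

/-!
# CS-EXIST: existence and uniqueness of the Monge-Ampère measure of a continuous psh function in `ℂ³`

`u` continuous psh on the open `Ω ⊆ ℂ³`.

* `cauchy_cont`: `V ⊆ Ω` open, `p_k, q_k` smooth psh on `V`, both `→ u` uniformly on `V`, `χ` continuous with
  compact support in `V`. Then `∫χ ma p_k` is a Cauchy sequence and `∫χ ma p_k - ∫χ ma q_k → 0`.
  Proof: choose an open `V'` with compact closure, `tsupport χ ⊆ V' ⊆ closure V' ⊆ V`; `u` is bounded on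
  `V'`, so `|p_k|,|q_k| ≤ M` there for large `k`. For smooth `χ`: `cauchy_bound`. In general take smooth `χ'`
  with compact support in `V'` and `|χ - χ'| ≤ η` everywhere, support in a fixed compact `K ⊆ V'` (convolve
  `χ` with a mollifier, FZ/Moll), and `∫_K ma p_k ≤ C M³` by `mass_ma`.
* `exists_lim`: for every continuous `χ` with compact support in `Ω` there is a unique real `Λ χ` such that
  `∫χ (c ma v_k) → Λχ` for every open `V ⊆ Ω` containing `tsupport χ` and every sequence `v_k` of smooth psh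
  functions on `V` converging to `u` uniformly on `V`: `exists_smooth_approx` on a relatively compact
  `V₀ ⊇ tsupport χ` gives one sequence, whose limit is `Λχ`; for another `(V, v_k)` apply `cauchy_cont` on
  `V ∩ V₀`.
* `Λ` is linear and `Λχ ≥ 0` for `χ ≥ 0` (`ma_nonneg`); Riesz-Markov
  (`RealRMK.rieszMeasure`, `RealRMK.integral_rieszMeasure`) on the locally compact space `Ω` (subtype of an
  open set; a function in `C_c(Ω, ℝ)` extended by zero is continuous with compact support in `Ω`) gives the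
  measure; `ν` = its image under `Subtype.val`.
* uniqueness: two measures finite on compacts of `Ω`, carried by `Ω`, with the same integrals of all
  continuous functions with compact support in `Ω` are equal (again in the subtype `Ω`: regular measures;
  or compare the measures of compact sets `K` via cut-offs decreasing to `1_K`, and use that the compact
  subsets of `Ω` are a π-system generating the Borel sets).
(This file: cauchy_cont, exists_lim.)
-/

set_option autoImplicit false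

noncomputable section

namespace Pool.Agent.H50.CS

open Complex Metric MeasureTheory Set Filter Topology
open scoped ContDiff ComplexConjugate
open Pool.Agent.H8.FZ

theorem exist1_smoothPsh_mono {n : ℕ} {V W : Set (En n)} (h : W ⊆ V) {v : En n → ℝ}
    (hv : SmoothPsh V v) : SmoothPsh W v :=
  ⟨hv.1.mono h, fun x hx w => hv.2 x (h hx) w⟩

/-- continuity of `χ · ma P` -/
theorem exist1_cont {V : Set (En 3)} (hV : IsOpen V) {P : En 3 → ℝ} (hP : SmoothPsh V P)
    {χ : En 3 → ℝ} (hχ : Continuous χ) (hχV : tsupport χ ⊆ V) :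
    Continuous (fun x => χ x * ma P x) := by
  have h1 : ContinuousOn (fun x => χ x * ma P x) V :=
    hχ.continuousOn.mul (continuousOn_ma hV hP.1)
  apply continuous_of_tsupport
  intro x hx
  have hx' : x ∈ tsupport χ := by
    apply closure_mono _ hx
    intro y hy
    simp only [Function.mem_support] at hy ⊢
    intro h0
    apply hy
    rw [h0, zero_mul]
  exact h1.continuousAt (hV.mem_nhds (hχV hx'))

theorem exist1_int {V : Set (En 3)} (hV : IsOpen V) {P : En 3 → ℝ} (hP : SmoothPsh V P)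
    {χ : En 3 → ℝ} (hχ : Continuous χ) (hχc : HasCompactSupport χ) (hχV : tsupport χ ⊆ V) :
    Integrable (fun x => χ x * ma P x) :=
  (exist1_cont hV hP hχ hχV).integrable_of_hasCompactSupport hχc.mul_right

theorem exist1_ma_nonneg {V : Set (En 3)} (hV : IsOpen V) {P : En 3 → ℝ} (hP : SmoothPsh V P)
    {x : En 3} (hx : x ∈ V) : 0 ≤ ma P x := by
  refine ma_nonneg ?_ (hP.2 x hx)
  exact ((hP.1 x hx).contDiffAt (hV.mem_nhds hx)).of_le (WithTop.coe_le_coe.2 (le_top : (2 : ℕ∞) ≤ ⊤))

/-- replacing the test function by a nearby one -/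
theorem exist1_change {V : Set (En 3)} (hV : IsOpen V) {P : En 3 → ℝ} (hP : SmoothPsh V P)
    {χ χ' : En 3 → ℝ} (hχ : Continuous χ) (hχc : HasCompactSupport χ) (hχV : tsupport χ ⊆ V)
    (hχ' : Continuous χ') (hsup : Function.support χ' ⊆ Function.support χ) {η B : ℝ}
    (hη : ∀ x, |χ' x - χ x| ≤ η) (hB : ∫ x in tsupport χ, ma P x ≤ B) (hη0 : 0 ≤ η) :
    |(∫ x, χ x * ma P x) - ∫ x, χ' x * ma P x| ≤ η * B := by
  have hsup' : tsupport χ' ⊆ tsupport χ := closure_mono hsup
  have hχc' : HasCompactSupport χ' := hχc.mono hsup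
  have hcont : ContinuousOn (ma P) V := continuousOn_ma hV hP.1
  rw [← integral_sub (exist1_int hV hP hχ hχc hχV) (exist1_int hV hP hχ' hχc' (hsup'.trans hχV))]
  have hset : ∫ x, (χ x * ma P x - χ' x * ma P x) =
      ∫ x in tsupport χ, (χ x * ma P x - χ' x * ma P x) := by
    symm
    apply setIntegral_eq_integral_of_forall_compl_eq_zero
    intro x hx
    have h1 : χ x = 0 := image_eq_zero_of_notMem_tsupport hx
    have h2 : χ' x = 0 := image_eq_zero_of_notMem_tsupport (fun h => hx (hsup' h))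
    rw [h1, h2]; ring
  rw [hset]
  have hint : IntegrableOn (fun x => ma P x) (tsupport χ) :=
    (hcont.mono hχV).integrableOn_compact hχc
  calc |∫ x in tsupport χ, (χ x * ma P x - χ' x * ma P x)|
      ≤ ∫ x in tsupport χ, |χ x * ma P x - χ' x * ma P x| := abs_integral_le_integral_abs
    _ ≤ ∫ x in tsupport χ, η * ma P x := by
        apply setIntegral_mono_on
        · exact ((exist1_int hV hP hχ hχc hχV).sub
            (exist1_int hV hP hχ' hχc' (hsup'.trans hχV))).abs.integrableOn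
        · exact hint.const_mul η
        · exact (isClosed_tsupport χ).measurableSet
        · intro x hx
          have h0 := exist1_ma_nonneg hV hP (hχV hx)
          have h1 : χ x * ma P x - χ' x * ma P x = -(χ' x - χ x) * ma P x := by ring
          rw [h1, abs_mul, abs_neg, abs_of_nonneg h0]
          exact mul_le_mul_of_nonneg_right (hη x) h0
    _ = η * ∫ x in tsupport χ, ma P x := integral_const_mul _ _
    _ ≤ η * B := mul_le_mul_of_nonneg_left hB hη0

theorem exist1_aux {V : Set (En 3)} (hV : IsOpen V) {u : En 3 → ℝ} (hu : ContinuousOn u V)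
    {χ : En 3 → ℝ} (hχ : Continuous χ) (hχc : HasCompactSupport χ) (hχV : tsupport χ ⊆ V)
    {ε : ℝ} (hε : 0 < ε) : ∃ δ > 0, ∀ P Q : En 3 → ℝ, SmoothPsh V P → SmoothPsh V Q →
      (∀ x ∈ V, |u x - P x| < δ) → (∀ x ∈ V, |u x - Q x| < δ) →
      |(∫ x, χ x * ma P x) - ∫ x, χ x * ma Q x| < ε := by
  obtain ⟨W, hW, hKW, hWV, hWc⟩ := exists_open_between_and_isCompact_closure hχc hV hχV
  obtain ⟨M₀, hM₀⟩ := hWc.exists_bound_of_continuousOn (hu.mono hWV)
  set M : ℝ := max M₀ 0 + 1 with hM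
  have hM0 : 0 ≤ M := by positivity
  obtain ⟨C, hC0, hC⟩ := mass_ma hW hχc hKW
  obtain ⟨χ', hχ's, hχ'a, hsup⟩ := hχ.exists_contDiff_approx (n := ⊤)
    (ε := fun _ => ε / (4 * (C * M ^ 3 + 1))) continuous_const (fun _ => by positivity)
  have hsup' : tsupport χ' ⊆ tsupport χ := closure_mono hsup
  have hχc' : HasCompactSupport χ' := hχc.mono hsup
  obtain ⟨C', hC'0, hC'⟩ := cauchy_bound hW (hχ's.of_le (by exact_mod_cast le_rfl)) hχc'
    (hsup'.trans hKW)
  refine ⟨min 1 (ε / (8 * (C' * M ^ 2 + 1))), by positivity, ?_⟩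
  intro P Q hP hQ hPu hQu
  have hWV' : W ⊆ V := subset_closure.trans hWV
  have hPW := exist1_smoothPsh_mono hWV' hP
  have hQW := exist1_smoothPsh_mono hWV' hQ
  have hbd : ∀ R : En 3 → ℝ, (∀ x ∈ V, |u x - R x| < min 1 (ε / (8 * (C' * M ^ 2 + 1)))) →
      ∀ x ∈ W, |R x| ≤ M := by
    intro R hR x hx
    have h1 := hR x (hWV' hx)
    have h2 := hM₀ x (subset_closure hx)
    rw [Real.norm_eq_abs] at h2
    have h3 : |R x| ≤ |u x| + |u x - R x| := by
      have := abs_sub_abs_le_abs_sub (R x) (u x)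
      rw [abs_sub_comm] at this
      linarith
    have h4 := min_le_left (1 : ℝ) (ε / (8 * (C' * M ^ 2 + 1)))
    have h5 := le_max_left M₀ 0
    linarith
  set η : ℝ := ε / (4 * (C * M ^ 3 + 1)) with hη
  have hη0 : 0 ≤ η := by positivity
  have hχ'η : ∀ x, |χ' x - χ x| ≤ η := fun x => by
    have := hχ'a x
    rw [Real.dist_eq] at this
    exact this.le
  have c1 := exist1_change hW hPW hχ hχc hKW hχ's.continuous hsup hχ'η
    (hC P M hM0 hPW (hbd P hPu)) hη0
  have c2 := exist1_change hW hQW hχ hχc hKW hχ's.continuous hsup hχ'η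
    (hC Q M hM0 hQW (hbd Q hQu)) hη0
  have c3 := hC' P Q M (2 * min 1 (ε / (8 * (C' * M ^ 2 + 1)))) hM0 hPW hQW (hbd P hPu)
    (hbd Q hQu) (fun x hx => by
      have h1 := hPu x (hWV' hx)
      have h2 := hQu x (hWV' hx)
      have h3 : P x - Q x = (u x - Q x) - (u x - P x) := by ring
      rw [h3]
      have := abs_sub (u x - Q x) (u x - P x)
      linarith)
  have hsplit : ∫ x, χ' x * (ma P x - ma Q x) =
      (∫ x, χ' x * ma P x) - ∫ x, χ' x * ma Q x := by
    rw [← integral_sub (exist1_int hW hPW hχ's.continuous hχc' (hsup'.trans hKW))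
      (exist1_int hW hQW hχ's.continuous hχc' (hsup'.trans hKW))]
    congr 1; funext x; ring
  rw [hsplit] at c3
  have e1 : η * (C * M ^ 3) ≤ ε / 4 := by
    rw [hη, div_mul_eq_mul_div, div_le_div_iff₀ (by positivity) (by norm_num)]
    nlinarith [mul_nonneg hC0 (pow_nonneg hM0 3)]
  have e2 : C' * M ^ 2 * (2 * min 1 (ε / (8 * (C' * M ^ 2 + 1)))) ≤ ε / 4 := by
    have h0 : 0 ≤ C' * M ^ 2 := by positivity
    calc C' * M ^ 2 * (2 * min 1 (ε / (8 * (C' * M ^ 2 + 1))))
        ≤ C' * M ^ 2 * (2 * (ε / (8 * (C' * M ^ 2 + 1)))) := by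
          apply mul_le_mul_of_nonneg_left _ h0
          exact mul_le_mul_of_nonneg_left (min_le_right _ _) (by norm_num)
      _ = (C' * M ^ 2) * ε / (4 * (C' * M ^ 2 + 1)) := by field_simp; ring
      _ ≤ ε / 4 := by
          rw [div_le_div_iff₀ (by positivity) (by norm_num)]
          nlinarith
  rw [abs_le] at c1 c2 c3
  rw [abs_lt]
  constructor <;> linarith [c1.1, c1.2, c2.1, c2.2, c3.1, c3.2]

theorem cauchy_cont {V : Set (En 3)} (hV : IsOpen V) {u : En 3 → ℝ} (hu : ContinuousOn u V)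
    {p q : ℕ → En 3 → ℝ} (hp : ∀ k, SmoothPsh V (p k)) (hq : ∀ k, SmoothPsh V (q k))
    (hpu : TendstoUniformlyOn p u atTop V) (hqu : TendstoUniformlyOn q u atTop V)
    {χ : En 3 → ℝ} (hχ : Continuous χ) (hχc : HasCompactSupport χ) (hχV : tsupport χ ⊆ V) :
    CauchySeq (fun k => ∫ x, χ x * ma (p k) x) ∧
      Tendsto (fun k => (∫ x, χ x * ma (p k) x) - ∫ x, χ x * ma (q k) x) atTop (𝓝 0) := by
  rw [Metric.tendstoUniformlyOn_iff] at hpu hqu
  constructor
  · rw [Metric.cauchySeq_iff]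
    intro ε hε
    obtain ⟨δ, hδ, h⟩ := exist1_aux hV hu hχ hχc hχV hε
    obtain ⟨N, hN⟩ := eventually_atTop.1 (hpu δ hδ)
    refine ⟨N, fun m hm k hk => ?_⟩
    rw [Real.dist_eq]
    exact h _ _ (hp m) (hp k) (fun x hx => by have := hN m hm x hx; rwa [Real.dist_eq] at this)
      (fun x hx => by have := hN k hk x hx; rwa [Real.dist_eq] at this)
  · rw [Metric.tendsto_atTop]
    intro ε hε
    obtain ⟨δ, hδ, h⟩ := exist1_aux hV hu hχ hχc hχV hε
    obtain ⟨N, hN⟩ := eventually_atTop.1 ((hpu δ hδ).and (hqu δ hδ))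
    refine ⟨N, fun m hm => ?_⟩
    rw [Real.dist_eq, sub_zero]
    exact h _ _ (hp m) (hq m)
      (fun x hx => by have := (hN m hm).1 x hx; rwa [Real.dist_eq] at this)
      (fun x hx => by have := (hN m hm).2 x hx; rwa [Real.dist_eq] at this)

theorem exists_lim {Ω : Set (En 3)} (hΩ : IsOpen Ω) {u : En 3 → ℝ} (hu : ContPsh Ω u)
    {χ : En 3 → ℝ} (hχ : Continuous χ) (hχc : HasCompactSupport χ) (hχΩ : tsupport χ ⊆ Ω) :
    ∃ L : ℝ, ∀ V, IsOpen V → V ⊆ Ω → tsupport χ ⊆ V → ∀ v : ℕ → En 3 → ℝ,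
      (∀ k, SmoothPsh V (v k)) → TendstoUniformlyOn v u atTop V →
      Tendsto (fun k => ∫ x, χ x * (maC 3 * ma (v k) x)) atTop (𝓝 L) := by
  obtain ⟨V₀, hV₀, hKV₀, hV₀Ω, hV₀c⟩ := exists_open_between_and_isCompact_closure hχc hΩ hχΩ
  obtain ⟨v₀, -, hv₀, hv₀u⟩ := exists_smooth_approx hΩ hu hV₀ hV₀c hV₀Ω
  have hV₀Ω' : V₀ ⊆ Ω := subset_closure.trans hV₀Ω
  have hcau := (cauchy_cont hV₀ (hu.1.mono hV₀Ω') hv₀ hv₀ hv₀u hv₀u hχ hχc hKV₀).1
  obtain ⟨L₀, hL₀⟩ := cauchySeq_tendsto_of_complete hcau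
  refine ⟨maC 3 * L₀, ?_⟩
  intro V hV hVΩ hχV v hv hvu
  have h2 := (cauchy_cont (hV.inter hV₀) (hu.1.mono (inter_subset_left.trans hVΩ))
    (fun k => exist1_smoothPsh_mono inter_subset_left (hv k))
    (fun k => exist1_smoothPsh_mono inter_subset_right (hv₀ k))
    (hvu.mono inter_subset_left) (hv₀u.mono inter_subset_right) hχ hχc
    (subset_inter hχV hKV₀)).2
  have h3 : Tendsto (fun k => ∫ x, χ x * ma (v k) x) atTop (𝓝 L₀) := by
    have := h2.add hL₀
    simpa using this
  have h4 : (fun k => ∫ x, χ x * (maC 3 * ma (v k) x)) =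
      fun k => maC 3 * ∫ x, χ x * ma (v k) x := by
    funext k
    rw [← integral_const_mul]
    congr 1; funext x; ring
  rw [h4]
  exact h3.const_mul _

end Pool.Agent.H50.CS
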