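import Pool.Agent.H50.CS.Exist1

/-!
# CS-EXIST: existence and uniqueness of the Monge-Ampère measure of a continuous psh function in `ℂ³`

`u` continuous psh on the open `Ω ⊆ ℂ³`.

* `cauchy_cont`: `V ⊆ Ω` open, `p_k, q_k` smooth psh on `V`, both `→ u` uniformly on `V`, `χ` continuous with
  compact support in `V`. Then `∫χ ma p_k` is a Cauchy sequence and `∫χ ma p_k - ∫χ ma q_k → 0`.
  Proof: choose an open `V'` with compact closure, `tsupport χ ⊆ V' ⊆ closure V' ⊆ V`; `u` is bounded on
  `V'`, so `|p_k|,|q_k| ≤ M` there for large `k`. For smooth `χ`: `cauchy_bound`. In general take smooth `χ'`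
  with compact support in `V'` and `|χ - χ'| ≤ η` everywhere, support in a fixed compact `K ⊆ V'` (convolve
  `χ` with a mollifier, FZ/Moll), and `∫_K ma p_k ≤ C M³` by `mass_ma`.
* `exists_lim`: for every continuous `χ` with compact support in `Ω` there is a unique real `Λ χ` such that
  `∫χ (c ma v_k) → Λχ` for every open `V ⊆ Ω` containing `tsupport χ` and every sequence `v_k` of smooth psh
  functions on `V` converging to `u` uniformly on `V`: `exists_smooth_approx` on a relatively compact
  `V₀ ⊇ tsupport χ` gives one sequence, whose limit is `Λχ`; for another `(V, v_k)` apply `cauchy_cont` on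
  `V ∩ V₀`.
* `Λ` is linear and `Λχ ≥ 0` for `χ ≥ 0` (`ma_nonneg`); Riesz-Markov
  (`RealRMK.rieszMeasure`, `RealRMK.integral_rieszMeasure`) on the locally compact space `Ω` (subtype of an
  open set; a function in `C_c(Ω, ℝ)` extended by zero is continuous with compact support in `Ω`) gives the
  measure; `ν` = its image under `Subtype.val`.
* uniqueness: two measures finite on compacts of `Ω`, carried by `Ω`, with the same integrals of all
  continuous functions with compact support in `Ω` are equal (again in the subtype `Ω`: regular measures;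
  or compare the measures of compact sets `K` via cut-offs decreasing to `1_K`, and use that the compact
  subsets of `Ω` are a π-system generating the Borel sets).
(This file: exists_isMA.)
-/

set_option autoImplicit false

noncomputable section

namespace Pool.Agent.H50.CS

open Complex Metric MeasureTheory Set Filter Topology
open scoped ContDiff ComplexConjugate
open Pool.Agent.H8.FZ

open scoped CompactlySupported

section ExistAux

variable {Ω : Set (En 3)}

/-- extension by zero -/
def ex2E (f : C_c(Ω, ℝ)) : En 3 → ℝ := Function.extend Subtype.val (fun x : Ω => f x) 0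

theorem ex2E_apply (f : C_c(Ω, ℝ)) (x : Ω) : ex2E f x = f x := by
  unfold ex2E
  exact Subtype.val_injective.extend_apply _ _ x

theorem ex2E_off (f : C_c(Ω, ℝ)) {x : En 3} (hx : x ∉ Ω) : ex2E f x = 0 := by
  unfold ex2E
  rw [Function.extend_apply']
  · rfl
  · rintro ⟨y, hy⟩
    exact hx (hy ▸ y.2)

theorem ex2E_cont (hΩ : IsOpen Ω) (f : C_c(Ω, ℝ)) : Continuous (ex2E f) :=
  HasCompactSupport.continuous_extend_zero hΩ f.continuous f.hasCompactSupport

theorem ex2E_supp (f : C_c(Ω, ℝ)) : HasCompactSupport (ex2E f) :=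
  HasCompactSupport.extend_zero f.hasCompactSupport continuous_subtype_val

theorem ex2E_tsupp (f : C_c(Ω, ℝ)) : tsupport (ex2E f) ⊆ Ω :=
  (HasCompactSupport.tsupport_extend_zero_subset f.hasCompactSupport continuous_subtype_val).trans
    (Subtype.coe_image_subset _ _)

theorem ex2E_add (f g : C_c(Ω, ℝ)) (x : En 3) : ex2E (f + g) x = ex2E f x + ex2E g x := by
  by_cases hx : x ∈ Ω
  · have h1 := ex2E_apply (f + g) ⟨x, hx⟩
    have h2 := ex2E_apply f ⟨x, hx⟩
    have h3 := ex2E_apply g ⟨x, hx⟩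
    simp only at h1 h2 h3
    rw [h1, h2, h3]; rfl
  · rw [ex2E_off _ hx, ex2E_off _ hx, ex2E_off _ hx, add_zero]

theorem ex2E_smul (c : ℝ) (f : C_c(Ω, ℝ)) (x : En 3) : ex2E (c • f) x = c * ex2E f x := by
  by_cases hx : x ∈ Ω
  · have h1 := ex2E_apply (c • f) ⟨x, hx⟩
    have h2 := ex2E_apply f ⟨x, hx⟩
    simp only at h1 h2
    rw [h1, h2]; rfl
  · rw [ex2E_off _ hx, ex2E_off _ hx, mul_zero]

theorem ex2E_nonneg {f : C_c(Ω, ℝ)} (hf : 0 ≤ f) (x : En 3) : 0 ≤ ex2E f x := by
  by_cases hx : x ∈ Ω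
  · have h1 := ex2E_apply f ⟨x, hx⟩
    simp only at h1
    rw [h1]; exact hf ⟨x, hx⟩
  · rw [ex2E_off _ hx]

end ExistAux

theorem ex2_int {v : En 3 → ℝ} (hv : ContDiff ℝ ∞ v) {χ : En 3 → ℝ} (hχ : Continuous χ)
    (hc : HasCompactSupport χ) : Integrable (fun x => χ x * (maC 3 * ma v x)) := by
  have hma : Continuous (ma v) := by
    have := continuousOn_ma (P := v) isOpen_univ hv.contDiffOn
    exact continuousOn_univ.1 this
  apply Continuous.integrable_of_hasCompactSupport
  · exact hχ.mul (continuous_const.mul hma)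
  · exact hc.mul_right

theorem exists_isMA {Ω : Set (En 3)} (hΩ : IsOpen Ω) {u : En 3 → ℝ} (hu : ContPsh Ω u) :
    ∃ ν : Measure (En 3), IsMA Ω u ν := by
  have hex : ∀ f : C_c(Ω, ℝ), ∃ L : ℝ, ∀ V, IsOpen V → V ⊆ Ω → tsupport (ex2E f) ⊆ V →
      ∀ v : ℕ → En 3 → ℝ, (∀ k, SmoothPsh V (v k)) → TendstoUniformlyOn v u atTop V →
      Tendsto (fun k => ∫ x, ex2E f x * (maC 3 * ma (v k) x)) atTop (𝓝 L) := fun f =>
    exists_lim hΩ hu (ex2E_cont hΩ f) (ex2E_supp f) (ex2E_tsupp f)
  choose L hL using hex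
  -- approximating sequence near a compact set
  have happ : ∀ K : Set (En 3), IsCompact K → K ⊆ Ω → ∃ V : Set (En 3), IsOpen V ∧ K ⊆ V ∧ V ⊆ Ω ∧
      ∃ v : ℕ → En 3 → ℝ, (∀ k, ContDiff ℝ ∞ (v k)) ∧ (∀ k, SmoothPsh V (v k)) ∧
        TendstoUniformlyOn v u atTop V := by
    intro K hK hKΩ
    obtain ⟨V, hV, hKV, hVΩ, hVc⟩ := exists_open_between_and_isCompact_closure hK hΩ hKΩ
    obtain ⟨v, hv1, hv2, hv3⟩ := exists_smooth_approx hΩ hu hV hVc hVΩ
    exact ⟨V, hV, hKV, subset_closure.trans hVΩ, v, hv1, hv2, hv3⟩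
  have hadd : ∀ f g, L (f + g) = L f + L g := by
    intro f g
    obtain ⟨V, hV, hKV, hVΩ, v, hv1, hv2, hv3⟩ := happ (tsupport (ex2E f) ∪ tsupport (ex2E g))
      ((ex2E_supp f).union (ex2E_supp g)) (Set.union_subset (ex2E_tsupp f) (ex2E_tsupp g))
    have hf := hL f V hV hVΩ (Set.subset_union_left.trans hKV) v hv2 hv3
    have hg := hL g V hV hVΩ (Set.subset_union_right.trans hKV) v hv2 hv3
    have hfun : ex2E (f + g) = ex2E f + ex2E g := by
      funext x; exact ex2E_add f g x
    have hfg := hL (f + g) V hV hVΩ (by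
      rw [hfun]
      exact (tsupport_add _ _).trans hKV) v hv2 hv3
    refine tendsto_nhds_unique hfg ?_
    refine (hf.add hg).congr fun k => ?_
    rw [← integral_add (ex2_int (hv1 k) (ex2E_cont hΩ f) (ex2E_supp f))
      (ex2_int (hv1 k) (ex2E_cont hΩ g) (ex2E_supp g))]
    apply integral_congr_ae
    filter_upwards with x
    rw [ex2E_add]; ring
  have hsmul : ∀ (c : ℝ) f, L (c • f) = c * L f := by
    intro c f
    obtain ⟨V, hV, hKV, hVΩ, v, hv1, hv2, hv3⟩ := happ (tsupport (ex2E f) ∪ tsupport (ex2E (c • f)))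
      ((ex2E_supp f).union (ex2E_supp _)) (Set.union_subset (ex2E_tsupp f) (ex2E_tsupp _))
    have hf := hL f V hV hVΩ (Set.subset_union_left.trans hKV) v hv2 hv3
    have hg := hL (c • f) V hV hVΩ (Set.subset_union_right.trans hKV) v hv2 hv3
    refine tendsto_nhds_unique hg ?_
    refine (hf.const_mul c).congr fun k => ?_
    rw [← integral_const_mul]
    apply integral_congr_ae
    filter_upwards with x
    rw [ex2E_smul]; ring
  have hpos : ∀ f : C_c(Ω, ℝ), 0 ≤ f → 0 ≤ L f := by
    intro f hf0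
    obtain ⟨V, hV, hKV, hVΩ, v, hv1, hv2, hv3⟩ := happ (tsupport (ex2E f))
      (ex2E_supp f) (ex2E_tsupp f)
    have hf := hL f V hV hVΩ hKV v hv2 hv3
    refine ge_of_tendsto' hf fun k => ?_
    apply integral_nonneg
    intro x
    by_cases hx : x ∈ V
    · have h1 : 0 ≤ ma (v k) x := ma_nonneg (((hv1 k).of_le (WithTop.coe_le_coe.2 (le_top : (2 : ℕ∞) ≤ ⊤))).contDiffAt)
        (fun w => (hv2 k).2 x hx w)
      have h2 : 0 ≤ maC 3 := by unfold maC; positivity
      exact mul_nonneg (ex2E_nonneg hf0 x) (mul_nonneg h2 h1)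
    · have : ex2E f x = 0 := by
        by_contra h
        exact hx (hKV (subset_tsupport _ h))
      simp [this]
  let Λ₀ : C_c(Ω, ℝ) →ₗ[ℝ] ℝ :=
    { toFun := L
      map_add' := hadd
      map_smul' := fun c f => by simpa using hsmul c f }
  let Λ : C_c(Ω, ℝ) →ₚ[ℝ] ℝ := PositiveLinearMap.mk₀ Λ₀ hpos
  have : LocallyCompactSpace Ω := hΩ.locallyCompactSpace
  let μ : Measure Ω := RealRMK.rieszMeasure Λ
  have hμ : ∀ f : C_c(Ω, ℝ), ∫ x, f x ∂μ = L f := fun f => RealRMK.integral_rieszMeasure Λ f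
  refine ⟨μ.map Subtype.val, ?_, ?_, ?_⟩
  · rw [Measure.map_apply measurable_subtype_coe hΩ.measurableSet.compl]
    have : (Subtype.val ⁻¹' Ωᶜ : Set Ω) = ∅ := by
      ext x; simp
    rw [this, measure_empty]
  · intro K hK hKΩ
    rw [Measure.map_apply measurable_subtype_coe hK.measurableSet]
    have hc : IsCompact (Subtype.val ⁻¹' K : Set Ω) := by
      rw [Subtype.isCompact_iff]
      rwa [Subtype.image_preimage_coe, Set.inter_eq_right.2 hKΩ]
    exact hc.measure_lt_top
  · intro V hV hVΩ v hv hvu χ hχ hχc hχV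
    have hcs : HasCompactSupport (fun x : Ω => χ x) := by
      have hc : IsCompact (Subtype.val ⁻¹' (tsupport χ) : Set Ω) := by
        rw [Subtype.isCompact_iff]
        rw [Subtype.image_preimage_coe, Set.inter_eq_right.2 (hχV.trans hVΩ)]
        exact hχc
      apply HasCompactSupport.of_support_subset_isCompact hc
      intro x hx
      exact subset_tsupport _ hx
    let f : C_c(Ω, ℝ) := ⟨⟨fun x : Ω => χ x, hχ.comp continuous_subtype_val⟩, hcs⟩
    have hEf : ex2E f = χ := by
      funext x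
      by_cases hx : x ∈ Ω
      · exact ex2E_apply f ⟨x, hx⟩
      · rw [ex2E_off _ hx]
        by_contra h
        exact hx (hVΩ (hχV (subset_tsupport _ (Ne.symm h))))
    have := hL f V hV hVΩ (by rw [hEf]; exact hχV) v hv hvu
    rw [hEf] at this
    have hint : ∫ x, χ x ∂(μ.map Subtype.val) = L f := by
      rw [← hμ f, MeasureTheory.integral_map measurable_subtype_coe.aemeasurable
        hχ.aestronglyMeasurable]
      rfl
    rw [hint]
    exact this

end Pool.Agent.H50.CS
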