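import Pool.Agent.H50.CS.Exist1

/-!
# CS-EXIST: existence and uniqueness of the Monge-Ampère measure of a continuous psh function in `ℂ³`

`u` continuous psh on the open `Ω ⊆ ℂ³`.

* `cauchy_cont`: `V ⊆ Ω` open, `p_k, q_k` smooth psh on `V`, both `→ u` uniformly on `V`, `χ` continuous with
  compact support in `V`. Then `∫χ ma p_k` is a Cauchy sequence and `∫χ ma p_k - ∫χ ma q_k → 0`.
  Proof: choose an open `V'` with compact closure, `tsupport χ ⊆ V' ⊆ closure V' ⊆ V`; `u` is bounded on
  `V'`, so `|p_k|,|q_k| ≤ M` there for large `k`. For smooth `χ`: `cauchy_bound`. In general take smooth `χ'`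
  with compact support in `V'` and `|χ - χ'| ≤ η` everywhere, support in a fixed compact `K ⊆ V'` (convolve
  `χ` with a mollifier, FZ/Moll), and `∫_K ma p_k ≤ C M³` by `mass_ma`.
* `exists_lim`: for every continuous `χ` with compact support in `Ω` there is a unique real `Λ χ` such that
  `∫χ (c ma v_k) → Λχ` for every open `V ⊆ Ω` containing `tsupport χ` and every sequence `v_k` of smooth psh
  functions on `V` converging to `u` uniformly on `V`: `exists_smooth_approx` on a relatively compact
  `V₀ ⊇ tsupport χ` gives one sequence, whose limit is `Λχ`; for another `(V, v_k)` apply `cauchy_cont` on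
  `V ∩ V₀`.
* `Λ` is linear and `Λχ ≥ 0` for `χ ≥ 0` (`ma_nonneg`); Riesz-Markov
  (`RealRMK.rieszMeasure`, `RealRMK.integral_rieszMeasure`) on the locally compact space `Ω` (subtype of an
  open set; a function in `C_c(Ω, ℝ)` extended by zero is continuous with compact support in `Ω`) gives the
  measure; `ν` = its image under `Subtype.val`.
* uniqueness: two measures finite on compacts of `Ω`, carried by `Ω`, with the same integrals of all
  continuous functions with compact support in `Ω` are equal (again in the subtype `Ω`: regular measures;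
  or compare the measures of compact sets `K` via cut-offs decreasing to `1_K`, and use that the compact
  subsets of `Ω` are a π-system generating the Borel sets).
(This file: IsMA.unique.)
-/

set_option autoImplicit false

noncomputable section

namespace Pool.Agent.H50.CS

open Complex Metric MeasureTheory Set Filter Topology
open scoped ContDiff ComplexConjugate BoundedContinuousFunction
open Pool.Agent.H8.FZ

/-- the two measures have the same integrals of continuous functions with compact support in `Ω` -/
theorem IsMA.integral_eq {Ω : Set (En 3)} (hΩ : IsOpen Ω) {u : En 3 → ℝ} (hu : ContPsh Ω u)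
    {ν ν' : Measure (En 3)} (h : IsMA Ω u ν) (h' : IsMA Ω u ν') {χ : En 3 → ℝ} (hχ : Continuous χ)
    (hχc : HasCompactSupport χ) (hχΩ : tsupport χ ⊆ Ω) : ∫ x, χ x ∂ν = ∫ x, χ x ∂ν' := by
  obtain ⟨V, hV, hKV, hVΩ, hVc⟩ := exists_open_between_and_isCompact_closure
    (show IsCompact (tsupport χ) from hχc) hΩ hχΩ
  obtain ⟨v, -, hv, hvu⟩ := exists_smooth_approx hΩ hu hV hVc hVΩ
  exact tendsto_nhds_unique (h.lim V hV (subset_closure.trans hVΩ) v hv hvu χ hχ hχc hKV)
    (h'.lim V hV (subset_closure.trans hVΩ) v hv hvu χ hχ hχc hKV)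

/-- measures with the same integrals of continuous functions with compact support in `Ω` have the
same restriction to compact subsets of `Ω` -/
theorem restrict_eq_of_integral_eq {Ω : Set (En 3)} (hΩ : IsOpen Ω) {ν ν' : Measure (En 3)}
    (hν : ∀ K, IsCompact K → K ⊆ Ω → ν K < ⊤) (hν' : ∀ K, IsCompact K → K ⊆ Ω → ν' K < ⊤)
    (h : ∀ χ : En 3 → ℝ, Continuous χ → HasCompactSupport χ → tsupport χ ⊆ Ω →
      ∫ x, χ x ∂ν = ∫ x, χ x ∂ν') {K : Set (En 3)} (hK : IsCompact K) (hKΩ : K ⊆ Ω) :
    ν.restrict K = ν'.restrict K := by
  obtain ⟨V, hV, hKV, hVΩ, hVc⟩ := exists_open_between_and_isCompact_closure hK hΩ hKΩ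
  obtain ⟨f, hf0, hf1, hf⟩ := exists_continuous_zero_one_of_isCompact' hK hV.isClosed_compl
    (disjoint_compl_right_iff_subset.2 hKV)
  have hsupp : Function.support f ⊆ V := by
    intro x hx
    by_contra hxV
    exact hx (hf0 hxV)
  have htsupp : tsupport f ⊆ closure V := closure_mono hsupp
  have hfc : HasCompactSupport f := hVc.of_isClosed_subset (isClosed_tsupport _) htsupp
  have hρm : Measurable fun x => Real.toNNReal (f x) := by fun_prop
  have hfin : ∀ m : Measure (En 3), (∀ K, IsCompact K → K ⊆ Ω → m K < ⊤) →
      IsFiniteMeasure (m.withDensity fun x => ((Real.toNNReal (f x) : NNReal) : ENNReal)) := by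
    intro m hm
    refine ⟨?_⟩
    rw [withDensity_apply _ MeasurableSet.univ, Measure.restrict_univ]
    calc ∫⁻ x, ((Real.toNNReal (f x) : NNReal) : ENNReal) ∂m
        ≤ ∫⁻ x, (closure V).indicator (fun _ => (1 : ENNReal)) x ∂m := by
          apply lintegral_mono
          intro x
          by_cases hx : x ∈ closure V
          · simp only [indicator_of_mem hx]
            have := (hf x).2
            rw [ENNReal.coe_le_one_iff, Real.toNNReal_le_one]
            exact this
          · have h0 : f x = 0 := by
              by_contra h0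
              exact hx (subset_closure (hsupp h0))
            simp [h0]
      _ = m (closure V) := by
          rw [lintegral_indicator isClosed_closure.measurableSet]
          simp
      _ < ⊤ := hm _ hVc hVΩ
  have := hfin ν hν
  have := hfin ν' hν'
  have key : (ν.withDensity fun x => ((Real.toNNReal (f x) : NNReal) : ENNReal)) =
      ν'.withDensity fun x => ((Real.toNNReal (f x) : NNReal) : ENNReal) := by
    apply ext_of_forall_integral_eq_of_IsFiniteMeasure
    intro g
    rw [integral_withDensity_eq_integral_smul hρm, integral_withDensity_eq_integral_smul hρm]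
    have e : ∀ x, Real.toNNReal (f x) • g x = f x * g x := by
      intro x
      rw [NNReal.smul_def, Real.coe_toNNReal _ (hf x).1, smul_eq_mul]
    simp_rw [e]
    apply h
    · exact f.continuous.mul g.continuous
    · exact hfc.mul_right
    · exact (tsupport_mul_subset_left).trans (htsupp.trans hVΩ)
  ext s hs
  rw [Measure.restrict_apply hs, Measure.restrict_apply hs]
  have hm : MeasurableSet (s ∩ K) := hs.inter hK.isClosed.measurableSet
  have e : ∀ m : Measure (En 3),
      (m.withDensity fun x => ((Real.toNNReal (f x) : NNReal) : ENNReal)) (s ∩ K) = m (s ∩ K) := by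
    intro m
    rw [withDensity_apply _ hm]
    rw [setLIntegral_congr_fun (g := fun _ => (1 : ENNReal)) hm]
    · simp
    · intro x hx
      simp [hf1 hx.2]
  rw [← e ν, ← e ν', key]

theorem IsMA.unique {Ω : Set (En 3)} (hΩ : IsOpen Ω) {u : En 3 → ℝ} (hu : ContPsh Ω u)
    {ν ν' : Measure (En 3)} (h : IsMA Ω u ν) (h' : IsMA Ω u ν') : ν = ν' := by
  have : LocallyCompactSpace Ω := hΩ.locallyCompactSpace
  obtain ⟨K, hK, hKΩ⟩ : IsSigmaCompact Ω := isSigmaCompact_iff_sigmaCompactSpace.2 inferInstance
  have h1 : ν.restrict Ω = ν'.restrict Ω := by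
    rw [← hKΩ, Measure.restrict_iUnion_congr]
    intro i
    exact restrict_eq_of_integral_eq hΩ h.fin h'.fin
      (fun χ hχ hχc hχΩ => h.integral_eq hΩ hu h' hχ hχc hχΩ) (hK i)
      (hKΩ ▸ subset_iUnion K i)
  have h2 : ∀ m : Measure (En 3), m Ωᶜ = 0 → m.restrict Ω = m := by
    intro m hm
    apply Measure.restrict_eq_self_of_ae_mem
    rw [ae_iff]
    exact hm
  rw [← h2 ν h.off, ← h2 ν' h'.off, h1]

end Pool.Agent.H50.CS
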