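import Pool.Agent.H50.CS.Mass

/-!
# CS-LIMIT: first consequences of the definition of `IsMA`

* `IsMA.restrict`: `V ⊆ Ω` open: `IsMA V u (ν.restrict V)`. (`off`, `fin` clear; `lim`: for `V' ⊆ V` use `lim`
  of `Ω` at `V'`, and `∫χ dν = ∫χ d(ν|V)` since `χ = 0` off `V`.)
* `IsMA.lim_int`: `v_k → u` uniformly on `V`, smooth psh on `V`; `g_k → g` uniformly on `V`, all `g_k`
  continuous on `V` and zero on `V` off the fixed compact `K ⊆ V`. Then
  `∫_V g_k (c ma v_k) → ∫_V g dν`. Proof: let `χ₀` be a cut-off (`exists_cutoff`) equal to `1` on `K` with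
  compact support in `V`. `g` (set to `0` off `V`) is continuous with compact support in `K`: uniform limit
  of the `g_k` (set to `0` off `V`), which are continuous on all of `ℂⁿ`. So
  `∫ g (c ma v_k) → ∫ g dν` by `lim`, and `|∫(g_k - g) c ma v_k| ≤ sup|g_k-g| ∫χ₀ c ma v_k`, where the last
  integral converges (by `lim` for `χ₀`), so is bounded; `ma v_k ≥ 0` on `V` (`ma_nonneg`).
* `IsMA.smul`: `u ↦ λu`, `ν ↦ λ³ν` (`λ > 0`): if `v_k → λu` then `λ⁻¹v_k → u`, `ma (λ⁻¹ v) = λ⁻³ ma v`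
  (`hm_const_mul`, `Matrix.det_smul`).
* `IsMA.congr`: `u = u'` on `Ω`.
* `IsMA.add_const`: `v_k → u + c` iff `v_k - c → u` (`ma_add_const`).
* `IsMA.ge`: lower bound for the measure: if `v_k → u` uniformly on `V`, smooth psh there, and
  `F ≤ ma v_k` on the open `W ⊆ V` for all large `k`, `F ≥ 0` continuous on `W`, then
  `c F dV ≤ ν` on `W`. Proof: for compact `K ⊆ W` and open `O`, `K ⊆ O ⊆ W`, take a cut-off
  `1_K ≤ χ ≤ 1_O` (`exists_cutoff`): `∫_K cF ≤ ∫χ c ma v_k → ∫χ dν ≤ ν(O)`. By regularity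
  (`ν.restrict` to a relatively compact open set is a finite Borel measure on `ℂⁿ`, hence regular)
  `∫_K cF ≤ ν K`; then inner regularity of `B ↦ ∫_B cF` (σ-finite `withDensity`, or exhaust by compacts)
  gives `∫_B cF ≤ ν B` for all Borel `B ⊆ W`.
(This file: IsMA.restrict, IsMA.congr, IsMA.add_const, IsMA.const_mul.)
-/

set_option autoImplicit false

noncomputable section

namespace Pool.Agent.H50.CS

open Complex Metric MeasureTheory Set Filter Topology
open scoped ContDiff ComplexConjugate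
open Pool.Agent.H8.FZ

theorem IsMA.restrict {Ω V : Set (En 3)} {u : En 3 → ℝ} {ν : Measure (En 3)} (h : IsMA Ω u ν)
    (hV : IsOpen V) (hVΩ : V ⊆ Ω) : IsMA V u (ν.restrict V) := by
  refine ⟨?_, ?_, ?_⟩
  · rw [Measure.restrict_apply hV.measurableSet.compl, Set.compl_inter_self, measure_empty]
  · intro K hK hKV
    exact lt_of_le_of_lt (Measure.restrict_apply_le _ _) (h.fin K hK (hKV.trans hVΩ))
  · intro V' hV' hV'V v hv hlim χ hχ hχc hχs
    have h1 := h.lim V' hV' (hV'V.trans hVΩ) v hv hlim χ hχ hχc hχs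
    have h2 : ∫ x, χ x ∂(ν.restrict V) = ∫ x, χ x ∂ν := by
      apply setIntegral_eq_integral_of_forall_compl_eq_zero
      intro x hx
      by_contra hne
      exact hx (hV'V (hχs (subset_tsupport _ hne)))
    rw [h2]
    exact h1

theorem IsMA.congr {Ω : Set (En 3)} {u u' : En 3 → ℝ} {ν : Measure (En 3)} (h : IsMA Ω u ν)
    (huu : ∀ x ∈ Ω, u x = u' x) : IsMA Ω u' ν := by
  refine ⟨h.off, h.fin, ?_⟩
  intro V hV hVΩ v hv hlim χ hχ hχc hχs
  exact h.lim V hV hVΩ v hv (hlim.congr_right fun x hx => (huu x (hVΩ hx)).symm) χ hχ hχc hχs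

theorem IsMA.add_const {Ω : Set (En 3)} {u : En 3 → ℝ} {ν : Measure (En 3)} (h : IsMA Ω u ν)
    (c : ℝ) : IsMA Ω (fun x => u x + c) ν := by
  refine ⟨h.off, h.fin, ?_⟩
  intro V hV hVΩ v hv hlim χ hχ hχc hχs
  have h1 : ∀ k, SmoothPsh V (fun x => v k x + (-c)) := by
    intro k
    refine ⟨(hv k).1.add contDiffOn_const, fun x hx w => ?_⟩
    rw [levi_add_const]
    exact (hv k).2 x hx w
  have h2 : TendstoUniformlyOn (fun k x => v k x + (-c)) u atTop V := by
    rw [Metric.tendstoUniformlyOn_iff] at hlim ⊢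
    intro ε hε
    filter_upwards [hlim ε hε] with k hk x hx
    have := hk x hx
    rw [Real.dist_eq] at this ⊢
    rwa [show u x - (v k x + -c) = u x + c - v k x by ring]
  have h3 := h.lim V hV hVΩ _ h1 h2 χ hχ hχc hχs
  simp only [ma_add_const] at h3
  exact h3

/-- `ma (c v) = c³ ma v` -/
theorem ma_const_mul3 {P : En 3 → ℝ} {x : En 3} (hP : ContDiffAt ℝ 2 P x) (c : ℝ) :
    ma (fun y => c * P y) x = c ^ 3 * ma P x := by
  unfold ma
  rw [hm_const_mul hP, Matrix.det_smul, Fintype.card_fin, ← Complex.ofReal_pow,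
    Complex.re_ofReal_mul]

theorem IsMA.const_mul {Ω : Set (En 3)} {u : En 3 → ℝ} {ν : Measure (En 3)} (h : IsMA Ω u ν)
    {c : ℝ} (hc : 0 < c) : IsMA Ω (fun x => c * u x) (ENNReal.ofReal (c ^ 3) • ν) := by
  refine ⟨?_, ?_, ?_⟩
  · rw [Measure.smul_apply, h.off, smul_zero]
  · intro K hK hKΩ
    rw [Measure.smul_apply, smul_eq_mul]
    exact ENNReal.mul_lt_top ENNReal.ofReal_lt_top (h.fin K hK hKΩ)
  · intro V hV hVΩ v hv hlim χ hχ hχc hχs
    have hsm : ∀ k, ∀ x ∈ V, ContDiffAt ℝ 2 (v k) x := fun k x hx =>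
      ((hv k).1.contDiffAt (hV.mem_nhds hx)).of_le (by norm_cast)
    have h1 : ∀ k, SmoothPsh V (fun x => c⁻¹ * v k x) := by
      intro k
      refine ⟨contDiffOn_const.mul (hv k).1, fun x hx w => ?_⟩
      rw [levi_const_mul (hsm k x hx)]
      exact mul_nonneg (inv_pos.2 hc).le ((hv k).2 x hx w)
    have h2 : TendstoUniformlyOn (fun k x => c⁻¹ * v k x) u atTop V := by
      rw [Metric.tendstoUniformlyOn_iff] at hlim ⊢
      intro ε hε
      filter_upwards [hlim (c * ε) (by positivity)] with k hk x hx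
      have h4 := hk x hx
      rw [Real.dist_eq] at h4 ⊢
      have h5 : u x - c⁻¹ * v k x = c⁻¹ * (c * u x - v k x) := by
        field_simp
      rw [h5, abs_mul, abs_of_pos (inv_pos.2 hc)]
      calc c⁻¹ * |c * u x - v k x| < c⁻¹ * (c * ε) :=
            mul_lt_mul_of_pos_left h4 (inv_pos.2 hc)
        _ = ε := by field_simp
    have h3 := (h.lim V hV hVΩ _ h1 h2 χ hχ hχc hχs).const_mul (c ^ 3)
    have h6 : ∀ k, c ^ 3 * ∫ x, χ x * (maC 3 * ma (fun y => c⁻¹ * v k y) x) =
        ∫ x, χ x * (maC 3 * ma (v k) x) := by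
      intro k
      rw [← integral_const_mul]
      refine integral_congr_ae (Eventually.of_forall fun x => ?_)
      by_cases hx : x ∈ V
      · change c ^ 3 * (χ x * (maC 3 * ma (fun y => c⁻¹ * v k y) x)) = χ x * (maC 3 * ma (v k) x)
        rw [ma_const_mul3 (hsm k x hx)]
        have hc0 : c ≠ 0 := hc.ne'
        field_simp
      · have h7 : χ x = 0 := by
          by_contra hne
          exact hx (hχs (subset_tsupport _ hne))
        change c ^ 3 * (χ x * (maC 3 * ma (fun y => c⁻¹ * v k y) x)) = χ x * (maC 3 * ma (v k) x)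
        rw [h7]
        ring
    simp only [h6] at h3
    rw [integral_smul_measure, ENNReal.toReal_ofReal (by positivity), smul_eq_mul]
    exact h3

end Pool.Agent.H50.CS
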