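import Pool.Agent.H50.CS.NoSol
import Pool.Agent.H50.CS.Limit
import Pool.Agent.H50.CS.Exist3

/-!
# CS-FINAL: the counterexample

Normalisation: `m = mu univ ∈ (0,∞)`, `μ = m⁻¹ mu` (probability measure), `λ = (m.toReal)^{-1/3}`:
`IsMA.const_mul` turns the subsolution `sub` into `λ sub` with `μ ≤ λ³ ν`, and a solution `u` for `μ` into a solution
`λ⁻¹u` for `mu`, contradicting `no_sol`.
-/

set_option autoImplicit false

noncomputable section

namespace Pool.Agent.H50.CS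

open Complex Metric MeasureTheory Set Filter Topology
open scoped ContDiff ComplexConjugate
open Pool.Agent.H8.FZ

/-- the unit ball is hyperconvex (`‖x‖² - 1`) -/
theorem hyperconvex_ball : Hyperconvex (ball (0 : En 3) 1) := by
  have hn : ContDiff ℝ ∞ fun y : En 3 => ‖y‖ ^ 2 := contDiff_norm_sq ℂ
  have h2 : (2 : WithTop ℕ∞) ≤ ∞ := ENat.LEInfty.out
  refine ⟨fun x => ‖x‖ ^ 2 + (-1), ?_, ?_, ?_⟩
  · refine smoothPsh_contPsh isOpen_ball ⟨(hn.add contDiff_const).contDiffOn, fun x _ w => ?_⟩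
    rw [levi_add_const, levi_norm_sq]
    positivity
  · intro x hx
    have h1 : ‖x‖ < 1 := by simpa using hx
    show ‖x‖ ^ 2 + (-1) < 0
    nlinarith [norm_nonneg x]
  · intro c hc
    by_cases hc1 : c ≤ -1
    · refine ⟨∅, isCompact_empty, empty_subset _, fun x _ hx => ?_⟩
      exfalso
      have : (0 : ℝ) ≤ ‖x‖ ^ 2 := sq_nonneg _
      have hx' : ‖x‖ ^ 2 + (-1) < c := hx
      linarith
    · rw [not_le] at hc1
      have h0 : 0 ≤ 1 + c := by linarith
      refine ⟨closedBall 0 (Real.sqrt (1 + c)), isCompact_closedBall _ _, ?_, ?_⟩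
      · apply closedBall_subset_ball
        rw [Real.sqrt_lt' one_pos]
        linarith
      · intro x _ hx
        have hx' : ‖x‖ ^ 2 + (-1) < c := hx
        rw [mem_closedBall_zero_iff]
        exact Real.le_sqrt_of_sq_le (by linarith)

theorem ContSol.const_mul {Ω : Set (En 3)} {u : En 3 → ℝ} {ν : Measure (En 3)}
    (h : ContSol Ω u ν) {c : ℝ} (hc : 0 < c) :
    ContSol Ω (fun x => c * u x) (ENNReal.ofReal (c ^ 3) • ν) := by
  refine ⟨h.psh.const_mul hc.le, fun y hy => ?_, h.isMA.const_mul hc⟩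
  have := (h.bdry y hy).const_mul c
  simpa using this

/-- the counterexample to Q1 on the unit ball of `ℂ³` -/
theorem counterexample : ∃ μ : Measure (En 3), IsProbabilityMeasure μ ∧
    μ (ball (0 : En 3) 1)ᶜ = 0 ∧ μ ≪ volume ∧
    (∃ (φ : En 3 → ℝ) (ν : Measure (En 3)), ContSol (ball (0 : En 3) 1) φ ν ∧ μ ≤ ν) ∧
    ¬∃ φ : En 3 → ℝ, ContSol (ball (0 : En 3) 1) φ μ := by
  obtain ⟨S⟩ := sys_exists
  set m : ENNReal := S.mu univ with hm
  have hm0 : m ≠ 0 := S.mu_pos.ne'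
  have hmt : m ≠ ⊤ := S.mu_fin.ne
  have hmr : 0 < m.toReal := ENNReal.toReal_pos hm0 hmt
  have hinv : m⁻¹ ≠ 0 := ENNReal.inv_ne_zero.mpr hmt
  have hinvt : m⁻¹ ≠ ⊤ := ENNReal.inv_ne_top.mpr hm0
  -- the scaling factor
  set c : ℝ := (m.toReal⁻¹) ^ ((1 : ℝ) / 3) with hc
  have hc0 : 0 < c := Real.rpow_pos_of_pos (inv_pos.mpr hmr) _
  have hc3 : c ^ 3 = m.toReal⁻¹ := by
    rw [hc, ← Real.rpow_natCast, ← Real.rpow_mul (inv_pos.mpr hmr).le]
    norm_num
  have hofc : ENNReal.ofReal (c ^ 3) = m⁻¹ := by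
    rw [hc3, ENNReal.ofReal_inv_of_pos hmr, ENNReal.ofReal_toReal hmt]
  have hofc' : ENNReal.ofReal ((c⁻¹) ^ 3) = m := by
    rw [inv_pow, hc3, inv_inv, ENNReal.ofReal_toReal hmt]
  refine ⟨m⁻¹ • S.mu, ⟨?_⟩, ?_, ?_, ?_, ?_⟩
  · rw [Measure.smul_apply, smul_eq_mul, ← hm]
    exact ENNReal.inv_mul_cancel hm0 hmt
  · rw [Measure.smul_apply, S.mu_off, smul_zero]
  · refine Measure.AbsolutelyContinuous.smul_left ?_ _
    refine Measure.absolutelyContinuous_sum_left fun j => ?_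
    exact (withDensity_absolutelyContinuous _ _).trans Measure.restrict_le_self.absolutelyContinuous
  · obtain ⟨ν, hν, hle⟩ := S.exists_sub
    refine ⟨fun x => c * S.sub x, m⁻¹ • ν, ?_, ?_⟩
    · rw [← hofc]
      exact hν.const_mul hc0
    · refine Measure.le_iff.2 fun s _ => ?_
      rw [Measure.smul_apply, Measure.smul_apply, smul_eq_mul, smul_eq_mul]
      exact mul_le_mul' le_rfl (hle s)
  · rintro ⟨u, hu⟩
    refine S.no_sol (fun x => c⁻¹ * u x) ?_
    have h1 := hu.const_mul (inv_pos.mpr hc0)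
    rw [hofc', smul_smul, ENNReal.mul_inv_cancel hm0 hmt, one_smul] at h1
    exact h1

end Pool.Agent.H50.CS
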