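import Pool.Agent.H50.CS.Lev

/-!
# CS-IBP: integration by parts against divergence free matrix fields

* `int_del_zero`: for `F : ℂⁿ → ℂ` of class `C¹` with compact support, `∫ del j F = 0`, `∫ dbar j F = 0`:
  `del j F = ½ (F'(e_j) - i F'(i e_j))` and `∫ fderiv ℝ F x v dx = 0`
  (`integral_mul_fderiv_eq_neg_fderiv_mul_of_integrable` with one factor constant on the support, or
  `integral_fderiv...`; look into `Mathlib.Analysis.Calculus.LineDeriv.IntegrationByParts`, and see
  `FZ/Ibp.lean`, `FZ/BIbp.lean` for how it was used).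
* `DivFree V C`: the entries of the matrix field `C` are smooth on `V` and
  `∑_j ∂_j (C k j) = 0`, `∑_k ∂̄_k (C k j) = 0` on `V`.
* `ibp1`: for `χ` smooth with compact support in `V`, `w` smooth on `V`:
  `∫ χ tr(Hm w · C) = -∫ ∑_jk (∂_j χ)(∂̄_k w) C_kj`. Proof: `F_j := χ ∑_k (∂̄_k w) C_kj` (extended by `0`
  outside `V`; it is smooth with compact support since `tsupport χ ⊆ V`), and
  `∑_j ∂_j F_j = ∑_jk (∂_jχ)(∂̄_k w) C_kj + χ ∑_jk (∂_j ∂̄_k w) C_kj + χ ∑_k ∂̄_k w ∑_j ∂_j C_kj`,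
  where the last sum vanishes; `Hm w j k = ∂̄_k ∂_j w`. Integrate. (Outside `V` the functions `w`, `C` are
  arbitrary but every term carries a factor `χ` or `∂_jχ`, which vanishes off `tsupport χ ⊆ V`.)
* `ibp2`: once more with the roles of `del`, `dbar`:
  `-∫ ∑_jk (∂_jχ)(∂̄_k w) C_kj = ∫ w ∑_jk (∂̄_k∂_jχ) C_kj = ∫ w tr(Hm χ · C)`.
* instances of `DivFree`: `C = adj (Hm g)` (CS-DIV), `C = tr(Hm g)·1 - Hm g`, `C = 1`.
  For `tr(Hm g)·1 - Hm g`: `C k j = δ_kj tr H - H k j`, `H k j = ∂̄_j ∂_k g`,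
  `∑_j ∂_j C k j = ∂_k (∑_a ∂̄_a∂_a g) - ∑_j ∂_j ∂̄_j ∂_k g = 0` (Wirtinger derivatives commute:
  `del_comm`, `dbar_comm`, `del_dbar_comm` of FZ/Calc).
(This file: int_del_zero, int_dbar_zero, DivFree, divFree_one, divFree_tr.)
-/

set_option autoImplicit false

noncomputable section

namespace Pool.Agent.H50.CS

open Complex Metric MeasureTheory Set Filter Topology Matrix
open scoped ContDiff ComplexConjugate ComplexOrder
open Pool.Agent.H8.FZ

variable {n : ℕ}

theorem Ibp2_int {F : En n → ℂ} (hF : ContDiff ℝ 1 F) (hc : HasCompactSupport F) (v : En n) :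
    Integrable (fun x => fderiv ℝ F x v) ∧ ∫ x, fderiv ℝ F x v = 0 := by
  have h1 : Continuous (fun x => fderiv ℝ F x v) :=
    (hF.continuous_fderiv (by norm_num)).clm_apply continuous_const
  have h2 : HasCompactSupport (fun x => fderiv ℝ F x v) := hc.fderiv_apply (𝕜 := ℝ) v
  have hint' : Integrable (fun x => fderiv ℝ F x v) := h1.integrable_of_hasCompactSupport h2
  have hint : Integrable F := hF.continuous.integrable_of_hasCompactSupport hc
  refine ⟨hint', ?_⟩
  have hkey := integral_mul_fderiv_eq_neg_fderiv_mul_of_integrable (μ := (volume : Measure (En n)))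
      (f := fun _ => (1 : ℂ)) (g := F) (v := v) (by simp) (by simpa using hint')
      (by simpa using hint) (fun x _ => differentiableAt_const _)
      (fun x _ => hF.differentiable (by norm_num) x)
  simpa using hkey

theorem int_del_zero {F : En n → ℂ} (hF : ContDiff ℝ 1 F) (hc : HasCompactSupport F) (j : Fin n) :
    ∫ x, del j F x = 0 := by
  obtain ⟨h1, h2⟩ := Ibp2_int hF hc (eb j)
  obtain ⟨h3, h4⟩ := Ibp2_int hF hc (I • eb j)
  unfold Pool.Agent.H8.FZ.del
  rw [integral_const_mul, integral_sub h1 (h3.const_mul I), integral_const_mul, h2, h4]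
  simp

theorem int_dbar_zero {F : En n → ℂ} (hF : ContDiff ℝ 1 F) (hc : HasCompactSupport F)
    (j : Fin n) : ∫ x, dbar j F x = 0 := by
  obtain ⟨h1, h2⟩ := Ibp2_int hF hc (eb j)
  obtain ⟨h3, h4⟩ := Ibp2_int hF hc (I • eb j)
  unfold Pool.Agent.H8.FZ.dbar
  rw [integral_const_mul, integral_add h1 (h3.const_mul I), integral_const_mul, h2, h4]
  simp

/-- Divergence free matrix fields. -/
structure DivFree (V : Set (En n)) (C : En n → Matrix (Fin n) (Fin n) ℂ) : Prop where
  smooth : ∀ k j, ContDiffOn ℝ ∞ (fun x => C x k j) V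
  del : ∀ x ∈ V, ∀ k, ∑ j, Pool.Agent.H8.FZ.del j (fun y => C y k j) x = 0
  dbar : ∀ x ∈ V, ∀ j, ∑ k, Pool.Agent.H8.FZ.dbar k (fun y => C y k j) x = 0

theorem divFree_one (V : Set (En n)) : DivFree V (fun _ => (1 : Matrix (Fin n) (Fin n) ℂ)) where
  smooth _ _ := contDiffOn_const
  del x _ _ := Finset.sum_eq_zero fun j _ => del_const j _ x
  dbar x _ _ := Finset.sum_eq_zero fun k _ => dbar_const k _ x

theorem divFree_tr {V : Set (En n)} (hV : IsOpen V) {g : En n → ℝ} (hg : ContDiffOn ℝ ∞ g V) :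
    DivFree V (fun x => (Hm g x).trace • (1 : Matrix (Fin n) (Fin n) ℂ) - Hm g x) := by
  set G : En n → ℂ := fun y => (g y : ℂ) with hG
  have hGc : ContDiffOn ℝ ∞ G V := Complex.ofRealCLM.contDiff.comp_contDiffOn hg
  have h1 : ∀ k, ContDiffOn ℝ ∞ (Pool.Agent.H8.FZ.del k G) V := fun k => contDiffOn_del hV hGc k
  have h2 : ∀ j k, ContDiffOn ℝ ∞ (Pool.Agent.H8.FZ.dbar j (Pool.Agent.H8.FZ.del k G)) V :=
    fun j k => contDiffOn_dbar hV (h1 k) j
  have at2 : ∀ {f : En n → ℂ}, ContDiffOn ℝ ∞ f V → ∀ x ∈ V, ContDiffAt ℝ 2 f x := by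
    intro f hf x hx
    exact (hf.contDiffAt (hV.mem_nhds hx)).of_le (by norm_cast)
  have dfa : ∀ {f : En n → ℂ}, ContDiffOn ℝ ∞ f V → ∀ x ∈ V, DifferentiableAt ℝ f x := by
    intro f hf x hx
    exact (at2 hf x hx).differentiableAt (by norm_num)
  have entry : ∀ k j, (fun x => ((Hm g x).trace • (1 : Matrix (Fin n) (Fin n) ℂ) - Hm g x) k j) =
      fun x => (∑ a, Pool.Agent.H8.FZ.dbar a (Pool.Agent.H8.FZ.del a G) x) *
        (if k = j then 1 else 0) - Pool.Agent.H8.FZ.dbar j (Pool.Agent.H8.FZ.del k G) x := by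
    intro k j
    funext x
    simp only [Matrix.sub_apply, Matrix.smul_apply, Matrix.one_apply, smul_eq_mul, Matrix.trace,
      Matrix.diag_apply]
    rfl
  have hsum : ContDiffOn ℝ ∞ (fun x => ∑ a, Pool.Agent.H8.FZ.dbar a
      (Pool.Agent.H8.FZ.del a G) x) V := ContDiffOn.sum fun a _ => h2 a a
  have dsum : ∀ x ∈ V, DifferentiableAt ℝ (fun x => ∑ a, Pool.Agent.H8.FZ.dbar a
      (Pool.Agent.H8.FZ.del a G) x) x := dfa hsum
  refine ⟨fun k j => ?_, fun x hx k => ?_, fun x hx j => ?_⟩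
  · rw [entry]
    exact (hsum.mul contDiffOn_const).sub (h2 j k)
  · have h3 : ∀ j, Pool.Agent.H8.FZ.del j (fun y => ((Hm g y).trace •
        (1 : Matrix (Fin n) (Fin n) ℂ) - Hm g y) k j) x =
        (∑ a, Pool.Agent.H8.FZ.del j (Pool.Agent.H8.FZ.dbar a (Pool.Agent.H8.FZ.del a G)) x) *
          (if k = j then 1 else 0) -
        Pool.Agent.H8.FZ.del j (Pool.Agent.H8.FZ.dbar j (Pool.Agent.H8.FZ.del k G)) x := by
      intro j
      rw [entry, del_sub ((dsum x hx).fun_mul (differentiableAt_const _)) (dfa (h2 j k) x hx),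
        del_mul (dsum x hx) (differentiableAt_const _), del_const, mul_zero, add_zero,
        del_sum _ (fun a _ => dfa (h2 a a) x hx)]
    rw [Finset.sum_congr rfl fun j _ => h3 j, Finset.sum_sub_distrib]
    simp only [mul_ite, mul_one, mul_zero, Finset.sum_ite_eq, Finset.mem_univ, if_true]
    rw [sub_eq_zero]
    refine Finset.sum_congr rfl fun a _ => ?_
    rw [del_dbar_comm (at2 (h1 a) x hx) k a, del_dbar_comm (at2 (h1 k) x hx) a a]
    apply dbar_congr
    filter_upwards [hV.mem_nhds hx] with y hy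
    exact del_comm (at2 hGc y hy) k a
  · have h3 : ∀ k, Pool.Agent.H8.FZ.dbar k (fun y => ((Hm g y).trace •
        (1 : Matrix (Fin n) (Fin n) ℂ) - Hm g y) k j) x =
        (∑ a, Pool.Agent.H8.FZ.dbar k (Pool.Agent.H8.FZ.dbar a (Pool.Agent.H8.FZ.del a G)) x) *
          (if k = j then 1 else 0) -
        Pool.Agent.H8.FZ.dbar k (Pool.Agent.H8.FZ.dbar j (Pool.Agent.H8.FZ.del k G)) x := by
      intro k
      rw [entry, dbar_sub ((dsum x hx).fun_mul (differentiableAt_const _)) (dfa (h2 j k) x hx),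
        dbar_mul (dsum x hx) (differentiableAt_const _), dbar_const, mul_zero, add_zero,
        dbar_sum _ (fun a _ => dfa (h2 a a) x hx)]
    rw [Finset.sum_congr rfl fun k _ => h3 k, Finset.sum_sub_distrib]
    simp only [mul_ite, mul_one, mul_zero, Finset.sum_ite_eq', Finset.mem_univ, if_true]
    rw [sub_eq_zero]
    exact Finset.sum_congr rfl fun a _ => dbar_comm (at2 (h1 a) x hx) j a

end Pool.Agent.H50.CS
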