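import Mathlib

/-!
# CS-MAT1: positive semidefinite `3 × 3` matrices

Elementary facts on Hermitian positive semidefinite `3 × 3` matrices.

* `adj_psd`: if `A = Bᴴ * B` then `adj A = adj B * (adj B)ᴴ` (`Matrix.adjugate_mul_distrib`,
  `Matrix.adjugate_conjTranspose`), so `adj A` is positive semidefinite.
* `tr_mul_nonneg`: `A = Bᴴ B`, `C` psd: `tr (A C) = tr (B C Bᴴ) ≥ 0`.
* `det_add_ge`: for `Fin 3`, `det (A+B) = det A + tr (adj A * B) + tr (A * adj B) + det B`
  (`Matrix.det_fin_three`, `Matrix.adjugate_fin_three`, `ring`); the two traces are `≥ 0` by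
  `adj_psd` and `tr_mul_nonneg`, `det ≥ 0` by `Matrix.PosSemidef.det_nonneg`.
* `det_sub_eq`: polynomial identity for `Fin 3`: `det A - det B = tr ((A-B) C)` with
  `C = (1/6) adj A + (2/3) adj ((A+B)/2) + (1/6) adj B` (expand everything; `ring`; Simpson's rule
  for `∫₀¹ tr((A-B) adj(B+s(A-B))) ds`).
* `tr_adj`: `tr adj A = ((tr A)² - tr (A²))/2` for `Fin 3`.
* `hadamard`: for psd `B`: `det B = B₀₀B₁₁B₂₂ - B₀₀|B₁₂|² - B₁₁|B₀₂|² - B₂₂|B₀₁|² + 2Re(B₀₁B₁₂B₂₀)`, and
  `2Re(B₀₁B₁₂B₂₀) ≤ 2|B₀₁||B₁₂||B₀₂| ≤ 2 √(B₀₀B₁₁) |B₁₂||B₀₂| ≤ B₀₀|B₁₂|² + B₁₁|B₀₂|²`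
  (the `2×2` principal minors are `≥ 0`: `|B₀₁|² ≤ B₀₀ B₁₁`).
* `entry_le`: psd: `‖A j k‖ ≤ (A j j + A k k)/2 ≤ tr A` (take the vectors `e_j ± ω e_k`, or the `2×2`
  minors; or `|A_jk|² ≤ A_jj A_kk`).
* `det_lower`: `B := Pᴴ A P - diagonal q` is Hermitian with nonnegative form, so psd; then
  `det (Pᴴ A P) = ‖det P‖² det A` is `≥ det (diagonal q) = ∏ q` by `det_add_ge` (and `det B ≥ 0`).
* `det_upper`: `hadamard` for `Pᴴ A P`.
(This file: M3, adj_psd, tr_mul_nonneg, det_add_ge, det_sub_eq, tr_adj, tr_mul_adj.)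
-/

set_option autoImplicit false

noncomputable section

namespace Pool.Agent.H50.CS

open Matrix
open scoped ComplexConjugate ComplexOrder

/-- short name for `3 × 3` complex matrices -/
abbrev M3 := Matrix (Fin 3) (Fin 3) ℂ

open scoped MatrixOrder in
theorem Mat1_exists {A : M3} (hA : A.PosSemidef) : ∃ B : M3, A = Bᴴ * B :=
  CStarAlgebra.nonneg_iff_eq_star_mul_self.mp hA.nonneg

theorem adj_psd {A : M3} (hA : A.PosSemidef) : A.adjugate.PosSemidef := by
  obtain ⟨B, rfl⟩ := Mat1_exists hA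
  rw [Matrix.adjugate_mul_distrib, ← Matrix.adjugate_conjTranspose]
  exact Matrix.posSemidef_self_mul_conjTranspose _

theorem tr_mul_nonneg {A C : M3} (hA : A.PosSemidef) (hC : C.PosSemidef) :
    0 ≤ (A * C).trace := by
  obtain ⟨B, rfl⟩ := Mat1_exists hA
  rw [Matrix.mul_assoc, Matrix.trace_mul_comm]
  exact (hC.mul_mul_conjTranspose_same B).trace_nonneg

theorem Mat1_det_add (A B : M3) : (A + B).det = A.det + (A.adjugate * B).trace +
    (A * B.adjugate).trace + B.det := by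
  rw [Matrix.det_fin_three, Matrix.det_fin_three, Matrix.det_fin_three,
    Matrix.adjugate_fin_three, Matrix.adjugate_fin_three]
  simp [Matrix.trace, Fin.sum_univ_three, Matrix.mul_apply, Matrix.vecMul, dotProduct]
  ring

theorem det_add_ge {A B : M3} (hA : A.PosSemidef) (hB : B.PosSemidef) :
    A.det.re + B.det.re ≤ (A + B).det.re := by
  rw [Mat1_det_add]
  have h1 := tr_mul_nonneg (adj_psd hA) hB
  have h2 := tr_mul_nonneg hA (adj_psd hB)
  rw [Complex.le_def] at h1 h2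
  have h3 := h1.1
  have h4 := h2.1
  simp only [Complex.zero_re] at h3 h4
  simp only [Complex.add_re]
  linarith

theorem det_sub_eq (A B : M3) :
    A.det - B.det = ((A - B) * ((1 / 6 : ℂ) • A.adjugate +
      (2 / 3 : ℂ) • ((1 / 2 : ℂ) • (A + B)).adjugate + (1 / 6 : ℂ) • B.adjugate)).trace := by
  rw [Matrix.det_fin_three, Matrix.det_fin_three,
    Matrix.adjugate_fin_three, Matrix.adjugate_fin_three, Matrix.adjugate_fin_three]
  simp [Matrix.trace, Fin.sum_univ_three, Matrix.mul_apply]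
  ring

theorem tr_adj (A : M3) : 2 * A.adjugate.trace = A.trace ^ 2 - (A * A).trace := by
  rw [Matrix.adjugate_fin_three]
  simp [Matrix.trace, Fin.sum_univ_three, Matrix.mul_apply]
  ring

theorem tr_mul_adj (A : M3) : (A * A.adjugate).trace = 3 * A.det := by
  rw [Matrix.mul_adjugate, Matrix.trace_smul, Matrix.trace_one, smul_eq_mul]
  simp
  ring

end Pool.Agent.H50.CS
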