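import Pool.Agent.H50.CS.Defs
import Pool.Agent.H50.CS.Mat1

/-!
# CS-LEV: the complex Hessian matrix and the Levi form

`levi_eq` (FZ/Calc): `levi P x w = ∑_jk Hm P x j k * w j * conj (w k)`, i.e.
`star w ⬝ᵥ ((Hm P x)ᵀ *ᵥ w)`.

* `hm_herm`: `conj (dbar k (del j P)) = del k (dbar j P) = dbar j (del k P)` for real `P` (conjugation
  exchanges `del` and `dbar` of the conjugate; `del_dbar_comm` of FZ/Calc).
* `hm_psd`: nonnegative Levi form makes `(Hm P x)ᵀ` and hence `Hm P x` positive semidefinite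
  (`Matrix.PosSemidef.transpose`).
* `hm_add`, `hm_const_mul`, `hm_congr`: linearity (`del_add`, `dbar_add` of FZ/Calc1; `del j` of a `C²`
  function is differentiable: `c2_del_diff`).
* `ma_mono_add`: apply `det_add_ge` to `(Hm P x)ᵀ + δ²…`: with `A = (Hm P x)ᵀ`, `B = (Hm Q x)ᵀ`,
  `B - A - δ•1` is Hermitian with nonnegative form, hence psd, so
  `det B ≥ det (A + δ•1) ≥ det A + δ³` (`det_add_ge` twice; `det (δ•1) = δ³`).
* `ma_lower`, `ma_upper`: `det_lower`, `det_upper` for `A = (Hm P x)ᵀ`, `P j i = v i j`;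
  `levi P x (∑ c i • v i)` is the form at `P *ᵥ c`.
(This file: levi_form, hm_herm, hm_psd, levi_nonneg_of_psd, hm_congr, levi_congr, hm_add, hm_const_mul, levi_const_mul, levi_sub, levi_add_const, ma_add_const.)
-/

set_option autoImplicit false

noncomputable section

namespace Pool.Agent.H50.CS

open Complex Metric MeasureTheory Set Filter Topology Matrix
open scoped ContDiff ComplexConjugate ComplexOrder
open Pool.Agent.H8.FZ

variable {n : ℕ}

theorem levi_form {P : En n → ℝ} {x : En n} (hP : ContDiffAt ℝ 2 P x) (w : En n) :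
    ((levi P x w : ℝ) : ℂ) = star (fun j => w j) ⬝ᵥ ((Hm P x)ᵀ *ᵥ (fun j => w j)) := by
  rw [levi_eq hP, Finset.sum_comm]
  simp only [dotProduct, mulVec, Finset.mul_sum, Pi.star_apply, transpose_apply, Hm, of_apply]
  refine Finset.sum_congr rfl fun k _ => Finset.sum_congr rfl fun j _ => ?_
  rw [Complex.star_def]
  ring

theorem hm_herm {P : En n → ℝ} {x : En n} (hP : ContDiffAt ℝ 2 P x) : (Hm P x).IsHermitian := by
  have hg := c2_ofReal hP
  ext j k
  rw [conjTranspose_apply, Complex.star_def]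
  simp only [Hm, of_apply]
  rw [← del_conj (c2_del_diff hg k)]
  have h1 : (fun y => conj (del k (fun y => (P y : ℂ)) y)) =ᶠ[𝓝 x]
      dbar k (fun y => (P y : ℂ)) := by
    have h2 := hP.eventually (by simp)
    filter_upwards [h2] with y hy
    exact (dbar_real (hy.differentiableAt (by norm_num)) k).symm
  rw [del_congr h1, del_dbar_comm hg]

theorem hm_psd {P : En n → ℝ} {x : En n} (hP : ContDiffAt ℝ 2 P x)
    (h : ∀ w, 0 ≤ levi P x w) : (Hm P x)ᵀ.PosSemidef ∧ (Hm P x).PosSemidef := by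
  have h1 : (Hm P x)ᵀ.PosSemidef := by
    refine PosSemidef.of_dotProduct_mulVec_nonneg (hm_herm hP).transpose fun w => ?_
    have h2 := levi_form hP (WithLp.toLp 2 w)
    have h3 : star w ⬝ᵥ ((Hm P x)ᵀ *ᵥ w) = ((levi P x (WithLp.toLp 2 w) : ℝ) : ℂ) := h2.symm
    rw [h3]
    exact_mod_cast h (WithLp.toLp 2 w)
  refine ⟨h1, ?_⟩
  have := h1.transpose
  rwa [transpose_transpose] at this

theorem levi_nonneg_of_psd {P : En n → ℝ} {x : En n} (hP : ContDiffAt ℝ 2 P x)
    (h : (Hm P x).PosSemidef) (w : En n) : 0 ≤ levi P x w := by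
  have h1 := h.transpose.dotProduct_mulVec_nonneg (fun j => w j)
  rw [← levi_form hP w] at h1
  exact_mod_cast h1

theorem hm_congr {P Q : En n → ℝ} {x : En n} (h : P =ᶠ[𝓝 x] Q) : Hm P x = Hm Q x := by
  ext j k
  simp only [Hm, of_apply]
  apply dbar_congr
  have h1 : (fun y => (P y : ℂ)) =ᶠ[𝓝 x] fun y => (Q y : ℂ) := by
    filter_upwards [h] with y hy
    rw [hy]
  filter_upwards [h1.eventuallyEq_nhds] with y hy
  exact del_congr hy j

theorem levi_congr {P Q : En n → ℝ} {x : En n} (h : P =ᶠ[𝓝 x] Q) (w : En n) :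
    levi P x w = levi Q x w := by
  unfold levi
  rw [h.fderiv.fderiv_eq]

theorem hm_add {P Q : En n → ℝ} {x : En n} (hP : ContDiffAt ℝ 2 P x) (hQ : ContDiffAt ℝ 2 Q x) :
    Hm (fun y => P y + Q y) x = Hm P x + Hm Q x := by
  have hgP := c2_ofReal hP
  have hgQ := c2_ofReal hQ
  ext j k
  rw [Matrix.add_apply]
  simp only [Hm, of_apply]
  rw [← dbar_add (c2_del_diff hgP j) (c2_del_diff hgQ j)]
  apply dbar_congr
  filter_upwards [hgP.eventually (by simp), hgQ.eventually (by simp)] with y hy1 hy2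
  rw [← del_add (hy1.differentiableAt (by norm_num)) (hy2.differentiableAt (by norm_num))]
  congr 1
  funext z
  push_cast
  rfl

theorem hm_const_mul {P : En n → ℝ} {x : En n} (hP : ContDiffAt ℝ 2 P x) (c : ℝ) :
    Hm (fun y => c * P y) x = (c : ℂ) • Hm P x := by
  have hgP := c2_ofReal hP
  ext j k
  rw [Matrix.smul_apply, smul_eq_mul]
  simp only [Hm, of_apply]
  rw [← dbar_const_mul (c : ℂ) (c2_del_diff hgP j)]
  apply dbar_congr
  filter_upwards [hgP.eventually (by simp)] with y hy1
  rw [← del_const_mul (c : ℂ) (hy1.differentiableAt (by norm_num))]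
  congr 1
  funext z
  push_cast
  rfl

theorem levi_const_mul {P : En n → ℝ} {x : En n} (hP : ContDiffAt ℝ 2 P x) (c : ℝ) (w : En n) :
    levi (fun y => c * P y) x w = c * levi P x w := by
  have h1 := levi_form (P := fun y => c * P y) (contDiffAt_const.mul hP) w
  rw [hm_const_mul hP, transpose_smul, smul_mulVec, dotProduct_smul, ← levi_form hP w,
    smul_eq_mul] at h1
  exact_mod_cast h1

theorem levi_sub {P Q : En n → ℝ} {x : En n} (hP : ContDiffAt ℝ 2 P x)
    (hQ : ContDiffAt ℝ 2 Q x) (w : En n) :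
    levi (fun y => P y - Q y) x w = levi P x w - levi Q x w := by
  have hQ' : ContDiffAt ℝ 2 (fun y => (-1 : ℝ) * Q y) x := contDiffAt_const.mul hQ
  have e : (fun y => P y - Q y) = fun y => P y + (fun y => (-1 : ℝ) * Q y) y := by
    funext y
    simp only
    ring
  have h1 := levi_form (P := fun y => P y + (fun y => (-1 : ℝ) * Q y) y) (hP.add hQ') w
  rw [hm_add hP hQ', transpose_add, add_mulVec, dotProduct_add, ← levi_form hP w,
    ← levi_form hQ' w, levi_const_mul hQ] at h1
  rw [e]
  have h2 : levi (fun y => P y + (fun y => (-1 : ℝ) * Q y) y) x w =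
      levi P x w + -1 * levi Q x w := by exact_mod_cast h1
  rw [h2]
  ring

theorem levi_add_const (P : En n → ℝ) (x : En n) (c : ℝ) (w : En n) :
    levi (fun y => P y + c) x w = levi P x w := by
  have e : fderiv ℝ (fun y => P y + c) = fderiv ℝ P := by
    funext y
    exact fderiv_add_const c
  unfold levi
  rw [e]

theorem ma_add_const (P : En n → ℝ) (x : En n) (c : ℝ) : ma (fun y => P y + c) x = ma P x := by
  have e : ∀ j : Fin n, del j (fun y => ((P y + c : ℝ) : ℂ)) = del j (fun y => (P y : ℂ)) := by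
    intro j
    funext y
    have e1 : (fun y => ((P y + c : ℝ) : ℂ)) = fun y => (P y : ℂ) + (c : ℂ) := by
      funext z
      push_cast
      rfl
    unfold del
    rw [e1, fderiv_add_const]
  unfold ma Hm
  simp only [e]

end Pool.Agent.H50.CS
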