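import Pool.Agent.H50.CS.Mass

/-!
# CS-LIMIT: first consequences of the definition of `IsMA`

* `IsMA.restrict`: `V ⊆ Ω` open: `IsMA V u (ν.restrict V)`. (`off`, `fin` clear; `lim`: for `V' ⊆ V` use `lim`
  of `Ω` at `V'`, and `∫χ dν = ∫χ d(ν|V)` since `χ = 0` off `V`.)
* `IsMA.lim_int`: `v_k → u` uniformly on `V`, smooth psh on `V`; `g_k → g` uniformly on `V`, all `g_k`
  continuous on `V` and zero on `V` off the fixed compact `K ⊆ V`. Then
  `∫_V g_k (c ma v_k) → ∫_V g dν`. Proof: let `χ₀` be a cut-off (`exists_cutoff`) equal to `1` on `K` with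
  compact support in `V`. `g` (set to `0` off `V`) is continuous with compact support in `K`: uniform limit
  of the `g_k` (set to `0` off `V`), which are continuous on all of `ℂⁿ`. So
  `∫ g (c ma v_k) → ∫ g dν` by `lim`, and `|∫(g_k - g) c ma v_k| ≤ sup|g_k-g| ∫χ₀ c ma v_k`, where the last
  integral converges (by `lim` for `χ₀`), so is bounded; `ma v_k ≥ 0` on `V` (`ma_nonneg`).
* `IsMA.smul`: `u ↦ λu`, `ν ↦ λ³ν` (`λ > 0`): if `v_k → λu` then `λ⁻¹v_k → u`, `ma (λ⁻¹ v) = λ⁻³ ma v`
  (`hm_const_mul`, `Matrix.det_smul`).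
* `IsMA.congr`: `u = u'` on `Ω`.
* `IsMA.add_const`: `v_k → u + c` iff `v_k - c → u` (`ma_add_const`).
* `IsMA.ge`: lower bound for the measure: if `v_k → u` uniformly on `V`, smooth psh there, and
  `F ≤ ma v_k` on the open `W ⊆ V` for all large `k`, `F ≥ 0` continuous on `W`, then
  `c F dV ≤ ν` on `W`. Proof: for compact `K ⊆ W` and open `O`, `K ⊆ O ⊆ W`, take a cut-off
  `1_K ≤ χ ≤ 1_O` (`exists_cutoff`): `∫_K cF ≤ ∫χ c ma v_k → ∫χ dν ≤ ν(O)`. By regularity
  (`ν.restrict` to a relatively compact open set is a finite Borel measure on `ℂⁿ`, hence regular)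
  `∫_K cF ≤ ν K`; then inner regularity of `B ↦ ∫_B cF` (σ-finite `withDensity`, or exhaust by compacts)
  gives `∫_B cF ≤ ν B` for all Borel `B ⊆ W`.
(This file: IsMA.lim_int.)
-/

set_option autoImplicit false

noncomputable section

namespace Pool.Agent.H50.CS

open Complex Metric MeasureTheory Set Filter Topology
open scoped ContDiff ComplexConjugate
open Pool.Agent.H8.FZ

/-- a function which is continuous on the open `V` and zero off the compact `K ⊆ V` -/
theorem cont_of_zero_off {V K : Set (En 3)} (hV : IsOpen V) (hK : IsCompact K) (hKV : K ⊆ V)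
    {G : En 3 → ℝ} (hG : ContinuousOn G V) (hGK : ∀ x, x ∉ K → G x = 0) :
    Continuous G ∧ HasCompactSupport G := by
  refine ⟨?_, ?_⟩
  · rw [continuous_iff_continuousAt]
    intro x
    by_cases hx : x ∈ V
    · exact hG.continuousAt (hV.mem_nhds hx)
    · have hxK : x ∈ Kᶜ := fun h => hx (hKV h)
      have h1 : G =ᶠ[𝓝 x] fun _ => (0 : ℝ) := by
        filter_upwards [hK.isClosed.isOpen_compl.mem_nhds hxK] with y hy
        exact hGK y hy
      exact (continuousAt_congr h1).2 continuousAt_const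
  · exact HasCompactSupport.intro hK hGK

/-- products with functions continuous on `V` are integrable -/
theorem integrable_mul_of_zero_off {V K : Set (En 3)} (hV : IsOpen V) (hK : IsCompact K)
    (hKV : K ⊆ V) {G f : En 3 → ℝ} (hG : ContinuousOn G V) (hf : ContinuousOn f V)
    (hGK : ∀ x, x ∉ K → G x = 0) : Integrable (fun x => G x * f x) := by
  have h := cont_of_zero_off hV hK hKV (G := fun x => G x * f x) (hG.mul hf)
    (fun x hx => by rw [hGK x hx, zero_mul])
  exact h.1.integrable_of_hasCompactSupport h.2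

theorem IsMA.lim_int {Ω : Set (En 3)} {u : En 3 → ℝ} {ν : Measure (En 3)} (h : IsMA Ω u ν)
    {V : Set (En 3)} (hV : IsOpen V) (hVΩ : V ⊆ Ω) {v : ℕ → En 3 → ℝ}
    (hv : ∀ k, SmoothPsh V (v k)) (hvu : TendstoUniformlyOn v u atTop V)
    {K : Set (En 3)} (hK : IsCompact K) (hKV : K ⊆ V) {g : ℕ → En 3 → ℝ} {g₀ : En 3 → ℝ}
    (hg : ∀ k, ContinuousOn (g k) V) (hgK : ∀ k, ∀ x ∈ V, x ∉ K → g k x = 0)
    (hgg : TendstoUniformlyOn g g₀ atTop V) :
    Tendsto (fun k => ∫ x in V, g k x * (maC 3 * ma (v k) x)) atTop (𝓝 (∫ x in V, g₀ x ∂ν)) := by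
  classical
  -- the extended functions
  have hg₀K : ∀ x ∈ V, x ∉ K → g₀ x = 0 := by
    intro x hx hxK
    have h1 : Tendsto (fun k => g k x) atTop (𝓝 (g₀ x)) := hgg.tendsto_at hx
    have h2 : (fun k => g k x) = fun _ => (0 : ℝ) := by
      ext k; exact hgK k x hx hxK
    rw [h2] at h1
    exact tendsto_nhds_unique h1 tendsto_const_nhds
  set G : ℕ → En 3 → ℝ := fun k => V.indicator (g k) with hGdef
  set G₀ : En 3 → ℝ := V.indicator g₀ with hG₀def
  have hGK : ∀ k x, x ∉ K → G k x = 0 := by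
    intro k x hx
    by_cases hxV : x ∈ V
    · rw [hGdef]
      simp only [Set.indicator_of_mem hxV]
      exact hgK k x hxV hx
    · exact Set.indicator_of_notMem hxV _
  have hG₀K : ∀ x, x ∉ K → G₀ x = 0 := by
    intro x hx
    by_cases hxV : x ∈ V
    · rw [hG₀def, Set.indicator_of_mem hxV]
      exact hg₀K x hxV hx
    · exact Set.indicator_of_notMem hxV _
  have hGcV : ∀ k, ContinuousOn (G k) V := fun k =>
    (hg k).congr (fun x hx => Set.indicator_of_mem hx _)
  have hGc : ∀ k, Continuous (G k) := fun k =>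
    (cont_of_zero_off hV hK hKV (hGcV k) (hGK k)).1
  have hGG : TendstoUniformly G G₀ atTop := by
    rw [Metric.tendstoUniformly_iff]
    intro ε hε
    rw [Metric.tendstoUniformlyOn_iff] at hgg
    filter_upwards [hgg ε hε] with k hk x
    by_cases hxV : x ∈ V
    · have e1 : G₀ x = g₀ x := Set.indicator_of_mem hxV _
      have e2 : G k x = g k x := Set.indicator_of_mem hxV _
      rw [e1, e2]
      exact hk x hxV
    · have e1 : G₀ x = 0 := Set.indicator_of_notMem hxV _
      have e2 : G k x = 0 := Set.indicator_of_notMem hxV _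
      rw [e1, e2, dist_self]
      exact hε
  have hG₀c : Continuous G₀ := hGG.continuous (Eventually.of_forall hGc).frequently
  have hG₀s : HasCompactSupport G₀ := HasCompactSupport.intro hK hG₀K
  have hG₀t : tsupport G₀ ⊆ V := by
    refine (closure_minimal ?_ hK.isClosed).trans hKV
    intro x hx
    by_contra hxK
    exact hx (hG₀K x hxK)
  have hmaC : ∀ k, ContinuousOn (fun x => maC 3 * ma (v k) x) V := fun k =>
    continuousOn_const.mul (continuousOn_ma hV (hv k).1)
  have hc0 : 0 ≤ maC 3 := by unfold maC; positivity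
  have hma0 : ∀ k, ∀ x ∈ V, 0 ≤ maC 3 * ma (v k) x := by
    intro k x hx
    refine mul_nonneg hc0 (ma_nonneg ?_ ((hv k).2 x hx))
    have h1 : ContDiffAt ℝ ∞ (v k) x := (hv k).1.contDiffAt (hV.mem_nhds hx)
    exact h1.of_le (WithTop.coe_le_coe.2 le_top)
  -- rewriting the integrals
  have e1 : (fun k => ∫ x in V, g k x * (maC 3 * ma (v k) x)) =
      fun k => ∫ x, G k x * (maC 3 * ma (v k) x) := by
    ext k
    rw [← integral_indicator hV.measurableSet]
    congr 1
    ext x
    by_cases hxV : x ∈ V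
    · rw [Set.indicator_of_mem hxV, hGdef]
      simp only [Set.indicator_of_mem hxV]
    · rw [Set.indicator_of_notMem hxV, hGdef]
      simp only [Set.indicator_of_notMem hxV, zero_mul]
  have e2 : ∫ x in V, g₀ x ∂ν = ∫ x, G₀ x ∂ν := by
    rw [← integral_indicator hV.measurableSet]
  rw [e1, e2]
  have hlim := h.lim V hV hVΩ v hv hvu G₀ hG₀c hG₀s hG₀t
  -- the cut-off
  obtain ⟨χ, hχ, hχs, hχt, hχ0, -, hχK⟩ := exists_cutoff hV hK hKV
  have hlimχ := h.lim V hV hVΩ v hv hvu χ hχ.continuous hχs hχt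
  set B : ℝ := ∫ x, χ x ∂ν with hB
  have hχoff : ∀ x, x ∉ tsupport χ → χ x = 0 := fun x hx => image_eq_zero_of_notMem_tsupport hx
  have hχint : ∀ k, Integrable (fun x => χ x * (maC 3 * ma (v k) x)) := fun k =>
    integrable_mul_of_zero_off hV hχs hχt hχ.continuous.continuousOn (hmaC k) hχoff
  have hdiff : Tendsto (fun k => (∫ x, G k x * (maC 3 * ma (v k) x)) -
      ∫ x, G₀ x * (maC 3 * ma (v k) x)) atTop (𝓝 0) := by
    rw [Metric.tendsto_nhds]
    intro ε hε
    have hB1 : 0 < |B| + 1 := by positivity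
    have hδ : 0 < ε / (2 * (|B| + 1)) := by positivity
    have hG2 := (Metric.tendstoUniformly_iff.1 hGG) _ hδ
    have hχ2 : ∀ᶠ k in atTop, (∫ x, χ x * (maC 3 * ma (v k) x)) < |B| + 1 := by
      apply (hlimχ).eventually_lt_const
      have := le_abs_self B
      linarith
    filter_upwards [hG2, hχ2] with k hk1 hk2
    rw [Real.dist_eq, sub_zero, ← integral_sub
      (integrable_mul_of_zero_off hV hK hKV (hGcV k) (hmaC k) (hGK k))
      (integrable_mul_of_zero_off hV hK hKV hG₀c.continuousOn (hmaC k) hG₀K), ← Real.norm_eq_abs]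
    have hbound : ∀ x, ‖G k x * (maC 3 * ma (v k) x) - G₀ x * (maC 3 * ma (v k) x)‖ ≤
        ε / (2 * (|B| + 1)) * (χ x * (maC 3 * ma (v k) x)) := by
      intro x
      rw [← sub_mul, norm_mul]
      by_cases hxK : x ∈ K
      · have h4 := hma0 k x (hKV hxK)
        rw [hχK x hxK, one_mul, Real.norm_of_nonneg h4]
        apply mul_le_mul_of_nonneg_right _ h4
        have := hk1 x
        rw [dist_comm, Real.dist_eq] at this
        exact this.le
      · rw [hGK k x hxK, hG₀K x hxK, sub_zero, norm_zero, zero_mul]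
        apply mul_nonneg hδ.le
        by_cases hxV : x ∈ V
        · exact mul_nonneg (hχ0 x) (hma0 k x hxV)
        · rw [hχoff x (fun h => hxV (hχt h)), zero_mul]
    refine (norm_integral_le_of_norm_le ((hχint k).const_mul _)
      (Eventually.of_forall hbound)).trans_lt ?_
    rw [integral_const_mul]
    calc ε / (2 * (|B| + 1)) * ∫ x, χ x * (maC 3 * ma (v k) x) ≤
        ε / (2 * (|B| + 1)) * (|B| + 1) := mul_le_mul_of_nonneg_left hk2.le hδ.le
      _ = ε / 2 := by field_simp
      _ < ε := by linarith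
  have h3 := hdiff.add hlim
  simpa using h3

end Pool.Agent.H50.CS
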