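import Pool.Agent.H50.CS.Defs

/-!
# CS-PSHOPS: elementary operations on continuous psh functions; maximum principle

* `ContPsh.mono`, `ContPsh.max`, `ContPsh.smul` (positive factor), `ContPsh.add_const`: immediate
  (integrals of continuous functions on `[0,2π]`; on the disc `a + e^{iθ}b ∈ Ω`).
* `ContPsh.of_tendsto`: locally uniform limits: `u_k → u` uniformly on `Ω`.
* `ContPsh.le_zero`: maximum principle. `Ω` bounded open, `u → 0` at every point of the frontier. Then
  `u ≤ 0` on `Ω`. Proof: suppose `u x₀ = s > 0` with... The function `ū = u` on `Ω`, `0` off `Ω` has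
  `{ū ≥ s/2}` compact in `Ω` (closed by continuity of `ū` at frontier points, bounded) so `u` attains its
  supremum `M > 0` over `Ω` at some point; among the (compact, nonempty) set `{u = M}` pick a point
  `a` maximizing `‖a‖`-coordinate, i.e. maximizing a real linear functional such as `x ↦ Re (x j)` — or
  simply: for any `a` with `u a = M` and direction `b` (a fixed unit vector) let `r` be the supremum of the
  radii with the closed disc in `Ω`; the sub-mean value inequality and `u ≤ M` and continuity give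
  `u = M` on the circle of radius `r' < r` for all `r' < r`; the disc of radius `r` touches the frontier, and
  `u → 0` there, contradiction with `u = M` nearby. (Simplest: choose `a ∈ {u = M}` maximizing the
  continuous function `x ↦ Re ⟪b,x⟫` on the compact set `{u = M}`; the circle `a + re^{iθ}b`, `r` small,
  consists of points with `u = M`, and at `θ = 0` the functional is larger: contradiction.)
-/

set_option autoImplicit false

noncomputable section

namespace Pool.Agent.H50.CS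

open Complex Metric MeasureTheory Set Filter Topology
open scoped ContDiff ComplexConjugate
open Pool.Agent.H8.FZ

variable {n : ℕ}

theorem po_circ {Ω : Set (En n)} {a b : En n} (hab : ∀ ζ : ℂ, ‖ζ‖ ≤ 1 → a + ζ • b ∈ Ω) (θ : ℝ) :
    a + Complex.exp (θ * I) • b ∈ Ω :=
  hab _ (by rw [Complex.norm_exp_ofReal_mul_I])

theorem po_cont {Ω : Set (En n)} {u : En n → ℝ} (hu : ContinuousOn u Ω) {a b : En n}
    (hab : ∀ ζ : ℂ, ‖ζ‖ ≤ 1 → a + ζ • b ∈ Ω) :
    Continuous (fun θ : ℝ => u (a + Complex.exp (θ * I) • b)) := by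
  refine hu.comp_continuous ?_ (fun θ => po_circ hab θ)
  fun_prop

theorem po_center {Ω : Set (En n)} {a b : En n} (hab : ∀ ζ : ℂ, ‖ζ‖ ≤ 1 → a + ζ • b ∈ Ω) :
    a ∈ Ω := by
  have := hab 0 (by simp)
  simpa using this

theorem po_avg_mono {f g : ℝ → ℝ} (hf : Continuous f) (hg : Continuous g) (h : ∀ θ, f θ ≤ g θ) :
    (2 * Real.pi)⁻¹ * ∫ θ in (0 : ℝ)..(2 * Real.pi), f θ ≤
      (2 * Real.pi)⁻¹ * ∫ θ in (0 : ℝ)..(2 * Real.pi), g θ := by
  have hpi := Real.pi_pos
  refine mul_le_mul_of_nonneg_left ?_ (by positivity)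
  exact intervalIntegral.integral_mono (by positivity) (hf.intervalIntegrable _ _)
    (hg.intervalIntegrable _ _) h

theorem po_avg_const (c : ℝ) :
    (2 * Real.pi)⁻¹ * ∫ _θ in (0 : ℝ)..(2 * Real.pi), c = c := by
  have hpi := Real.pi_pos
  rw [intervalIntegral.integral_const, smul_eq_mul, sub_zero]
  field_simp

theorem po_avg_add {f : ℝ → ℝ} (hf : Continuous f) (c : ℝ) :
    (2 * Real.pi)⁻¹ * ∫ θ in (0 : ℝ)..(2 * Real.pi), (f θ + c) =
      (2 * Real.pi)⁻¹ * (∫ θ in (0 : ℝ)..(2 * Real.pi), f θ) + c := by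
  rw [intervalIntegral.integral_add (hf.intervalIntegrable _ _) (intervalIntegrable_const),
    mul_add, po_avg_const]

theorem ContPsh.mono {Ω Ω' : Set (En n)} {u : En n → ℝ} (hu : ContPsh Ω u) (h : Ω' ⊆ Ω) :
    ContPsh Ω' u :=
  ⟨hu.1.mono h, fun a b hab => hu.2 a b (fun ζ hζ => h (hab ζ hζ))⟩

theorem ContPsh.max {Ω : Set (En n)} {u v : En n → ℝ} (hu : ContPsh Ω u) (hv : ContPsh Ω v) :
    ContPsh Ω (fun x => max (u x) (v x)) := by
  have hc : ContinuousOn (fun x => Max.max (u x) (v x)) Ω := ContinuousOn.sup hu.1 hv.1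
  refine ⟨hc, fun a b hab => ?_⟩
  have h1 := po_cont hc hab
  refine max_le ((hu.2 a b hab).trans ?_) ((hv.2 a b hab).trans ?_)
  · exact po_avg_mono (po_cont hu.1 hab) h1 (fun θ => le_max_left _ _)
  · exact po_avg_mono (po_cont hv.1 hab) h1 (fun θ => le_max_right _ _)

theorem ContPsh.add_const {Ω : Set (En n)} {u : En n → ℝ} (hu : ContPsh Ω u) (c : ℝ) :
    ContPsh Ω (fun x => u x + c) := by
  refine ⟨hu.1.add continuousOn_const, fun a b hab => ?_⟩
  rw [po_avg_add (po_cont hu.1 hab)]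
  exact add_le_add (hu.2 a b hab) le_rfl

theorem ContPsh.const_mul {Ω : Set (En n)} {u : En n → ℝ} (hu : ContPsh Ω u) {c : ℝ}
    (hc : 0 ≤ c) : ContPsh Ω (fun x => c * u x) := by
  refine ⟨continuousOn_const.mul hu.1, fun a b hab => ?_⟩
  rw [intervalIntegral.integral_const_mul]
  have := mul_le_mul_of_nonneg_left (hu.2 a b hab) hc
  calc c * u a ≤ _ := this
    _ = _ := by ring

theorem ContPsh.of_tendsto {Ω : Set (En n)} {u : En n → ℝ} {v : ℕ → En n → ℝ}
    (hv : ∀ k, ContPsh Ω (v k)) (h : TendstoUniformlyOn v u atTop Ω) : ContPsh Ω u := by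
  have hc : ContinuousOn u Ω :=
    h.continuousOn (Filter.Eventually.of_forall fun k => (hv k).1).frequently
  refine ⟨hc, fun a b hab => ?_⟩
  refine le_of_forall_pos_le_add fun ε hε => ?_
  obtain ⟨k, hk⟩ := (Metric.tendstoUniformlyOn_iff.1 h (ε / 2) (by positivity)).exists
  have h1 : ∀ x ∈ Ω, |u x - v k x| < ε / 2 := fun x hx => by
    have := hk x hx
    rwa [Real.dist_eq] at this
  have h2 := abs_lt.1 (h1 a (po_center hab))
  have h3 := (hv k).2 a b hab
  have h4 := po_avg_mono (po_cont (hv k).1 hab) ((po_cont hc hab).add continuous_const)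
    (f := fun θ => v k (a + Complex.exp (θ * I) • b))
    (g := fun θ => u (a + Complex.exp (θ * I) • b) + ε / 2)
    (fun θ => by
      have := abs_lt.1 (h1 _ (po_circ hab θ))
      linarith)
  rw [po_avg_add (po_cont hc hab)] at h4
  linarith

/-- sublevel sets of a function with zero boundary values are compact -/
theorem isCompact_sublevel {Ω : Set (En n)} (hΩ : IsOpen Ω) (hb : Bornology.IsBounded Ω)
    {u : En n → ℝ} (hu : ContinuousOn u Ω)
    (h0 : ∀ y ∈ frontier Ω, Tendsto u (𝓝[Ω] y) (𝓝 0)) {s : ℝ} (hs : s < 0) :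
    IsCompact {x | x ∈ Ω ∧ u x ≤ s} := by
  have hsub : {x | x ∈ Ω ∧ u x ≤ s} ⊆ Ω := fun x hx => hx.1
  refine Metric.isCompact_of_isClosed_isBounded ?_ (hb.subset hsub)
  rw [← closure_subset_iff_isClosed]
  intro x hx
  haveI : (𝓝[{x | x ∈ Ω ∧ u x ≤ s}] x).NeBot := mem_closure_iff_nhdsWithin_neBot.1 hx
  have hle : 𝓝[{x | x ∈ Ω ∧ u x ≤ s}] x ≤ 𝓝[Ω] x := nhdsWithin_mono _ hsub
  have hev : ∀ᶠ y in 𝓝[{x | x ∈ Ω ∧ u x ≤ s}] x, u y ≤ s := by
    filter_upwards [self_mem_nhdsWithin] with y hy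
    exact hy.2
  by_cases hxΩ : x ∈ Ω
  · exact ⟨hxΩ, le_of_tendsto ((hu x hxΩ).mono_left hle) hev⟩
  · exfalso
    have hfr : x ∈ frontier Ω := by
      rw [hΩ.frontier_eq]
      exact ⟨closure_mono hsub hx, hxΩ⟩
    have := le_of_tendsto ((h0 x hfr).mono_left hle) hev
    linarith

theorem ContPsh.le_zero (hn : 0 < n) {Ω : Set (En n)} (hΩ : IsOpen Ω)
    (hb : Bornology.IsBounded Ω) {u : En n → ℝ} (hu : ContPsh Ω u)
    (h0 : ∀ y ∈ frontier Ω, Tendsto u (𝓝[Ω] y) (𝓝 0)) : ∀ x ∈ Ω, u x ≤ 0 := by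
  by_contra hcon
  push Not at hcon
  obtain ⟨x0, hx0, hs⟩ := hcon
  have hcomp : ∀ t : ℝ, 0 < t → IsCompact {x | x ∈ Ω ∧ t ≤ u x} := by
    intro t ht
    have h1 := isCompact_sublevel hΩ hb (u := fun x => -u x) hu.1.neg
      (fun y hy => by simpa using (h0 y hy).neg) (s := -t) (by linarith)
    have h2 : {x | x ∈ Ω ∧ -u x ≤ -t} = {x | x ∈ Ω ∧ t ≤ u x} := by
      ext x; simp
    rwa [h2] at h1
  obtain ⟨x1, hx1, hmax⟩ := (hcomp (u x0) hs).exists_isMaxOn ⟨x0, hx0, le_rfl⟩
    (hu.1.mono fun x hx => hx.1)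
  have hM : ∀ x ∈ Ω, u x ≤ u x1 := by
    intro x hx
    rcases le_or_gt (u x0) (u x) with h | h
    · exact hmax ⟨hx, h⟩
    · exact h.le.trans hx1.2
  have hM0 : 0 < u x1 := lt_of_lt_of_le hs hx1.2
  set j : Fin n := ⟨0, hn⟩
  obtain ⟨a, ha, hamax⟩ := (hcomp (u x1) hM0).exists_isMaxOn ⟨x1, hx1.1, le_rfl⟩
    (f := fun x : En n => (x j).re) (by fun_prop)
  have hua : u a = u x1 := le_antisymm (hM a ha.1) ha.2
  obtain ⟨ε, hε, hball⟩ := Metric.isOpen_iff.1 hΩ a ha.1
  set b : En n := EuclideanSpace.single j ((ε / 2 : ℝ) : ℂ) with hbdef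
  have hbn : ‖b‖ = ε / 2 := by
    rw [hbdef, EuclideanSpace.norm_single, Complex.norm_real, Real.norm_eq_abs,
      abs_of_pos (by positivity)]
  have hab : ∀ ζ : ℂ, ‖ζ‖ ≤ 1 → a + ζ • b ∈ Ω := by
    intro ζ hζ
    apply hball
    rw [Metric.mem_ball, dist_eq_norm, add_sub_cancel_left, norm_smul, hbn]
    nlinarith
  have h1 := hu.2 a b hab
  have hcont := po_cont hu.1 hab
  have h2 : u (a + b) = u x1 := by
    by_contra hne
    have hlt : u (a + b) < u x1 := by
      refine lt_of_le_of_ne (hM _ ?_) hne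
      have := hab 1 (by simp)
      simpa using this
    have hpos : 0 < ∫ θ in (0 : ℝ)..(2 * Real.pi),
        (u x1 - u (a + Complex.exp (θ * I) • b)) := by
      refine intervalIntegral.integral_pos (by positivity) ?_ ?_ ?_
      · exact (continuous_const.sub hcont).continuousOn
      · intro θ _
        have := hM _ (po_circ hab θ)
        linarith
      · refine ⟨0, ⟨le_rfl, by positivity⟩, ?_⟩
        simp only [Complex.ofReal_zero, zero_mul, Complex.exp_zero, one_smul]
        linarith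
    rw [intervalIntegral.integral_sub intervalIntegrable_const (hcont.intervalIntegrable _ _)]
      at hpos
    have hpi := Real.pi_pos
    have h3 := po_avg_const (u x1)
    have h4 : 0 < (2 * Real.pi)⁻¹ * ((∫ _θ in (0 : ℝ)..(2 * Real.pi), u x1) -
        ∫ θ in (0 : ℝ)..(2 * Real.pi), u (a + Complex.exp (θ * I) • b)) :=
      mul_pos (by positivity) hpos
    rw [mul_sub, h3] at h4
    linarith
  have h3 : a + b ∈ {x | x ∈ Ω ∧ u x1 ≤ u x} := by
    refine ⟨?_, h2.ge⟩
    have := hab 1 (by simp)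
    simpa using this
  have h4 := hamax h3
  have h5 : ((a + b) j).re = (a j).re + ε / 2 := by
    simp [hbdef]
  simp only [Set.mem_setOf_eq] at h4
  rw [h5] at h4
  linarith

end Pool.Agent.H50.CS
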