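import Pool.Agent.H50.CS.Limit
import Pool.Agent.H50.CS.LimInt
import Pool.Agent.H50.CS.CompIneq
import Pool.Agent.H50.CS.MollP

/-!
# CS-VISC: auxiliary lemmas for `Visc.lean` and `LowerC.lean`
-/

set_option autoImplicit false

noncomputable section

namespace Pool.Agent.H50.CS

open Complex Metric MeasureTheory Set Filter Topology
open scoped ContDiff ComplexConjugate
open Pool.Agent.H8.FZ

namespace ViscAux

variable {n : ℕ}

theorem levi_norm_sq_sub (a x w : En n) : levi (fun y : En n => ‖y - a‖ ^ 2) x w = ‖w‖ ^ 2 := by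
  have h1 : fderiv ℝ (fun y : En n => ‖y - a‖ ^ 2) =
      fun y => fderiv ℝ (fun y : En n => ‖y‖ ^ 2) (y - a) := by
    funext y
    exact fderiv_comp_sub (f := fun y : En n => ‖y‖ ^ 2) a
  have h2 : fderiv ℝ (fderiv ℝ (fun y : En n => ‖y - a‖ ^ 2)) x =
      fderiv ℝ (fderiv ℝ (fun y : En n => ‖y‖ ^ 2)) (x - a) := by
    rw [h1]
    exact fderiv_comp_sub (f := fderiv ℝ (fun y : En n => ‖y‖ ^ 2)) a
  have h3 := levi_norm_sq (x - a) w
  rw [levi] at h3 ⊢
  rw [h2]
  exact h3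

theorem smooth_norm_sq_sub (a : En n) : ContDiff ℝ ∞ (fun y : En n => ‖y - a‖ ^ 2) :=
  (contDiff_norm_sq ℂ).comp (contDiff_id.sub contDiff_const)

/-- The Levi form is controlled by the second derivative. -/
theorem levi_ge_of_near {P : En n → ℝ} {x x₀ : En n} {l : ℝ}
    (h0 : ∀ w, l * ‖w‖ ^ 2 ≤ levi P x₀ w)
    (h : ‖fderiv ℝ (fderiv ℝ P) x - fderiv ℝ (fderiv ℝ P) x₀‖ ≤ l) (w : En n) :
    0 ≤ levi P x w := by
  have hb : ∀ v : En n, fderiv ℝ (fderiv ℝ P) x₀ v v - l * ‖v‖ ^ 2 ≤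
      fderiv ℝ (fderiv ℝ P) x v v := by
    intro v
    have h1 : |(fderiv ℝ (fderiv ℝ P) x - fderiv ℝ (fderiv ℝ P) x₀) v v| ≤ l * ‖v‖ ^ 2 := by
      have h2 := ((fderiv ℝ (fderiv ℝ P) x - fderiv ℝ (fderiv ℝ P) x₀).le_opNorm₂ v v)
      rw [Real.norm_eq_abs] at h2
      refine h2.trans ?_
      rw [mul_assoc, ← sq]
      exact mul_le_mul_of_nonneg_right h (sq_nonneg _)
    have h3 : (fderiv ℝ (fderiv ℝ P) x - fderiv ℝ (fderiv ℝ P) x₀) v v =
        fderiv ℝ (fderiv ℝ P) x v v - fderiv ℝ (fderiv ℝ P) x₀ v v := by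
      simp
    rw [h3] at h1
    have := (abs_le.1 h1).1
    linarith
  have h1 := hb w
  have h2 := hb (I • w)
  have h3 : ‖(I • w : En n)‖ = ‖w‖ := by rw [norm_smul, Complex.norm_I, one_mul]
  rw [h3] at h2
  have h4 := h0 w
  have h5 : 0 ≤ l * ‖w‖ ^ 2 := by
    have : 0 ≤ l := le_trans (ContinuousLinearMap.opNorm_nonneg _) h
    positivity
  rw [levi] at h4 ⊢
  linarith

theorem uc_st : UniformContinuous Real.smoothTransition := by
  have h1 : UniformContinuous (fun y : Icc (0 : ℝ) 1 => Real.smoothTransition y) :=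
    CompactSpace.uniformContinuous_of_continuous
      (Real.smoothTransition.continuous.comp continuous_subtype_val)
  have h2 : UniformContinuous (projIcc (0 : ℝ) 1 zero_le_one) := LipschitzWith.uniformContinuous (LipschitzWith.projIcc zero_le_one)
  have h3 := h1.comp h2
  have h4 : (fun y : Icc (0 : ℝ) 1 => Real.smoothTransition y) ∘ (projIcc (0 : ℝ) 1 zero_le_one) =
      Real.smoothTransition := by
    funext x
    exact Real.smoothTransition.projIcc
  rwa [h4] at h3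


/-- part (a) -/
theorem levi_nonneg_of_max {Ω : Set (En n)} (hΩ : IsOpen Ω) {u : En n → ℝ} (hu : ContPsh Ω u)
    {q : En n → ℝ} (hq : ContDiff ℝ ∞ q) {x₀ : En n} (hx₀ : x₀ ∈ Ω)
    (hmax : ∀ᶠ x in 𝓝 x₀, u x - q x ≤ u x₀ - q x₀) (w : En n) : 0 ≤ levi q x₀ w := by
  obtain ⟨ρ, hρ, hρ1⟩ := Metric.eventually_nhds_iff_ball.1 (hmax.and (hΩ.mem_nhds hx₀))
  have hq2 : ContDiffAt ℝ 2 q x₀ := hq.contDiffAt.of_le ENat.LEInfty.out
  refine levi_nonneg_of_mean hq2 w (r₀ := ρ / (‖w‖ + 1)) (by positivity) fun r hr0 hr => ?_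
  have hw : 0 < ‖w‖ + 1 := by positivity
  have hrw : r * ‖w‖ < ρ := by
    rw [lt_div_iff₀ hw] at hr
    nlinarith [norm_nonneg w]
  set b : En n := (r : ℂ) • w with hb
  have hnb : ‖b‖ < ρ := by
    rw [hb, norm_smul, Complex.norm_real, Real.norm_eq_abs, abs_of_pos hr0]
    exact hrw
  have hmem : ∀ ζ : ℂ, ‖ζ‖ ≤ 1 → x₀ + ζ • b ∈ ball x₀ ρ := by
    intro ζ hζ
    rw [mem_ball, dist_eq_norm, add_sub_cancel_left, norm_smul]
    calc ‖ζ‖ * ‖b‖ ≤ 1 * ‖b‖ := mul_le_mul_of_nonneg_right hζ (norm_nonneg _)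
      _ < ρ := by rw [one_mul]; exact hnb
  have hE : ∀ θ : ℝ, ‖Complex.exp (θ * I)‖ ≤ 1 := fun θ => (Complex.norm_exp_ofReal_mul_I θ).le
  have h1 := hu.2 x₀ b (fun ζ hζ => (hρ1 _ (hmem ζ hζ)).2)
  have hcE : Continuous (fun θ : ℝ => x₀ + Complex.exp (θ * I) • b) := by fun_prop
  have hcu : Continuous (fun θ : ℝ => u (x₀ + Complex.exp (θ * I) • b)) :=
    hu.1.comp_continuous hcE (fun θ => (hρ1 _ (hmem _ (hE θ))).2)
  have hcq : Continuous (fun θ : ℝ => q (x₀ + Complex.exp (θ * I) • b)) :=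
    hq.continuous.comp hcE
  have hpi : 0 < 2 * Real.pi := by positivity
  have h2 : ∫ θ in (0 : ℝ)..(2 * Real.pi), u (x₀ + Complex.exp (θ * I) • b) ≤
      ∫ θ in (0 : ℝ)..(2 * Real.pi), (q (x₀ + Complex.exp (θ * I) • b) + (u x₀ - q x₀)) := by
    refine intervalIntegral.integral_mono_on hpi.le (hcu.intervalIntegrable _ _)
      ((hcq.add continuous_const).intervalIntegrable _ _) fun θ _ => ?_
    have := (hρ1 _ (hmem _ (hE θ))).1
    linarith
  rw [intervalIntegral.integral_add (hcq.intervalIntegrable _ _)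
    (continuous_const.intervalIntegrable _ _), intervalIntegral.integral_const, sub_zero,
    smul_eq_mul] at h2
  have h3 : (2 * Real.pi)⁻¹ * ∫ θ in (0 : ℝ)..(2 * Real.pi), u (x₀ + Complex.exp (θ * I) • b) ≤
      (2 * Real.pi)⁻¹ * ((∫ θ in (0 : ℝ)..(2 * Real.pi), q (x₀ + Complex.exp (θ * I) • b)) +
        2 * Real.pi * (u x₀ - q x₀)) := mul_le_mul_of_nonneg_left h2 (by positivity)
  rw [mul_add, inv_mul_cancel_left₀ hpi.ne'] at h3
  have h4 : ∀ θ : ℝ, (r : ℂ) • (Complex.exp (θ * I) • w) = Complex.exp (θ * I) • b := by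
    intro θ
    rw [hb, smul_comm]
  simp only [h4]
  linarith


/-- a continuous function on `V` which vanishes off a compact `K ⊆ V`, extended by zero -/
theorem continuous_indicator {V K : Set (En n)} (hV : IsOpen V) (hK : IsCompact K) (hKV : K ⊆ V)
    {f : En n → ℝ} (hf : ContinuousOn f V) (h0 : ∀ x ∈ V, x ∉ K → f x = 0) :
    Continuous (V.indicator f) ∧ tsupport (V.indicator f) ⊆ K ∧
      HasCompactSupport (V.indicator f) := by
  have hz : ∀ x, x ∉ K → V.indicator f x = 0 := by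
    intro x hx
    by_cases hxV : x ∈ V
    · rw [indicator_of_mem hxV, h0 x hxV hx]
    · exact indicator_of_notMem hxV _
  have hts : tsupport (V.indicator f) ⊆ K := by
    refine closure_minimal ?_ hK.isClosed
    intro x hx
    by_contra hxK
    exact hx (hz x hxK)
  refine ⟨?_, hts, HasCompactSupport.of_support_subset_isCompact hK
    ((subset_tsupport _).trans hts)⟩
  rw [continuous_iff_continuousAt]
  intro x
  by_cases hxK : x ∈ K
  · have hxV := hKV hxK
    have h1 : V.indicator f =ᶠ[𝓝 x] f := by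
      filter_upwards [hV.mem_nhds hxV] with y hy
      exact indicator_of_mem hy _
    exact (hf.continuousAt (hV.mem_nhds hxV)).congr h1.symm
  · have h1 : V.indicator f =ᶠ[𝓝 x] fun _ => 0 := by
      filter_upwards [hK.isClosed.isOpen_compl.mem_nhds hxK] with y hy
      exact hz y hy
    exact continuousAt_const.congr h1.symm

theorem integrableOn_of_compact {V K : Set (En n)} (hV : IsOpen V) (hK : IsCompact K)
    (hKV : K ⊆ V) {f : En n → ℝ} (hf : ContinuousOn f V) (h0 : ∀ x ∈ V, x ∉ K → f x = 0) :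
    IntegrableOn f V := by
  obtain ⟨h1, -, h3⟩ := continuous_indicator hV hK hKV hf h0
  exact (integrable_indicator_iff hV.measurableSet).1 (h1.integrable_of_hasCompactSupport h3)


/-- integrals of uniformly convergent functions supported in a fixed compact set -/
theorem tendsto_setIntegral_mul {V K : Set (En n)} (hV : IsOpen V) (hK : IsCompact K)
    (hKV : K ⊆ V) {g : ℕ → En n → ℝ} {g₀ m : En n → ℝ} (hg : ∀ k, ContinuousOn (g k) V)
    (hgK : ∀ k, ∀ x ∈ V, x ∉ K → g k x = 0) (hgg : TendstoUniformlyOn g g₀ atTop V)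
    (hm : ContinuousOn m V) :
    Tendsto (fun k => ∫ x in V, g k x * m x) atTop (𝓝 (∫ x in V, g₀ x * m x)) := by
  have hg0 : ContinuousOn g₀ V := hgg.continuousOn (Frequently.of_forall fun k => hg k)
  have hg0K : ∀ x ∈ V, x ∉ K → g₀ x = 0 := by
    intro x hx hxK
    have h1 := hgg.tendsto_at hx
    have h2 : (fun k => g k x) = fun _ => 0 := funext fun k => hgK k x hx hxK
    rw [h2] at h1
    exact tendsto_nhds_unique h1 tendsto_const_nhds
  have e : ∀ f : En n → ℝ, (∀ x ∈ V, x ∉ K → f x = 0) →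
      ∫ x in V, f x * m x = ∫ x in K, f x * m x := by
    intro f hf
    exact setIntegral_eq_of_subset_of_forall_sdiff_eq_zero hV.measurableSet hKV
      (fun x hx => by rw [hf x hx.1 hx.2, zero_mul])
  rw [e g₀ hg0K]
  have e2 : (fun k => ∫ x in V, g k x * m x) = fun k => ∫ x in K, g k x * m x :=
    funext fun k => e (g k) (hgK k)
  rw [e2]
  have hmK : ContinuousOn m K := hm.mono hKV
  have hbd : ∀ᶠ k in atTop, ∀ x ∈ V, |g₀ x - g k x| < 1 := by
    have := Metric.tendstoUniformlyOn_iff.1 hgg 1 one_pos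
    filter_upwards [this] with k hk x hx
    have := hk x hx
    rwa [Real.dist_eq] at this
  refine tendsto_integral_filter_of_dominated_convergence (fun x => (|g₀ x| + 1) * |m x|)
    (Eventually.of_forall fun k => ?_) ?_ ?_ ?_
  · exact (((hg k).mono hKV).mul hmK).aestronglyMeasurable hK.measurableSet
  · filter_upwards [hbd] with k hk
    refine (ae_restrict_iff' hK.measurableSet).2 (Eventually.of_forall fun x hx => ?_)
    rw [norm_mul, Real.norm_eq_abs, Real.norm_eq_abs]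
    refine mul_le_mul_of_nonneg_right ?_ (abs_nonneg _)
    have h1 := hk x (hKV hx)
    have h2 : |g k x| ≤ |g₀ x| + |g₀ x - g k x| := by
      have := abs_sub_abs_le_abs_sub (g k x) (g₀ x)
      rw [abs_sub_comm] at this
      linarith
    linarith
  · exact (((((hg0.mono hKV).abs).add continuousOn_const).mul hmK.abs).integrableOn_compact hK)
  · refine (ae_restrict_iff' hK.measurableSet).2 (Eventually.of_forall fun x hx => ?_)
    exact (hgg.tendsto_at (hKV hx)).mul_const _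


theorem c2_of_smooth {P : En n → ℝ} (hP : ContDiff ℝ ∞ P) (x : En n) : ContDiffAt ℝ 2 P x :=
  hP.contDiffAt.of_le ENat.LEInfty.out

/-- the local test function -/
theorem exists_local {q F : En 3 → ℝ} {T : Set (En 3)} (hT : IsOpen T) (hF : ContinuousOn F T)
    (hq : ContDiff ℝ ∞ q) {x₀ : En 3} (hx₀ : x₀ ∈ T) (hlev : ∀ w, 0 ≤ levi q x₀ w)
    (hcon : ma q x₀ < F x₀) : ∃ l : ℝ, 0 < l ∧ ∀ᶠ x in 𝓝 x₀,
      (∀ w, 0 ≤ levi (fun y => q y + l * ‖y - x₀‖ ^ 2) x w) ∧
      ma (fun y => q y + l * ‖y - x₀‖ ^ 2) x < F x := by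
  have hN := smooth_norm_sq_sub x₀
  have hN2 := c2_of_smooth hN x₀
  have hq2 := c2_of_smooth hq x₀
  have e : ∀ l : ℝ, ma (fun y => q y + l * ‖y - x₀‖ ^ 2) x₀ =
      (Hm q x₀ + (l : ℂ) • Hm (fun y => ‖y - x₀‖ ^ 2) x₀).det.re := by
    intro l
    rw [ma, hm_add hq2 (contDiffAt_const.mul hN2), hm_const_mul hN2]
  have hcont : Continuous (fun l : ℝ =>
      (Hm q x₀ + (l : ℂ) • Hm (fun y => ‖y - x₀‖ ^ 2) x₀).det.re) := by
    refine Complex.continuous_re.comp (Continuous.matrix_det ?_)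
    exact continuous_const.add (Complex.continuous_ofReal.smul continuous_const)
  have h0 : (Hm q x₀ + ((0 : ℝ) : ℂ) • Hm (fun y => ‖y - x₀‖ ^ 2) x₀).det.re < F x₀ := by
    rw [Complex.ofReal_zero, zero_smul, add_zero]
    exact hcon
  have h1 : ∀ᶠ l : ℝ in 𝓝[>] 0,
      (Hm q x₀ + (l : ℂ) • Hm (fun y => ‖y - x₀‖ ^ 2) x₀).det.re < F x₀ :=
    (hcont.continuousAt.eventually_lt continuousAt_const h0).filter_mono nhdsWithin_le_nhds
  obtain ⟨l, hl, hl0⟩ := (h1.and self_mem_nhdsWithin).exists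
  refine ⟨l, hl0, ?_⟩
  rw [← e l] at hl
  set Q : En 3 → ℝ := fun y => q y + l * ‖y - x₀‖ ^ 2 with hQdef
  have hQ : ContDiff ℝ ∞ Q := hq.add (contDiff_const.mul hN)
  have hlev0 : ∀ w, l * ‖w‖ ^ 2 ≤ levi Q x₀ w := by
    intro w
    have h2 : levi Q x₀ w = levi q x₀ w + levi (fun y => l * ‖y - x₀‖ ^ 2) x₀ w :=
      levi_add hq2 (contDiffAt_const.mul hN2) w
    rw [h2, levi_const_mul hN2, levi_norm_sq_sub]
    linarith [hlev w]
  have ev1 : ∀ᶠ x in 𝓝 x₀, ‖fderiv ℝ (fderiv ℝ Q) x - fderiv ℝ (fderiv ℝ Q) x₀‖ ≤ l := by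
    have h1 : ContDiff ℝ ∞ (fderiv ℝ Q) := hQ.fderiv_right (by simp)
    have h2 : ContDiff ℝ ∞ (fderiv ℝ (fderiv ℝ Q)) := h1.fderiv_right (by simp)
    have hc2 := h2.continuous
    filter_upwards [Metric.tendsto_nhds.1 (hc2.tendsto x₀) l hl0] with x hx
    rw [dist_eq_norm] at hx
    exact hx.le
  have hma : Continuous (ma Q) :=
    continuousOn_univ.1 (continuousOn_ma isOpen_univ hQ.contDiffOn)
  have ev2 : ∀ᶠ x in 𝓝 x₀, ma Q x < F x :=
    hma.continuousAt.eventually_lt (hF.continuousAt (hT.mem_nhds hx₀)) hl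
  filter_upwards [ev1, ev2] with x hx1 hx2
  exact ⟨fun w => levi_ge_of_near hlev0 hx1 w, hx2⟩


end ViscAux

end Pool.Agent.H50.CS
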