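import Pool.Agent.H50.CS.LimInt
import Pool.Agent.H50.CS.CompIneq
import Pool.Agent.H50.CS.MollP
import Pool.Agent.H50.CS.PshOps
import Pool.Agent.H50.CS.VAux

/-!
# CS-LOWERC: comparison from below with a smooth psh function

`Ω` bounded open, `u` a continuous psh function with zero boundary values, `IsMA Ω u ν`; `S` smooth on
`ℂ³`, psh on `Ω`, `S ≤ 0` on `Ω`; `θ` smooth, monotone, `θ = 0` on `(-∞, δ]` with `δ > 0`. Then
`∫_Ω θ(S-u) c ma S ≤ ∫_Ω θ(S-u) dν`.

Proof. `K = {x ∈ Ω : u x ≤ -δ/2}` is compact (`isCompact_sublevel`). Let `V` be open with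
`K ⊆ V`, `closure V` compact in `Ω`; `u_k → u` uniformly on `V`, smooth psh on `V` (`exists_smooth_approx`). For large `k`,
`|u_k - u| < δ/2` on `V`, so if `x ∈ V \ K`: `S x - u_k x ≤ -u_k x ≤ -u x + δ/2 < δ`, `θ(S-u_k) = 0` at `x`.
`comp_ineq` on `V` (`p = S`, `q = u_k`): `∫_V θ(S-u_k) (ma S - ma u_k) ≤ 0`. Let `k → ∞`: second term by
`IsMA.lim_int` (`g_k = θ(S-u_k) → θ(S-u)` uniformly on `V`: `S`, `u` bounded on the relatively compact `V`, `θ` uniformly
continuous on bounded intervals), first term by uniform convergence on `K` (dominated). Off `K` (in `Ω`),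
`θ(S-u) = 0`, so the integrals over `V` and over `Ω` agree.
-/

set_option autoImplicit false

noncomputable section

namespace Pool.Agent.H50.CS

open Complex Metric MeasureTheory Set Filter Topology
open scoped ContDiff ComplexConjugate
open Pool.Agent.H8.FZ

open ViscAux in
theorem lower_comp {Ω : Set (En 3)} (hΩ : IsOpen Ω) (hb : Bornology.IsBounded Ω) {u : En 3 → ℝ}
    {ν : Measure (En 3)} (hu : ContSol Ω u ν) {S : En 3 → ℝ} (hS : ContDiff ℝ ∞ S)
    (hSp : ∀ x ∈ Ω, ∀ w, 0 ≤ levi S x w) (hS0 : ∀ x ∈ Ω, S x ≤ 0) {θ : ℝ → ℝ}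
    (hθ : ContDiff ℝ ∞ θ) (hmono : Monotone θ) {δ : ℝ} (hδ : 0 < δ) (hθ0 : ∀ t ≤ δ, θ t = 0) :
    ∫ x in Ω, θ (S x - u x) * (maC 3 * ma S x) ≤ ∫ x in Ω, θ (S x - u x) ∂ν := by
  set K : Set (En 3) := {x | x ∈ Ω ∧ u x ≤ -(δ / 2)} with hKdef
  have hK : IsCompact K := isCompact_sublevel hΩ hb hu.psh.1 hu.bdry (by linarith)
  have hKΩ : K ⊆ Ω := fun x hx => hx.1
  obtain ⟨V, hV, hKV, hVΩ, hVc⟩ := exists_open_between_and_isCompact_closure hK hΩ hKΩ
  obtain ⟨v0, hv0s, hv0p, hv0u⟩ := exists_smooth_approx hΩ hu.psh hV hVc hVΩ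
  obtain ⟨k0, hk0⟩ := eventually_atTop.1
    (Metric.tendstoUniformlyOn_iff.1 hv0u (δ / 2) (by positivity))
  set v : ℕ → En 3 → ℝ := fun k => v0 (k + k0) with hvdef
  have hvu : TendstoUniformlyOn v u atTop V := by
    rw [Metric.tendstoUniformlyOn_iff] at hv0u ⊢
    intro e he
    exact (tendsto_add_atTop_nat k0).eventually (hv0u e he)
  have hvp : ∀ k, SmoothPsh V (v k) := fun k => hv0p (k + k0)
  have hvs : ∀ k, ContDiff ℝ ∞ (v k) := fun k => hv0s (k + k0)
  have hvd : ∀ k, ∀ x ∈ V, |u x - v k x| < δ / 2 := by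
    intro k x hx
    have := hk0 (k + k0) (Nat.le_add_left _ _) x hx
    rwa [Real.dist_eq] at this
  have hVΩ' : V ⊆ Ω := subset_closure.trans hVΩ
  have huK : ∀ x ∈ Ω, x ∉ K → -(δ / 2) < u x := by
    intro x hx hxK
    by_contra h
    exact hxK ⟨hx, not_lt.1 h⟩
  have hgK : ∀ k, ∀ x ∈ V, x ∉ K → θ (S x - v k x) = 0 := by
    intro k x hx hxK
    refine hθ0 _ ?_
    have h1 := (abs_lt.1 (hvd k x hx)).2
    have h2 := huK x (hVΩ' hx) hxK
    have h3 := hS0 x (hVΩ' hx)
    linarith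
  have hg0K : ∀ x ∈ Ω, x ∉ K → θ (S x - u x) = 0 := by
    intro x hx hxK
    refine hθ0 _ ?_
    have h2 := huK x hx hxK
    have h3 := hS0 x hx
    linarith
  have hSp' : SmoothPsh V S := ⟨hS.contDiffOn, fun x hx w => hSp x (hVΩ' hx) w⟩
  have hcomp : ∀ k, ∫ x in V, θ (S x - v k x) * (ma S x - ma (v k) x) ≤ 0 :=
    fun k => comp_ineq hV hSp' (hvp k) hθ hmono hK hKV (hgK k)
  have huc : ContinuousOn u V := hu.psh.1.mono hVΩ'
  have hgc : ∀ k, ContinuousOn (fun x => θ (S x - v k x)) V := fun k =>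
    (hθ.continuous.comp (hS.continuous.sub (hvs k).continuous)).continuousOn
  have hmaSc : Continuous (ma S) :=
    continuousOn_univ.1 (continuousOn_ma isOpen_univ hS.contDiffOn)
  have hmavc : ∀ k, Continuous (ma (v k)) := fun k =>
    continuousOn_univ.1 (continuousOn_ma isOpen_univ (hvs k).contDiffOn)
  -- uniform convergence
  obtain ⟨M, hM⟩ : ∃ M, ∀ x ∈ closure V, ‖S x - u x‖ ≤ M :=
    hVc.exists_bound_of_continuousOn (hS.continuous.continuousOn.sub (hu.psh.1.mono hVΩ))
  have hM0 : ∀ x ∈ V, |S x - u x| ≤ M := fun x hx => hM x (subset_closure hx)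
  have hgg : TendstoUniformlyOn (fun k x => θ (S x - v k x)) (fun x => θ (S x - u x)) atTop V := by
    have h1 : TendstoUniformlyOn (fun k x => S x - v k x) (fun x => S x - u x) atTop V := by
      rw [Metric.tendstoUniformlyOn_iff] at hvu ⊢
      intro e he
      filter_upwards [hvu e he] with k hk x hx
      have := hk x hx
      rw [Real.dist_eq] at this ⊢
      rwa [sub_sub_sub_cancel_left, abs_sub_comm]
    set L : ℝ := |M| + δ with hL
    have hL0 : -L ≤ L := by
      have := abs_nonneg M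
      linarith
    have h2 : UniformContinuous (fun y : Icc (-L) L => θ y) :=
      CompactSpace.uniformContinuous_of_continuous (hθ.continuous.comp continuous_subtype_val)
    have h3 : UniformContinuous (projIcc (-L) L hL0) :=
      LipschitzWith.uniformContinuous (LipschitzWith.projIcc hL0)
    have h4 := (h2.comp h3).comp_tendstoUniformlyOn h1
    have h5 : ∀ t : ℝ, |t| ≤ L → θ (projIcc (-L) L hL0 t : ℝ) = θ t := by
      intro t ht
      rw [abs_le] at ht
      rw [projIcc_of_mem hL0 ht]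
    have hbS : ∀ x ∈ V, |S x - u x| ≤ L := by
      intro x hx
      have h6 := hM0 x hx
      have h7 := le_abs_self M
      linarith
    have hbv : ∀ k, ∀ x ∈ V, |S x - v k x| ≤ L := by
      intro k x hx
      have h6 := hM0 x hx
      have h7 := le_abs_self M
      have h8 := hvd k x hx
      have h9 : |S x - v k x| ≤ |S x - u x| + |u x - v k x| := by
        have := abs_add_le (S x - u x) (u x - v k x)
        rwa [sub_add_sub_cancel] at this
      linarith
    rw [Metric.tendstoUniformlyOn_iff] at h4 ⊢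
    intro e he
    filter_upwards [h4 e he] with k hk x hx
    have h6 := hk x hx
    simp only [Function.comp_apply] at h6
    rwa [h5 _ (hbS x hx), h5 _ (hbv k x hx)] at h6
  have hc3 : (0 : ℝ) < maC 3 := by rw [maC]; positivity
  have hcomp2 : ∀ k, ∫ x in V, θ (S x - v k x) * (maC 3 * ma S x) ≤
      ∫ x in V, θ (S x - v k x) * (maC 3 * ma (v k) x) := by
    intro k
    have i1 : IntegrableOn (fun x => θ (S x - v k x) * (maC 3 * ma (v k) x)) V :=
      integrableOn_of_compact hV hK hKV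
        ((hgc k).mul (continuous_const.mul (hmavc k)).continuousOn)
        (fun x hx hxK => by rw [hgK k x hx hxK, zero_mul])
    have i2 : IntegrableOn (fun x => θ (S x - v k x) * (maC 3 * ma S x)) V :=
      integrableOn_of_compact hV hK hKV
        ((hgc k).mul (continuous_const.mul hmaSc).continuousOn)
        (fun x hx hxK => by rw [hgK k x hx hxK, zero_mul])
    rw [← sub_nonpos, ← integral_sub i2 i1]
    have e1 : ∀ x, θ (S x - v k x) * (maC 3 * ma S x) - θ (S x - v k x) * (maC 3 * ma (v k) x) =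
        maC 3 * (θ (S x - v k x) * (ma S x - ma (v k) x)) := fun x => by ring
    simp only [e1]
    rw [integral_const_mul]
    exact mul_nonpos_of_nonneg_of_nonpos hc3.le (hcomp k)
  have lim1 : Tendsto (fun k => ∫ x in V, θ (S x - v k x) * (maC 3 * ma (v k) x)) atTop
      (𝓝 (∫ x in V, θ (S x - u x) ∂ν)) :=
    hu.isMA.lim_int hV hVΩ' hvp hvu hK hKV hgc hgK hgg
  have lim2 : Tendsto (fun k => ∫ x in V, θ (S x - v k x) * (maC 3 * ma S x)) atTop
      (𝓝 (∫ x in V, θ (S x - u x) * (maC 3 * ma S x))) :=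
    tendsto_setIntegral_mul hV hK hKV hgc hgK hgg (continuous_const.mul hmaSc).continuousOn
  have key : ∫ x in V, θ (S x - u x) * (maC 3 * ma S x) ≤ ∫ x in V, θ (S x - u x) ∂ν :=
    le_of_tendsto_of_tendsto' lim2 lim1 hcomp2
  have e1 : ∫ x in Ω, θ (S x - u x) * (maC 3 * ma S x) =
      ∫ x in V, θ (S x - u x) * (maC 3 * ma S x) :=
    setIntegral_eq_of_subset_of_forall_sdiff_eq_zero hΩ.measurableSet hVΩ'
      (fun x hx => by rw [hg0K x hx.1 (fun h => hx.2 (hKV h)), zero_mul])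
  have e2 : ∫ x in Ω, θ (S x - u x) ∂ν = ∫ x in V, θ (S x - u x) ∂ν :=
    setIntegral_eq_of_subset_of_forall_sdiff_eq_zero hΩ.measurableSet hVΩ'
      (fun x hx => hg0K x hx.1 (fun h => hx.2 (hKV h)))
  rw [e1, e2]
  exact key

end Pool.Agent.H50.CS
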