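import Pool.Agent.H50.CS.Div
import Pool.Agent.H50.CS.Ibp3
import Pool.Agent.H50.CS.Lev2

/-!
# CS-MASS: Chern-Levine-Nirenberg and Cauchy estimates in `ℂ³`

`K ⊆ V` compact, `V` open. Choose smooth `χ₁, χ₂, χ₃ : ℂ³ → [0,1]` with compact support in `V`, `χ₃ = 1` on
`K`, `χ₂ = 1` on `tsupport χ₃`, `χ₁ = 1` on `tsupport χ₂` (`exists_contDiff_tsupport_subset` or
`exists_smooth...`, `IsOpen.exists_msmooth_support_eq`, bump functions; one lemma `exists_cutoff`).
For `g` smooth psh on `V` with `|g| ≤ M` on `V`, `H = Hm g` (psd by `hm_psd`):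

1. `∫ χ₁ tr H = ∫ g tr(Hm χ₁)` (`ibp2` with `C = 1`) `≤ c₁ M`;
2. `2∫ χ₂ tr adj H = ∫ χ₂ ((tr H)² - tr H²) = ∫ χ₂ tr(H·(tr H·1 - H)) = ∫ g tr(Hm χ₂ · (tr H·1-H))`
   (`tr_adj`, `ibp2` with `divFree_tr`) and `|tr(Hm χ₂ · N)| ≤ c ∑ ‖N k j‖ ≤ 9·c·2 tr H·χ₁` (`N = tr H·1-H`,
   `‖N k j‖ ≤ 2 tr H` by `entry_le`), so `≤ c₂ M ∫χ₁ tr H ≤ c M²`;
3. `3∫ χ₃ ma g = ∫ χ₃ tr(H adj H) = ∫ g tr(Hm χ₃ adj H)` (`tr_mul_adj`, `divFree_adj`) `≤ c M ∫ χ₂ tr adj H`
   (`entry_le` for `adj H`, psd by `adj_psd`) `≤ c M³`.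
All integrands are `≥ 0`, so the integrals over `K` are bounded by the ones with the cut-offs.

`cauchy_bound`: `ma p - ma q = Re tr(Hm w · C)`, `w = p - q`,
`C = (1/6)adj Hm p + (2/3)adj Hm((p+q)/2) + (1/6)adj Hm q` (`det_sub_eq`), so by `ibp2`
`∫χ(ma p - ma q) = Re ∫ w tr(Hm χ · C)`, bounded by `δ · c ∫_{tsupport χ} tr C ≤ c δ M²` by 2.
(This file: exists_cutoff, mass_adj, mass_ma.)
-/

set_option autoImplicit false

noncomputable section

namespace Pool.Agent.H50.CS

open Complex Metric MeasureTheory Set Filter Topology Matrix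
open scoped ContDiff ComplexConjugate ComplexOrder
open Pool.Agent.H8.FZ

theorem exists_cutoff {n : ℕ} {V K : Set (En n)} (hV : IsOpen V) (hK : IsCompact K) (hKV : K ⊆ V) :
    ∃ χ : En n → ℝ, ContDiff ℝ ∞ χ ∧ HasCompactSupport χ ∧ tsupport χ ⊆ V ∧
      (∀ x, 0 ≤ χ x) ∧ (∀ x, χ x ≤ 1) ∧ ∀ x ∈ K, χ x = 1 := by
  obtain ⟨L, hL, hKL, hLV⟩ := exists_compact_between hK hV hKV
  obtain ⟨f, hf, hfr, hfs, hf1⟩ := exists_contMDiff_support_eq_eq_one_iff
    (modelWithCornersSelf ℝ (En n)) (n := ⊤) (isOpen_interior (s := L)) hK.isClosed hKL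
  have hts : tsupport f ⊆ L := by
    rw [tsupport, hfs]
    exact closure_minimal interior_subset hL.isClosed
  refine ⟨f, contMDiff_iff_contDiff.mp hf, ?_, hts.trans hLV, fun x => ?_, fun x => ?_,
    fun x hx => (hf1 x).mp hx⟩
  · exact HasCompactSupport.of_support_subset_isCompact hL (by rw [hfs]; exact interior_subset)
  · exact (hfr ⟨x, rfl⟩).1
  · exact (hfr ⟨x, rfl⟩).2

/-- A smooth function with compact support in `V` times a continuous function on `V` is continuous. -/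
theorem mass_cont {n : ℕ} {V : Set (En n)} (hV : IsOpen V) {χ : En n → ℝ} (hχ : Continuous χ)
    (hχV : tsupport χ ⊆ V) {F : En n → ℂ} (hF : ContinuousOn F V) :
    Continuous fun x => (χ x : ℂ) * F x := by
  rw [continuous_iff_continuousAt]
  intro x
  by_cases hx : x ∈ V
  · exact (Complex.continuous_ofReal.comp hχ).continuousAt.mul (hF.continuousAt (hV.mem_nhds hx))
  · have hx' : x ∉ tsupport χ := fun h => hx (hχV h)
    have h0 : (fun y => (χ y : ℂ) * F y) =ᶠ[𝓝 x] fun _ => 0 := by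
      filter_upwards [notMem_tsupport_iff_eventuallyEq.mp hx'] with y hy
      rw [hy]; simp
    exact continuousAt_const.congr h0.symm

theorem mass_hm_cont {n : ℕ} {V : Set (En n)} (hV : IsOpen V) {g : En n → ℝ}
    (hg : ContDiffOn ℝ ∞ g V) (j k : Fin n) : ContinuousOn (fun x => Hm g x j k) V := by
  have h1 : ContDiffOn ℝ ∞ (fun y => (g y : ℂ)) V := Complex.ofRealCLM.contDiff.comp_contDiffOn hg
  exact (contDiffOn_dbar hV (contDiffOn_del hV h1 j) k).continuousOn

theorem mass_hm_zero {n : ℕ} {χ : En n → ℝ} {x : En n} (hx : x ∉ tsupport χ) : Hm χ x = 0 := by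
  have h0 : χ =ᶠ[𝓝 x] fun _ => 0 := notMem_tsupport_iff_eventuallyEq.mp hx
  rw [hm_congr h0]
  ext j k
  have h1 : (fun y : En n => del j (fun _ => ((0 : ℝ) : ℂ)) y) = fun _ => 0 := by
    funext y; exact del_const j _ y
  show dbar k (fun y : En n => del j (fun _ => ((0 : ℝ) : ℂ)) y) x = 0
  rw [h1, dbar_const]

theorem mass_hm_bound {n : ℕ} {χ : En n → ℝ} (hχ : ContDiff ℝ ∞ χ) (hχc : HasCompactSupport χ) :
    ∃ B : ℝ, 0 ≤ B ∧ ∀ x j k, ‖Hm χ x j k‖ ≤ B := by
  have h : ∀ p : Fin n × Fin n, ∃ B : ℝ, ∀ x, ‖Hm χ x p.1 p.2‖ ≤ B := by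
    intro p
    have hc : Continuous fun x => Hm χ x p.1 p.2 := by
      rw [← continuousOn_univ]
      exact mass_hm_cont isOpen_univ hχ.contDiffOn p.1 p.2
    have hs : HasCompactSupport fun x => Hm χ x p.1 p.2 := by
      refine HasCompactSupport.intro hχc (fun x hx => ?_)
      rw [mass_hm_zero hx]; rfl
    exact hs.exists_bound_of_continuous hc
  choose B hB using h
  refine ⟨∑ p, |B p|, Finset.sum_nonneg fun _ _ => abs_nonneg _, fun x j k => ?_⟩
  calc ‖Hm χ x j k‖ ≤ B (j, k) := hB (j, k) x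
    _ ≤ |B (j, k)| := le_abs_self _
    _ ≤ _ := Finset.single_le_sum (f := fun p => |B p|) (fun _ _ => abs_nonneg _)
        (Finset.mem_univ (j, k))

/-- The engine: the integral of the cut-off trace is bounded by the entries of the field. -/
theorem mass_engine {V : Set (En 3)} (hV : IsOpen V) {K : Set (En 3)} (hK : IsCompact K)
    (hKV : K ⊆ V) :
    ∃ (L : Set (En 3)) (B : ℝ), IsCompact L ∧ L ⊆ V ∧ 0 ≤ B ∧
      ∀ (C : En 3 → M3) (g : En 3 → ℝ) (M : ℝ) (τ : En 3 → ℝ), DivFree V C →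
        ContDiffOn ℝ ∞ g V → 0 ≤ M → (∀ x ∈ V, |g x| ≤ M) → ContinuousOn τ V →
        (∀ x ∈ V, ∀ k j, ‖C x k j‖ ≤ τ x) → (∀ x ∈ V, 0 ≤ ((Hm g x * C x).trace).re) →
        ∫ x in K, ((Hm g x * C x).trace).re ≤ B * M * ∫ x in L, τ x := by
  obtain ⟨χ, hχ, hχc, hχV, hχ0, hχ1, hχK⟩ := exists_cutoff hV hK hKV
  obtain ⟨B, hB0, hB⟩ := mass_hm_bound hχ hχc
  refine ⟨tsupport χ, 9 * B, hχc, hχV, by positivity, ?_⟩
  intro C g M τ hC hg hM hgM hτ hCτ hpos
  have hΦ : ContinuousOn (fun x => (Hm g x * C x).trace) V := by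
    simp only [Matrix.trace, Matrix.diag_apply, Matrix.mul_apply]
    refine continuousOn_finsetSum _ fun j _ => continuousOn_finsetSum _ fun k _ => ?_
    exact (mass_hm_cont hV hg j k).mul (hC.smooth k j).continuousOn
  have hφ : ContinuousOn (fun x => ((Hm g x * C x).trace).re) V :=
    Complex.continuous_re.comp_continuousOn hΦ
  have hcont := mass_cont hV hχ.continuous hχV hΦ
  have hcs : HasCompactSupport fun x => (χ x : ℂ) * (Hm g x * C x).trace := by
    refine HasCompactSupport.intro hχc (fun x hx => ?_)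
    rw [image_eq_zero_of_notMem_tsupport hx]; simp
  have hint : Integrable (fun x => (χ x : ℂ) * (Hm g x * C x).trace) :=
    hcont.integrable_of_hasCompactSupport hcs
  -- the integral over `K` is bounded by the one with the cut-off
  have h1 : ∫ x in K, ((Hm g x * C x).trace).re ≤
      ∫ x, ((χ x : ℂ) * (Hm g x * C x).trace).re := by
    rw [← integral_indicator hK.measurableSet]
    refine integral_mono ?_ hint.re ?_
    · exact ((hφ.mono hKV).integrableOn_compact hK).integrable_indicator hK.measurableSet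
    · intro x
      show K.indicator _ x ≤ ((χ x : ℂ) * (Hm g x * C x).trace).re
      rw [Complex.re_ofReal_mul]
      by_cases hx : x ∈ K
      · rw [Set.indicator_of_mem hx, hχK x hx, one_mul]
      · rw [Set.indicator_of_notMem hx]
        by_cases hx' : x ∈ V
        · exact mul_nonneg (hχ0 x) (hpos x hx')
        · rw [image_eq_zero_of_notMem_tsupport (fun h => hx' (hχV h)), zero_mul]
  have h2 : ∫ x, ((χ x : ℂ) * (Hm g x * C x).trace).re =
      (∫ x, (χ x : ℂ) * (Hm g x * C x).trace).re := by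
    exact Complex.reCLM.integral_comp_comm hint
  have h3 : ‖∫ x, (g x : ℂ) * (Hm χ x * C x).trace‖ ≤
      ∫ x, (tsupport χ).indicator (fun x => 9 * B * M * τ x) x := by
    refine norm_integral_le_of_norm_le ?_ (Filter.Eventually.of_forall fun x => ?_)
    · refine IntegrableOn.integrable_indicator ?_ (isClosed_tsupport χ).measurableSet
      refine ContinuousOn.integrableOn_compact hχc ?_
      exact ((continuousOn_const (c := 9 * B * M)).mul hτ).mono hχV
    · by_cases hx : x ∈ tsupport χ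
      · rw [Set.indicator_of_mem hx]
        have hxV := hχV hx
        have htr : ‖(Hm χ x * C x).trace‖ ≤ 9 * B * τ x := by
          simp only [Matrix.trace, Matrix.diag_apply, Matrix.mul_apply]
          calc ‖∑ j, ∑ k, Hm χ x j k * C x k j‖ ≤ ∑ j, ∑ k, ‖Hm χ x j k * C x k j‖ :=
                (norm_sum_le _ _).trans (Finset.sum_le_sum fun j _ => norm_sum_le _ _)
            _ ≤ ∑ _j : Fin 3, ∑ _k : Fin 3, B * τ x := by
                refine Finset.sum_le_sum fun j _ => Finset.sum_le_sum fun k _ => ?_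
                rw [norm_mul]
                exact mul_le_mul (hB x j k) (hCτ x hxV k j) (norm_nonneg _) hB0
            _ = 9 * B * τ x := by simp; ring
        rw [norm_mul, Complex.norm_real, Real.norm_eq_abs]
        calc |g x| * ‖(Hm χ x * C x).trace‖ ≤ M * (9 * B * τ x) :=
              mul_le_mul (hgM x hxV) htr (norm_nonneg _) hM
          _ = 9 * B * M * τ x := by ring
      · rw [Set.indicator_of_notMem hx, mass_hm_zero hx]
        simp
  calc ∫ x in K, ((Hm g x * C x).trace).re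
      ≤ (∫ x, (χ x : ℂ) * (Hm g x * C x).trace).re := by rw [← h2]; exact h1
    _ = (∫ x, (g x : ℂ) * (Hm χ x * C x).trace).re := by rw [ibp2 hV hC hg hχ hχc hχV]
    _ ≤ ‖∫ x, (g x : ℂ) * (Hm χ x * C x).trace‖ := Complex.re_le_norm _
    _ ≤ ∫ x, (tsupport χ).indicator (fun x => 9 * B * M * τ x) x := h3
    _ = ∫ x in tsupport χ, 9 * B * M * τ x := integral_indicator (isClosed_tsupport χ).measurableSet
    _ = 9 * B * M * ∫ x in tsupport χ, τ x := integral_const_mul _ _

theorem mass_c2 {n : ℕ} {V : Set (En n)} (hV : IsOpen V) {g : En n → ℝ} (hg : ContDiffOn ℝ ∞ g V)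
    {x : En n} (hx : x ∈ V) : ContDiffAt ℝ 2 g x :=
  (hg.contDiffAt (hV.mem_nhds hx)).of_le (WithTop.coe_le_coe.mpr le_top)

theorem mass_psd {V : Set (En 3)} (hV : IsOpen V) {g : En 3 → ℝ} (hg : SmoothPsh V g)
    {x : En 3} (hx : x ∈ V) : (Hm g x).PosSemidef :=
  (hm_psd (mass_c2 hV hg.1 hx) (hg.2 x hx)).2

theorem mass_tr_nonneg {A : M3} (hA : A.PosSemidef) : 0 ≤ A.trace.re :=
  (norm_nonneg _).trans (entry_le hA 0 0)

theorem mass_tr_norm {A : M3} (hA : A.PosSemidef) : ‖A.trace‖ ≤ 3 * A.trace.re := by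
  calc ‖A.trace‖ ≤ ∑ i, ‖A i i‖ := norm_sum_le _ _
    _ ≤ ∑ _i : Fin 3, A.trace.re := Finset.sum_le_sum fun i _ => entry_le hA i i
    _ = _ := by simp

/-- The trace estimate. -/
theorem mass_tr {V K : Set (En 3)} (hV : IsOpen V) (hK : IsCompact K) (hKV : K ⊆ V) :
    ∃ C : ℝ, 0 ≤ C ∧ ∀ (g : En 3 → ℝ) (M : ℝ), 0 ≤ M → SmoothPsh V g → (∀ x ∈ V, |g x| ≤ M) →
      ∫ x in K, ((Hm g x).trace).re ≤ C * M := by
  obtain ⟨L, B, hL, hLV, hB, h⟩ := mass_engine hV hK hKV
  refine ⟨B * ∫ _x in L, (1 : ℝ), mul_nonneg hB (integral_nonneg fun _ => zero_le_one), ?_⟩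
  intro g M hM hg hgM
  have := h (fun _ => 1) g M (fun _ => 1) (divFree_one V) hg.1 hM hgM continuousOn_const
    (fun x _ k j => by
      rw [Matrix.one_apply]; split_ifs <;> simp)
    (fun x hx => by
      rw [mul_one]; exact mass_tr_nonneg (mass_psd hV hg hx))
  simp only [mul_one] at this
  linarith [this]

theorem mass_adj {V K : Set (En 3)} (hV : IsOpen V) (hK : IsCompact K) (hKV : K ⊆ V) :
    ∃ C : ℝ, 0 ≤ C ∧ ∀ (g : En 3 → ℝ) (M : ℝ), 0 ≤ M → SmoothPsh V g → (∀ x ∈ V, |g x| ≤ M) →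
      ∫ x in K, ((Hm g x).adjugate.trace).re ≤ C * M ^ 2 := by
  obtain ⟨L, B, hL, hLV, hB, h⟩ := mass_engine hV hK hKV
  obtain ⟨C, hC, h'⟩ := mass_tr hV hL hLV
  refine ⟨2 * B * C, by positivity, ?_⟩
  intro g M hM hg hgM
  have key : ∀ x, (Hm g x * ((Hm g x).trace • (1 : M3) - Hm g x)).trace =
      2 * (Hm g x).adjugate.trace := by
    intro x
    rw [tr_adj, mul_sub, Matrix.trace_sub, Matrix.mul_smul, Matrix.trace_smul, mul_one,
      smul_eq_mul, sq]
  have htrc : ContinuousOn (fun x => ((Hm g x).trace).re) V := by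
    refine Complex.continuous_re.comp_continuousOn ?_
    simp only [Matrix.trace, Matrix.diag_apply]
    exact continuousOn_finsetSum _ fun j _ => mass_hm_cont hV hg.1 j j
  have h1 := h (fun x => (Hm g x).trace • (1 : M3) - Hm g x) g M
    (fun x => 4 * ((Hm g x).trace).re) (divFree_tr hV hg.1) hg.1 hM hgM
    (continuousOn_const.mul htrc)
    (fun x hx k j => by
      have hp := mass_psd hV hg hx
      rw [Matrix.sub_apply, Matrix.smul_apply, smul_eq_mul]
      have e1 : ‖(Hm g x).trace * (1 : M3) k j‖ ≤ 3 * ((Hm g x).trace).re := by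
        rw [norm_mul, Matrix.one_apply]
        have := mass_tr_norm hp
        have h0 := mass_tr_nonneg hp
        split_ifs
        · simpa using this
        · simp only [norm_zero, mul_zero]; linarith
      have e2 := entry_le hp k j
      have e3 := norm_sub_le ((Hm g x).trace * (1 : M3) k j) (Hm g x k j)
      linarith)
    (fun x hx => by
      rw [key]
      have h0 := mass_tr_nonneg (adj_psd (mass_psd hV hg hx))
      have : (2 * (Hm g x).adjugate.trace).re = 2 * ((Hm g x).adjugate.trace).re := by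
        simp [Complex.mul_re]
      rw [this]; linarith)
  have e1 : ∫ x in K, ((Hm g x * ((Hm g x).trace • (1 : M3) - Hm g x)).trace).re =
      2 * ∫ x in K, ((Hm g x).adjugate.trace).re := by
    rw [← integral_const_mul]
    refine integral_congr_ae (Filter.Eventually.of_forall fun x => ?_)
    show ((Hm g x * ((Hm g x).trace • (1 : M3) - Hm g x)).trace).re = _
    rw [key]; simp [Complex.mul_re]
  have e2 : ∫ x in L, 4 * ((Hm g x).trace).re = 4 * ∫ x in L, ((Hm g x).trace).re :=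
    integral_const_mul _ _
  rw [e1, e2] at h1
  have h2 := h' g M hM hg hgM
  have h3 : B * M * (4 * ∫ x in L, ((Hm g x).trace).re) ≤ B * M * (4 * (C * M)) := by
    have : 0 ≤ B * M := mul_nonneg hB hM
    exact mul_le_mul_of_nonneg_left (by linarith) this
  nlinarith

theorem mass_ma {V K : Set (En 3)} (hV : IsOpen V) (hK : IsCompact K) (hKV : K ⊆ V) :
    ∃ C : ℝ, 0 ≤ C ∧ ∀ (g : En 3 → ℝ) (M : ℝ), 0 ≤ M → SmoothPsh V g → (∀ x ∈ V, |g x| ≤ M) →
      ∫ x in K, ma g x ≤ C * M ^ 3 := by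
  obtain ⟨L, B, hL, hLV, hB, h⟩ := mass_engine hV hK hKV
  obtain ⟨C, hC, h'⟩ := mass_adj hV hL hLV
  refine ⟨B * C, by positivity, ?_⟩
  intro g M hM hg hgM
  have key : ∀ x, ((Hm g x * (Hm g x).adjugate).trace).re = 3 * ma g x := by
    intro x
    rw [tr_mul_adj]; simp [Complex.mul_re, ma]
  have hadj := divFree_adj hV hg.1
  have htrc : ContinuousOn (fun x => ((Hm g x).adjugate.trace).re) V := by
    refine Complex.continuous_re.comp_continuousOn ?_
    simp only [Matrix.trace, Matrix.diag_apply]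
    exact continuousOn_finsetSum _ fun j _ => (hadj.smooth j j).continuousOn
  have h1 := h (fun x => (Hm g x).adjugate) g M
    (fun x => ((Hm g x).adjugate.trace).re) hadj hg.1 hM hgM htrc
    (fun x hx k j => entry_le (adj_psd (mass_psd hV hg hx)) k j)
    (fun x hx => by
      rw [key]
      have := ma_nonneg (mass_c2 hV hg.1 hx) (hg.2 x hx)
      linarith)
  have e1 : ∫ x in K, ((Hm g x * (Hm g x).adjugate).trace).re = 3 * ∫ x in K, ma g x := by
    rw [← integral_const_mul]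
    exact integral_congr_ae (Filter.Eventually.of_forall fun x => key x)
  rw [e1] at h1
  have h2 := h' g M hM hg hgM
  have h3 : B * M * (∫ x in L, ((Hm g x).adjugate.trace).re) ≤ B * M * (C * M ^ 2) :=
    mul_le_mul_of_nonneg_left h2 (mul_nonneg hB hM)
  have h4 : 0 ≤ B * C * M ^ 3 := by positivity
  nlinarith

end Pool.Agent.H50.CS
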