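import Pool.Agent.H50.CS.Mass

/-!
# CS-LIMIT: first consequences of the definition of `IsMA`

* `IsMA.restrict`: `V ⊆ Ω` open: `IsMA V u (ν.restrict V)`. (`off`, `fin` clear; `lim`: for `V' ⊆ V` use `lim`
  of `Ω` at `V'`, and `∫χ dν = ∫χ d(ν|V)` since `χ = 0` off `V`.)
* `IsMA.lim_int`: `v_k → u` uniformly on `V`, smooth psh on `V`; `g_k → g` uniformly on `V`, all `g_k`
  continuous on `V` and zero on `V` off the fixed compact `K ⊆ V`. Then
  `∫_V g_k (c ma v_k) → ∫_V g dν`. Proof: let `χ₀` be a cut-off (`exists_cutoff`) equal to `1` on `K` with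
  compact support in `V`. `g` (set to `0` off `V`) is continuous with compact support in `K`: uniform limit
  of the `g_k` (set to `0` off `V`), which are continuous on all of `ℂⁿ`. So
  `∫ g (c ma v_k) → ∫ g dν` by `lim`, and `|∫(g_k - g) c ma v_k| ≤ sup|g_k-g| ∫χ₀ c ma v_k`, where the last
  integral converges (by `lim` for `χ₀`), so is bounded; `ma v_k ≥ 0` on `V` (`ma_nonneg`).
* `IsMA.smul`: `u ↦ λu`, `ν ↦ λ³ν` (`λ > 0`): if `v_k → λu` then `λ⁻¹v_k → u`, `ma (λ⁻¹ v) = λ⁻³ ma v`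
  (`hm_const_mul`, `Matrix.det_smul`).
* `IsMA.congr`: `u = u'` on `Ω`.
* `IsMA.add_const`: `v_k → u + c` iff `v_k - c → u` (`ma_add_const`).
* `IsMA.ge`: lower bound for the measure: if `v_k → u` uniformly on `V`, smooth psh there, and
  `F ≤ ma v_k` on the open `W ⊆ V` for all large `k`, `F ≥ 0` continuous on `W`, then
  `c F dV ≤ ν` on `W`. Proof: for compact `K ⊆ W` and open `O`, `K ⊆ O ⊆ W`, take a cut-off
  `1_K ≤ χ ≤ 1_O` (`exists_cutoff`): `∫_K cF ≤ ∫χ c ma v_k → ∫χ dν ≤ ν(O)`. By regularity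
  (`ν.restrict` to a relatively compact open set is a finite Borel measure on `ℂⁿ`, hence regular)
  `∫_K cF ≤ ν K`; then inner regularity of `B ↦ ∫_B cF` (σ-finite `withDensity`, or exhaust by compacts)
  gives `∫_B cF ≤ ν B` for all Borel `B ⊆ W`.
(This file: IsMA.ge.)
-/

set_option autoImplicit false

noncomputable section

namespace Pool.Agent.H50.CS

open Complex Metric MeasureTheory Set Filter Topology
open scoped ContDiff ComplexConjugate
open Pool.Agent.H8.FZ

lemma measGe_cont {W : Set (En 3)} (hW : IsOpen W) {χ G : En 3 → ℝ} (hχ : Continuous χ)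
    (hχW : tsupport χ ⊆ W) (hG : ContinuousOn G W) : Continuous (fun x => χ x * G x) := by
  rw [continuous_iff_continuousAt]
  intro x
  by_cases hx : x ∈ W
  · exact hχ.continuousAt.mul (hG.continuousAt (hW.mem_nhds hx))
  · have hx' : x ∉ tsupport χ := fun h => hx (hχW h)
    have h0 : χ =ᶠ[𝓝 x] 0 := notMem_tsupport_iff_eventuallyEq.mp hx'
    have h1 : (fun x => χ x * G x) =ᶠ[𝓝 x] fun _ => (0:ℝ) := by
      filter_upwards [h0] with y hy
      rw [hy]; simp
    exact (continuousAt_const).congr h1.symm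

lemma measGe_int {W : Set (En 3)} (hW : IsOpen W) {χ G : En 3 → ℝ} (hχ : Continuous χ)
    (hχc : HasCompactSupport χ)
    (hχW : tsupport χ ⊆ W) (hG : ContinuousOn G W) : Integrable (fun x => χ x * G x) :=
  (measGe_cont hW hχ hχW hG).integrable_of_hasCompactSupport hχc.mul_right

lemma measGe_compact {Ω : Set (En 3)} {u : En 3 → ℝ} {ν : Measure (En 3)} (h : IsMA Ω u ν)
    {V : Set (En 3)} (hV : IsOpen V) (hVΩ : V ⊆ Ω) {v : ℕ → En 3 → ℝ}
    (hv : ∀ k, SmoothPsh V (v k)) (hvu : TendstoUniformlyOn v u atTop V)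
    {W : Set (En 3)} (hW : IsOpen W) (hWV : W ⊆ V) {F : En 3 → ℝ} (hF : ContinuousOn F W)
    (hF0 : ∀ x ∈ W, 0 ≤ F x) (hge : ∀ᶠ k in atTop, ∀ x ∈ W, F x ≤ ma (v k) x)
    {K : Set (En 3)} (hK : IsCompact K) (hKW : K ⊆ W) :
    ((volume.restrict W).withDensity (fun x => ENNReal.ofReal (maC 3 * F x))) K ≤ ν K := by
  have hc : 0 ≤ maC 3 := by unfold maC; positivity
  obtain ⟨δ, hδ, hδW⟩ := hK.exists_cthickening_subset_open hW hKW
  have hfin : ν (cthickening δ K) < ⊤ := h.fin _ hK.cthickening (hδW.trans (hWV.trans hVΩ))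
  have htend := tendsto_measure_thickening_of_isClosed (μ := ν) (s := K)
    ⟨δ, hδ, ((measure_mono (thickening_subset_cthickening δ K)).trans_lt hfin).ne⟩ hK.isClosed
  refine ge_of_tendsto htend ?_
  filter_upwards [Ioo_mem_nhdsGT hδ] with r hr
  obtain ⟨χ, hχ1, hχ2, hχ3, hχ4, hχ5, hχ6⟩ := exists_cutoff (isOpen_thickening (δ := r) (E := K)) hK
    (self_subset_thickening hr.1 K)
  have hχW : tsupport χ ⊆ W := hχ3.trans ((thickening_mono hr.2.le K).trans
    ((thickening_subset_cthickening δ K).trans hδW))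
  have hχc := hχ1.continuous
  have hlim := h.lim V hV hVΩ v hv hvu χ hχc hχ2 (hχW.trans hWV)
  have hI1 : Integrable (fun x => χ x * (maC 3 * F x)) :=
    measGe_int hW hχc hχ2 hχW (continuousOn_const.mul hF)
  have hle : ∫ x, χ x * (maC 3 * F x) ≤ ∫ x, χ x ∂ν := by
    refine ge_of_tendsto hlim ?_
    filter_upwards [hge] with k hk
    have hI2 : Integrable (fun x => χ x * (maC 3 * ma (v k) x)) :=
      measGe_int hV hχc hχ2 (hχW.trans hWV) (continuousOn_const.mul (continuousOn_ma hV (hv k).1))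
    apply integral_mono hI1 hI2
    intro x
    by_cases hx : x ∈ W
    · have h1 := hk x hx
      have h2 := hχ4 x
      show χ x * (maC 3 * F x) ≤ χ x * (maC 3 * ma (v k) x)
      gcongr
    · have : χ x = 0 := image_eq_zero_of_notMem_tsupport (fun h => hx (hχW h))
      show χ x * (maC 3 * F x) ≤ χ x * (maC 3 * ma (v k) x)
      rw [this]; simp
  have hnn : ∀ x, 0 ≤ χ x * (maC 3 * F x) := by
    intro x
    by_cases hx : x ∈ W
    · exact mul_nonneg (hχ4 x) (mul_nonneg hc (hF0 x hx))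
    · have : χ x = 0 := image_eq_zero_of_notMem_tsupport (fun h => hx (hχW h))
      rw [this]; simp
  calc ((volume.restrict W).withDensity (fun x => ENNReal.ofReal (maC 3 * F x))) K
      = ∫⁻ x in K, ENNReal.ofReal (maC 3 * F x) ∂(volume.restrict W) :=
        withDensity_apply _ hK.measurableSet
    _ = ∫⁻ x in K, ENNReal.ofReal (maC 3 * F x) := by
        rw [Measure.restrict_restrict hK.measurableSet, inter_eq_left.mpr hKW]
    _ = ∫⁻ x in K, ENNReal.ofReal (χ x * (maC 3 * F x)) := by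
        refine setLIntegral_congr_fun hK.measurableSet (fun x hx => ?_)
        show ENNReal.ofReal (maC 3 * F x) = ENNReal.ofReal (χ x * (maC 3 * F x))
        rw [hχ6 x hx, one_mul]
    _ ≤ ∫⁻ x, ENNReal.ofReal (χ x * (maC 3 * F x)) := setLIntegral_le_lintegral _ _
    _ = ENNReal.ofReal (∫ x, χ x * (maC 3 * F x)) :=
        (ofReal_integral_eq_lintegral_ofReal hI1 (Eventually.of_forall hnn)).symm
    _ ≤ ENNReal.ofReal (∫ x, χ x ∂ν) := ENNReal.ofReal_le_ofReal hle
    _ ≤ ∫⁻ x, ENNReal.ofReal (χ x) ∂ν := by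
        rw [integral_eq_lintegral_of_nonneg_ae (Eventually.of_forall hχ4)
          hχc.aestronglyMeasurable]
        exact ENNReal.ofReal_toReal_le
    _ ≤ ∫⁻ x, (thickening r K).indicator 1 x ∂ν := by
        apply lintegral_mono
        intro x
        by_cases hx : x ∈ thickening r K
        · rw [indicator_of_mem hx]
          exact ENNReal.ofReal_le_one.mpr (hχ5 x)
        · have : χ x = 0 := image_eq_zero_of_notMem_tsupport (fun h => hx (hχ3 h))
          simp [this]
    _ = ν (thickening r K) := lintegral_indicator_one isOpen_thickening.measurableSet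

theorem IsMA.ge {Ω : Set (En 3)} {u : En 3 → ℝ} {ν : Measure (En 3)} (h : IsMA Ω u ν)
    {V : Set (En 3)} (hV : IsOpen V) (hVΩ : V ⊆ Ω) {v : ℕ → En 3 → ℝ}
    (hv : ∀ k, SmoothPsh V (v k)) (hvu : TendstoUniformlyOn v u atTop V)
    {W : Set (En 3)} (hW : IsOpen W) (hWV : W ⊆ V) {F : En 3 → ℝ} (hF : ContinuousOn F W)
    (hF0 : ∀ x ∈ W, 0 ≤ F x) (hge : ∀ᶠ k in atTop, ∀ x ∈ W, F x ≤ ma (v k) x) :
    (volume.restrict W).withDensity (fun x => ENNReal.ofReal (maC 3 * F x)) ≤ ν := by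
  obtain ⟨μ, hμ⟩ : ∃ μ, μ = (volume.restrict W).withDensity
    (fun x => ENNReal.ofReal (maC 3 * F x)) := ⟨_, rfl⟩
  have hcomp : ∀ K : Set (En 3), IsCompact K → K ⊆ W → μ K ≤ ν K := by
    intro K hK hKW
    rw [hμ]
    exact measGe_compact h hV hVΩ hv hvu hW hWV hF hF0 hge hK hKW
  rw [← hμ]
  have hWc : μ Wᶜ = 0 := by
    rw [hμ]
    apply (withDensity_absolutelyContinuous _ _)
    rw [Measure.restrict_apply hW.measurableSet.compl, compl_inter_self, measure_empty]
  rw [Measure.le_iff]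
  intro B hB
  obtain ⟨G, hG1, hG2, hG3, hG4⟩ := hW.exists_iUnion_isClosed
  obtain ⟨Kn, hKn⟩ : ∃ Kn : ℕ → Set (En 3), ∀ n, Kn n = G n ∩ closedBall 0 n := ⟨_, fun _ => rfl⟩
  have hKc : ∀ n, IsCompact (Kn n) := by
    intro n
    rw [hKn, inter_comm]
    exact (isCompact_closedBall _ _).inter_right (hG1 n)
  have hKW : ∀ n, Kn n ⊆ W := fun n => by rw [hKn]; exact inter_subset_left.trans (hG2 n)
  have hKm : Monotone Kn := by
    intro m n hmn
    rw [hKn, hKn]
    exact inter_subset_inter (hG4 hmn) (closedBall_subset_closedBall (by exact_mod_cast hmn))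
  have hKU : W ⊆ ⋃ n, Kn n := by
    intro x hx
    rw [← hG3] at hx
    obtain ⟨m, hm⟩ := mem_iUnion.mp hx
    obtain ⟨k, hk⟩ := exists_nat_ge ‖x‖
    refine mem_iUnion.mpr ⟨max m k, ?_⟩
    rw [hKn]
    refine ⟨hG4 (le_max_left m k) hm, ?_⟩
    rw [mem_closedBall, dist_zero_right]
    exact hk.trans (by exact_mod_cast le_max_right m k)
  have h1 : μ B ≤ μ (⋃ n, B ∩ Kn n) := by
    calc μ B ≤ μ ((⋃ n, B ∩ Kn n) ∪ Wᶜ) := by
          apply measure_mono
          intro x hx
          by_cases hxW : x ∈ W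
          · left
            obtain ⟨n, hn⟩ := mem_iUnion.mp (hKU hxW)
            exact mem_iUnion.mpr ⟨n, hx, hn⟩
          · right; exact hxW
      _ ≤ μ (⋃ n, B ∩ Kn n) + μ Wᶜ := measure_union_le _ _
      _ = μ (⋃ n, B ∩ Kn n) := by rw [hWc, add_zero]
  refine h1.trans ?_
  have hmono : Monotone (fun n => B ∩ Kn n) := fun m n hmn => inter_subset_inter_right _ (hKm hmn)
  rw [hmono.measure_iUnion]
  refine iSup_le (fun n => ?_)
  have hfinK : μ (Kn n) < ⊤ := (hcomp _ (hKc n) (hKW n)).trans_lt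
    (h.fin _ (hKc n) ((hKW n).trans (hWV.trans hVΩ)))
  haveI : IsFiniteMeasure (μ.restrict (Kn n)) := ⟨by
    rw [Measure.restrict_apply MeasurableSet.univ, univ_inter]; exact hfinK⟩
  have h2 : μ (B ∩ Kn n) = (μ.restrict (Kn n)) B := (Measure.restrict_apply hB).symm
  rw [h2, hB.measure_eq_iSup_isCompact_of_ne_top (measure_ne_top _ _)]
  refine iSup_le (fun K => iSup_le (fun hKB => iSup_le (fun hK => ?_)))
  rw [Measure.restrict_apply hK.measurableSet]
  calc μ (K ∩ Kn n) ≤ ν (K ∩ Kn n) := hcomp _ (hK.inter (hKc n)) (inter_subset_right.trans (hKW n))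
    _ ≤ ν B := measure_mono (inter_subset_left.trans hKB)

end Pool.Agent.H50.CS
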