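import Pool.Agent.H50.CS.Phi4
import Pool.Agent.H50.CS.LowerC

/-!
# CS-NOSOL: `mu` has no continuous solution

Suppose `ContSol (ball 0 1) u mu`.

* `step_up`: `u ≤ a_j` on `T_j`: `upper_comp` with `F = ma (¾‖·‖²+g_j)`, `a = a_j`: on the frontier
  `u ≤ 0 < a_j` (`ContPsh.le_zero`, `TubeOK.bd`); `TubeOK.det`; and `∫χ c F ≤ ∫χ c FF_j = ∫χ dmu` for `χ ≥ 0` (`mu_on`;
  `F ≤ FF j` on `T_j` by `ma_mono_add`: `ph j = ¾‖·‖²+g_j + (1/8)‖·‖²`). So `u (ctr j) ≤ -A₀`, `u xst ≤ -A₀`.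
* `step_low`: for a.e. `x ∈ ball 0 1 \ ⋃ bad_j`: `u x ≥ -A₀/4`. Let `δ = A₀/16`, `θ(t) = sg((t-δ)/δ)`,
  `Z_J = ∑_{j<J} ψ_j + δ(‖x‖²-1)`: smooth, `≤ 0` on the ball, `levi Z_J ≥ δ‖v‖²`, and `≥ levi (ph j) + δ‖v‖²` on `T_j` for
  `j < J` (`ψt`, `ψp`). So `ma Z_J ≥ δ³` and `≥ FF j + δ³` on `T_j` (`ma_mono_add`). `lower_comp`:
  `∫_B θ(Z_J-u) c ma Z_J ≤ ∫_B θ(Z_J-u) dmu = ∑_j ∫_{T_j} θ(Z_J-u) c FF_j` (`mu_int`), and the left side is
  `≥ cδ³∫_Bθ(Z_J-u) + ∑_{j<J}∫_{T_j}θ(Z_J-u) c FF_j` (disjoint tubes). Hence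
  `cδ³ volume{x ∈ B | Z_J - u ≥ 2δ} ≤ cδ³∫_Bθ ≤ ∑_{j≥J} ∫_{T_j} c FF_j → 0` (tail of the convergent series
  `mu_int` with `f = 1`). For `x ∈ B \ ⋃bad_j`: `Z_J x ≥ -∑A₀(1/2)^j/32 - δ ≥ -A₀/16 - δ = -2δ` for all `J`, so
  `{x ∈ B \ ⋃bad | u x < -4δ} ⊆ {Z_J - u ≥ 2δ}` for every `J`: volume zero. `4δ = A₀/4`.
* `no_sol`: by continuity `u < -A₀/2` on `ball xst s` for some small `s` (contained in `B`), but by `step_low` and
  `not_bad` there is `x ∈ ball xst s` with `u x ≥ -A₀/4`: contradiction.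
(This file: step_low.)
-/

set_option autoImplicit false

noncomputable section

namespace Pool.Agent.H50.CS

open Complex Metric MeasureTheory Set Filter Topology
open scoped ContDiff ComplexConjugate
open Pool.Agent.H8.FZ

theorem sl_maC_pos : 0 < maC 3 := by
  unfold maC
  positivity

/-- the product of a bounded measurable function and a continuous function is integrable on subsets of
the closed unit ball -/
theorem sl_integrableOn {f h : En 3 → ℝ} (hf : Measurable f) {b : ℝ} (hb : ∀ x, |f x| ≤ b)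
    (hh : Continuous h) {s : Set (En 3)} (hs : s ⊆ closedBall (0 : En 3) 1) :
    IntegrableOn (fun x => f x * h x) s := by
  have h1 : IntegrableOn h (closedBall (0 : En 3) 1) :=
    hh.continuousOn.integrableOn_compact (isCompact_closedBall _ _)
  have h2 : IntegrableOn h s := h1.mono_set hs
  exact h2.bdd_mul (c := b) hf.aestronglyMeasurable (Eventually.of_forall fun x => hb x)

theorem sl_ma_cont {P : En 3 → ℝ} (hP : ContDiff ℝ ∞ P) : Continuous (ma P) := by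
  rw [← continuousOn_univ]
  exact continuousOn_ma isOpen_univ hP.contDiffOn

theorem sl_c2 {P : En 3 → ℝ} (hP : ContDiff ℝ ∞ P) (x : En 3) : ContDiffAt ℝ 2 P x :=
  hP.contDiffAt.of_le (WithTop.coe_le_coe.mpr (le_top : (2 : ℕ∞) ≤ ⊤))

theorem sl_contDiff_sq (δ : ℝ) : ContDiff ℝ ∞ (fun y : En 3 => δ * (‖y‖ ^ 2 - 1)) :=
  contDiff_const.mul ((contDiff_norm_sq ℂ).sub contDiff_const)

theorem sl_levi_sq (δ : ℝ) (x v : En 3) :
    levi (fun y : En 3 => δ * (‖y‖ ^ 2 - 1)) x v = δ * ‖v‖ ^ 2 := by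
  have h1 : (fun y : En 3 => δ * (‖y‖ ^ 2 - 1)) = fun y : En 3 => δ * ‖y‖ ^ 2 + (-δ) := by
    funext y
    ring
  have h2 : ContDiffAt ℝ 2 (fun y : En 3 => ‖y‖ ^ 2) x := (contDiff_norm_sq ℂ).contDiffAt
  rw [h1, levi_add_const (fun y : En 3 => δ * ‖y‖ ^ 2) x (-δ) v, levi_const_mul h2, levi_norm_sq]

namespace Sys

variable (S : Sys)

/-- the lower barriers -/
def slZ (δ : ℝ) (J : ℕ) (x : En 3) : ℝ := ∑ j ∈ Finset.range J, S.ψ j x + δ * (‖x‖ ^ 2 - 1)

theorem slZ_smooth (δ : ℝ) (J : ℕ) : ContDiff ℝ ∞ (S.slZ δ J) :=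
  (ContDiff.sum fun j _ => S.ψs j).add (sl_contDiff_sq δ)

theorem slZ_levi (δ : ℝ) (J : ℕ) (x v : En 3) :
    levi (S.slZ δ J) x v = ∑ j ∈ Finset.range J, levi (S.ψ j) x v + δ * ‖v‖ ^ 2 := by
  induction J with
  | zero =>
    have h1 : S.slZ δ 0 = fun y : En 3 => δ * (‖y‖ ^ 2 - 1) := by
      funext y
      unfold slZ
      simp
    rw [h1, sl_levi_sq]
    simp
  | succ J ih =>
    have h1 : S.slZ δ (J + 1) = fun y : En 3 => S.slZ δ J y + S.ψ J y := by
      funext y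
      unfold slZ
      rw [Finset.sum_range_succ]
      ring
    rw [h1, levi_add (sl_c2 (S.slZ_smooth δ J) x) (sl_c2 (S.ψs J) x), ih,
      Finset.sum_range_succ]
    ring

theorem sl_T_ball (j : ℕ) : S.T j ⊆ ball (0 : En 3) 1 := by
  intro x hx
  have h1 := S.T_closure j (subset_closure hx)
  rw [mem_closedBall] at h1
  rw [mem_ball]
  linarith

theorem sl_T_cball (j : ℕ) : S.T j ⊆ closedBall (0 : En 3) 1 :=
  (S.sl_T_ball j).trans ball_subset_closedBall

theorem slZ_nonpos {δ : ℝ} (hδ : 0 ≤ δ) (J : ℕ) {x : En 3} (hx : x ∈ ball (0 : En 3) 1) :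
    S.slZ δ J x ≤ 0 := by
  unfold slZ
  have h1 : ∑ j ∈ Finset.range J, S.ψ j x ≤ 0 := Finset.sum_nonpos fun j _ => S.ψn j x hx
  have h2 : ‖x‖ < 1 := by simpa using hx
  have h3 : ‖x‖ ^ 2 ≤ 1 := pow_le_one₀ (norm_nonneg x) h2.le
  have h4 : δ * (‖x‖ ^ 2 - 1) ≤ 0 := mul_nonpos_of_nonneg_of_nonpos hδ (by linarith)
  linarith

theorem sl_ma_ge {δ : ℝ} (hδ : 0 ≤ δ) (J : ℕ) {x : En 3} (hx : x ∈ ball (0 : En 3) 1) :
    δ ^ 3 ≤ ma (S.slZ δ J) x := by
  have hl : ∀ w : En 3, levi (fun _ : En 3 => (0 : ℝ)) x w = 0 := by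
    intro w
    have h1 := sl_levi_sq 0 x w
    have h2 : (fun y : En 3 => (0 : ℝ) * (‖y‖ ^ 2 - 1)) = fun _ => 0 := by
      funext y
      ring
    rw [h2, zero_mul] at h1
    exact h1
  have h0 : ContDiffAt ℝ 2 (fun _ : En 3 => (0 : ℝ)) x := contDiffAt_const
  have h1 : 0 ≤ ma (fun _ : En 3 => (0 : ℝ)) x := ma_nonneg h0 fun w => (hl w).ge
  have h2 := ma_mono_add h0 (sl_c2 (S.slZ_smooth δ J) x) (fun w => (hl w).ge) hδ
    (fun w => by
      rw [hl w, S.slZ_levi]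
      have : 0 ≤ ∑ j ∈ Finset.range J, levi (S.ψ j) x w :=
        Finset.sum_nonneg fun j _ => S.ψp j x hx w
      linarith)
  linarith

theorem sl_ma_ge_FF {δ : ℝ} (hδ : 0 ≤ δ) {J j : ℕ} (hj : j < J) {x : En 3} (hx : x ∈ S.T j) :
    S.FF j x + δ ^ 3 ≤ ma (S.slZ δ J) x := by
  have hxB := S.sl_T_ball j hx
  refine ma_mono_add (sl_c2 (S.ph_smooth j) x) (sl_c2 (S.slZ_smooth δ J) x)
    (fun w => le_trans (by positivity) (S.ph_psh j hxB w)) hδ fun w => ?_
  rw [S.slZ_levi]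
  have h1 : levi (S.ph j) x w = 7 / 8 * ‖w‖ ^ 2 + levi (S.g j) x w := by
    have h2 : ContDiffAt ℝ 2 (fun y : En 3 => ‖y‖ ^ 2) x := (contDiff_norm_sq ℂ).contDiffAt
    have h3 : ContDiffAt ℝ 2 (fun y : En 3 => 7 / 8 * ‖y‖ ^ 2) x := contDiffAt_const.mul h2
    have h4 : S.ph j = fun y : En 3 => (fun y : En 3 => 7 / 8 * ‖y‖ ^ 2) y + S.g j y := rfl
    rw [h4, levi_add h3 (sl_c2 (S.ok j).gs x), levi_const_mul h2, levi_norm_sq]
  have h5 : 7 / 8 * ‖w‖ ^ 2 + levi (S.g j) x w ≤ levi (S.ψ j) x w := S.ψt j x hx w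
  have h6 : levi (S.ψ j) x w ≤ ∑ i ∈ Finset.range J, levi (S.ψ i) x w :=
    Finset.single_le_sum (f := fun i => levi (S.ψ i) x w) (fun i _ => S.ψp i x hxB w)
      (Finset.mem_range.mpr hj)
  rw [h1]
  linarith

theorem slZ_ge {J : ℕ} {x : En 3} (hx : x ∈ ball (0 : En 3) 1) (hb : x ∉ ⋃ j, S.bad j) :
    -(2 * (S.A₀ / 16)) ≤ S.slZ (S.A₀ / 16) J x := by
  have hA := S.hA₀
  have h1 : ∀ j ∈ Finset.range J, -(S.A₀ / 32 * (1 / 2) ^ j) ≤ S.ψ j x := by
    intro j _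
    have h2 : x ∉ S.bad j := fun h => hb (mem_iUnion.mpr ⟨j, h⟩)
    have h3 := S.ψb j x hx h2
    have h4 : S.A₀ * (1 / 2) ^ j / 32 = S.A₀ / 32 * (1 / 2) ^ j := by ring
    rw [h4] at h3
    exact h3
  have h2 := Finset.sum_le_sum h1
  rw [Finset.sum_neg_distrib, ← Finset.mul_sum] at h2
  have h3 : ∑ j ∈ Finset.range J, (1 / 2 : ℝ) ^ j ≤ 2 := by
    have h4 := (summable_geometric_two).sum_le_tsum (Finset.range J) (fun i _ => by positivity)
    rwa [tsum_geometric_two] at h4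
  have h5 : S.A₀ / 32 * ∑ j ∈ Finset.range J, (1 / 2 : ℝ) ^ j ≤ S.A₀ / 32 * 2 :=
    mul_le_mul_of_nonneg_left h3 (by positivity)
  have h6 : -(S.A₀ / 16) ≤ S.A₀ / 16 * (‖x‖ ^ 2 - 1) := by
    have : 0 ≤ S.A₀ / 16 * ‖x‖ ^ 2 := by positivity
    linarith
  unfold slZ
  linarith

theorem sl_FF_cont (j : ℕ) : Continuous (S.FF j) := sl_ma_cont (S.ph_smooth j)

theorem sl_FF_nonneg (j : ℕ) {x : En 3} (hx : x ∈ S.T j) : 0 ≤ S.FF j x :=
  le_trans (by norm_num) (S.FF_pos j (S.sl_T_ball j hx))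

/-- the main inequality for fixed `J` -/
theorem step_low_aux {u : En 3 → ℝ} (hu : ContSol (ball (0 : En 3) 1) u S.mu) (J : ℕ)
    {E : Set (En 3)} (hEm : MeasurableSet E)
    (hE : ∀ x ∈ E, x ∈ ball (0 : En 3) 1 ∧ x ∉ ⋃ j, S.bad j ∧ u x < -(S.A₀ / 4)) :
    maC 3 * (S.A₀ / 16) ^ 3 * volume.real E ≤
      (∫ _x, (1 : ℝ) ∂S.mu) - ∑ j ∈ Finset.range J, ∫ x in S.T j, (1 : ℝ) * (maC 3 * S.FF j x) := by
  classical
  have hA := S.hA₀
  set δ : ℝ := S.A₀ / 16 with hδdef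
  have hδ : 0 < δ := by positivity
  set θ : ℝ → ℝ := fun t => sg ((t - δ) / δ) with hθdef
  have hθs : ContDiff ℝ ∞ θ := sg_smooth.comp ((contDiff_id.sub contDiff_const).div_const δ)
  have hθm : Monotone θ := fun a b hab => sg_mono (div_le_div_of_nonneg_right (by linarith) hδ.le)
  have hθ0 : ∀ t ≤ δ, θ t = 0 := fun t ht =>
    sg_zero (div_nonpos_of_nonpos_of_nonneg (by linarith) hδ.le)
  have hθ1 : ∀ t, 2 * δ ≤ t → θ t = 1 := fun t ht => by
    refine sg_one ?_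
    rw [le_div_iff₀ hδ]
    linarith
  have hθn : ∀ t, 0 ≤ θ t := fun t => sg_nonneg _
  have hθl : ∀ t, θ t ≤ 1 := fun t => sg_le_one _
  set Z : En 3 → ℝ := S.slZ δ J with hZdef
  have hZs : ContDiff ℝ ∞ Z := S.slZ_smooth δ J
  set B : Set (En 3) := ball (0 : En 3) 1 with hBdef
  have hBm : MeasurableSet B := measurableSet_ball
  have hBfin : volume B ≠ ⊤ := measure_ball_lt_top.ne
  have hEB : E ⊆ B := fun x hx => (hE x hx).1
  set F : En 3 → ℝ := B.indicator (fun x => θ (Z x - u x)) with hFdef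
  have hFm : Measurable F := by
    have h1 : ContinuousOn (fun x => θ (Z x - u x)) B :=
      hθs.continuous.comp_continuousOn (hZs.continuous.continuousOn.sub hu.psh.1)
    have h2 : Measurable (B.piecewise (fun x => θ (Z x - u x)) 0) :=
      h1.measurable_piecewise continuousOn_const hBm
    rwa [piecewise_eq_indicator] at h2
  have hFB : ∀ x ∈ B, F x = θ (Z x - u x) := fun x hx => indicator_of_mem hx _
  have hF0 : ∀ x, 0 ≤ F x := fun x => indicator_nonneg (fun x _ => hθn _) x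
  have hF1 : ∀ x, F x ≤ 1 := by
    intro x
    by_cases hx : x ∈ B
    · rw [hFB x hx]
      exact hθl _
    · rw [hFdef, indicator_of_notMem hx]
      exact zero_le_one
  have hFabs : ∀ x, |F x| ≤ 1 := fun x => by rw [abs_of_nonneg (hF0 x)]; exact hF1 x
  have hc : 0 < maC 3 := sl_maC_pos
  -- the comparison
  have hcomp := lower_comp isOpen_ball isBounded_ball hu hZs
    (fun x hx w => by
      rw [hZdef, S.slZ_levi]
      have h1 : 0 ≤ ∑ j ∈ Finset.range J, levi (S.ψ j) x w :=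
        Finset.sum_nonneg fun j _ => S.ψp j x hx w
      have h2 : 0 ≤ δ * ‖w‖ ^ 2 := by positivity
      linarith)
    (fun x hx => S.slZ_nonpos hδ.le J hx) hθs hθm hδ hθ0
  have hR : ∫ x in B, θ (Z x - u x) ∂S.mu = ∫ x, F x ∂S.mu := by
    rw [hFdef, integral_indicator hBm]
  have hL : ∫ x in B, θ (Z x - u x) * (maC 3 * ma Z x) = ∫ x in B, F x * (maC 3 * ma Z x) :=
    setIntegral_congr_fun hBm fun x hx => by
      rw [hFB x hx]
  rw [← hBdef, hR, hL] at hcomp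
  -- sums over the tubes
  have hsumF := S.mu_int hFm hFabs
  have hsum1 := S.mu_int (f := fun _ => (1 : ℝ)) measurable_const (b := 1) (fun x => by simp)
  have hTm : ∀ j, MeasurableSet (S.T j) := fun j => (S.T_open j).measurableSet
  have hcontc : ∀ j, Continuous fun x => maC 3 * S.FF j x := fun j =>
    continuous_const.mul (S.sl_FF_cont j)
  have hdiff : ∑ j ∈ Finset.range J, ((∫ x in S.T j, (1 : ℝ) * (maC 3 * S.FF j x)) -
      ∫ x in S.T j, F x * (maC 3 * S.FF j x)) ≤ (∫ _x, (1 : ℝ) ∂S.mu) - ∫ x, F x ∂S.mu := by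
    refine sum_le_hasSum _ (fun j _ => ?_) (hsum1.sub hsumF)
    rw [sub_nonneg]
    refine setIntegral_mono_on (sl_integrableOn hFm hFabs (hcontc j) (S.sl_T_cball j))
      (sl_integrableOn measurable_const (b := 1) (fun x => by simp) (hcontc j)
        (S.sl_T_cball j)) (hTm j) fun x hx => ?_
    exact mul_le_mul_of_nonneg_right (hF1 x) (mul_nonneg hc.le (S.sl_FF_nonneg j hx))
  -- lower bound of the left side
  have hint1 : IntegrableOn (fun x => F x * (maC 3 * δ ^ 3)) B :=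
    sl_integrableOn hFm hFabs continuous_const ball_subset_closedBall
  have hint2 : ∀ j, IntegrableOn ((S.T j).indicator fun x => F x * (maC 3 * S.FF j x)) B := fun j =>
    IntegrableOn.indicator (sl_integrableOn hFm hFabs (hcontc j) ball_subset_closedBall) (hTm j)
  have hint3 : IntegrableOn (fun x => F x * (maC 3 * ma Z x)) B :=
    sl_integrableOn hFm hFabs (continuous_const.mul (sl_ma_cont hZs)) ball_subset_closedBall
  have hlow : ∫ x in B, (F x * (maC 3 * δ ^ 3) +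
      ∑ j ∈ Finset.range J, (S.T j).indicator (fun x => F x * (maC 3 * S.FF j x)) x) ≤
      ∫ x in B, F x * (maC 3 * ma Z x) := by
    refine setIntegral_mono_on (hint1.add (integrable_finsetSum _ fun j _ => hint2 j)) hint3 hBm
      fun x hx => ?_
    by_cases hex : ∃ j ∈ Finset.range J, x ∈ S.T j
    · obtain ⟨j, hj, hxj⟩ := hex
      have h1 : ∑ i ∈ Finset.range J, (S.T i).indicator (fun x => F x * (maC 3 * S.FF i x)) x =
          F x * (maC 3 * S.FF j x) := by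
        rw [Finset.sum_eq_single j]
        · exact indicator_of_mem hxj _
        · intro i _ hij
          refine indicator_of_notMem (fun hxi => ?_) _
          exact disjoint_left.mp (S.T_disjoint hij) hxi hxj
        · exact fun h => absurd hj h
      rw [h1]
      have h2 := S.sl_ma_ge_FF hδ.le (Finset.mem_range.mp hj) hxj
      have h3 : maC 3 * (S.FF j x + δ ^ 3) ≤ maC 3 * ma Z x := mul_le_mul_of_nonneg_left h2 hc.le
      have h4 := mul_le_mul_of_nonneg_left h3 (hF0 x)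
      linarith
    · have h1 : ∑ i ∈ Finset.range J, (S.T i).indicator (fun x => F x * (maC 3 * S.FF i x)) x = 0 :=
        Finset.sum_eq_zero fun i hi => indicator_of_notMem (fun hxi => hex ⟨i, hi, hxi⟩) _
      rw [h1, add_zero]
      exact mul_le_mul_of_nonneg_left (mul_le_mul_of_nonneg_left (S.sl_ma_ge hδ.le J hx) hc.le) (hF0 x)
  have hsplit : ∫ x in B, (F x * (maC 3 * δ ^ 3) +
      ∑ j ∈ Finset.range J, (S.T j).indicator (fun x => F x * (maC 3 * S.FF j x)) x) =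
      (∫ x in B, F x) * (maC 3 * δ ^ 3) +
        ∑ j ∈ Finset.range J, ∫ x in S.T j, F x * (maC 3 * S.FF j x) := by
    rw [integral_add hint1 (integrable_finsetSum _ fun j _ => hint2 j), integral_mul_const,
      integral_finsetSum _ fun j _ => hint2 j]
    congr 1
    refine Finset.sum_congr rfl fun j _ => ?_
    rw [setIntegral_indicator (hTm j), inter_eq_self_of_subset_right (S.sl_T_ball j)]
  -- the volume of `E`
  have hvol : volume.real E ≤ ∫ x in B, F x := by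
    have h1 : ∫ x in B, E.indicator (fun _ => (1 : ℝ)) x = volume.real E := by
      rw [setIntegral_indicator hEm, inter_eq_self_of_subset_right hEB, setIntegral_const]
      simp
    rw [← h1]
    have hFint : IntegrableOn F B := by
      have := sl_integrableOn hFm hFabs (continuous_const (y := (1 : ℝ)))
        (ball_subset_closedBall (x := (0 : En 3)) (ε := 1))
      simpa using this
    refine setIntegral_mono_on ?_ hFint hBm fun x hx => ?_
    · exact (integrableOn_const hBfin).indicator hEm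
    · by_cases hxE : x ∈ E
      · rw [indicator_of_mem hxE, hFB x hx, hθ1]
        obtain ⟨h2, h3, h4⟩ := hE x hxE
        have h5 := S.slZ_ge (J := J) h2 h3
        have h6 : Z x = S.slZ (S.A₀ / 16) J x := rfl
        rw [h6]
        linarith
      · rw [indicator_of_notMem hxE]
        exact hF0 x
  rw [Finset.sum_sub_distrib] at hdiff
  have h7 : maC 3 * δ ^ 3 * volume.real E ≤ maC 3 * δ ^ 3 * ∫ x in B, F x :=
    mul_le_mul_of_nonneg_left hvol (by positivity)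
  rw [hsplit] at hlow
  linarith

theorem step_low {u : En 3 → ℝ} (hu : ContSol (ball (0 : En 3) 1) u S.mu) :
    ∀ᵐ x, x ∈ ball (0 : En 3) 1 → x ∉ ⋃ j, S.bad j → -(S.A₀ / 4) ≤ u x := by
  have hA := S.hA₀
  set E : Set (En 3) := (ball (0 : En 3) 1 ∩ u ⁻¹' Iio (-(S.A₀ / 4))) \ ⋃ j, S.bad j with hEdef
  have hEm : MeasurableSet E :=
    (hu.psh.1.isOpen_inter_preimage isOpen_ball isOpen_Iio).measurableSet.diff
      (MeasurableSet.iUnion S.badm)
  have hEprop : ∀ x ∈ E, x ∈ ball (0 : En 3) 1 ∧ x ∉ ⋃ j, S.bad j ∧ u x < -(S.A₀ / 4) :=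
    fun x hx => ⟨hx.1.1, hx.2, hx.1.2⟩
  have hsum1 := S.mu_int (f := fun _ => (1 : ℝ)) measurable_const (b := 1) (fun x => by simp)
  have hlim : Tendsto (fun J => (∫ _x, (1 : ℝ) ∂S.mu) -
      ∑ j ∈ Finset.range J, ∫ x in S.T j, (1 : ℝ) * (maC 3 * S.FF j x)) atTop (𝓝 0) := by
    have h1 := (tendsto_const_nhds (x := ∫ _x, (1 : ℝ) ∂S.mu)).sub hsum1.tendsto_sum_nat
    rwa [sub_self] at h1
  have hle : maC 3 * (S.A₀ / 16) ^ 3 * volume.real E ≤ 0 :=
    ge_of_tendsto' hlim fun J => S.step_low_aux hu J hEm hEprop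
  have hpos : 0 < maC 3 * (S.A₀ / 16) ^ 3 := mul_pos sl_maC_pos (by positivity)
  have hreal : volume.real E = 0 := by
    have h1 : 0 ≤ volume.real E := measureReal_nonneg
    nlinarith
  have hfin : volume E ≠ ⊤ :=
    ((measure_mono (fun x hx => (hEprop x hx).1)).trans_lt measure_ball_lt_top).ne
  have hzero : volume E = 0 := by
    rw [measureReal_def, ENNReal.toReal_eq_zero_iff] at hreal
    rcases hreal with h | h
    · exact h
    · exact absurd h hfin
  rw [ae_iff]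
  refine measure_mono_null (fun x hx => ?_) hzero
  rw [mem_ofPred_eq] at hx
  push Not at hx
  exact ⟨⟨hx.1, hx.2.2⟩, hx.2.1⟩

end Sys

end Pool.Agent.H50.CS
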