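import Pool.Agent.H50.CS.StepUp
import Pool.Agent.H50.CS.StepLow

/-!
# CS-NOSOL: `mu` has no continuous solution

Suppose `ContSol (ball 0 1) u mu`.

* `step_up`: `u ≤ a_j` on `T_j`: `upper_comp` with `F = ma (¾‖·‖²+g_j)`, `a = a_j`: on the frontier
  `u ≤ 0 < a_j` (`ContPsh.le_zero`, `TubeOK.bd`); `TubeOK.det`; and `∫χ c F ≤ ∫χ c FF_j = ∫χ dmu` for `χ ≥ 0` (`mu_on`;
  `F ≤ FF j` on `T_j` by `ma_mono_add`: `ph j = ¾‖·‖²+g_j + (1/8)‖·‖²`). So `u (ctr j) ≤ -A₀`, `u xst ≤ -A₀`.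
* `step_low`: for a.e. `x ∈ ball 0 1 \ ⋃ bad_j`: `u x ≥ -A₀/4`. Let `δ = A₀/16`, `θ(t) = sg((t-δ)/δ)`,
  `Z_J = ∑_{j<J} ψ_j + δ(‖x‖²-1)`: smooth, `≤ 0` on the ball, `levi Z_J ≥ δ‖v‖²`, and `≥ levi (ph j) + δ‖v‖²` on `T_j` for
  `j < J` (`ψt`, `ψp`). So `ma Z_J ≥ δ³` and `≥ FF j + δ³` on `T_j` (`ma_mono_add`). `lower_comp`:
  `∫_B θ(Z_J-u) c ma Z_J ≤ ∫_B θ(Z_J-u) dmu = ∑_j ∫_{T_j} θ(Z_J-u) c FF_j` (`mu_int`), and the left side is
  `≥ cδ³∫_Bθ(Z_J-u) + ∑_{j<J}∫_{T_j}θ(Z_J-u) c FF_j` (disjoint tubes). Hence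
  `cδ³ volume{x ∈ B | Z_J - u ≥ 2δ} ≤ cδ³∫_Bθ ≤ ∑_{j≥J} ∫_{T_j} c FF_j → 0` (tail of the convergent series
  `mu_int` with `f = 1`). For `x ∈ B \ ⋃bad_j`: `Z_J x ≥ -∑A₀(1/2)^j/32 - δ ≥ -A₀/16 - δ = -2δ` for all `J`, so
  `{x ∈ B \ ⋃bad | u x < -4δ} ⊆ {Z_J - u ≥ 2δ}` for every `J`: volume zero. `4δ = A₀/4`.
* `no_sol`: by continuity `u < -A₀/2` on `ball xst s` for some small `s` (contained in `B`), but by `step_low` and
  `not_bad` there is `x ∈ ball xst s` with `u x ≥ -A₀/4`: contradiction.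
(This file: no_sol.)
-/

set_option autoImplicit false

noncomputable section

namespace Pool.Agent.H50.CS

open Complex Metric MeasureTheory Set Filter Topology
open scoped ContDiff ComplexConjugate
open Pool.Agent.H8.FZ

namespace Sys

variable (S : Sys)

theorem no_sol (u : En 3 → ℝ) : ¬ContSol (ball (0 : En 3) 1) u S.mu := by
  intro hu
  have hA := S.hA₀
  have hxst := xst_mem
  have hcont : ContinuousAt u xst := hu.psh.1.continuousAt (isOpen_ball.mem_nhds hxst)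
  -- the value at the limit point
  have hle : u xst ≤ -S.A₀ := by
    have h1 : Tendsto (fun j => u (S.ctr j)) atTop (𝓝 (u xst)) :=
      hcont.tendsto.comp S.ctr_tendsto
    exact le_of_tendsto h1 (Eventually.of_forall fun j => S.step_up hu j)
  -- a small ball
  have hev : ∀ᶠ x in 𝓝 xst, u x < -(S.A₀ / 2) ∧ x ∈ ball (0 : En 3) 1 := by
    refine (hcont.eventually (gt_mem_nhds ?_)).and (isOpen_ball.mem_nhds hxst)
    linarith
  obtain ⟨s, hs, hsub⟩ := Metric.eventually_nhds_iff_ball.mp hev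
  have hpos := S.not_bad hs
  have hae := S.step_low hu
  -- a good point
  have hex : ∃ x, x ∈ ball xst s \ ⋃ j, S.bad j ∧
      (x ∈ ball (0 : En 3) 1 → x ∉ ⋃ j, S.bad j → -(S.A₀ / 4) ≤ u x) := by
    by_contra hno
    push_neg at hno
    have h1 : volume (ball xst s \ ⋃ j, S.bad j) = 0 := by
      refine measure_mono_null ?_ hae
      intro x hx hx'
      obtain ⟨h2, h3, h4⟩ := hno x hx
      exact absurd (hx' h2 h3) (not_le.mpr h4)
    exact hpos.ne' h1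
  obtain ⟨x, hx, hxu⟩ := hex
  obtain ⟨h1, h2⟩ := hsub x hx.1
  have h3 := hxu h2 hx.2
  linarith

end Sys

end Pool.Agent.H50.CS
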