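import Mathlib

/-!
# CS-ONEVAR: auxiliary functions of one real variable

`sg = Real.smoothTransition` (`0` for `x ≤ 0`, `1` for `x ≥ 1`, smooth, values in `[0,1]`).

* `sg_mono`: `smoothTransition x = g x / (g x + g (1-x))`, `g = expNegInvGlue` monotone
  (`expNegInvGlue.monotone` or direct), so for `0 < x`: `= 1/(1 + g(1-x)/g x)`.
* `exists_Hc`: `deriv sg` is continuous and vanishes outside `[0,1]`, hence bounded; `≥ 0` by monotonicity.
* `Sf x = ∫₀ˣ sg`: `Sf' = sg` (FTC), `Sf = 0` for `x ≤ 0`, `x - 1 ≤ Sf x ≤ x` for `x ≥ 0`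
  (`sg ≤ 1`; `sg = 1` on `[1,∞)`).
* `hf x = 1 - sg (x-1)`: `1` for `x ≤ 1`, `0` for `x ≥ 2`, antitone. `Ac = ∫₀² hf ∈ [1,2]`.
* `Va s = (∫₀ˢ hf)/Ac`, `Vb s = (∫₀ˢ hf(y-2))/(2+Ac)`; `∫₀ˢ hf(y-2) dy = s` for `s ≤ 3`, `= 2 + Ac` for `s ≥ 4`
  (`∫₀⁴ = ∫₀² 1 + ∫₂⁴ hf(y-2) dy`).
* `Ps t = ∫₀ᵗ sg(2y+2)`: `t` for `t ≥ -1/2`, constant for `t ≤ -1`.
All smoothness statements: the derivative is smooth, `contDiff_infty_iff_deriv` or
`contDiff_succ_iff_deriv`.
(This file: sg, sg_smooth, sg_nonneg, sg_le_one, sg_zero, sg_one, sg_mono, exists_Hc, Hc, Hc_ge, deriv_sg_nonneg, deriv_sg_le, deriv_sg_eq_zero, Sf, Sf_smooth, deriv_Sf, Sf_of_nonpos, Sf_nonneg, Sf_le, le_Sf, hf, hf_smooth, hf_nonneg, hf_le_one, hf_eq_one, hf_eq_zero, Ac, Ac_ge, Ac_le.)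
-/

set_option autoImplicit false

noncomputable section

namespace Pool.Agent.H50.CS

open Real Set Filter Topology MeasureTheory
open scoped ContDiff

/-- the smooth step -/
def sg (x : ℝ) : ℝ := Real.smoothTransition x

theorem sg_smooth : ContDiff ℝ ∞ sg := Real.smoothTransition.contDiff

theorem sg_nonneg (x : ℝ) : 0 ≤ sg x := Real.smoothTransition.nonneg x

theorem sg_le_one (x : ℝ) : sg x ≤ 1 := Real.smoothTransition.le_one x

theorem sg_zero {x : ℝ} (hx : x ≤ 0) : sg x = 0 := Real.smoothTransition.zero_of_nonpos hx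

theorem sg_one {x : ℝ} (hx : 1 ≤ x) : sg x = 1 := Real.smoothTransition.one_of_one_le hx

theorem sg_mono : Monotone sg := Real.smoothTransition.monotone

theorem deriv_sg_zero_aux {x : ℝ} (hx : x ≤ 0 ∨ 1 ≤ x) : deriv sg x = 0 := by
  have hd : DifferentiableAt ℝ sg x := (sg_smooth.differentiable (by simp)) x
  rcases hx with hx | hx
  · have h1 : HasDerivWithinAt sg (deriv sg x) (Iic x) x := hd.hasDerivAt.hasDerivWithinAt
    have h2 : HasDerivWithinAt sg 0 (Iic x) x :=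
      (hasDerivWithinAt_const x (Iic x) (0 : ℝ)).congr
        (fun y hy => sg_zero (le_trans hy hx)) (sg_zero hx)
    exact (uniqueDiffWithinAt_Iic x).eq_deriv _ h1 h2
  · have h1 : HasDerivWithinAt sg (deriv sg x) (Ici x) x := hd.hasDerivAt.hasDerivWithinAt
    have h2 : HasDerivWithinAt sg 0 (Ici x) x :=
      (hasDerivWithinAt_const x (Ici x) (1 : ℝ)).congr
        (fun y hy => sg_one (le_trans hx hy)) (sg_one hx)
    exact (uniqueDiffWithinAt_Ici x).eq_deriv _ h1 h2

theorem exists_Hc : ∃ H : ℝ, 1 ≤ H ∧ ∀ x, 0 ≤ deriv sg x ∧ deriv sg x ≤ H := by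
  have hc : Continuous (deriv sg) := sg_smooth.continuous_deriv (by simp)
  obtain ⟨C, hC⟩ := (isCompact_Icc (a := (0 : ℝ)) (b := 1)).exists_bound_of_continuousOn
    hc.continuousOn
  refine ⟨max C 1, le_max_right _ _, fun x => ⟨sg_mono.deriv_nonneg, ?_⟩⟩
  by_cases h : x ∈ Icc (0 : ℝ) 1
  · exact (le_abs_self _).trans ((hC x h).trans (le_max_left _ _))
  · have h2 : x ≤ 0 ∨ 1 ≤ x := by
      by_contra h3
      push Not at h3
      exact h ⟨h3.1.le, h3.2.le⟩
    rw [deriv_sg_zero_aux h2]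
    exact zero_le_one.trans (le_max_right _ _)

/-- a bound for the derivative of `sg` -/
def Hc : ℝ := Classical.choose exists_Hc

theorem Hc_ge : 1 ≤ Hc := (Classical.choose_spec exists_Hc).1

theorem deriv_sg_nonneg (x : ℝ) : 0 ≤ deriv sg x := ((Classical.choose_spec exists_Hc).2 x).1

theorem deriv_sg_le (x : ℝ) : deriv sg x ≤ Hc := ((Classical.choose_spec exists_Hc).2 x).2

theorem deriv_sg_eq_zero {x : ℝ} (hx : x ≤ 0 ∨ 1 ≤ x) : deriv sg x = 0 := deriv_sg_zero_aux hx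

/-- `Sf x = ∫₀ˣ sg` -/
def Sf (x : ℝ) : ℝ := ∫ y in (0 : ℝ)..x, sg y

theorem Sf_smooth : ContDiff ℝ ∞ Sf := by
  have h1 : ∀ x, HasDerivAt Sf (sg x) x := fun x =>
    intervalIntegral.integral_hasDerivAt_right
      (sg_smooth.continuous.intervalIntegrable _ _)
      (sg_smooth.continuous.stronglyMeasurableAtFilter _ _) sg_smooth.continuous.continuousAt
  rw [contDiff_infty_iff_deriv]
  refine ⟨fun x => (h1 x).differentiableAt, ?_⟩
  have h2 : deriv Sf = sg := funext fun x => (h1 x).deriv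
  rw [h2]
  exact sg_smooth

theorem deriv_Sf (x : ℝ) : deriv Sf x = sg x := by
  have h1 : HasDerivAt Sf (sg x) x :=
    intervalIntegral.integral_hasDerivAt_right
      (sg_smooth.continuous.intervalIntegrable _ _)
      (sg_smooth.continuous.stronglyMeasurableAtFilter _ _) sg_smooth.continuous.continuousAt
  exact h1.deriv

theorem Sf_of_nonpos {x : ℝ} (hx : x ≤ 0) : Sf x = 0 := by
  unfold Sf
  rw [intervalIntegral.integral_symm, neg_eq_zero]
  have : ∫ y in x..0, sg y = ∫ y in x..0, (0 : ℝ) := by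
    apply intervalIntegral.integral_congr
    intro y hy
    rw [uIcc_of_le hx] at hy
    exact sg_zero hy.2
  rw [this]
  simp

theorem Sf_nonneg (x : ℝ) : 0 ≤ Sf x := by
  rcases le_total x 0 with hx | hx
  · rw [Sf_of_nonpos hx]
  · exact intervalIntegral.integral_nonneg hx (fun y _ => sg_nonneg y)

theorem Sf_le {x : ℝ} (hx : 0 ≤ x) : Sf x ≤ x := by
  have h := intervalIntegral.integral_mono_on (μ := volume) hx
    (sg_smooth.continuous.intervalIntegrable 0 x)
    ((continuous_const (y := (1 : ℝ))).intervalIntegrable 0 x) (fun y _ => sg_le_one y)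
  simpa [Sf] using h

theorem le_Sf {x : ℝ} (hx : 0 ≤ x) : x - 1 ≤ Sf x := by
  rcases le_total x 1 with h1 | h1
  · linarith [Sf_nonneg x]
  · have hsplit : Sf x = (∫ y in (0 : ℝ)..1, sg y) + ∫ y in (1 : ℝ)..x, sg y :=
      (intervalIntegral.integral_add_adjacent_intervals
        (sg_smooth.continuous.intervalIntegrable _ _)
        (sg_smooth.continuous.intervalIntegrable _ _)).symm
    have ha : 0 ≤ ∫ y in (0 : ℝ)..1, sg y := Sf_nonneg 1
    have hb : ∫ y in (1 : ℝ)..x, sg y = ∫ y in (1 : ℝ)..x, (1 : ℝ) := by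
      apply intervalIntegral.integral_congr
      intro y hy
      rw [uIcc_of_le h1] at hy
      exact sg_one hy.1
    rw [hsplit, hb]
    simp only [intervalIntegral.integral_const, smul_eq_mul, mul_one]
    linarith

/-- `hf x = 1 - sg (x-1)` -/
def hf (x : ℝ) : ℝ := 1 - sg (x - 1)

theorem hf_smooth : ContDiff ℝ ∞ hf := contDiff_const.sub (sg_smooth.comp (contDiff_id.sub contDiff_const))

theorem hf_nonneg (x : ℝ) : 0 ≤ hf x := by
  unfold hf
  linarith [sg_le_one (x - 1)]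

theorem hf_le_one (x : ℝ) : hf x ≤ 1 := by
  unfold hf
  linarith [sg_nonneg (x - 1)]

theorem hf_eq_one {x : ℝ} (hx : x ≤ 1) : hf x = 1 := by
  unfold hf
  rw [sg_zero (by linarith)]
  ring

theorem hf_eq_zero {x : ℝ} (hx : 2 ≤ x) : hf x = 0 := by
  unfold hf
  rw [sg_one (by linarith)]
  ring

/-- `Ac = ∫₀² hf` -/
def Ac : ℝ := ∫ y in (0 : ℝ)..2, hf y

theorem Ac_ge : 1 ≤ Ac := by
  have hsplit : Ac = (∫ y in (0 : ℝ)..1, hf y) + ∫ y in (1 : ℝ)..2, hf y :=
    (intervalIntegral.integral_add_adjacent_intervals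
      (hf_smooth.continuous.intervalIntegrable _ _)
      (hf_smooth.continuous.intervalIntegrable _ _)).symm
  have ha : ∫ y in (0 : ℝ)..1, hf y = ∫ y in (0 : ℝ)..1, (1 : ℝ) := by
    apply intervalIntegral.integral_congr
    intro y hy
    rw [uIcc_of_le zero_le_one] at hy
    exact hf_eq_one hy.2
  have hb : 0 ≤ ∫ y in (1 : ℝ)..2, hf y :=
    intervalIntegral.integral_nonneg one_le_two (fun y _ => hf_nonneg y)
  rw [hsplit, ha]
  simp only [intervalIntegral.integral_const, smul_eq_mul, mul_one]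
  linarith

theorem Ac_le : Ac ≤ 2 := by
  have h := intervalIntegral.integral_mono_on (μ := volume) (zero_le_two (α := ℝ))
    (hf_smooth.continuous.intervalIntegrable 0 2)
    ((continuous_const (y := (1 : ℝ))).intervalIntegrable 0 2) (fun y _ => hf_le_one y)
  simpa [Ac] using h

end Pool.Agent.H50.CS
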