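import Pool.Agent.H50.CS.OneVar

/-!
# CS-ONEVAR: auxiliary functions of one real variable

`sg = Real.smoothTransition` (`0` for `x ≤ 0`, `1` for `x ≥ 1`, smooth, values in `[0,1]`).

* `sg_mono`: `smoothTransition x = g x / (g x + g (1-x))`, `g = expNegInvGlue` monotone
  (`expNegInvGlue.monotone` or direct), so for `0 < x`: `= 1/(1 + g(1-x)/g x)`.
* `exists_Hc`: `deriv sg` is continuous and vanishes outside `[0,1]`, hence bounded; `≥ 0` by monotonicity.
* `Sf x = ∫₀ˣ sg`: `Sf' = sg` (FTC), `Sf = 0` for `x ≤ 0`, `x - 1 ≤ Sf x ≤ x` for `x ≥ 0`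
  (`sg ≤ 1`; `sg = 1` on `[1,∞)`).
* `hf x = 1 - sg (x-1)`: `1` for `x ≤ 1`, `0` for `x ≥ 2`, antitone. `Ac = ∫₀² hf ∈ [1,2]`.
* `Va s = (∫₀ˢ hf)/Ac`, `Vb s = (∫₀ˢ hf(y-2))/(2+Ac)`; `∫₀ˢ hf(y-2) dy = s` for `s ≤ 3`, `= 2 + Ac` for `s ≥ 4`
  (`∫₀⁴ = ∫₀² 1 + ∫₂⁴ hf(y-2) dy`).
* `Ps t = ∫₀ᵗ sg(2y+2)`: `t` for `t ≥ -1/2`, constant for `t ≤ -1`.
All smoothness statements: the derivative is smooth, `contDiff_infty_iff_deriv` or
`contDiff_succ_iff_deriv`.
(This file: Va, Va_smooth, deriv_Va, deriv2_Va, Va_zero, Va_mono, Va_eq_one, Va_le_one, Va_nonneg, Va_le, Vb, Vb_smooth, deriv_Vb, deriv2_Vb, Vb_mono, Vb_lin, Vb_eq_one, Vb_le_one, Vb_nonneg.)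
-/

set_option autoImplicit false

noncomputable section

namespace Pool.Agent.H50.CS

open Real Set Filter Topology MeasureTheory
open scoped ContDiff

theorem OneVar2_int_deriv {f : ℝ → ℝ} (hf : Continuous f) (s : ℝ) :
    HasDerivAt (fun s => ∫ y in (0 : ℝ)..s, f y) (f s) s :=
  intervalIntegral.integral_hasDerivAt_right (hf.intervalIntegrable _ _)
    hf.stronglyMeasurable.stronglyMeasurableAtFilter hf.continuousAt

theorem OneVar2_int_smooth {f : ℝ → ℝ} (hf : ContDiff ℝ ∞ f) :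
    ContDiff ℝ ∞ (fun s => ∫ y in (0 : ℝ)..s, f y) := by
  rw [contDiff_infty_iff_deriv]
  have h1 : deriv (fun s => ∫ y in (0 : ℝ)..s, f y) = f := by
    funext s
    exact (OneVar2_int_deriv hf.continuous s).deriv
  exact ⟨fun s => (OneVar2_int_deriv hf.continuous s).differentiableAt, by rwa [h1]⟩

theorem OneVar2_deriv_hf (x : ℝ) : HasDerivAt hf (-deriv sg (x - 1)) x := by
  have h1 : HasDerivAt sg (deriv sg (x - 1)) (x - 1) :=
    (sg_smooth.differentiable (by simp) _).hasDerivAt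
  have h2 : HasDerivAt (fun x : ℝ => sg (x - 1)) (deriv sg (x - 1)) x := by
    simpa using h1.comp_sub_const x 1
  exact (h2.const_sub 1)

theorem OneVar2_Ac_pos : 0 < Ac := lt_of_lt_of_le one_pos Ac_ge

/-- the profile of the functions `u_i` -/
def Va (s : ℝ) : ℝ := (∫ y in (0 : ℝ)..s, hf y) / Ac

theorem Va_smooth : ContDiff ℝ ∞ Va :=
  (OneVar2_int_smooth hf_smooth).div_const Ac

theorem deriv_Va (s : ℝ) : deriv Va s = hf s / Ac :=
  ((OneVar2_int_deriv hf_smooth.continuous s).div_const Ac).deriv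

theorem deriv2_Va (s : ℝ) : deriv (deriv Va) s = -deriv sg (s - 1) / Ac := by
  have h1 : deriv Va = fun s => hf s / Ac := funext deriv_Va
  rw [h1]
  exact ((OneVar2_deriv_hf s).div_const Ac).deriv

theorem Va_zero : Va 0 = 0 := by
  unfold Va
  simp

theorem Va_mono : Monotone Va := by
  apply monotone_of_deriv_nonneg (Va_smooth.differentiable (by simp))
  intro s
  rw [deriv_Va]
  exact div_nonneg (hf_nonneg s) OneVar2_Ac_pos.le

theorem OneVar2_int_zero {s : ℝ} (hs : 2 ≤ s) : ∫ y in (2 : ℝ)..s, hf y = 0 := by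
  rw [intervalIntegral.integral_congr (g := fun _ => (0 : ℝ))]
  · simp
  · intro y hy
    rw [uIcc_of_le hs] at hy
    exact hf_eq_zero hy.1

theorem Va_eq_one {s : ℝ} (hs : 2 ≤ s) : Va s = 1 := by
  have hc := hf_smooth.continuous
  unfold Va
  rw [← intervalIntegral.integral_add_adjacent_intervals (hc.intervalIntegrable 0 2)
    (hc.intervalIntegrable 2 s), OneVar2_int_zero hs, add_zero]
  exact div_self OneVar2_Ac_pos.ne'

theorem Va_le_one (s : ℝ) : Va s ≤ 1 := by
  rw [← Va_eq_one (le_max_right s 2)]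
  exact Va_mono (le_max_left s 2)

theorem Va_nonneg {s : ℝ} (hs : 0 ≤ s) : 0 ≤ Va s := by
  rw [← Va_zero]
  exact Va_mono hs

theorem Va_le {s : ℝ} (hs : 0 ≤ s) : Va s ≤ s := by
  have hc := hf_smooth.continuous
  unfold Va
  rw [div_le_iff₀ OneVar2_Ac_pos]
  have h1 : ∫ y in (0 : ℝ)..s, hf y ≤ ∫ _ in (0 : ℝ)..s, (1 : ℝ) :=
    intervalIntegral.integral_mono_on hs (hc.intervalIntegrable _ _)
      (continuous_const.intervalIntegrable _ _) fun y _ => hf_le_one y
  rw [intervalIntegral.integral_const, sub_zero, smul_eq_mul, mul_one] at h1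
  have h2 := mul_le_mul_of_nonneg_left Ac_ge hs
  linarith

/-- the profile of the functions `v_i` -/
def Vb (s : ℝ) : ℝ := (∫ y in (0 : ℝ)..s, hf (y - 2)) / (2 + Ac)

theorem OneVar2_smooth2 : ContDiff ℝ ∞ (fun y : ℝ => hf (y - 2)) :=
  hf_smooth.comp (contDiff_id.sub contDiff_const)

theorem Vb_smooth : ContDiff ℝ ∞ Vb :=
  (OneVar2_int_smooth OneVar2_smooth2).div_const (2 + Ac)

theorem deriv_Vb (s : ℝ) : deriv Vb s = hf (s - 2) / (2 + Ac) :=
  ((OneVar2_int_deriv OneVar2_smooth2.continuous s).div_const (2 + Ac)).deriv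

theorem deriv2_Vb (s : ℝ) : deriv (deriv Vb) s = -deriv sg (s - 3) / (2 + Ac) := by
  have h1 : deriv Vb = fun s => hf (s - 2) / (2 + Ac) := funext deriv_Vb
  rw [h1]
  have h2 : HasDerivAt (fun s : ℝ => hf (s - 2)) (-deriv sg (s - 2 - 1)) s := by
    simpa using (OneVar2_deriv_hf (s - 2)).comp_sub_const s 2
  rw [(h2.div_const (2 + Ac)).deriv, show s - 2 - 1 = s - 3 by ring]

theorem Vb_mono : Monotone Vb := by
  apply monotone_of_deriv_nonneg (Vb_smooth.differentiable (by simp))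
  intro s
  rw [deriv_Vb]
  exact div_nonneg (hf_nonneg _) (by linarith [OneVar2_Ac_pos])

theorem Vb_lin {s : ℝ} (hs : s ≤ 3) : Vb s = s / (2 + Ac) := by
  unfold Vb
  rw [intervalIntegral.integral_congr (g := fun _ => (1 : ℝ))]
  · rw [intervalIntegral.integral_const, sub_zero, smul_eq_mul, mul_one]
  · intro y hy
    have h1 : y ≤ 3 := hy.2.trans (max_le (by norm_num) hs)
    exact hf_eq_one (by linarith)

theorem Vb_eq_one {s : ℝ} (hs : 4 ≤ s) : Vb s = 1 := by
  have hc := hf_smooth.continuous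
  have hA := OneVar2_Ac_pos
  unfold Vb
  rw [intervalIntegral.integral_comp_sub_right (fun y => hf y) 2,
    ← intervalIntegral.integral_add_adjacent_intervals (hc.intervalIntegrable (0 - 2) 0)
    (hc.intervalIntegrable 0 (s - 2)),
    ← intervalIntegral.integral_add_adjacent_intervals (hc.intervalIntegrable 0 2)
    (hc.intervalIntegrable 2 (s - 2)), OneVar2_int_zero (by linarith : (2 : ℝ) ≤ s - 2)]
  have h1 : ∫ y in (0 - 2 : ℝ)..0, hf y = 2 := by
    rw [intervalIntegral.integral_congr (g := fun _ => (1 : ℝ))]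
    · rw [intervalIntegral.integral_const]
      simp
    · intro y hy
      have h1 : y ≤ 0 := by
        rw [uIcc_of_le (by norm_num)] at hy
        exact hy.2
      exact hf_eq_one (by linarith)
  rw [h1, add_zero]
  exact div_self (by linarith : (0 : ℝ) < 2 + Ac).ne'

theorem Vb_le_one (s : ℝ) : Vb s ≤ 1 := by
  rw [← Vb_eq_one (le_max_right s 4)]
  exact Vb_mono (le_max_left s 4)

theorem Vb_nonneg {s : ℝ} (hs : 0 ≤ s) : 0 ≤ Vb s := by
  have h0 : Vb 0 = 0 := by
    unfold Vb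
    simp
  rw [← h0]
  exact Vb_mono hs

end Pool.Agent.H50.CS
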