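import Pool.Agent.H50.CS.OneVar

/-!
# CS-ONEVAR: auxiliary functions of one real variable

`sg = Real.smoothTransition` (`0` for `x ≤ 0`, `1` for `x ≥ 1`, smooth, values in `[0,1]`).

* `sg_mono`: `smoothTransition x = g x / (g x + g (1-x))`, `g = expNegInvGlue` monotone
  (`expNegInvGlue.monotone` or direct), so for `0 < x`: `= 1/(1 + g(1-x)/g x)`.
* `exists_Hc`: `deriv sg` is continuous and vanishes outside `[0,1]`, hence bounded; `≥ 0` by monotonicity.
* `Sf x = ∫₀ˣ sg`: `Sf' = sg` (FTC), `Sf = 0` for `x ≤ 0`, `x - 1 ≤ Sf x ≤ x` for `x ≥ 0`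
  (`sg ≤ 1`; `sg = 1` on `[1,∞)`).
* `hf x = 1 - sg (x-1)`: `1` for `x ≤ 1`, `0` for `x ≥ 2`, antitone. `Ac = ∫₀² hf ∈ [1,2]`.
* `Va s = (∫₀ˢ hf)/Ac`, `Vb s = (∫₀ˢ hf(y-2))/(2+Ac)`; `∫₀ˢ hf(y-2) dy = s` for `s ≤ 3`, `= 2 + Ac` for `s ≥ 4`
  (`∫₀⁴ = ∫₀² 1 + ∫₂⁴ hf(y-2) dy`).
* `Ps t = ∫₀ᵗ sg(2y+2)`: `t` for `t ≥ -1/2`, constant for `t ≤ -1`.
All smoothness statements: the derivative is smooth, `contDiff_infty_iff_deriv` or
`contDiff_succ_iff_deriv`.
(This file: Ps, Ps_smooth, deriv_Ps, deriv2_Ps, Ps_mono, Ps_nonpos, le_Ps, neg_one_le_Ps, Ps_const, Ps_neg_one_le, sq_deriv_le.)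
-/

set_option autoImplicit false

noncomputable section

namespace Pool.Agent.H50.CS

open Real Set Filter Topology MeasureTheory
open scoped ContDiff

/-- `Ps t = ∫₀ᵗ sg(2y+2)`: a smooth convex truncation of the identity -/
def Ps (t : ℝ) : ℝ := ∫ y in (0 : ℝ)..t, sg (2 * y + 2)

private theorem ps_cont : Continuous fun y : ℝ => sg (2 * y + 2) :=
  sg_smooth.continuous.comp (by fun_prop)

theorem deriv_Ps (t : ℝ) : deriv Ps t = sg (2 * t + 2) :=
  Continuous.deriv_integral (fun y : ℝ => sg (2 * y + 2)) ps_cont 0 t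

private theorem deriv_Ps_fun : deriv Ps = fun t => sg (2 * t + 2) := funext deriv_Ps

private theorem Ps_hasDerivAt (t : ℝ) : HasDerivAt Ps (sg (2 * t + 2)) t :=
  intervalIntegral.integral_hasDerivAt_right (ps_cont.intervalIntegrable 0 t)
    (ps_cont.stronglyMeasurableAtFilter volume (𝓝 t)) ps_cont.continuousAt

private theorem Ps_diff : Differentiable ℝ Ps := fun t => (Ps_hasDerivAt t).differentiableAt

theorem Ps_smooth : ContDiff ℝ ∞ Ps := by
  rw [contDiff_infty_iff_deriv]
  refine ⟨Ps_diff, ?_⟩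
  rw [deriv_Ps_fun]
  exact sg_smooth.comp (by fun_prop)

theorem deriv2_Ps (t : ℝ) : deriv (deriv Ps) t = 2 * deriv sg (2 * t + 2) := by
  rw [deriv_Ps_fun]
  have h1 : HasDerivAt sg (deriv sg (2 * t + 2)) (2 * t + 2) :=
    ((sg_smooth.differentiable (by simp)) _).hasDerivAt
  have h2 : HasDerivAt (fun y : ℝ => 2 * y + 2) 2 t := by
    simpa using ((hasDerivAt_id t).const_mul 2).add_const 2
  have h3 := h1.comp t h2
  have h4 : deriv (fun t => sg (2 * t + 2)) t = deriv sg (2 * t + 2) * 2 := h3.deriv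
  rw [h4, mul_comm]

theorem Ps_mono : Monotone Ps :=
  monotone_of_deriv_nonneg Ps_diff fun x => by rw [deriv_Ps]; exact sg_nonneg _

private theorem Ps_zero : Ps 0 = 0 := by
  unfold Ps
  exact intervalIntegral.integral_same

theorem Ps_nonpos {t : ℝ} (ht : t ≤ 0) : Ps t ≤ 0 := by
  have := Ps_mono ht
  rwa [Ps_zero] at this

theorem le_Ps {t : ℝ} (ht : t ≤ 0) : t ≤ Ps t := by
  have h1 : Antitone fun y => Ps y - y := by
    apply antitone_of_deriv_nonpos (Ps_diff.sub differentiable_id)
    intro x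
    have h2 : deriv (fun y => Ps y - y) x = sg (2 * x + 2) - 1 :=
      ((Ps_hasDerivAt x).sub (hasDerivAt_id x)).deriv
    have h3 : deriv (Ps - id) x = sg (2 * x + 2) - 1 := h2
    rw [h3]
    linarith [sg_le_one (2 * x + 2)]
  have h2 := h1 ht
  simp only [Ps_zero] at h2
  linarith

theorem Ps_const {t : ℝ} (ht : t ≤ -1) : Ps t = Ps (-1) := by
  have h1 := intervalIntegral.integral_add_adjacent_intervals
    (ps_cont.intervalIntegrable (μ := volume) 0 t) (ps_cont.intervalIntegrable (μ := volume) t (-1))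
  have h2 : ∫ y in t..(-1), sg (2 * y + 2) = ∫ _y in t..(-1), (0 : ℝ) := by
    apply intervalIntegral.integral_congr
    intro y hy
    rw [uIcc_of_le ht] at hy
    exact sg_zero (by linarith [hy.2])
  rw [h2, intervalIntegral.integral_zero, add_zero] at h1
  exact h1

theorem neg_one_le_Ps {t : ℝ} (ht : t ≤ 0) : -1 ≤ Ps t := by
  rcases le_total t (-1) with h | h
  · rw [Ps_const h]
    exact le_Ps (by norm_num)
  · exact h.trans (le_Ps ht)

theorem Ps_neg_one_le : Ps (-1) ≤ -(1 / 2) := by
  have h1 : Ps (-1) ≤ Ps (-(1 / 2)) := Ps_mono (by norm_num)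
  have h2 : Ps (-(1 / 2)) = -(1 / 2) := by
    have h3 : ∫ y in (0 : ℝ)..(-(1 / 2)), sg (2 * y + 2) = ∫ _y in (0 : ℝ)..(-(1 / 2)), (1 : ℝ) := by
      apply intervalIntegral.integral_congr
      intro y hy
      rw [uIcc_of_ge (by norm_num)] at hy
      exact sg_one (by linarith [hy.1])
    unfold Ps
    rw [h3]
    simp
  linarith

/-- a nonnegative function with bounded second derivative: `f'² ≤ 2 C f`
(if `f'(x) ≠ 0`, use Taylor: `0 ≤ f(x + h) ≤ f(x) + f'(x) h + C h²/2` with `h = -f'(x)/C`) -/
theorem sq_deriv_le {f : ℝ → ℝ} (hf : ContDiff ℝ 2 f) (h0 : ∀ x, 0 ≤ f x) {C : ℝ} (hC : 0 < C)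
    (h2 : ∀ x, |deriv (deriv f) x| ≤ C) (x : ℝ) : deriv f x ^ 2 ≤ 2 * C * f x := by
  have hd : Differentiable ℝ f := hf.differentiable (by norm_num)
  have hf1 : ContDiff ℝ 1 (deriv f) := by
    have : ContDiff ℝ (1 + 1) f := by
      convert hf using 1
      norm_num
    exact (contDiff_succ_iff_deriv.1 this).2.2
  have hd2 : Differentiable ℝ (deriv f) := hf1.differentiable (by norm_num)
  -- `k` is monotone
  have hk' : ∀ y, HasDerivAt (fun y => deriv f x + C * (y - x) - deriv f y)
      (C - deriv (deriv f) y) y := by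
    intro y
    have h3 : HasDerivAt (fun y : ℝ => deriv f x + C * (y - x)) C y := by
      simpa using (((hasDerivAt_id y).sub_const x).const_mul C).const_add (deriv f x)
    exact h3.sub (hd2 y).hasDerivAt
  have hk : Monotone fun y => deriv f x + C * (y - x) - deriv f y := by
    apply monotone_of_deriv_nonneg (fun y => (hk' y).differentiableAt)
    intro y
    rw [(hk' y).deriv]
    have := (abs_le.1 (h2 y)).2
    linarith
  have hg' : ∀ y, HasDerivAt (fun y => f x + deriv f x * (y - x) + C * (y - x) ^ 2 / 2 - f y)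
      (deriv f x + C * (y - x) - deriv f y) y := by
    intro y
    have e1 : HasDerivAt (fun y : ℝ => f x + deriv f x * (y - x)) (deriv f x) y := by
      simpa using (((hasDerivAt_id y).sub_const x).const_mul (deriv f x)).const_add (f x)
    have e2 : HasDerivAt (fun y : ℝ => C * (y - x) ^ 2 / 2) (C * (y - x)) y := by
      have h4 : HasDerivAt (fun y : ℝ => (y - x) ^ 2) (2 * (y - x)) y := by
        simpa using ((hasDerivAt_id y).sub_const x).fun_pow 2
      refine ((h4.const_mul C).div_const 2).congr_deriv ?_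
      ring
    exact (e1.add e2).sub (hd y).hasDerivAt
  have hg : ∀ y, 0 ≤ f x + deriv f x * (y - x) + C * (y - x) ^ 2 / 2 - f y := by
    intro y
    rcases le_total x y with hxy | hxy
    · have hm : MonotoneOn (fun y => f x + deriv f x * (y - x) + C * (y - x) ^ 2 / 2 - f y) (Ici x) := by
        apply monotoneOn_of_deriv_nonneg (convex_Ici x)
          (fun y _ => (hg' y).continuousAt.continuousWithinAt)
          (fun y _ => (hg' y).differentiableAt.differentiableWithinAt)
        intro z hz
        rw [interior_Ici] at hz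
        rw [(hg' z).deriv]
        have := hk (le_of_lt hz)
        simp only [sub_self, mul_zero, add_zero] at this
        linarith
      have := hm self_mem_Ici hxy hxy
      simp only [sub_self, mul_zero, add_zero] at this
      norm_num at this
      linarith
    · have hm : AntitoneOn (fun y => f x + deriv f x * (y - x) + C * (y - x) ^ 2 / 2 - f y) (Iic x) := by
        apply antitoneOn_of_deriv_nonpos (convex_Iic x)
          (fun y _ => (hg' y).continuousAt.continuousWithinAt)
          (fun y _ => (hg' y).differentiableAt.differentiableWithinAt)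
        intro z hz
        rw [interior_Iic] at hz
        rw [(hg' z).deriv]
        have := hk (le_of_lt hz)
        simp only [sub_self, mul_zero, add_zero] at this
        linarith
      have := hm (mem_Iic.2 hxy) (mem_Iic.2 le_rfl) hxy
      simp only [sub_self, mul_zero, add_zero] at this
      norm_num at this
      linarith
  have h5 := hg (x - deriv f x / C)
  have h6 := h0 (x - deriv f x / C)
  have e : x - deriv f x / C - x = -(deriv f x / C) := by ring
  rw [e] at h5
  have h7 : deriv f x * -(deriv f x / C) + C * (-(deriv f x / C)) ^ 2 / 2 =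
      -(deriv f x ^ 2 / (2 * C)) := by
    field_simp
    ring
  have h8 : deriv f x ^ 2 / (2 * C) ≤ f x := by linarith
  rw [div_le_iff₀ (by positivity)] at h8
  linarith

end Pool.Agent.H50.CS
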