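import Pool.Agent.H50.CS.Sys2
import Pool.Agent.H50.CS.Lev2

/-!
# CS-PHI: the measure `μ` and its continuous subsolution

`S : Sys`, `B = ball 0 1`. `ph j x = (7/8)‖x‖² + g_j x`, `FF j = ma (ph j)`,
`Ph k x = ‖x‖² - 1 + ∑_{j<k} g_j x` (smooth), `PhL x = ‖x‖² - 1 + ∑' j, g_j x`.

* `ph_psh`: `levi (ph j) x v ≥ (1/8)‖v‖²` on `B` (off the tube: `≥ (7/8 - 1/64)‖v‖²`; in the tube
  `levi g_j + ¾‖v‖² ≥ 0`) so `FF j ≥ (1/8)³` on `B` (`ma_mono_add` with `P = 0`).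
* `Ph_psh`: on `B`: `levi (Ph k) x v ≥ 0`, and on `S.T j`, `j < k`: `levi (Ph k) x v ≥ levi (ph j) x v`: at most one index
  `j` with `x ∈ S.T j` (`T_disjoint`), all others contribute `≥ -ε_i‖v‖²`, `∑ε_i ≤ 1/32 ≤ 1/8`. Hence
  `FF j ≤ ma (Ph k)` on `S.T j` (`ma_mono_add`, `δ = 0`).
* `Ph_unif`: `Ph k → PhL` uniformly on `B` (Weierstrass M-test, `|g_j| ≤ (1/2)^j/64`), `|PhL x - (‖x‖²-1)| ≤ 1/32`.
* `sub x = max (PhL x - 1/8) (2(‖x‖²-1))` is continuous psh on `B` (`smoothPsh_contPsh`, `ContPsh.of_tendsto`,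
  `ContPsh.max`; `2(‖x‖²-1)` is smooth psh), has zero boundary values (near the boundary
  `PhL - 1/8 ≤ (‖x‖²-1) - 3/32 < 2(‖x‖²-1)`), and equals `PhL - 1/8` on `ball 0 (15/16)`
  (there `1 - ‖x‖² ≥ 1 - (15/16)² > 5/32 - …`: need `PhL - 1/8 ≥ (‖x‖²-1) - 5/32 ≥ 2(‖x‖²-1)` iff `1-‖x‖² ≥ 5/32`; OK on
  `ball 0 (9/10)`).
* `mu = ∑_j (c FF_j dV)|_{T_j}`; `exists_isMA` gives `ν` for `sub`; `IsMA.ge` (on `V = ball 0 (9/10)`, `v_k = Ph k - 1/8`, `W = T_j`)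
  gives `(c FF_j dV)|_{T_j} ≤ ν`, and the tubes are disjoint measurable, so `mu ≤ ν` (for Borel `E`:
  `mu E = ∑_j (…)(E ∩ T_j) ≤ ∑_j ν(E ∩ T_j) ≤ ν E`).
* `mu_fin`: `mu univ ≤ ν (closedBall 0 (7/8)) < ∞`; `mu_pos`: `FF 0 > 0` on the nonempty open `T_0`.
* `mu_on`: `∫χ dmu = ∫χ c FF_j` for `χ` continuous with compact support in `T_j`.
(This file: ph, FF, Ph, PhL, sub, mu, ph_smooth, ph_psh, FF_pos, Ph_smooth, Ph_psh, FF_le.)
-/

set_option autoImplicit false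

noncomputable section

namespace Pool.Agent.H50.CS

open Complex Metric MeasureTheory Set Filter Topology
open scoped ContDiff ComplexConjugate
open Pool.Agent.H8.FZ

namespace Sys

variable (S : Sys)

/-- `(7/8)‖x‖² + g_j` -/
def ph (j : ℕ) (x : En 3) : ℝ := 7 / 8 * ‖x‖ ^ 2 + S.g j x

/-- its Monge-Ampère density -/
def FF (j : ℕ) (x : En 3) : ℝ := ma (S.ph j) x

/-- finite sums -/
def Ph (k : ℕ) (x : En 3) : ℝ := ‖x‖ ^ 2 - 1 + ∑ j ∈ Finset.range k, S.g j x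

/-- their limit -/
def PhL (x : En 3) : ℝ := ‖x‖ ^ 2 - 1 + ∑' j, S.g j x

/-- the subsolution -/
def sub (x : En 3) : ℝ := max (S.PhL x - 1 / 8) (2 * (‖x‖ ^ 2 - 1))

/-- the measure -/
def mu : Measure (En 3) :=
  Measure.sum fun j => (volume.restrict (S.T j)).withDensity
    (fun x => ENNReal.ofReal (maC 3 * S.FF j x))

theorem phi_ns : ContDiff ℝ ∞ (fun x : En 3 => ‖x‖ ^ 2) := contDiff_norm_sq ℂ

theorem ph_smooth (j : ℕ) : ContDiff ℝ ∞ (S.ph j) := by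
  unfold ph
  exact (contDiff_const.mul phi_ns).add (S.ok j).gs

theorem phi_at {f : En 3 → ℝ} (hf : ContDiff ℝ ∞ f) (x : En 3) : ContDiffAt ℝ 2 f x :=
  (contDiff_infty.mp hf 2).contDiffAt

theorem phi_levi_ph (j : ℕ) (x v : En 3) :
    levi (S.ph j) x v = 7 / 8 * ‖v‖ ^ 2 + levi (S.g j) x v := by
  unfold ph
  rw [levi_add (phi_at (contDiff_const.mul phi_ns) x) (phi_at (S.ok j).gs x),
    levi_const_mul (phi_at phi_ns x), levi_norm_sq]

theorem phi_g_out {j : ℕ} {x : En 3} (hx : x ∈ ball (0 : En 3) 1) (hT : x ∉ S.T j) (v : En 3) :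
    -((1 / 2 : ℝ) ^ j / 64 * ‖v‖ ^ 2) ≤ levi (S.g j) x v := (S.ok j).out x hx hT v

theorem phi_g_inn {j : ℕ} {x : En 3} (hT : x ∈ S.T j) (v : En 3) :
    0 ≤ levi (S.g j) x v + 3 / 4 * ‖v‖ ^ 2 := (S.ok j).inn x hT v

theorem ph_psh (j : ℕ) {x : En 3} (hx : x ∈ ball (0 : En 3) 1) (v : En 3) :
    1 / 8 * ‖v‖ ^ 2 ≤ levi (S.ph j) x v := by
  rw [phi_levi_ph]
  have hv : 0 ≤ ‖v‖ ^ 2 := by positivity
  by_cases hT : x ∈ S.T j
  · have := S.phi_g_inn hT v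
    linarith
  · have h1 := S.phi_g_out hx hT v
    have h2 : (1 / 2 : ℝ) ^ j ≤ 1 := pow_le_one₀ (by norm_num) (by norm_num)
    have h3 : (1 / 2 : ℝ) ^ j / 64 * ‖v‖ ^ 2 ≤ 1 / 64 * ‖v‖ ^ 2 := by
      apply mul_le_mul_of_nonneg_right _ hv
      linarith
    linarith

theorem FF_pos (j : ℕ) {x : En 3} (hx : x ∈ ball (0 : En 3) 1) : (1 / 8) ^ 3 ≤ S.FF j x := by
  have hP : ContDiffAt ℝ 2 (fun y : En 3 => (0 : ℝ) * ‖y‖ ^ 2) x :=
    phi_at (contDiff_const.mul phi_ns) x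
  have hl : ∀ w, levi (fun y : En 3 => (0 : ℝ) * ‖y‖ ^ 2) x w = 0 := by
    intro w
    rw [levi_const_mul (phi_at phi_ns x), zero_mul]
  have h1 := ma_mono_add (P := fun y : En 3 => (0 : ℝ) * ‖y‖ ^ 2) (Q := S.ph j) hP
    (phi_at (S.ph_smooth j) x) (fun w => (hl w).ge) (δ := 1 / 8) (by norm_num)
    (fun w => by rw [hl w, zero_add]; exact S.ph_psh j hx w)
  have h2 := ma_nonneg hP (fun w => (hl w).ge)
  unfold FF
  linarith

theorem Ph_smooth (k : ℕ) : ContDiff ℝ ∞ (S.Ph k) := by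
  unfold Ph
  exact (phi_ns.sub contDiff_const).add (ContDiff.sum fun j _ => (S.ok j).gs)

theorem phi_levi_Ph (k : ℕ) (x v : En 3) :
    levi (S.Ph k) x v = ‖v‖ ^ 2 + ∑ j ∈ Finset.range k, levi (S.g j) x v := by
  induction k with
  | zero =>
    have e : S.Ph 0 = fun y => ‖y‖ ^ 2 + (-1) := by
      funext y
      simp [Ph, sub_eq_add_neg]
    rw [e, levi_add_const, levi_norm_sq]
    simp
  | succ k ih =>
    have e : S.Ph (k + 1) = fun y => S.Ph k y + S.g k y := by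
      funext y
      simp only [Ph, Finset.sum_range_succ]
      ring
    rw [e, levi_add (phi_at (S.Ph_smooth k) x) (phi_at (S.ok k).gs x), ih, Finset.sum_range_succ]
    ring

theorem phi_sum_le (s : Finset ℕ) : ∑ j ∈ s, (1 / 2 : ℝ) ^ j / 64 ≤ 1 / 32 := by
  have h1 : Summable (fun j : ℕ => (1 / 2 : ℝ) ^ j / 64) :=
    (summable_geometric_of_lt_one (by norm_num) (by norm_num)).div_const _
  have h2 : ∑' j : ℕ, (1 / 2 : ℝ) ^ j / 64 = 1 / 32 := by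
    rw [tsum_div_const, tsum_geometric_of_lt_one (by norm_num) (by norm_num)]
    norm_num
  rw [← h2]
  exact h1.sum_le_tsum s (fun j _ => by positivity)

theorem phi_sum_out {x : En 3} (hx : x ∈ ball (0 : En 3) 1) (v : En 3) (s : Finset ℕ)
    (hs : ∀ j ∈ s, x ∉ S.T j) : -(1 / 32 * ‖v‖ ^ 2) ≤ ∑ j ∈ s, levi (S.g j) x v := by
  have hv : 0 ≤ ‖v‖ ^ 2 := by positivity
  calc -(1 / 32 * ‖v‖ ^ 2) ≤ -((∑ j ∈ s, (1 / 2 : ℝ) ^ j / 64) * ‖v‖ ^ 2) := by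
        have := mul_le_mul_of_nonneg_right (phi_sum_le s) hv
        linarith
    _ = ∑ j ∈ s, -((1 / 2 : ℝ) ^ j / 64 * ‖v‖ ^ 2) := by
        rw [Finset.sum_mul, Finset.sum_neg_distrib]
    _ ≤ ∑ j ∈ s, levi (S.g j) x v := Finset.sum_le_sum fun j hj => S.phi_g_out hx (hs j hj) v

theorem phi_ge {j k : ℕ} (hjk : j < k) {x : En 3} (hx : x ∈ ball (0 : En 3) 1) (hT : x ∈ S.T j)
    (v : En 3) : levi (S.ph j) x v ≤ levi (S.Ph k) x v := by
  have hv : 0 ≤ ‖v‖ ^ 2 := by positivity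
  rw [phi_levi_ph, phi_levi_Ph, ← Finset.add_sum_erase _ _ (Finset.mem_range.mpr hjk)]
  have h1 := S.phi_sum_out hx v ((Finset.range k).erase j) (by
    intro i hi hTi
    have hij : i ≠ j := Finset.ne_of_mem_erase hi
    exact Set.disjoint_left.mp (S.T_disjoint hij) hTi hT)
  linarith

theorem Ph_psh (k : ℕ) {x : En 3} (hx : x ∈ ball (0 : En 3) 1) (v : En 3) :
    0 ≤ levi (S.Ph k) x v := by
  have hv : 0 ≤ ‖v‖ ^ 2 := by positivity
  by_cases h : ∃ j < k, x ∈ S.T j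
  · obtain ⟨j, hj, hT⟩ := h
    have h1 := S.phi_ge hj hx hT v
    have h2 := S.ph_psh j hx v
    linarith
  · push Not at h
    rw [phi_levi_Ph]
    have h1 := S.phi_sum_out hx v (Finset.range k) (fun j hj => h j (Finset.mem_range.mp hj))
    linarith

theorem FF_le {j k : ℕ} (hjk : j < k) {x : En 3} (hx : x ∈ S.T j) : S.FF j x ≤ ma (S.Ph k) x := by
  have hx' : x ∈ ball (0 : En 3) 1 := by
    have h1 := S.T_closure j (subset_closure hx)
    rw [mem_closedBall] at h1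
    rw [mem_ball]
    linarith
  have h1 := ma_mono_add (phi_at (S.ph_smooth j) x) (phi_at (S.Ph_smooth k) x)
    (fun w => by
      have h2 := S.ph_psh j hx' w
      have : 0 ≤ ‖w‖ ^ 2 := by positivity
      linarith) (δ := 0) le_rfl
    (fun w => by
      have := S.phi_ge hjk hx' hx w
      linarith)
  unfold FF
  linarith

end Sys

end Pool.Agent.H50.CS
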