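import Pool.Agent.H50.CS.Taylor

/-!
# CS-TAYLOR: circular means and the Levi form; sub-mean value property of smooth functions

* `smoothPsh_contPsh`: if `v` is smooth with nonnegative Levi form on the open set `Ω` then it satisfies
  the sub-mean value inequality on every closed disc in `Ω`. Proof: with `c(s,θ) = a + s e^{iθ} b`,
  `f₁ = ∂_s v(c) = Dv(c)(e^{iθ}b)`, `f₂ = ∂_s (s f₁) = s D²v(c)(e^{iθ}b,e^{iθ}b) + f₁`,
  `ψ = Dv(c)(i e^{iθ} b)`, `∂_θ ψ = s D²v(c)(ie^{iθ}b,ie^{iθ}b) - f₁`, hence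
  `f₂ = 4 s levi v c (e^{iθ}b) - ∂_θ ψ` and `∫ f₂ dθ ≥ 0`; by Fubini `s ∫ f₁ dθ = ∫₀ˢ ∫ f₂ ≥ 0` and
  `∫ (v(c(1,θ)) - v a) dθ = ∫₀¹ ∫ f₁ ≥ 0`.
-/

set_option autoImplicit false

noncomputable section

namespace Pool.Agent.H50.CS

open Complex Metric MeasureTheory Set Filter Topology
open scoped ContDiff ComplexConjugate
open Pool.Agent.H8.FZ

variable {n : ℕ}

/-- The point `a + s e^{iθ} b`. -/
def smPt (a b : En n) (s θ : ℝ) : En n := a + ((s : ℂ) * Complex.exp (θ * I)) • b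

lemma smPt_cont (a b : En n) : Continuous (fun p : ℝ × ℝ => smPt a b p.1 p.2) := by
  unfold smPt
  fun_prop

lemma smPt_mem {Ω : Set (En n)} {a b : En n} (h : ∀ ζ : ℂ, ‖ζ‖ ≤ 1 → a + ζ • b ∈ Ω) {s θ : ℝ}
    (h0 : 0 ≤ s) (h1 : s ≤ 1) : smPt a b s θ ∈ Ω := by
  apply h
  rw [norm_mul, Complex.norm_exp_ofReal_mul_I, mul_one, Complex.norm_real, Real.norm_eq_abs,
    abs_of_nonneg h0]
  exact h1

lemma smPt_deriv_s (a b : En n) (s θ : ℝ) :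
    HasDerivAt (fun s : ℝ => smPt a b s θ) (Complex.exp (θ * I) • b) s := by
  have h1 : HasDerivAt (fun s : ℝ => (s : ℂ)) 1 s := Complex.ofRealCLM.hasDerivAt
  have h2 := ((h1.mul_const (Complex.exp (θ * I))).smul_const b).const_add a
  rw [one_mul] at h2
  exact h2

lemma smExp_deriv (θ : ℝ) :
    HasDerivAt (fun θ : ℝ => Complex.exp (θ * I)) (Complex.exp (θ * I) * I) θ := by
  have h1 : HasDerivAt (fun s : ℝ => (s : ℂ)) 1 θ := Complex.ofRealCLM.hasDerivAt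
  have h2 := (h1.mul_const I).cexp
  rw [one_mul] at h2
  exact h2

lemma smPt_deriv_t (a b : En n) (s θ : ℝ) :
    HasDerivAt (fun θ : ℝ => smPt a b s θ) (((s : ℂ) * (Complex.exp (θ * I) * I)) • b) θ :=
  (((smExp_deriv θ).const_mul (s : ℂ)).smul_const b).const_add a

/-- `Dv(c)(e^{iθ}b)`. -/
def smF (v : En n → ℝ) (a b : En n) (s θ : ℝ) : ℝ :=
  fderiv ℝ v (smPt a b s θ) (Complex.exp (θ * I) • b)

/-- `s D²v(c)(e^{iθ}b,e^{iθ}b) + f₁`. -/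
def smG (v : En n → ℝ) (a b : En n) (s θ : ℝ) : ℝ :=
  s * fderiv ℝ (fderiv ℝ v) (smPt a b s θ) (Complex.exp (θ * I) • b) (Complex.exp (θ * I) • b) +
    smF v a b s θ

/-- `Dv(c)(i e^{iθ}b)`. -/
def smPsi (v : En n → ℝ) (a b : En n) (s θ : ℝ) : ℝ :=
  fderiv ℝ v (smPt a b s θ) ((I * Complex.exp (θ * I)) • b)

/-- The derivative of `smPsi` in `θ`. -/
def smPsi' (v : En n → ℝ) (a b : En n) (s θ : ℝ) : ℝ :=
  s * fderiv ℝ (fderiv ℝ v) (smPt a b s θ) (I • (Complex.exp (θ * I) • b))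
    (I • (Complex.exp (θ * I) • b)) - smF v a b s θ

lemma sm_val_deriv {v : En n → ℝ} {a b : En n} {s θ : ℝ} (hv : ContDiffAt ℝ 2 v (smPt a b s θ)) :
    HasDerivAt (fun s => v (smPt a b s θ)) (smF v a b s θ) s :=
  (hv.differentiableAt (by norm_num)).hasFDerivAt.comp_hasDerivAt s (smPt_deriv_s a b s θ)

lemma sm_fderiv_diff {v : En n → ℝ} {x : En n} (hv : ContDiffAt ℝ 2 v x) :
    HasFDerivAt (fderiv ℝ v) (fderiv ℝ (fderiv ℝ v) x) x :=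
  ((hv.fderiv_right (m := 1) (by norm_num)).differentiableAt (by norm_num)).hasFDerivAt

lemma sm_G_deriv {v : En n → ℝ} {a b : En n} {s θ : ℝ} (hv : ContDiffAt ℝ 2 v (smPt a b s θ)) :
    HasDerivAt (fun s => s * smF v a b s θ) (smG v a b s θ) s := by
  have h1 := (sm_fderiv_diff hv).comp_hasDerivAt s (smPt_deriv_s a b s θ)
  have h2 := h1.clm_apply (hasDerivAt_const s (Complex.exp (θ * I) • b))
  have h3 := (hasDerivAt_id s).mul h2
  refine h3.congr_deriv ?_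
  simp [smG, smF]
  ring

lemma sm_Psi_deriv {v : En n → ℝ} {a b : En n} {s θ : ℝ} (hv : ContDiffAt ℝ 2 v (smPt a b s θ)) :
    HasDerivAt (fun θ => smPsi v a b s θ) (smPsi' v a b s θ) θ := by
  have h1 := (sm_fderiv_diff hv).comp_hasDerivAt θ (smPt_deriv_t a b s θ)
  have h2 := h1.clm_apply (((smExp_deriv θ).const_mul I).smul_const b)
  refine h2.congr_deriv ?_
  have e1 : ((s : ℂ) * (Complex.exp (θ * I) * I)) • b = s • (I • (Complex.exp (θ * I) • b)) := by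
    rw [smul_smul, ← Complex.coe_smul, smul_smul]
    congr 1
    ring
  have e2 : (I * Complex.exp (θ * I)) • b = I • (Complex.exp (θ * I) • b) := by
    rw [smul_smul]
  have e3 : (I * (Complex.exp (θ * I) * I)) • b = -(Complex.exp (θ * I) • b) := by
    rw [← neg_smul]
    congr 1
    have := Complex.I_mul_I
    linear_combination (Complex.exp (θ * I)) * this
  simp only [Function.comp_apply]
  rw [e1, e2, e3]
  simp [smPsi', smF]
  ring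

lemma sm_key (v : En n → ℝ) (a b : En n) (s θ : ℝ) :
    smG v a b s θ = 4 * s * levi v (smPt a b s θ) (Complex.exp (θ * I) • b) - smPsi' v a b s θ := by
  unfold smG smPsi' levi
  ring

section main

variable {Ω : Set (En n)} {v : En n → ℝ} {a b : En n}

lemma sm_contDiffAt (hΩ : IsOpen Ω) (hv : ContDiffOn ℝ ∞ v Ω) {x : En n} (hx : x ∈ Ω) :
    ContDiffAt ℝ 2 v x :=
  (hv.contDiffAt (hΩ.mem_nhds hx)).of_le (WithTop.coe_le_coe.2 (le_top : (2 : ℕ∞) ≤ ⊤))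

lemma sm_cont_fderiv (hΩ : IsOpen Ω) (hv : ContDiffOn ℝ ∞ v Ω) : ContinuousOn (fderiv ℝ v) Ω :=
  hv.continuousOn_fderiv_of_isOpen hΩ (by norm_num)

lemma sm_cont_fderiv2 (hΩ : IsOpen Ω) (hv : ContDiffOn ℝ ∞ v Ω) :
    ContinuousOn (fderiv ℝ (fderiv ℝ v)) Ω :=
  (hv.fderiv_of_isOpen (m := ∞) hΩ (by norm_num)).continuousOn_fderiv_of_isOpen hΩ (by norm_num)

lemma sm_cont_smF (hΩ : IsOpen Ω) (hv : ContDiffOn ℝ ∞ v Ω)
    (h : ∀ ζ : ℂ, ‖ζ‖ ≤ 1 → a + ζ • b ∈ Ω) :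
    ContinuousOn (fun p : ℝ × ℝ => smF v a b p.1 p.2) (Icc 0 1 ×ˢ univ) := by
  have h1 : ContinuousOn (fun p : ℝ × ℝ => fderiv ℝ v (smPt a b p.1 p.2)) (Icc 0 1 ×ˢ univ) :=
    (sm_cont_fderiv hΩ hv).comp (smPt_cont a b).continuousOn
      (fun _ hp => smPt_mem h hp.1.1 hp.1.2)
  exact h1.clm_apply (by fun_prop)

lemma sm_cont_D2 (hΩ : IsOpen Ω) (hv : ContDiffOn ℝ ∞ v Ω)
    (h : ∀ ζ : ℂ, ‖ζ‖ ≤ 1 → a + ζ • b ∈ Ω) :
    ContinuousOn (fun p : ℝ × ℝ => fderiv ℝ (fderiv ℝ v) (smPt a b p.1 p.2)) (Icc 0 1 ×ˢ univ) :=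
  (sm_cont_fderiv2 hΩ hv).comp (smPt_cont a b).continuousOn
      (fun _ hp => smPt_mem h hp.1.1 hp.1.2)

lemma sm_cont_smG (hΩ : IsOpen Ω) (hv : ContDiffOn ℝ ∞ v Ω)
    (h : ∀ ζ : ℂ, ‖ζ‖ ≤ 1 → a + ζ • b ∈ Ω) :
    ContinuousOn (fun p : ℝ × ℝ => smG v a b p.1 p.2) (Icc 0 1 ×ˢ univ) := by
  have h1 := sm_cont_D2 hΩ hv h
  have h2 : ContinuousOn (fun p : ℝ × ℝ => Complex.exp (p.2 * I) • b) (Icc 0 1 ×ˢ univ) := by
    fun_prop
  exact (continuousOn_fst.mul ((h1.clm_apply h2).clm_apply h2)).add (sm_cont_smF hΩ hv h)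

lemma sm_cont_smPsi' (hΩ : IsOpen Ω) (hv : ContDiffOn ℝ ∞ v Ω)
    (h : ∀ ζ : ℂ, ‖ζ‖ ≤ 1 → a + ζ • b ∈ Ω) :
    ContinuousOn (fun p : ℝ × ℝ => smPsi' v a b p.1 p.2) (Icc 0 1 ×ˢ univ) := by
  have h1 := sm_cont_D2 hΩ hv h
  have h2 : ContinuousOn (fun p : ℝ × ℝ => I • (Complex.exp (p.2 * I) • b)) (Icc 0 1 ×ˢ univ) := by
    fun_prop
  exact (continuousOn_fst.mul ((h1.clm_apply h2).clm_apply h2)).sub (sm_cont_smF hΩ hv h)

lemma sm_slice_t {f : ℝ → ℝ → ℝ} (hf : ContinuousOn (fun p : ℝ × ℝ => f p.1 p.2) (Icc 0 1 ×ˢ univ))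
    {s : ℝ} (hs : s ∈ Icc (0 : ℝ) 1) : Continuous (fun θ => f s θ) := by
  rw [← continuousOn_univ]
  exact hf.comp (f := fun θ : ℝ => (s, θ)) (by fun_prop) (fun θ _ => ⟨hs, mem_univ _⟩)

lemma sm_slice_s {f : ℝ → ℝ → ℝ} (hf : ContinuousOn (fun p : ℝ × ℝ => f p.1 p.2) (Icc 0 1 ×ˢ univ))
    (θ : ℝ) : ContinuousOn (fun s => f s θ) (Icc 0 1) :=
  hf.comp (f := fun s : ℝ => (s, θ)) (by fun_prop) (fun s hs => ⟨hs, mem_univ _⟩)

lemma sm_swap {f : ℝ → ℝ → ℝ} (hf : ContinuousOn (fun p : ℝ × ℝ => f p.1 p.2) (Icc 0 1 ×ˢ univ))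
    {s : ℝ} (hs : s ∈ Icc (0 : ℝ) 1) :
    ∫ θ in (0 : ℝ)..(2 * Real.pi), ∫ σ in (0 : ℝ)..s, f σ θ =
      ∫ σ in (0 : ℝ)..s, ∫ θ in (0 : ℝ)..(2 * Real.pi), f σ θ := by
  symm
  apply MeasureTheory.intervalIntegral_intervalIntegral_swap
  have h1 : ContinuousOn (fun p : ℝ × ℝ => f p.1 p.2) (Icc 0 s ×ˢ Icc 0 (2 * Real.pi)) :=
    hf.mono (prod_mono (Icc_subset_Icc_right hs.2) (subset_univ _))
  have h2 : IntegrableOn (fun p : ℝ × ℝ => f p.1 p.2) (Icc 0 s ×ˢ Icc 0 (2 * Real.pi)) :=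
    h1.integrableOn_compact (isCompact_Icc.prod isCompact_Icc)
  refine h2.mono_set (prod_mono ?_ ?_)
  · rw [uIoc_of_le hs.1]
    exact Ioc_subset_Icc_self
  · rw [uIoc_of_le Real.two_pi_pos.le]
    exact Ioc_subset_Icc_self

lemma sm_int_G_nonneg (hΩ : IsOpen Ω) (hv : SmoothPsh Ω v)
    (h : ∀ ζ : ℂ, ‖ζ‖ ≤ 1 → a + ζ • b ∈ Ω) {s : ℝ} (hs : s ∈ Icc (0 : ℝ) 1) :
    0 ≤ ∫ θ in (0 : ℝ)..(2 * Real.pi), smG v a b s θ := by
  have hG := sm_slice_t (sm_cont_smG hΩ hv.1 h) hs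
  have hP := sm_slice_t (sm_cont_smPsi' hΩ hv.1 h) hs
  have h1 : ∫ θ in (0 : ℝ)..(2 * Real.pi), smPsi' v a b s θ = 0 := by
    rw [intervalIntegral.integral_eq_sub_of_hasDerivAt
      (fun θ _ => sm_Psi_deriv (sm_contDiffAt hΩ hv.1 (smPt_mem h hs.1 hs.2)))
      (hP.intervalIntegrable _ _)]
    have e : Complex.exp ((2 * Real.pi : ℝ) * I) = 1 := by
      push_cast
      exact Complex.exp_two_pi_mul_I
    simp only [smPsi, smPt]
    rw [e]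
    simp
  have h2 : ∫ θ in (0 : ℝ)..(2 * Real.pi), smG v a b s θ =
      ∫ θ in (0 : ℝ)..(2 * Real.pi), (smG v a b s θ + smPsi' v a b s θ) := by
    rw [intervalIntegral.integral_add (hG.intervalIntegrable _ _) (hP.intervalIntegrable _ _), h1,
      add_zero]
  rw [h2]
  apply intervalIntegral.integral_nonneg Real.two_pi_pos.le
  intro θ _
  rw [sm_key]
  have := hv.2 (smPt a b s θ) (smPt_mem h hs.1 hs.2) (Complex.exp (θ * I) • b)
  have h3 := mul_nonneg (mul_nonneg (by norm_num : (0 : ℝ) ≤ 4) hs.1) this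
  linarith

lemma sm_int_F_nonneg (hΩ : IsOpen Ω) (hv : SmoothPsh Ω v)
    (h : ∀ ζ : ℂ, ‖ζ‖ ≤ 1 → a + ζ • b ∈ Ω) {s : ℝ} (hs : s ∈ Icc (0 : ℝ) 1) (hs0 : 0 < s) :
    0 ≤ ∫ θ in (0 : ℝ)..(2 * Real.pi), smF v a b s θ := by
  have h1 : ∀ θ : ℝ, ∫ σ in (0 : ℝ)..s, smG v a b σ θ = s * smF v a b s θ := by
    intro θ
    rw [intervalIntegral.integral_eq_sub_of_hasDerivAt (f := fun s => s * smF v a b s θ)]
    · simp
    · intro σ hσ
      rw [uIcc_of_le hs.1] at hσ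
      exact sm_G_deriv (sm_contDiffAt hΩ hv.1 (smPt_mem h hσ.1 (hσ.2.trans hs.2)))
    · apply ContinuousOn.intervalIntegrable
      rw [uIcc_of_le hs.1]
      exact (sm_slice_s (sm_cont_smG hΩ hv.1 h) θ).mono (Icc_subset_Icc_right hs.2)
  have h2 : s * ∫ θ in (0 : ℝ)..(2 * Real.pi), smF v a b s θ =
      ∫ σ in (0 : ℝ)..s, ∫ θ in (0 : ℝ)..(2 * Real.pi), smG v a b σ θ := by
    rw [← sm_swap (sm_cont_smG hΩ hv.1 h) hs, ← intervalIntegral.integral_const_mul]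
    simp only [h1]
  have h3 : 0 ≤ s * ∫ θ in (0 : ℝ)..(2 * Real.pi), smF v a b s θ := by
    rw [h2]
    apply intervalIntegral.integral_nonneg hs.1
    intro σ hσ
    exact sm_int_G_nonneg hΩ hv h ⟨hσ.1, hσ.2.trans hs.2⟩
  exact nonneg_of_mul_nonneg_right h3 hs0

end main

theorem smoothPsh_contPsh {Ω : Set (En n)} (hΩ : IsOpen Ω) {v : En n → ℝ} (hv : SmoothPsh Ω v) :
    ContPsh Ω v := by
  refine ⟨hv.1.continuousOn, fun a b h => ?_⟩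
  have h1 : ∀ θ : ℝ, ∫ s in (0 : ℝ)..1, smF v a b s θ =
      v (a + Complex.exp (θ * I) • b) - v a := by
    intro θ
    rw [intervalIntegral.integral_eq_sub_of_hasDerivAt (f := fun s => v (smPt a b s θ))]
    · simp [smPt]
    · intro σ hσ
      rw [uIcc_of_le zero_le_one] at hσ
      exact sm_val_deriv (sm_contDiffAt hΩ hv.1 (smPt_mem h hσ.1 hσ.2))
    · apply ContinuousOn.intervalIntegrable
      rw [uIcc_of_le zero_le_one]
      exact sm_slice_s (sm_cont_smF hΩ hv.1 h) θ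
  have h2 : ∫ θ in (0 : ℝ)..(2 * Real.pi), (v (a + Complex.exp (θ * I) • b) - v a) =
      ∫ s in (0 : ℝ)..1, ∫ θ in (0 : ℝ)..(2 * Real.pi), smF v a b s θ := by
    rw [← sm_swap (sm_cont_smF hΩ hv.1 h) ⟨zero_le_one, le_rfl⟩]
    simp only [h1]
  have h3 : 0 ≤ ∫ θ in (0 : ℝ)..(2 * Real.pi), (v (a + Complex.exp (θ * I) • b) - v a) := by
    rw [h2, intervalIntegral.integral_of_le zero_le_one]
    apply setIntegral_nonneg measurableSet_Ioc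
    intro s hs
    exact sm_int_F_nonneg hΩ hv h ⟨hs.1.le, hs.2⟩ hs.1
  have hc : Continuous (fun θ : ℝ => v (a + Complex.exp (θ * I) • b)) := by
    rw [← continuousOn_univ]
    refine hv.1.continuousOn.comp (f := fun θ : ℝ => a + Complex.exp (θ * I) • b) (by fun_prop)
      (fun θ _ => ?_)
    exact h _ (by rw [Complex.norm_exp_ofReal_mul_I])
  rw [intervalIntegral.integral_sub (hc.intervalIntegrable _ _) intervalIntegrable_const] at h3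
  simp only [intervalIntegral.integral_const, sub_zero, smul_eq_mul] at h3
  have hpi : 0 < 2 * Real.pi := Real.two_pi_pos
  rw [← div_eq_inv_mul, le_div_iff₀ hpi]
  linarith

end Pool.Agent.H50.CS
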