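import Pool.Agent.H50.CS.Phi
import Pool.Agent.H50.CS.PshOps
import Pool.Agent.H50.CS.SubMean

/-!
# CS-PHI: the measure `μ` and its continuous subsolution

`S : Sys`, `B = ball 0 1`. `ph j x = (7/8)‖x‖² + g_j x`, `FF j = ma (ph j)`,
`Ph k x = ‖x‖² - 1 + ∑_{j<k} g_j x` (smooth), `PhL x = ‖x‖² - 1 + ∑' j, g_j x`.

* `ph_psh`: `levi (ph j) x v ≥ (1/8)‖v‖²` on `B` (off the tube: `≥ (7/8 - 1/64)‖v‖²`; in the tube
  `levi g_j + ¾‖v‖² ≥ 0`) so `FF j ≥ (1/8)³` on `B` (`ma_mono_add` with `P = 0`).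
* `Ph_psh`: on `B`: `levi (Ph k) x v ≥ 0`, and on `S.T j`, `j < k`: `levi (Ph k) x v ≥ levi (ph j) x v`: at most one index
  `j` with `x ∈ S.T j` (`T_disjoint`), all others contribute `≥ -ε_i‖v‖²`, `∑ε_i ≤ 1/32 ≤ 1/8`. Hence
  `FF j ≤ ma (Ph k)` on `S.T j` (`ma_mono_add`, `δ = 0`).
* `Ph_unif`: `Ph k → PhL` uniformly on `B` (Weierstrass M-test, `|g_j| ≤ (1/2)^j/64`), `|PhL x - (‖x‖²-1)| ≤ 1/32`.
* `sub x = max (PhL x - 1/8) (2(‖x‖²-1))` is continuous psh on `B` (`smoothPsh_contPsh`, `ContPsh.of_tendsto`,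
  `ContPsh.max`; `2(‖x‖²-1)` is smooth psh), has zero boundary values (near the boundary
  `PhL - 1/8 ≤ (‖x‖²-1) - 3/32 < 2(‖x‖²-1)`), and equals `PhL - 1/8` on `ball 0 (15/16)`
  (there `1 - ‖x‖² ≥ 1 - (15/16)² > 5/32 - …`: need `PhL - 1/8 ≥ (‖x‖²-1) - 5/32 ≥ 2(‖x‖²-1)` iff `1-‖x‖² ≥ 5/32`; OK on
  `ball 0 (9/10)`).
* `mu = ∑_j (c FF_j dV)|_{T_j}`; `exists_isMA` gives `ν` for `sub`; `IsMA.ge` (on `V = ball 0 (9/10)`, `v_k = Ph k - 1/8`, `W = T_j`)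
  gives `(c FF_j dV)|_{T_j} ≤ ν`, and the tubes are disjoint measurable, so `mu ≤ ν` (for Borel `E`:
  `mu E = ∑_j (…)(E ∩ T_j) ≤ ∑_j ν(E ∩ T_j) ≤ ν E`).
* `mu_fin`: `mu univ ≤ ν (closedBall 0 (7/8)) < ∞`; `mu_pos`: `FF 0 > 0` on the nonempty open `T_0`.
* `mu_on`: `∫χ dmu = ∫χ c FF_j` for `χ` continuous with compact support in `T_j`.
(This file: Ph_unif, PhL_near, sub_psh, sub_bdry, sub_eq.)
-/

set_option autoImplicit false

noncomputable section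

namespace Pool.Agent.H50.CS

open Complex Metric MeasureTheory Set Filter Topology
open scoped ContDiff ComplexConjugate
open Pool.Agent.H8.FZ

namespace Sys

variable (S : Sys)

theorem g_bd (j : ℕ) {x : En 3} (hx : x ∈ ball (0 : En 3) 1) :
    ‖S.g j x‖ ≤ (1 / 2) ^ j / 64 := (S.ok j).gb x hx

theorem sum_half : HasSum (fun j : ℕ => (1 / 2 : ℝ) ^ j / 64) (1 / 32) := by
  have h := hasSum_geometric_two.div_const 64
  norm_num at h ⊢
  exact h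

theorem Ph_unif : TendstoUniformlyOn S.Ph S.PhL atTop (ball (0 : En 3) 1) := by
  have h1 := tendstoUniformlyOn_tsum_nat (f := S.g) sum_half.summable
    (s := ball (0 : En 3) 1) (fun j x hx => S.g_bd j hx)
  rw [Metric.tendstoUniformlyOn_iff] at h1 ⊢
  intro ε hε
  filter_upwards [h1 ε hε] with k hk x hx
  have h2 := hk x hx
  have h3 : S.PhL x - S.Ph k x = (∑' j, S.g j x) - ∑ j ∈ Finset.range k, S.g j x := by
    simp only [PhL, Ph]
    ring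
  rw [Real.dist_eq] at h2 ⊢
  rw [h3]
  exact h2

theorem PhL_near {x : En 3} (hx : x ∈ ball (0 : En 3) 1) :
    |S.PhL x - (‖x‖ ^ 2 - 1)| ≤ 1 / 32 := by
  have h1 : S.PhL x - (‖x‖ ^ 2 - 1) = ∑' j, S.g j x := by
    simp only [PhL]
    ring
  rw [h1, ← Real.norm_eq_abs]
  exact tsum_of_norm_bounded sum_half (fun j => S.g_bd j hx)

theorem Ph_contPsh (k : ℕ) : ContPsh (ball (0 : En 3) 1) (S.Ph k) :=
  smoothPsh_contPsh isOpen_ball ⟨(S.Ph_smooth k).contDiffOn, fun _ hx v => S.Ph_psh k hx v⟩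

theorem sub_psh : ContPsh (ball (0 : En 3) 1) S.sub := by
  have h1 : ContPsh (ball (0 : En 3) 1) S.PhL := ContPsh.of_tendsto S.Ph_contPsh S.Ph_unif
  have h2 : ContPsh (ball (0 : En 3) 1) (fun x => S.PhL x - 1 / 8) := by
    simpa [sub_eq_add_neg] using h1.add_const (-(1 / 8))
  have h3 : ContPsh (ball (0 : En 3) 1) (fun x => 2 * (‖x‖ ^ 2 - 1)) := by
    have h4 := (S.Ph_contPsh 0).const_mul (c := 2) (by norm_num)
    have h5 : S.Ph 0 = fun x => ‖x‖ ^ 2 - 1 := by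
      funext x
      simp [Ph]
    rw [h5] at h4
    exact h4
  exact h2.max h3

theorem sub_bdry : ∀ y ∈ frontier (ball (0 : En 3) 1),
    Tendsto S.sub (𝓝[ball (0 : En 3) 1] y) (𝓝 0) := by
  intro y hy
  rw [frontier_ball _ one_ne_zero, mem_sphere_zero_iff_norm] at hy
  have hc : Continuous fun x : En 3 => ‖x‖ ^ 2 - 1 := by fun_prop
  have h1 : Tendsto (fun x : En 3 => ‖x‖ ^ 2 - 1) (𝓝[ball (0 : En 3) 1] y) (𝓝 0) := by
    have := hc.tendsto y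
    rw [hy] at this
    norm_num at this
    exact this.mono_left nhdsWithin_le_nhds
  have h2 : ∀ᶠ x in 𝓝[ball (0 : En 3) 1] y, -(3 / 32) < ‖x‖ ^ 2 - 1 :=
    h1.eventually (lt_mem_nhds (by norm_num))
  have h3 : ∀ᶠ x in 𝓝[ball (0 : En 3) 1] y, 2 * (‖x‖ ^ 2 - 1) = S.sub x := by
    filter_upwards [h2, self_mem_nhdsWithin] with x hx hxb
    have h4 := (abs_le.mp (S.PhL_near hxb)).2
    rw [sub, max_eq_right]
    linarith
  have h5 : Tendsto (fun x : En 3 => 2 * (‖x‖ ^ 2 - 1)) (𝓝[ball (0 : En 3) 1] y) (𝓝 0) := by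
    simpa using h1.const_mul 2
  exact h5.congr' h3

theorem sub_eq {x : En 3} (hx : x ∈ ball (0 : En 3) (9 / 10)) : S.sub x = S.PhL x - 1 / 8 := by
  have hb : x ∈ ball (0 : En 3) 1 := ball_subset_ball (by norm_num) hx
  have h4 := (abs_le.mp (S.PhL_near hb)).1
  rw [mem_ball_zero_iff] at hx
  rw [sub, max_eq_left]
  nlinarith [norm_nonneg x]

end Sys

end Pool.Agent.H50.CS
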