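import Pool.Agent.H50.CS.Phi2
import Pool.Agent.H50.CS.Exist2
import Pool.Agent.H50.CS.MeasGe

/-!
# CS-PHI: the measure `μ` and its continuous subsolution

`S : Sys`, `B = ball 0 1`. `ph j x = (7/8)‖x‖² + g_j x`, `FF j = ma (ph j)`,
`Ph k x = ‖x‖² - 1 + ∑_{j<k} g_j x` (smooth), `PhL x = ‖x‖² - 1 + ∑' j, g_j x`.

* `ph_psh`: `levi (ph j) x v ≥ (1/8)‖v‖²` on `B` (off the tube: `≥ (7/8 - 1/64)‖v‖²`; in the tube
  `levi g_j + ¾‖v‖² ≥ 0`) so `FF j ≥ (1/8)³` on `B` (`ma_mono_add` with `P = 0`).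
* `Ph_psh`: on `B`: `levi (Ph k) x v ≥ 0`, and on `S.T j`, `j < k`: `levi (Ph k) x v ≥ levi (ph j) x v`: at most one index
  `j` with `x ∈ S.T j` (`T_disjoint`), all others contribute `≥ -ε_i‖v‖²`, `∑ε_i ≤ 1/32 ≤ 1/8`. Hence
  `FF j ≤ ma (Ph k)` on `S.T j` (`ma_mono_add`, `δ = 0`).
* `Ph_unif`: `Ph k → PhL` uniformly on `B` (Weierstrass M-test, `|g_j| ≤ (1/2)^j/64`), `|PhL x - (‖x‖²-1)| ≤ 1/32`.
* `sub x = max (PhL x - 1/8) (2(‖x‖²-1))` is continuous psh on `B` (`smoothPsh_contPsh`, `ContPsh.of_tendsto`,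
  `ContPsh.max`; `2(‖x‖²-1)` is smooth psh), has zero boundary values (near the boundary
  `PhL - 1/8 ≤ (‖x‖²-1) - 3/32 < 2(‖x‖²-1)`), and equals `PhL - 1/8` on `ball 0 (15/16)`
  (there `1 - ‖x‖² ≥ 1 - (15/16)² > 5/32 - …`: need `PhL - 1/8 ≥ (‖x‖²-1) - 5/32 ≥ 2(‖x‖²-1)` iff `1-‖x‖² ≥ 5/32`; OK on
  `ball 0 (9/10)`).
* `mu = ∑_j (c FF_j dV)|_{T_j}`; `exists_isMA` gives `ν` for `sub`; `IsMA.ge` (on `V = ball 0 (9/10)`, `v_k = Ph k - 1/8`, `W = T_j`)
  gives `(c FF_j dV)|_{T_j} ≤ ν`, and the tubes are disjoint measurable, so `mu ≤ ν` (for Borel `E`: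
  `mu E = ∑_j (…)(E ∩ T_j) ≤ ∑_j ν(E ∩ T_j) ≤ ν E`).
* `mu_fin`: `mu univ ≤ ν (closedBall 0 (7/8)) < ∞`; `mu_pos`: `FF 0 > 0` on the nonempty open `T_0`.
* `mu_on`: `∫χ dmu = ∫χ c FF_j` for `χ` continuous with compact support in `T_j`.
(This file: exists_sub, mu_fin, mu_pos, mu_off.)
-/

set_option autoImplicit false

noncomputable section

namespace Pool.Agent.H50.CS

open Complex Metric MeasureTheory Set Filter Topology
open scoped ContDiff ComplexConjugate
open Pool.Agent.H8.FZ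

namespace Sys

variable (S : Sys)

theorem phi3_T_sub (j : ℕ) : S.T j ⊆ closedBall (0 : En 3) (7 / 8) :=
  subset_closure.trans (S.T_closure j)

theorem phi3_T_ball (j : ℕ) : S.T j ⊆ ball (0 : En 3) 1 :=
  (S.phi3_T_sub j).trans (closedBall_subset_ball (by norm_num))

theorem phi3_T_ball' (j : ℕ) : S.T j ⊆ ball (0 : En 3) (9 / 10) :=
  (S.phi3_T_sub j).trans (closedBall_subset_ball (by norm_num))

/-- the `j`-th summand of `mu` -/
def muj (j : ℕ) : Measure (En 3) :=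
  (volume.restrict (S.T j)).withDensity (fun x => ENNReal.ofReal (maC 3 * S.FF j x))

theorem muj_apply_inter (j : ℕ) {E : Set (En 3)} (hE : MeasurableSet E) :
    S.muj j E = S.muj j (E ∩ S.T j) := by
  unfold muj
  rw [withDensity_apply _ hE, withDensity_apply _ (hE.inter (S.T_open j).measurableSet),
    Measure.restrict_restrict hE, Measure.restrict_restrict (hE.inter (S.T_open j).measurableSet),
    inter_assoc, inter_self]

theorem muj_zero (j : ℕ) {E : Set (En 3)} (hE : MeasurableSet E) (h : Disjoint E (S.T j)) :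
    S.muj j E = 0 := by
  rw [S.muj_apply_inter j hE, h.inter_eq, measure_empty]

theorem mu_eq : S.mu = Measure.sum S.muj := rfl

theorem muj_le {ν : Measure (En 3)} (hν : IsMA (ball (0 : En 3) 1) S.sub ν) (j : ℕ) :
    S.muj j ≤ ν := by
  refine IsMA.ge hν (V := ball (0 : En 3) (9 / 10)) isOpen_ball (ball_subset_ball (by norm_num))
    (v := fun k x => S.Ph k x + -(1 / 8)) (fun k => ⟨?_, fun x hx w => ?_⟩) ?_ (S.T_open j)
    (S.phi3_T_ball' j) ?_ (fun x hx => ?_) ?_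
  · exact ((S.Ph_smooth k).add contDiff_const).contDiffOn
  · rw [levi_add_const]
    exact S.Ph_psh k (ball_subset_ball (by norm_num) hx) w
  · have h1 := S.Ph_unif.mono (ball_subset_ball (by norm_num : (9 / 10 : ℝ) ≤ 1))
    rw [Metric.tendstoUniformlyOn_iff] at h1 ⊢
    intro ε hε
    filter_upwards [h1 ε hε] with k hk x hx
    have h2 := hk x hx
    rw [S.sub_eq hx]
    rw [Real.dist_eq] at h2 ⊢
    have h3 : S.PhL x - 1 / 8 - (S.Ph k x + -(1 / 8)) = S.PhL x - S.Ph k x := by ring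
    rw [h3]
    exact h2
  · exact continuousOn_ma (S.T_open j) (S.ph_smooth j).contDiffOn
  · exact le_trans (by norm_num) (S.FF_pos j (S.phi3_T_ball j hx))
  · filter_upwards [eventually_gt_atTop j] with k hk x hx
    rw [ma_add_const]
    exact S.FF_le hk hx

theorem mu_le {ν : Measure (En 3)} (hν : IsMA (ball (0 : En 3) 1) S.sub ν) : S.mu ≤ ν := by
  rw [Measure.le_iff]
  intro E hE
  rw [S.mu_eq, Measure.sum_apply _ hE]
  calc ∑' j, S.muj j E = ∑' j, S.muj j (E ∩ S.T j) :=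
        tsum_congr (fun j => S.muj_apply_inter j hE)
    _ ≤ ∑' j, ν (E ∩ S.T j) := ENNReal.tsum_le_tsum (fun j => S.muj_le hν j _)
    _ = ν (⋃ j, E ∩ S.T j) := by
        rw [measure_iUnion]
        · intro i j hij
          exact (S.T_disjoint hij).mono inter_subset_right inter_subset_right
        · exact fun j => hE.inter (S.T_open j).measurableSet
    _ ≤ ν E := measure_mono (iUnion_subset fun j => inter_subset_left)

/-- the subsolution: `mu ≤ (dd^c sub)³` -/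
theorem exists_sub : ∃ ν : Measure (En 3), ContSol (ball (0 : En 3) 1) S.sub ν ∧ S.mu ≤ ν := by
  obtain ⟨ν, hν⟩ := exists_isMA (isOpen_ball : IsOpen (ball (0 : En 3) 1)) S.sub_psh
  exact ⟨ν, ⟨S.sub_psh, S.sub_bdry, hν⟩, S.mu_le hν⟩

theorem mu_zero {E : Set (En 3)} (hE : MeasurableSet E) (h : ∀ j, Disjoint E (S.T j)) :
    S.mu E = 0 := by
  rw [S.mu_eq, Measure.sum_apply _ hE]
  simp only [S.muj_zero _ hE (h _), tsum_zero]

theorem mu_fin : S.mu univ < ⊤ := by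
  obtain ⟨ν, hν, hle⟩ := S.exists_sub
  have h1 : S.mu (closedBall (0 : En 3) (7 / 8))ᶜ = 0 :=
    S.mu_zero measurableSet_closedBall.compl
      (fun j => (disjoint_compl_left_iff_subset.2 (S.phi3_T_sub j)))
  have h2 : S.mu univ ≤ S.mu (closedBall (0 : En 3) (7 / 8)) +
      S.mu (closedBall (0 : En 3) (7 / 8))ᶜ := by
    rw [← union_compl_self (closedBall (0 : En 3) (7 / 8))]
    exact measure_union_le _ _
  rw [h1, add_zero] at h2
  refine lt_of_le_of_lt (h2.trans (hle _)) ?_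
  exact hν.isMA.fin _ (isCompact_closedBall _ _) (closedBall_subset_ball (by norm_num))

theorem mu_pos : 0 < S.mu univ := by
  have h1 : S.muj 0 univ ≤ S.mu univ := by
    rw [S.mu_eq]
    exact Measure.le_sum S.muj 0 univ
  refine lt_of_lt_of_le ?_ h1
  unfold muj
  rw [withDensity_apply _ MeasurableSet.univ, Measure.restrict_univ]
  have hC : (0 : ℝ) < maC 3 := by
    unfold maC
    positivity
  have h2 : ∫⁻ _ in S.T 0, ENNReal.ofReal (maC 3 * (1 / 8) ^ 3) ≤
      ∫⁻ x in S.T 0, ENNReal.ofReal (maC 3 * S.FF 0 x) := by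
    refine setLIntegral_mono' (S.T_open 0).measurableSet (fun x hx => ?_)
    exact ENNReal.ofReal_le_ofReal
      (mul_le_mul_of_nonneg_left (S.FF_pos 0 (S.phi3_T_ball 0 hx)) hC.le)
  refine lt_of_lt_of_le ?_ h2
  rw [setLIntegral_const]
  refine ENNReal.mul_pos ?_ ?_
  · have : 0 < maC 3 * (1 / 8) ^ 3 := by positivity
    exact (ENNReal.ofReal_pos.2 this).ne'
  · exact ((S.T_open 0).measure_pos volume ⟨_, (S.ctr_mem 0).1⟩).ne'

theorem mu_off : S.mu (ball (0 : En 3) 1)ᶜ = 0 :=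
  S.mu_zero measurableSet_ball.compl
    (fun j => (disjoint_compl_left_iff_subset.2 (S.phi3_T_ball j)))

end Sys

end Pool.Agent.H50.CS
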