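import Pool.Agent.H50.CS.Phi3

/-!
# CS-PHI: the measure `μ` and its continuous subsolution

`S : Sys`, `B = ball 0 1`. `ph j x = (7/8)‖x‖² + g_j x`, `FF j = ma (ph j)`,
`Ph k x = ‖x‖² - 1 + ∑_{j<k} g_j x` (smooth), `PhL x = ‖x‖² - 1 + ∑' j, g_j x`.

* `ph_psh`: `levi (ph j) x v ≥ (1/8)‖v‖²` on `B` (off the tube: `≥ (7/8 - 1/64)‖v‖²`; in the tube
  `levi g_j + ¾‖v‖² ≥ 0`) so `FF j ≥ (1/8)³` on `B` (`ma_mono_add` with `P = 0`).
* `Ph_psh`: on `B`: `levi (Ph k) x v ≥ 0`, and on `S.T j`, `j < k`: `levi (Ph k) x v ≥ levi (ph j) x v`: at most one index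
  `j` with `x ∈ S.T j` (`T_disjoint`), all others contribute `≥ -ε_i‖v‖²`, `∑ε_i ≤ 1/32 ≤ 1/8`. Hence
  `FF j ≤ ma (Ph k)` on `S.T j` (`ma_mono_add`, `δ = 0`).
* `Ph_unif`: `Ph k → PhL` uniformly on `B` (Weierstrass M-test, `|g_j| ≤ (1/2)^j/64`), `|PhL x - (‖x‖²-1)| ≤ 1/32`.
* `sub x = max (PhL x - 1/8) (2(‖x‖²-1))` is continuous psh on `B` (`smoothPsh_contPsh`, `ContPsh.of_tendsto`,
  `ContPsh.max`; `2(‖x‖²-1)` is smooth psh), has zero boundary values (near the boundary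
  `PhL - 1/8 ≤ (‖x‖²-1) - 3/32 < 2(‖x‖²-1)`), and equals `PhL - 1/8` on `ball 0 (15/16)`
  (there `1 - ‖x‖² ≥ 1 - (15/16)² > 5/32 - …`: need `PhL - 1/8 ≥ (‖x‖²-1) - 5/32 ≥ 2(‖x‖²-1)` iff `1-‖x‖² ≥ 5/32`; OK on
  `ball 0 (9/10)`).
* `mu = ∑_j (c FF_j dV)|_{T_j}`; `exists_isMA` gives `ν` for `sub`; `IsMA.ge` (on `V = ball 0 (9/10)`, `v_k = Ph k - 1/8`, `W = T_j`)
  gives `(c FF_j dV)|_{T_j} ≤ ν`, and the tubes are disjoint measurable, so `mu ≤ ν` (for Borel `E`:
  `mu E = ∑_j (…)(E ∩ T_j) ≤ ∑_j ν(E ∩ T_j) ≤ ν E`).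
* `mu_fin`: `mu univ ≤ ν (closedBall 0 (7/8)) < ∞`; `mu_pos`: `FF 0 > 0` on the nonempty open `T_0`.
* `mu_on`: `∫χ dmu = ∫χ c FF_j` for `χ` continuous with compact support in `T_j`.
(This file: mu_on, mu_int.)
-/

set_option autoImplicit false

noncomputable section

namespace Pool.Agent.H50.CS

open Complex Metric MeasureTheory Set Filter Topology
open scoped ContDiff ComplexConjugate
open Pool.Agent.H8.FZ

namespace Sys

variable (S : Sys)

theorem FF_meas (j : ℕ) : Measurable (S.FF j) :=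
  (continuousOn_univ.mp (continuousOn_ma isOpen_univ (S.ph_smooth j).contDiffOn)).measurable

theorem T_sub_ball {j : ℕ} {x : En 3} (hx : x ∈ S.T j) : x ∈ ball (0 : En 3) 1 :=
  closedBall_subset_ball (by norm_num) (S.T_closure j (subset_closure hx))

theorem FF_nonneg {j : ℕ} {x : En 3} (hx : x ∈ S.T j) : 0 ≤ maC 3 * S.FF j x := by
  have h1 := S.FF_pos j (S.T_sub_ball hx)
  have h2 : 0 ≤ S.FF j x := le_trans (by positivity) h1
  have h3 : 0 ≤ maC 3 := by unfold maC; positivity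
  exact mul_nonneg h3 h2

theorem int_piece (j : ℕ) (f : En 3 → ℝ) :
    ∫ x, f x ∂((volume.restrict (S.T j)).withDensity
      (fun x => ENNReal.ofReal (maC 3 * S.FF j x))) =
      ∫ x in S.T j, f x * (maC 3 * S.FF j x) := by
  rw [integral_withDensity_eq_integral_toReal_smul
    (((S.FF_meas j).const_mul (maC 3)).ennreal_ofReal)
    (Filter.Eventually.of_forall fun _ => ENNReal.ofReal_lt_top)]
  refine setIntegral_congr_fun (S.T_open j).measurableSet fun x hx => ?_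
  simp only [smul_eq_mul]
  rw [ENNReal.toReal_ofReal (S.FF_nonneg hx)]
  ring

/-- integrals of bounded measurable functions -/
theorem mu_int' {f : En 3 → ℝ} (hf : Measurable f) {b : ℝ} (hb : ∀ x, |f x| ≤ b) :
    HasSum (fun j => ∫ x in S.T j, f x * (maC 3 * S.FF j x)) (∫ x, f x ∂S.mu) := by
  have hfin : IsFiniteMeasure S.mu := ⟨S.mu_fin⟩
  have hint : Integrable f S.mu := by
    refine Integrable.mono' (integrable_const b) hf.aestronglyMeasurable ?_
    exact Filter.Eventually.of_forall hb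
  have h := hasSum_integral_measure hint
  simp only [S.int_piece] at h
  exact h

theorem mu_on (j : ℕ) {χ : En 3 → ℝ} (hχ : Continuous χ) (hc : HasCompactSupport χ)
    (hT : tsupport χ ⊆ S.T j) : ∫ x, χ x ∂S.mu = ∫ x, χ x * (maC 3 * S.FF j x) := by
  obtain ⟨b, hb⟩ := hc.exists_bound_of_continuous hχ
  have h1 := S.mu_int' hχ.measurable (b := b) hb
  have h0 : ∀ x, x ∉ S.T j → χ x = 0 := by
    intro x hx
    by_contra hne
    exact hx (hT (subset_tsupport χ hne))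
  have h2 : HasSum (fun i => ∫ x in S.T i, χ x * (maC 3 * S.FF i x))
      (∫ x in S.T j, χ x * (maC 3 * S.FF j x)) := by
    refine hasSum_single j fun i hi => ?_
    have h3 : ∀ x ∈ S.T i, χ x * (maC 3 * S.FF i x) = 0 := by
      intro x hx
      rw [h0 x (Set.disjoint_left.mp (S.T_disjoint hi) hx), zero_mul]
    rw [setIntegral_congr_fun (S.T_open i).measurableSet h3]
    simp
  rw [h1.unique h2]
  refine setIntegral_eq_integral_of_forall_compl_eq_zero fun x hx => ?_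
  rw [h0 x hx, zero_mul]

/-- integrals of bounded measurable functions -/
theorem mu_int {f : En 3 → ℝ} (hf : Measurable f) {b : ℝ} (hb : ∀ x, |f x| ≤ b) :
    HasSum (fun j => ∫ x in S.T j, f x * (maC 3 * S.FF j x)) (∫ x, f x ∂S.mu) :=
  S.mu_int' hf hb

end Sys

end Pool.Agent.H50.CS
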