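import Pool.Agent.H50.CS.Rad1
import Pool.Agent.H50.CS.OneVar3

/-!
# CS-RAD: the radial functions `β_i`, `u_i` of `ρ = log|ζ|`

Data: `N ≥ 1`, `ν : ℕ → ℝ` with `ν i ≥ 1` and `ν i ≥ 8 ν (i+1)` for `i + 1 < N` (`Scales N ν`).
`ss ν ρ = Sf(-ν₀ρ)/ν₀`: a smooth, nonincreasing, nonnegative function, `0` for `ρ ≥ 0`, and
`-ρ - 1/ν₀ ≤ ss ≤ -ρ` for `ρ ≤ 0`. `ss' = -sg(-ν₀ρ) ∈ [-1,0]`, `ss'' = ν₀ sg'(-ν₀ρ) ≥ 0`.
`vv 0 = 1`, `vv i = Vb(ν_i ss)` for `1 ≤ i < N`, `vv i = 0` for `i ≥ N`; `be i = vv i - vv (i+1)` (`β_i`), `uu i = Va(ν_i ss)`.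

* `be_nonneg`: `ν_{i+1} ≤ ν_i`, `Vb` monotone, `0 ≤ Vb ≤ 1` on `[0,∞)`. `sum_be`: telescoping.
* `be_left`: for `ρ ≤ -5`: `ss ≥ 4`, so `vv i = 1` for `i < N`: `be i = 0` (`i+1<N`), `be (N-1) = 1`, `uu i = 1`.
* `be_right`: for `ρ ≥ 0`: `ss = 0`, `Vb 0 = 0`: `be 0 = 1`, `be i = 0` for `i ≥ 1`, `uu i = 0`; also the
  derivatives of first and second order of `be i` vanish for `ρ ≥ 0` (smooth function constant on a
  half line) and for `ρ ≤ -5`.
* `be_sq`: `β_i'' ` is continuous with compact support, so bounded: `sq_deriv_le` gives `β_i'² ≤ Cs β_i`.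
* `abel`: for `-1 ≤ l 0 ≤ l 1 ≤ … ≤ l (N-1) ≤ 0`:
  `∑_{i<N} β_i'' l_i = ∑_{1≤i<N} vv_i'' (l_i - l_{i-1})` (Abel summation; `vv_0'' = 0`, `vv_N = 0`), and
  `vv_i'' = Vb''(ν_i ss) ν_i² ss'² + Vb'(ν_i ss) ν_i ss'' ≥ -Hc ν_i²`, and `≥ 0` unless `3 ≤ ν_i ss ≤ 4`
  (`deriv2_Vb`, `|Vb''| ≤ Hc/(2+Ac) ≤ Hc`). The intervals `{3 ≤ ν_i ss ≤ 4}` are disjoint (`ν_i ≥ 8ν_{i+1}`), so
  either the sum is `≥ 0` or for one `k`, `1 ≤ k < N`, `3 ≤ ν_k ss ≤ 4` and the sum is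
  `≥ -Hc ν_k² (l_k - l_{k-1}) ≥ -Hc ν_k² |l 0|`.
* `sum_uu`: for `l i ≤ 0`: `∑_{i<N} uu_i'' l_i`: `uu_i'' = Va''(ν_i ss) ν_i² ss'² + Va' ν_i ss''`,
  second term `≥ 0`, first term `0` unless `1 ≤ ν_i ss ≤ 2`, `≥ -Hc ν_i²`. So either the sum is `≤ 0` or for
  one `k < N`, `1 ≤ ν_k ss ≤ 2` and the sum is `≤ Hc ν_k² |l_k|`.
* `dom_ge`: if `k < N`, `1 ≤ ν_k ss ρ ≤ 2`, then `uu i ρ ≤ 8 be i ρ` for `k ≤ i < N`, and for `k ≥ 1`
  `be (k-1) ρ ≥ 1/3`; `0 ≤ uu i ≤ 1` always. (`i = k ≥ 1`: `vv_k = ν_k ss/(2+Ac) ≥ 1/(2+Ac)`,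
  `vv_{k+1} ≤ (ν_k ss/8)/(2+Ac) ≤ (1/4)/(2+Ac)`; so `be k ≥ (3/4)/(2+Ac) ≥ 3/16`; `i = k = 0`:
  `be 0 = 1 - vv 1 ≥ 1 - (1/4)/3`; `i > k`: `ν_i ss ≤ 1/4`, `be i ≥ (7/8) ν_i ss/(2+Ac) ≥ (7/32) ν_i ss` and
  `uu i = ν_i ss/Ac ≤ ν_i ss`. `be (k-1)`: `vv (k-1) = 1` because `k-1 = 0` or `ν_{k-1} ss ≥ 8`, and
  `vv k = ν_k ss/(2+Ac) ≤ 2/3`.)
* `ss_range`: if `1 ≤ ν_i ss ρ ≤ 4` (`i<N`), then `-5/ν_i ≤ ρ ≤ -1/ν_i` (as `ss ≤ -ρ ≤ ss + 1/ν₀`, `ν₀ ≥ ν_i`).
(This file: be_sq, abel, sum_uu.)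
-/

set_option autoImplicit false

noncomputable section

namespace Pool.Agent.H50.CS

open Real Set Filter Topology
open scoped ContDiff

variable {N : ℕ} {ν : ℕ → ℝ}

/-! ### first and second derivatives -/

theorem rad2_diff {F : ℝ → ℝ} (hF : ContDiff ℝ ∞ F) : Differentiable ℝ F :=
  hF.differentiable (by simp)

theorem rad2_deriv_smooth {F : ℝ → ℝ} (hF : ContDiff ℝ ∞ F) : ContDiff ℝ ∞ (deriv F) :=
  (contDiff_infty_iff_deriv.1 hF).2

theorem rad2_chain1 {F g : ℝ → ℝ} (hF : ContDiff ℝ ∞ F) (hg : ContDiff ℝ ∞ g) (c x : ℝ) :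
    HasDerivAt (fun x => F (c * g x)) (deriv F (c * g x) * (c * deriv g x)) x := by
  have h1 : HasDerivAt (fun x => c * g x) (c * deriv g x) x :=
    ((rad2_diff hg) x).hasDerivAt.const_mul c
  exact HasDerivAt.comp x ((rad2_diff hF) (c * g x)).hasDerivAt h1

theorem rad2_chain {F g : ℝ → ℝ} (hF : ContDiff ℝ ∞ F) (hg : ContDiff ℝ ∞ g) (c x : ℝ) :
    deriv (deriv (fun x => F (c * g x))) x =
      deriv (deriv F) (c * g x) * (c * deriv g x) ^ 2 +
        deriv F (c * g x) * (c * deriv (deriv g) x) := by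
  have h1 : deriv (fun x => F (c * g x)) = fun x => deriv F (c * g x) * (c * deriv g x) :=
    funext fun x => (rad2_chain1 hF hg c x).deriv
  rw [h1]
  have h2 := rad2_chain1 (rad2_deriv_smooth hF) hg c x
  have h3 : HasDerivAt (fun x => c * deriv g x) (c * deriv (deriv g) x) x :=
    ((rad2_diff (rad2_deriv_smooth hg)) x).hasDerivAt.const_mul c
  have h4 := (h2.mul h3).deriv
  have h5 : deriv (fun x => deriv F (c * g x) * (c * deriv g x)) x =
    deriv (deriv F) (c * g x) * (c * deriv g x) * (c * deriv g x) +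
      deriv F (c * g x) * (c * deriv (deriv g) x) := h4
  rw [h5]
  ring

theorem rad2_nu0 (h : Scales N ν) : 0 < ν 0 := lt_of_lt_of_le one_pos (h.one 0)

theorem rad2_ss1 (h : Scales N ν) (x : ℝ) : deriv (ss ν) x = -sg (-(ν 0) * x) := by
  have h0 := rad2_nu0 h
  have h1 : HasDerivAt (fun x : ℝ => -(ν 0) * x) (-(ν 0)) x := by
    simpa using (hasDerivAt_id x).const_mul (-(ν 0))
  have h2 : HasDerivAt Sf (sg (-(ν 0) * x)) (-(ν 0) * x) := by
    have := ((rad2_diff Sf_smooth) (-(ν 0) * x)).hasDerivAt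
    rwa [deriv_Sf] at this
  have h3 : HasDerivAt (fun x : ℝ => Sf (-(ν 0) * x)) (sg (-(ν 0) * x) * -(ν 0)) x :=
    HasDerivAt.comp x h2 h1
  have h4 : HasDerivAt (ss ν) (sg (-(ν 0) * x) * -(ν 0) / ν 0) x := h3.div_const (ν 0)
  rw [h4.deriv]
  field_simp

theorem rad2_ss2 (h : Scales N ν) (x : ℝ) : 0 ≤ deriv (deriv (ss ν)) x := by
  have h0 := rad2_nu0 h
  have h1 : deriv (ss ν) = fun x => -sg (-(ν 0) * x) := funext fun x => rad2_ss1 h x
  rw [h1]
  have h1 : HasDerivAt (fun x : ℝ => -(ν 0) * x) (-(ν 0)) x := by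
    simpa using (hasDerivAt_id x).const_mul (-(ν 0))
  have h3 : HasDerivAt (fun x : ℝ => sg (-(ν 0) * x)) (deriv sg (-(ν 0) * x) * -(ν 0)) x :=
    HasDerivAt.comp x ((rad2_diff sg_smooth) (-(ν 0) * x)).hasDerivAt h1
  have h5 : HasDerivAt (fun x : ℝ => -sg (-(ν 0) * x)) (-(deriv sg (-(ν 0) * x) * -(ν 0))) x :=
    h3.neg
  rw [h5.deriv]
  have h4 := deriv_sg_nonneg (-(ν 0) * x)
  nlinarith

theorem rad2_ss1_sq (h : Scales N ν) (x : ℝ) : deriv (ss ν) x ^ 2 ≤ 1 := by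
  rw [rad2_ss1 h]
  have h1 := sg_nonneg (-(ν 0) * x)
  have h2 := sg_le_one (-(ν 0) * x)
  nlinarith

/-! ### the functions `vv`, `uu` -/

theorem rad2_vv_smooth (h : Scales N ν) (i : ℕ) : ContDiff ℝ ∞ (vv N ν i) := by
  unfold vv
  by_cases h1 : i = 0
  · simp only [h1, if_true]
    exact contDiff_const
  · by_cases h2 : i < N
    · simp only [h1, h2, if_true, if_false]
      exact Vb_smooth.comp (contDiff_const.mul (ss_smooth h))
    · simp only [h1, h2, if_false]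
      exact contDiff_const

theorem rad2_be2 (h : Scales N ν) (i : ℕ) (x : ℝ) : deriv (deriv (be N ν i)) x =
    deriv (deriv (vv N ν i)) x - deriv (deriv (vv N ν (i + 1))) x := by
  have h1 : deriv (be N ν i) = fun x => deriv (vv N ν i) x - deriv (vv N ν (i + 1)) x := by
    funext x
    have e : be N ν i = fun x => vv N ν i x - vv N ν (i + 1) x := rfl
    rw [e]
    exact deriv_fun_sub ((rad2_diff (rad2_vv_smooth h i)) x)
      ((rad2_diff (rad2_vv_smooth h (i + 1))) x)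
  rw [h1]
  exact deriv_fun_sub ((rad2_diff (rad2_deriv_smooth (rad2_vv_smooth h i))) x)
      ((rad2_diff (rad2_deriv_smooth (rad2_vv_smooth h (i + 1)))) x)

theorem rad2_vv_zero (x : ℝ) : deriv (deriv (vv N ν 0)) x = 0 := by
  have e : vv N ν 0 = fun _ => 1 := by funext x; simp [vv]
  rw [e]
  simp

theorem rad2_vv_N (h : Scales N ν) (x : ℝ) : deriv (deriv (vv N ν N)) x = 0 := by
  have e : vv N ν N = fun _ => 0 := by
    funext x
    have := h.hN
    have h1 : N ≠ 0 := by omega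
    simp [vv, h1]
  rw [e]
  simp

/-- second derivative of a profile -/
theorem rad2_prof (h : Scales N ν) {F : ℝ → ℝ} (hF : ContDiff ℝ ∞ F) {a A : ℝ} (hA : 1 ≤ A)
    (hF1 : ∀ s, deriv F s = hf (s - (a - 1)) / A) (hF2 : ∀ s, deriv (deriv F) s = -deriv sg (s - a) / A)
    (i : ℕ) (x : ℝ) :
    -(Hc * ν i ^ 2) ≤ deriv (deriv (fun x => F (ν i * ss ν x))) x ∧
    (ν i * ss ν x ≤ a ∨ a + 1 ≤ ν i * ss ν x → 0 ≤ deriv (deriv (fun x => F (ν i * ss ν x))) x) := by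
  have hν : 1 ≤ ν i := h.one i
  have hA0 : 0 < A := by linarith
  rw [rad2_chain hF (ss_smooth h)]
  have hsec : 0 ≤ deriv F (ν i * ss ν x) * (ν i * deriv (deriv (ss ν)) x) := by
    rw [hF1]
    have h1 := hf_nonneg (ν i * ss ν x - (a - 1))
    have h2 := rad2_ss2 h x
    positivity
  have hsq := rad2_ss1_sq h x
  have hHc := Hc_ge
  constructor
  · have h1 : -Hc ≤ deriv (deriv F) (ν i * ss ν x) := by
      rw [hF2, le_div_iff₀ hA0]
      have h3 := deriv_sg_le (ν i * ss ν x - a)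
      nlinarith
    have h2 : deriv (deriv F) (ν i * ss ν x) ≤ 0 := by
      rw [hF2]
      have h3 := deriv_sg_nonneg (ν i * ss ν x - a)
      rw [neg_div]
      have : 0 ≤ deriv sg (ν i * ss ν x - a) / A := by positivity
      linarith
    have h4 : (ν i * deriv (ss ν) x) ^ 2 ≤ ν i ^ 2 := by
      rw [mul_pow]
      have : 0 ≤ ν i ^ 2 := sq_nonneg _
      nlinarith
    have h5 : 0 ≤ (ν i * deriv (ss ν) x) ^ 2 := sq_nonneg _
    nlinarith
  · intro hs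
    have h1 : deriv (deriv F) (ν i * ss ν x) = 0 := by
      rw [hF2, deriv_sg_eq_zero, neg_zero, zero_div]
      rcases hs with hs | hs
      · left; linarith
      · right; linarith
    rw [h1, zero_mul, zero_add]
    exact hsec

theorem rad2_vv (h : Scales N ν) {i : ℕ} (hi : 1 ≤ i) (hiN : i < N) (x : ℝ) :
    -(Hc * ν i ^ 2) ≤ deriv (deriv (vv N ν i)) x ∧
    (ν i * ss ν x ≤ 3 ∨ 4 ≤ ν i * ss ν x → 0 ≤ deriv (deriv (vv N ν i)) x) := by
  have e : vv N ν i = fun x => Vb (ν i * ss ν x) := by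
    funext x
    have h1 : i ≠ 0 := by omega
    simp [vv, h1, hiN]
  rw [e]
  have hA : (1 : ℝ) ≤ 2 + Ac := by linarith [Ac_ge]
  have h1 := rad2_prof h Vb_smooth (a := 3) hA
    (fun s => by rw [deriv_Vb]; norm_num) (fun s => deriv2_Vb s) i x
  refine ⟨h1.1, fun h2 => h1.2 ?_⟩
  rcases h2 with h2 | h2
  · exact Or.inl h2
  · right; linarith

theorem rad2_uu (h : Scales N ν) (i : ℕ) (x : ℝ) :
    -(Hc * ν i ^ 2) ≤ deriv (deriv (uu ν i)) x ∧
    (ν i * ss ν x ≤ 1 ∨ 2 ≤ ν i * ss ν x → 0 ≤ deriv (deriv (uu ν i)) x) := by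
  have e : uu ν i = fun x => Va (ν i * ss ν x) := rfl
  rw [e]
  have h1 := rad2_prof h Va_smooth (a := 1) Ac_ge
    (fun s => by rw [deriv_Va]; norm_num) (fun s => deriv2_Va s) i x
  refine ⟨h1.1, fun h2 => h1.2 ?_⟩
  rcases h2 with h2 | h2
  · exact Or.inl h2
  · right; linarith

/-! ### separated scales -/

theorem rad2_sep (h : Scales N ν) {i k : ℕ} (hik : i < k) (hk : k < N) : 8 * ν k ≤ ν i := by
  obtain ⟨d, rfl⟩ : ∃ d, k = i + 1 + d := ⟨k - (i + 1), by omega⟩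
  induction d with
  | zero => exact h.sep i (by omega)
  | succ d ih =>
    have h1 := ih (by omega) (by omega)
    have h2 := h.sep (i + 1 + d) (by omega)
    have h3 := h.one (i + 1 + d + 1)
    have h4 : i + 1 + (d + 1) = i + 1 + d + 1 := by omega
    rw [h4]
    linarith

/-- only one index can have its value in the critical interval `[a, a+1]`, `a ≥ 1` -/
theorem rad2_other (h : Scales N ν) {i k : ℕ} (hi : i < N) (hk : k < N) (hik : i ≠ k) {a s : ℝ}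
    (ha : 1 ≤ a) (h1 : a < ν k * s) (h2 : ν k * s < a + 1) : ν i * s ≤ a ∨ a + 1 ≤ ν i * s := by
  have hνk := h.one k
  have hs : 0 < s := by
    by_contra hn
    have : ν k * s ≤ 0 := mul_nonpos_of_nonneg_of_nonpos (by linarith) (by linarith)
    linarith
  rcases lt_or_gt_of_ne hik with hlt | hlt
  · right
    have h3 := rad2_sep h hlt hk
    have h4 : 8 * ν k * s ≤ ν i * s := mul_le_mul_of_nonneg_right h3 hs.le
    nlinarith
  · left
    have h3 := rad2_sep h hlt hi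
    have h4 : 8 * ν i * s ≤ ν k * s := mul_le_mul_of_nonneg_right h3 hs.le
    nlinarith

theorem rad2_abel_sum (a l : ℕ → ℝ) (M : ℕ) :
    ∑ i ∈ Finset.range (M + 1), (a i - a (i + 1)) * l i =
      a 0 * l 0 - a (M + 1) * l M + ∑ i ∈ Finset.range M, a (i + 1) * (l (i + 1) - l i) := by
  induction M with
  | zero => simp; ring
  | succ M ih =>
    rw [Finset.sum_range_succ, ih, Finset.sum_range_succ]
    ring

theorem be_sq (h : Scales N ν) : ∃ Cs : ℝ, 0 < Cs ∧ ∀ i < N, ∀ ρ,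
    deriv (be N ν i) ρ ^ 2 ≤ Cs * be N ν i ρ := by
  have hb : ∀ i, i < N → ∃ C : ℝ, 0 < C ∧ ∀ x, |deriv (deriv (be N ν i)) x| ≤ C := by
    intro i hi
    have hc : Continuous (deriv (deriv (be N ν i))) :=
      (rad2_deriv_smooth (rad2_deriv_smooth (be_smooth h i))).continuous
    obtain ⟨C, hC⟩ := (isCompact_Icc (a := (-5 : ℝ)) (b := 0)).exists_bound_of_continuousOn
      hc.continuousOn
    refine ⟨max C 1, by positivity, fun x => ?_⟩
    by_cases hx : x ∈ Icc (-5 : ℝ) 0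
    · exact (hC x hx).trans (le_max_left _ _)
    · have hx' : x ≤ -5 ∨ 0 ≤ x := by
        by_contra hn
        push Not at hn
        exact hx ⟨hn.1.le, hn.2.le⟩
      rw [(be_deriv_zero h hi hx').2, abs_zero]
      positivity
  choose! C hC0 hC using hb
  refine ⟨∑ i ∈ Finset.range N, 2 * C i, ?_, ?_⟩
  · refine Finset.sum_pos (fun i hi => ?_) ?_
    · have := hC0 i (Finset.mem_range.1 hi)
      linarith
    · exact ⟨0, Finset.mem_range.2 h.hN⟩
  · intro i hi x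
    have h1 := sq_deriv_le ((be_smooth h i).of_le (by norm_cast)) (be_nonneg h i)
      (hC0 i hi) (hC i hi) x
    refine h1.trans (mul_le_mul_of_nonneg_right ?_ (be_nonneg h i x))
    exact Finset.single_le_sum (f := fun i => 2 * C i)
      (fun j hj => by have := hC0 j (Finset.mem_range.1 hj); linarith) (Finset.mem_range.2 hi)

theorem abel (h : Scales N ν) (l : ℕ → ℝ) (h0 : -1 ≤ l 0) (hmono : ∀ i, i + 1 < N → l i ≤ l (i + 1))
    (hneg : ∀ i < N, l i ≤ 0) (ρ : ℝ) :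
    0 ≤ ∑ i ∈ Finset.range N, deriv (deriv (be N ν i)) ρ * l i ∨
    ∃ k, k < N ∧ 1 ≤ ν k * ss ν ρ ∧ ν k * ss ν ρ ≤ 4 ∧
      -(Hc * ν k ^ 2 * |l 0|) ≤ ∑ i ∈ Finset.range N, deriv (deriv (be N ν i)) ρ * l i := by
  obtain ⟨M, rfl⟩ : ∃ M, N = M + 1 := ⟨N - 1, by have := h.hN; omega⟩
  have hsum : ∑ i ∈ Finset.range (M + 1), deriv (deriv (be (M + 1) ν i)) ρ * l i =
      ∑ i ∈ Finset.range M, deriv (deriv (vv (M + 1) ν (i + 1))) ρ * (l (i + 1) - l i) := by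
    have h1 : ∀ i ∈ Finset.range (M + 1), deriv (deriv (be (M + 1) ν i)) ρ * l i =
        (deriv (deriv (vv (M + 1) ν i)) ρ - deriv (deriv (vv (M + 1) ν (i + 1))) ρ) * l i := by
      intro i _
      rw [rad2_be2 h]
    rw [Finset.sum_congr rfl h1,
      rad2_abel_sum (fun i => deriv (deriv (vv (M + 1) ν i)) ρ) l M]
    rw [rad2_vv_zero, rad2_vv_N h]
    ring
  rw [hsum]
  have hl0 : ∀ i, i < M + 1 → l 0 ≤ l i := by
    intro i
    induction i with
    | zero => intro _; exact le_rfl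
    | succ i ih => intro hi; exact (ih (by omega)).trans (hmono i hi)
  by_cases hex : ∃ k, k < M ∧ 3 < ν (k + 1) * ss ν ρ ∧ ν (k + 1) * ss ν ρ < 4
  · right
    obtain ⟨k, hk, hk1, hk2⟩ := hex
    refine ⟨k + 1, by omega, by linarith, hk2.le, ?_⟩
    have hother : ∀ i ∈ Finset.range M, i ≠ k →
        0 ≤ deriv (deriv (vv (M + 1) ν (i + 1))) ρ * (l (i + 1) - l i) := by
      intro i hi hik
      have hiM := Finset.mem_range.1 hi
      refine mul_nonneg ?_ (by linarith [hmono i (by omega)])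
      refine (rad2_vv h (by omega : 1 ≤ i + 1) (by omega) ρ).2 ?_
      have := rad2_other h (by omega : i + 1 < M + 1) (by omega : k + 1 < M + 1) (by omega)
        (a := 3) (by norm_num) hk1 (by linarith)
      rcases this with h1 | h1
      · exact Or.inl h1
      · right; linarith
    have hk0 : -(Hc * ν (k + 1) ^ 2 * |l 0|) ≤
        deriv (deriv (vv (M + 1) ν (k + 1))) ρ * (l (k + 1) - l k) := by
      have h1 := (rad2_vv h (by omega : 1 ≤ k + 1) (by omega) ρ).1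
      have h2 : 0 ≤ l (k + 1) - l k := by linarith [hmono k (by omega)]
      have h3 : l (k + 1) - l k ≤ |l 0| := by
        rw [abs_of_nonpos (hneg 0 (by omega))]
        linarith [hl0 k (by omega), hneg (k + 1) (by omega)]
      have hHc := Hc_ge
      have h4 : 0 ≤ Hc * ν (k + 1) ^ 2 := by positivity
      calc -(Hc * ν (k + 1) ^ 2 * |l 0|) ≤ -(Hc * ν (k + 1) ^ 2) * (l (k + 1) - l k) := by nlinarith
        _ ≤ _ := mul_le_mul_of_nonneg_right h1 h2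
    refine hk0.trans ?_
    rw [← Finset.add_sum_erase _ _ (Finset.mem_range.2 hk)]
    have : 0 ≤ ∑ i ∈ (Finset.range M).erase k,
        deriv (deriv (vv (M + 1) ν (i + 1))) ρ * (l (i + 1) - l i) :=
      Finset.sum_nonneg fun i hi => hother i (Finset.mem_of_mem_erase hi) (Finset.ne_of_mem_erase hi)
    linarith
  · left
    push Not at hex
    refine Finset.sum_nonneg fun i hi => ?_
    have hiM := Finset.mem_range.1 hi
    refine mul_nonneg ?_ (by linarith [hmono i (by omega)])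
    refine (rad2_vv h (by omega : 1 ≤ i + 1) (by omega) ρ).2 ?_
    by_cases h1 : 3 < ν (i + 1) * ss ν ρ
    · exact Or.inr (hex i hiM h1)
    · exact Or.inl (not_lt.1 h1)

theorem sum_uu (h : Scales N ν) (l : ℕ → ℝ) (hneg : ∀ i < N, l i ≤ 0) (ρ : ℝ) :
    ∑ i ∈ Finset.range N, deriv (deriv (uu ν i)) ρ * l i ≤ 0 ∨
    ∃ k, k < N ∧ 1 ≤ ν k * ss ν ρ ∧ ν k * ss ν ρ ≤ 2 ∧
      ∑ i ∈ Finset.range N, deriv (deriv (uu ν i)) ρ * l i ≤ Hc * ν k ^ 2 * |l k| := by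
  by_cases hex : ∃ k, k < N ∧ 1 < ν k * ss ν ρ ∧ ν k * ss ν ρ < 2
  · right
    obtain ⟨k, hk, hk1, hk2⟩ := hex
    refine ⟨k, hk, hk1.le, hk2.le, ?_⟩
    rw [← Finset.add_sum_erase _ _ (Finset.mem_range.2 hk)]
    have h1 : ∑ i ∈ (Finset.range N).erase k, deriv (deriv (uu ν i)) ρ * l i ≤ 0 := by
      refine Finset.sum_nonpos fun i hi => ?_
      have hiN := Finset.mem_range.1 (Finset.mem_of_mem_erase hi)
      refine mul_nonpos_of_nonneg_of_nonpos ?_ (hneg i hiN)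
      refine (rad2_uu h i ρ).2 ?_
      have := rad2_other h hiN hk (Finset.ne_of_mem_erase hi) (a := 1) le_rfl hk1 (by linarith)
      rcases this with h1 | h1
      · exact Or.inl h1
      · right; linarith
    have h2 : deriv (deriv (uu ν k)) ρ * l k ≤ Hc * ν k ^ 2 * |l k| := by
      have h3 := (rad2_uu h k ρ).1
      have h4 := hneg k hk
      rw [abs_of_nonpos h4]
      nlinarith
    linarith
  · left
    push Not at hex
    refine Finset.sum_nonpos fun i hi => ?_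
    have hiN := Finset.mem_range.1 hi
    refine mul_nonpos_of_nonneg_of_nonpos ?_ (hneg i hiN)
    refine (rad2_uu h i ρ).2 ?_
    by_cases h1 : 1 < ν i * ss ν ρ
    · exact Or.inr (hex i hiN h1)
    · exact Or.inl (not_lt.1 h1)

end Pool.Agent.H50.CS
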