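import Pool.Agent.H50.CS.Rad1

/-!
# CS-RAD: the radial functions `β_i`, `u_i` of `ρ = log|ζ|`

Data: `N ≥ 1`, `ν : ℕ → ℝ` with `ν i ≥ 1` and `ν i ≥ 8 ν (i+1)` for `i + 1 < N` (`Scales N ν`).
`ss ν ρ = Sf(-ν₀ρ)/ν₀`: a smooth, nonincreasing, nonnegative function, `0` for `ρ ≥ 0`, and
`-ρ - 1/ν₀ ≤ ss ≤ -ρ` for `ρ ≤ 0`. `ss' = -sg(-ν₀ρ) ∈ [-1,0]`, `ss'' = ν₀ sg'(-ν₀ρ) ≥ 0`.
`vv 0 = 1`, `vv i = Vb(ν_i ss)` for `1 ≤ i < N`, `vv i = 0` for `i ≥ N`; `be i = vv i - vv (i+1)` (`β_i`), `uu i = Va(ν_i ss)`.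

* `be_nonneg`: `ν_{i+1} ≤ ν_i`, `Vb` monotone, `0 ≤ Vb ≤ 1` on `[0,∞)`. `sum_be`: telescoping.
* `be_left`: for `ρ ≤ -5`: `ss ≥ 4`, so `vv i = 1` for `i < N`: `be i = 0` (`i+1<N`), `be (N-1) = 1`, `uu i = 1`.
* `be_right`: for `ρ ≥ 0`: `ss = 0`, `Vb 0 = 0`: `be 0 = 1`, `be i = 0` for `i ≥ 1`, `uu i = 0`; also the
  derivatives of first and second order of `be i` vanish for `ρ ≥ 0` (smooth function constant on a
  half line) and for `ρ ≤ -5`.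
* `be_sq`: `β_i'' ` is continuous with compact support, so bounded: `sq_deriv_le` gives `β_i'² ≤ Cs β_i`.
* `abel`: for `-1 ≤ l 0 ≤ l 1 ≤ … ≤ l (N-1) ≤ 0`:
  `∑_{i<N} β_i'' l_i = ∑_{1≤i<N} vv_i'' (l_i - l_{i-1})` (Abel summation; `vv_0'' = 0`, `vv_N = 0`), and
  `vv_i'' = Vb''(ν_i ss) ν_i² ss'² + Vb'(ν_i ss) ν_i ss'' ≥ -Hc ν_i²`, and `≥ 0` unless `3 ≤ ν_i ss ≤ 4`
  (`deriv2_Vb`, `|Vb''| ≤ Hc/(2+Ac) ≤ Hc`). The intervals `{3 ≤ ν_i ss ≤ 4}` are disjoint (`ν_i ≥ 8ν_{i+1}`), so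
  either the sum is `≥ 0` or for one `k`, `1 ≤ k < N`, `3 ≤ ν_k ss ≤ 4` and the sum is
  `≥ -Hc ν_k² (l_k - l_{k-1}) ≥ -Hc ν_k² |l 0|`.
* `sum_uu`: for `l i ≤ 0`: `∑_{i<N} uu_i'' l_i`: `uu_i'' = Va''(ν_i ss) ν_i² ss'² + Va' ν_i ss''`,
  second term `≥ 0`, first term `0` unless `1 ≤ ν_i ss ≤ 2`, `≥ -Hc ν_i²`. So either the sum is `≤ 0` or for
  one `k < N`, `1 ≤ ν_k ss ≤ 2` and the sum is `≤ Hc ν_k² |l_k|`.
* `dom_ge`: if `k < N`, `1 ≤ ν_k ss ρ ≤ 2`, then `uu i ρ ≤ 8 be i ρ` for `k ≤ i < N`, and for `k ≥ 1`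
  `be (k-1) ρ ≥ 1/3`; `0 ≤ uu i ≤ 1` always. (`i = k ≥ 1`: `vv_k = ν_k ss/(2+Ac) ≥ 1/(2+Ac)`,
  `vv_{k+1} ≤ (ν_k ss/8)/(2+Ac) ≤ (1/4)/(2+Ac)`; so `be k ≥ (3/4)/(2+Ac) ≥ 3/16`; `i = k = 0`:
  `be 0 = 1 - vv 1 ≥ 1 - (1/4)/3`; `i > k`: `ν_i ss ≤ 1/4`, `be i ≥ (7/8) ν_i ss/(2+Ac) ≥ (7/32) ν_i ss` and
  `uu i = ν_i ss/Ac ≤ ν_i ss`. `be (k-1)`: `vv (k-1) = 1` because `k-1 = 0` or `ν_{k-1} ss ≥ 8`, and
  `vv k = ν_k ss/(2+Ac) ≤ 2/3`.)
* `ss_range`: if `1 ≤ ν_i ss ρ ≤ 4` (`i<N`), then `-5/ν_i ≤ ρ ≤ -1/ν_i` (as `ss ≤ -ρ ≤ ss + 1/ν₀`, `ν₀ ≥ ν_i`).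
(This file: uu_nonneg, uu_le_one, dom_ge.)
-/

set_option autoImplicit false

noncomputable section

namespace Pool.Agent.H50.CS

open Real Set Filter Topology
open scoped ContDiff

variable {N : ℕ} {ν : ℕ → ℝ}

theorem uu_nonneg (h : Scales N ν) (i : ℕ) (ρ : ℝ) : 0 ≤ uu ν i ρ :=
  Va_nonneg (mul_nonneg (zero_le_one.trans (h.one i)) (ss_nonneg h ρ))

theorem uu_le_one (i : ℕ) (ρ : ℝ) : uu ν i ρ ≤ 1 := Va_le_one _

private theorem rad3_sep (h : Scales N ν) (k : ℕ) : ∀ i, k < i → i < N → 8 * ν i ≤ ν k := by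
  intro i
  induction i with
  | zero => intro hi; exact absurd hi (Nat.not_lt_zero _)
  | succ i ih =>
    intro h1 h2
    rcases Nat.lt_or_ge k i with h3 | h3
    · have h4 := ih h3 (by omega)
      have h5 := h.sep i h2
      have h6 := h.one i
      linarith
    · have : k = i := by omega
      subst this
      exact h.sep k h2

/-- the next function `v` is small -/
private theorem rad3_next (h : Scales N ν) (i : ℕ) (ρ : ℝ) (h2 : ν i * ss ν ρ ≤ 2) :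
    vv N ν (i + 1) ρ ≤ ν i * ss ν ρ / 8 / (2 + Ac) := by
  have hA := Ac_ge
  have hs := ss_nonneg h ρ
  have hν := h.one i
  have h0 : 0 ≤ ν i * ss ν ρ := mul_nonneg (by linarith) hs
  unfold vv
  rw [if_neg (Nat.succ_ne_zero i)]
  split_ifs with hi
  · have h3 := h.sep i hi
    have h4 : ν (i + 1) * ss ν ρ ≤ ν i * ss ν ρ / 8 := by nlinarith
    rw [Vb_lin (by linarith)]
    exact div_le_div_of_nonneg_right h4 (by linarith)
  · positivity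

theorem dom_ge (h : Scales N ν) {k : ℕ} (hk : k < N) {ρ : ℝ} (h1 : 1 ≤ ν k * ss ν ρ)
    (h2 : ν k * ss ν ρ ≤ 2) : (∀ i, k ≤ i → i < N → uu ν i ρ ≤ 8 * be N ν i ρ) ∧
      (1 ≤ k → 1 / 3 ≤ be N ν (k - 1) ρ) := by
  have hA := Ac_ge
  have hA2 := Ac_le
  have hs := ss_nonneg h ρ
  have hA0 : (0 : ℝ) < 2 + Ac := by linarith
  refine ⟨fun i hki hiN => ?_, fun hk1 => ?_⟩
  · rcases Nat.lt_or_ge k i with hlt | hge
    · -- `i > k`
      have h3 := rad3_sep h k i hlt hiN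
      have h4 : ν i * ss ν ρ ≤ ν k * ss ν ρ / 8 := by nlinarith
      have h0 : 0 ≤ ν i * ss ν ρ := mul_nonneg (by linarith [h.one i]) hs
      have h5 : uu ν i ρ ≤ ν i * ss ν ρ := Va_le h0
      have h6 := rad3_next h i ρ (by linarith)
      have h7 : vv N ν i ρ = ν i * ss ν ρ / (2 + Ac) := by
        unfold vv
        rw [if_neg (by omega), if_pos hiN, Vb_lin (by linarith)]
      have h8 : be N ν i ρ = vv N ν i ρ - vv N ν (i + 1) ρ := rfl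
      have h9 : ν i * ss ν ρ / 4 ≤ ν i * ss ν ρ / (2 + Ac) :=
        div_le_div_of_nonneg_left h0 hA0 (by linarith)
      have h10 : ν i * ss ν ρ / 8 / (2 + Ac) = (ν i * ss ν ρ / (2 + Ac)) / 8 := by ring
      rw [h10] at h6
      rw [h8, h7]
      linarith
    · -- `i = k`
      have hik : i = k := by omega
      subst hik
      have h5 : uu ν i ρ ≤ 1 := uu_le_one i ρ
      have h6 := rad3_next h i ρ h2
      have h8 : be N ν i ρ = vv N ν i ρ - vv N ν (i + 1) ρ := rfl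
      have h10 : ν i * ss ν ρ / 8 / (2 + Ac) = (ν i * ss ν ρ / (2 + Ac)) / 8 := by ring
      have h11 : 1 / 4 ≤ ν i * ss ν ρ / (2 + Ac) := by
        rw [div_le_div_iff₀ (by norm_num) hA0]
        linarith
      have h12 : ν i * ss ν ρ / (2 + Ac) ≤ 2 / 3 := by
        rw [div_le_div_iff₀ hA0 (by norm_num)]
        linarith
      have h7 : ν i * ss ν ρ / (2 + Ac) ≤ vv N ν i ρ := by
        unfold vv
        split_ifs with h0
        · linarith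
        · rw [Vb_lin (by linarith)]
      rw [h10] at h6
      rw [h8]
      linarith
  · have h8 : be N ν (k - 1) ρ = vv N ν (k - 1) ρ - vv N ν (k - 1 + 1) ρ := rfl
    have e : k - 1 + 1 = k := by omega
    have h7 : vv N ν k ρ = ν k * ss ν ρ / (2 + Ac) := by
      unfold vv
      rw [if_neg (by omega), if_pos hk, Vb_lin (by linarith)]
    have h12 : ν k * ss ν ρ / (2 + Ac) ≤ 2 / 3 := by
      rw [div_le_div_iff₀ hA0 (by norm_num)]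
      linarith
    have h9 : vv N ν (k - 1) ρ = 1 := by
      unfold vv
      split_ifs with h0 h0'
      · rfl
      · have h3 := h.sep (k - 1) (by omega)
        rw [e] at h3
        apply Vb_eq_one
        nlinarith
      · omega
    rw [h8, e, h7, h9]
    linarith

end Pool.Agent.H50.CS
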