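import Pool.Agent.H50.CS.CrvB
import Pool.Agent.H50.CS.CrvC
import Pool.Agent.H50.CS.Rad2
import Pool.Agent.H50.CS.Rad3
import Pool.Agent.H50.CS.Ell2

/-!
# CS-TUBEDEFS: the functions `b`, `G`, `a` attached to a curve, and the interface `TubeOK`, `CrvOK`

Proofs of the smoothness statements: `lr_smooth` for each factor (`be_left`, `el_const` give the constancy near
`-∞`), composed with `c.R`, `c.X`; `c.X + τ² > 0`.
-/

set_option autoImplicit false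

noncomputable section

namespace Pool.Agent.H50.CS

open Complex Metric MeasureTheory Set Filter Topology
open scoped ContDiff ComplexConjugate
open Pool.Agent.H8.FZ

/-- thickness scales growing very fast -/
structure TChain (N : ℕ) (K : ℝ) (T : ℕ → ℝ) : Prop where
  one : ∀ i, 1 ≤ T i
  step : ∀ i, 27 * (N : ℝ) ^ 2 * Real.exp K * T i ^ 4 ≤ T (i + 1)

namespace Crv

variable (c : Crv) (N : ℕ) (ν : ℕ → ℝ) (K τ : ℝ) (T : ℕ → ℝ)

/-- `t = log |z'|` -/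
def tt (x : En 3) : ℝ := 1 / 2 * Real.log (c.X x)

/-- `ρ = log |ζ|` -/
def rr (x : En 3) : ℝ := 1 / 2 * Real.log (c.R x)

/-- `β_i` as a function on `ℂ³` -/
def beX (i : ℕ) (x : En 3) : ℝ := lr (be N ν i) (be N ν i (-5)) (c.R x)

/-- `u_i` as a function on `ℂ³` -/
def uuX (i : ℕ) (x : En 3) : ℝ := lr (uu ν i) 1 (c.R x)

/-- `ℓ_i` as a function on `ℂ³` -/
def elX (i : ℕ) (x : En 3) : ℝ := lr (el K (T i) τ) (Ps (-1)) (c.X x)

/-- the perturbation `b` -/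
def bfun (ε : ℝ) (x : En 3) : ℝ :=
  ε * ∑ i ∈ Finset.range N, c.beX N ν i x * c.elX K τ T i x

/-- the auxiliary logarithmic function `G` -/
def Gfun (x : En 3) : ℝ := 4 * τ ^ 2 * Real.log (c.X x + τ ^ 2)

/-- the total perturbation -/
def gfun (ε : ℝ) (x : En 3) : ℝ := c.Gfun τ x + c.bfun N ν K τ T ε x

/-- the barrier `a` -/
def afun (A : ℝ) (x : En 3) : ℝ :=
  A * ((1 / (N : ℝ)) * ∑ i ∈ Finset.range N, c.uuX ν i x * c.elX K τ T i x + 1 / 4)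

/-- `∑ β_i D_i` -/
def SD (x : En 3) : ℝ := ∑ i ∈ Finset.range N, c.beX N ν i x * Dl K (T i) τ (c.tt x)

/-- `∑ β_i M_i` -/
def SM (x : En 3) : ℝ := ∑ i ∈ Finset.range N, c.beX N ν i x * Ml K (T i) τ (c.tt x)

/-- `∑ u_i D_i` -/
def UD (x : En 3) : ℝ := ∑ i ∈ Finset.range N, c.uuX ν i x * Dl K (T i) τ (c.tt x)

/-- `∑ u_i M_i` -/
def UM (x : En 3) : ℝ := ∑ i ∈ Finset.range N, c.uuX ν i x * Ml K (T i) τ (c.tt x)

/-- `|ξ_r|² = |∂X(v)|²/X` -/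
def xr (x v : En 3) : ℝ := ‖c.cc x v‖ ^ 2 / c.X x

variable {c N ν K τ T}

theorem beX_smooth (h : Scales N ν) {i : ℕ} (hi : i < N) : ContDiff ℝ ∞ (c.beX N ν i) := by
  exact (lr_smooth (be_smooth h i) (t₀ := -5) (fun t ht => (be_left h hi ht).1)).comp c.R_smooth

theorem uuX_smooth (h : Scales N ν) {i : ℕ} (hi : i < N) : ContDiff ℝ ∞ (c.uuX ν i) := by
  exact (lr_smooth (uu_smooth h i) (t₀ := -5) (fun t ht => (be_left h hi ht).2)).comp c.R_smooth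

theorem elX_smooth (hK : 0 < K) (hτ : 0 < τ) {i : ℕ} (hT : 0 < T i) :
    ContDiff ℝ ∞ (c.elX K τ T i) := by
  obtain ⟨t₀, ht₀⟩ := el_const hK hT hτ
  exact (lr_smooth (el_smooth hK hT hτ) ht₀).comp c.X_smooth

theorem bfun_smooth (h : Scales N ν) (hK : 0 < K) (hτ : 0 < τ) (hT : ∀ i, 0 < T i) (ε : ℝ) :
    ContDiff ℝ ∞ (c.bfun N ν K τ T ε) := by
  apply contDiff_const.mul
  apply ContDiff.sum
  intro i hi
  rw [Finset.mem_range] at hi
  exact (beX_smooth h hi).mul (elX_smooth hK hτ (hT i))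

theorem Gfun_smooth (hτ : 0 < τ) : ContDiff ℝ ∞ (c.Gfun τ) := by
  apply contDiff_const.mul
  apply (c.X_smooth.add contDiff_const).log
  intro x
  have h1 := c.X_nonneg x
  have h2 : 0 < τ ^ 2 := by positivity
  exact (by linarith : 0 < c.X x + τ ^ 2).ne'

theorem gfun_smooth (h : Scales N ν) (hK : 0 < K) (hτ : 0 < τ) (hT : ∀ i, 0 < T i) (ε : ℝ) :
    ContDiff ℝ ∞ (c.gfun N ν K τ T ε) := by
  exact (Gfun_smooth hτ).add (bfun_smooth h hK hτ hT ε)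

theorem afun_smooth (h : Scales N ν) (hK : 0 < K) (hτ : 0 < τ) (hT : ∀ i, 0 < T i) (A : ℝ) :
    ContDiff ℝ ∞ (c.afun N ν K τ T A) := by
  apply contDiff_const.mul
  apply ContDiff.add _ contDiff_const
  apply contDiff_const.mul
  apply ContDiff.sum
  intro i hi
  rw [Finset.mem_range] at hi
  exact (uuX_smooth h hi).mul (elX_smooth hK hτ (hT i))

theorem elX_mem (hK : 0 < K) {i : ℕ} (hT : 0 < T i) (x : En 3) :
    -1 ≤ c.elX K τ T i x ∧ c.elX K τ T i x ≤ 0 := by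
  unfold elX lr
  split_ifs with h0
  · exact ⟨neg_one_le_Ps (by norm_num), Ps_nonpos (by norm_num)⟩
  · exact ⟨neg_one_le_el hK hT _, el_nonpos hK hT _⟩

/-- outside the tube `ℓ_i` is tiny -/
theorem elX_out (hK : 0 < K) (hτ : 0 < τ) {i : ℕ} (hT : 0 < T i) {x : En 3} (hx : τ ^ 2 ≤ c.X x) :
    |c.elX K τ T i x| ≤ 1 / (2 * K * T i) := by
  have hτ2 : 0 < τ ^ 2 := by positivity
  have hX : 0 < c.X x := lt_of_lt_of_le hτ2 hx
  unfold elX
  rw [lr_pos _ _ hX]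
  refine (el_abs hK hT _).trans ?_
  have hs : sf τ (1 / 2 * Real.log (c.X x)) ≤ 1 / 2 := by
    apply sf_le_half hτ
    rw [show 2 * (1 / 2 * Real.log (c.X x)) = Real.log (c.X x) by ring, Real.exp_log hX]
    exact hx
  calc sf τ (1 / 2 * Real.log (c.X x)) / (K * T i) ≤ (1 / 2) / (K * T i) :=
        div_le_div_of_nonneg_right hs (by positivity)
    _ = 1 / (2 * K * T i) := by rw [div_div]; ring_nf

theorem beX_nonneg (h : Scales N ν) (i : ℕ) (x : En 3) : 0 ≤ c.beX N ν i x := by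
  unfold beX lr
  split_ifs
  · exact be_nonneg h i _
  · exact be_nonneg h i _

theorem sum_beX (h : Scales N ν) (x : En 3) : ∑ i ∈ Finset.range N, c.beX N ν i x = 1 := by
  unfold beX lr
  split_ifs
  · exact sum_be h _
  · exact sum_be h _

theorem uuX_mem (h : Scales N ν) (i : ℕ) (x : En 3) : 0 ≤ c.uuX ν i x ∧ c.uuX ν i x ≤ 1 := by
  unfold uuX lr
  split_ifs
  · exact ⟨zero_le_one, le_rfl⟩
  · exact ⟨uu_nonneg h i _, uu_le_one i _⟩

theorem SD_nonneg (h : Scales N ν) (hK : 0 < K) (hT : ∀ i, 0 < T i) (x : En 3) :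
    0 ≤ c.SD N ν K τ T x := by
  apply Finset.sum_nonneg
  intro i _
  exact mul_nonneg (beX_nonneg h i x) (Dl_nonneg hK (hT i) _)

theorem SM_nonneg (h : Scales N ν) (hK : 0 < K) (hT : ∀ i, 0 < T i) (x : En 3) :
    0 ≤ c.SM N ν K τ T x := by
  apply Finset.sum_nonneg
  intro i _
  exact mul_nonneg (beX_nonneg h i x) (Ml_nonneg hK (hT i) _)

theorem xr_nonneg (x v : En 3) : 0 ≤ c.xr x v := by
  exact div_nonneg (by positivity) (c.X_nonneg x)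

theorem xr_le (x v : En 3) : c.xr x v ≤ c.xsq x v := by
  unfold xr
  rcases (c.X_nonneg x).eq_or_lt with h0 | h0
  · rw [← h0, div_zero]
    unfold xsq
    positivity
  · rw [div_le_iff₀ h0]
    have := c.cc_le x v
    linarith

theorem bfun_abs (h : Scales N ν) (hK : 0 < K) (hT : ∀ i, 0 < T i) {ε : ℝ} (hε : 0 ≤ ε)
    (x : En 3) : |c.bfun N ν K τ T ε x| ≤ ε := by
  unfold bfun
  rw [abs_mul, abs_of_nonneg hε]
  have h1 : |∑ i ∈ Finset.range N, c.beX N ν i x * c.elX K τ T i x| ≤ 1 := by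
    refine (Finset.abs_sum_le_sum_abs _ _).trans ?_
    rw [← sum_beX (c := c) h x]
    apply Finset.sum_le_sum
    intro i _
    rw [abs_mul, abs_of_nonneg (beX_nonneg h i x)]
    have h2 := elX_mem (c := c) (τ := τ) hK (hT i) x
    have h3 : |c.elX K τ T i x| ≤ 1 := abs_le.2 ⟨h2.1, h2.2.trans zero_le_one⟩
    calc c.beX N ν i x * |c.elX K τ T i x| ≤ c.beX N ν i x * 1 :=
          mul_le_mul_of_nonneg_left h3 (beX_nonneg h i x)
      _ = c.beX N ν i x := mul_one _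
  calc ε * |∑ i ∈ Finset.range N, c.beX N ν i x * c.elX K τ T i x| ≤ ε * 1 :=
        mul_le_mul_of_nonneg_left h1 hε
    _ = ε := mul_one _

end Crv

/-- The properties of the curve used in the assembly. -/
structure CrvOK (c : Crv) : Prop where
  hw : 0 < c.w
  hρ8 : 8 * c.ρ ≤ c.w
  f10 : c.f1 0 = 1 / 4
  f20 : c.f2 0 = 0
  disc : ∀ ζ : ℂ, ‖ζ‖ ≤ 1 → ‖c.f1 ζ‖ ^ 2 + ‖c.f2 ζ‖ ^ 2 ≤ 1 / 4
  far : ∀ ζ : ℂ, c.w / (2 * c.ρ) ≤ ‖ζ‖ → 4 ≤ ‖c.f1 ζ‖ ^ 2 + ‖c.f2 ζ‖ ^ 2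

/-- The properties of a tube with its perturbation `g` and barrier `a`. -/
structure TubeOK (A₀ ε₀ : ℝ) (c : Crv) (τ : ℝ) (g a : En 3 → ℝ) : Prop where
  gs : ContDiff ℝ ∞ g
  as : ContDiff ℝ ∞ a
  gb : ∀ x ∈ ball (0 : En 3) 1, |g x| ≤ ε₀
  out : ∀ x ∈ ball (0 : En 3) 1, x ∉ c.tube τ → ∀ v, -(ε₀ * ‖v‖ ^ 2) ≤ levi g x v
  inn : ∀ x ∈ c.tube τ, ∀ v, 0 ≤ levi g x v + 3 / 4 * ‖v‖ ^ 2
  bd : ∀ x ∈ frontier (c.tube τ), 0 < a x
  ctr : ∀ x, c.X x = 0 → c.R x = 0 → a x ≤ -A₀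
  det : ∀ x ∈ c.tube τ, (∀ v, 0 ≤ levi a x v) → ma a x ≤ ma (fun y => 3 / 4 * ‖y‖ ^ 2 + g y) x

end Pool.Agent.H50.CS
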