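import Pool.Agent.H50.CS.Psi0
import Pool.Agent.H50.CS.TubeDefs

/-!
# CS-PSI: the lower barriers `ψ`

Given a curve `c` (`CrvOK`), `η > 0`, `σ > 0`. There is `τ₁ > 0` such that for `0 < τ < τ₁` and every smooth `g` with
`|g| ≤ 1/64`, `levi g x v ≥ -(1/64)‖v‖²` on `ball 0 1` off the tube, and `levi g x v + ¾‖v‖² ≥ 0` in the tube, there is
a smooth `ψ` with: `levi ψ ≥ 0` and `ψ ≤ 0` on `ball 0 1`, `levi ψ x v ≥ (7/8)‖v‖² + levi g x v` on the tube ∩ ball,
`ψ ≥ -η` on `ball 0 1 ∩ {X ≥ σ²}`.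

Construction: `Y ≥ 1` with `X + 1 ≤ Y` on `ball 0 1`. WLOG `η ≤ 1`. `C > 0` with `e^{1-C} ≤ 1 - e^{-η/4}`.
`ϕ(x) = (7/8)‖x‖² + g(x)` (`|ϕ| ≤ 1` on the ball, `levi ϕ ≥ 0` there).
`κ = 2(C+1)/log(Y/(2τ²))` (`2τ² < Y`), `h(x) = ½κ log((X+τ²)/Y) - η/4`:
`levi h ≥ 0` (`levi log(X+τ²) = |ξ|²/(X+τ²) - |cc|²/(X+τ²)² ≥ 0` by `cc_le`, `levi_X`, `levi_comp`), `h ≤ -η/4`
on the ball. On the tube: `h ≤ ½κ log(2τ²/Y) = -(C+1) ≤ ϕ - C`. `ψ = 2 log(e^h + e^{ϕ-C})`.
* `ψ ≤ 0`: `e^h ≤ e^{-η/4}`, `e^{ϕ-C} ≤ e^{1-C}`.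
* `levi_logsumexp`: `levi log(e^a+e^b) ≥ p levi a + (1-p) levi b`, `p = e^a/(e^a+e^b)`
  (`levi (e^a) = e^a(levi a + |∂a|²)`, `levi log F = levi F/F - |∂F|²/F²` by `levi_comp`, where
  `|∂a|² = ¼(a'(v)²+a'(iv)²)`, and `|e^a∂a+e^b∂b|² ≤ (e^a+e^b)(e^a|∂a|²+e^b|∂b|²)`).
  On the tube `e^{ϕ-C} ≥ e^h`, its weight is `≥ 1/2`, so `levi ψ ≥ levi ϕ`.
* `ψ ≥ 2h`, and for `X ≥ σ²`: `h ≥ ½κ log(σ²/Y) - η/4 ≥ -η/2` as soon as `½κ log(Y/σ²) ≤ η/4`, true for small `τ`
  (`κ → 0`).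
(This file: psi_exists.)
-/

set_option autoImplicit false

noncomputable section

namespace Pool.Agent.H50.CS

open Complex Metric MeasureTheory Set Filter Topology
open scoped ContDiff ComplexConjugate
open Pool.Agent.H8.FZ

/-- the Levi form of `log (X + τ²)` is nonnegative -/
theorem psi_levi_logX (c : Crv) {τ : ℝ} (hτ : 0 < τ) (x v : En 3) :
    0 ≤ levi (fun y => Real.log (c.X y + τ ^ 2)) x v := by
  have hX := c.X_nonneg x
  have hpos : 0 < c.X x + τ ^ 2 := by positivity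
  have hP : ContDiffAt ℝ 2 c.X x := (contDiff_infty.1 c.X_smooth 2).contDiffAt
  have hg : ContDiffAt ℝ 2 (fun t : ℝ => Real.log (t + τ ^ 2)) (c.X x) := by
    apply ContDiffAt.log
    · exact contDiffAt_id.add contDiffAt_const
    · exact hpos.ne'
  have h1 := levi_comp hP hg v
  have hd1 : deriv (fun t : ℝ => Real.log (t + τ ^ 2)) = fun t => (t + τ ^ 2)⁻¹ := by
    funext t
    rw [deriv_comp_add_const (f := Real.log), Real.deriv_log]
  have hd2 : deriv (deriv (fun t : ℝ => Real.log (t + τ ^ 2))) (c.X x) =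
      -((c.X x + τ ^ 2) ^ 2)⁻¹ := by
    rw [hd1, deriv_comp_add_const (f := fun t : ℝ => t⁻¹), deriv_inv]
  rw [hd2, hd1, c.levi_X, c.fderiv_X, c.fderiv_X_I] at h1
  rw [h1]
  have h2 : (2 * (c.cc x v).re) ^ 2 + (-2 * (c.cc x v).im) ^ 2 = 4 * ‖c.cc x v‖ ^ 2 := by
    rw [← Complex.normSq_eq_norm_sq, Complex.normSq_apply]
    ring
  rw [h2]
  have h3 := c.cc_le x v
  have hxsq : 0 ≤ c.xsq x v := by unfold Crv.xsq; positivity
  have h4 : ‖c.cc x v‖ ^ 2 ≤ (c.X x + τ ^ 2) * c.xsq x v := by nlinarith [sq_nonneg τ]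
  have h5 : (c.X x + τ ^ 2)⁻¹ * c.xsq x v + -((c.X x + τ ^ 2) ^ 2)⁻¹ * (1 / 4) * (4 * ‖c.cc x v‖ ^ 2) =
      ((c.X x + τ ^ 2) * c.xsq x v - ‖c.cc x v‖ ^ 2) / (c.X x + τ ^ 2) ^ 2 := by
    field_simp
    ring
  rw [h5]
  apply div_nonneg _ (by positivity)
  linarith

/-- convex combination: the final inequality for the Levi form -/
theorem psi_comb {E F a b : ℝ} (hE : 0 < E) (hF : 0 < F) (ha : 0 ≤ a) (hb : 0 ≤ b) :
    0 ≤ 2 * (E / (E + F) * a + F / (E + F) * b) ∧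
      (E ≤ F → b ≤ 2 * (E / (E + F) * a + F / (E + F) * b)) := by
  have hs : 0 < E + F := by linarith
  constructor
  · positivity
  · intro h
    have h1 : 1 / 2 ≤ F / (E + F) := by
      rw [div_le_div_iff₀ (by norm_num) hs]
      linarith
    have h2 : 0 ≤ E / (E + F) * a := by positivity
    nlinarith

theorem psi_exists (c : Crv) (hc : CrvOK c) {η σ : ℝ} (hη : 0 < η) (hσ : 0 < σ) :
    ∃ τ₁ : ℝ, 0 < τ₁ ∧ ∀ τ : ℝ, 0 < τ → τ < τ₁ → ∀ g : En 3 → ℝ, ContDiff ℝ ∞ g →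
      (∀ x ∈ ball (0 : En 3) 1, |g x| ≤ 1 / 64) →
      (∀ x ∈ ball (0 : En 3) 1, x ∉ c.tube τ → ∀ v, -(1 / 64 * ‖v‖ ^ 2) ≤ levi g x v) →
      (∀ x ∈ c.tube τ, ∀ v, 0 ≤ levi g x v + 3 / 4 * ‖v‖ ^ 2) →
      ∃ ψ : En 3 → ℝ, ContDiff ℝ ∞ ψ ∧ (∀ x ∈ ball (0 : En 3) 1, ψ x ≤ 0) ∧
        (∀ x ∈ ball (0 : En 3) 1, ∀ v, 0 ≤ levi ψ x v) ∧
        (∀ x ∈ ball (0 : En 3) 1, x ∈ c.tube τ → ∀ v,
          7 / 8 * ‖v‖ ^ 2 + levi g x v ≤ levi ψ x v) ∧
        ∀ x ∈ ball (0 : En 3) 1, σ ^ 2 ≤ c.X x → -η ≤ ψ x := by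
  -- the bound `Y`
  obtain ⟨M, hM⟩ := (isCompact_closedBall (0 : En 3) 1).exists_bound_of_continuousOn
    c.X_smooth.continuous.continuousOn
  set Y : ℝ := |M| + 2 with hY
  have hY2 : 2 ≤ Y := by have := abs_nonneg M; linarith
  have hXY : ∀ x ∈ ball (0 : En 3) 1, c.X x + 1 ≤ Y := by
    intro x hx
    have h1 := hM x (ball_subset_closedBall hx)
    rw [Real.norm_eq_abs] at h1
    have h2 := le_abs_self (c.X x)
    have h3 := le_abs_self M
    linarith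
  -- the constants
  set η' : ℝ := min η 1 with hη'
  have hη'0 : 0 < η' := lt_min hη one_pos
  have hη'η : η' ≤ η := min_le_left _ _
  have hq1 : Real.exp (-(η' / 4)) < 1 := by
    rw [Real.exp_lt_one_iff]
    linarith
  have hq0 := Real.exp_pos (-(η' / 4))
  set C : ℝ := 1 - Real.log (1 - Real.exp (-(η' / 4))) with hC
  have hC1 : 1 < C := by
    have : Real.log (1 - Real.exp (-(η' / 4))) < 0 := Real.log_neg (by linarith) (by linarith)
    linarith
  have hCe : Real.exp (1 - C) = 1 - Real.exp (-(η' / 4)) := by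
    have : 1 - C = Real.log (1 - Real.exp (-(η' / 4))) := by rw [hC]; ring
    rw [this, Real.exp_log (by linarith)]
  set B : ℝ := max 1 (4 * (C + 1) * Real.log (Y / σ ^ 2) / η') with hB
  have hB1 : 1 ≤ B := le_max_left _ _
  have hB2 : 4 * (C + 1) * Real.log (Y / σ ^ 2) / η' ≤ B := le_max_right _ _
  have hYB : 0 < Y * Real.exp (-B) / 2 := by positivity
  refine ⟨min 1 (Real.sqrt (Y * Real.exp (-B) / 2)), lt_min one_pos (Real.sqrt_pos.2 hYB), ?_⟩
  intro τ hτ hτ1 g hg hgb hgo hgi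
  have hτ1' : τ < 1 := hτ1.trans_le (min_le_left _ _)
  have hττ : 0 < τ ^ 2 := by positivity
  have hτsq1 : τ ^ 2 ≤ 1 := by nlinarith
  have hτsq : τ ^ 2 ≤ Y * Real.exp (-B) / 2 := by
    have h1 : τ ≤ Real.sqrt (Y * Real.exp (-B) / 2) := (hτ1.trans_le (min_le_right _ _)).le
    have h2 : τ ^ 2 ≤ Real.sqrt (Y * Real.exp (-B) / 2) ^ 2 := pow_le_pow_left₀ hτ.le h1 2
    rwa [Real.sq_sqrt hYB.le] at h2
  set L : ℝ := Real.log (Y / (2 * τ ^ 2)) with hL
  have hLB : B ≤ L := by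
    rw [hL, Real.le_log_iff_exp_le (by positivity), le_div_iff₀ (by positivity)]
    have h1 : Real.exp B * (2 * τ ^ 2) ≤ Real.exp B * (Y * Real.exp (-B)) :=
      mul_le_mul_of_nonneg_left (by linarith) (Real.exp_pos _).le
    have h2 : Real.exp B * (Y * Real.exp (-B)) = Y := by
      rw [Real.exp_neg]
      field_simp
    linarith
  have hL0 : 0 < L := by linarith
  set k : ℝ := (C + 1) / L with hk
  have hk0 : 0 < k := by rw [hk]; positivity
  have hkL : k * L = C + 1 := by rw [hk]; field_simp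
  set hh : En 3 → ℝ := fun y => k * Real.log (c.X y + τ ^ 2) + (-(k * Real.log Y) - η' / 4) with hhd
  set ff : En 3 → ℝ := fun y => (7 / 8 * ‖y‖ ^ 2 + g y) + -C with hfd
  -- smoothness
  have hXpos : ∀ y, 0 < c.X y + τ ^ 2 := fun y => by have := c.X_nonneg y; positivity
  have hlogs : ContDiff ℝ ∞ (fun y => Real.log (c.X y + τ ^ 2)) :=
    (c.X_smooth.add contDiff_const).log (fun y => (hXpos y).ne')
  have hhs : ContDiff ℝ ∞ hh := (contDiff_const.mul hlogs).add contDiff_const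
  have hnsq : ContDiff ℝ ∞ (fun y : En 3 => ‖y‖ ^ 2) := contDiff_norm_sq ℂ
  have hff0 : ContDiff ℝ ∞ (fun y : En 3 => 7 / 8 * ‖y‖ ^ 2 + g y) :=
    (contDiff_const.mul hnsq).add hg
  have hfs : ContDiff ℝ ∞ ff := hff0.add contDiff_const
  have hspos : ∀ y, 0 < Real.exp (hh y) + Real.exp (ff y) := fun y => by positivity
  have hlse : ContDiff ℝ ∞ (fun y => Real.log (Real.exp (hh y) + Real.exp (ff y))) :=
    (hhs.exp.add hfs.exp).log (fun y => (hspos y).ne')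
  have two : ∀ {P : En 3 → ℝ}, ContDiff ℝ ∞ P → ∀ x, ContDiffAt ℝ 2 P x := fun h x =>
    (contDiff_infty.1 h 2).contDiffAt
  -- Levi forms
  have hlh : ∀ x v, 0 ≤ levi hh x v := by
    intro x v
    rw [hhd, levi_add_const, levi_const_mul (two hlogs x)]
    exact mul_nonneg hk0.le (psi_levi_logX c hτ x v)
  have hlf : ∀ x v, levi ff x v = 7 / 8 * ‖v‖ ^ 2 + levi g x v := by
    intro x v
    rw [hfd, levi_add_const, levi_add ((contDiffAt_const.mul (two hnsq x))) (two hg x),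
      levi_const_mul (two hnsq x), levi_norm_sq]
  have hlf0 : ∀ x ∈ ball (0 : En 3) 1, ∀ v, 0 ≤ levi ff x v := by
    intro x hx v
    rw [hlf]
    have hv := sq_nonneg ‖v‖
    by_cases ht : x ∈ c.tube τ
    · have := hgi x ht v
      linarith
    · have := hgo x hx ht v
      linarith
  have hlψ : ∀ x v, 2 * (Real.exp (hh x) / (Real.exp (hh x) + Real.exp (ff x)) * levi hh x v +
      Real.exp (ff x) / (Real.exp (hh x) + Real.exp (ff x)) * levi ff x v) ≤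
      levi (fun y => 2 * Real.log (Real.exp (hh y) + Real.exp (ff y))) x v := by
    intro x v
    rw [levi_const_mul (two hlse x)]
    exact mul_le_mul_of_nonneg_left (levi_logsumexp (two hhs x) (two hfs x) v) (by norm_num)
  -- values
  have hnorm : ∀ x ∈ ball (0 : En 3) 1, ‖x‖ ^ 2 ≤ 1 := by
    intro x hx
    rw [mem_ball_zero_iff] at hx
    have := norm_nonneg x
    nlinarith
  refine ⟨fun y => 2 * Real.log (Real.exp (hh y) + Real.exp (ff y)), contDiff_const.mul hlse,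
    ?_, ?_, ?_, ?_⟩
  · intro x hx
    have h1 : Real.log (c.X x + τ ^ 2) ≤ Real.log Y :=
      Real.log_le_log (hXpos x) (by have := hXY x hx; linarith)
    have h2 : hh x ≤ -(η' / 4) := by
      have := mul_le_mul_of_nonneg_left h1 hk0.le
      simp only [hhd]
      linarith
    have h3 : ff x ≤ 1 - C := by
      have h4 := hnorm x hx
      have h5 := le_of_abs_le (hgb x hx)
      simp only [hfd]
      linarith
    have h4 := Real.exp_le_exp.2 h2
    have h5 := Real.exp_le_exp.2 h3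
    rw [hCe] at h5
    have h6 : Real.log (Real.exp (hh x) + Real.exp (ff x)) ≤ 0 :=
      Real.log_nonpos (hspos x).le (by linarith)
    show 2 * Real.log (Real.exp (hh x) + Real.exp (ff x)) ≤ 0
    linarith
  · intro x hx v
    exact (psi_comb (Real.exp_pos (hh x)) (Real.exp_pos (ff x)) (hlh x v) (hlf0 x hx v)).1.trans
      (hlψ x v)
  · intro x hx ht v
    rw [← hlf x v]
    refine ((psi_comb (Real.exp_pos (hh x)) (Real.exp_pos (ff x)) (hlh x v) (hlf0 x hx v)).2 ?_).trans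
      (hlψ x v)
    rw [Real.exp_le_exp]
    have h1 : c.X x + τ ^ 2 ≤ 2 * τ ^ 2 := by have := ht.1; linarith
    have h2 : Real.log (c.X x + τ ^ 2) ≤ Real.log (2 * τ ^ 2) := Real.log_le_log (hXpos x) h1
    have h3 : L = Real.log Y - Real.log (2 * τ ^ 2) := by
      rw [hL, Real.log_div (by positivity) (by positivity)]
    have h4 := mul_le_mul_of_nonneg_left h2 hk0.le
    have h5 : k * Real.log (2 * τ ^ 2) = k * Real.log Y - (C + 1) := by
      rw [← hkL, h3]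
      ring
    have h6 := neg_le_of_abs_le (hgb x hx)
    have h7 := sq_nonneg ‖x‖
    simp only [hhd, hfd]
    linarith
  · intro x hx hσX
    have h1 : Real.log (σ ^ 2) ≤ Real.log (c.X x + τ ^ 2) :=
      Real.log_le_log (by positivity) (by linarith)
    have h2 : k * Real.log (Y / σ ^ 2) ≤ η' / 4 := by
      have h3 : 4 * (C + 1) * Real.log (Y / σ ^ 2) ≤ L * η' := by
        rw [div_le_iff₀ hη'0] at hB2
        exact hB2.trans (mul_le_mul_of_nonneg_right hLB hη'0.le)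
      rw [hk, div_mul_eq_mul_div, div_le_iff₀ hL0]
      linarith
    rw [Real.log_div (by positivity) (by positivity)] at h2
    have h3 := mul_le_mul_of_nonneg_left h1 hk0.le
    have h4 : -(η' / 2) ≤ hh x := by
      simp only [hhd]
      nlinarith
    have h5 : hh x ≤ Real.log (Real.exp (hh x) + Real.exp (ff x)) := by
      rw [Real.le_log_iff_exp_le (hspos x)]
      have := Real.exp_pos (ff x)
      linarith
    show -η ≤ 2 * Real.log (Real.exp (hh x) + Real.exp (ff x))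
    linarith

end Pool.Agent.H50.CS
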