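import Pool.Agent.H50.CS.Lev

/-!
# CS-PSI: the lower barriers `ψ`

Given a curve `c` (`CrvOK`), `η > 0`, `σ > 0`. There is `τ₁ > 0` such that for `0 < τ < τ₁` and every smooth `g` with
`|g| ≤ 1/64`, `levi g x v ≥ -(1/64)‖v‖²` on `ball 0 1` off the tube, and `levi g x v + ¾‖v‖² ≥ 0` in the tube, there is
a smooth `ψ` with: `levi ψ ≥ 0` and `ψ ≤ 0` on `ball 0 1`, `levi ψ x v ≥ (7/8)‖v‖² + levi g x v` on the tube ∩ ball,
`ψ ≥ -η` on `ball 0 1 ∩ {X ≥ σ²}`.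

Construction: `Y ≥ 1` with `X + 1 ≤ Y` on `ball 0 1`. WLOG `η ≤ 1`. `C > 0` with `e^{1-C} ≤ 1 - e^{-η/4}`.
`ϕ(x) = (7/8)‖x‖² + g(x)` (`|ϕ| ≤ 1` on the ball, `levi ϕ ≥ 0` there).
`κ = 2(C+1)/log(Y/(2τ²))` (`2τ² < Y`), `h(x) = ½κ log((X+τ²)/Y) - η/4`:
`levi h ≥ 0` (`levi log(X+τ²) = |ξ|²/(X+τ²) - |cc|²/(X+τ²)² ≥ 0` by `cc_le`, `levi_X`, `levi_comp`), `h ≤ -η/4`
on the ball. On the tube: `h ≤ ½κ log(2τ²/Y) = -(C+1) ≤ ϕ - C`. `ψ = 2 log(e^h + e^{ϕ-C})`.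
* `ψ ≤ 0`: `e^h ≤ e^{-η/4}`, `e^{ϕ-C} ≤ e^{1-C}`.
* `levi_logsumexp`: `levi log(e^a+e^b) ≥ p levi a + (1-p) levi b`, `p = e^a/(e^a+e^b)`
  (`levi (e^a) = e^a(levi a + |∂a|²)`, `levi log F = levi F/F - |∂F|²/F²` by `levi_comp`, where
  `|∂a|² = ¼(a'(v)²+a'(iv)²)`, and `|e^a∂a+e^b∂b|² ≤ (e^a+e^b)(e^a|∂a|²+e^b|∂b|²)`).
  On the tube `e^{ϕ-C} ≥ e^h`, its weight is `≥ 1/2`, so `levi ψ ≥ levi ϕ`.
* `ψ ≥ 2h`, and for `X ≥ σ²`: `h ≥ ½κ log(σ²/Y) - η/4 ≥ -η/2` as soon as `½κ log(Y/σ²) ≤ η/4`, true for small `τ`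
  (`κ → 0`).
(This file: levi_logsumexp.)
-/

set_option autoImplicit false

noncomputable section

namespace Pool.Agent.H50.CS

open Complex Metric MeasureTheory Set Filter Topology
open scoped ContDiff ComplexConjugate
open Pool.Agent.H8.FZ

theorem levi_logsumexp {a b : En 3 → ℝ} {x : En 3} (ha : ContDiffAt ℝ 2 a x)
    (hb : ContDiffAt ℝ 2 b x) (v : En 3) :
    Real.exp (a x) / (Real.exp (a x) + Real.exp (b x)) * levi a x v +
      Real.exp (b x) / (Real.exp (a x) + Real.exp (b x)) * levi b x v ≤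
    levi (fun y => Real.log (Real.exp (a y) + Real.exp (b y))) x v := by
  have hFa : ContDiffAt ℝ 2 (fun y => Real.exp (a y)) x := ha.exp
  have hFb : ContDiffAt ℝ 2 (fun y => Real.exp (b y)) x := hb.exp
  have hF : ContDiffAt ℝ 2 (fun y => Real.exp (a y) + Real.exp (b y)) x := hFa.add hFb
  have hA : 0 < Real.exp (a x) := Real.exp_pos _
  have hB : 0 < Real.exp (b x) := Real.exp_pos _
  have hS : 0 < Real.exp (a x) + Real.exp (b x) := add_pos hA hB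
  have hlog : ContDiffAt ℝ 2 Real.log (Real.exp (a x) + Real.exp (b x)) :=
    Real.contDiffAt_log.2 hS.ne'
  have had : DifferentiableAt ℝ a x := ha.differentiableAt (by norm_num)
  have hbd : DifferentiableAt ℝ b x := hb.differentiableAt (by norm_num)
  have e1 := levi_comp hF hlog v
  have e2 := levi_add hFa hFb v
  have e3 := levi_comp ha (g := Real.exp) Real.contDiff_exp.contDiffAt v
  have e4 := levi_comp hb (g := Real.exp) Real.contDiff_exp.contDiffAt v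
  have d1 : deriv Real.log (Real.exp (a x) + Real.exp (b x)) =
      (Real.exp (a x) + Real.exp (b x))⁻¹ := Real.deriv_log _
  have d2 : deriv (deriv Real.log) (Real.exp (a x) + Real.exp (b x)) =
      -((Real.exp (a x) + Real.exp (b x)) ^ 2)⁻¹ := by
    have h : deriv Real.log = fun y : ℝ => y⁻¹ := Real.deriv_log'
    rw [h]
    simp [deriv_inv]
  have d3 : deriv Real.exp = Real.exp := Real.deriv_exp
  have hda : HasFDerivAt (fun y => Real.exp (a y)) (Real.exp (a x) • fderiv ℝ a x) x :=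
    had.hasFDerivAt.exp
  have hdb : HasFDerivAt (fun y => Real.exp (b y)) (Real.exp (b x) • fderiv ℝ b x) x :=
    hbd.hasFDerivAt.exp
  have hdF : fderiv ℝ (fun y => Real.exp (a y) + Real.exp (b y)) x =
      Real.exp (a x) • fderiv ℝ a x + Real.exp (b x) • fderiv ℝ b x := (hda.add hdb).fderiv
  rw [e1, e2, e3, e4, d1, d2, d3, d3, hdF]
  simp only [_root_.add_apply, _root_.smul_apply, smul_eq_mul]
  generalize Real.exp (a x) = A at hA hS ⊢
  generalize Real.exp (b x) = B at hB hS ⊢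
  generalize fderiv ℝ a x v = a1
  generalize fderiv ℝ b x v = b1
  generalize fderiv ℝ a x (I • v) = a2
  generalize fderiv ℝ b x (I • v) = b2
  generalize levi a x v = la
  generalize levi b x v = lb
  rw [← sub_nonneg]
  have key : (A + B)⁻¹ * (A * la + A * (1 / 4) * (a1 ^ 2 + a2 ^ 2) +
      (B * lb + B * (1 / 4) * (b1 ^ 2 + b2 ^ 2))) +
      -((A + B) ^ 2)⁻¹ * (1 / 4) * ((A * a1 + B * b1) ^ 2 + (A * a2 + B * b2) ^ 2) -
      (A / (A + B) * la + B / (A + B) * lb) =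
      (1 / 4) * (A * B) * ((a1 - b1) ^ 2 + (a2 - b2) ^ 2) / (A + B) ^ 2 := by
    field_simp
    ring
  rw [key]
  positivity

end Pool.Agent.H50.CS
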