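import Mathlib

/-!
# CS-RS: bounded holomorphic discs in `ℂ²` with `|f'|² ≥ c ν²/N` at `N` separated scales

A Rudin-Shapiro type construction. Fix `N ≥ 1`, `γ = 1/√N`, `r = 1/4`, an integer `Λ ≥ 2` (large, depending on
`N`: `Λ ≥ 10⁶ N` is enough) and `n_k = Λ^k` for `k ≥ 1`, `n_0 = 0`, `m_k = n_k - n_{k-1}`. Define pairs of
polynomials `F_k = (p_k, q_k)`, `G_k = (P_k, Q_k)` by `F_0 = G_0 = (r, 0)` and
`F_k = F_{k-1} + γ ζ^{m_k} J G_{k-1}`, `G_k = ζ^{m_k} G_{k-1} + γ J F_{k-1}`, `J(a,b) = (-b, a)`.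

1. `F_k(ζ) = ζ^{n_k} conj(G_k(1/conj ζ))` and `G_k(ζ) = ζ^{n_k} conj(F_k(1/conj ζ))` for `ζ ≠ 0` (componentwise;
   induction on `k`, coefficients real; uses `n_k - m_k = n_{k-1}`).
2. On `|ζ| = 1`: `|G_k| = |F_k|` and `|F_k|² = (1+γ²)|F_{k-1}|²`: the cross term is
   `2γ Re⟨F_{k-1}, ζ^{m_k}JG_{k-1}⟩`, and with `G_{k-1} = ζ^{n_{k-1}} conj F_{k-1}` one has
   `JG_{k-1} = ζ^{n_{k-1}}(-conj q, conj p)` which is orthogonal to `(p,q)` up to the phase: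
   `p·(-q) + q·p = 0`. So `|F_k|² = r²(1+1/N)^k ∈ [r², e r²]` on `|ζ| = 1`, `k ≤ N`.
3. Maximum principle (`Complex.norm_le_of_forall_mem_frontier_norm_le` for the functions with values in
   `EuclideanSpace ℂ (Fin 2)`, or componentwise for `⟨F, a⟩` with unit vectors `a`): `|F_k|, |G_k| ≤ B := √e r` on
   `|ζ| ≤ 1`.
4. Derivatives on `|ζ| ≤ 1`: `|F_k'|, |G_k'| ≤ 2 n_k B` by induction
   (`F_k' = F_{k-1}' + γ(m_k ζ^{m_k-1} JG_{k-1} + ζ^{m_k} JG'_{k-1})`, etc.; `Λ ≥ 4`).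
5. Lower bound: for `e^{-5/n_k} ≤ |ζ| ≤ e^{-1/n_k}`, `1 ≤ k ≤ N`:
   * `|G_{k-1}(ζ)| ≥ r - 2n_{k-1}B(1-|ζ|) ≥ r - 10 B n_{k-1}/n_k ≥ 3r/4` (compare with `ζ/|ζ|`);
   * `|F_k'(ζ)| ≥ γ(m_k|ζ|^{m_k-1}·3r/4 - 2n_{k-1}B) - 2n_{k-1}B ≥ γ n_k e^{-5} r/2` (`Λ ≥ 10⁵ N`);
   * for `m > k`: `|(γζ^{m_m}JG_{m-1})'| ≤ γ·2n_m B |ζ|^{m_m-1} ≤ 2γ n_m B e^{-n_m/(2n_k)}` and
     `x e^{-x/2} ≤ 8/x` with `x = n_m/n_k ≥ Λ^{m-k}`, so the sum over `m > k` is `≤ 32 γ B n_k/Λ`;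
   hence `|F_N'(ζ)| ≥ γ n_k e^{-5} r/4`, i.e. `|F_N'|² ≥ c n_k²/N` with `c = (e^{-5}/16)²`.
6. `|F_N(ζ)| = |ζ|^{n_N}|G_N(1/conj ζ)| → ∞` as `|ζ| → ∞` because `G_N(0) = γJF_{N-1}(0) = γ(0, r) ≠ 0`
   (`F_k(0) = (r,0)` for all `k`, `m_k ≥ 1`).
The result: `f = F_N`, `ν_i = n_{N-i}` for `i < N`; `ν_i/ν_{i+1} = Λ ≥ 8` for `i+1 < N`.
`|f|² ≤ e r² ≤ 1/4` on the closed unit disc.
(This file: rsm, rsn, rs, nsq, rs_differentiable, rs_zero, rs_star, rs_circle, rs_disc.)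
-/

set_option autoImplicit false

noncomputable section

namespace Pool.Agent.H50.CS

open Complex Metric Set Filter Topology
open scoped ComplexConjugate

/-- The two sequences of pairs. `rs γ Λ k = (p_k, q_k, P_k, Q_k)` as functions of `ζ`;
`mk k = Λ^{k+1} - Λ^k` except `Λ` for the first step. -/
def rsm (Λ : ℕ) (k : ℕ) : ℕ := if k = 0 then Λ else Λ ^ (k + 1) - Λ ^ k

/-- degree bound: `rsn Λ 0 = 0`, `rsn Λ k = Λ^k` -/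
def rsn (Λ : ℕ) (k : ℕ) : ℕ := if k = 0 then 0 else Λ ^ k

/-- the recursion -/
def rs (γ : ℝ) (Λ : ℕ) : ℕ → ℂ → (ℂ × ℂ) × (ℂ × ℂ)
  | 0, _ => ((1 / 4, 0), (1 / 4, 0))
  | (k + 1), ζ =>
    let F := (rs γ Λ k ζ).1
    let G := (rs γ Λ k ζ).2
    ((F.1 - γ * ζ ^ rsm Λ k * G.2, F.2 + γ * ζ ^ rsm Λ k * G.1),
      (ζ ^ rsm Λ k * G.1 - γ * F.2, ζ ^ rsm Λ k * G.2 + γ * F.1))

/-- squared norm of a pair -/
def nsq (a : ℂ × ℂ) : ℝ := ‖a.1‖ ^ 2 + ‖a.2‖ ^ 2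

theorem rs_succ (γ : ℝ) (Λ k : ℕ) (ζ : ℂ) : rs γ Λ (k + 1) ζ =
    (((rs γ Λ k ζ).1.1 - γ * ζ ^ rsm Λ k * (rs γ Λ k ζ).2.2,
      (rs γ Λ k ζ).1.2 + γ * ζ ^ rsm Λ k * (rs γ Λ k ζ).2.1),
      (ζ ^ rsm Λ k * (rs γ Λ k ζ).2.1 - γ * (rs γ Λ k ζ).1.2,
        ζ ^ rsm Λ k * (rs γ Λ k ζ).2.2 + γ * (rs γ Λ k ζ).1.1)) := rfl

theorem rsm_pos {Λ : ℕ} (hΛ : 2 ≤ Λ) (k : ℕ) : 0 < rsm Λ k := by
  unfold rsm
  split_ifs with h
  · omega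
  · have h1 : Λ ^ k < Λ ^ (k + 1) := Nat.pow_lt_pow_right (by omega) (by omega)
    omega

theorem rsn_succ {Λ : ℕ} (hΛ : 2 ≤ Λ) (k : ℕ) : rsn Λ (k + 1) = rsn Λ k + rsm Λ k := by
  unfold rsn rsm
  by_cases h : k = 0
  · subst h
    simp
  · rw [if_neg (by omega), if_neg h, if_neg h]
    have h1 : Λ ^ k < Λ ^ (k + 1) := Nat.pow_lt_pow_right (by omega) (by omega)
    omega

theorem rs_differentiable (γ : ℝ) (Λ k : ℕ) : Differentiable ℂ (fun ζ => (rs γ Λ k ζ).1.1) ∧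
    Differentiable ℂ (fun ζ => (rs γ Λ k ζ).1.2) ∧ Differentiable ℂ (fun ζ => (rs γ Λ k ζ).2.1) ∧
    Differentiable ℂ (fun ζ => (rs γ Λ k ζ).2.2) := by
  induction k with
  | zero =>
    simp only [rs]
    exact ⟨differentiable_const _, differentiable_const _, differentiable_const _,
      differentiable_const _⟩
  | succ k ih =>
    obtain ⟨h1, h2, h3, h4⟩ := ih
    have hp : Differentiable ℂ (fun ζ : ℂ => ζ ^ rsm Λ k) := differentiable_pow _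
    have hg : Differentiable ℂ (fun ζ : ℂ => (γ : ℂ) * ζ ^ rsm Λ k) := hp.const_mul _
    simp only [rs_succ]
    exact ⟨h1.sub (hg.mul h4), h2.add (hg.mul h3), (hp.mul h3).sub (h2.const_mul _),
      (hp.mul h4).add (h1.const_mul _)⟩

theorem rs_zero_fst (γ : ℝ) {Λ : ℕ} (hΛ : 2 ≤ Λ) (k : ℕ) :
    (rs γ Λ k 0).1 = ((1 / 4 : ℂ), (0 : ℂ)) := by
  induction k with
  | zero => rfl
  | succ k ih =>
    have h0 : (0 : ℂ) ^ rsm Λ k = 0 := zero_pow (rsm_pos hΛ k).ne'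
    rw [rs_succ, h0, ih]
    simp

theorem rs_zero (γ : ℝ) {Λ : ℕ} (hΛ : 2 ≤ Λ) (k : ℕ) :
    (rs γ Λ k 0).1 = ((1 / 4 : ℂ), (0 : ℂ)) ∧ (rs γ Λ (k + 1) 0).2 = ((0 : ℂ), (γ : ℂ) / 4) := by
  refine ⟨rs_zero_fst γ hΛ k, ?_⟩
  have h0 : (0 : ℂ) ^ rsm Λ k = 0 := zero_pow (rsm_pos hΛ k).ne'
  rw [rs_succ, h0, rs_zero_fst γ hΛ k]
  simp [div_eq_mul_inv]

/-- step 1 -/
theorem rs_star (γ : ℝ) {Λ : ℕ} (hΛ : 2 ≤ Λ) (k : ℕ) {ζ : ℂ} (hζ : ζ ≠ 0) :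
    (rs γ Λ k ζ).1.1 = ζ ^ rsn Λ k * conj (rs γ Λ k (conj ζ)⁻¹).2.1 ∧
    (rs γ Λ k ζ).1.2 = ζ ^ rsn Λ k * conj (rs γ Λ k (conj ζ)⁻¹).2.2 ∧
    (rs γ Λ k ζ).2.1 = ζ ^ rsn Λ k * conj (rs γ Λ k (conj ζ)⁻¹).1.1 ∧
    (rs γ Λ k ζ).2.2 = ζ ^ rsn Λ k * conj (rs γ Λ k (conj ζ)⁻¹).1.2 := by
  induction k with
  | zero =>
    simp [rs, rsn]
    exact (map_ofNat (starRingEnd ℂ) 4).symm
  | succ k ih =>
    obtain ⟨h1, h2, h3, h4⟩ := ih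
    have hp : ζ ^ rsm Λ k ≠ 0 := pow_ne_zero _ hζ
    have hc : conj ((conj ζ)⁻¹ ^ rsm Λ k) = (ζ ^ rsm Λ k)⁻¹ := by
      rw [map_pow, map_inv₀, Complex.conj_conj, inv_pow]
    simp only [rs_succ, rsn_succ hΛ, pow_add, map_sub, map_add, map_mul, hc, Complex.conj_ofReal]
    refine ⟨?_, ?_, ?_, ?_⟩
    · rw [h1, h4]; field_simp
    · rw [h2, h3]; field_simp
    · rw [h3, h2]; field_simp
    · rw [h4, h1]; field_simp

/-- step 2 -/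
theorem rs_circle (γ : ℝ) {Λ : ℕ} (hΛ : 2 ≤ Λ) (k : ℕ) {ζ : ℂ} (hζ : ‖ζ‖ = 1) :
    nsq (rs γ Λ k ζ).1 = (1 / 16) * (1 + γ ^ 2) ^ k ∧
    nsq (rs γ Λ k ζ).2 = (1 / 16) * (1 + γ ^ 2) ^ k := by
  have hζ0 : ζ ≠ 0 := by
    intro h
    rw [h, norm_zero] at hζ
    exact zero_ne_one hζ
  have hinv : (conj ζ)⁻¹ = ζ := by
    rw [Complex.inv_def, Complex.conj_conj, Complex.normSq_conj, Complex.normSq_eq_norm_sq, hζ]
    simp
  have hst : ∀ k : ℕ, (rs γ Λ k ζ).2.1 = ζ ^ rsn Λ k * conj (rs γ Λ k ζ).1.1 ∧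
      (rs γ Λ k ζ).2.2 = ζ ^ rsn Λ k * conj (rs γ Λ k ζ).1.2 := by
    intro k
    have h := rs_star γ hΛ k hζ0
    rw [hinv] at h
    exact ⟨h.2.2.1, h.2.2.2⟩
  have heq : ∀ k : ℕ, nsq (rs γ Λ k ζ).2 = nsq (rs γ Λ k ζ).1 := by
    intro k
    obtain ⟨h1, h2⟩ := hst k
    unfold nsq
    rw [h1, h2]
    simp [hζ]
  have key : nsq (rs γ Λ k ζ).1 = (1 / 16) * (1 + γ ^ 2) ^ k := by
    induction k with
    | zero =>
      simp only [rs, nsq]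
      norm_num
    | succ k ih =>
      obtain ⟨h1, h2⟩ := hst k
      have hm : ‖ζ ^ rsm Λ k‖ = 1 := by rw [norm_pow, hζ, one_pow]
      have hn : ‖ζ ^ rsn Λ k‖ = 1 := by rw [norm_pow, hζ, one_pow]
      have e : nsq (rs γ Λ (k + 1) ζ).1 = (1 + γ ^ 2) * nsq (rs γ Λ k ζ).1 := by
        rw [rs_succ, h1, h2]
        unfold nsq
        simp only
        generalize (rs γ Λ k ζ).1.1 = a
        generalize (rs γ Λ k ζ).1.2 = b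
        set u : ℂ := ζ ^ rsm Λ k
        set v : ℂ := ζ ^ rsn Λ k
        have huv : ‖u * v‖ = 1 := by rw [norm_mul, hm, hn, one_mul]
        have e1 : (γ : ℂ) * u * (v * conj b) = γ * (u * v) * conj b := by ring
        have e2 : (γ : ℂ) * u * (v * conj a) = γ * (u * v) * conj a := by ring
        rw [e1, e2]
        generalize u * v = w at huv
        rw [← Complex.normSq_eq_norm_sq, ← Complex.normSq_eq_norm_sq, ← Complex.normSq_eq_norm_sq,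
          ← Complex.normSq_eq_norm_sq]
        have hw : w.re * w.re + w.im * w.im = 1 := by
          have := Complex.normSq_eq_norm_sq w
          rw [huv, Complex.normSq_apply] at this
          simpa using this
        simp only [Complex.normSq_apply, Complex.sub_re, Complex.sub_im, Complex.add_re,
          Complex.add_im, Complex.mul_re, Complex.mul_im, Complex.ofReal_re, Complex.ofReal_im,
          Complex.conj_re, Complex.conj_im]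
        linear_combination (γ ^ 2 * (a.re * a.re + a.im * a.im + b.re * b.re + b.im * b.im)) * hw
      rw [e, ih, pow_succ]
      ring
  exact ⟨key, by rw [heq, key]⟩

theorem cs_pair (a b c d : ℂ) : ‖conj a * c + conj b * d‖ ^ 2 ≤
    (‖a‖ ^ 2 + ‖b‖ ^ 2) * (‖c‖ ^ 2 + ‖d‖ ^ 2) := by
  have h1 : ‖conj a * c + conj b * d‖ ≤ ‖a‖ * ‖c‖ + ‖b‖ * ‖d‖ := by
    refine (norm_add_le _ _).trans ?_
    rw [norm_mul, norm_mul, Complex.norm_conj, Complex.norm_conj]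
  have h2 : ‖conj a * c + conj b * d‖ ^ 2 ≤ (‖a‖ * ‖c‖ + ‖b‖ * ‖d‖) ^ 2 :=
    pow_le_pow_left₀ (norm_nonneg _) h1 2
  nlinarith [sq_nonneg (‖a‖ * ‖d‖ - ‖b‖ * ‖c‖)]

theorem max_pair {f g : ℂ → ℂ} (hf : Differentiable ℂ f) (hg : Differentiable ℂ g) {B : ℝ}
    (hB : ∀ z : ℂ, ‖z‖ = 1 → ‖f z‖ ^ 2 + ‖g z‖ ^ 2 ≤ B) {ζ : ℂ} (hζ : ‖ζ‖ ≤ 1) :
    ‖f ζ‖ ^ 2 + ‖g ζ‖ ^ 2 ≤ B := by
  set S : ℝ := ‖f ζ‖ ^ 2 + ‖g ζ‖ ^ 2 with hS
  have hS0 : 0 ≤ S := by positivity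
  have hB0 : 0 ≤ B := by
    have := hB 1 (by simp)
    exact le_trans (by positivity) this
  set h : ℂ → ℂ := fun z => conj (f ζ) * f z + conj (g ζ) * g z with hh
  have hd : Differentiable ℂ h := (hf.const_mul _).add (hg.const_mul _)
  have hbd : ∀ z ∈ frontier (ball (0 : ℂ) 1), ‖h z‖ ≤ Real.sqrt (S * B) := by
    intro z hz
    rw [frontier_ball _ one_ne_zero, mem_sphere_zero_iff_norm] at hz
    apply Real.le_sqrt_of_sq_le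
    refine (cs_pair (f ζ) (g ζ) (f z) (g z)).trans ?_
    exact mul_le_mul_of_nonneg_left (hB z hz) hS0
  have hcl : ζ ∈ closure (ball (0 : ℂ) 1) := by
    rw [closure_ball _ one_ne_zero, mem_closedBall_zero_iff]
    exact hζ
  have hmax := Complex.norm_le_of_forall_mem_frontier_norm_le isBounded_ball
    hd.diffContOnCl hbd hcl
  have hval : h ζ = (S : ℂ) := by
    simp only [hh, hS]
    rw [← Complex.normSq_eq_conj_mul_self, ← Complex.normSq_eq_conj_mul_self,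
      Complex.normSq_eq_norm_sq, Complex.normSq_eq_norm_sq]
    push_cast
    ring
  rw [hval, Complex.norm_real, Real.norm_of_nonneg hS0] at hmax
  have hsq : S ^ 2 ≤ S * B := by
    calc S ^ 2 ≤ (Real.sqrt (S * B)) ^ 2 := pow_le_pow_left₀ hS0 hmax 2
      _ = S * B := Real.sq_sqrt (mul_nonneg hS0 hB0)
  rcases hS0.eq_or_lt with h0 | h0
  · rw [← h0]; exact hB0
  · nlinarith

/-- step 3 (`B² = e/16`) -/
theorem rs_disc {N : ℕ} (hN : 1 ≤ N) {Λ : ℕ} (hΛ : 2 ≤ Λ) {k : ℕ} (hk : k ≤ N) {ζ : ℂ}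
    (hζ : ‖ζ‖ ≤ 1) : nsq (rs (1 / Real.sqrt N) Λ k ζ).1 ≤ Real.exp 1 / 16 ∧
    nsq (rs (1 / Real.sqrt N) Λ k ζ).2 ≤ Real.exp 1 / 16 := by
  have hN0 : (0 : ℝ) < N := by exact_mod_cast hN
  have hγ : (1 / Real.sqrt N) ^ 2 = 1 / (N : ℝ) := by
    rw [div_pow, one_pow, Real.sq_sqrt hN0.le]
  have hB : (1 / 16 : ℝ) * (1 + (1 / Real.sqrt N) ^ 2) ^ k ≤ Real.exp 1 / 16 := by
    rw [hγ]
    have h1 : (1 + 1 / (N : ℝ)) ^ k ≤ Real.exp 1 := by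
      have h2 : (1 + 1 / (N : ℝ)) ≤ Real.exp (1 / N) := by
        have := Real.add_one_le_exp (1 / (N : ℝ))
        linarith
      calc (1 + 1 / (N : ℝ)) ^ k ≤ (Real.exp (1 / N)) ^ k :=
            pow_le_pow_left₀ (by positivity) h2 k
        _ = Real.exp (k * (1 / N)) := by rw [← Real.exp_nat_mul]
        _ ≤ Real.exp 1 := by
            apply Real.exp_le_exp.2
            have hk' : (k : ℝ) ≤ N := by exact_mod_cast hk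
            rw [mul_one_div, div_le_one hN0]
            exact hk'
    linarith
  obtain ⟨d1, d2, d3, d4⟩ := rs_differentiable (1 / Real.sqrt N) Λ k
  refine ⟨?_, ?_⟩
  · refine max_pair d1 d2 (fun z hz => ?_) hζ
    have := (rs_circle (1 / Real.sqrt N) hΛ k hz).1
    unfold nsq at this
    exact this.le.trans hB
  · refine max_pair d3 d4 (fun z hz => ?_) hζ
    have := (rs_circle (1 / Real.sqrt N) hΛ k hz).2
    unfold nsq at this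
    exact this.le.trans hB

end Pool.Agent.H50.CS
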