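import Pool.Agent.H50.CS.RS1

/-!
# CS-RS: bounded holomorphic discs in `ℂ²` with `|f'|² ≥ c ν²/N` at `N` separated scales

A Rudin-Shapiro type construction. Fix `N ≥ 1`, `γ = 1/√N`, `r = 1/4`, an integer `Λ ≥ 2` (large, depending on
`N`: `Λ ≥ 10⁶ N` is enough) and `n_k = Λ^k` for `k ≥ 1`, `n_0 = 0`, `m_k = n_k - n_{k-1}`. Define pairs of
polynomials `F_k = (p_k, q_k)`, `G_k = (P_k, Q_k)` by `F_0 = G_0 = (r, 0)` and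
`F_k = F_{k-1} + γ ζ^{m_k} J G_{k-1}`, `G_k = ζ^{m_k} G_{k-1} + γ J F_{k-1}`, `J(a,b) = (-b, a)`.

1. `F_k(ζ) = ζ^{n_k} conj(G_k(1/conj ζ))` and `G_k(ζ) = ζ^{n_k} conj(F_k(1/conj ζ))` for `ζ ≠ 0` (componentwise;
   induction on `k`, coefficients real; uses `n_k - m_k = n_{k-1}`).
2. On `|ζ| = 1`: `|G_k| = |F_k|` and `|F_k|² = (1+γ²)|F_{k-1}|²`: the cross term is
   `2γ Re⟨F_{k-1}, ζ^{m_k}JG_{k-1}⟩`, and with `G_{k-1} = ζ^{n_{k-1}} conj F_{k-1}` one has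
   `JG_{k-1} = ζ^{n_{k-1}}(-conj q, conj p)` which is orthogonal to `(p,q)` up to the phase:
   `p·(-q) + q·p = 0`. So `|F_k|² = r²(1+1/N)^k ∈ [r², e r²]` on `|ζ| = 1`, `k ≤ N`.
3. Maximum principle (`Complex.norm_le_of_forall_mem_frontier_norm_le` for the functions with values in
   `EuclideanSpace ℂ (Fin 2)`, or componentwise for `⟨F, a⟩` with unit vectors `a`): `|F_k|, |G_k| ≤ B := √e r` on
   `|ζ| ≤ 1`.
4. Derivatives on `|ζ| ≤ 1`: `|F_k'|, |G_k'| ≤ 2 n_k B` by induction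
   (`F_k' = F_{k-1}' + γ(m_k ζ^{m_k-1} JG_{k-1} + ζ^{m_k} JG'_{k-1})`, etc.; `Λ ≥ 4`).
5. Lower bound: for `e^{-5/n_k} ≤ |ζ| ≤ e^{-1/n_k}`, `1 ≤ k ≤ N`:
   * `|G_{k-1}(ζ)| ≥ r - 2n_{k-1}B(1-|ζ|) ≥ r - 10 B n_{k-1}/n_k ≥ 3r/4` (compare with `ζ/|ζ|`);
   * `|F_k'(ζ)| ≥ γ(m_k|ζ|^{m_k-1}·3r/4 - 2n_{k-1}B) - 2n_{k-1}B ≥ γ n_k e^{-5} r/2` (`Λ ≥ 10⁵ N`);
   * for `m > k`: `|(γζ^{m_m}JG_{m-1})'| ≤ γ·2n_m B |ζ|^{m_m-1} ≤ 2γ n_m B e^{-n_m/(2n_k)}` and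
     `x e^{-x/2} ≤ 8/x` with `x = n_m/n_k ≥ Λ^{m-k}`, so the sum over `m > k` is `≤ 32 γ B n_k/Λ`;
   hence `|F_N'(ζ)| ≥ γ n_k e^{-5} r/4`, i.e. `|F_N'|² ≥ c n_k²/N` with `c = (e^{-5}/16)²`.
6. `|F_N(ζ)| = |ζ|^{n_N}|G_N(1/conj ζ)| → ∞` as `|ζ| → ∞` because `G_N(0) = γJF_{N-1}(0) = γ(0, r) ≠ 0`
   (`F_k(0) = (r,0)` for all `k`, `m_k ≥ 1`).
The result: `f = F_N`, `ν_i = n_{N-i}` for `i < N`; `ν_i/ν_{i+1} = Λ ≥ 8` for `i+1 < N`.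
`|f|² ≤ e r² ≤ 1/4` on the closed unit disc.
(This file: rs_deriv, rs_lower.)
-/

set_option autoImplicit false

noncomputable section

namespace Pool.Agent.H50.CS

open Complex Metric Set Filter Topology
open scoped ComplexConjugate


/-- norm of a pair -/
def nn (a : ℂ × ℂ) : ℝ := Real.sqrt (nsq a)

/-- the rotation `J(a,b) = (-b,a)` -/
def JJ (a : ℂ × ℂ) : ℂ × ℂ := (-a.2, a.1)

theorem nsq_nonneg (a : ℂ × ℂ) : 0 ≤ nsq a := by unfold nsq; positivity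

theorem nn_nonneg (a : ℂ × ℂ) : 0 ≤ nn a := Real.sqrt_nonneg _

theorem nn_sq (a : ℂ × ℂ) : nn a ^ 2 = nsq a := Real.sq_sqrt (nsq_nonneg a)

theorem nn_eq (a : ℂ × ℂ) : nn a = ‖(WithLp.toLp 2 a : WithLp 2 (ℂ × ℂ))‖ := by
  rw [WithLp.prod_norm_eq_of_L2]
  rfl

theorem nn_add (a b : ℂ × ℂ) : nn (a + b) ≤ nn a + nn b := by
  rw [nn_eq, nn_eq, nn_eq, WithLp.toLp_add]
  exact norm_add_le _ _

theorem nn_smul (c : ℂ) (a : ℂ × ℂ) : nn (c • a) = ‖c‖ * nn a := by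
  rw [nn_eq, nn_eq, WithLp.toLp_smul]
  exact norm_smul _ _

theorem nn_neg (a : ℂ × ℂ) : nn (-a) = nn a := by
  unfold nn nsq
  simp

theorem nn_sub_ge (a b : ℂ × ℂ) : nn a - nn b ≤ nn (a + b) := by
  have h := nn_add (a + b) (-b)
  rw [nn_neg] at h
  have h2 : a + b + -b = a := by abel
  rw [h2] at h
  linarith

theorem nn_JJ (a : ℂ × ℂ) : nn (JJ a) = nn a := by
  unfold nn nsq JJ
  simp only [norm_neg]
  rw [add_comm]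

/-- derivative of the first pair -/
def dF (γ : ℝ) (Λ k : ℕ) (ζ : ℂ) : ℂ × ℂ :=
  (deriv (fun z => (rs γ Λ k z).1.1) ζ, deriv (fun z => (rs γ Λ k z).1.2) ζ)

/-- derivative of the second pair -/
def dG (γ : ℝ) (Λ k : ℕ) (ζ : ℂ) : ℂ × ℂ :=
  (deriv (fun z => (rs γ Λ k z).2.1) ζ, deriv (fun z => (rs γ Λ k z).2.2) ζ)

theorem deriv_cmul_pow (c : ℂ) (m : ℕ) {g : ℂ → ℂ} (hg : Differentiable ℂ g) (ζ : ℂ) :
    HasDerivAt (fun z => c * z ^ m * g z) (c * (m * ζ ^ (m - 1)) * g ζ + c * ζ ^ m * deriv g ζ) ζ := by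
  have h1 : HasDerivAt (fun z : ℂ => c * z ^ m) (c * (m * ζ ^ (m - 1))) ζ :=
    (hasDerivAt_pow m ζ).const_mul c
  exact h1.mul (hg ζ).hasDerivAt

theorem deriv_pow_mul' (m : ℕ) {g : ℂ → ℂ} (hg : Differentiable ℂ g) (ζ : ℂ) :
    HasDerivAt (fun z => z ^ m * g z) ((m * ζ ^ (m - 1)) * g ζ + ζ ^ m * deriv g ζ) ζ := by
  exact (hasDerivAt_pow m ζ).mul (hg ζ).hasDerivAt

theorem dF_succ (γ : ℝ) (Λ k : ℕ) (ζ : ℂ) :
    dF γ Λ (k + 1) ζ = dF γ Λ k ζ + ((γ : ℂ) * (rsm Λ k * ζ ^ (rsm Λ k - 1))) • JJ (rs γ Λ k ζ).2 +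
      ((γ : ℂ) * ζ ^ rsm Λ k) • JJ (dG γ Λ k ζ) := by
  obtain ⟨h1, h2, h3, h4⟩ := rs_differentiable γ Λ k
  have e1 : HasDerivAt (fun z => (rs γ Λ (k + 1) z).1.1)
      (deriv (fun z => (rs γ Λ k z).1.1) ζ -
        ((γ : ℂ) * (rsm Λ k * ζ ^ (rsm Λ k - 1)) * (rs γ Λ k ζ).2.2 +
          (γ : ℂ) * ζ ^ rsm Λ k * deriv (fun z => (rs γ Λ k z).2.2) ζ)) ζ := by
    have := (h1 ζ).hasDerivAt.sub (deriv_cmul_pow (γ : ℂ) (rsm Λ k) h4 ζ)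
    exact this
  have e2 : HasDerivAt (fun z => (rs γ Λ (k + 1) z).1.2)
      (deriv (fun z => (rs γ Λ k z).1.2) ζ +
        ((γ : ℂ) * (rsm Λ k * ζ ^ (rsm Λ k - 1)) * (rs γ Λ k ζ).2.1 +
          (γ : ℂ) * ζ ^ rsm Λ k * deriv (fun z => (rs γ Λ k z).2.1) ζ)) ζ := by
    have := (h2 ζ).hasDerivAt.add (deriv_cmul_pow (γ : ℂ) (rsm Λ k) h3 ζ)
    exact this
  unfold dF dG JJ
  rw [e1.deriv, e2.deriv]
  ext <;> simp <;> ring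

theorem dG_succ (γ : ℝ) (Λ k : ℕ) (ζ : ℂ) :
    dG γ Λ (k + 1) ζ = ((rsm Λ k : ℂ) * ζ ^ (rsm Λ k - 1)) • (rs γ Λ k ζ).2 +
      (ζ ^ rsm Λ k) • dG γ Λ k ζ + (γ : ℂ) • JJ (dF γ Λ k ζ) := by
  obtain ⟨h1, h2, h3, h4⟩ := rs_differentiable γ Λ k
  have e1 : HasDerivAt (fun z => (rs γ Λ (k + 1) z).2.1)
      (((rsm Λ k * ζ ^ (rsm Λ k - 1)) * (rs γ Λ k ζ).2.1 +
          ζ ^ rsm Λ k * deriv (fun z => (rs γ Λ k z).2.1) ζ) -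
        (γ : ℂ) * deriv (fun z => (rs γ Λ k z).1.2) ζ) ζ := by
    have := (deriv_pow_mul' (rsm Λ k) h3 ζ).sub ((h2 ζ).hasDerivAt.const_mul (γ : ℂ))
    exact this
  have e2 : HasDerivAt (fun z => (rs γ Λ (k + 1) z).2.2)
      (((rsm Λ k * ζ ^ (rsm Λ k - 1)) * (rs γ Λ k ζ).2.2 +
          ζ ^ rsm Λ k * deriv (fun z => (rs γ Λ k z).2.2) ζ) +
        (γ : ℂ) * deriv (fun z => (rs γ Λ k z).1.1) ζ) ζ := by
    have := (deriv_pow_mul' (rsm Λ k) h4 ζ).add ((h1 ζ).hasDerivAt.const_mul (γ : ℂ))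
    exact this
  unfold dF dG JJ
  rw [e1.deriv, e2.deriv]
  ext <;> simp <;> ring

/-- the sup bound `B = √(e/16)` -/
def BB : ℝ := Real.sqrt (Real.exp 1 / 16)

theorem BB_pos : 0 < BB := Real.sqrt_pos.2 (by positivity)

theorem BB_le : BB ≤ 1 / 2 := by
  unfold BB
  rw [Real.sqrt_le_left (by norm_num)]
  have := Real.exp_one_lt_d9
  norm_num at this ⊢
  linarith

theorem gam_le {N : ℕ} (hN : 1 ≤ N) : (1 / Real.sqrt N) ≤ 1 := by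
  have : (1 : ℝ) ≤ Real.sqrt N := by
    rw [Real.one_le_sqrt]
    exact_mod_cast hN
  rw [div_le_one (by linarith)]
  exact this

theorem gam_pos {N : ℕ} (hN : 1 ≤ N) : 0 < (1 / Real.sqrt N) := by
  have : 0 < Real.sqrt N := Real.sqrt_pos.2 (by exact_mod_cast hN)
  positivity

theorem nnG_le {N : ℕ} (hN : 1 ≤ N) {Λ : ℕ} (hΛ : 2 ≤ Λ) {k : ℕ} (hk : k ≤ N) {ζ : ℂ}
    (hζ : ‖ζ‖ ≤ 1) : nn (rs (1 / Real.sqrt N) Λ k ζ).2 ≤ BB :=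
  Real.sqrt_le_sqrt (rs_disc hN hΛ hk hζ).2

theorem rs2n_succ (Λ k : ℕ) : rsn Λ (k + 1) = Λ ^ (k + 1) := by
  simp [rsn]

theorem rsm_add {Λ : ℕ} (hΛ : 1 ≤ Λ) (k : ℕ) : rsm Λ k + rsn Λ k = rsn Λ (k + 1) := by
  rw [rs2n_succ]
  unfold rsm rsn
  split_ifs with h
  · subst h; simp
  · have : Λ ^ k ≤ Λ ^ (k + 1) := Nat.pow_le_pow_right hΛ (Nat.le_succ k)
    omega

theorem rsn_le (Λ k : ℕ) : (Λ : ℝ) * rsn Λ k ≤ rsn Λ (k + 1) := by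
  rw [rs2n_succ]
  unfold rsn
  split_ifs with h
  · simp
  · push_cast
    rw [pow_succ]
    linarith [mul_comm (Λ : ℝ) ((Λ : ℝ) ^ k)]

theorem deriv_bounds {N : ℕ} (hN : 1 ≤ N) {Λ : ℕ} (hΛ : 4 ≤ Λ) {ζ : ℂ} (hζ : ‖ζ‖ ≤ 1) (k : ℕ) :
    k ≤ N → nn (dF (1 / Real.sqrt N) Λ k ζ) ≤ 2 * rsn Λ k * BB ∧
      nn (dG (1 / Real.sqrt N) Λ k ζ) ≤ 2 * rsn Λ k * BB := by
  induction k with
  | zero =>
    intro _
    have h1 : dF (1 / Real.sqrt N) Λ 0 ζ = 0 := by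
      simp [dF, rs]
    have h2 : dG (1 / Real.sqrt N) Λ 0 ζ = 0 := by
      simp [dG, rs]
    rw [h1, h2]
    simp [nn, nsq, rsn]
  | succ k ih =>
    intro hk
    obtain ⟨i1, i2⟩ := ih (by omega)
    have hG := nnG_le hN (by omega : 2 ≤ Λ) (by omega : k ≤ N) hζ
    have hG0 := nn_nonneg (rs (1 / Real.sqrt N) Λ k ζ).2
    set γ : ℝ := 1 / Real.sqrt N with hγ
    have hγ1 : γ ≤ 1 := gam_le hN
    have hγ0 : 0 < γ := gam_pos hN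
    have hB := BB_pos
    have hnγ : ‖(γ : ℂ)‖ = γ := by
      rw [Complex.norm_real, Real.norm_of_nonneg hγ0.le]
    have hpow : ∀ m : ℕ, ‖ζ ^ m‖ ≤ 1 := by
      intro m
      rw [norm_pow]
      exact pow_le_one₀ (norm_nonneg _) hζ
    have hadd : (rsm Λ k : ℝ) + rsn Λ k = rsn Λ (k + 1) := by
      exact_mod_cast rsm_add (by omega : 1 ≤ Λ) k
    have hle : (4 : ℝ) * rsn Λ k ≤ rsn Λ (k + 1) := by
      have := rsn_le Λ k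
      have h4 : (4 : ℝ) ≤ Λ := by exact_mod_cast hΛ
      have h0 : (0 : ℝ) ≤ rsn Λ k := by positivity
      nlinarith
    have hn0 : (0 : ℝ) ≤ rsn Λ k := by positivity
    have hm0 : (0 : ℝ) ≤ rsm Λ k := by positivity
    have hmn : ‖((rsm Λ k : ℂ) * ζ ^ (rsm Λ k - 1))‖ ≤ rsm Λ k := by
      rw [norm_mul, Complex.norm_natCast]
      calc (rsm Λ k : ℝ) * ‖ζ ^ (rsm Λ k - 1)‖ ≤ rsm Λ k * 1 :=
            mul_le_mul_of_nonneg_left (hpow _) hm0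
        _ = rsm Λ k := mul_one _
    have hB2 := BB_pos
    have hd0 := nn_nonneg (dG γ Λ k ζ)
    have hd1 := nn_nonneg (dF γ Λ k ζ)
    constructor
    · rw [dF_succ]
      have t1 : nn (((γ : ℂ) * (rsm Λ k * ζ ^ (rsm Λ k - 1))) • JJ (rs γ Λ k ζ).2) ≤
          rsm Λ k * BB := by
        rw [nn_smul, nn_JJ, norm_mul, hnγ]
        have : γ * ‖((rsm Λ k : ℂ) * ζ ^ (rsm Λ k - 1))‖ ≤ 1 * rsm Λ k :=
          mul_le_mul hγ1 hmn (norm_nonneg _) (by norm_num)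
        rw [one_mul] at this
        exact mul_le_mul this hG hG0 hm0
      have t2 : nn (((γ : ℂ) * ζ ^ rsm Λ k) • JJ (dG γ Λ k ζ)) ≤ 2 * rsn Λ k * BB := by
        rw [nn_smul, nn_JJ, norm_mul, hnγ]
        have : γ * ‖ζ ^ rsm Λ k‖ ≤ 1 * 1 :=
          mul_le_mul hγ1 (hpow _) (norm_nonneg _) (by norm_num)
        calc γ * ‖ζ ^ rsm Λ k‖ * nn (dG γ Λ k ζ) ≤ 1 * nn (dG γ Λ k ζ) :=
              mul_le_mul_of_nonneg_right (by linarith) hd0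
          _ ≤ _ := by linarith
      have t3 := nn_add (dF γ Λ k ζ + ((γ : ℂ) * (rsm Λ k * ζ ^ (rsm Λ k - 1))) • JJ (rs γ Λ k ζ).2)
        (((γ : ℂ) * ζ ^ rsm Λ k) • JJ (dG γ Λ k ζ))
      have t4 := nn_add (dF γ Λ k ζ)
        (((γ : ℂ) * (rsm Λ k * ζ ^ (rsm Λ k - 1))) • JJ (rs γ Λ k ζ).2)
      nlinarith
    · rw [dG_succ]
      have t1 : nn (((rsm Λ k : ℂ) * ζ ^ (rsm Λ k - 1)) • (rs γ Λ k ζ).2) ≤ rsm Λ k * BB := by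
        rw [nn_smul]
        exact mul_le_mul hmn hG hG0 hm0
      have t2 : nn ((ζ ^ rsm Λ k) • dG γ Λ k ζ) ≤ 2 * rsn Λ k * BB := by
        rw [nn_smul]
        calc ‖ζ ^ rsm Λ k‖ * nn (dG γ Λ k ζ) ≤ 1 * nn (dG γ Λ k ζ) :=
              mul_le_mul_of_nonneg_right (hpow _) hd0
          _ ≤ _ := by linarith
      have t2' : nn ((γ : ℂ) • JJ (dF γ Λ k ζ)) ≤ 2 * rsn Λ k * BB := by
        rw [nn_smul, nn_JJ, hnγ]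
        calc γ * nn (dF γ Λ k ζ) ≤ 1 * nn (dF γ Λ k ζ) :=
              mul_le_mul_of_nonneg_right hγ1 hd1
          _ ≤ _ := by linarith
      have t3 := nn_add (((rsm Λ k : ℂ) * ζ ^ (rsm Λ k - 1)) • (rs γ Λ k ζ).2 +
        (ζ ^ rsm Λ k) • dG γ Λ k ζ) ((γ : ℂ) • JJ (dF γ Λ k ζ))
      have t4 := nn_add (((rsm Λ k : ℂ) * ζ ^ (rsm Λ k - 1)) • (rs γ Λ k ζ).2)
        ((ζ ^ rsm Λ k) • dG γ Λ k ζ)
      nlinarith

/-- step 4 -/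
theorem rs_deriv {N : ℕ} (hN : 1 ≤ N) {Λ : ℕ} (hΛ : 4 ≤ Λ) {k : ℕ} (hk : k ≤ N) {ζ : ℂ}
    (hζ : ‖ζ‖ ≤ 1) :
    Real.sqrt (nsq (deriv (fun z => (rs (1 / Real.sqrt N) Λ k z).1.1) ζ,
      deriv (fun z => (rs (1 / Real.sqrt N) Λ k z).1.2) ζ)) ≤
        2 * rsn Λ k * Real.sqrt (Real.exp 1 / 16) ∧
    Real.sqrt (nsq (deriv (fun z => (rs (1 / Real.sqrt N) Λ k z).2.1) ζ,
      deriv (fun z => (rs (1 / Real.sqrt N) Λ k z).2.2) ζ)) ≤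
        2 * rsn Λ k * Real.sqrt (Real.exp 1 / 16) :=
  deriv_bounds hN hΛ hζ k hk

/-- the second pair is Lipschitz on the disc -/
theorem nnG_lip {N : ℕ} (hN : 1 ≤ N) {Λ : ℕ} (hΛ : 4 ≤ Λ) {k : ℕ} (hk : k ≤ N) {ζ ξ : ℂ}
    (hζ : ‖ζ‖ ≤ 1) (hξ : ‖ξ‖ ≤ 1) :
    nn (rs (1 / Real.sqrt N) Λ k ξ).2 - nn (rs (1 / Real.sqrt N) Λ k ζ).2 ≤
      2 * rsn Λ k * BB * ‖ξ - ζ‖ := by
  set γ : ℝ := 1 / Real.sqrt N with hγ
  obtain ⟨h1, h2, h3, h4⟩ := rs_differentiable γ Λ k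
  have hder : ∀ z ∈ closedBall (0 : ℂ) 1, HasDerivWithinAt
      (fun z => (WithLp.toLp 2 (rs γ Λ k z).2 : WithLp 2 (ℂ × ℂ)))
      (WithLp.toLp 2 (dG γ Λ k z)) (closedBall (0 : ℂ) 1) z := by
    intro z _
    have a1 : HasDerivAt (fun z => ((rs γ Λ k z).2.1, (rs γ Λ k z).2.2)) (dG γ Λ k z) z :=
      (h3 z).hasDerivAt.prodMk (h4 z).hasDerivAt
    have a2 := ((WithLp.prodContinuousLinearEquiv 2 ℂ ℂ ℂ).symm : ℂ × ℂ →L[ℂ] WithLp 2 (ℂ × ℂ)).hasFDerivAt.comp_hasDerivAt z a1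
    exact a2.hasDerivWithinAt
  have hb : ∀ z ∈ closedBall (0 : ℂ) 1,
      ‖(WithLp.toLp 2 (dG γ Λ k z) : WithLp 2 (ℂ × ℂ))‖ ≤ 2 * rsn Λ k * BB := by
    intro z hz
    rw [← nn_eq]
    exact (deriv_bounds hN hΛ (by simpa using hz) k hk).2
  have := (convex_closedBall (0 : ℂ) 1).norm_image_sub_le_of_norm_hasDerivWithin_le hder hb
    (by simpa using hζ : ζ ∈ closedBall (0 : ℂ) 1) (by simpa using hξ : ξ ∈ closedBall (0 : ℂ) 1)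
  rw [nn_eq, nn_eq]
  exact (norm_sub_norm_le _ _).trans this

/-- on the unit circle the second pair has norm at least `1/4` -/
theorem nnG_circle (γ : ℝ) {Λ : ℕ} (hΛ : 2 ≤ Λ) (k : ℕ) {ζ : ℂ} (hζ : ‖ζ‖ = 1) :
    1 / 4 ≤ nn (rs γ Λ k ζ).2 := by
  unfold nn
  rw [(rs_circle γ hΛ k hζ).2]
  apply Real.le_sqrt_of_sq_le
  have : (1 : ℝ) ≤ (1 + γ ^ 2) ^ k := one_le_pow₀ (by nlinarith [sq_nonneg γ])
  nlinarith

theorem xexp (x : ℝ) (hx : 0 < x) : x * Real.exp (-(x / 2)) ≤ 8 / x := by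
  have h := Real.quadratic_le_exp_of_nonneg (by positivity : (0 : ℝ) ≤ x / 2)
  have h1 : x ^ 2 / 8 ≤ Real.exp (x / 2) := by nlinarith
  rw [Real.exp_neg, le_div_iff₀ hx, ← div_eq_mul_inv, div_mul_eq_mul_div, div_le_iff₀ (Real.exp_pos _)]
  nlinarith


theorem exp5_lower : (1 : ℝ) / 149 ≤ Real.exp (-5) := by
  have h : Real.exp 5 ≤ 149 := by
    have h1 : Real.exp 5 = Real.exp 1 ^ 5 := by
      rw [← Real.exp_nat_mul]; norm_num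
    rw [h1]
    have h2 := Real.exp_one_lt_d9
    have h3 : Real.exp 1 ^ 5 ≤ (2.7182818286 : ℝ) ^ 5 :=
      pow_le_pow_left₀ (Real.exp_pos 1).le h2.le 5
    refine h3.trans ?_
    norm_num
  rw [Real.exp_neg, one_div]
  exact inv_anti₀ (Real.exp_pos 5) h

/-- hypotheses on the parameters and consequences for `ζ` -/
theorem zeta_facts {Λ : ℕ} (hΛ : 4 ≤ Λ) (j : ℕ) {ζ : ℂ}
    (h1 : Real.exp (-5 / (Λ : ℝ) ^ (j + 1)) ≤ ‖ζ‖) (h2 : ‖ζ‖ ≤ Real.exp (-1 / (Λ : ℝ) ^ (j + 1))) :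
    ‖ζ‖ ≤ 1 ∧ 0 < ‖ζ‖ ∧ 1 - ‖ζ‖ ≤ 5 / (Λ : ℝ) ^ (j + 1) ∧
      Real.exp (-5) ≤ ‖ζ‖ ^ (Λ ^ (j + 1)) := by
  have hn : (0 : ℝ) < (Λ : ℝ) ^ (j + 1) := by
    have : (0 : ℝ) < Λ := by exact_mod_cast (by omega : 0 < Λ)
    positivity
  refine ⟨?_, ?_, ?_, ?_⟩
  · refine h2.trans ?_
    rw [Real.exp_le_one_iff]
    exact div_nonpos_of_nonpos_of_nonneg (by norm_num) hn.le
  · exact lt_of_lt_of_le (Real.exp_pos _) h1
  · have := Real.add_one_le_exp (-5 / (Λ : ℝ) ^ (j + 1))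
    have h3 : -5 / (Λ : ℝ) ^ (j + 1) = -(5 / (Λ : ℝ) ^ (j + 1)) := by ring
    rw [h3] at this h1
    linarith
  · have h4 : Real.exp (-5) = Real.exp (-5 / (Λ : ℝ) ^ (j + 1)) ^ (Λ ^ (j + 1)) := by
      rw [← Real.exp_nat_mul]
      congr 1
      push_cast
      field_simp
    rw [h4]
    exact pow_le_pow_left₀ (Real.exp_pos _).le h1 _

theorem rsn_le_div {Λ : ℕ} (hΛ : 4 ≤ Λ) (j : ℕ) :
    (rsn Λ j : ℝ) ≤ (Λ : ℝ) ^ (j + 1) / Λ := by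
  have h := rsn_le Λ j
  have hp : (0 : ℝ) < Λ := by exact_mod_cast (by omega : 0 < Λ)
  rw [rs2n_succ] at h
  rw [le_div_iff₀ hp]
  push_cast at h
  linarith [mul_comm (Λ : ℝ) (rsn Λ j)]

theorem rsm_ge {Λ : ℕ} (hΛ : 4 ≤ Λ) (j : ℕ) : (Λ : ℝ) ^ (j + 1) / 2 ≤ rsm Λ j := by
  have h := rsm_add (by omega : 1 ≤ Λ) j
  have h' : (rsm Λ j : ℝ) + rsn Λ j = (Λ : ℝ) ^ (j + 1) := by
    rw [rs2n_succ] at h
    exact_mod_cast h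
  have h2 := rsn_le_div hΛ j
  have hp : (4 : ℝ) ≤ Λ := by exact_mod_cast hΛ
  have h3 : (Λ : ℝ) ^ (j + 1) / Λ ≤ (Λ : ℝ) ^ (j + 1) / 2 :=
    div_le_div_of_nonneg_left (by positivity) (by norm_num) (by linarith)
  linarith

/-- the value at level `j+1` -/
theorem lower_start {N : ℕ} (hN : 1 ≤ N) {Λ : ℕ} (hΛ : 100000 * N ≤ Λ) {j : ℕ} (hj : j + 1 ≤ N)
    {ζ : ℂ} (h1 : Real.exp (-5 / (Λ : ℝ) ^ (j + 1)) ≤ ‖ζ‖)
    (h2 : ‖ζ‖ ≤ Real.exp (-1 / (Λ : ℝ) ^ (j + 1))) :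
    1 / Real.sqrt N * (Λ : ℝ) ^ (j + 1) * (Real.exp (-5) / 16) ≤
      nn (dF (1 / Real.sqrt N) Λ (j + 1) ζ) := by
  have hΛ4 : 4 ≤ Λ := by omega
  obtain ⟨z1, z0, z2, z3⟩ := zeta_facts hΛ4 j h1 h2
  have hγ0 : 0 < (1 / Real.sqrt N) := gam_pos hN
  have hγ1 : (1 / Real.sqrt N) ≤ 1 := gam_le hN
  obtain ⟨d1, d2⟩ := deriv_bounds hN hΛ4 z1 j (by omega)
  have hGj := nnG_le hN (by omega : 2 ≤ Λ) (by omega : j ≤ N) z1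
  set γ : ℝ := 1 / Real.sqrt N with hγ
  set n : ℝ := (Λ : ℝ) ^ (j + 1) with hn
  have hΛr : (100000 : ℝ) * N ≤ Λ := by exact_mod_cast hΛ
  have hNr : (1 : ℝ) ≤ N := by exact_mod_cast hN
  have hΛp : (0 : ℝ) < Λ := by linarith
  have hnp : 0 < n := by positivity
  have hnj : (rsn Λ j : ℝ) ≤ n / Λ := rsn_le_div hΛ4 j
  have hn0 : (0 : ℝ) ≤ rsn Λ j := by positivity
  have hB := BB_pos
  have hB2 := BB_le
  have hE := exp5_lower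
  have hE1 : Real.exp (-5) ≤ 1 := by
    rw [Real.exp_le_one_iff]; norm_num
  set E : ℝ := Real.exp (-5) with hEdef
  -- gamma Λ ≥ 10^5
  have hγΛ : 100000 ≤ γ * Λ := by
    have hs : Real.sqrt N ≤ N := by
      rw [Real.sqrt_le_left (by linarith)]
      nlinarith
    have hs0 : 0 < Real.sqrt N := Real.sqrt_pos.2 (by linarith)
    rw [hγ, one_div, ← div_eq_inv_mul, le_div_iff₀ hs0]
    nlinarith
  -- lower bound of G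
  have hG : 3 / 16 ≤ nn (rs γ Λ j ζ).2 := by
    have hξ : ‖ζ / (‖ζ‖ : ℂ)‖ = 1 := by
      rw [norm_div, Complex.norm_real, norm_norm, div_self z0.ne']
    have hc := nnG_circle γ (by omega : 2 ≤ Λ) j hξ
    have hl := nnG_lip hN hΛ4 (by omega : j ≤ N) z1 hξ.le
    have hd : ‖ζ / (‖ζ‖ : ℂ) - ζ‖ = 1 - ‖ζ‖ := by
      have : ζ / (‖ζ‖ : ℂ) - ζ = (ζ / (‖ζ‖ : ℂ)) * ((1 - ‖ζ‖ : ℝ) : ℂ) := by
        have hz : (‖ζ‖ : ℂ) ≠ 0 := by exact_mod_cast z0.ne'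
        field_simp
        push_cast
        ring
      rw [this, norm_mul, hξ, one_mul, Complex.norm_real, Real.norm_of_nonneg (by linarith)]
    rw [hd] at hl
    have hb : 2 * (rsn Λ j : ℝ) * BB * (1 - ‖ζ‖) ≤ 1 / 16 := by
      have e1 : 2 * (rsn Λ j : ℝ) * BB ≤ n / Λ := by nlinarith
      have e2 : 2 * (rsn Λ j : ℝ) * BB * (1 - ‖ζ‖) ≤ n / Λ * (5 / n) :=
        mul_le_mul e1 z2 (by linarith) (by positivity)
      have e3 : n / Λ * (5 / n) = 5 / Λ := by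
        field_simp
      rw [e3] at e2
      refine e2.trans ?_
      rw [div_le_iff₀ hΛp]
      nlinarith
    linarith
  -- lower bound of the power
  have hm := rsm_ge hΛ4 j
  have hmle : rsm Λ j - 1 ≤ Λ ^ (j + 1) := by
    have h := rsm_add (by omega : 1 ≤ Λ) j
    rw [rs2n_succ] at h
    omega
  have hp1 : E ≤ ‖ζ‖ ^ (rsm Λ j - 1) :=
    z3.trans (pow_le_pow_of_le_one z0.le z1 hmle)
  rw [dF_succ]
  have hnγ : ‖(γ : ℂ)‖ = γ := by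
    rw [Complex.norm_real, Real.norm_of_nonneg hγ0.le]
  have t1 : γ * (n / 2 * E) * (3 / 16) ≤
      nn (((γ : ℂ) * (rsm Λ j * ζ ^ (rsm Λ j - 1))) • JJ (rs γ Λ j ζ).2) := by
    rw [nn_smul, nn_JJ, norm_mul, norm_mul, hnγ, Complex.norm_natCast, norm_pow]
    have e1 : n / 2 * E ≤ rsm Λ j * ‖ζ‖ ^ (rsm Λ j - 1) :=
      mul_le_mul hm hp1 (by positivity) (by positivity)
    have e2 : γ * (n / 2 * E) ≤ γ * (rsm Λ j * ‖ζ‖ ^ (rsm Λ j - 1)) :=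
      mul_le_mul_of_nonneg_left e1 hγ0.le
    exact mul_le_mul e2 hG (by norm_num) (by positivity)
  have t2 : nn (((γ : ℂ) * ζ ^ rsm Λ j) • JJ (dG γ Λ j ζ)) ≤ n / Λ := by
    rw [nn_smul, nn_JJ, norm_mul, hnγ, norm_pow]
    have e1 : γ * ‖ζ‖ ^ rsm Λ j ≤ 1 * 1 :=
      mul_le_mul hγ1 (pow_le_one₀ z0.le z1) (by positivity) (by norm_num)
    have e2 : 2 * (rsn Λ j : ℝ) * BB ≤ n / Λ := by nlinarith
    calc γ * ‖ζ‖ ^ rsm Λ j * nn (dG γ Λ j ζ) ≤ 1 * 1 * nn (dG γ Λ j ζ) :=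
          mul_le_mul_of_nonneg_right e1 (nn_nonneg _)
      _ ≤ n / Λ := by linarith
  have t3 : nn (dF γ Λ j ζ) ≤ n / Λ := by
    have e2 : 2 * (rsn Λ j : ℝ) * BB ≤ n / Λ := by nlinarith
    linarith
  have t4 := nn_sub_ge (((γ : ℂ) * (rsm Λ j * ζ ^ (rsm Λ j - 1))) • JJ (rs γ Λ j ζ).2)
    (dF γ Λ j ζ)
  have t5 := nn_sub_ge (((γ : ℂ) * (rsm Λ j * ζ ^ (rsm Λ j - 1))) • JJ (rs γ Λ j ζ).2 +
    dF γ Λ j ζ) (((γ : ℂ) * ζ ^ rsm Λ j) • JJ (dG γ Λ j ζ))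
  have t6 : ((γ : ℂ) * (rsm Λ j * ζ ^ (rsm Λ j - 1))) • JJ (rs γ Λ j ζ).2 + dF γ Λ j ζ =
      dF γ Λ j ζ + ((γ : ℂ) * (rsm Λ j * ζ ^ (rsm Λ j - 1))) • JJ (rs γ Λ j ζ).2 := add_comm _ _
  rw [t6] at t4 t5
  have t7 : 2 * (n / Λ) ≤ γ * n * (E / 32) := by
    rw [← mul_div_assoc, div_le_iff₀ hΛp]
    have : 2 * 32 ≤ γ * Λ * E := by nlinarith
    nlinarith
  nlinarith

/-- one step above -/
theorem lower_step {N : ℕ} (hN : 1 ≤ N) {Λ : ℕ} (hΛ : 100000 * N ≤ Λ) {j t : ℕ}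
    (hj : j + 1 + t + 1 ≤ N)
    {ζ : ℂ} (h1 : Real.exp (-5 / (Λ : ℝ) ^ (j + 1)) ≤ ‖ζ‖)
    (h2 : ‖ζ‖ ≤ Real.exp (-1 / (Λ : ℝ) ^ (j + 1))) :
    nn (dF (1 / Real.sqrt N) Λ (j + 1 + t) ζ) -
      1 / Real.sqrt N * (Λ : ℝ) ^ (j + 1) * (8 / (Λ : ℝ) ^ (t + 1)) ≤
      nn (dF (1 / Real.sqrt N) Λ (j + 1 + t + 1) ζ) := by
  have hΛ4 : 4 ≤ Λ := by omega
  obtain ⟨z1, z0, z2, z3⟩ := zeta_facts hΛ4 j h1 h2
  have hγ0 : 0 < (1 / Real.sqrt N) := gam_pos hN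
  have hγ1 : (1 / Real.sqrt N) ≤ 1 := gam_le hN
  obtain ⟨d1, d2⟩ := deriv_bounds hN hΛ4 z1 (j + 1 + t) (by omega)
  have hGj := nnG_le hN (by omega : 2 ≤ Λ) (by omega : j + 1 + t ≤ N) z1
  set γ : ℝ := 1 / Real.sqrt N with hγ
  set n : ℝ := (Λ : ℝ) ^ (j + 1) with hn
  set i : ℕ := j + 1 + t with hi
  have hi1 : 1 ≤ i := by omega
  have hΛr : (100000 : ℝ) * N ≤ Λ := by exact_mod_cast hΛ
  have hNr : (1 : ℝ) ≤ N := by exact_mod_cast hN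
  have hΛp : (0 : ℝ) < Λ := by linarith
  have hnp : 0 < n := by positivity
  have hB := BB_pos
  have hB2 := BB_le
  have hX : (Λ : ℝ) ^ (i + 1) = n * (Λ : ℝ) ^ (t + 1) := by
    rw [hn, ← pow_add]
    congr 1
  set X : ℝ := (Λ : ℝ) ^ (t + 1) with hXdef
  have hXp : 0 < X := by positivity
  -- exponent
  have hmi : Λ ^ (i + 1) ≤ 2 * (rsm Λ i - 1) := by
    have h := rsm_add (by omega : 1 ≤ Λ) i
    rw [rs2n_succ] at h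
    have hr : rsn Λ i = Λ ^ i := by
      unfold rsn; rw [if_neg (by omega)]
    rw [hr] at h
    have h4 : 4 * Λ ^ i ≤ Λ ^ (i + 1) := by
      rw [pow_succ, mul_comm]
      exact Nat.mul_le_mul_left _ hΛ4
    have h5 : 1 ≤ Λ ^ i := Nat.one_le_pow _ _ (by omega)
    have h6 : 4 ≤ Λ ^ i := by
      calc 4 ≤ Λ := hΛ4
        _ = Λ ^ 1 := (pow_one _).symm
        _ ≤ Λ ^ i := Nat.pow_le_pow_right (by omega) hi1
    omega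
  have hpow : ‖ζ‖ ^ (rsm Λ i - 1) ≤ Real.exp (-(X / 2)) := by
    have e1 : ‖ζ‖ ^ (rsm Λ i - 1) ≤ Real.exp (-1 / n) ^ (rsm Λ i - 1) :=
      pow_le_pow_left₀ z0.le h2 _
    refine e1.trans ?_
    rw [← Real.exp_nat_mul]
    apply Real.exp_le_exp.2
    have e2 : n * X ≤ 2 * ((rsm Λ i - 1 : ℕ) : ℝ) := by
      rw [← hX]
      exact_mod_cast hmi
    rw [mul_div_assoc', div_le_iff₀ hnp]
    nlinarith
  have hadd : (rsm Λ i : ℝ) + rsn Λ i = n * X := by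
    have h := rsm_add (by omega : 1 ≤ Λ) i
    rw [rs2n_succ] at h
    rw [← hX]
    exact_mod_cast h
  have hn0 : (0 : ℝ) ≤ rsn Λ i := by positivity
  have hm0 : (0 : ℝ) ≤ rsm Λ i := by positivity
  have hnX : (rsn Λ i : ℝ) ≤ n * X := by linarith
  rw [dF_succ]
  have hnγ : ‖(γ : ℂ)‖ = γ := by
    rw [Complex.norm_real, Real.norm_of_nonneg hγ0.le]
  have t1 : nn (((γ : ℂ) * (rsm Λ i * ζ ^ (rsm Λ i - 1))) • JJ (rs γ Λ i ζ).2) ≤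
      γ * (rsm Λ i * Real.exp (-(X / 2))) * (1 / 2) := by
    rw [nn_smul, nn_JJ, norm_mul, norm_mul, hnγ, Complex.norm_natCast, norm_pow]
    have e1 : rsm Λ i * ‖ζ‖ ^ (rsm Λ i - 1) ≤ rsm Λ i * Real.exp (-(X / 2)) :=
      mul_le_mul_of_nonneg_left hpow hm0
    have e2 : γ * (rsm Λ i * ‖ζ‖ ^ (rsm Λ i - 1)) ≤ γ * (rsm Λ i * Real.exp (-(X / 2))) :=
      mul_le_mul_of_nonneg_left e1 hγ0.le
    exact mul_le_mul e2 (by linarith) (nn_nonneg _) (by positivity)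
  have t2 : nn (((γ : ℂ) * ζ ^ rsm Λ i) • JJ (dG γ Λ i ζ)) ≤
      γ * Real.exp (-(X / 2)) * (rsn Λ i) := by
    rw [nn_smul, nn_JJ, norm_mul, hnγ, norm_pow]
    have e0 : ‖ζ‖ ^ rsm Λ i ≤ Real.exp (-(X / 2)) :=
      (pow_le_pow_of_le_one z0.le z1 (Nat.sub_le _ _)).trans hpow
    have e1 : γ * ‖ζ‖ ^ rsm Λ i ≤ γ * Real.exp (-(X / 2)) :=
      mul_le_mul_of_nonneg_left e0 hγ0.le
    have e2 : nn (dG γ Λ i ζ) ≤ rsn Λ i := by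
      have : 2 * (rsn Λ i : ℝ) * BB ≤ rsn Λ i := by nlinarith
      linarith
    exact mul_le_mul e1 e2 (nn_nonneg _) (by positivity)
  have t3 : γ * (rsm Λ i * Real.exp (-(X / 2))) * (1 / 2) + γ * Real.exp (-(X / 2)) * (rsn Λ i) ≤
      γ * n * (8 / X) := by
    have e1 := xexp X hXp
    have e2 : γ * (rsm Λ i * Real.exp (-(X / 2))) * (1 / 2) + γ * Real.exp (-(X / 2)) * (rsn Λ i) ≤
        γ * Real.exp (-(X / 2)) * (n * X) := by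
      have e3 : (0 : ℝ) ≤ γ * Real.exp (-(X / 2)) := by positivity
      have e4 : (rsm Λ i : ℝ) * (1 / 2) + rsn Λ i ≤ n * X := by linarith
      calc γ * (rsm Λ i * Real.exp (-(X / 2))) * (1 / 2) + γ * Real.exp (-(X / 2)) * (rsn Λ i)
          = γ * Real.exp (-(X / 2)) * ((rsm Λ i : ℝ) * (1 / 2) + rsn Λ i) := by ring
        _ ≤ _ := mul_le_mul_of_nonneg_left e4 e3
    refine e2.trans ?_
    calc γ * Real.exp (-(X / 2)) * (n * X) = γ * n * (X * Real.exp (-(X / 2))) := by ring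
      _ ≤ γ * n * (8 / X) := mul_le_mul_of_nonneg_left e1 (by positivity)
  have t4 := nn_sub_ge (dF γ Λ i ζ)
    (((γ : ℂ) * (rsm Λ i * ζ ^ (rsm Λ i - 1))) • JJ (rs γ Λ i ζ).2)
  have t5 := nn_sub_ge (dF γ Λ i ζ + ((γ : ℂ) * (rsm Λ i * ζ ^ (rsm Λ i - 1))) •
    JJ (rs γ Λ i ζ).2) (((γ : ℂ) * ζ ^ rsm Λ i) • JJ (dG γ Λ i ζ))
  linarith

theorem lower_all {N : ℕ} (hN : 1 ≤ N) {Λ : ℕ} (hΛ : 100000 * N ≤ Λ) {j : ℕ}
    {ζ : ℂ} (h1 : Real.exp (-5 / (Λ : ℝ) ^ (j + 1)) ≤ ‖ζ‖)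
    (h2 : ‖ζ‖ ≤ Real.exp (-1 / (Λ : ℝ) ^ (j + 1))) (t : ℕ) : j + 1 + t ≤ N →
    1 / Real.sqrt N * (Λ : ℝ) ^ (j + 1) *
      (Real.exp (-5) / 16 - 16 / Λ * (1 - 1 / (Λ : ℝ) ^ t)) ≤
      nn (dF (1 / Real.sqrt N) Λ (j + 1 + t) ζ) := by
  induction t with
  | zero =>
    intro h
    have := lower_start hN hΛ (by omega : j + 1 ≤ N) h1 h2
    simpa using this
  | succ t ih =>
    intro h
    have i1 := ih (by omega)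
    have i2 := lower_step hN hΛ (by omega : j + 1 + t + 1 ≤ N) h1 h2
    have hγ0 : 0 < (1 / Real.sqrt N) := gam_pos hN
    have hΛr : (100000 : ℝ) * N ≤ Λ := by exact_mod_cast hΛ
    have hNr : (1 : ℝ) ≤ N := by exact_mod_cast hN
    have hΛp : (0 : ℝ) < Λ := by linarith
    set γ : ℝ := 1 / Real.sqrt N with hγ
    set n : ℝ := (Λ : ℝ) ^ (j + 1) with hn
    have hnp : 0 < n := by positivity
    have key : 8 / (Λ : ℝ) ^ (t + 1) ≤ 16 / Λ * (1 - 1 / (Λ : ℝ) ^ (t + 1)) -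
        16 / Λ * (1 - 1 / (Λ : ℝ) ^ t) := by
      have e1 : 16 / Λ * (1 - 1 / (Λ : ℝ) ^ (t + 1)) - 16 / Λ * (1 - 1 / (Λ : ℝ) ^ t) =
          16 / (Λ : ℝ) ^ (t + 1) * (1 - 1 / Λ) := by
        rw [pow_succ]
        field_simp
        ring
      rw [e1]
      have e2 : (1 : ℝ) / 2 ≤ 1 - 1 / Λ := by
        have : (1 : ℝ) / Λ ≤ 1 / 2 := by
          apply one_div_le_one_div_of_le <;> linarith
        linarith
      have e3 : 8 / (Λ : ℝ) ^ (t + 1) = 16 / (Λ : ℝ) ^ (t + 1) * (1 / 2) := by ring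
      rw [e3]
      exact mul_le_mul_of_nonneg_left e2 (by positivity)
    have key2 : γ * n * (8 / (Λ : ℝ) ^ (t + 1)) ≤ γ * n * (16 / Λ * (1 - 1 / (Λ : ℝ) ^ (t + 1)) -
        16 / Λ * (1 - 1 / (Λ : ℝ) ^ t)) := mul_le_mul_of_nonneg_left key (by positivity)
    have e4 : j + 1 + (t + 1) = j + 1 + t + 1 := by ring
    rw [e4]
    nlinarith

/-- step 5 -/
theorem rs_lower : ∃ c : ℝ, 0 < c ∧ ∀ N : ℕ, 1 ≤ N → ∃ Λ₀ : ℕ, ∀ Λ : ℕ, Λ₀ ≤ Λ →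
    ∀ k : ℕ, 1 ≤ k → k ≤ N → ∀ ζ : ℂ, Real.exp (-5 / (Λ : ℝ) ^ k) ≤ ‖ζ‖ →
      ‖ζ‖ ≤ Real.exp (-1 / (Λ : ℝ) ^ k) →
      c * ((Λ : ℝ) ^ k) ^ 2 / N ≤ nsq (deriv (fun z => (rs (1 / Real.sqrt N) Λ N z).1.1) ζ,
        deriv (fun z => (rs (1 / Real.sqrt N) Λ N z).1.2) ζ) := by
  refine ⟨Real.exp (-5) ^ 2 / 1024, by positivity, ?_⟩
  intro N hN
  refine ⟨100000 * N, ?_⟩
  intro Λ hΛ k hk1 hkN ζ h1 h2
  obtain ⟨j, rfl⟩ : ∃ j, k = j + 1 := ⟨k - 1, by omega⟩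
  obtain ⟨t, ht⟩ : ∃ t, N = j + 1 + t := ⟨N - (j + 1), by omega⟩
  have h := lower_all hN hΛ h1 h2 t (by omega)
  have ht' : j + 1 + t = N := ht.symm
  rw [ht'] at h
  have hγ0 : 0 < (1 / Real.sqrt N) := gam_pos hN
  have hΛr : (100000 : ℝ) * N ≤ Λ := by exact_mod_cast hΛ
  have hNr : (1 : ℝ) ≤ N := by exact_mod_cast hN
  have hΛp : (0 : ℝ) < Λ := by linarith
  have hγ2 : (1 / Real.sqrt N) ^ 2 = 1 / N := by
    rw [div_pow, Real.sq_sqrt (by linarith), one_pow]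
  set γ : ℝ := 1 / Real.sqrt N with hγ
  set n : ℝ := (Λ : ℝ) ^ (j + 1) with hn
  have hnp : 0 < n := by positivity
  have hE := exp5_lower
  have hE0 : 0 < Real.exp (-5) := Real.exp_pos _
  set E : ℝ := Real.exp (-5) with hEdef
  have e1 : 16 / (Λ : ℝ) * (1 - 1 / (Λ : ℝ) ^ t) ≤ E / 32 := by
    have e2 : (0 : ℝ) ≤ 1 / (Λ : ℝ) ^ t := by positivity
    have e3 : 16 / (Λ : ℝ) * (1 - 1 / (Λ : ℝ) ^ t) ≤ 16 / (Λ : ℝ) * 1 :=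
      mul_le_mul_of_nonneg_left (by linarith) (by positivity)
    have e4 : 16 / (Λ : ℝ) ≤ E / 32 := by
      rw [div_le_iff₀ hΛp]
      nlinarith
    linarith
  have e5 : γ * n * (E / 32) ≤ nn (dF γ Λ N ζ) := by
    refine le_trans ?_ h
    exact mul_le_mul_of_nonneg_left (by linarith) (by positivity)
  have e6 : (γ * n * (E / 32)) ^ 2 ≤ nn (dF γ Λ N ζ) ^ 2 :=
    pow_le_pow_left₀ (by positivity) e5 2
  rw [nn_sq] at e6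
  refine le_trans (le_of_eq ?_) e6
  have : (γ * n * (E / 32)) ^ 2 = γ ^ 2 * n ^ 2 * E ^ 2 / 1024 := by ring
  rw [this, hγ2]
  ring

end Pool.Agent.H50.CS
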