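import Pool.Agent.H50.CS.RS2

/-!
# CS-RS: bounded holomorphic discs in `ℂ²` with `|f'|² ≥ c ν²/N` at `N` separated scales

A Rudin-Shapiro type construction. Fix `N ≥ 1`, `γ = 1/√N`, `r = 1/4`, an integer `Λ ≥ 2` (large, depending on
`N`: `Λ ≥ 10⁶ N` is enough) and `n_k = Λ^k` for `k ≥ 1`, `n_0 = 0`, `m_k = n_k - n_{k-1}`. Define pairs of
polynomials `F_k = (p_k, q_k)`, `G_k = (P_k, Q_k)` by `F_0 = G_0 = (r, 0)` and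
`F_k = F_{k-1} + γ ζ^{m_k} J G_{k-1}`, `G_k = ζ^{m_k} G_{k-1} + γ J F_{k-1}`, `J(a,b) = (-b, a)`.

1. `F_k(ζ) = ζ^{n_k} conj(G_k(1/conj ζ))` and `G_k(ζ) = ζ^{n_k} conj(F_k(1/conj ζ))` for `ζ ≠ 0` (componentwise;
   induction on `k`, coefficients real; uses `n_k - m_k = n_{k-1}`).
2. On `|ζ| = 1`: `|G_k| = |F_k|` and `|F_k|² = (1+γ²)|F_{k-1}|²`: the cross term is
   `2γ Re⟨F_{k-1}, ζ^{m_k}JG_{k-1}⟩`, and with `G_{k-1} = ζ^{n_{k-1}} conj F_{k-1}` one has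
   `JG_{k-1} = ζ^{n_{k-1}}(-conj q, conj p)` which is orthogonal to `(p,q)` up to the phase:
   `p·(-q) + q·p = 0`. So `|F_k|² = r²(1+1/N)^k ∈ [r², e r²]` on `|ζ| = 1`, `k ≤ N`.
3. Maximum principle (`Complex.norm_le_of_forall_mem_frontier_norm_le` for the functions with values in
   `EuclideanSpace ℂ (Fin 2)`, or componentwise for `⟨F, a⟩` with unit vectors `a`): `|F_k|, |G_k| ≤ B := √e r` on
   `|ζ| ≤ 1`.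
4. Derivatives on `|ζ| ≤ 1`: `|F_k'|, |G_k'| ≤ 2 n_k B` by induction
   (`F_k' = F_{k-1}' + γ(m_k ζ^{m_k-1} JG_{k-1} + ζ^{m_k} JG'_{k-1})`, etc.; `Λ ≥ 4`).
5. Lower bound: for `e^{-5/n_k} ≤ |ζ| ≤ e^{-1/n_k}`, `1 ≤ k ≤ N`:
   * `|G_{k-1}(ζ)| ≥ r - 2n_{k-1}B(1-|ζ|) ≥ r - 10 B n_{k-1}/n_k ≥ 3r/4` (compare with `ζ/|ζ|`);
   * `|F_k'(ζ)| ≥ γ(m_k|ζ|^{m_k-1}·3r/4 - 2n_{k-1}B) - 2n_{k-1}B ≥ γ n_k e^{-5} r/2` (`Λ ≥ 10⁵ N`);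
   * for `m > k`: `|(γζ^{m_m}JG_{m-1})'| ≤ γ·2n_m B |ζ|^{m_m-1} ≤ 2γ n_m B e^{-n_m/(2n_k)}` and
     `x e^{-x/2} ≤ 8/x` with `x = n_m/n_k ≥ Λ^{m-k}`, so the sum over `m > k` is `≤ 32 γ B n_k/Λ`;
   hence `|F_N'(ζ)| ≥ γ n_k e^{-5} r/4`, i.e. `|F_N'|² ≥ c n_k²/N` with `c = (e^{-5}/16)²`.
6. `|F_N(ζ)| = |ζ|^{n_N}|G_N(1/conj ζ)| → ∞` as `|ζ| → ∞` because `G_N(0) = γJF_{N-1}(0) = γ(0, r) ≠ 0`
   (`F_k(0) = (r,0)` for all `k`, `m_k ≥ 1`).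
The result: `f = F_N`, `ν_i = n_{N-i}` for `i < N`; `ν_i/ν_{i+1} = Λ ≥ 8` for `i+1 < N`.
`|f|² ≤ e r² ≤ 1/4` on the closed unit disc.
(This file: rs_infty, rs_main.)
-/

set_option autoImplicit false

noncomputable section

namespace Pool.Agent.H50.CS

open Complex Metric Set Filter Topology
open scoped ComplexConjugate

/-- step 6 -/
theorem rs_infty {N : ℕ} (hN : 1 ≤ N) {Λ : ℕ} (hΛ : 2 ≤ Λ) :
    ∃ M : ℝ, ∀ ζ : ℂ, M ≤ ‖ζ‖ → 4 ≤ nsq (rs (1 / Real.sqrt N) Λ N ζ).1 := by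
  have hN0 : (0 : ℝ) < N := by exact_mod_cast hN
  set γ : ℝ := 1 / Real.sqrt N with hγ
  have hγ2 : γ ^ 2 = 1 / (N : ℝ) := by
    rw [hγ, div_pow, one_pow, Real.sq_sqrt hN0.le]
  obtain ⟨-, -, d3, d4⟩ := rs_differentiable γ Λ N
  set h : ℂ → ℝ := fun w => nsq (rs γ Λ N w).2 with hh
  have hcont : Continuous h := by
    simp only [hh, nsq]
    exact ((d3.continuous.norm).pow 2).add ((d4.continuous.norm).pow 2)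
  have h0 : h 0 = 1 / (16 * N) := by
    obtain ⟨m, rfl⟩ : ∃ m, N = m + 1 := ⟨N - 1, by omega⟩
    simp only [hh]
    rw [(rs_zero γ hΛ m).2]
    simp only [nsq, norm_zero, norm_div, Complex.norm_real]
    rw [div_pow, Real.norm_eq_abs, sq_abs, hγ2]
    have h4 : ‖(4 : ℂ)‖ = 4 := by simp
    rw [h4]
    field_simp
    norm_num
  have hpos : 1 / (32 * (N : ℝ)) < h 0 := by
    rw [h0]
    apply one_div_lt_one_div_of_lt <;> nlinarith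
  obtain ⟨δ, hδ, hball⟩ := Metric.eventually_nhds_iff.1
    (hcont.continuousAt.eventually (lt_mem_nhds hpos))
  refine ⟨max (1 / δ + 1) (128 * N), fun ζ hζ => ?_⟩
  have hζ1 : 1 / δ + 1 ≤ ‖ζ‖ := (le_max_left _ _).trans hζ
  have hζ2 : 128 * (N : ℝ) ≤ ‖ζ‖ := (le_max_right _ _).trans hζ
  have hδ' : 0 < 1 / δ := by positivity
  have hζge : 1 ≤ ‖ζ‖ := by linarith
  have hζpos : 0 < ‖ζ‖ := by linarith
  have hζ0 : ζ ≠ 0 := norm_pos_iff.1 hζpos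
  have hw : ‖(conj ζ)⁻¹‖ < δ := by
    rw [norm_inv, Complex.norm_conj, inv_lt_comm₀ hζpos hδ, ← one_div]
    linarith
  have hGw : 1 / (32 * (N : ℝ)) < h (conj ζ)⁻¹ := hball (by rwa [dist_zero_right])
  obtain ⟨e1, e2, -, -⟩ := rs_star γ hΛ N hζ0
  have hval : nsq (rs γ Λ N ζ).1 = (‖ζ‖ ^ rsn Λ N) ^ 2 * h (conj ζ)⁻¹ := by
    simp only [hh, nsq]
    rw [e1, e2, norm_mul, norm_mul, norm_pow, Complex.norm_conj, Complex.norm_conj]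
    ring
  have hn : rsn Λ N ≠ 0 := by
    unfold rsn
    rw [if_neg (by omega)]
    exact pow_ne_zero _ (by omega)
  have hp : ‖ζ‖ ≤ ‖ζ‖ ^ rsn Λ N := le_self_pow₀ hζge hn
  have hp2 : ‖ζ‖ ≤ (‖ζ‖ ^ rsn Λ N) ^ 2 := by nlinarith
  rw [hval]
  have h5 : 4 ≤ ‖ζ‖ * (1 / (32 * (N : ℝ))) := by
    rw [mul_one_div, le_div_iff₀ (by positivity)]
    linarith
  have h6 : (0 : ℝ) < 1 / (32 * (N : ℝ)) := by positivity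
  nlinarith [mul_le_mul hp2 hGw.le h6.le (by positivity)]

/-- the result of the construction -/
theorem rs_main : ∃ c : ℝ, 0 < c ∧ ∀ N : ℕ, 1 ≤ N → ∃ (ν : ℕ → ℝ) (f1 f2 : ℂ → ℂ) (M : ℝ),
    (∀ i, 1 ≤ ν i) ∧ (∀ i, i + 1 < N → 8 * ν (i + 1) ≤ ν i) ∧
    Differentiable ℂ f1 ∧ Differentiable ℂ f2 ∧ f1 0 = 1 / 4 ∧ f2 0 = 0 ∧
    (∀ ζ, ‖ζ‖ ≤ 1 → ‖f1 ζ‖ ^ 2 + ‖f2 ζ‖ ^ 2 ≤ 1 / 4) ∧
    (∀ i, i < N → ∀ ζ, Real.exp (-5 / ν i) ≤ ‖ζ‖ → ‖ζ‖ ≤ Real.exp (-1 / ν i) →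
      c * ν i ^ 2 / N ≤ ‖deriv f1 ζ‖ ^ 2 + ‖deriv f2 ζ‖ ^ 2) ∧
    (∀ ζ, M ≤ ‖ζ‖ → 4 ≤ ‖f1 ζ‖ ^ 2 + ‖f2 ζ‖ ^ 2) := by
  obtain ⟨c, hc, hlow⟩ := rs_lower
  refine ⟨c, hc, fun N hN => ?_⟩
  obtain ⟨Λ₀, hΛ₀⟩ := hlow N hN
  set Λ : ℕ := max Λ₀ 8 with hΛ
  have hΛ8 : 8 ≤ Λ := le_max_right _ _
  have hΛ2 : 2 ≤ Λ := by omega
  have hΛr : (8 : ℝ) ≤ (Λ : ℝ) := by exact_mod_cast hΛ8
  obtain ⟨M, hM⟩ := rs_infty hN hΛ2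
  obtain ⟨d1, d2, -, -⟩ := rs_differentiable (1 / Real.sqrt N) Λ N
  have hz := (rs_zero (1 / Real.sqrt N) hΛ2 N).1
  refine ⟨fun i => (Λ : ℝ) ^ (N - i), fun z => (rs (1 / Real.sqrt N) Λ N z).1.1,
    fun z => (rs (1 / Real.sqrt N) Λ N z).1.2, M, ?_, ?_, d1, d2, ?_, ?_, ?_, ?_, ?_⟩
  · intro i
    exact one_le_pow₀ (by linarith)
  · intro i hi
    have e : N - i = (N - (i + 1)) + 1 := by omega
    simp only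
    rw [e, pow_succ]
    have : 0 ≤ (Λ : ℝ) ^ (N - (i + 1)) := by positivity
    nlinarith
  · simp only
    rw [hz]
  · simp only
    rw [hz]
  · intro ζ hζ
    have h1 := (rs_disc hN hΛ2 le_rfl hζ).1
    unfold nsq at h1
    have he : Real.exp 1 < 2.7182818286 := Real.exp_one_lt_d9
    simp only
    linarith
  · intro i hi ζ h1 h2
    have h3 := hΛ₀ Λ (le_max_left _ _) (N - i) (by omega) (by omega) ζ h1 h2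
    unfold nsq at h3
    exact h3
  · intro ζ hζ
    have h1 := hM ζ hζ
    unfold nsq at h1
    exact h1

end Pool.Agent.H50.CS
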