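import Pool.Agent.H50.CS.OneVar2

/-!
# CS-RAD: the radial functions `β_i`, `u_i` of `ρ = log|ζ|`

Data: `N ≥ 1`, `ν : ℕ → ℝ` with `ν i ≥ 1` and `ν i ≥ 8 ν (i+1)` for `i + 1 < N` (`Scales N ν`).
`ss ν ρ = Sf(-ν₀ρ)/ν₀`: a smooth, nonincreasing, nonnegative function, `0` for `ρ ≥ 0`, and
`-ρ - 1/ν₀ ≤ ss ≤ -ρ` for `ρ ≤ 0`. `ss' = -sg(-ν₀ρ) ∈ [-1,0]`, `ss'' = ν₀ sg'(-ν₀ρ) ≥ 0`.
`vv 0 = 1`, `vv i = Vb(ν_i ss)` for `1 ≤ i < N`, `vv i = 0` for `i ≥ N`; `be i = vv i - vv (i+1)` (`β_i`), `uu i = Va(ν_i ss)`.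

* `be_nonneg`: `ν_{i+1} ≤ ν_i`, `Vb` monotone, `0 ≤ Vb ≤ 1` on `[0,∞)`. `sum_be`: telescoping.
* `be_left`: for `ρ ≤ -5`: `ss ≥ 4`, so `vv i = 1` for `i < N`: `be i = 0` (`i+1<N`), `be (N-1) = 1`, `uu i = 1`.
* `be_right`: for `ρ ≥ 0`: `ss = 0`, `Vb 0 = 0`: `be 0 = 1`, `be i = 0` for `i ≥ 1`, `uu i = 0`; also the
  derivatives of first and second order of `be i` vanish for `ρ ≥ 0` (smooth function constant on a
  half line) and for `ρ ≤ -5`.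
* `be_sq`: `β_i'' ` is continuous with compact support, so bounded: `sq_deriv_le` gives `β_i'² ≤ Cs β_i`.
* `abel`: for `-1 ≤ l 0 ≤ l 1 ≤ … ≤ l (N-1) ≤ 0`:
  `∑_{i<N} β_i'' l_i = ∑_{1≤i<N} vv_i'' (l_i - l_{i-1})` (Abel summation; `vv_0'' = 0`, `vv_N = 0`), and
  `vv_i'' = Vb''(ν_i ss) ν_i² ss'² + Vb'(ν_i ss) ν_i ss'' ≥ -Hc ν_i²`, and `≥ 0` unless `3 ≤ ν_i ss ≤ 4`
  (`deriv2_Vb`, `|Vb''| ≤ Hc/(2+Ac) ≤ Hc`). The intervals `{3 ≤ ν_i ss ≤ 4}` are disjoint (`ν_i ≥ 8ν_{i+1}`), so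
  either the sum is `≥ 0` or for one `k`, `1 ≤ k < N`, `3 ≤ ν_k ss ≤ 4` and the sum is
  `≥ -Hc ν_k² (l_k - l_{k-1}) ≥ -Hc ν_k² |l 0|`.
* `sum_uu`: for `l i ≤ 0`: `∑_{i<N} uu_i'' l_i`: `uu_i'' = Va''(ν_i ss) ν_i² ss'² + Va' ν_i ss''`,
  second term `≥ 0`, first term `0` unless `1 ≤ ν_i ss ≤ 2`, `≥ -Hc ν_i²`. So either the sum is `≤ 0` or for
  one `k < N`, `1 ≤ ν_k ss ≤ 2` and the sum is `≤ Hc ν_k² |l_k|`.
* `dom_ge`: if `k < N`, `1 ≤ ν_k ss ρ ≤ 2`, then `uu i ρ ≤ 8 be i ρ` for `k ≤ i < N`, and for `k ≥ 1`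
  `be (k-1) ρ ≥ 1/3`; `0 ≤ uu i ≤ 1` always. (`i = k ≥ 1`: `vv_k = ν_k ss/(2+Ac) ≥ 1/(2+Ac)`,
  `vv_{k+1} ≤ (ν_k ss/8)/(2+Ac) ≤ (1/4)/(2+Ac)`; so `be k ≥ (3/4)/(2+Ac) ≥ 3/16`; `i = k = 0`:
  `be 0 = 1 - vv 1 ≥ 1 - (1/4)/3`; `i > k`: `ν_i ss ≤ 1/4`, `be i ≥ (7/8) ν_i ss/(2+Ac) ≥ (7/32) ν_i ss` and
  `uu i = ν_i ss/Ac ≤ ν_i ss`. `be (k-1)`: `vv (k-1) = 1` because `k-1 = 0` or `ν_{k-1} ss ≥ 8`, and
  `vv k = ν_k ss/(2+Ac) ≤ 2/3`.)
* `ss_range`: if `1 ≤ ν_i ss ρ ≤ 4` (`i<N`), then `-5/ν_i ≤ ρ ≤ -1/ν_i` (as `ss ≤ -ρ ≤ ss + 1/ν₀`, `ν₀ ≥ ν_i`).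
(This file: Scales, ss, vv, be, uu, ss_smooth, ss_nonneg, ss_of_nonneg, ss_le, le_ss, ss_range, be_smooth, uu_smooth, be_nonneg, sum_be, be_left, be_right, be_deriv_zero.)
-/

set_option autoImplicit false

noncomputable section

namespace Pool.Agent.H50.CS

open Real Set Filter Topology
open scoped ContDiff

/-- `N` separated scales -/
structure Scales (N : ℕ) (ν : ℕ → ℝ) : Prop where
  hN : 1 ≤ N
  one : ∀ i, 1 ≤ ν i
  sep : ∀ i, i + 1 < N → 8 * ν (i + 1) ≤ ν i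

/-- smoothed `(-ρ)₊` -/
def ss (ν : ℕ → ℝ) (ρ : ℝ) : ℝ := Sf (-(ν 0) * ρ) / ν 0

/-- the functions `v_i` -/
def vv (N : ℕ) (ν : ℕ → ℝ) (i : ℕ) (ρ : ℝ) : ℝ :=
  if i = 0 then 1 else if i < N then Vb (ν i * ss ν ρ) else 0

/-- the functions `β_i = v_i - v_{i+1}` -/
def be (N : ℕ) (ν : ℕ → ℝ) (i : ℕ) (ρ : ℝ) : ℝ := vv N ν i ρ - vv N ν (i + 1) ρ

/-- the functions `u_i` -/
def uu (ν : ℕ → ℝ) (i : ℕ) (ρ : ℝ) : ℝ := Va (ν i * ss ν ρ)

variable {N : ℕ} {ν : ℕ → ℝ}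

theorem Rad1_nu_pos (h : Scales N ν) (i : ℕ) : 0 < ν i := lt_of_lt_of_le one_pos (h.one i)

theorem Rad1_nu_succ (h : Scales N ν) {i : ℕ} (hi : i + 1 < N) : ν (i + 1) ≤ ν i := by
  have h1 := h.sep i hi
  have h2 := Rad1_nu_pos h (i + 1)
  linarith

theorem Rad1_nu_zero (h : Scales N ν) : ∀ i : ℕ, i < N → ν i ≤ ν 0 := by
  intro i
  induction i with
  | zero => intro _; exact le_refl _
  | succ i ih =>
    intro hi
    exact (Rad1_nu_succ h hi).trans (ih (by omega))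

theorem ss_smooth (h : Scales N ν) : ContDiff ℝ ∞ (ss ν) := by
  unfold ss
  exact (Sf_smooth.comp (contDiff_const.mul contDiff_id)).div_const _

theorem ss_nonneg (h : Scales N ν) (ρ : ℝ) : 0 ≤ ss ν ρ :=
  div_nonneg (Sf_nonneg _) (Rad1_nu_pos h 0).le

theorem ss_of_nonneg (h : Scales N ν) {ρ : ℝ} (hρ : 0 ≤ ρ) : ss ν ρ = 0 := by
  unfold ss
  rw [Sf_of_nonpos, zero_div]
  have := mul_nonneg (Rad1_nu_pos h 0).le hρ
  linarith

theorem ss_le (h : Scales N ν) {ρ : ℝ} (hρ : ρ ≤ 0) : ss ν ρ ≤ -ρ := by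
  unfold ss
  have h0 := Rad1_nu_pos h 0
  rw [div_le_iff₀ h0]
  have h1 : 0 ≤ -(ν 0) * ρ := by
    have := mul_nonneg h0.le (neg_nonneg.2 hρ)
    linarith
  have h2 := Sf_le h1
  linarith

theorem le_ss (h : Scales N ν) {ρ : ℝ} (hρ : ρ ≤ 0) : -ρ - 1 / ν 0 ≤ ss ν ρ := by
  unfold ss
  have h0 := Rad1_nu_pos h 0
  rw [le_div_iff₀ h0]
  have h1 : 0 ≤ -(ν 0) * ρ := by
    have := mul_nonneg h0.le (neg_nonneg.2 hρ)
    linarith
  have h2 := le_Sf h1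
  have h3 : (-ρ - 1 / ν 0) * ν 0 = -(ν 0) * ρ - 1 := by
    field_simp
    try ring
  linarith

theorem ss_range (h : Scales N ν) {i : ℕ} (hi : i < N) {ρ : ℝ} (h1 : 1 ≤ ν i * ss ν ρ)
    (h2 : ν i * ss ν ρ ≤ 4) : -5 / ν i ≤ ρ ∧ ρ ≤ -1 / ν i := by
  have h0 := Rad1_nu_pos h 0
  have hip := Rad1_nu_pos h i
  have hi0 := Rad1_nu_zero h i hi
  have hneg : ρ ≤ 0 := by
    by_contra hcon
    push Not at hcon
    rw [ss_of_nonneg h hcon.le, mul_zero] at h1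
    linarith
  have h3 := ss_le h hneg
  have h4 := le_ss h hneg
  constructor
  · rw [div_le_iff₀ hip]
    have h5 : ν i * (-ρ - 1 / ν 0) ≤ 4 := (mul_le_mul_of_nonneg_left h4 hip.le).trans h2
    have h6 : ν i * (1 / ν 0) ≤ 1 := by
      rw [mul_one_div, div_le_one h0]
      exact hi0
    have h7 : ν i * (-ρ - 1 / ν 0) = -(ρ * ν i) - ν i * (1 / ν 0) := by ring
    linarith
  · rw [le_div_iff₀ hip]
    have h5 : 1 ≤ ν i * (-ρ) := h1.trans (mul_le_mul_of_nonneg_left h3 hip.le)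
    linarith

theorem Rad1_vv_smooth (h : Scales N ν) (i : ℕ) : ContDiff ℝ ∞ (vv N ν i) := by
  by_cases h0 : i = 0
  · have : vv N ν i = fun _ => (1 : ℝ) := by
      funext ρ
      simp only [vv, if_pos h0]
    rw [this]
    exact contDiff_const
  · by_cases h1 : i < N
    · have : vv N ν i = fun ρ => Vb (ν i * ss ν ρ) := by
        funext ρ
        simp only [vv, if_neg h0, if_pos h1]
      rw [this]
      exact Vb_smooth.comp (contDiff_const.mul (ss_smooth h))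
    · have : vv N ν i = fun _ => (0 : ℝ) := by
        funext ρ
        simp only [vv, if_neg h0, if_neg h1]
      rw [this]
      exact contDiff_const

theorem be_smooth (h : Scales N ν) (i : ℕ) : ContDiff ℝ ∞ (be N ν i) := by
  unfold be
  exact (Rad1_vv_smooth h i).sub (Rad1_vv_smooth h (i + 1))

theorem uu_smooth (h : Scales N ν) (i : ℕ) : ContDiff ℝ ∞ (uu ν i) := by
  unfold uu
  exact Va_smooth.comp (contDiff_const.mul (ss_smooth h))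

theorem be_nonneg (h : Scales N ν) (i : ℕ) (ρ : ℝ) : 0 ≤ be N ν i ρ := by
  unfold be vv
  have hs := ss_nonneg h ρ
  have hN := h.hN
  have hsucc : i + 1 ≠ 0 := Nat.succ_ne_zero i
  rw [if_neg hsucc]
  by_cases h0 : i = 0
  · subst h0
    rw [if_pos rfl]
    split_ifs
    · have := Vb_le_one (ν (0 + 1) * ss ν ρ)
      linarith
    · norm_num
  · rw [if_neg h0]
    by_cases h1 : i < N
    · rw [if_pos h1]
      by_cases h2 : i + 1 < N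
      · rw [if_pos h2]
        have h3 := Vb_mono (mul_le_mul_of_nonneg_right (Rad1_nu_succ h h2) hs)
        linarith
      · rw [if_neg h2]
        have h3 := Vb_nonneg (mul_nonneg (Rad1_nu_pos h i).le hs)
        linarith
    · rw [if_neg h1, if_neg (by omega)]
      norm_num

theorem sum_be (h : Scales N ν) (ρ : ℝ) : ∑ i ∈ Finset.range N, be N ν i ρ = 1 := by
  have h1 : ∑ i ∈ Finset.range N, be N ν i ρ = vv N ν 0 ρ - vv N ν N ρ := by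
    unfold be
    exact Finset.sum_range_sub' (fun i => vv N ν i ρ) N
  have hN := h.hN
  have hA : vv N ν 0 ρ = 1 := by simp [vv]
  have hB : vv N ν N ρ = 0 := by
    unfold vv
    rw [if_neg (by omega), if_neg (lt_irrefl N)]
  rw [h1, hA, hB]
  norm_num

theorem Rad1_ss_left (h : Scales N ν) (i : ℕ) {ρ : ℝ} (hρ : ρ ≤ -5) : 4 ≤ ν i * ss ν ρ := by
  have h0 := Rad1_nu_pos h 0
  have h1 := le_ss h (show ρ ≤ 0 by linarith)
  have h2 : 1 / ν 0 ≤ 1 := by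
    rw [div_le_one h0]
    exact h.one 0
  have h3 : 4 ≤ ss ν ρ := by linarith
  have h4 := h.one i
  nlinarith [mul_nonneg (sub_nonneg.2 h4) (sub_nonneg.2 h3)]

theorem Rad1_vv_left (h : Scales N ν) (i : ℕ) {ρ : ℝ} (hρ : ρ ≤ -5) :
    vv N ν i ρ = if i < N then 1 else 0 := by
  have hN := h.hN
  simp only [vv]
  by_cases h0 : i = 0
  · rw [if_pos h0, if_pos (by omega)]
  · rw [if_neg h0]
    split_ifs
    · exact Vb_eq_one (Rad1_ss_left h i hρ)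
    · rfl

theorem Rad1_vv_right (h : Scales N ν) {i : ℕ} (hi : i ≠ 0) {ρ : ℝ} (hρ : 0 ≤ ρ) :
    vv N ν i ρ = 0 := by
  simp only [vv]
  rw [if_neg hi]
  split_ifs
  · rw [ss_of_nonneg h hρ, mul_zero, Vb_lin (by norm_num), zero_div]
  · rfl

theorem be_left (h : Scales N ν) {i : ℕ} (hi : i < N) {ρ : ℝ} (hρ : ρ ≤ -5) :
    be N ν i ρ = be N ν i (-5) ∧ uu ν i ρ = 1 := by
  constructor
  · unfold be
    rw [Rad1_vv_left h i hρ, Rad1_vv_left h (i + 1) hρ, Rad1_vv_left h i (le_refl _),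
      Rad1_vv_left h (i + 1) (le_refl _)]
  · unfold uu
    exact Va_eq_one (by linarith [Rad1_ss_left h i hρ])

theorem be_right (h : Scales N ν) {ρ : ℝ} (hρ : 0 ≤ ρ) :
    be N ν 0 ρ = 1 ∧ (∀ i, 1 ≤ i → i < N → be N ν i ρ = 0) ∧ ∀ i, uu ν i ρ = 0 := by
  refine ⟨?_, ?_, ?_⟩
  · unfold be
    have hA : vv N ν 0 ρ = 1 := by simp [vv]
    rw [Rad1_vv_right h (Nat.succ_ne_zero 0) hρ, hA]
    norm_num
  · intro i hi _
    unfold be
    rw [Rad1_vv_right h (by omega) hρ, Rad1_vv_right h (Nat.succ_ne_zero i) hρ, sub_zero]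
  · intro i
    unfold uu
    rw [ss_of_nonneg h hρ, mul_zero, Va_zero]

theorem Rad1_deriv_zero {f : ℝ → ℝ} (hf : ContDiff ℝ ∞ f) {s : Set ℝ}
    (hs : s ⊆ closure (interior s)) {c : ℝ} (hc : ∀ x ∈ s, f x = c) : ∀ x ∈ s, deriv f x = 0 := by
  have hcont : Continuous (deriv f) := (contDiff_infty_iff_deriv.1 hf).2.continuous
  have hclosed : IsClosed {x | deriv f x = 0} := isClosed_eq hcont continuous_const
  have hsub : interior s ⊆ {x | deriv f x = 0} := by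
    intro x hx
    have hev : f =ᶠ[𝓝 x] fun _ => c := by
      filter_upwards [isOpen_interior.mem_nhds hx] with z hz
      exact hc z (interior_subset hz)
    change deriv f x = 0
    rw [hev.deriv_eq]
    exact deriv_const x c
  intro x hx
  exact (closure_minimal hsub hclosed) (hs hx)

theorem Rad1_deriv2_zero {f : ℝ → ℝ} (hf : ContDiff ℝ ∞ f) {s : Set ℝ}
    (hs : s ⊆ closure (interior s)) {c : ℝ} (hc : ∀ x ∈ s, f x = c) :
    ∀ x ∈ s, deriv f x = 0 ∧ deriv (deriv f) x = 0 := by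
  have h1 := Rad1_deriv_zero hf hs hc
  have h2 := Rad1_deriv_zero (contDiff_infty_iff_deriv.1 hf).2 hs h1
  exact fun x hx => ⟨h1 x hx, h2 x hx⟩

theorem be_deriv_zero (h : Scales N ν) {i : ℕ} (hi : i < N) {ρ : ℝ} (hρ : ρ ≤ -5 ∨ 0 ≤ ρ) :
    deriv (be N ν i) ρ = 0 ∧ deriv (deriv (be N ν i)) ρ = 0 := by
  rcases hρ with hρ | hρ
  · refine Rad1_deriv2_zero (be_smooth h i) (s := Set.Iic (-5)) ?_ (c := be N ν i (-5)) ?_ ρ hρ
    · rw [interior_Iic, closure_Iio]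
    · intro x hx
      exact (be_left h hi hx).1
  · have hc : ∀ x ∈ Set.Ici (0 : ℝ), be N ν i x = if i = 0 then 1 else 0 := by
      intro x hx
      obtain ⟨h1, h2, -⟩ := be_right h (ρ := x) hx
      by_cases h0 : i = 0
      · rw [if_pos h0, h0]
        exact h1
      · rw [if_neg h0]
        exact h2 i (by omega) hi
    refine Rad1_deriv2_zero (be_smooth h i) (s := Set.Ici 0) ?_ hc ρ hρ
    rw [interior_Ici, closure_Ioi]

end Pool.Agent.H50.CS
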