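import Pool.Agent.H50.CS.Visc

/-!
# CS-VISC: pluripotential subsolutions are viscosity subsolutions; comparison with smooth functions

`u` continuous psh on `Ω`, `IsMA Ω u ν`, `T` open with compact closure in `Ω`, and on `T` the measure `ν` is
at least `c F dV` in the sense `∫χ c F ≤ ∫χ dν` for continuous `χ ≥ 0` with compact support in `T`.

* `visc`: if `q` is smooth, `x₀ ∈ T` and `u - q` has a local maximum at `x₀`, then `levi q x₀ ≥ 0` and
  `F x₀ ≤ ma q x₀`.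
  (a) `levi q x₀ w ≥ 0`: for small `r`: `u x₀ ≤ mean_θ u(x₀+re^{iθ}w) ≤ u x₀ - q x₀ + mean_θ q(x₀+re^{iθ}w)`;
  use `levi_nonneg_of_mean`.
  (b) Suppose `ma q x₀ < F x₀`. For `λ > 0` let `Q(x) = q x + λ‖x-x₀‖² + u x₀ - q x₀ - δ`. Since
  `levi Q x₀ w = levi q x₀ w + λ‖w‖² ≥ λ‖w‖²` and by continuity of `levi Q`, `ma Q`, `F`
  (`continuousOn_levi`, `continuousOn_ma`; compactness of the unit sphere), for `λ` small and then
  `r` small: on the closed ball `B̄ = closedBall x₀ r ⊆ T`: `levi Q ≥ 0`, `ma Q < F`, and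
  `u - q ≤ u x₀ - q x₀`. On `B̄`: `u - Q ≤ δ - λ‖x-x₀‖²`. Take `δ = λr²/4`. Then `{u - Q > 0} ∩ B̄` is contained in
  `K = closedBall x₀ (r/2)`, and `(u-Q)(x₀) = δ`. Let `u_k → u` uniformly on `V = ball x₀ r`, smooth psh
  (`exists_smooth_approx`), `θ(t) = Real.smoothTransition ((t - δ/4)/(δ/4))`-like: smooth, monotone, `0` for
  `t ≤ δ/4`, `1` for `t ≥ δ/2`. For `k` large `|u_k - u| < δ/8` on `V` so `θ(u_k - Q) = 0` off `K`;
  `comp_ineq` on `V`: `∫_V θ(u_k-Q) (ma u_k - ma Q) ≤ 0`. Let `k → ∞` (`IsMA.lim_int` for the first term,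
  uniform convergence on `K` for the second): `∫_V θ(u-Q) dν ≤ ∫_V θ(u-Q) c ma Q`. But the left side is
  `≥ ∫_V θ(u-Q) c F`, and `F > ma Q` on `V`, `θ(u-Q) ≥ 0` is positive near `x₀`: contradiction
  (`θ(u-Q)`, set to `0` off `V`, is continuous with compact support in `K`).
* `upper_comp`: `a` smooth, `u ≤ a` on `frontier T`, and at every `x ∈ T` where `levi a x ≥ 0` one has
  `ma a x ≤ F x`. Then `u ≤ a` on `T`. Proof: otherwise `sup_T (u - a) = η > 0`; choose `λ > 0` with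
  `λ‖x‖² < η/4` on `T`; `u - a + λ‖x‖²` attains its maximum over the compact `closure T` at an `x₀`,
  the value is `≥ η/2`, and on the frontier it is `≤ η/4`, so `x₀ ∈ T`. `q = a - λ‖x‖²`: `visc` gives
  `levi q x₀ ≥ 0`, `F x₀ ≤ ma q x₀`; then `levi a x₀ w = levi q x₀ w + λ‖w‖²`, so
  `ma a x₀ ≥ ma q x₀ + λ³ > F x₀` (`ma_mono_add`), contradiction with `ma a x₀ ≤ F x₀`.
(This file: upper_comp.)
-/

set_option autoImplicit false

noncomputable section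

namespace Pool.Agent.H50.CS

open Complex Metric MeasureTheory Set Filter Topology
open scoped ContDiff ComplexConjugate
open Pool.Agent.H8.FZ

theorem upper_comp {Ω : Set (En 3)} (hΩ : IsOpen Ω) {u : En 3 → ℝ} {ν : Measure (En 3)}
    (hu : ContPsh Ω u) (hν : IsMA Ω u ν) {T : Set (En 3)} (hT : IsOpen T)
    (hTc : IsCompact (closure T)) (hTΩ : closure T ⊆ Ω)
    {F : En 3 → ℝ} (hF : ContinuousOn F T)
    (hFν : ∀ χ : En 3 → ℝ, Continuous χ → HasCompactSupport χ → tsupport χ ⊆ T →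
      (∀ x, 0 ≤ χ x) → ∫ x, χ x * (maC 3 * F x) ≤ ∫ x, χ x ∂ν)
    {a : En 3 → ℝ} (ha : ContDiff ℝ ∞ a) (hbd : ∀ x ∈ frontier T, u x ≤ a x)
    (hdet : ∀ x ∈ T, (∀ w, 0 ≤ levi a x w) → ma a x ≤ F x) : ∀ x ∈ T, u x ≤ a x := by
  intro x₁ hx₁
  by_contra hcon
  push Not at hcon
  set η : ℝ := u x₁ - a x₁ with hη
  have hη0 : 0 < η := sub_pos.2 hcon
  obtain ⟨R, hR0, hR⟩ : ∃ R : ℝ, 0 < R ∧ ∀ x ∈ closure T, ‖x‖ ^ 2 ≤ R := by
    obtain ⟨C, hC⟩ := hTc.isBounded.exists_norm_le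
    refine ⟨C ^ 2 + 1, by positivity, fun x hx => ?_⟩
    have h1 := pow_le_pow_left₀ (norm_nonneg x) (hC x hx) 2
    linarith
  set l : ℝ := η / (4 * R) with hl
  have hl0 : 0 < l := by positivity
  have hlR : l * R = η / 4 := by
    rw [hl]
    field_simp
  set f : En 3 → ℝ := fun x => u x - a x + l * ‖x‖ ^ 2 with hf
  have hfc : ContinuousOn f (closure T) :=
    ((hu.1.mono hTΩ).sub ha.continuous.continuousOn).add
      (continuous_const.mul (continuous_norm.pow 2)).continuousOn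
  obtain ⟨x₀, hx₀, hmax⟩ := hTc.exists_isMaxOn ⟨x₁, subset_closure hx₁⟩ hfc
  have h1 : f x₁ ≤ f x₀ := hmax (subset_closure hx₁)
  have h2 : η ≤ f x₀ := by
    have : 0 ≤ l * ‖x₁‖ ^ 2 := by positivity
    have h3 : f x₁ = η + l * ‖x₁‖ ^ 2 := rfl
    linarith
  have hx₀T : x₀ ∈ T := by
    by_contra hnot
    have h3 : x₀ ∈ frontier T := by
      rw [hT.frontier_eq]
      exact ⟨hx₀, hnot⟩
    have h4 := hbd x₀ h3
    have h5 : l * ‖x₀‖ ^ 2 ≤ l * R := mul_le_mul_of_nonneg_left (hR x₀ hx₀) hl0.le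
    have h6 : f x₀ = u x₀ - a x₀ + l * ‖x₀‖ ^ 2 := rfl
    linarith
  set q : En 3 → ℝ := fun x => a x - l * ‖x‖ ^ 2 with hq
  have hN : ContDiff ℝ ∞ (fun x : En 3 => ‖x‖ ^ 2) := contDiff_norm_sq ℂ
  have hqs : ContDiff ℝ ∞ q := ha.sub (contDiff_const.mul hN)
  have hN2 : ContDiffAt ℝ 2 (fun x : En 3 => ‖x‖ ^ 2) x₀ :=
    hN.contDiffAt.of_le ENat.LEInfty.out
  have ha2 : ContDiffAt ℝ 2 a x₀ := ha.contDiffAt.of_le ENat.LEInfty.out
  have hq2 : ContDiffAt ℝ 2 q x₀ := hqs.contDiffAt.of_le ENat.LEInfty.out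
  have hmax' : ∀ᶠ x in 𝓝 x₀, u x - q x ≤ u x₀ - q x₀ := by
    filter_upwards [hT.mem_nhds hx₀T] with x hx
    have h3 : f x ≤ f x₀ := hmax (subset_closure hx)
    simp only [hf] at h3
    simp only [hq]
    linarith
  obtain ⟨h3, h4⟩ := visc hΩ hu hν hT (subset_closure.trans hTΩ) hF hFν hqs hx₀T hmax'
  have h5 : ∀ w, levi q x₀ w + l * ‖w‖ ^ 2 ≤ levi a x₀ w := by
    intro w
    have e1 : levi q x₀ w = levi a x₀ w - levi (fun x : En 3 => l * ‖x‖ ^ 2) x₀ w :=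
      levi_sub ha2 (contDiffAt_const.mul hN2) w
    rw [e1, levi_const_mul hN2, levi_norm_sq]
    linarith
  have h6 := ma_mono_add hq2 ha2 h3 hl0.le h5
  have h7 : ∀ w, 0 ≤ levi a x₀ w := by
    intro w
    have := h5 w
    have h8 := h3 w
    have : 0 ≤ l * ‖w‖ ^ 2 := by positivity
    linarith
  have h8 := hdet x₀ hx₀T h7
  have h9 : 0 < l ^ 3 := by positivity
  linarith

end Pool.Agent.H50.CS
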