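import Pool.Agent.H50.CS.Phi4
import Pool.Agent.H50.CS.Upper

/-!
# CS-NOSOL: `mu` has no continuous solution

Suppose `ContSol (ball 0 1) u mu`.

* `step_up`: `u ≤ a_j` on `T_j`: `upper_comp` with `F = ma (¾‖·‖²+g_j)`, `a = a_j`: on the frontier
  `u ≤ 0 < a_j` (`ContPsh.le_zero`, `TubeOK.bd`); `TubeOK.det`; and `∫χ c F ≤ ∫χ c FF_j = ∫χ dmu` for `χ ≥ 0` (`mu_on`;
  `F ≤ FF j` on `T_j` by `ma_mono_add`: `ph j = ¾‖·‖²+g_j + (1/8)‖·‖²`). So `u (ctr j) ≤ -A₀`, `u xst ≤ -A₀`.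
* `step_low`: for a.e. `x ∈ ball 0 1 \ ⋃ bad_j`: `u x ≥ -A₀/4`. Let `δ = A₀/16`, `θ(t) = sg((t-δ)/δ)`,
  `Z_J = ∑_{j<J} ψ_j + δ(‖x‖²-1)`: smooth, `≤ 0` on the ball, `levi Z_J ≥ δ‖v‖²`, and `≥ levi (ph j) + δ‖v‖²` on `T_j` for
  `j < J` (`ψt`, `ψp`). So `ma Z_J ≥ δ³` and `≥ FF j + δ³` on `T_j` (`ma_mono_add`). `lower_comp`:
  `∫_B θ(Z_J-u) c ma Z_J ≤ ∫_B θ(Z_J-u) dmu = ∑_j ∫_{T_j} θ(Z_J-u) c FF_j` (`mu_int`), and the left side is
  `≥ cδ³∫_Bθ(Z_J-u) + ∑_{j<J}∫_{T_j}θ(Z_J-u) c FF_j` (disjoint tubes). Hence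
  `cδ³ volume{x ∈ B | Z_J - u ≥ 2δ} ≤ cδ³∫_Bθ ≤ ∑_{j≥J} ∫_{T_j} c FF_j → 0` (tail of the convergent series
  `mu_int` with `f = 1`). For `x ∈ B \ ⋃bad_j`: `Z_J x ≥ -∑A₀(1/2)^j/32 - δ ≥ -A₀/16 - δ = -2δ` for all `J`, so
  `{x ∈ B \ ⋃bad | u x < -4δ} ⊆ {Z_J - u ≥ 2δ}` for every `J`: volume zero. `4δ = A₀/4`.
* `no_sol`: by continuity `u < -A₀/2` on `ball xst s` for some small `s` (contained in `B`), but by `step_low` and
  `not_bad` there is `x ∈ ball xst s` with `u x ≥ -A₀/4`: contradiction.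
(This file: step_up.)
-/

set_option autoImplicit false

noncomputable section

namespace Pool.Agent.H50.CS

open Complex Metric MeasureTheory Set Filter Topology
open scoped ContDiff ComplexConjugate
open Pool.Agent.H8.FZ

namespace Sys

variable (S : Sys)

theorem step_up {u : En 3 → ℝ} (hu : ContSol (ball (0 : En 3) 1) u S.mu) (j : ℕ) :
    u (S.ctr j) ≤ -S.A₀ := by
  have hok := S.ok j
  have hTsub : S.T j ⊆ ball (0 : En 3) 1 := fun x hx =>
    closedBall_subset_ball (by norm_num) (S.T_closure j (subset_closure hx))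
  have hneg : ∀ x ∈ ball (0 : En 3) 1, u x ≤ 0 :=
    hu.psh.le_zero (by norm_num) isOpen_ball isBounded_ball hu.bdry
  have hFs : ContDiff ℝ ∞ fun y : En 3 => 3 / 4 * ‖y‖ ^ 2 + S.g j y :=
    (contDiff_const.mul (contDiff_norm_sq ℂ)).add hok.gs
  have hn : ContDiff ℝ ∞ fun y : En 3 => ‖y‖ ^ 2 := contDiff_norm_sq ℂ
  have h2 : (2 : WithTop ℕ∞) ≤ ∞ := ENat.LEInfty.out
  have hcn : ∀ (r : ℝ) (x v : En 3), levi (fun y : En 3 => r * ‖y‖ ^ 2) x v = r * ‖v‖ ^ 2 := by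
    intro r x v
    rw [levi_const_mul (hn.contDiffAt.of_le h2), levi_norm_sq]
  have hlev : ∀ (r : ℝ) (x v : En 3), levi (fun y : En 3 => r * ‖y‖ ^ 2 + S.g j y) x v =
      r * ‖v‖ ^ 2 + levi (S.g j) x v := by
    intro r x v
    rw [levi_add ((contDiff_const.mul hn).contDiffAt.of_le h2) (hok.gs.contDiffAt.of_le h2), hcn]
  have hFle : ∀ x ∈ S.T j, ma (fun y : En 3 => 3 / 4 * ‖y‖ ^ 2 + S.g j y) x ≤ S.FF j x := by
    intro x hx
    have h3 := ma_mono_add (P := fun y : En 3 => 3 / 4 * ‖y‖ ^ 2 + S.g j y) (Q := S.ph j) (x := x)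
      (hFs.contDiffAt.of_le h2) ((S.ph_smooth j).contDiffAt.of_le h2) (fun w => by
        rw [hlev]
        have := hok.inn x hx w
        linarith) (δ := 0) le_rfl (fun w => by
        have h4 : levi (S.ph j) x w = 7 / 8 * ‖w‖ ^ 2 + levi (S.g j) x w := hlev (7 / 8) x w
        rw [hlev, h4]
        nlinarith [sq_nonneg ‖w‖])
    have h5 : S.FF j x = ma (S.ph j) x := rfl
    rw [h5]
    simpa using h3
  have hup := upper_comp isOpen_ball hu.psh hu.isMA (S.T_open j) (S.T_compact j)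
    ((S.T_closure j).trans (closedBall_subset_ball (by norm_num)))
    (F := ma (fun y : En 3 => 3 / 4 * ‖y‖ ^ 2 + S.g j y))
    ((continuousOn_ma isOpen_univ hFs.contDiffOn).mono (subset_univ _)) ?_ hok.as ?_ hok.det
  · exact (hup _ (S.ctr_mem j).1).trans (S.ctr_mem j).2
  · intro χ hχ hχc hχT hχ0
    rw [S.mu_on j hχ hχc hχT]
    have hC : 0 ≤ maC 3 := by
      unfold maC
      positivity
    have hcF : Continuous (ma (fun y : En 3 => 3 / 4 * ‖y‖ ^ 2 + S.g j y)) :=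
      continuousOn_univ.mp (continuousOn_ma isOpen_univ hFs.contDiffOn)
    have hcFF : Continuous (S.FF j) :=
      continuousOn_univ.mp (continuousOn_ma isOpen_univ (S.ph_smooth j).contDiffOn)
    refine integral_mono ?_ ?_ ?_
    · exact (hχ.mul (continuous_const.mul hcF)).integrable_of_hasCompactSupport hχc.mul_right
    · exact (hχ.mul (continuous_const.mul hcFF)).integrable_of_hasCompactSupport hχc.mul_right
    · intro x
      by_cases hx : x ∈ tsupport χ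
      · exact mul_le_mul_of_nonneg_left (mul_le_mul_of_nonneg_left (hFle x (hχT hx)) hC) (hχ0 x)
      · have : χ x = 0 := image_eq_zero_of_notMem_tsupport hx
        simp [this]
  · intro x hx
    have hx' : x ∈ closure (S.T j) := frontier_subset_closure hx
    have hxb : x ∈ ball (0 : En 3) 1 :=
      closedBall_subset_ball (by norm_num) (S.T_closure j hx')
    exact (hneg x hxb).trans (hok.bd x hx).le

end Sys

end Pool.Agent.H50.CS
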