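import Pool.Agent.H50.CS.Tube1
import Pool.Agent.H50.CS.BLow3
import Pool.Agent.H50.CS.Dom
import Pool.Agent.H50.CS.Lev2

/-!
# CS-TUBE1: plurisubharmonicity and domination in the tube

Constants. `cf > 0` is the constant of the curve: `cf ν_k²/N ≤ |f'(ζ)|²` for
`e^{-5/ν_k} ≤ |ζ| ≤ e^{-1/ν_k}`. `ε = c7/N` with `c7 e^{10} Hc ≤ (4/5) cf`. `A³ · 121 · Hc · e^{10} ≤ (1/5) c7² cf`.
`K` is so large that `ε e^{10} N Cs/(2K) ≤ ρ²/2`; `T 0` so large that `ε/(2τ²K T 0) ≤ 1/2`.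

* `inn_lower` (in the closed tube `X ≤ τ²`): with `G_lower`, `norm_sq_lower`, `b_lower`:
  `levi g + ¾|v|² ≥ |ξ|² + ¾|v|² + levi b ≥ ½|ξ|² + (3/10)|f'|²|η|² + ¾ρ²|η|² + levi b`
  `≥ ε(p SD/X B2 + ½p² SM/X A2) + (3/10)|f'|²|η|² - εW|η|²` and `εW ≤ (1/5)|f'|²`:
  if `W ≠ 0` then by `ss_range` `-5/ν_k ≤ r ≤ -1/ν_k`, `r = log|ζ|`, so `|f'|² ≥ cf ν_k²/N`, and
  `εW ≤ (c7/N) e^{10}/4 Hc ν_k² ≤ (1/5) cf ν_k²/N`. So the sum is `≥ ε(p SD/X B2 + ½p² SM/X A2) + (1/10)|f'|²|η|²`.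
* `det_le` (domination, `X ≤ τ²`): suppose `levi a x ≥ 0`. If `X = 0`: `levi_a_zero` and `ma_upper` with the standard
  basis give `ma a x ≤ 0 ≤ ma(¾|·|²+g)` (`ma_nonneg`). If `X > 0`: `ma_upper` with `v = bas`, `det_bas`:
  `ρ² ma a ≤ (A/N)³ (p³/X²) UM·UD·Σ⁺/(4R)`, `Σ = ∑ u_i''ℓ_i`. By `sum_uu`: `Σ ≤ 0` (then the third diagonal
  entry is `≤ 0`, so `ma a ≤ 0`) or for some `k`: `1 ≤ ν_k ss ≤ 2` and `Σ ≤ Hc ν_k²|ℓ_k|`. `ma_lower` with
  `q = (½εp²SM/X, εp SD/X, |f'|²/10)` (`bas_eta`, `bas_cc`, `bas_xsq`):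
  `ρ² ma(¾|·|²+g) ≥ ½ε²(p³/X²) SM·SD·|f'|²/10`. By `dom_sum`, `1/R ≤ e^{10}` (`r ≥ -5/ν_k ≥ -5`), `|f'|² ≥ cf ν_k²/N`:
  `(A/N)³·121 SM SD·Hc ν_k² e^{10}/4 ≤ (1/20) (c7/N)² SM SD cf ν_k²/N`. OK by the choice of `A`.
(This file: Par.det_le.)
-/

set_option autoImplicit false

noncomputable section

namespace Pool.Agent.H50.CS

open Complex Metric MeasureTheory Set Filter Topology
open scoped ContDiff ComplexConjugate
open Pool.Agent.H8.FZ

namespace Crv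

variable {c : Crv} {N : ℕ} {ν : ℕ → ℝ} {K τ : ℝ} {T : ℕ → ℝ} {cf c7 A Cs : ℝ}

theorem Par.hT0 (P : Par c N ν K τ T cf c7 A Cs) (i : ℕ) : 0 < T i :=
  lt_of_lt_of_le one_pos (P.hT.one i)

theorem Par.hK0 (P : Par c N ν K τ T cf c7 A Cs) : 0 < K := by
  have := P.hK8
  linarith

theorem Par.hN0 (P : Par c N ν K τ T cf c7 A Cs) : (0 : ℝ) < N := by
  have := P.h.hN
  exact_mod_cast this

theorem Par.a_cd (P : Par c N ν K τ T cf c7 A Cs) (x : En 3) :
    ContDiffAt ℝ 2 (c.afun N ν K τ T A) x :=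
  (contDiff_infty.mp (afun_smooth P.h P.hK0 P.hτ P.hT0 A) 2).contDiffAt

theorem Par.g_cd (P : Par c N ν K τ T cf c7 A Cs) (x : En 3) :
    ContDiffAt ℝ 2 (c.gfun N ν K τ T (c7 / N)) x :=
  (contDiff_infty.mp (gfun_smooth P.h P.hK0 P.hτ P.hT0 (c7 / N)) 2).contDiffAt

theorem sq_cd (x : En 3) : ContDiffAt ℝ 2 (fun y : En 3 => 3 / 4 * ‖y‖ ^ 2) x :=
  contDiffAt_const.mul (contDiff_norm_sq ℂ).contDiffAt

theorem Par.s_cd (P : Par c N ν K τ T cf c7 A Cs) (x : En 3) :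
    ContDiffAt ℝ 2 (fun y => 3 / 4 * ‖y‖ ^ 2 + c.gfun N ν K τ T (c7 / N) y) x :=
  (sq_cd x).add (P.g_cd x)

theorem Par.levi_s (P : Par c N ν K τ T cf c7 A Cs) (x v : En 3) :
    levi (fun y => 3 / 4 * ‖y‖ ^ 2 + c.gfun N ν K τ T (c7 / N) y) x v =
      levi (c.gfun N ν K τ T (c7 / N)) x v + 3 / 4 * ‖v‖ ^ 2 := by
  rw [levi_add (sq_cd x) (P.g_cd x), levi_const_mul (contDiff_norm_sq ℂ).contDiffAt,
    levi_norm_sq, add_comm]

/-- the case of a point on the curve -/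
theorem Par.det_le_zero (P : Par c N ν K τ T cf c7 A Cs) {x : En 3} (hx : c.X x = 0)
    (ha : ∀ v, 0 ≤ levi (c.afun N ν K τ T A) x v) :
    ma (c.afun N ν K τ T A) x ≤ 0 := by
  have h0 : levi (c.afun N ν K τ T A) x (eb 0) = 0 :=
    levi_a_zero P.h P.hK0 P.hτ P.hT.one hx (by simp [eb])
  have h1 : levi (c.afun N ν K τ T A) x (eb 1) = 0 :=
    levi_a_zero P.h P.hK0 P.hτ P.hT.one hx (by simp [eb])
  have h := (ma_upper (P.a_cd x) (fun i => eb i) ha
    ![0, 0, levi (c.afun N ν K τ T A) x (eb 2)] (by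
      intro i
      fin_cases i
      · simp [h0]
      · simp [h1]
      · simp)).2
  have hd : (Matrix.of fun j i => (eb i : En 3) j : M3) = 1 := by
    ext j i
    simp [eb, Matrix.one_apply]
  rw [hd] at h
  simpa using h

/-- the arithmetic of the domination -/
theorem det_arith {A c7 cf n p X R SM SD UM UD S L H E f m : ℝ} (hA : 0 < A) (hc7 : 0 < c7)
    (hcf : 0 < cf) (hn : 0 < n) (hp : 0 ≤ p) (hX : 0 < X) (hR : 0 < R) (hSM : 0 ≤ SM)
    (hSD : 0 ≤ SD) (hUM : 0 ≤ UM) (hUD : 0 ≤ UD) (hH : 0 ≤ H)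
    (hE : 1 / R ≤ E) (hdom : UM * UD * L ≤ 121 * (SM * SD)) (hS : S ≤ H * m ^ 2 * L)
    (hf : cf * m ^ 2 / n ≤ f) (hAle : A ^ 3 * 121 * H * E ≤ 1 / 5 * c7 ^ 2 * cf) :
    (A / n * (p ^ 2 / X * UM)) * (A / n * (p / X * UD)) * (A / n * S / (4 * R)) ≤
      (1 / 2 * (c7 / n) * p ^ 2 * SM / X) * ((c7 / n) * p * SD / X) * (1 / 10 * f) := by
  have hE0 : 0 < E := lt_of_lt_of_le (by positivity) hE
  have e1 : (A / n * (p ^ 2 / X * UM)) * (A / n * (p / X * UD)) * (A / n * S / (4 * R)) =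
      (p ^ 3 / X ^ 2 / n ^ 2) * ((A ^ 3 / (4 * n)) * ((UM * UD) * S * (1 / R))) := by
    field_simp
  have e2 : (1 / 2 * (c7 / n) * p ^ 2 * SM / X) * ((c7 / n) * p * SD / X) * (1 / 10 * f) =
      (p ^ 3 / X ^ 2 / n ^ 2) * (c7 ^ 2 / 20 * (SM * SD) * f) := by
    field_simp
    ring
  rw [e1, e2]
  apply mul_le_mul_of_nonneg_left _ (by positivity)
  have h1 : (UM * UD) * S * (1 / R) ≤ (121 * (SM * SD)) * (H * m ^ 2) * E := by
    have h2 : (UM * UD) * S ≤ (121 * (SM * SD)) * (H * m ^ 2) := by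
      calc (UM * UD) * S ≤ (UM * UD) * (H * m ^ 2 * L) :=
            mul_le_mul_of_nonneg_left hS (mul_nonneg hUM hUD)
        _ = (UM * UD * L) * (H * m ^ 2) := by ring
        _ ≤ (121 * (SM * SD)) * (H * m ^ 2) :=
            mul_le_mul_of_nonneg_right hdom (by positivity)
    calc (UM * UD) * S * (1 / R) ≤ (121 * (SM * SD)) * (H * m ^ 2) * (1 / R) :=
          mul_le_mul_of_nonneg_right h2 (by positivity)
      _ ≤ (121 * (SM * SD)) * (H * m ^ 2) * E :=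
          mul_le_mul_of_nonneg_left hE (by positivity)
  calc A ^ 3 / (4 * n) * ((UM * UD) * S * (1 / R))
      ≤ A ^ 3 / (4 * n) * ((121 * (SM * SD)) * (H * m ^ 2) * E) :=
        mul_le_mul_of_nonneg_left h1 (by positivity)
    _ = (A ^ 3 * 121 * H * E) * (SM * SD * m ^ 2 / (4 * n)) := by ring
    _ ≤ (1 / 5 * c7 ^ 2 * cf) * (SM * SD * m ^ 2 / (4 * n)) :=
        mul_le_mul_of_nonneg_right hAle (by positivity)
    _ = c7 ^ 2 / 20 * (SM * SD) * (cf * m ^ 2 / n) := by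
        field_simp
        ring
    _ ≤ c7 ^ 2 / 20 * (SM * SD) * f := mul_le_mul_of_nonneg_left hf (by positivity)

theorem UM_nonneg (h : Scales N ν) (hK : 0 < K) (hT : ∀ i, 0 < T i) (x : En 3) :
    0 ≤ c.UM N ν K τ T x :=
  Finset.sum_nonneg fun i _ => mul_nonneg (uuX_mem h i x).1 (Ml_nonneg hK (hT i) _)

theorem UD_nonneg (h : Scales N ν) (hK : 0 < K) (hT : ∀ i, 0 < T i) (x : En 3) :
    0 ≤ c.UD N ν K τ T x :=
  Finset.sum_nonneg fun i _ => mul_nonneg (uuX_mem h i x).1 (Dl_nonneg hK (hT i) _)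

theorem pf_nonneg (τ t : ℝ) : 0 ≤ pf τ t := by
  unfold pf
  positivity

/-- the lower bound of the reference determinant in the adapted basis -/
theorem Par.s_lower (P : Par c N ν K τ T cf c7 A Cs) {x : En 3} (hx : c.X x ≤ τ ^ 2)
    (hx0 : 0 < c.X x) :
    (1 / 2 * (c7 / N) * pf τ (c.tt x) ^ 2 * c.SM N ν K τ T x / c.X x) *
        ((c7 / N) * pf τ (c.tt x) * c.SD N ν K τ T x / c.X x) * (1 / 10 * c.fsq x) ≤
      ma (fun y => 3 / 4 * ‖y‖ ^ 2 + c.gfun N ν K τ T (c7 / N) y) x * c.ρ ^ 2 := by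
  have hSM := SM_nonneg (c := c) (τ := τ) P.h P.hK0 P.hT0 x
  have hSD := SD_nonneg (c := c) (τ := τ) P.h P.hK0 P.hT0 x
  have hp := pf_nonneg τ (c.tt x)
  have hN := P.hN0
  have hc7 := P.hc7
  have hf : 0 ≤ c.fsq x := by unfold fsq; positivity
  have h := ma_lower (P.s_cd x) (c.bas x)
    ![1 / 2 * (c7 / N) * pf τ (c.tt x) ^ 2 * c.SM N ν K τ T x / c.X x,
      (c7 / N) * pf τ (c.tt x) * c.SD N ν K τ T x / c.X x, 1 / 10 * c.fsq x] (by
      intro i
      fin_cases i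
      · simp only [Fin.zero_eta, Matrix.cons_val_zero]
        positivity
      · simp only [Fin.mk_one, Matrix.cons_val_one, Matrix.cons_val_zero]
        positivity
      · simp only [Fin.reduceFinMk, Matrix.cons_val]
        positivity) (by
      intro a
      have h1 := P.inn_lower hx (∑ i, a i • c.bas x i)
      rw [P.levi_s]
      refine le_trans (le_of_eq ?_) h1
      have h2 : c.xr x (∑ i, a i • c.bas x i) = ‖a 0‖ ^ 2 := bas_cc c hx0 a
      rw [bas_xsq c hx0 a, h2, bas_eta, Fin.sum_univ_three]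
      simp only [Matrix.cons_val]
      ring)
  rw [det_bas c hx0] at h
  simpa using h

theorem Par.det_le (P : Par c N ν K τ T cf c7 A Cs) {x : En 3} (hx : c.X x ≤ τ ^ 2)
    (ha : ∀ v, 0 ≤ levi (c.afun N ν K τ T A) x v) :
    ma (c.afun N ν K τ T A) x ≤ ma (fun y => 3 / 4 * ‖y‖ ^ 2 + c.gfun N ν K τ T (c7 / N) y) x := by
  have hnn : 0 ≤ ma (fun y => 3 / 4 * ‖y‖ ^ 2 + c.gfun N ν K τ T (c7 / N) y) x :=
    ma_nonneg (P.s_cd x) fun w => by
      rw [P.levi_s]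
      exact P.inn hx w
  rcases (c.X_nonneg x).eq_or_lt with h0 | hx0
  · exact le_trans (P.det_le_zero h0.symm ha) hnn
  have hSM := SM_nonneg (c := c) (τ := τ) P.h P.hK0 P.hT0 x
  have hSD := SD_nonneg (c := c) (τ := τ) P.h P.hK0 P.hT0 x
  have hUM := UM_nonneg (c := c) (τ := τ) P.h P.hK0 P.hT0 x
  have hUD := UD_nonneg (c := c) (τ := τ) P.h P.hK0 P.hT0 x
  have hp := pf_nonneg τ (c.tt x)
  have hN := P.hN0
  have hA := P.hA
  obtain ⟨l0, l1, l2⟩ := levi_a_bas (c := c) (ν := ν) P.h P.hK0 P.hτ P.hT.one P.hA.le hx0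
  have hup := (ma_upper (P.a_cd x) (c.bas x) ha
    ![A / N * (pf τ (c.tt x) ^ 2 / c.X x * c.UM N ν K τ T x),
      A / N * (pf τ (c.tt x) / c.X x * c.UD N ν K τ T x),
      A / N * (∑ i ∈ Finset.range N,
        deriv (deriv (uu ν i)) (c.rr x) * c.elX K τ T i x) / (4 * c.R x)] (by
      intro i
      fin_cases i
      · exact l0
      · exact l1
      · exact l2.le)).2
  rw [det_bas c hx0] at hup
  simp only [Matrix.cons_val] at hup
  have hR0 := c.R_nonneg x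
  have hρ := c.hρ
  rcases sum_uu P.h (fun i => c.elX K τ T i x) (fun i _ => (elX_mem P.hK0 (P.hT0 i) x).2)
    (c.rr x) with hS | ⟨k, hk, h1, h2, hS⟩
  · -- the third entry is nonpositive
    have h3 : A / N * (∑ i ∈ Finset.range N,
        deriv (deriv (uu ν i)) (c.rr x) * c.elX K τ T i x) / (4 * c.R x) ≤ 0 :=
      div_nonpos_of_nonpos_of_nonneg (mul_nonpos_of_nonneg_of_nonpos (by positivity) hS)
        (by positivity)
    have h4 : ma (c.afun N ν K τ T A) x * c.ρ ^ 2 ≤ 0 :=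
      hup.trans (mul_nonpos_of_nonneg_of_nonpos (by positivity) h3)
    have h5 : ma (c.afun N ν K τ T A) x ≤ 0 := by
      by_contra hcon
      push Not at hcon
      have : 0 < ma (c.afun N ν K τ T A) x * c.ρ ^ 2 := by positivity
      linarith
    exact h5.trans hnn
  · -- the main case
    have hνk : 0 < ν k := lt_of_lt_of_le one_pos (P.h.one k)
    have hr := ss_range P.h hk h1 (by linarith)
    have hRpos : 0 < c.R x := by
      rcases hR0.eq_or_lt with h0 | h0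
      · exfalso
        have : c.rr x = 0 := by unfold rr; rw [← h0]; simp
        rw [this] at hr
        have := hr.2
        have h6 : -1 / ν k < 0 := by
          apply div_neg_of_neg_of_pos _ hνk
          norm_num
        linarith
      · exact h0
    have hexp : Real.exp (2 * c.rr x) = c.R x := by
      unfold rr
      rw [show 2 * (1 / 2 * Real.log (c.R x)) = Real.log (c.R x) by ring, Real.exp_log hRpos]
    have hze : ‖c.ze x‖ = Real.exp (c.rr x) := by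
      have h7 : ‖c.ze x‖ ^ 2 = Real.exp (c.rr x) ^ 2 := by
        rw [← Real.exp_nat_mul]
        have : ‖c.ze x‖ ^ 2 = c.R x := rfl
        rw [this, ← hexp]
        norm_num
      exact (sq_eq_sq₀ (norm_nonneg _) (Real.exp_pos _).le).mp h7
    have hfl := P.lowf k hk (c.ze x) (by rw [hze]; exact Real.exp_le_exp.mpr hr.1)
      (by rw [hze]; exact Real.exp_le_exp.mpr hr.2)
    have hE : 1 / c.R x ≤ Real.exp 10 := by
      rw [← hexp, one_div, ← Real.exp_neg]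
      apply Real.exp_le_exp.mpr
      have h8 : -5 ≤ -5 / ν k := by
        rw [le_div_iff₀ hνk]
        have := P.h.one k
        linarith
      linarith [hr.1]
    have hdom := dom_sum (c := c) P.h P.hK P.hτ P.hT hx0 hk h1 h2
    have harith := det_arith (R := c.R x) (S := ∑ i ∈ Finset.range N,
        deriv (deriv (uu ν i)) (c.rr x) * c.elX K τ T i x) P.hA P.hc7 P.hcf hN hp hx0 hRpos
        hSM hSD hUM hUD (by linarith [Hc_ge]) hE hdom hS hfl P.Ale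
    have hlow := P.s_lower hx hx0
    have hfin : ma (c.afun N ν K τ T A) x * c.ρ ^ 2 ≤
        ma (fun y => 3 / 4 * ‖y‖ ^ 2 + c.gfun N ν K τ T (c7 / N) y) x * c.ρ ^ 2 :=
      hup.trans (harith.trans hlow)
    exact le_of_mul_le_mul_right hfin (by positivity)

end Crv

end Pool.Agent.H50.CS
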