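import Pool.Agent.H50.CS.Tube1

/-!
# CS-TUBE1: plurisubharmonicity and domination in the tube

Constants. `cf > 0` is the constant of the curve: `cf ν_k²/N ≤ |f'(ζ)|²` for
`e^{-5/ν_k} ≤ |ζ| ≤ e^{-1/ν_k}`. `ε = c7/N` with `c7 e^{10} Hc ≤ (4/5) cf`. `A³ · 121 · Hc · e^{10} ≤ (1/5) c7² cf`.
`K` is so large that `ε e^{10} N Cs/(2K) ≤ ρ²/2`; `T 0` so large that `ε/(2τ²K T 0) ≤ 1/2`.

* `inn_lower` (in the closed tube `X ≤ τ²`): with `G_lower`, `norm_sq_lower`, `b_lower`: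
  `levi g + ¾|v|² ≥ |ξ|² + ¾|v|² + levi b ≥ ½|ξ|² + (3/10)|f'|²|η|² + ¾ρ²|η|² + levi b`
  `≥ ε(p SD/X B2 + ½p² SM/X A2) + (3/10)|f'|²|η|² - εW|η|²` and `εW ≤ (1/5)|f'|²`:
  if `W ≠ 0` then by `ss_range` `-5/ν_k ≤ r ≤ -1/ν_k`, `r = log|ζ|`, so `|f'|² ≥ cf ν_k²/N`, and
  `εW ≤ (c7/N) e^{10}/4 Hc ν_k² ≤ (1/5) cf ν_k²/N`. So the sum is `≥ ε(p SD/X B2 + ½p² SM/X A2) + (1/10)|f'|²|η|²`.
* `det_le` (domination, `X ≤ τ²`): suppose `levi a x ≥ 0`. If `X = 0`: `levi_a_zero` and `ma_upper` with the standard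
  basis give `ma a x ≤ 0 ≤ ma(¾|·|²+g)` (`ma_nonneg`). If `X > 0`: `ma_upper` with `v = bas`, `det_bas`:
  `ρ² ma a ≤ (A/N)³ (p³/X²) UM·UD·Σ⁺/(4R)`, `Σ = ∑ u_i''ℓ_i`. By `sum_uu`: `Σ ≤ 0` (then the third diagonal
  entry is `≤ 0`, so `ma a ≤ 0`) or for some `k`: `1 ≤ ν_k ss ≤ 2` and `Σ ≤ Hc ν_k²|ℓ_k|`. `ma_lower` with
  `q = (½εp²SM/X, εp SD/X, |f'|²/10)` (`bas_eta`, `bas_cc`, `bas_xsq`):
  `ρ² ma(¾|·|²+g) ≥ ½ε²(p³/X²) SM·SD·|f'|²/10`. By `dom_sum`, `1/R ≤ e^{10}` (`r ≥ -5/ν_k ≥ -5`), `|f'|² ≥ cf ν_k²/N`: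
  `(A/N)³·121 SM SD·Hc ν_k² e^{10}/4 ≤ (1/20) (c7/N)² SM SD cf ν_k²/N`. OK by the choice of `A`.
(This file: Par.bd, Par.ctr.)
-/

set_option autoImplicit false

noncomputable section

namespace Pool.Agent.H50.CS

open Complex Metric MeasureTheory Set Filter Topology
open scoped ContDiff ComplexConjugate
open Pool.Agent.H8.FZ

namespace Crv

variable {c : Crv} {N : ℕ} {ν : ℕ → ℝ} {K τ : ℝ} {T : ℕ → ℝ} {cf c7 A Cs : ℝ}

theorem tube_frontier {τ : ℝ} {x : En 3} (hx : x ∈ frontier (c.tube τ)) :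
    τ ^ 2 ≤ c.X x ∨ 1 ≤ c.R x := by
  have hopen : IsOpen (c.tube τ) :=
    (isOpen_lt c.X_smooth.continuous continuous_const).inter
      (isOpen_lt c.R_smooth.continuous continuous_const)
  rw [hopen.frontier_eq] at hx
  by_contra hcon
  push Not at hcon
  exact hx.2 hcon

/-- boundary values of the barrier: on the frontier of the tube `R = 1` or `X = τ²` -/
theorem Par.bd (P : Par c N ν K τ T cf c7 A Cs) {x : En 3} (hx : x ∈ frontier (c.tube τ)) :
    0 < c.afun N ν K τ T A x := by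
  have hN : (1 : ℝ) ≤ N := by exact_mod_cast P.h.hN
  have hK : 0 < K := by linarith [P.hK8]
  have hA := P.hA
  rw [afun]
  refine mul_pos hA ?_
  rcases tube_frontier hx with h | h
  · have hterm : ∀ i ∈ Finset.range N, -(1 / 16 : ℝ) ≤ c.uuX ν i x * c.elX K τ T i x := by
      intro i _
      have hTi := P.hT.one i
      have h1 := elX_out (c := c) hK P.hτ (i := i) (T := T) (by linarith) h
      obtain ⟨h2, h3⟩ := uuX_mem (c := c) P.h i x
      have h4 : 1 / (2 * K * T i) ≤ 1 / 16 := by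
        apply one_div_le_one_div_of_le (by norm_num)
        nlinarith [P.hK8]
      have h5 : |c.uuX ν i x * c.elX K τ T i x| ≤ 1 / 16 := by
        rw [abs_mul, abs_of_nonneg h2]
        calc c.uuX ν i x * |c.elX K τ T i x| ≤ 1 * (1 / 16) :=
              mul_le_mul h3 (h1.trans h4) (abs_nonneg _) (by norm_num)
          _ = 1 / 16 := by norm_num
      exact (abs_le.1 h5).1
    have hsum := Finset.sum_le_sum hterm
    rw [Finset.sum_const, Finset.card_range, nsmul_eq_mul] at hsum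
    have h6 : (1 / (N : ℝ)) * ((N : ℝ) * -(1 / 16)) ≤
        (1 / (N : ℝ)) * ∑ i ∈ Finset.range N, c.uuX ν i x * c.elX K τ T i x :=
      mul_le_mul_of_nonneg_left hsum (by positivity)
    have h7 : (1 / (N : ℝ)) * ((N : ℝ) * -(1 / 16)) = -(1 / 16) := by
      field_simp
    linarith
  · have hterm : ∀ i ∈ Finset.range N, c.uuX ν i x * c.elX K τ T i x = 0 := by
      intro i _
      have h1 : c.uuX ν i x = 0 := by
        rw [uuX, lr_pos _ _ (lt_of_lt_of_le one_pos h)]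
        refine (be_right (N := N) P.h ?_).2.2 i
        have := Real.log_nonneg h
        linarith
      rw [h1, zero_mul]
    rw [Finset.sum_eq_zero hterm]
    norm_num

theorem Par.ctr (P : Par c N ν K τ T cf c7 A Cs) {x : En 3} (hx : c.X x = 0) (hr : c.R x = 0) :
    c.afun N ν K τ T A x ≤ -(A / 4) := by
  have hN : (1 : ℝ) ≤ N := by exact_mod_cast P.h.hN
  have hN0 : (N : ℝ) ≠ 0 := by linarith
  have hA := P.hA
  have hterm : ∀ i ∈ Finset.range N, c.uuX ν i x * c.elX K τ T i x = Ps (-1) := by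
    intro i _
    have h1 : c.uuX ν i x = 1 := by
      rw [uuX, hr]
      exact lr_nonpos _ _ le_rfl
    have h2 : c.elX K τ T i x = Ps (-1) := by
      rw [elX, hx]
      exact lr_nonpos _ _ le_rfl
    rw [h1, h2, one_mul]
  rw [afun, Finset.sum_congr rfl hterm, Finset.sum_const, Finset.card_range, nsmul_eq_mul]
  have h3 : (1 / (N : ℝ)) * ((N : ℝ) * Ps (-1)) = Ps (-1) := by
    field_simp
  rw [h3]
  have h4 := Ps_neg_one_le
  nlinarith

end Crv

end Pool.Agent.H50.CS
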