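import Pool.Agent.H50.CS.TubeOut
import Pool.Agent.H50.CS.Tube2
import Pool.Agent.H50.CS.Tube3
import Pool.Agent.H50.CS.RS3

/-!
# CS-TUBE: existence of the tubes

Choice of the parameters. `cf` from `rs_main`; `c7 = (4/5) cf e^{-10}/Hc`; `A > 0` with
`A³·121·Hc·e^{10} ≤ (1/5)c7²cf`; `A₀ = A/4`. Given `ε₀ > 0` and `w₀ ∈ (0,1/16]`:
`N ≥ 1` with `c7/N ≤ ε₀/2`; `(ν,f1,f2,M)` from `rs_main N`; `ρ = min(w₀/8, w₀/(2 max M 1))` so that
`w₀/(2ρ) ≥ M`; the curve `c`. `Cs` from `be_sq`. On `ball 0 1`, `‖ζ‖ ≤ 2/ρ =: Z`, so `fsq ≤ F` (continuity of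
`deriv f_i` on the compact disc), `X ≤ Y` (continuity on the closed ball). Then `K ≥ 8, 2Hc` large:
`c7/N·(e^{10}N Cs/(2K)) ≤ ρ²/2` and `≤ ε₀ρ²/4`. `τ₀ ≤ 1/4` such that for `0 < τ < τ₀`:
`4τ²(|log(Y+1)| + |log τ²|) ≤ ε₀/2` (`τ² log τ → 0`); for `x` in the ball `τ² ≤ X + τ² ≤ Y + 1` so `|G| ≤ ε₀/2`.
Given `τ`: `T 0` large, `T (i+1) = 27N²e^K (T i)⁴`:
`c7/N/(2τ²K T 0) ≤ 1/2` and `(c7/N)/(2τ²K T 0)·(2 + 2F/ρ²) ≤ ε₀/4`, `(c7/N)·e^{10}/4·Hc ν₀²/(2K T 0) ≤ ε₀ρ²/4`.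
`TubeOK.out`: `x` in the ball off the tube. `levi g ≥ levi b` (`G_nonneg`); `b_lower`; the first bracket is `≥ 0`;
`xsq ≤ (2 + 2F/ρ²)‖v‖²` (`xsq_le`, `eta_le`); `‖η‖² ≤ ‖v‖²/ρ²`; `W`: if `W ≠ 0` then `rr x < 0` (`ss_range`), so
`R < 1` and (off the tube) `X ≥ τ²`: `|elX 0| ≤ 1/(2K T 0)` (`elX_out`), `ν_k ≤ ν_0`.
(This file: tube_thm.)
-/

set_option autoImplicit false

noncomputable section

namespace Pool.Agent.H50.CS

open Complex Metric MeasureTheory Set Filter Topology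
open scoped ContDiff ComplexConjugate
open Pool.Agent.H8.FZ

/-- the thickness scales -/
private def tsq (b q : ℝ) : ℕ → ℝ
  | 0 => b
  | (n + 1) => q * tsq b q n ^ 4

private theorem tsq_one {b q : ℝ} (hb : 1 ≤ b) (hq : 1 ≤ q) : ∀ n, 1 ≤ tsq b q n
  | 0 => hb
  | (n + 1) => by
    have h := tsq_one hb hq n
    have h4 : (1 : ℝ) ≤ tsq b q n ^ 4 := one_le_pow₀ h
    show 1 ≤ q * tsq b q n ^ 4
    nlinarith

private theorem exists_large (a t K₀ : ℝ) (ha : 0 ≤ a) (ht : 0 < t) :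
    ∃ K : ℝ, K₀ ≤ K ∧ 1 ≤ K ∧ a / K ≤ t := by
  refine ⟨max K₀ (max 1 (a / t)), le_max_left _ _,
    le_trans (le_max_left _ _) (le_max_right _ _), ?_⟩
  have h1 : a / t ≤ max K₀ (max 1 (a / t)) := le_trans (le_max_right _ _) (le_max_right _ _)
  have h2 : (0 : ℝ) < max K₀ (max 1 (a / t)) :=
    lt_of_lt_of_le one_pos (le_trans (le_max_left _ _) (le_max_right _ _))
  rw [div_le_iff₀ h2]
  rw [div_le_iff₀ ht] at h1
  linarith

private theorem ze_ball (c : Crv) (hw0 : 0 < c.w) (hw : c.w ≤ 1 / 16) {x : En 3}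
    (hx : x ∈ ball (0 : En 3) 1) : ‖c.ze x‖ ≤ 2 / c.ρ := by
  have hx1 : ‖x‖ < 1 := by simpa using hx
  have h2 : ‖x 2‖ ≤ ‖x‖ := PiLp.norm_apply_le x 2
  have hρ := c.hρ
  rw [Crv.ze, norm_div, Complex.norm_real, Real.norm_of_nonneg hρ.le]
  refine div_le_div_of_nonneg_right ?_ hρ.le
  have h3 : ‖x 2 - (c.w : ℂ)‖ ≤ ‖x 2‖ + ‖(c.w : ℂ)‖ := norm_sub_le _ _
  have h4 : ‖(c.w : ℂ)‖ = c.w := by
    rw [Complex.norm_real, Real.norm_of_nonneg hw0.le]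
  linarith

private theorem fsq_bound (c : Crv) (hw0 : 0 < c.w) (hw : c.w ≤ 1 / 16) :
    ∃ F : ℝ, 0 ≤ F ∧ ∀ x ∈ ball (0 : En 3) 1, c.fsq x ≤ F := by
  have h1 : Continuous (deriv c.f1) := (c.hf1.contDiff (n := 1)).continuous_deriv le_rfl
  have h2 : Continuous (deriv c.f2) := (c.hf2.contDiff (n := 1)).continuous_deriv le_rfl
  have h3 : Continuous fun ζ : ℂ => ‖deriv c.f1 ζ‖ ^ 2 + ‖deriv c.f2 ζ‖ ^ 2 :=
    (h1.norm.pow 2).add (h2.norm.pow 2)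
  obtain ⟨C, hC⟩ := (isCompact_closedBall (0 : ℂ) (2 / c.ρ)).exists_bound_of_continuousOn
    h3.continuousOn
  refine ⟨max C 0, le_max_right _ _, fun x hx => ?_⟩
  have h4 := hC (c.ze x) (by simpa using ze_ball c hw0 hw hx)
  have h5 : c.fsq x = ‖deriv c.f1 (c.ze x)‖ ^ 2 + ‖deriv c.f2 (c.ze x)‖ ^ 2 := rfl
  rw [h5]
  exact le_trans (le_trans (le_abs_self _) (by simpa [Real.norm_eq_abs] using h4))
    (le_max_left _ _)

private theorem X_bound (c : Crv) : ∃ Y : ℝ, 0 ≤ Y ∧ ∀ x ∈ ball (0 : En 3) 1, c.X x ≤ Y := by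
  obtain ⟨C, hC⟩ := (isCompact_closedBall (0 : En 3) 1).exists_bound_of_continuousOn
    c.X_smooth.continuous.continuousOn
  refine ⟨max C 0, le_max_right _ _, fun x hx => ?_⟩
  exact le_trans (le_trans (le_abs_self _) (hC x (ball_subset_closedBall hx))) (le_max_left _ _)

private theorem G_bound {c : Crv} {Y : ℝ} (hY0 : 0 ≤ Y) (hY : ∀ x ∈ ball (0 : En 3) 1, c.X x ≤ Y)
    {τ : ℝ} (hτ : 0 < τ) (hτ1 : τ ≤ 1) {x : En 3} (hx : x ∈ ball (0 : En 3) 1) :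
    |c.Gfun τ x| ≤ τ * (8 + 4 * Y) := by
  have hX0 : 0 ≤ c.X x := c.X_nonneg x
  have hXY := hY x hx
  have hτ2 : 0 < τ ^ 2 := by positivity
  have hpos : 0 < c.X x + τ ^ 2 := by linarith
  have hup : Real.log (c.X x + τ ^ 2) ≤ Y := by
    have h1 := Real.log_le_sub_one_of_pos hpos
    have h2 : τ ^ 2 ≤ 1 := by nlinarith
    linarith
  have hlow : -(2 / τ) ≤ Real.log (c.X x + τ ^ 2) := by
    have h1 : Real.log (τ ^ 2) ≤ Real.log (c.X x + τ ^ 2) :=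
      Real.log_le_log hτ2 (by linarith)
    have h2 : Real.log (τ ^ 2) = -(2 * Real.log (1 / τ)) := by
      rw [Real.log_pow, one_div, Real.log_inv]
      push_cast
      ring
    have h3 : Real.log (1 / τ) ≤ 1 / τ := by
      have := Real.log_le_sub_one_of_pos (show (0 : ℝ) < 1 / τ by positivity)
      linarith
    have h4 : 2 / τ = 2 * (1 / τ) := by ring
    rw [h4]
    linarith
  have habs : |Real.log (c.X x + τ ^ 2)| ≤ 2 / τ + Y := by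
    rw [abs_le]
    have h5 : 0 < 2 / τ := by positivity
    constructor
    · linarith
    · linarith
  have hG : c.Gfun τ x = 4 * τ ^ 2 * Real.log (c.X x + τ ^ 2) := rfl
  rw [hG, abs_mul, abs_of_nonneg (by positivity : (0 : ℝ) ≤ 4 * τ ^ 2)]
  calc 4 * τ ^ 2 * |Real.log (c.X x + τ ^ 2)| ≤ 4 * τ ^ 2 * (2 / τ + Y) :=
        mul_le_mul_of_nonneg_left habs (by positivity)
    _ = 8 * τ + 4 * τ ^ 2 * Y := by
        field_simp
        ring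
    _ ≤ τ * (8 + 4 * Y) := by nlinarith [mul_nonneg hτ.le hY0]

private theorem exists_cube (q : ℝ) (hq : 0 < q) (B : ℝ) (hB : 0 < B) :
    ∃ A : ℝ, 0 < A ∧ A ^ 3 * B ≤ q := by
  refine ⟨min 1 (q / B), lt_min one_pos (by positivity), ?_⟩
  have h0 : 0 < min 1 (q / B) := lt_min one_pos (by positivity)
  have h1 : min 1 (q / B) ≤ 1 := min_le_left _ _
  have h2 : min 1 (q / B) ≤ q / B := min_le_right _ _
  have h3 : min 1 (q / B) ^ 3 ≤ min 1 (q / B) := by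
    calc min 1 (q / B) ^ 3 = min 1 (q / B) * (min 1 (q / B)) ^ 2 := by ring
      _ ≤ min 1 (q / B) * 1 := mul_le_mul_of_nonneg_left (pow_le_one₀ h0.le h1) h0.le
      _ = _ := mul_one _
  calc min 1 (q / B) ^ 3 * B ≤ q / B * B := mul_le_mul_of_nonneg_right (h3.trans h2) hB.le
    _ = q := by field_simp

theorem tube_thm : ∃ A₀ : ℝ, 0 < A₀ ∧ ∀ ε₀ : ℝ, 0 < ε₀ → ∀ w₀ : ℝ, 0 < w₀ → w₀ ≤ 1 / 16 →
    ∃ c : Crv, c.w = w₀ ∧ CrvOK c ∧ ∃ τ₀ : ℝ, 0 < τ₀ ∧ ∀ τ : ℝ, 0 < τ → τ < τ₀ →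
      ∃ g a : En 3 → ℝ, TubeOK A₀ ε₀ c τ g a := by
  obtain ⟨cf, hcf, hrs⟩ := rs_main
  have hH : 1 ≤ Hc := Hc_ge
  have hH0 : 0 < Hc := by linarith
  have he : 0 < Real.exp 10 := Real.exp_pos 10
  set c7 : ℝ := 4 / 5 * cf / (Real.exp 10 * Hc) with hc7def
  have hc7 : 0 < c7 := by positivity
  have hc7le : c7 * Real.exp 10 * Hc ≤ 4 / 5 * cf := by
    rw [hc7def]
    apply le_of_eq
    field_simp
  obtain ⟨A, hA, hAle⟩ := exists_cube (1 / 5 * c7 ^ 2 * cf) (by positivity)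
    (121 * Hc * Real.exp 10) (by positivity)
  have hAle' : A ^ 3 * 121 * Hc * Real.exp 10 ≤ 1 / 5 * c7 ^ 2 * cf := by
    calc A ^ 3 * 121 * Hc * Real.exp 10 = A ^ 3 * (121 * Hc * Real.exp 10) := by ring
      _ ≤ _ := hAle
  refine ⟨A / 4, by positivity, fun ε₀ hε₀ w₀ hw₀ hw₀' => ?_⟩
  -- choice of `N`
  obtain ⟨N₁, hN₁⟩ := exists_nat_gt (c7 / (ε₀ / 2))
  set N : ℕ := N₁ + 1 with hNdef
  have hN : 1 ≤ N := by omega
  have hN0 : (0 : ℝ) < N := by positivity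
  have hεN : c7 / N ≤ ε₀ / 2 := by
    rw [div_le_iff₀ hN0]
    have h1 : c7 / (ε₀ / 2) < (N : ℝ) := by
      have : (N₁ : ℝ) ≤ (N : ℝ) := by rw [hNdef]; push_cast; linarith
      linarith
    rw [div_lt_iff₀ (by positivity)] at h1
    linarith
  have hε : 0 < c7 / N := by positivity
  obtain ⟨ν, f1, f2, M, hν1, hνs, hf1, hf2, hf10, hf20, hdisc, hlow, hfar⟩ := hrs N hN
  -- the curve
  set M' : ℝ := max M 4 with hM'
  have hM'4 : 4 ≤ M' := le_max_right _ _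
  have hM'0 : 0 < M' := by linarith
  set ρ₀ : ℝ := w₀ / (2 * M') with hρ₀
  have hρ₀pos : 0 < ρ₀ := by positivity
  let c : Crv := ⟨f1, f2, w₀, ρ₀, hf1, hf2, hρ₀pos⟩
  have hcw : c.w = w₀ := rfl
  have hcρ : c.ρ = ρ₀ := rfl
  have hρ8 : 8 * ρ₀ ≤ w₀ := by
    rw [hρ₀]
    rw [← sub_nonneg]
    have : w₀ - 8 * (w₀ / (2 * M')) = w₀ * (M' - 4) / M' := by
      field_simp
      ring
    rw [this]
    have : 0 ≤ M' - 4 := by linarith
    positivity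
  have hwρ : w₀ / (2 * ρ₀) = M' := by
    rw [hρ₀]
    field_simp
  have hCOK : CrvOK c := by
    refine ⟨by rw [hcw]; exact hw₀, by rw [hcw, hcρ]; exact hρ8, hf10, hf20, hdisc, ?_⟩
    intro ζ hζ
    rw [hcw, hcρ, hwρ] at hζ
    exact hfar ζ (le_trans (le_max_left _ _) hζ)
  refine ⟨c, hcw, hCOK, ?_⟩
  have hSc : Scales N ν := ⟨hN, hν1, hνs⟩
  obtain ⟨Cs, hCs0, hCs⟩ := be_sq hSc
  obtain ⟨F, hF0, hF⟩ := fsq_bound c (by rw [hcw]; exact hw₀) (by rw [hcw]; exact hw₀')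
  obtain ⟨Y, hY0, hY⟩ := X_bound c
  -- choice of `K`
  have hρ2 : 0 < ρ₀ ^ 2 := by positivity
  obtain ⟨K, hKge, hK1, hKle⟩ := exists_large (c7 / N * (Real.exp 10 * N * Cs / 2))
    (min (ρ₀ ^ 2 / 2) (ε₀ * ρ₀ ^ 2 / 4)) (max 8 (2 * Hc)) (by positivity)
    (lt_min (by positivity) (by positivity))
  have hK8 : 8 ≤ K := le_trans (le_max_left _ _) hKge
  have hKH : 2 * Hc ≤ K := le_trans (le_max_right _ _) hKge
  have hK0 : 0 < K := by linarith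
  have hKeq : c7 / N * (Real.exp 10 * N * Cs / (2 * K)) =
      c7 / N * (Real.exp 10 * N * Cs / 2) / K := by
    field_simp
  have hKa : c7 / N * (Real.exp 10 * N * Cs / (2 * K)) ≤ ρ₀ ^ 2 / 2 := by
    rw [hKeq]
    exact hKle.trans (min_le_left _ _)
  have hKb : c7 / N * (Real.exp 10 * N * Cs / (2 * K)) ≤ ε₀ * ρ₀ ^ 2 / 4 := by
    rw [hKeq]
    exact hKle.trans (min_le_right _ _)
  -- choice of `τ₀`
  have h84 : 0 < 8 + 4 * Y := by linarith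
  refine ⟨min 1 (ε₀ / (2 * (8 + 4 * Y))), lt_min one_pos (by positivity), fun τ hτ hττ => ?_⟩
  have hτ1 : τ ≤ 1 := (hττ.trans_le (min_le_left _ _)).le
  have hτε : τ * (8 + 4 * Y) ≤ ε₀ / 2 := by
    have h1 : τ ≤ ε₀ / (2 * (8 + 4 * Y)) := (hττ.trans_le (min_le_right _ _)).le
    rw [le_div_iff₀ (by positivity)] at h1
    linarith
  -- choice of `T`
  have hτ2 : 0 < τ ^ 2 := by positivity
  have hq : 1 ≤ 27 * (N : ℝ) ^ 2 * Real.exp K := by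
    have h1 : (1 : ℝ) ≤ N := by exact_mod_cast hN
    have h2 : 1 ≤ Real.exp K := Real.one_le_exp hK0.le
    have h3 : (1 : ℝ) ≤ (N : ℝ) ^ 2 := one_le_pow₀ h1
    nlinarith
  obtain ⟨b, hb1, hb2, hb3⟩ := exists_large
    (c7 / N / (2 * τ ^ 2 * K) + c7 / N / (2 * τ ^ 2 * K) * (2 + 2 * F / ρ₀ ^ 2) +
      c7 / N * (Real.exp 10 / 4 * Hc * ν 0 ^ 2 * (1 / (2 * K))))
    (min (1 / 2) (min (ε₀ / 4) (ε₀ * ρ₀ ^ 2 / 4))) 1 (by positivity)
    (lt_min (by norm_num) (lt_min (by positivity) (by positivity)))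
  have hb0 : 0 < b := by linarith
  set T : ℕ → ℝ := tsq b (27 * (N : ℝ) ^ 2 * Real.exp K) with hTdef
  have hT0 : T 0 = b := rfl
  have hT : TChain N K T := ⟨tsq_one hb1 hq, fun i => le_of_eq rfl⟩
  have hp1 : 0 ≤ c7 / N / (2 * τ ^ 2 * K) := by positivity
  have hp2 : 0 ≤ c7 / N / (2 * τ ^ 2 * K) * (2 + 2 * F / ρ₀ ^ 2) := by positivity
  have hp3 : 0 ≤ c7 / N * (Real.exp 10 / 4 * Hc * ν 0 ^ 2 * (1 / (2 * K))) := by positivity
  have hTa : c7 / N / (2 * τ ^ 2 * K * T 0) ≤ 1 / 2 := by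
    rw [hT0]
    have h1 : c7 / N / (2 * τ ^ 2 * K * b) = c7 / N / (2 * τ ^ 2 * K) / b := by
      field_simp
    rw [h1]
    refine le_trans ?_ (hb3.trans (min_le_left _ _))
    exact div_le_div_of_nonneg_right (by linarith) hb0.le
  have hTb : c7 / N / (2 * τ ^ 2 * K * T 0) * (2 + 2 * F / ρ₀ ^ 2) ≤ ε₀ / 4 := by
    rw [hT0]
    have h1 : c7 / N / (2 * τ ^ 2 * K * b) * (2 + 2 * F / ρ₀ ^ 2) =
        c7 / N / (2 * τ ^ 2 * K) * (2 + 2 * F / ρ₀ ^ 2) / b := by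
      field_simp
    rw [h1]
    refine le_trans ?_ (hb3.trans ((min_le_right _ _).trans (min_le_left _ _)))
    exact div_le_div_of_nonneg_right (by linarith) hb0.le
  have hTc : c7 / N * (Real.exp 10 / 4 * Hc * ν 0 ^ 2 * (1 / (2 * K * T 0))) ≤
      ε₀ * ρ₀ ^ 2 / 4 := by
    rw [hT0]
    have h1 : c7 / N * (Real.exp 10 / 4 * Hc * ν 0 ^ 2 * (1 / (2 * K * b))) =
        c7 / N * (Real.exp 10 / 4 * Hc * ν 0 ^ 2 * (1 / (2 * K))) / b := by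
      field_simp
    rw [h1]
    refine le_trans ?_ (hb3.trans ((min_le_right _ _).trans (min_le_right _ _)))
    exact div_le_div_of_nonneg_right (by linarith) hb0.le
  have hTpos : ∀ i, 0 < T i := fun i => lt_of_lt_of_le one_pos (hT.one i)
  have P : Crv.Par c N ν K τ T cf c7 A Cs :=
    ⟨hSc, hKH, hK8, hτ, hT, hcf, hc7, hA, hCs0, hc7le, hAle', hlow, hCs, hKa, hTa⟩
  refine ⟨c.gfun N ν K τ T (c7 / N), c.afun N ν K τ T A, ?_⟩
  refine ⟨Crv.gfun_smooth hSc hK0 hτ hTpos _, Crv.afun_smooth hSc hK0 hτ hTpos _, ?_, ?_, ?_, ?_, ?_,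
    ?_⟩
  · intro x hx
    have h1 : c.gfun N ν K τ T (c7 / N) x = c.Gfun τ x + c.bfun N ν K τ T (c7 / N) x := rfl
    rw [h1]
    have h2 := Crv.bfun_abs (c := c) (τ := τ) hSc hK0 hTpos hε.le x
    have h3 := G_bound hY0 hY hτ hτ1 hx
    have h4 := abs_add_le (c.Gfun τ x) (c.bfun N ν K τ T (c7 / N) x)
    linarith
  · intro x hx hxt v
    exact P.out hF hKb hTb hTc hx hxt v
  · intro x hx v
    exact P.inn hx.1.le v
  · intro x hx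
    exact P.bd hx
  · intro x hx hr
    exact P.ctr hx hr
  · intro x hx ha
    exact P.det_le hx.1.le ha

end Pool.Agent.H50.CS
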