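import Pool.Agent.H50.CS.Bad
import Pool.Agent.H50.CS.Tube
import Pool.Agent.H50.CS.Psi

/-!
# CS-SYS: the sequence of tubes

* `curve_null`: `{x ∈ ball 0 1 | X x = 0}` has volume zero: it is contained in
  `A = {x ∈ ball 0 1 | x 0 = f₁((x 2 - w)/ρ)}`, whose translates `A + (1/(n+1)) e₀`, `n ∈ ℕ`, are pairwise disjoint, contained in
  `ball 0 2` (finite volume) and have the same volume (translation invariance). So `volume A = 0`.
* `bad_small`: `volume {x ∈ ball 0 1 | X x < σ²} → 0` as `σ → 0` (continuity from above along `σ = 1/n`,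
  `⋂ = {X = 0}`; finite measure).
* `tube_sub`: if `CrvOK c`, `c.w ≤ 1/16`, `0 < τ ≤ 1/4` then for `x` with `X x ≤ τ²`, `R x ≤ 1`: `‖x‖ ≤ 7/8`, hence the
  closure of the tube is a compact subset of `ball 0 1` (in fact of `closedBall 0 (7/8)`):
  `|(x₀,x₁)| ≤ |f(ζ)| + τ ≤ 1/2 + 1/4`, `|x₂| ≤ w + ρ ≤ 9/128`.
* `sys_exists`: `A₀` from `tube_thm`; for each `j`: `w_j = (1/2)^j/16`, `ε_j = (1/2)^j/64`: the curve `c_j` and its `τ₀`;
  `σ_j ∈ (0,1/2]` from `bad_small` with `volume (bad_j) ≤ (1/2)^(j+2) volume (ball 0 (w_j/2))`,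
  `bad_j = {x ∈ ball 0 1 | X x < σ_j²}`; `τ₁` from `psi_exists` with `η = A₀ (1/2)^j/32`, `σ = σ_j`;
  `τ_j = ½ min(τ₀, τ₁, 1/4)`, then `g_j, a_j` from `tube_thm` and `ψ_j` from `psi_exists` (`ε_j ≤ 1/64`).
* `bad_far`: `bad_j` is disjoint from `ball (1/4,0,0) (w_j/2)`: there `|x₂| < w_j/2`, so `‖ζ‖ ≥ w_j/(2ρ_j)`, `|f(ζ)| ≥ 2`
  (`far`), `|(x₀,x₁)| ≤ 1`, so `X ≥ 1 ≥ σ_j²`.
(This file: xst, Sys, sys_exists.)
-/

set_option autoImplicit false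

noncomputable section

namespace Pool.Agent.H50.CS

open Complex Metric MeasureTheory Set Filter Topology
open scoped ContDiff ComplexConjugate
open Pool.Agent.H8.FZ

/-- the limit point -/
def xst : En 3 := !₂[(1 / 4 : ℂ), (0 : ℂ), (0 : ℂ)]

/-- The complete system of tubes. -/
structure Sys where
  A₀ : ℝ
  hA₀ : 0 < A₀
  c : ℕ → Crv
  τ : ℕ → ℝ
  g : ℕ → En 3 → ℝ
  a : ℕ → En 3 → ℝ
  ψ : ℕ → En 3 → ℝ
  bad : ℕ → Set (En 3)
  w : ∀ j, (c j).w = (1 / 2) ^ j / 16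
  crv : ∀ j, CrvOK (c j)
  hτ : ∀ j, 0 < τ j
  hτ4 : ∀ j, τ j ≤ 1 / 4
  ok : ∀ j, TubeOK A₀ ((1 / 2) ^ j / 64) (c j) (τ j) (g j) (a j)
  ψs : ∀ j, ContDiff ℝ ∞ (ψ j)
  ψn : ∀ j, ∀ x ∈ ball (0 : En 3) 1, ψ j x ≤ 0
  ψp : ∀ j, ∀ x ∈ ball (0 : En 3) 1, ∀ v, 0 ≤ levi (ψ j) x v
  ψt : ∀ j, ∀ x ∈ (c j).tube (τ j), ∀ v, 7 / 8 * ‖v‖ ^ 2 + levi (g j) x v ≤ levi (ψ j) x v
  ψb : ∀ j, ∀ x ∈ ball (0 : En 3) 1, x ∉ bad j → -(A₀ * (1 / 2) ^ j / 32) ≤ ψ j x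
  badm : ∀ j, MeasurableSet (bad j)
  badfar : ∀ j, Disjoint (bad j) (ball xst ((c j).w / 2))
  badvol : ∀ j, volume (bad j) ≤ (1 / 2) ^ (j + 2) * volume (ball (0 : En 3) ((c j).w / 2))

theorem sys_exists : Nonempty Sys := by
  obtain ⟨A₀, hA₀, htube⟩ := tube_thm
  have hw : ∀ j : ℕ, 0 < (1 / 2 : ℝ) ^ j / 16 := fun j => by positivity
  have hw' : ∀ j : ℕ, (1 / 2 : ℝ) ^ j / 16 ≤ 1 / 16 := fun j => by
    have : (1 / 2 : ℝ) ^ j ≤ 1 := pow_le_one₀ (by norm_num) (by norm_num)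
    linarith
  have hε : ∀ j : ℕ, 0 < (1 / 2 : ℝ) ^ j / 64 := fun j => by positivity
  have hε' : ∀ j : ℕ, (1 / 2 : ℝ) ^ j / 64 ≤ 1 / 64 := fun j => by
    have : (1 / 2 : ℝ) ^ j ≤ 1 := pow_le_one₀ (by norm_num) (by norm_num)
    linarith
  choose c hcw hcok τ₀ hτ₀ hg using fun j : ℕ => htube ((1 / 2) ^ j / 64) (hε j)
    ((1 / 2) ^ j / 16) (hw j) (hw' j)
  have hδ : ∀ j : ℕ, (0 : ENNReal) < (1 / 2) ^ (j + 2) *
      volume (ball (0 : En 3) ((c j).w / 2)) := by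
    intro j
    have h1 : (0 : ENNReal) < (1 / 2) ^ (j + 2) := by
      refine ENNReal.pow_pos ?_ _
      simp
    have h2 : 0 < volume (ball (0 : En 3) ((c j).w / 2)) := by
      refine measure_ball_pos _ _ ?_
      rw [hcw]
      positivity
    exact ENNReal.mul_pos h1.ne' h2.ne'
  choose σ hσ hσ2 hσv using fun j : ℕ => bad_small (c j) (hδ j)
  have hη : ∀ j : ℕ, 0 < A₀ * (1 / 2) ^ j / 32 := fun j => by positivity
  choose τ₁ hτ₁ hψ using fun j : ℕ => psi_exists (c j) (hcok j) (hη j) (hσ j)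
  set τ : ℕ → ℝ := fun j => min (min (τ₀ j) (τ₁ j)) (1 / 4) / 2 with hτdef
  have hτpos : ∀ j, 0 < τ j := by
    intro j
    have : 0 < min (min (τ₀ j) (τ₁ j)) (1 / 4) :=
      lt_min (lt_min (hτ₀ j) (hτ₁ j)) (by norm_num)
    simp only [hτdef]
    linarith
  have hτlt : ∀ j, τ j < min (min (τ₀ j) (τ₁ j)) (1 / 4) := by
    intro j
    have : 0 < min (min (τ₀ j) (τ₁ j)) (1 / 4) :=
      lt_min (lt_min (hτ₀ j) (hτ₁ j)) (by norm_num)
    simp only [hτdef]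
    linarith
  have hτa : ∀ j, τ j < τ₀ j := fun j =>
    (hτlt j).trans_le ((min_le_left _ _).trans (min_le_left _ _))
  have hτb : ∀ j, τ j < τ₁ j := fun j =>
    (hτlt j).trans_le ((min_le_left _ _).trans (min_le_right _ _))
  have hτc : ∀ j, τ j ≤ 1 / 4 := fun j => ((hτlt j).trans_le (min_le_right _ _)).le
  choose g a hga using fun j : ℕ => hg j (τ j) (hτpos j) (hτa j)
  have hψ' : ∀ j, ∃ ψ : En 3 → ℝ, ContDiff ℝ ∞ ψ ∧ (∀ x ∈ ball (0 : En 3) 1, ψ x ≤ 0) ∧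
        (∀ x ∈ ball (0 : En 3) 1, ∀ v, 0 ≤ levi ψ x v) ∧
        (∀ x ∈ ball (0 : En 3) 1, x ∈ (c j).tube (τ j) → ∀ v,
          7 / 8 * ‖v‖ ^ 2 + levi (g j) x v ≤ levi ψ x v) ∧
        ∀ x ∈ ball (0 : En 3) 1, σ j ^ 2 ≤ (c j).X x → -(A₀ * (1 / 2) ^ j / 32) ≤ ψ x := by
    intro j
    refine hψ j (τ j) (hτpos j) (hτb j) (g j) (hga j).gs ?_ ?_ (hga j).inn
    · intro x hx
      exact ((hga j).gb x hx).trans (hε' j)
    · intro x hx hxt v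
      refine le_trans ?_ ((hga j).out x hx hxt v)
      have := mul_le_mul_of_nonneg_right (hε' j) (sq_nonneg ‖v‖)
      linarith
  choose ψ hψs hψn hψp hψt hψb using hψ'
  have htub : ∀ j, (c j).tube (τ j) ⊆ ball (0 : En 3) 1 := by
    intro j x hx
    have h1 := (tube_sub (hcok j) (by rw [hcw]; exact hw' j) (hτpos j) (hτc j)).2.1
      (subset_closure hx)
    exact closedBall_subset_ball (by norm_num) h1
  refine ⟨{ A₀ := A₀, hA₀ := hA₀, c := c, τ := τ, g := g, a := a, ψ := ψ,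
            bad := fun j => {x : En 3 | x ∈ ball (0 : En 3) 1 ∧ (c j).X x < σ j ^ 2},
            w := hcw, crv := hcok, hτ := hτpos, hτ4 := hτc, ok := hga, ψs := hψs, ψn := hψn,
            ψp := hψp, ψt := ?_, ψb := ?_, badm := ?_, badfar := ?_, badvol := hσv }⟩
  · intro j x hx v
    exact hψt j x (htub j hx) hx v
  · intro j x hx hxb
    refine hψb j x hx ?_
    by_contra hlt
    exact hxb ⟨hx, not_le.mp hlt⟩
  · intro j
    exact (isOpen_ball.measurableSet).inter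
      (measurableSet_lt (c j).X_smooth.continuous.measurable measurable_const)
  · intro j
    rw [Set.disjoint_left]
    rintro x ⟨hx, hxX⟩ hxs
    have hwj : 0 < (c j).w := (hcok j).hw
    have hρ := (c j).hρ
    -- `|x 2| < w/2`
    have h2 : ‖x 2‖ < (c j).w / 2 := by
      have h3 : ‖(x - xst) 2‖ ≤ ‖x - xst‖ := PiLp.norm_apply_le _ 2
      have h4 : (x - xst) 2 = x 2 := by
        simp [xst]
      rw [h4] at h3
      rw [mem_ball, dist_eq_norm] at hxs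
      exact h3.trans_lt hxs
    have h5 : (c j).w / (2 * (c j).ρ) ≤ ‖(c j).ze x‖ := by
      rw [Crv.ze, norm_div, Complex.norm_real, Real.norm_of_nonneg hρ.le,
        div_le_div_iff₀ (by positivity) hρ]
      have h6 : ‖((c j).w : ℂ)‖ = (c j).w := by
        rw [Complex.norm_real, Real.norm_of_nonneg hwj.le]
      have h7 : ‖((c j).w : ℂ)‖ - ‖x 2‖ ≤ ‖((c j).w : ℂ) - x 2‖ := norm_sub_norm_le _ _
      rw [norm_sub_rev] at h7
      rw [h6] at h7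
      have h8 : (c j).w / 2 ≤ ‖x 2 - ((c j).w : ℂ)‖ := by linarith
      nlinarith
    have h9 := (hcok j).far _ h5
    -- `|z'| ≥ 1`
    have hx1 : ‖x‖ ^ 2 < 1 := by
      have : ‖x‖ < 1 := by simpa using hx
      nlinarith [norm_nonneg x]
    have hx01 : ‖x 0‖ ^ 2 + ‖x 1‖ ^ 2 ≤ ‖x‖ ^ 2 := by
      rw [EuclideanSpace.norm_sq_eq, Fin.sum_univ_three]
      nlinarith [sq_nonneg ‖x 2‖]
    have hσj : σ j ^ 2 ≤ 1 / 4 := by nlinarith [hσ j, hσ2 j]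
    have hXlt : (c j).X x < 1 / 4 := lt_of_lt_of_le hxX hσj
    have hXeq : (c j).X x = ‖x 0 - (c j).f1 ((c j).ze x)‖ ^ 2 +
      ‖x 1 - (c j).f2 ((c j).ze x)‖ ^ 2 := rfl
    -- `|f|² ≤ 2|z'|² + 2|x|²`-type inequality
    have k1 : ‖(c j).f1 ((c j).ze x)‖ ^ 2 ≤
        2 * ‖x 0 - (c j).f1 ((c j).ze x)‖ ^ 2 + 2 * ‖x 0‖ ^ 2 := by
      have := norm_sub_norm_le ((c j).f1 ((c j).ze x)) (x 0)
      rw [norm_sub_rev] at this
      have h0 := norm_nonneg ((c j).f1 ((c j).ze x))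
      nlinarith [sq_nonneg (‖x 0 - (c j).f1 ((c j).ze x)‖ - ‖x 0‖),
        norm_nonneg (x 0 - (c j).f1 ((c j).ze x)), norm_nonneg (x 0)]
    have k2 : ‖(c j).f2 ((c j).ze x)‖ ^ 2 ≤
        2 * ‖x 1 - (c j).f2 ((c j).ze x)‖ ^ 2 + 2 * ‖x 1‖ ^ 2 := by
      have := norm_sub_norm_le ((c j).f2 ((c j).ze x)) (x 1)
      rw [norm_sub_rev] at this
      have h0 := norm_nonneg ((c j).f2 ((c j).ze x))
      nlinarith [sq_nonneg (‖x 1 - (c j).f2 ((c j).ze x)‖ - ‖x 1‖),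
        norm_nonneg (x 1 - (c j).f2 ((c j).ze x)), norm_nonneg (x 1)]
    linarith

end Pool.Agent.H50.CS
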