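import Pool.Agent.H50.CS.Sys

/-!
# CS-SYS: the sequence of tubes

* `curve_null`: `{x ∈ ball 0 1 | X x = 0}` has volume zero: it is contained in
  `A = {x ∈ ball 0 1 | x 0 = f₁((x 2 - w)/ρ)}`, whose translates `A + (1/(n+1)) e₀`, `n ∈ ℕ`, are pairwise disjoint, contained in
  `ball 0 2` (finite volume) and have the same volume (translation invariance). So `volume A = 0`.
* `bad_small`: `volume {x ∈ ball 0 1 | X x < σ²} → 0` as `σ → 0` (continuity from above along `σ = 1/n`,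
  `⋂ = {X = 0}`; finite measure).
* `tube_sub`: if `CrvOK c`, `c.w ≤ 1/16`, `0 < τ ≤ 1/4` then for `x` with `X x ≤ τ²`, `R x ≤ 1`: `‖x‖ ≤ 7/8`, hence the
  closure of the tube is a compact subset of `ball 0 1` (in fact of `closedBall 0 (7/8)`):
  `|(x₀,x₁)| ≤ |f(ζ)| + τ ≤ 1/2 + 1/4`, `|x₂| ≤ w + ρ ≤ 9/128`.
* `sys_exists`: `A₀` from `tube_thm`; for each `j`: `w_j = (1/2)^j/16`, `ε_j = (1/2)^j/64`: the curve `c_j` and its `τ₀`;
  `σ_j ∈ (0,1/2]` from `bad_small` with `volume (bad_j) ≤ (1/2)^(j+2) volume (ball 0 (w_j/2))`,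
  `bad_j = {x ∈ ball 0 1 | X x < σ_j²}`; `τ₁` from `psi_exists` with `η = A₀ (1/2)^j/32`, `σ = σ_j`;
  `τ_j = ½ min(τ₀, τ₁, 1/4)`, then `g_j, a_j` from `tube_thm` and `ψ_j` from `psi_exists` (`ε_j ≤ 1/64`).
* `bad_far`: `bad_j` is disjoint from `ball (1/4,0,0) (w_j/2)`: there `|x₂| < w_j/2`, so `‖ζ‖ ≥ w_j/(2ρ_j)`, `|f(ζ)| ≥ 2`
  (`far`), `|(x₀,x₁)| ≤ 1`, so `X ≥ 1 ≥ σ_j²`.
(This file: T, T_open, T_closure, T_compact, T_disjoint, ctr, ctr_mem, ctr_tendsto, xst_mem, not_bad.)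
-/

set_option autoImplicit false

noncomputable section

namespace Pool.Agent.H50.CS

open Complex Metric MeasureTheory Set Filter Topology
open scoped ContDiff ComplexConjugate
open Pool.Agent.H8.FZ

namespace Sys

variable (S : Sys)

/-- the `j`-th tube -/
def T (j : ℕ) : Set (En 3) := (S.c j).tube (S.τ j)

theorem w_le (j : ℕ) : (S.c j).w ≤ 1 / 16 := by
  rw [S.w j]
  have : (1 / 2 : ℝ) ^ j ≤ 1 := pow_le_one₀ (by norm_num) (by norm_num)
  linarith

theorem T_open (j : ℕ) : IsOpen (S.T j) :=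
  (tube_sub (S.crv j) (S.w_le j) (S.hτ j) (S.hτ4 j)).1

theorem T_closure (j : ℕ) : closure (S.T j) ⊆ closedBall (0 : En 3) (7 / 8) :=
  (tube_sub (S.crv j) (S.w_le j) (S.hτ j) (S.hτ4 j)).2.1

theorem T_compact (j : ℕ) : IsCompact (closure (S.T j)) :=
  (tube_sub (S.crv j) (S.w_le j) (S.hτ j) (S.hτ4 j)).2.2

theorem T_dist {j : ℕ} {x : En 3} (hx : x ∈ S.T j) :
    ‖x 2 - ((S.c j).w : ℂ)‖ < (S.c j).w / 8 := by
  have hR : (S.c j).R x < 1 := hx.2
  have hρ := (S.c j).hρ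
  have h8 := (S.crv j).hρ8
  have h1 : (S.c j).R x = ‖(S.c j).ze x‖ ^ 2 := rfl
  rw [h1] at hR
  have h2 : ‖(S.c j).ze x‖ < 1 := by
    by_contra h
    push Not at h
    nlinarith
  have h3 : ‖(S.c j).ze x‖ = ‖x 2 - ((S.c j).w : ℂ)‖ / (S.c j).ρ := by
    rw [Crv.ze, norm_div, Complex.norm_real, Real.norm_of_nonneg hρ.le]
  rw [h3, div_lt_one hρ] at h2
  linarith

theorem T_disj_lt {i j : ℕ} (hij : i < j) : Disjoint (S.T i) (S.T j) := by
  rw [Set.disjoint_left]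
  intro x hxi hxj
  have h1 := S.T_dist hxi
  have h2 := S.T_dist hxj
  have hwj : 0 < (S.c j).w := (S.crv j).hw
  have hle : (S.c j).w ≤ (S.c i).w / 2 := by
    rw [S.w i, S.w j]
    have h3 : (1 / 2 : ℝ) ^ j ≤ (1 / 2) ^ (i + 1) :=
      pow_le_pow_of_le_one (by norm_num) (by norm_num) hij
    rw [pow_succ] at h3
    linarith
  have h4 : ‖((S.c i).w : ℂ) - ((S.c j).w : ℂ)‖ ≤
      ‖x 2 - ((S.c i).w : ℂ)‖ + ‖x 2 - ((S.c j).w : ℂ)‖ := by
    have h5 : ((S.c i).w : ℂ) - ((S.c j).w : ℂ) =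
        (x 2 - ((S.c j).w : ℂ)) - (x 2 - ((S.c i).w : ℂ)) := by ring
    rw [h5]
    exact (norm_sub_le _ _).trans (le_of_eq (add_comm _ _))
  have h6 : ‖((S.c i).w : ℂ) - ((S.c j).w : ℂ)‖ = (S.c i).w - (S.c j).w := by
    rw [← Complex.ofReal_sub, Complex.norm_real, Real.norm_of_nonneg (by linarith)]
  rw [h6] at h4
  linarith

/-- `|x₂ - w_j| < ρ_j ≤ w_j/8` on the tube, `w_{j+1} = w_j/2` -/
theorem T_disjoint {i j : ℕ} (hij : i ≠ j) : Disjoint (S.T i) (S.T j) := by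
  rcases lt_or_gt_of_ne hij with h | h
  · exact S.T_disj_lt h
  · exact (S.T_disj_lt h).symm

/-- the centres `x_j = (1/4, 0, w_j)` -/
def ctr (j : ℕ) : En 3 := !₂[(1 / 4 : ℂ), (0 : ℂ), ((S.c j).w : ℂ)]

theorem ctr_X (j : ℕ) : (S.c j).X (S.ctr j) = 0 ∧ (S.c j).R (S.ctr j) = 0 := by
  have h0 : (S.c j).ze (S.ctr j) = 0 := by
    simp [Crv.ze, ctr]
  constructor
  · simp only [Crv.X, Crv.Z1, Crv.Z2, h0, (S.crv j).f10, (S.crv j).f20]
    simp [ctr]
  · simp [Crv.R, h0]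

theorem ctr_mem (j : ℕ) : S.ctr j ∈ S.T j ∧ S.a j (S.ctr j) ≤ -S.A₀ := by
  obtain ⟨h1, h2⟩ := S.ctr_X j
  refine ⟨⟨?_, ?_⟩, (S.ok j).ctr _ h1 h2⟩
  · rw [h1]
    have := S.hτ j
    positivity
  · rw [h2]
    norm_num

theorem ctr_sub (j : ℕ) : S.ctr j - xst = EuclideanSpace.single 2 ((S.c j).w : ℂ) := by
  ext i
  fin_cases i <;> simp [ctr, xst]

theorem ctr_tendsto : Tendsto S.ctr atTop (𝓝 xst) := by
  rw [tendsto_iff_norm_sub_tendsto_zero]
  have h1 : ∀ j, ‖S.ctr j - xst‖ = (1 / 2) ^ j / 16 := by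
    intro j
    rw [S.ctr_sub j, EuclideanSpace.norm_single, Complex.norm_real,
      Real.norm_of_nonneg (S.crv j).hw.le, S.w j]
  simp only [h1]
  have h2 : Tendsto (fun j : ℕ => (1 / 2 : ℝ) ^ j) atTop (𝓝 0) :=
    tendsto_pow_atTop_nhds_zero_of_lt_one (by norm_num) (by norm_num)
  simpa using h2.div_const 16

theorem xst_mem : xst ∈ ball (0 : En 3) 1 := by
  have h1 : xst = EuclideanSpace.single 0 (1 / 4 : ℂ) := by
    ext i
    fin_cases i <;> simp [xst]
  rw [mem_ball_zero_iff, h1, EuclideanSpace.norm_single]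
  norm_num

/-- a ball around `xst` is not covered by the bad sets: for `s ≤ w_j/2` the set `bad_j` misses `ball xst s`, and
`∑_{w_j/2 < s} volume (bad_j) ≤ ∑ (1/2)^(j+2) volume (ball 0 s) ≤ ½ volume (ball xst s)` -/
theorem not_bad {s : ℝ} (hs : 0 < s) : 0 < volume (ball xst s \ ⋃ j, S.bad j) := by
  by_contra h0
  have h0' : volume (ball xst s \ ⋃ j, S.bad j) = 0 := by
    simpa using h0
  have hVpos : 0 < volume (ball xst s) := measure_ball_pos _ _ hs
  have hVfin : volume (ball xst s) ≠ ⊤ := measure_ball_lt_top.ne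
  have hV0 : volume (ball (0 : En 3) s) = volume (ball xst s) :=
    (Measure.addHaar_ball_center volume xst s).symm
  have hj : ∀ j, volume (ball xst s ∩ S.bad j) ≤ (1 / 2) ^ (j + 2) * volume (ball xst s) := by
    intro j
    by_cases hsj : s ≤ (S.c j).w / 2
    · have h1 : ball xst s ∩ S.bad j = ∅ := by
        rw [← Set.disjoint_iff_inter_eq_empty]
        exact ((S.badfar j).mono_right (ball_subset_ball hsj)).symm
      rw [h1]
      simp
    · push Not at hsj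
      calc volume (ball xst s ∩ S.bad j) ≤ volume (S.bad j) := measure_mono inter_subset_right
        _ ≤ (1 / 2) ^ (j + 2) * volume (ball (0 : En 3) ((S.c j).w / 2)) := S.badvol j
        _ ≤ (1 / 2) ^ (j + 2) * volume (ball xst s) := by
            rw [← hV0]
            exact mul_le_mul_right (measure_mono (ball_subset_ball hsj.le)) _
  have h2 : volume (ball xst s ∩ ⋃ j, S.bad j) ≤ 1 / 2 * volume (ball xst s) := by
    rw [Set.inter_iUnion]
    refine (measure_iUnion_le _).trans ?_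
    refine (ENNReal.tsum_le_tsum hj).trans ?_
    rw [ENNReal.tsum_mul_right]
    refine le_of_eq (congrArg (fun t => t * volume (ball xst s)) ?_)
    have h3 : ∀ j : ℕ, (1 / 2 : ENNReal) ^ (j + 2) = (1 / 2) ^ j * (1 / 2) ^ 2 := fun j =>
      pow_add _ _ _
    rw [tsum_congr h3, ENNReal.tsum_mul_right, ENNReal.tsum_geometric]
    have h4 : (1 - 1 / 2 : ENNReal) = 2⁻¹ := by
      rw [one_div]
      exact ENNReal.one_sub_inv_two
    rw [h4, inv_inv, one_div, pow_two, ← mul_assoc,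
      ENNReal.mul_inv_cancel (by norm_num) (by norm_num), one_mul]
  have h5 : volume (ball xst s) ≤ volume (ball xst s ∩ ⋃ j, S.bad j) +
      volume (ball xst s \ ⋃ j, S.bad j) := measure_le_inter_add_sdiff _ _ _
  rw [h0', add_zero] at h5
  have h6 : volume (ball xst s) ≤ 1 / 2 * volume (ball xst s) := h5.trans h2
  have h7 : (1 / 2 : ENNReal) * volume (ball xst s) < volume (ball xst s) := by
    have h8 : (1 / 2 : ENNReal) * volume (ball xst s) = volume (ball xst s) / 2 := by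
      rw [one_div, div_eq_mul_inv, mul_comm]
    rw [h8]
    exact ENNReal.half_lt_self hVpos.ne' hVfin
  exact absurd h6 (not_le.mpr h7)

end Sys

end Pool.Agent.H50.CS
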