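import Pool.Agent.H50.CS.Defs

/-!
# CS-TAYLOR: circular means and the Levi form; sub-mean value property of smooth functions

* `mean_taylor`: for `P` of class `C²` at `x`,
  `(2π)⁻¹∫₀^{2π} P(x + r e^{iθ} w) dθ = P(x) + r² levi P x w + o(r²)` as `r → 0⁺`:
  second order Taylor expansion `P(x+h) = P x + P'(x)h + ½P''(x)(h,h) + o(|h|²)`, `h = r e^{iθ} w`,
  `e^{iθ}w = cos θ w + sin θ (i w)`, `∫ cos = ∫ sin = ∫ cos sin = 0`, `(2π)⁻¹∫cos² = ½`, so the mean of
  `½P''(h,h)` is `¼ r²(P''(w,w) + P''(iw,iw)) = r² levi P x w`.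
* `levi_nonneg_of_mean`: consequence.
* `smoothPsh_contPsh`: if `v` is smooth with nonnegative Levi form on the open set `Ω` then it satisfies
  the sub-mean value inequality on every closed disc in `Ω`. Proof: fix `a, b` with
  `a + ζ b ∈ Ω` for `‖ζ‖ ≤ 1` (hence for `‖ζ‖ < 1+ε`, compactness), `F(ζ) = v(a+ζb)`, a `C²` function near
  the closed unit disc with `ΔF = 4 levi v (a+ζb) b ≥ 0`. With `m(r) = (2π)⁻¹∫F(re^{iθ})dθ`:
  `m` is `C²` on `[0,1]` (differentiation under the integral), `m'(r) = (2π)⁻¹∫ ∂_rF`, and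
  `(r m'(r))' = (2π)⁻¹ ∫ (r F_rr + F_r) dθ = (2π)⁻¹∫ r ΔF dθ` since `r² ΔF = r²F_rr + rF_r + F_θθ` and
  `∫ F_θθ dθ = 0` by periodicity. So `r m'(r)` is nondecreasing and vanishes at `0`, `m' ≥ 0`,
  `F(0) = m(0) ≤ m(1)`.
  (Alternative proof: replace `v` by `v + ε‖·‖²`, so that `ΔF > 0`. By `mean_taylor` every point of the disc
  has small circles on which the mean is `> F`. Let `h` be the Poisson integral of `F|∂D`... ;
  or show directly that `r ↦ m(r)` has no ... ; any correct proof is fine.)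
(This file: mean_taylor, levi_nonneg_of_mean.)
-/

set_option autoImplicit false

noncomputable section

namespace Pool.Agent.H50.CS

open Complex Metric MeasureTheory Set Filter Topology
open scoped ContDiff ComplexConjugate
open Pool.Agent.H8.FZ

variable {n : ℕ}

/-- second order Taylor expansion with Peano remainder -/
theorem Taylor_peano {P : En n → ℝ} {x : En n} (hP : ContDiffAt ℝ 2 P x) {ε : ℝ} (hε : 0 < ε) :
    ∃ δ > 0, ∀ h : En n, ‖h‖ < δ →
      |P (x + h) - (P x + fderiv ℝ P x h + 1 / 2 * fderiv ℝ (fderiv ℝ P) x h h)| ≤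
        ε * ‖h‖ ^ 2 := by
  have h1 : HasFDerivAt (fderiv ℝ P) (fderiv ℝ (fderiv ℝ P) x) x := (c2_diff hP).hasFDerivAt
  have h2 := (hasFDerivAt_iff_isLittleO_nhds_zero.1 h1).def hε
  have h3 : ∀ᶠ y in 𝓝 x, DifferentiableAt ℝ P y := by
    filter_upwards [hP.eventually (by simp)] with y hy
    exact hy.differentiableAt (by norm_num)
  have h4 : ∀ᶠ h : En n in 𝓝 0, DifferentiableAt ℝ P (x + h) := by
    have : Tendsto (fun h : En n => x + h) (𝓝 0) (𝓝 x) := by
      have h5 : Continuous (fun h : En n => x + h) := by fun_prop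
      have h6 := h5.tendsto 0
      simpa using h6
    exact this.eventually h3
  obtain ⟨δ, hδ, hball⟩ := Metric.eventually_nhds_iff.1 (h2.and h4)
  refine ⟨δ, hδ, fun h hh => ?_⟩
  set B := fderiv ℝ (fderiv ℝ P) x with hB
  have hsymm : ∀ v w, B v w = B w v := fun v w => c2_symm hP v w
  set g : En n → ℝ := fun k => P (x + k) - fderiv ℝ P x k - 1 / 2 * B k k with hg
  have hder : ∀ k ∈ closedBall (0 : En n) ‖h‖, HasFDerivWithinAt g
      (fderiv ℝ P (x + k) - fderiv ℝ P x - B k) (closedBall (0 : En n) ‖h‖) k := by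
    intro k hk
    have hk' : dist k 0 < δ := by
      rw [mem_closedBall] at hk
      exact hk.trans_lt hh
    have hd : DifferentiableAt ℝ P (x + k) := (hball hk').2
    have e1 : HasFDerivAt (fun k : En n => P (x + k)) (fderiv ℝ P (x + k)) k := by
      have h8 := hd.hasFDerivAt.comp k ((hasFDerivAt_id (𝕜 := ℝ) k).const_add x)
      rw [ContinuousLinearMap.comp_id] at h8
      exact h8
    have e2 : HasFDerivAt (fun k : En n => fderiv ℝ P x k) (fderiv ℝ P x) k :=
      (fderiv ℝ P x).hasFDerivAt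
    have e3 : HasFDerivAt (fun k : En n => 1 / 2 * B k k) (B k) k := by
      have h5 : HasFDerivAt (fun k : En n => B k k) (B k + B.flip k) k := by
        have h6 := (B.hasFDerivAt (x := k)).clm_apply (hasFDerivAt_id k)
        refine h6.congr_fderiv ?_
        ext v
        simp
      have h7 := h5.const_mul (1 / 2 : ℝ)
      refine h7.congr_fderiv ?_
      ext v
      simp only [ContinuousLinearMap.smul_apply, ContinuousLinearMap.add_apply,
        ContinuousLinearMap.flip_apply, smul_eq_mul]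
      rw [hsymm v k]
      ring
    exact ((e1.sub e2).sub e3).hasFDerivWithinAt
  have hbd : ∀ k ∈ closedBall (0 : En n) ‖h‖,
      ‖fderiv ℝ P (x + k) - fderiv ℝ P x - B k‖ ≤ ε * ‖h‖ := by
    intro k hk
    have hk1 : ‖k‖ ≤ ‖h‖ := by simpa using hk
    have hk' : dist k 0 < δ := by rw [dist_zero_right]; exact hk1.trans_lt hh
    exact (hball hk').1.trans (mul_le_mul_of_nonneg_left hk1 hε.le)
  have h5 := Convex.norm_image_sub_le_of_norm_hasFDerivWithin_le hder hbd
    (convex_closedBall (0 : En n) ‖h‖) (x := 0) (y := h) (by simp) (by simp)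
  have h6 : g h - g 0 = P (x + h) - (P x + fderiv ℝ P x h + 1 / 2 * B h h) := by
    simp only [hg, map_zero, add_zero, mul_zero, sub_zero]
    ring
  rw [h6, Real.norm_eq_abs, sub_zero] at h5
  calc _ ≤ ε * ‖h‖ * ‖h‖ := h5
    _ = ε * ‖h‖ ^ 2 := by ring

theorem Taylor_exp (θ : ℝ) (w : En n) :
    Complex.exp (θ * I) • w = Real.cos θ • w + Real.sin θ • (I • w) := by
  have h1 : Complex.exp (θ * I) = (Real.cos θ : ℂ) + (Real.sin θ : ℂ) * I := by
    rw [Complex.exp_mul_I, ← Complex.ofReal_cos, ← Complex.ofReal_sin]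
  rw [h1, add_smul, mul_smul]
  rfl

theorem Taylor_integral (c a b p q s : ℝ) :
    ∫ θ in (0 : ℝ)..(2 * Real.pi), (c + (Real.cos θ * a + Real.sin θ * b) +
      (Real.cos θ ^ 2 * p + 2 * Real.sin θ * Real.cos θ * q + Real.sin θ ^ 2 * s)) =
      2 * Real.pi * c + Real.pi * (p + s) := by
  have h : ∀ θ ∈ uIcc (0 : ℝ) (2 * Real.pi), HasDerivAt (fun θ : ℝ => c * θ +
      (Real.sin θ * a - Real.cos θ * b) + ((θ / 2 + Real.sin θ * Real.cos θ / 2) * p +
      Real.sin θ ^ 2 * q + (θ / 2 - Real.sin θ * Real.cos θ / 2) * s))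
      (c + (Real.cos θ * a + Real.sin θ * b) +
      (Real.cos θ ^ 2 * p + 2 * Real.sin θ * Real.cos θ * q + Real.sin θ ^ 2 * s)) θ := by
    intro θ _
    have hs := Real.hasDerivAt_sin θ
    have hc := Real.hasDerivAt_cos θ
    have hid := hasDerivAt_id θ
    have hsc := hs.mul hc
    have h1 := (hid.const_mul c).add ((hs.mul_const a).sub (hc.mul_const b))
    have h2 := ((hid.div_const 2).add (hsc.div_const 2)).mul_const p
    have h3 := (hs.pow 2).mul_const q
    have h4 := ((hid.div_const 2).sub (hsc.div_const 2)).mul_const s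
    have h5 := h1.add ((h2.add h3).add h4)
    refine h5.congr_deriv ?_
    have h6 := Real.sin_sq_add_cos_sq θ
    simp only [id_eq, mul_one]
    have h7 : (1 : ℝ) / 2 + (Real.cos θ * Real.cos θ + Real.sin θ * -Real.sin θ) / 2 =
        Real.cos θ ^ 2 := by
      have : (1 : ℝ) = Real.sin θ ^ 2 + Real.cos θ ^ 2 := h6.symm
      rw [this]; ring
    have h8 : (1 : ℝ) / 2 - (Real.cos θ * Real.cos θ + Real.sin θ * -Real.sin θ) / 2 =
        Real.sin θ ^ 2 := by
      have : (1 : ℝ) = Real.sin θ ^ 2 + Real.cos θ ^ 2 := h6.symm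
      rw [this]; ring
    rw [h7, h8]
    push_cast
    ring
  rw [intervalIntegral.integral_eq_sub_of_hasDerivAt h]
  · simp only [Real.sin_two_pi, Real.cos_two_pi, Real.sin_zero, Real.cos_zero]
    ring
  · apply Continuous.intervalIntegrable
    fun_prop

theorem mean_taylor {P : En n → ℝ} {x : En n} (hP : ContDiffAt ℝ 2 P x) (w : En n) :
    Tendsto (fun r : ℝ => (((2 * Real.pi)⁻¹ *
      ∫ θ in (0 : ℝ)..(2 * Real.pi), P (x + (r : ℂ) • (Complex.exp (θ * I) • w))) - P x) / r ^ 2)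
      (𝓝[>] 0) (𝓝 (levi P x w)) := by
  rw [Metric.tendsto_nhdsWithin_nhds]
  intro ε hε
  have hw : 0 < ‖w‖ ^ 2 + 1 := by positivity
  set ε₁ := ε / (2 * (‖w‖ ^ 2 + 1)) with hε₁
  have hε₁0 : 0 < ε₁ := by positivity
  obtain ⟨δ, hδ, hT⟩ := Taylor_peano hP hε₁0
  -- continuity near `x`
  have hc : ∀ᶠ y in 𝓝 x, ContinuousAt P y := by
    filter_upwards [hP.eventually (by simp)] with y hy
    exact hy.continuousAt
  obtain ⟨δ', hδ', hC⟩ := Metric.eventually_nhds_iff.1 hc
  have hw1 : 0 < ‖w‖ + 1 := by positivity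
  refine ⟨min δ δ' / (‖w‖ + 1), by positivity, ?_⟩
  intro r hr hrd
  have hr0 : 0 < r := hr
  rw [Real.dist_eq, sub_zero, abs_of_pos hr0, lt_div_iff₀ hw1] at hrd
  have hrw : r * ‖w‖ < min δ δ' := by nlinarith [norm_nonneg w]
  have hnorm : ∀ θ : ℝ, ‖(r : ℂ) • (Complex.exp (θ * I) • w)‖ = r * ‖w‖ := by
    intro θ
    rw [norm_smul, norm_smul, Complex.norm_exp_ofReal_mul_I, Complex.norm_real,
      Real.norm_of_nonneg hr0.le, one_mul]
  set p := fderiv ℝ (fderiv ℝ P) x w w with hp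
  set q := fderiv ℝ (fderiv ℝ P) x w (I • w) with hq
  set s := fderiv ℝ (fderiv ℝ P) x (I • w) (I • w) with hs
  set a := fderiv ℝ P x w with ha
  set b := fderiv ℝ P x (I • w) with hb
  have hmodel : ∀ θ : ℝ, P x + fderiv ℝ P x ((r : ℂ) • (Complex.exp (θ * I) • w)) +
      1 / 2 * fderiv ℝ (fderiv ℝ P) x ((r : ℂ) • (Complex.exp (θ * I) • w))
        ((r : ℂ) • (Complex.exp (θ * I) • w)) =
      P x + (Real.cos θ * (r * a) + Real.sin θ * (r * b)) +
      (Real.cos θ ^ 2 * (r ^ 2 / 2 * p) + 2 * Real.sin θ * Real.cos θ * (r ^ 2 / 2 * q) +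
        Real.sin θ ^ 2 * (r ^ 2 / 2 * s)) := by
    intro θ
    have e1 : (r : ℂ) • (Complex.exp (θ * I) • w) =
        (r * Real.cos θ) • w + (r * Real.sin θ) • (I • w) := by
      rw [Taylor_exp, Complex.coe_smul, smul_add, smul_smul, smul_smul]
    have hsym : fderiv ℝ (fderiv ℝ P) x (I • w) w = q := c2_symm hP _ _
    rw [e1]
    simp only [map_add, map_smul, ContinuousLinearMap.add_apply, ContinuousLinearMap.smul_apply,
      smul_eq_mul]
    rw [hsym]
    ring
  have hcont : Continuous fun θ : ℝ => P (x + (r : ℂ) • (Complex.exp (θ * I) • w)) := by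
    rw [continuous_iff_continuousAt]
    intro θ
    have h1 : ContinuousAt P (x + (r : ℂ) • (Complex.exp (θ * I) • w)) := by
      apply hC
      rw [dist_eq_norm, add_sub_cancel_left, hnorm]
      exact hrw.trans_le (min_le_right _ _)
    have h2 : ContinuousAt (fun θ : ℝ => x + (r : ℂ) • (Complex.exp (θ * I) • w)) θ := by
      fun_prop
    exact ContinuousAt.comp h1 h2
  set F : ℝ → ℝ := fun θ => P x + (Real.cos θ * (r * a) + Real.sin θ * (r * b)) +
      (Real.cos θ ^ 2 * (r ^ 2 / 2 * p) + 2 * Real.sin θ * Real.cos θ * (r ^ 2 / 2 * q) +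
        Real.sin θ ^ 2 * (r ^ 2 / 2 * s)) with hF
  have hFc : Continuous F := by
    rw [hF]; fun_prop
  have hFint : ∫ θ in (0 : ℝ)..(2 * Real.pi), F θ = 2 * Real.pi * P x +
      Real.pi * (r ^ 2 / 2 * p + r ^ 2 / 2 * s) := Taylor_integral _ _ _ _ _ _
  have hdiff : |∫ θ in (0 : ℝ)..(2 * Real.pi),
      (P (x + (r : ℂ) • (Complex.exp (θ * I) • w)) - F θ)| ≤
      ε₁ * (r * ‖w‖) ^ 2 * (2 * Real.pi) := by
    have h1 := intervalIntegral.norm_integral_le_of_norm_le_const (a := (0 : ℝ))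
      (b := 2 * Real.pi) (C := ε₁ * (r * ‖w‖) ^ 2)
      (f := fun θ => P (x + (r : ℂ) • (Complex.exp (θ * I) • w)) - F θ) (by
        intro θ _
        have h2 := hT ((r : ℂ) • (Complex.exp (θ * I) • w)) (by
          rw [hnorm]; exact hrw.trans_le (min_le_left _ _))
        rw [hmodel, hnorm] at h2
        exact h2)
    rw [sub_zero, abs_of_pos (by positivity)] at h1
    exact h1
  rw [intervalIntegral.integral_sub (hcont.intervalIntegrable _ _)
    (hFc.intervalIntegrable _ _), hFint] at hdiff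
  set J := ∫ θ in (0 : ℝ)..(2 * Real.pi), P (x + (r : ℂ) • (Complex.exp (θ * I) • w)) with hJ
  have hpi : 0 < 2 * Real.pi := by positivity
  have hl : levi P x w = 1 / 4 * (p + s) := rfl
  have hkey : ((2 * Real.pi)⁻¹ * J - P x) / r ^ 2 - levi P x w =
      (J - (2 * Real.pi * P x + Real.pi * (r ^ 2 / 2 * p + r ^ 2 / 2 * s))) /
        (2 * Real.pi * r ^ 2) := by
    rw [hl]
    have hpi' : Real.pi ≠ 0 := Real.pi_ne_zero
    have hr' : r ≠ 0 := hr0.ne'
    field_simp
    ring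
  rw [Real.dist_eq, hkey, abs_div, abs_of_pos (show (0 : ℝ) < 2 * Real.pi * r ^ 2 by positivity),
    div_lt_iff₀ (by positivity)]
  have hfin : ε₁ * (r * ‖w‖) ^ 2 * (2 * Real.pi) < ε * (2 * Real.pi * r ^ 2) := by
    have h3 : ε₁ * ‖w‖ ^ 2 < ε := by
      rw [hε₁, div_mul_eq_mul_div, div_lt_iff₀ (by positivity)]
      nlinarith [sq_nonneg ‖w‖]
    calc ε₁ * (r * ‖w‖) ^ 2 * (2 * Real.pi) = (ε₁ * ‖w‖ ^ 2) * (2 * Real.pi * r ^ 2) := by ring
      _ < ε * (2 * Real.pi * r ^ 2) := mul_lt_mul_of_pos_right h3 (by positivity)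
  exact hdiff.trans_lt hfin

theorem levi_nonneg_of_mean {P : En n → ℝ} {x : En n} (hP : ContDiffAt ℝ 2 P x) (w : En n)
    {r₀ : ℝ} (hr₀ : 0 < r₀) (h : ∀ r, 0 < r → r < r₀ → P x ≤ (2 * Real.pi)⁻¹ *
      ∫ θ in (0 : ℝ)..(2 * Real.pi), P (x + (r : ℂ) • (Complex.exp (θ * I) • w))) :
    0 ≤ levi P x w := by
  refine ge_of_tendsto (mean_taylor hP w) ?_
  have h1 : Ioo (0 : ℝ) r₀ ∈ 𝓝[>] (0 : ℝ) := Ioo_mem_nhdsGT hr₀
  filter_upwards [h1] with r hr
  have h2 := h r hr.1 hr.2
  exact div_nonneg (by linarith) (by positivity)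

end Pool.Agent.H50.CS
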