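import Pool.Agent.H50.CS.BLow
import Pool.Agent.H50.CS.BLow2

/-!
# CS-TUBE1: plurisubharmonicity and domination in the tube

Constants. `cf > 0` is the constant of the curve: `cf ν_k²/N ≤ |f'(ζ)|²` for
`e^{-5/ν_k} ≤ |ζ| ≤ e^{-1/ν_k}`. `ε = c7/N` with `c7 e^{10} Hc ≤ (4/5) cf`. `A³ · 121 · Hc · e^{10} ≤ (1/5) c7² cf`.
`K` is so large that `ε e^{10} N Cs/(2K) ≤ ρ²/2`; `T 0` so large that `ε/(2τ²K T 0) ≤ 1/2`.

* `inn_lower` (in the closed tube `X ≤ τ²`): with `G_lower`, `norm_sq_lower`, `b_lower`: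
  `levi g + ¾|v|² ≥ |ξ|² + ¾|v|² + levi b ≥ ½|ξ|² + (3/10)|f'|²|η|² + ¾ρ²|η|² + levi b`
  `≥ ε(p SD/X B2 + ½p² SM/X A2) + (3/10)|f'|²|η|² - εW|η|²` and `εW ≤ (1/5)|f'|²`:
  if `W ≠ 0` then by `ss_range` `-5/ν_k ≤ r ≤ -1/ν_k`, `r = log|ζ|`, so `|f'|² ≥ cf ν_k²/N`, and
  `εW ≤ (c7/N) e^{10}/4 Hc ν_k² ≤ (1/5) cf ν_k²/N`. So the sum is `≥ ε(p SD/X B2 + ½p² SM/X A2) + (1/10)|f'|²|η|²`.
* `det_le` (domination, `X ≤ τ²`): suppose `levi a x ≥ 0`. If `X = 0`: `levi_a_zero` and `ma_upper` with the standard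
  basis give `ma a x ≤ 0 ≤ ma(¾|·|²+g)` (`ma_nonneg`). If `X > 0`: `ma_upper` with `v = bas`, `det_bas`:
  `ρ² ma a ≤ (A/N)³ (p³/X²) UM·UD·Σ⁺/(4R)`, `Σ = ∑ u_i''ℓ_i`. By `sum_uu`: `Σ ≤ 0` (then the third diagonal
  entry is `≤ 0`, so `ma a ≤ 0`) or for some `k`: `1 ≤ ν_k ss ≤ 2` and `Σ ≤ Hc ν_k²|ℓ_k|`. `ma_lower` with
  `q = (½εp²SM/X, εp SD/X, |f'|²/10)` (`bas_eta`, `bas_cc`, `bas_xsq`):
  `ρ² ma(¾|·|²+g) ≥ ½ε²(p³/X²) SM·SD·|f'|²/10`. By `dom_sum`, `1/R ≤ e^{10}` (`r ≥ -5/ν_k ≥ -5`), `|f'|² ≥ cf ν_k²/N`: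
  `(A/N)³·121 SM SD·Hc ν_k² e^{10}/4 ≤ (1/20) (c7/N)² SM SD cf ν_k²/N`. OK by the choice of `A`.
(This file: Par, Par.inn_lower, Par.inn.)
-/

set_option autoImplicit false

noncomputable section

namespace Pool.Agent.H50.CS

open Complex Metric MeasureTheory Set Filter Topology
open scoped ContDiff ComplexConjugate
open Pool.Agent.H8.FZ

namespace Crv

/-- The standing assumptions on the parameters. -/
structure Par (c : Crv) (N : ℕ) (ν : ℕ → ℝ) (K τ : ℝ) (T : ℕ → ℝ) (cf c7 A Cs : ℝ) : Prop where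
  h : Scales N ν
  hK : 2 * Hc ≤ K
  hK8 : 8 ≤ K
  hτ : 0 < τ
  hT : TChain N K T
  hcf : 0 < cf
  hc7 : 0 < c7
  hA : 0 < A
  hCs : 0 < Cs
  c7le : c7 * Real.exp 10 * Hc ≤ 4 / 5 * cf
  Ale : A ^ 3 * 121 * Hc * Real.exp 10 ≤ 1 / 5 * c7 ^ 2 * cf
  lowf : ∀ i, i < N → ∀ ζ : ℂ, Real.exp (-5 / ν i) ≤ ‖ζ‖ → ‖ζ‖ ≤ Real.exp (-1 / ν i) →
    cf * ν i ^ 2 / N ≤ ‖deriv c.f1 ζ‖ ^ 2 + ‖deriv c.f2 ζ‖ ^ 2
  besq : ∀ i < N, ∀ ρ, deriv (be N ν i) ρ ^ 2 ≤ Cs * be N ν i ρ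
  Kbig : c7 / N * (Real.exp 10 * N * Cs / (2 * K)) ≤ c.ρ ^ 2 / 2
  Tbig : c7 / N / (2 * τ ^ 2 * K * T 0) ≤ 1 / 2

variable {c : Crv} {N : ℕ} {ν : ℕ → ℝ} {K τ : ℝ} {T : ℕ → ℝ} {cf c7 A Cs : ℝ}

lemma Par.Kpos (P : Par c N ν K τ T cf c7 A Cs) : 0 < K := by
  have := P.hK8
  linarith

lemma Par.Npos (P : Par c N ν K τ T cf c7 A Cs) : (0 : ℝ) < N := by
  have := P.h.hN
  exact_mod_cast this

lemma Par.Tmono (P : Par c N ν K τ T cf c7 A Cs) (i : ℕ) : T i ≤ T (i + 1) := by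
  refine le_trans ?_ (P.hT.step i)
  have h1 := P.hT.one i
  have hN : (1 : ℝ) ≤ N := by exact_mod_cast P.h.hN
  have hK : 1 ≤ Real.exp K := Real.one_le_exp P.Kpos.le
  have h2 : T i ≤ T i ^ 4 := by
    calc T i = T i ^ 1 := (pow_one _).symm
      _ ≤ T i ^ 4 := pow_le_pow_right₀ h1 (by norm_num)
  have h3 : (1 : ℝ) ≤ (N : ℝ) ^ 2 := one_le_pow₀ hN
  have h4 : (1 : ℝ) ≤ 27 * (N : ℝ) ^ 2 * Real.exp K := by nlinarith
  have h5 : 0 ≤ T i ^ 4 := by positivity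
  calc T i ≤ T i ^ 4 := h2
    _ ≤ 27 * (N : ℝ) ^ 2 * Real.exp K * T i ^ 4 := le_mul_of_one_le_left h5 h4

lemma fsq_nonneg (x : En 3) : 0 ≤ c.fsq x := by
  unfold fsq; positivity

/-- on the range of the scale `k`, `|f'(ζ)|²` is bounded below -/
lemma Par.fsq_lower (P : Par c N ν K τ T cf c7 A Cs) {x : En 3} {k : ℕ} (hk : k < N)
    (h1 : 1 ≤ ν k * ss ν (c.rr x)) (h2 : ν k * ss ν (c.rr x) ≤ 4) :
    cf * ν k ^ 2 / N ≤ c.fsq x := by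
  obtain ⟨h3, h4⟩ := ss_range P.h hk h1 h2
  have hν : 0 < ν k := lt_of_lt_of_le one_pos (P.h.one k)
  have hneg : c.rr x < 0 := by
    have : -1 / ν k < 0 := div_neg_of_neg_of_pos (by norm_num) hν
    linarith
  have hze : 0 < ‖c.ze x‖ := by
    rcases (norm_nonneg (c.ze x)).eq_or_lt with h5 | h5
    · exfalso
      have h6 : c.rr x = 0 := by
        unfold rr R
        rw [← h5]; simp
      linarith
    · exact h5
  have hexp : ‖c.ze x‖ = Real.exp (c.rr x) := by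
    have h6 : c.rr x = Real.log ‖c.ze x‖ := by
      unfold rr R
      rw [Real.log_pow]; push_cast; ring
    rw [h6, Real.exp_log hze]
  exact P.lowf k hk (c.ze x) (by rw [hexp]; exact Real.exp_le_exp.mpr h3)
    (by rw [hexp]; exact Real.exp_le_exp.mpr h4)

theorem Par.inn_lower (P : Par c N ν K τ T cf c7 A Cs) {x : En 3} (hx : c.X x ≤ τ ^ 2) (v : En 3) :
    c7 / N * (pf τ (c.tt x) * c.SD N ν K τ T x / c.X x * (c.xsq x v - c.xr x v) +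
          1 / 2 * pf τ (c.tt x) ^ 2 * c.SM N ν K τ T x / c.X x * c.xr x v) +
        1 / 10 * c.fsq x * ‖c.eta v‖ ^ 2 ≤
      levi (c.gfun N ν K τ T (c7 / N)) x v + 3 / 4 * ‖v‖ ^ 2 := by
  have hK0 := P.Kpos
  have hN0 := P.Npos
  have hT0 : ∀ i, 0 < T i := fun i => lt_of_lt_of_le one_pos (P.hT.one i)
  have hε : 0 ≤ c7 / N := div_nonneg P.hc7.le hN0.le
  obtain ⟨W, hW, hb⟩ := b_lower (c := c) P.h hK0 P.hτ P.hT.one P.Tmono P.hCs P.besq hε x v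
  have hG := G_lower (c := c) P.hτ hx v
  have hn := c.norm_sq_lower x v
  have hlevi : levi (c.gfun N ν K τ T (c7 / N)) x v =
      levi (c.Gfun τ) x v + levi (c.bfun N ν K τ T (c7 / N)) x v := by
    have h1 : ContDiffAt ℝ 2 (c.Gfun τ) x :=
      ((Gfun_smooth (c := c) P.hτ).of_le ENat.LEInfty.out).contDiffAt
    have h2 : ContDiffAt ℝ 2 (c.bfun N ν K τ T (c7 / N)) x :=
      ((bfun_smooth (c := c) P.h hK0 P.hτ hT0 (c7 / N)).of_le ENat.LEInfty.out).contDiffAt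
    exact levi_add h1 h2 v
  have hxsq : 0 ≤ c.xsq x v := by unfold xsq; positivity
  have heta : 0 ≤ ‖c.eta v‖ ^ 2 := by positivity
  have hf0 := fsq_nonneg (c := c) x
  -- the term with `W`
  have hWf : c7 / N * W ≤ 1 / 5 * c.fsq x := by
    rcases hW with hW | ⟨k, hk, h1, h2, hW⟩
    · rw [hW, mul_zero]; positivity
    · have h3 := P.fsq_lower hk h1 h2
      have h4 : |c.elX K τ T 0 x| ≤ 1 := by
        obtain ⟨h5, h6⟩ := elX_mem (c := c) (τ := τ) hK0 (hT0 0) x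
        rw [abs_le]; constructor <;> linarith
      have h5 : 0 ≤ Real.exp 10 / 4 * Hc * ν k ^ 2 := by
        have := Hc_ge
        positivity
      have h6 : W ≤ Real.exp 10 / 4 * Hc * ν k ^ 2 := by
        rw [hW]
        exact mul_le_of_le_one_right h5 h4
      have h7 : c7 / N * W ≤ c7 / N * (Real.exp 10 / 4 * Hc * ν k ^ 2) :=
        mul_le_mul_of_nonneg_left h6 hε
      have h8 : c7 / N * (Real.exp 10 / 4 * Hc * ν k ^ 2) =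
          (c7 * Real.exp 10 * Hc) * (ν k ^ 2 / (4 * N)) := by
        field_simp
      have h9 : (c7 * Real.exp 10 * Hc) * (ν k ^ 2 / (4 * N)) ≤
          (4 / 5 * cf) * (ν k ^ 2 / (4 * N)) :=
        mul_le_mul_of_nonneg_right P.c7le (by positivity)
      have h10 : (4 / 5 * cf) * (ν k ^ 2 / (4 * N)) = 1 / 5 * (cf * ν k ^ 2 / N) := by
        field_simp
      linarith
  have hTb := mul_le_mul_of_nonneg_right P.Tbig hxsq
  have hKb := mul_le_mul_of_nonneg_right P.Kbig heta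
  have hWb := mul_le_mul_of_nonneg_right hWf heta
  have hρ2 : 0 ≤ c.ρ ^ 2 * ‖c.eta v‖ ^ 2 := by positivity
  have hsplit : c7 / N * (Real.exp 10 * N * Cs / (2 * K) + W) * ‖c.eta v‖ ^ 2 =
      c7 / N * (Real.exp 10 * N * Cs / (2 * K)) * ‖c.eta v‖ ^ 2 + c7 / N * W * ‖c.eta v‖ ^ 2 := by
    ring
  rw [hsplit] at hb
  rw [hlevi]
  linarith

theorem Par.inn (P : Par c N ν K τ T cf c7 A Cs) {x : En 3} (hx : c.X x ≤ τ ^ 2) (v : En 3) :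
    0 ≤ levi (c.gfun N ν K τ T (c7 / N)) x v + 3 / 4 * ‖v‖ ^ 2 := by
  refine le_trans ?_ (P.inn_lower hx v)
  have hK0 := P.Kpos
  have hN0 := P.Npos
  have hT0 : ∀ i, 0 < T i := fun i => lt_of_lt_of_le one_pos (P.hT.one i)
  have hε : 0 ≤ c7 / N := div_nonneg P.hc7.le hN0.le
  have h1 := SD_nonneg (c := c) (τ := τ) P.h hK0 hT0 x
  have h2 := SM_nonneg (c := c) (τ := τ) P.h hK0 hT0 x
  have h3 := xr_le (c := c) x v
  have h4 := xr_nonneg (c := c) x v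
  have h5 := c.X_nonneg x
  have h6 : 0 ≤ pf τ (c.tt x) := by
    unfold pf
    positivity
  have h7 := fsq_nonneg (c := c) x
  have h8 : 0 ≤ c.xsq x v - c.xr x v := by linarith
  positivity

end Crv

end Pool.Agent.H50.CS
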