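import Pool.Agent.H50.CS.Tube1

/-!
# CS-TUBE: existence of the tubes

Choice of the parameters. `cf` from `rs_main`; `c7 = (4/5) cf e^{-10}/Hc`; `A > 0` with
`A³·121·Hc·e^{10} ≤ (1/5)c7²cf`; `A₀ = A/4`. Given `ε₀ > 0` and `w₀ ∈ (0,1/16]`:
`N ≥ 1` with `c7/N ≤ ε₀/2`; `(ν,f1,f2,M)` from `rs_main N`; `ρ = min(w₀/8, w₀/(2 max M 1))` so that
`w₀/(2ρ) ≥ M`; the curve `c`. `Cs` from `be_sq`. On `ball 0 1`, `‖ζ‖ ≤ 2/ρ =: Z`, so `fsq ≤ F` (continuity of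
`deriv f_i` on the compact disc), `X ≤ Y` (continuity on the closed ball). Then `K ≥ 8, 2Hc` large:
`c7/N·(e^{10}N Cs/(2K)) ≤ ρ²/2` and `≤ ε₀ρ²/4`. `τ₀ ≤ 1/4` such that for `0 < τ < τ₀`:
`4τ²(|log(Y+1)| + |log τ²|) ≤ ε₀/2` (`τ² log τ → 0`); for `x` in the ball `τ² ≤ X + τ² ≤ Y + 1` so `|G| ≤ ε₀/2`.
Given `τ`: `T 0` large, `T (i+1) = 27N²e^K (T i)⁴`:
`c7/N/(2τ²K T 0) ≤ 1/2` and `(c7/N)/(2τ²K T 0)·(2 + 2F/ρ²) ≤ ε₀/4`, `(c7/N)·e^{10}/4·Hc ν₀²/(2K T 0) ≤ ε₀ρ²/4`.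
`TubeOK.out`: `x` in the ball off the tube. `levi g ≥ levi b` (`G_nonneg`); `b_lower`; the first bracket is `≥ 0`;
`xsq ≤ (2 + 2F/ρ²)‖v‖²` (`xsq_le`, `eta_le`); `‖η‖² ≤ ‖v‖²/ρ²`; `W`: if `W ≠ 0` then `rr x < 0` (`ss_range`), so
`R < 1` and (off the tube) `X ≥ τ²`: `|elX 0| ≤ 1/(2K T 0)` (`elX_out`), `ν_k ≤ ν_0`.
(This file: Crv.Par.out.)
-/

set_option autoImplicit false

noncomputable section

namespace Pool.Agent.H50.CS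

open Complex Metric MeasureTheory Set Filter Topology
open scoped ContDiff ComplexConjugate
open Pool.Agent.H8.FZ

theorem TubeOut_nu_le {N : ℕ} {ν : ℕ → ℝ} (h : Scales N ν) {k : ℕ} (hk : k < N) :
    ν k ≤ ν 0 := by
  induction k with
  | zero => exact le_refl _
  | succ k ih =>
    have h1 := h.sep k hk
    have h2 := h.one (k + 1)
    have h3 := ih (by omega)
    linarith

/-- off the tube the Levi form of `g` is almost nonnegative -/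
theorem Crv.Par.out {c : Crv} {N : ℕ} {ν : ℕ → ℝ} {K τ : ℝ} {T : ℕ → ℝ} {cf c7 A Cs : ℝ}
    (P : Crv.Par c N ν K τ T cf c7 A Cs) {F ε₀ : ℝ} (hF : ∀ x ∈ ball (0 : En 3) 1, c.fsq x ≤ F)
    (h1 : c7 / N * (Real.exp 10 * N * Cs / (2 * K)) ≤ ε₀ * c.ρ ^ 2 / 4)
    (h2 : c7 / N / (2 * τ ^ 2 * K * T 0) * (2 + 2 * F / c.ρ ^ 2) ≤ ε₀ / 4)
    (h3 : c7 / N * (Real.exp 10 / 4 * Hc * ν 0 ^ 2 * (1 / (2 * K * T 0))) ≤ ε₀ * c.ρ ^ 2 / 4)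
    {x : En 3} (hx : x ∈ ball (0 : En 3) 1) (hxt : x ∉ c.tube τ) (v : En 3) :
    -(ε₀ * ‖v‖ ^ 2) ≤ levi (c.gfun N ν K τ T (c7 / N)) x v := by
  have hK0 := P.Kpos
  have hN0 := P.Npos
  have hτ := P.hτ
  have hT0 : ∀ i, 0 < T i := fun i => lt_of_lt_of_le one_pos (P.hT.one i)
  have hT00 := hT0 0
  have hHc := Hc_ge
  have hρ := c.hρ
  have hε : 0 ≤ c7 / N := div_nonneg P.hc7.le hN0.le
  obtain ⟨W, hW, hb⟩ :=
    Crv.b_lower (c := c) P.h hK0 P.hτ P.hT.one P.Tmono P.hCs P.besq hε x v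
  have hG := Crv.G_nonneg (c := c) P.hτ x v
  have hlevi : levi (c.gfun N ν K τ T (c7 / N)) x v =
      levi (c.Gfun τ) x v + levi (c.bfun N ν K τ T (c7 / N)) x v := by
    have h1 : ContDiffAt ℝ 2 (c.Gfun τ) x :=
      ((Crv.Gfun_smooth (c := c) P.hτ).of_le ENat.LEInfty.out).contDiffAt
    have h2 : ContDiffAt ℝ 2 (c.bfun N ν K τ T (c7 / N)) x :=
      ((Crv.bfun_smooth (c := c) P.h hK0 P.hτ hT0 (c7 / N)).of_le ENat.LEInfty.out).contDiffAt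
    exact levi_add h1 h2 v
  have hxsq0 : 0 ≤ c.xsq x v := by unfold Crv.xsq; positivity
  have heta0 : 0 ≤ ‖c.eta v‖ ^ 2 := by positivity
  have hf0 := Crv.fsq_nonneg (c := c) x
  have hf := hF x hx
  have hF0 : 0 ≤ F := hf0.trans hf
  have hv0 : 0 ≤ ‖v‖ ^ 2 := by positivity
  have heta := c.eta_le v
  have hxsq := c.xsq_le x v
  -- the bracket is nonnegative
  have hSD := Crv.SD_nonneg (c := c) (τ := τ) P.h hK0 hT0 x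
  have hSM := Crv.SM_nonneg (c := c) (τ := τ) P.h hK0 hT0 x
  have hxr := Crv.xr_le (c := c) x v
  have hxr0 := Crv.xr_nonneg (c := c) x v
  have hX0 := c.X_nonneg x
  have hpf0 : 0 ≤ pf τ (c.tt x) := by unfold pf; positivity
  have hdiff : 0 ≤ c.xsq x v - c.xr x v := by linarith
  have hbr : 0 ≤ c7 / N * (pf τ (c.tt x) * c.SD N ν K τ T x / c.X x * (c.xsq x v - c.xr x v) +
          1 / 2 * pf τ (c.tt x) ^ 2 * c.SM N ν K τ T x / c.X x * c.xr x v) := by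
    positivity
  -- term 1
  have hxsq2 : c.xsq x v ≤ (2 + 2 * F / c.ρ ^ 2) * ‖v‖ ^ 2 := by
    have e1 : c.fsq x * ‖c.eta v‖ ^ 2 ≤ F * (‖v‖ ^ 2 / c.ρ ^ 2) :=
      mul_le_mul hf heta heta0 hF0
    calc c.xsq x v ≤ 2 * ‖v‖ ^ 2 + 2 * c.fsq x * ‖c.eta v‖ ^ 2 := hxsq
      _ = 2 * ‖v‖ ^ 2 + 2 * (c.fsq x * ‖c.eta v‖ ^ 2) := by ring
      _ ≤ 2 * ‖v‖ ^ 2 + 2 * (F * (‖v‖ ^ 2 / c.ρ ^ 2)) := by linarith
      _ = (2 + 2 * F / c.ρ ^ 2) * ‖v‖ ^ 2 := by ring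
  have hq0 : 0 ≤ c7 / N / (2 * τ ^ 2 * K * T 0) := by positivity
  have t1 : c7 / N / (2 * τ ^ 2 * K * T 0) * c.xsq x v ≤ ε₀ / 4 * ‖v‖ ^ 2 := by
    calc c7 / N / (2 * τ ^ 2 * K * T 0) * c.xsq x v
        ≤ c7 / N / (2 * τ ^ 2 * K * T 0) * ((2 + 2 * F / c.ρ ^ 2) * ‖v‖ ^ 2) :=
          mul_le_mul_of_nonneg_left hxsq2 hq0
      _ = c7 / N / (2 * τ ^ 2 * K * T 0) * (2 + 2 * F / c.ρ ^ 2) * ‖v‖ ^ 2 := by ring
      _ ≤ ε₀ / 4 * ‖v‖ ^ 2 := mul_le_mul_of_nonneg_right h2 hv0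
  have hε₀ : 0 ≤ ε₀ := by
    have e1 : 0 ≤ c7 / N / (2 * τ ^ 2 * K * T 0) * (2 + 2 * F / c.ρ ^ 2) := by positivity
    linarith
  have hρ2 : 0 < c.ρ ^ 2 := by positivity
  have hconv : ε₀ * c.ρ ^ 2 / 4 * ‖c.eta v‖ ^ 2 ≤ ε₀ / 4 * ‖v‖ ^ 2 := by
    calc ε₀ * c.ρ ^ 2 / 4 * ‖c.eta v‖ ^ 2 ≤ ε₀ * c.ρ ^ 2 / 4 * (‖v‖ ^ 2 / c.ρ ^ 2) :=
          mul_le_mul_of_nonneg_left heta (by positivity)
      _ = ε₀ / 4 * ‖v‖ ^ 2 := by field_simp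
  -- term 2
  have t2 : c7 / N * (Real.exp 10 * N * Cs / (2 * K)) * ‖c.eta v‖ ^ 2 ≤ ε₀ / 4 * ‖v‖ ^ 2 :=
    (mul_le_mul_of_nonneg_right h1 heta0).trans hconv
  -- term 3
  have hWle : c7 / N * W ≤ ε₀ * c.ρ ^ 2 / 4 := by
    rcases hW with hW | ⟨k, hk, e1, e2, hW⟩
    · rw [hW, mul_zero]; positivity
    · have hneg : c.rr x < 0 := by
        by_contra hcon
        rw [ss_of_nonneg P.h (not_lt.1 hcon)] at e1
        norm_num at e1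
      have hR1 : c.R x < 1 := by
        by_contra hcon
        have : 0 ≤ Real.log (c.R x) := Real.log_nonneg (not_lt.1 hcon)
        have e3 : c.rr x = 1 / 2 * Real.log (c.R x) := rfl
        linarith
      have hXt : τ ^ 2 ≤ c.X x := by
        by_contra hcon
        exact hxt ⟨not_le.1 hcon, hR1⟩
      have hel := Crv.elX_out (c := c) hK0 P.hτ hT00 hXt
      have hνk := TubeOut_nu_le P.h hk
      have hνk0 : 0 ≤ ν k := by linarith [P.h.one k]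
      have hν2 : ν k ^ 2 ≤ ν 0 ^ 2 := pow_le_pow_left₀ hνk0 hνk 2
      refine le_trans (mul_le_mul_of_nonneg_left ?_ hε) h3
      rw [hW]
      apply mul_le_mul _ hel (abs_nonneg _) (by positivity)
      exact mul_le_mul_of_nonneg_left hν2 (by positivity)
  have t3 : c7 / N * W * ‖c.eta v‖ ^ 2 ≤ ε₀ / 4 * ‖v‖ ^ 2 :=
    (mul_le_mul_of_nonneg_right hWle heta0).trans hconv
  have hsplit : c7 / N * (Real.exp 10 * N * Cs / (2 * K) + W) * ‖c.eta v‖ ^ 2 =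
      c7 / N * (Real.exp 10 * N * Cs / (2 * K)) * ‖c.eta v‖ ^ 2 + c7 / N * W * ‖c.eta v‖ ^ 2 := by
    ring
  rw [hsplit] at hb
  rw [hlevi]
  have hfin : 0 ≤ ε₀ * ‖v‖ ^ 2 := mul_nonneg hε₀ hv0
  linarith

end Pool.Agent.H50.CS
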