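import Pool.Agent.H50.CS.VAux

/-!
# CS-VISC: pluripotential subsolutions are viscosity subsolutions; comparison with smooth functions

`u` continuous psh on `Ω`, `IsMA Ω u ν`, `T` open with compact closure in `Ω`, and on `T` the measure `ν` is
at least `c F dV` in the sense `∫χ c F ≤ ∫χ dν` for continuous `χ ≥ 0` with compact support in `T`.

* `visc`: if `q` is smooth, `x₀ ∈ T` and `u - q` has a local maximum at `x₀`, then `levi q x₀ ≥ 0` and
  `F x₀ ≤ ma q x₀`.
  (a) `levi q x₀ w ≥ 0`: for small `r`: `u x₀ ≤ mean_θ u(x₀+re^{iθ}w) ≤ u x₀ - q x₀ + mean_θ q(x₀+re^{iθ}w)`;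
  use `levi_nonneg_of_mean`.
  (b) Suppose `ma q x₀ < F x₀`. For `λ > 0` let `Q(x) = q x + λ‖x-x₀‖² + u x₀ - q x₀ - δ`. Since
  `levi Q x₀ w = levi q x₀ w + λ‖w‖² ≥ λ‖w‖²` and by continuity of `levi Q`, `ma Q`, `F`
  (`continuousOn_levi`, `continuousOn_ma`; compactness of the unit sphere), for `λ` small and then
  `r` small: on the closed ball `B̄ = closedBall x₀ r ⊆ T`: `levi Q ≥ 0`, `ma Q < F`, and
  `u - q ≤ u x₀ - q x₀`. On `B̄`: `u - Q ≤ δ - λ‖x-x₀‖²`. Take `δ = λr²/4`. Then `{u - Q > 0} ∩ B̄` is contained in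
  `K = closedBall x₀ (r/2)`, and `(u-Q)(x₀) = δ`. Let `u_k → u` uniformly on `V = ball x₀ r`, smooth psh
  (`exists_smooth_approx`), `θ(t) = Real.smoothTransition ((t - δ/4)/(δ/4))`-like: smooth, monotone, `0` for
  `t ≤ δ/4`, `1` for `t ≥ δ/2`. For `k` large `|u_k - u| < δ/8` on `V` so `θ(u_k - Q) = 0` off `K`;
  `comp_ineq` on `V`: `∫_V θ(u_k-Q) (ma u_k - ma Q) ≤ 0`. Let `k → ∞` (`IsMA.lim_int` for the first term,
  uniform convergence on `K` for the second): `∫_V θ(u-Q) dν ≤ ∫_V θ(u-Q) c ma Q`. But the left side is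
  `≥ ∫_V θ(u-Q) c F`, and `F > ma Q` on `V`, `θ(u-Q) ≥ 0` is positive near `x₀`: contradiction
  (`θ(u-Q)`, set to `0` off `V`, is continuous with compact support in `K`).
* `upper_comp`: `a` smooth, `u ≤ a` on `frontier T`, and at every `x ∈ T` where `levi a x ≥ 0` one has
  `ma a x ≤ F x`. Then `u ≤ a` on `T`. Proof: otherwise `sup_T (u - a) = η > 0`; choose `λ > 0` with
  `λ‖x‖² < η/4` on `T`; `u - a + λ‖x‖²` attains its maximum over the compact `closure T` at an `x₀`,
  the value is `≥ η/2`, and on the frontier it is `≤ η/4`, so `x₀ ∈ T`. `q = a - λ‖x‖²`: `visc` gives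
  `levi q x₀ ≥ 0`, `F x₀ ≤ ma q x₀`; then `levi a x₀ w = levi q x₀ w + λ‖w‖²`, so
  `ma a x₀ ≥ ma q x₀ + λ³ > F x₀` (`ma_mono_add`), contradiction with `ma a x₀ ≤ F x₀`.
(This file: visc.)
-/

set_option autoImplicit false

noncomputable section

namespace Pool.Agent.H50.CS

open Complex Metric MeasureTheory Set Filter Topology
open scoped ContDiff ComplexConjugate
open Pool.Agent.H8.FZ

open ViscAux in
theorem visc {Ω : Set (En 3)} (hΩ : IsOpen Ω) {u : En 3 → ℝ} {ν : Measure (En 3)}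
    (hu : ContPsh Ω u) (hν : IsMA Ω u ν) {T : Set (En 3)} (hT : IsOpen T) (hTΩ : T ⊆ Ω)
    {F : En 3 → ℝ} (hF : ContinuousOn F T)
    (hFν : ∀ χ : En 3 → ℝ, Continuous χ → HasCompactSupport χ → tsupport χ ⊆ T →
      (∀ x, 0 ≤ χ x) → ∫ x, χ x * (maC 3 * F x) ≤ ∫ x, χ x ∂ν)
    {q : En 3 → ℝ} (hq : ContDiff ℝ ∞ q) {x₀ : En 3} (hx₀ : x₀ ∈ T)
    (hmax : ∀ᶠ x in 𝓝 x₀, u x - q x ≤ u x₀ - q x₀) :
    (∀ w, 0 ≤ levi q x₀ w) ∧ F x₀ ≤ ma q x₀ := by
  have hlev : ∀ w, 0 ≤ levi q x₀ w :=
    fun w => levi_nonneg_of_max hΩ hu hq (hTΩ hx₀) hmax w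
  refine ⟨hlev, ?_⟩
  by_contra hcon
  push Not at hcon
  obtain ⟨l, hl0, hloc⟩ := exists_local hT hF hq hx₀ hlev hcon
  set Ql : En 3 → ℝ := fun y => q y + l * ‖y - x₀‖ ^ 2 with hQldef
  have hQl : ContDiff ℝ ∞ Ql := hq.add (contDiff_const.mul (smooth_norm_sq_sub x₀))
  obtain ⟨r, hr0, hr⟩ := Metric.nhds_basis_closedBall.eventually_iff.1
    ((hloc.and hmax).and (hT.mem_nhds hx₀))
  have hBT : closedBall x₀ r ⊆ T := fun x hx => (hr hx).2
  set δ : ℝ := l * r ^ 2 / 4 with hδdef
  have hδ0 : 0 < δ := by positivity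
  set c₀ : ℝ := u x₀ - q x₀ - δ with hc₀
  set Q : En 3 → ℝ := fun y => Ql y + c₀ with hQdef
  have hQ : ContDiff ℝ ∞ Q := hQl.add contDiff_const
  set V : Set (En 3) := ball x₀ r with hVdef
  have hV : IsOpen V := isOpen_ball
  have hVB : V ⊆ closedBall x₀ r := ball_subset_closedBall
  have hcl : closure V ⊆ closedBall x₀ r := closure_ball_subset_closedBall
  have hVc : IsCompact (closure V) := (isCompact_closedBall x₀ r).of_isClosed_subset
    isClosed_closure hcl
  have hVΩ : closure V ⊆ Ω := hcl.trans (hBT.trans hTΩ)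
  have hQpsh : SmoothPsh V Q := by
    refine ⟨hQ.contDiffOn, fun x hx w => ?_⟩
    have h1 : levi Q x w = levi Ql x w := levi_add_const Ql x c₀ w
    rw [h1]
    exact (hr (hVB hx)).1.1.1 w
  have hmaQ : ∀ x, ma Q x = ma Ql x := fun x => ma_add_const Ql x c₀
  obtain ⟨v0, hv0s, hv0p, hv0u⟩ := exists_smooth_approx hΩ hu hV hVc hVΩ
  obtain ⟨k0, hk0⟩ := eventually_atTop.1 (Metric.tendstoUniformlyOn_iff.1 hv0u (δ / 8) (by positivity))
  set v : ℕ → En 3 → ℝ := fun k => v0 (k + k0) with hvdef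
  have hvu : TendstoUniformlyOn v u atTop V := by
    rw [Metric.tendstoUniformlyOn_iff] at hv0u ⊢
    intro e he
    exact (tendsto_add_atTop_nat k0).eventually (hv0u e he)
  have hvp : ∀ k, SmoothPsh V (v k) := fun k => hv0p (k + k0)
  have hvs : ∀ k, ContDiff ℝ ∞ (v k) := fun k => hv0s (k + k0)
  have hvd : ∀ k, ∀ x ∈ V, |u x - v k x| < δ / 8 := by
    intro k x hx
    have := hk0 (k + k0) (Nat.le_add_left _ _) x hx
    rwa [Real.dist_eq] at this
  set K : Set (En 3) := closedBall x₀ (r / 2) with hKdef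
  have hK : IsCompact K := isCompact_closedBall _ _
  have hKV : K ⊆ V := closedBall_subset_ball (by linarith)
  -- the difference `u - Q`
  have huQ : ∀ x ∈ V, u x - Q x ≤ δ - l * ‖x - x₀‖ ^ 2 := by
    intro x hx
    have h1 := (hr (hVB hx)).1.2
    simp only [hQdef, hQldef, hc₀]
    linarith
  have huQK : ∀ x ∈ V, x ∉ K → u x - Q x ≤ 0 := by
    intro x hx hxK
    have h1 := huQ x hx
    have h2 : r / 2 < ‖x - x₀‖ := by
      rw [hKdef, mem_closedBall, dist_eq_norm, not_le] at hxK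
      exact hxK
    have h3 : (r / 2) ^ 2 ≤ ‖x - x₀‖ ^ 2 := by
      have : 0 ≤ r / 2 := by positivity
      exact pow_le_pow_left₀ this h2.le 2
    have h4 : l * (r / 2) ^ 2 ≤ l * ‖x - x₀‖ ^ 2 := mul_le_mul_of_nonneg_left h3 hl0.le
    have h5 : l * (r / 2) ^ 2 = δ := by rw [hδdef]; ring
    linarith
  -- the function `θ`
  set θ : ℝ → ℝ := fun t => Real.smoothTransition ((t - δ / 4) / (δ / 4)) with hθdef
  have hθs : ContDiff ℝ ∞ θ := Real.smoothTransition.contDiff.comp
    ((contDiff_id.sub contDiff_const).div_const _)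
  have hθmono : Monotone θ := by
    intro a b hab
    refine Real.smoothTransition.monotone ?_
    have : a - δ / 4 ≤ b - δ / 4 := by linarith
    exact div_le_div_of_nonneg_right this (by positivity)
  have hθ0 : ∀ t, t ≤ δ / 4 → θ t = 0 := by
    intro t ht
    refine Real.smoothTransition.zero_of_nonpos ?_
    exact div_nonpos_of_nonpos_of_nonneg (by linarith) (by positivity)
  have hθnn : ∀ t, 0 ≤ θ t := fun t => Real.smoothTransition.nonneg _
  have hθ1 : θ δ = 1 := by
    refine Real.smoothTransition.one_of_one_le ?_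
    rw [le_div_iff₀ (by positivity)]
    linarith
  have hθuc : UniformContinuous θ := by
    refine uc_st.comp ?_
    have h1 : LipschitzWith (Real.toNNReal (4 / δ)) (fun t : ℝ => (t - δ / 4) / (δ / 4)) := by
      refine LipschitzWith.of_dist_le_mul fun a b => ?_
      rw [Real.dist_eq, Real.dist_eq, Real.coe_toNNReal _ (by positivity)]
      have h2 : (a - δ / 4) / (δ / 4) - (b - δ / 4) / (δ / 4) = 4 / δ * (a - b) := by
        field_simp
        ring
      rw [h2, abs_mul, abs_of_pos (by positivity)]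
    exact h1.uniformContinuous
  have hgK : ∀ k, ∀ x ∈ V, x ∉ K → θ (v k x - Q x) = 0 := by
    intro k x hx hxK
    refine hθ0 _ ?_
    have h1 := (abs_lt.1 (hvd k x hx)).1
    have h2 := huQK x hx hxK
    linarith
  have hg0K : ∀ x ∈ V, x ∉ K → θ (u x - Q x) = 0 := by
    intro x hx hxK
    refine hθ0 _ ?_
    have h2 := huQK x hx hxK
    linarith
  have hcomp : ∀ k, ∫ x in V, θ (v k x - Q x) * (ma (v k) x - ma Q x) ≤ 0 :=
    fun k => comp_ineq hV (hvp k) hQpsh hθs hθmono hK hKV (hgK k)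
  have huc : ContinuousOn u V := hu.1.mono (subset_closure.trans hVΩ)
  have hgc : ∀ k, ContinuousOn (fun x => θ (v k x - Q x)) V := fun k =>
    (hθs.continuous.comp ((hvs k).continuous.sub hQ.continuous)).continuousOn
  have hg0c : ContinuousOn (fun x => θ (u x - Q x)) V :=
    hθs.continuous.comp_continuousOn (huc.sub hQ.continuous.continuousOn)
  have hmaQc : Continuous (ma Q) :=
    continuousOn_univ.1 (continuousOn_ma isOpen_univ hQ.contDiffOn)
  have hmavc : ∀ k, Continuous (ma (v k)) := fun k =>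
    continuousOn_univ.1 (continuousOn_ma isOpen_univ (hvs k).contDiffOn)
  have hgg : TendstoUniformlyOn (fun k x => θ (v k x - Q x)) (fun x => θ (u x - Q x)) atTop V := by
    have h1 : TendstoUniformlyOn (fun k x => v k x - Q x) (fun x => u x - Q x) atTop V := by
      rw [Metric.tendstoUniformlyOn_iff] at hvu ⊢
      intro e he
      filter_upwards [hvu e he] with k hk x hx
      have := hk x hx
      rw [Real.dist_eq] at this ⊢
      rwa [sub_sub_sub_cancel_right]
    exact hθuc.comp_tendstoUniformlyOn h1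
  have hc3 : (0 : ℝ) < maC 3 := by rw [maC]; positivity
  have hcomp2 : ∀ k, ∫ x in V, θ (v k x - Q x) * (maC 3 * ma (v k) x) ≤
      ∫ x in V, θ (v k x - Q x) * (maC 3 * ma Q x) := by
    intro k
    have i1 : IntegrableOn (fun x => θ (v k x - Q x) * (maC 3 * ma (v k) x)) V :=
      integrableOn_of_compact hV hK hKV
        ((hgc k).mul (continuous_const.mul (hmavc k)).continuousOn)
        (fun x hx hxK => by rw [hgK k x hx hxK, zero_mul])
    have i2 : IntegrableOn (fun x => θ (v k x - Q x) * (maC 3 * ma Q x)) V :=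
      integrableOn_of_compact hV hK hKV
        ((hgc k).mul (continuous_const.mul hmaQc).continuousOn)
        (fun x hx hxK => by rw [hgK k x hx hxK, zero_mul])
    rw [← sub_nonpos, ← integral_sub i1 i2]
    have e1 : ∀ x, θ (v k x - Q x) * (maC 3 * ma (v k) x) - θ (v k x - Q x) * (maC 3 * ma Q x) =
        maC 3 * (θ (v k x - Q x) * (ma (v k) x - ma Q x)) := fun x => by ring
    simp only [e1]
    rw [integral_const_mul]
    exact mul_nonpos_of_nonneg_of_nonpos hc3.le (hcomp k)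
  have hVΩ' : V ⊆ Ω := subset_closure.trans hVΩ
  have lim1 : Tendsto (fun k => ∫ x in V, θ (v k x - Q x) * (maC 3 * ma (v k) x)) atTop
      (𝓝 (∫ x in V, θ (u x - Q x) ∂ν)) :=
    hν.lim_int hV hVΩ' hvp hvu hK hKV hgc hgK hgg
  have lim2 : Tendsto (fun k => ∫ x in V, θ (v k x - Q x) * (maC 3 * ma Q x)) atTop
      (𝓝 (∫ x in V, θ (u x - Q x) * (maC 3 * ma Q x))) :=
    tendsto_setIntegral_mul hV hK hKV hgc hgK hgg (continuous_const.mul hmaQc).continuousOn
  have key : ∫ x in V, θ (u x - Q x) ∂ν ≤ ∫ x in V, θ (u x - Q x) * (maC 3 * ma Q x) :=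
    le_of_tendsto_of_tendsto' lim1 lim2 hcomp2
  -- the test function
  obtain ⟨hGc, hGt, hGs⟩ := continuous_indicator hV hK hKV hg0c hg0K
  set G : En 3 → ℝ := V.indicator (fun x => θ (u x - Q x)) with hGdef
  have hGnn : ∀ x, 0 ≤ G x := fun x => indicator_nonneg (fun y _ => hθnn _) x
  have hVT : V ⊆ T := hVB.trans hBT
  have h1 := hFν G hGc hGs (hGt.trans (hKV.trans hVT)) hGnn
  have e2 : ∫ x, G x ∂ν = ∫ x in V, θ (u x - Q x) ∂ν := integral_indicator hV.measurableSet
  have e3 : ∀ m : En 3 → ℝ, ∫ x, G x * m x = ∫ x in V, θ (u x - Q x) * m x := by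
    intro m
    rw [← integral_indicator hV.measurableSet]
    refine integral_congr_ae (Eventually.of_forall fun x => ?_)
    simp only [hGdef]
    by_cases hx : x ∈ V
    · rw [indicator_of_mem hx, indicator_of_mem hx]
    · rw [indicator_of_notMem hx, indicator_of_notMem hx, zero_mul]
  have h2 : ∫ x, G x * (maC 3 * F x) ≤ ∫ x, G x * (maC 3 * ma Q x) := by
    rw [e3 (fun x => maC 3 * ma Q x)]
    rw [e2] at h1
    exact h1.trans key
  -- positivity
  set D : En 3 → ℝ := fun x => G x * (maC 3 * (F x - ma Q x)) with hDdef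
  have hFV : ContinuousOn F V := hF.mono hVT
  have hDeq : D = V.indicator (fun x => θ (u x - Q x) * (maC 3 * (F x - ma Q x))) := by
    funext x
    simp only [hDdef, hGdef]
    by_cases hx : x ∈ V
    · rw [indicator_of_mem hx, indicator_of_mem hx]
    · rw [indicator_of_notMem hx, indicator_of_notMem hx, zero_mul]
  obtain ⟨hDc, -, hDs⟩ := continuous_indicator
    (f := fun x => θ (u x - Q x) * (maC 3 * (F x - ma Q x))) hV hK hKV
    (hg0c.mul (continuousOn_const.mul (hFV.sub hmaQc.continuousOn)))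
    (fun x hx hxK => by rw [hg0K x hx hxK, zero_mul])
  rw [← hDeq] at hDc hDs
  have hDnn : 0 ≤ D := by
    intro x
    rw [hDeq]
    refine indicator_nonneg (fun y hy => ?_) x
    have h3 := (hr (hVB hy)).1.1.2
    rw [← hmaQ] at h3
    exact mul_nonneg (hθnn _) (mul_nonneg hc3.le (sub_nonneg.2 h3.le))
  have hx₀V : x₀ ∈ V := mem_ball_self hr0
  have hDx₀ : D x₀ ≠ 0 := by
    have h3 := (hr (hVB hx₀V)).1.1.2
    rw [← hmaQ] at h3
    have h4 : u x₀ - Q x₀ = δ := by
      simp only [hQdef, hQldef, hc₀, sub_self, norm_zero]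
      ring
    rw [hDeq, indicator_of_mem hx₀V, h4, hθ1, one_mul]
    exact (mul_pos hc3 (sub_pos.2 h3)).ne'
  have h5 : 0 < ∫ x, D x := hDc.integral_pos_of_hasCompactSupport_nonneg_nonzero hDs hDnn hDx₀
  have h6 : ∫ x, D x = (∫ x, G x * (maC 3 * F x)) - ∫ x, G x * (maC 3 * ma Q x) := by
    have j1 : Integrable (fun x => G x * (maC 3 * F x)) := by
      have k1 : (fun x => G x * (maC 3 * F x)) =
          V.indicator (fun x => θ (u x - Q x) * (maC 3 * F x)) := by
        funext x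
        simp only [hGdef]
        by_cases hx : x ∈ V
        · rw [indicator_of_mem hx, indicator_of_mem hx]
        · rw [indicator_of_notMem hx, indicator_of_notMem hx, zero_mul]
      obtain ⟨k2, -, k3⟩ := continuous_indicator
        (f := fun x => θ (u x - Q x) * (maC 3 * F x)) hV hK hKV
        (hg0c.mul (continuousOn_const.mul hFV))
        (fun x hx hxK => by rw [hg0K x hx hxK, zero_mul])
      rw [k1]
      exact k2.integrable_of_hasCompactSupport k3
    have j2 : Integrable (fun x => G x * (maC 3 * ma Q x)) :=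
      (hGc.mul (continuous_const.mul hmaQc)).integrable_of_hasCompactSupport hGs.mul_right
    rw [← integral_sub j1 j2]
    refine integral_congr_ae (Eventually.of_forall fun x => ?_)
    simp only [hDdef]
    ring
  linarith

end Pool.Agent.H50.CS
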